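import Mathlib

/-!
# Words, positions and flows on the lattice
-/

set_option linter.unusedSectionVars false
set_option linter.unusedSimpArgs false

namespace Pool.Agent.Helper524_FM

open scoped Classical

variable {α : Type} [DecidableEq α]

/-- Letters: `(i, true)` is the generator `x_i`, `(i, false)` its inverse. -/
abbrev Ltr (α : Type) := α × Bool

/-- the inverse letter -/
def inv (l : Ltr α) : Ltr α := (l.1, !l.2)

/-- the sign of a letter -/
def sgn (l : Ltr α) : ℤ := if l.2 then 1 else -1

/-- the step of a letter -/
def stp (l : Ltr α) : α → ℤ := Pi.single l.1 (sgn l)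

/-- the lower endpoint of the edge crossed from `x` by the letter `l` -/
def low (x : α → ℤ) (l : Ltr α) : α → ℤ := if l.2 then x else x + stp l

/-- endpoint of a word -/
def pos : List (Ltr α) → (α → ℤ)
  | [] => 0
  | l :: w => stp l + pos w

/-- the flow of a word read from `x` -/
noncomputable def flow : (α → ℤ) → List (Ltr α) → (α × (α → ℤ) →₀ ℤ)
  | _, [] => 0
  | x, l :: w => Finsupp.single (l.1, low x l) (sgn l) + flow (x + stp l) w

@[simp] theorem pos_nil : pos ([] : List (Ltr α)) = 0 := rfl
@[simp] theorem pos_cons (l : Ltr α) (w : List (Ltr α)) : pos (l :: w) = stp l + pos w := rfl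
@[simp] theorem flow_nil (x : α → ℤ) : flow x ([] : List (Ltr α)) = 0 := rfl
theorem flow_cons (x : α → ℤ) (l : Ltr α) (w : List (Ltr α)) :
    flow x (l :: w) = Finsupp.single (l.1, low x l) (sgn l) + flow (x + stp l) w := rfl

@[simp] theorem pos_append (u v : List (Ltr α)) : pos (u ++ v) = pos u + pos v := by
  induction u with
  | nil => simp
  | cons l u ih => simp [ih, add_assoc]

theorem flow_append (x : α → ℤ) (u v : List (Ltr α)) :
    flow x (u ++ v) = flow x u + flow (x + pos u) v := by
  induction u generalizing x with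
  | nil => simp
  | cons l u ih => simp [flow_cons, ih, add_assoc]

theorem sgn_ne_zero (l : Ltr α) : sgn l ≠ 0 := by
  unfold sgn; split <;> norm_num

@[simp] theorem sgn_inv (l : Ltr α) : sgn (inv l) = - sgn l := by
  unfold sgn inv; cases l.2 <;> simp

@[simp] theorem inv_inv (l : Ltr α) : inv (inv l) = l := by
  unfold inv; simp

@[simp] theorem inv_fst (l : Ltr α) : (inv l).1 = l.1 := rfl

@[simp] theorem stp_inv (l : Ltr α) : stp (inv l) = - stp l := by
  unfold stp; rw [sgn_inv, inv_fst, Pi.single_neg]

theorem inv_ne (l : Ltr α) : inv l ≠ l := by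
  unfold inv; intro h
  have := congrArg Prod.snd h
  simp at this

theorem low_inv (x : α → ℤ) (l : Ltr α) : low (x + stp l) (inv l) = low x l := by
  unfold low
  rcases l with ⟨i, b⟩
  cases b
  · simp [inv, stp, sgn]
  · simp only [inv, stp, sgn, Bool.not_true, Bool.false_eq_true, if_false, if_true]
    rw [add_assoc, ← Pi.single_add]
    simp

/-- Letters with equal axis and equal sign are equal. -/
theorem ltr_ext {l l' : Ltr α} (h1 : l.1 = l'.1) (h2 : sgn l = sgn l') : l = l' := by
  rcases l with ⟨i, b⟩; rcases l' with ⟨j, c⟩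
  simp only at h1; subst h1
  unfold sgn at h2
  cases b <;> cases c <;> simp at h2 ⊢

theorem eq_inv_of {l l' : Ltr α} (h1 : l'.1 = l.1) (h2 : sgn l' = - sgn l) : l' = inv l := by
  apply ltr_ext
  · simpa using h1
  · simpa using h2

/-- translating the starting point -/
theorem flow_shift (x y : α → ℤ) (w : List (Ltr α)) :
    flow (x + y) w = (flow x w).mapDomain (fun e => (e.1, e.2 + y)) := by
  induction w generalizing x with
  | nil => simp
  | cons l w ih =>
    rw [flow_cons, flow_cons, Finsupp.mapDomain_add, Finsupp.mapDomain_single, ← ih]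
    have h1 : low (x + y) l = low x l + y := by
      unfold low; split
      · rfl
      · abel
    have h2 : x + y + stp l = x + stp l + y := by abel
    rw [h1, h2]

theorem shift_inj (y : α → ℤ) :
    Function.Injective (fun e : α × (α → ℤ) => (e.1, e.2 + y)) := by
  rintro ⟨a, b⟩ ⟨c, d⟩ h
  simp only [Prod.mk.injEq, add_left_inj] at h
  ext1
  · exact h.1
  · exact h.2

theorem flow_apply_shift (x y : α → ℤ) (w : List (Ltr α)) (i : α) (z : α → ℤ) :
    flow (x + y) w (i, z + y) = flow x w (i, z) := by
  rw [flow_shift]
  exact Finsupp.mapDomain_apply (shift_inj y) (flow x w) (i, z)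

theorem flow_apply_base (x : α → ℤ) (w : List (Ltr α)) (i : α) (z : α → ℤ) :
    flow x w (i, z) = flow 0 w (i, z - x) := by
  have := flow_apply_shift 0 x w i (z - x)
  simpa using this

theorem flow_eq_iff (x : α → ℤ) (w v : List (Ltr α)) :
    flow x w = flow x v ↔ flow 0 w = flow 0 v := by
  constructor
  · intro h
    ext ⟨i, z⟩
    have := DFunLike.congr_fun h (i, z + x)
    rw [flow_apply_base, flow_apply_base x v] at this
    simpa using this
  · intro h
    ext ⟨i, z⟩
    rw [flow_apply_base, h, ← flow_apply_base]

theorem flow_eq_zero_iff (x : α → ℤ) (w : List (Ltr α)) :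
    flow x w = 0 ↔ flow 0 w = 0 := by
  have := flow_eq_iff x w []
  simpa using this

/-- The endpoint as a function of the flow. -/
noncomputable def endOf : (α × (α → ℤ) →₀ ℤ) →+ (α → ℤ) :=
  Finsupp.liftAddHom (fun e => (AddMonoidHom.single (fun _ : α => ℤ) e.1))

theorem endOf_flow (x : α → ℤ) (w : List (Ltr α)) : endOf (flow x w) = pos w := by
  induction w generalizing x with
  | nil => simp
  | cons l w ih =>
    rw [flow_cons, map_add, ih, pos_cons]
    congr 1
    simp [endOf, stp]

theorem pos_eq_of_flow {x : α → ℤ} {w v : List (Ltr α)} (h : flow x w = flow x v) :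
    pos w = pos v := by
  rw [← endOf_flow x w, h, endOf_flow]

/-- the axes of a word -/
def axs (w : List (Ltr α)) : List α := w.map Prod.fst

@[simp] theorem axs_nil : axs ([] : List (Ltr α)) = [] := rfl
@[simp] theorem axs_cons (l : Ltr α) (w : List (Ltr α)) : axs (l :: w) = l.1 :: axs w := rfl
@[simp] theorem axs_append (u v : List (Ltr α)) : axs (u ++ v) = axs u ++ axs v := by
  simp [axs]
@[simp] theorem axs_length (u : List (Ltr α)) : (axs u).length = u.length := by
  simp [axs]

theorem flow_axis {i : α} {w : List (Ltr α)} (h : i ∉ axs w) (x z : α → ℤ) :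
    flow x w (i, z) = 0 := by
  induction w generalizing x with
  | nil => simp
  | cons l w ih =>
    simp only [axs_cons, List.mem_cons, not_or] at h
    rw [flow_cons, Finsupp.add_apply, ih h.2, add_zero, Finsupp.single_apply, if_neg]
    intro h'
    exact h.1 (congrArg Prod.fst h').symm

theorem low_level {i : α} {x : α → ℤ} {l : Ltr α} (h : i ≠ l.1) : low x l i = x i := by
  unfold low stp; split
  · rfl
  · simp [Pi.single_apply, h]

theorem stp_level {i : α} {l : Ltr α} (h : i ≠ l.1) : stp l i = 0 := by
  simp [stp, Pi.single_apply, h]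

theorem pos_level {i : α} {w : List (Ltr α)} (h : i ∉ axs w) : pos w i = 0 := by
  induction w with
  | nil => simp
  | cons l w ih =>
    simp only [axs_cons, List.mem_cons, not_or] at h
    simp [ih h.2, stp_level h.1]

theorem flow_level {i : α} {w : List (Ltr α)} (h : i ∉ axs w) {x z : α → ℤ} (hz : z i ≠ x i)
    (j : α) : flow x w (j, z) = 0 := by
  induction w generalizing x with
  | nil => simp
  | cons l w ih =>
    simp only [axs_cons, List.mem_cons, not_or] at h
    rw [flow_cons, Finsupp.add_apply, ih h.2, add_zero, Finsupp.single_apply, if_neg]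
    · intro h'
      apply hz
      have h2 : low x l = z := congrArg Prod.snd h'
      rw [← h2, low_level h.1]
    · simpa [stp_level h.1] using hz

/-- the inverse word -/
def invW (w : List (Ltr α)) : List (Ltr α) := (w.map inv).reverse

@[simp] theorem invW_nil : invW ([] : List (Ltr α)) = [] := rfl
@[simp] theorem invW_cons (l : Ltr α) (w : List (Ltr α)) : invW (l :: w) = invW w ++ [inv l] := by
  simp [invW]
@[simp] theorem invW_append (u v : List (Ltr α)) : invW (u ++ v) = invW v ++ invW u := by
  simp [invW]
@[simp] theorem invW_invW (u : List (Ltr α)) : invW (invW u) = u := by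
  induction u with
  | nil => rfl
  | cons l u ih => simp [ih]
@[simp] theorem invW_length (u : List (Ltr α)) : (invW u).length = u.length := by
  simp [invW]
@[simp] theorem pos_invW (u : List (Ltr α)) : pos (invW u) = - pos u := by
  induction u with
  | nil => simp
  | cons l u ih => simp [ih]

theorem flow_invW (x : α → ℤ) (w : List (Ltr α)) :
    flow (x + pos w) (invW w) = - flow x w := by
  induction w generalizing x with
  | nil => simp
  | cons l w ih =>
    have h1 : x + pos (l :: w) = (x + stp l) + pos w := by simp [add_assoc]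
    rw [h1, invW_cons, flow_append, ih, pos_invW, flow_cons, flow_cons, flow_nil, add_zero]
    have h2 : x + stp l + pos w + -pos w = x + stp l := by abel
    rw [h2, low_inv, sgn_inv, inv_fst, Finsupp.single_neg]
    abel

theorem count_axs_invW (i : α) (u : List (Ltr α)) :
    (axs (invW u)).count i = (axs u).count i := by
  induction u with
  | nil => rfl
  | cons l u ih => simp [ih, List.count_append, List.count_cons]

/-- `R = w ++ invW v` has zero flow iff the flows of `w` and `v` agree. -/
theorem flow_zero_iff (w v : List (Ltr α)) :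
    flow 0 (w ++ invW v) = 0 ↔ flow 0 w = flow 0 v := by
  constructor
  · intro h
    have hp : pos (w ++ invW v) = 0 := by
      rw [← endOf_flow 0, h, map_zero]
    have hp2 : pos w = pos v := by
      rw [pos_append, pos_invW] at hp
      have := congrArg (· + pos v) hp
      simpa using this
    rw [flow_append, hp2, flow_invW] at h
    have := congrArg (· + flow 0 v) h
    simpa using this
  · intro h
    rw [flow_append, pos_eq_of_flow h, flow_invW, h, add_neg_cancel]

/-- rotation of zero words -/
theorem flow_zero_rotate {u v : List (Ltr α)} (h : flow 0 (u ++ v) = 0) :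
    flow 0 (v ++ u) = 0 := by
  have hp : pos (u ++ v) = 0 := by rw [← endOf_flow 0, h, map_zero]
  rw [pos_append] at hp
  have h1 : flow (0 + pos v) (u ++ v) = 0 := (flow_eq_zero_iff _ _).2 h
  rw [flow_append] at h1
  have h2 : (0 : α → ℤ) + pos v + pos u = 0 := by rw [zero_add, add_comm, hp]
  rw [h2] at h1
  rw [flow_append, add_comm]
  exact h1

theorem exists_split_of_count_pos {i : α} {w : List (Ltr α)} (h : (axs w).count i ≠ 0) :
    ∃ w1 l w2, w = w1 ++ l :: w2 ∧ l.1 = i ∧ i ∉ axs w1 ∧
      (axs w2).count i + 1 = (axs w).count i := by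
  induction w with
  | nil => simp at h
  | cons l w ih =>
    by_cases hl : l.1 = i
    · refine ⟨[], l, w, rfl, hl, by simp, ?_⟩
      simp [hl]
    · have h' : (axs w).count i ≠ 0 := by
        simpa [List.count_cons, hl] using h
      obtain ⟨w1, l', w2, rfl, h1, h2, h3⟩ := ih h'
      refine ⟨l :: w1, l', w2, rfl, h1, ?_, ?_⟩
      · simp only [axs_cons, List.mem_cons, not_or]
        exact ⟨fun h => hl h.symm, h2⟩
      · rw [h3]; simp [List.count_cons, hl]

theorem low_eq_of {x y : α → ℤ} {l : Ltr α} (h : low x l = low y l) : x = y := by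
  unfold low at h
  split at h
  · exact h
  · exact add_right_cancel h

/-- evaluation of the flow of a word with a single crossing of axis `i` -/
theorem flow_one_axis {i : α} {w1 w2 : List (Ltr α)} {l : Ltr α} (hl : l.1 = i)
    (h1 : i ∉ axs w1) (h2 : i ∉ axs w2) (z : α → ℤ) :
    flow 0 (w1 ++ l :: w2) (i, z) = if z = low (pos w1) l then sgn l else 0 := by
  rw [flow_append, flow_cons, Finsupp.add_apply, Finsupp.add_apply, flow_axis h1, flow_axis h2,
    zero_add, zero_add, add_zero, Finsupp.single_apply]
  subst hl
  simp [Prod.ext_iff, eq_comm]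

theorem flow_level_left {i : α} {w1 w2 : List (Ltr α)} {l : Ltr α} (hl : l.1 = i)
    (h1 : i ∉ axs w1) (h2 : i ∉ axs w2) {j : α} (hj : j ≠ i) {z : α → ℤ} (hz : z i = 0) :
    flow 0 (w1 ++ l :: w2) (j, z) = flow 0 w1 (j, z) := by
  rw [flow_append, flow_cons, Finsupp.add_apply, Finsupp.add_apply, Finsupp.single_apply,
    if_neg, zero_add, flow_level h2, add_zero]
  · simp only [zero_add, Pi.add_apply, pos_level h1, stp]
    rw [hl, Pi.single_eq_same, hz]
    exact (sgn_ne_zero l).symm
  · intro h
    exact hj ((congrArg Prod.fst h).symm.trans hl)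

theorem flow_level_right {i : α} {w1 w2 : List (Ltr α)} {l : Ltr α} (hl : l.1 = i)
    (h1 : i ∉ axs w1) {j : α} (hj : j ≠ i) {z : α → ℤ} (hz : z i = sgn l) :
    flow 0 (w1 ++ l :: w2) (j, z) = flow (pos w1 + stp l) w2 (j, z) := by
  rw [flow_append, flow_cons, Finsupp.add_apply, Finsupp.add_apply, Finsupp.single_apply,
    if_neg, zero_add, flow_level h1, zero_add, zero_add]
  · rw [hz]; exact sgn_ne_zero l
  · intro h
    exact hj ((congrArg Prod.fst h).symm.trans hl)

theorem not_mem_of_count {i : α} {w : List (Ltr α)} (h : (axs w).count i = 0) : i ∉ axs w :=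
  List.count_eq_zero.1 h

theorem two_cross_one {i : α} {w v : List (Ltr α)} (h : flow 0 w = flow 0 v)
    (hw : (axs w).count i = 1) (hv : (axs v).count i = 1) :
    ∃ w1 l w2 v1 v2, w = w1 ++ l :: w2 ∧ v = v1 ++ l :: v2 ∧ l.1 = i ∧ i ∉ axs w1 ∧ i ∉ axs w2 ∧
      i ∉ axs v1 ∧ i ∉ axs v2 ∧ flow 0 w1 = flow 0 v1 ∧ flow 0 w2 = flow 0 v2 := by
  obtain ⟨w1, l, w2, rfl, hl, hw1, hw2⟩ := exists_split_of_count_pos (i := i) (w := w) (by omega)
  obtain ⟨v1, l', v2, rfl, hl', hv1, hv2⟩ := exists_split_of_count_pos (i := i) (w := v) (by omega)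
  have hw2' : i ∉ axs w2 := not_mem_of_count (by omega)
  have hv2' : i ∉ axs v2 := not_mem_of_count (by omega)
  have e1 : ∀ z, (if z = low (pos w1) l then sgn l else 0) =
      (if z = low (pos v1) l' then sgn l' else 0) := by
    intro z
    rw [← flow_one_axis hl hw1 hw2', h, flow_one_axis hl' hv1 hv2']
  have e2 := e1 (low (pos w1) l)
  rw [if_pos rfl] at e2
  split at e2
  · rename_i e3
    have hll : l = l' := ltr_ext (hl.trans hl'.symm) e2
    subst hll
    have hpos : pos w1 = pos v1 := low_eq_of e3
    refine ⟨w1, l, w2, v1, v2, rfl, rfl, hl, hw1, hw2', hv1, hv2', ?_, ?_⟩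
    · ext ⟨j, z⟩
      by_cases hj : j = i
      · subst hj; rw [flow_axis hw1, flow_axis hv1]
      · by_cases hz : z i = 0
        · rw [← flow_level_left hl hw1 hw2' hj hz, h, flow_level_left hl hv1 hv2' hj hz]
        · rw [flow_level hw1 (by simpa using hz), flow_level hv1 (by simpa using hz)]
    · rw [← flow_eq_iff (pos w1 + stp l)]
      ext ⟨j, z⟩
      by_cases hj : j = i
      · subst hj; rw [flow_axis hw2', flow_axis hv2']
      · by_cases hz : z i = sgn l
        · rw [← flow_level_right hl hw1 hj hz, h, flow_level_right hl hv1 hj hz, hpos]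
        · have hlev : (pos w1 + stp l) i = sgn l := by
            rw [Pi.add_apply, pos_level hw1, zero_add, stp, hl, Pi.single_eq_same]
          rw [flow_level hw2' (by rw [hlev]; exact hz), flow_level hv2' (by rw [hlev]; exact hz)]
  · exact absurd e2 (sgn_ne_zero l)

theorem two_cross_two {i : α} {w v : List (Ltr α)} (h : flow 0 w = flow 0 v)
    (hw : (axs w).count i = 2) (hv : (axs v).count i = 0) :
    ∃ w1 l q w2, w = w1 ++ l :: (q ++ inv l :: w2) ∧ l.1 = i ∧ flow 0 q = 0 := by
  obtain ⟨w1, l, w2, rfl, hl, hw1, hw2⟩ := exists_split_of_count_pos (i := i) (w := w) (by omega)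
  obtain ⟨q, l', w3, rfl, hl', hq, hw3⟩ :=
    exists_split_of_count_pos (i := i) (w := w2) (by omega)
  have hw3' : i ∉ axs w3 := not_mem_of_count (by omega)
  have hv' : i ∉ axs v := not_mem_of_count hv
  -- evaluate on axis `i`
  have e1 : ∀ z, (if z = low (pos w1) l then sgn l else 0) +
      (if z = low (pos w1 + stp l + pos q) l' then sgn l' else 0) = 0 := by
    intro z
    have e := DFunLike.congr_fun h (i, z)
    rw [flow_axis hv'] at e
    rw [flow_append, flow_cons, flow_append, flow_cons] at e
    simp only [Finsupp.add_apply, flow_axis hw1, flow_axis hq, flow_axis hw3', zero_add, add_zero,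
      Finsupp.single_apply] at e
    refine Eq.trans ?_ e
    congr 1
    · simp [Prod.ext_iff, eq_comm, hl]
    · simp [Prod.ext_iff, eq_comm, hl']
  have e2 := e1 (low (pos w1) l)
  rw [if_pos rfl] at e2
  split at e2
  · rename_i e3
    have hll : l' = inv l := eq_inv_of (hl'.trans hl.symm) (by omega)
    subst hll
    have hpq : pos q = 0 := by
      have h4 : pos w1 + stp l + pos q = (pos w1 + pos q) + stp l := by abel
      rw [h4, low_inv] at e3
      have := low_eq_of e3
      have h5 : pos w1 + 0 = pos w1 + pos q := by simpa using this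
      exact (add_left_cancel h5).symm
    refine ⟨w1, l, q, w3, rfl, hl, ?_⟩
    rw [← flow_eq_zero_iff (pos w1 + stp l)]
    ext ⟨j, z⟩
    by_cases hj : j = i
    · subst hj; rw [flow_axis hq]; rfl
    · have hlev : (pos w1 + stp l) i = sgn l := by
        rw [Pi.add_apply, pos_level hw1, zero_add, stp, hl, Pi.single_eq_same]
      by_cases hz : z i = sgn l
      · have e := DFunLike.congr_fun h (j, z)
        have hz0 : z i ≠ (0 : α → ℤ) i := by
          rw [hz]; exact sgn_ne_zero l
        rw [flow_level hv' hz0, flow_append, flow_cons, flow_append, flow_cons] at e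
        simp only [Finsupp.add_apply, zero_add] at e
        rw [flow_level hw1 hz0] at e
        have hs1 : (Finsupp.single (l.1, low (pos w1) l) (sgn l)) (j, z) = (0 : ℤ) := by
          rw [Finsupp.single_apply, if_neg]
          intro h'
          exact hj ((congrArg Prod.fst h').symm.trans hl)
        have hs2 : (Finsupp.single ((inv l).1, low (pos w1 + stp l + pos q) (inv l))
            (sgn (inv l))) (j, z) = (0 : ℤ) := by
          rw [Finsupp.single_apply, if_neg]
          intro h'
          exact hj ((congrArg Prod.fst h').symm.trans hl)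
        have hs3 : (flow (pos w1 + stp l + pos q + stp (inv l)) w3) (j, z) = 0 := by
          apply flow_level hw3'
          rw [hz, hpq]
          simp only [add_zero, stp_inv, add_neg_cancel_right]
          rw [pos_level hw1]
          exact sgn_ne_zero l
        rw [hs1, hs2, hs3] at e
        simpa using e
      · rw [flow_level hq (by rw [hlev]; exact hz)]; rfl
  · exfalso
    exact sgn_ne_zero l (by simpa using e2)

end Pool.Agent.Helper524_FM
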