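import Pool.Agent.Helper524_FM.Growth

/-!
# The number of undecodable times in one block
-/

set_option linter.unusedSectionVars false
set_option linter.unusedSimpArgs false

namespace Pool.Agent.Helper524_FM

open scoped Classical

/-- windows: words in `GW τ r N` whose `m` letters after position `t0` lie in a small set that may
depend on what follows -/
theorem window_count {τ : ℕ} (hτ : 2 ≤ τ) {r : ℕ} (hr : 2 * τ ^ 2 * C1 τ + 1 ≤ r)
    {N t0 m M : ℕ} (hN : t0 + m ≤ N) (U : List (Ltr (Fin r)) → Finset (List (Ltr (Fin r))))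
    (hU : ∀ s, (U s).card ≤ M) :
    r ^ m * ((GW τ r N).filter
      (fun b => (b.drop t0).take m ∈ U (b.drop (t0 + m)))).card ≤ 2 * M * ga τ r N := by
  have hr1 : τ * C1 τ + 1 ≤ r := by nlinarith [Nat.zero_le (C1 τ), Nat.zero_le (τ * C1 τ)]
  have h1 : ((GW τ r N).filter (fun b => (b.drop t0).take m ∈ U (b.drop (t0 + m)))).card ≤
      ga τ r t0 * ga τ r (N - t0 - m) * M := by
    have h2 : ((GW τ r N).filter (fun b => (b.drop t0).take m ∈ U (b.drop (t0 + m)))).card ≤
        ((GW τ r t0 ×ˢ GW τ r (N - t0 - m)).sigma (fun p => U p.2)).card := by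
      apply Finset.card_le_card_of_injOn
        (fun b => ⟨(b.take t0, b.drop (t0 + m)), (b.drop t0).take m⟩)
      · intro b hb
        simp only [Finset.coe_filter, Set.mem_ofPred_eq, mem_GW] at hb
        simp only [Finset.mem_coe, Finset.mem_sigma, Finset.mem_product, mem_GW, List.length_take,
          List.length_drop]
        refine ⟨⟨⟨by omega, hb.1.2.fac (List.take_prefix _ _).isInfix⟩, by omega,
          hb.1.2.fac (List.drop_suffix _ _).isInfix⟩, hb.2⟩
      · intro b hb b' hb' h
        simp only [Sigma.mk.injEq, Prod.mk.injEq, heq_eq_eq] at h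
        obtain ⟨⟨e1, e2⟩, e3⟩ := h
        have d1 : b = b.take t0 ++ ((b.drop t0).take m ++ b.drop (t0 + m)) := by
          rw [← List.drop_drop, List.take_append_drop, List.take_append_drop]
        have d2 : b' = b'.take t0 ++ ((b'.drop t0).take m ++ b'.drop (t0 + m)) := by
          rw [← List.drop_drop, List.take_append_drop, List.take_append_drop]
        rw [d1, d2, e1, e2, e3]
    refine h2.trans ?_
    rw [Finset.card_sigma]
    refine (Finset.sum_le_sum (g := fun _ => M) fun p _ => hU p.2).trans ?_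
    rw [Finset.sum_const, smul_eq_mul, Finset.card_product]
    rfl
  have h3 := supermult hτ hr t0 (N - t0 - m)
  have h4 := growth_pow hτ hr1 (N - m) m
  rw [show N - m + m = N by omega] at h4
  rw [show t0 + (N - t0 - m) = N - m by omega] at h3
  calc r ^ m * ((GW τ r N).filter (fun b => (b.drop t0).take m ∈ U (b.drop (t0 + m)))).card
      ≤ r ^ m * (ga τ r t0 * ga τ r (N - t0 - m) * M) := Nat.mul_le_mul_left _ h1
    _ ≤ r ^ m * (2 * ga τ r (N - m) * M) := by gcongr
    _ = 2 * M * (r ^ m * ga τ r (N - m)) := by ring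
    _ ≤ 2 * M * ga τ r N := Nat.mul_le_mul_left _ h4

/-- windows of large codimension are rare -/
theorem codim_count {τ : ℕ} (hτ : 2 ≤ τ) {r : ℕ} (hr : 2 * τ ^ 2 * C1 τ + 1 ≤ r)
    {N t0 K c : ℕ} (hK : c + 1 ≤ K) (hN : t0 + K ≤ N) :
    r ^ (c + 1) * ((GW τ r N).filter
      (fun b => ¬ ((b.drop t0).take K).length ≤ nax ((b.drop t0).take K) + c)).card ≤
      2 * (2 * K) ^ K * ga τ r N := by
  have hr0 : 0 < r := by omega
  have h1 := window_count hτ hr (M := r ^ (K - (c + 1)) * (2 * K) ^ K) hN
    (fun _ => (words r K).filter (fun w => nax w ≤ K - (c + 1))) (fun _ => by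
      refine (card_nax_le hr0 _ _).trans ?_
      gcongr
      omega)
  have h2 : ((GW τ r N).filter
      (fun b => ¬ ((b.drop t0).take K).length ≤ nax ((b.drop t0).take K) + c)).card ≤
      ((GW τ r N).filter (fun b => (b.drop t0).take K ∈
        (words r K).filter (fun w => nax w ≤ K - (c + 1)))).card := by
    apply Finset.card_le_card
    intro b hb
    simp only [Finset.mem_filter, mem_words, mem_GW] at hb ⊢
    obtain ⟨⟨h3, h4⟩, h5⟩ := hb
    have h6 : ((b.drop t0).take K).length = K := by
      rw [List.length_take, List.length_drop]; omega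
    rw [h6] at h5
    exact ⟨⟨h3, h4⟩, h6, by omega⟩
  have h3 : r ^ K = r ^ (c + 1) * r ^ (K - (c + 1)) := by rw [← pow_add]; congr 1; omega
  set X := ((GW τ r N).filter
      (fun b => ¬ ((b.drop t0).take K).length ≤ nax ((b.drop t0).take K) + c)).card
  have h4 : r ^ K * X ≤ 2 * (r ^ (K - (c + 1)) * (2 * K) ^ K) * ga τ r N :=
    (Nat.mul_le_mul_left _ h2).trans h1
  have h5 : r ^ (K - (c + 1)) * (r ^ (c + 1) * X) ≤
      r ^ (K - (c + 1)) * (2 * (2 * K) ^ K * ga τ r N) := by
    calc r ^ (K - (c + 1)) * (r ^ (c + 1) * X) = r ^ K * X := by rw [h3]; ring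
      _ ≤ _ := h4
      _ = _ := by ring
  exact Nat.le_of_mul_le_mul_left h5 (by positivity)

/-- words of even length whose endpoint is near a given point -/
theorem near_words {r : ℕ} (hr : 0 < r) (D M : ℕ) (z : Fin r → ℤ) :
    ((words r (2 * M)).filter (fun u => Near D (pos u + z))).card ≤
      r ^ (D + M) * ((D + 1) * 2 ^ D * (8 * M) ^ (2 * M)) := by
  have hsub : (words r (2 * M)).filter (fun u => Near D (pos u + z)) ⊆
      ((Finset.range (D + 1)).biUnion (fun d => words r d)).biUnion (fun u' =>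
        (words r (2 * M)).filter (fun u => pos u = pos u' - z)) := by
    intro u hu
    rw [Finset.mem_filter, mem_words] at hu
    obtain ⟨h1, u', h2, h3⟩ := hu
    simp only [Finset.mem_biUnion, Finset.mem_filter, mem_words, Finset.mem_range]
    exact ⟨u', ⟨u'.length, by omega, rfl⟩, h1, by rw [h3]; simp⟩
  refine (Finset.card_le_card hsub).trans (Finset.card_biUnion_le.trans ?_)
  have h1 : ∀ u' ∈ (Finset.range (D + 1)).biUnion (fun d => words r d),
      ((words r (2 * M)).filter (fun u => pos u = pos u' - z)).card ≤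
        r ^ M * (8 * M) ^ (2 * M) := by
    intro u' _
    have := card_pos_le hr (2 * M) (pos u' - z)
    rw [show 2 * M / 2 = M by omega, show 4 * (2 * M) = 8 * M by ring] at this
    exact this
  refine (Finset.sum_le_sum h1).trans ?_
  rw [Finset.sum_const, smul_eq_mul]
  have h2 : ((Finset.range (D + 1)).biUnion (fun d => words r d)).card ≤
      (D + 1) * (2 * r) ^ D := by
    refine Finset.card_biUnion_le.trans ?_
    refine (Finset.sum_le_sum (g := fun _ => (2 * r) ^ D) ?_).trans ?_
    · intro d hd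
      rw [card_words]
      exact Nat.pow_le_pow_right (by omega) (by simpa using Finset.mem_range_succ_iff.1 hd)
    · simp
  calc ((Finset.range (D + 1)).biUnion (fun d => words r d)).card * (r ^ M * (8 * M) ^ (2 * M))
      ≤ ((D + 1) * (2 * r) ^ D) * (r ^ M * (8 * M) ^ (2 * M)) := Nat.mul_le_mul_right _ h2
    _ = r ^ (D + M) * ((D + 1) * 2 ^ D * (8 * M) ^ (2 * M)) := by rw [mul_pow, pow_add]; ring

/-- returns close to an earlier point are rare -/
theorem near_count {τ : ℕ} (hτ : 2 ≤ τ) {r : ℕ} (hr : 2 * τ ^ 2 * C1 τ + 1 ≤ r)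
    {N t0 t D M E : ℕ} (hN : t0 + 2 * M ≤ N) (ht : 2 * M ≤ t) (hM : M = D + E)
    (w' : List (Ltr (Fin r))) :
    r ^ E * ((GW τ r N).filter
      (fun b => Near D (pos ((b.drop t0 ++ w').take t)))).card ≤
      2 * ((D + 1) * 2 ^ D * (8 * M) ^ (2 * M)) * ga τ r N := by
  have hr0 : 0 < r := by omega
  have h1 := window_count hτ hr (M := r ^ (D + M) * ((D + 1) * 2 ^ D * (8 * M) ^ (2 * M))) hN
    (fun s => (words r (2 * M)).filter
      (fun u => Near D (pos u + pos ((s ++ w').take (t - 2 * M)))))
    (fun s => near_words hr0 D M _)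
  have h2 : ((GW τ r N).filter (fun b => Near D (pos ((b.drop t0 ++ w').take t)))).card ≤
      ((GW τ r N).filter (fun b => (b.drop t0).take (2 * M) ∈
        (words r (2 * M)).filter
      (fun u => Near D (pos u + pos ((b.drop (t0 + 2 * M) ++ w').take (t - 2 * M)))))).card := by
    apply Finset.card_le_card
    intro b hb
    simp only [Finset.mem_filter, mem_words, mem_GW] at hb ⊢
    obtain ⟨⟨h3, h4⟩, h5⟩ := hb
    have h6 : ((b.drop t0).take (2 * M)).length = 2 * M := by
      rw [List.length_take, List.length_drop]; omega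
    refine ⟨⟨h3, h4⟩, h6, ?_⟩
    rw [← pos_append]
    have h7 : (b.drop t0 ++ w').take t = (b.drop t0).take (2 * M) ++
        (b.drop (t0 + 2 * M) ++ w').take (t - 2 * M) := by
      conv_lhs => rw [← List.take_append_drop (2 * M) (b.drop t0), List.drop_drop,
        List.append_assoc, List.take_append, List.take_of_length_le (by rw [h6]; exact ht), h6]
    rw [← h7]; exact h5
  set X := ((GW τ r N).filter (fun b => Near D (pos ((b.drop t0 ++ w').take t)))).card
  have h4 : r ^ (2 * M) * X ≤
      2 * (r ^ (D + M) * ((D + 1) * 2 ^ D * (8 * M) ^ (2 * M))) * ga τ r N :=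
    (Nat.mul_le_mul_left _ h2).trans h1
  have h3 : r ^ (2 * M) = r ^ (D + M) * r ^ E := by rw [← pow_add]; congr 1; omega
  have h5 : r ^ (D + M) * (r ^ E * X) ≤
      r ^ (D + M) * (2 * ((D + 1) * 2 ^ D * (8 * M) ^ (2 * M)) * ga τ r N) := by
    calc r ^ (D + M) * (r ^ E * X) = r ^ (2 * M) * X := by rw [h3]; ring
      _ ≤ _ := h4
      _ = _ := by ring
  exact Nat.le_of_mul_le_mul_left h5 (by positivity)

/-- total displacement -/
def tot {r : ℕ} (w : List (Ltr (Fin r))) : ℤ := ∑ i, pos w i

@[simp] theorem tot_nil {r : ℕ} : tot ([] : List (Ltr (Fin r))) = 0 := by simp [tot]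

@[simp] theorem tot_append {r : ℕ} (u v : List (Ltr (Fin r))) : tot (u ++ v) = tot u + tot v := by
  simp [tot, Finset.sum_add_distrib]

theorem tot_cons {r : ℕ} (l : Ltr (Fin r)) (w : List (Ltr (Fin r))) :
    tot (l :: w) = sgn l + tot w := by
  simp [tot, Finset.sum_add_distrib, stp]

theorem abs_tot_le {r : ℕ} (w : List (Ltr (Fin r))) : |tot w| ≤ w.length := by
  induction w with
  | nil => simp
  | cons l w ih =>
    rw [tot_cons]
    have h1 : |sgn l| ≤ 1 := by unfold sgn; split <;> simp
    have h2 := abs_add_le (sgn l) (tot w)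
    push_cast [List.length_cons]
    linarith

theorem near_tot {r D : ℕ} {w : List (Ltr (Fin r))} (h : Near D (pos w)) : |tot w| ≤ D := by
  obtain ⟨u, hu, hp⟩ := h
  have h1 : tot w = tot u := by unfold tot; rw [hp]
  rw [h1]
  exact (abs_tot_le u).trans (by exact_mod_cast hu)

/-- concatenations of `k` words from `B` -/
noncomputable def cat {r : ℕ} (B : Finset (List (Ltr (Fin r)))) : ℕ → Finset (List (Ltr (Fin r)))
  | 0 => {[]}
  | k + 1 => (B ×ˢ cat B k).image (fun p => p.1 ++ p.2)

/-- a block family -/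
structure Blk (τ r N : ℕ) where
  B : Finset (List (Ltr (Fin r)))
  σ : ℤ
  hσ : σ = 1 ∨ σ = -1
  sub : B ⊆ GW τ r N
  half : ga τ r N ≤ 2 * B.card
  drift : ∀ b ∈ B, 1 ≤ σ * tot b

theorem exists_blk (τ r N : ℕ) (hN : N % 2 = 1) : Nonempty (Blk τ r N) := by
  have hodd : ∀ w ∈ GW τ r N, tot w ≠ 0 := by
    intro w hw h0
    rw [mem_GW] at hw
    have h1 : (tot w + w.length) % 2 = 0 := by
      clear hw h0
      induction w with
      | nil => simp
      | cons l w ih =>
        rw [tot_cons, List.length_cons]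
        push_cast
        have : sgn l = 1 ∨ sgn l = -1 := by unfold sgn; split <;> simp
        rcases this with h | h <;> rw [h] <;> omega
    rw [h0, hw.1] at h1
    omega
  have hsplit := Finset.card_filter_add_card_filter_not (s := GW τ r N) (fun w => 0 < tot w)
  by_cases h : ga τ r N ≤ 2 * ((GW τ r N).filter (fun w => 0 < tot w)).card
  · exact ⟨⟨_, 1, Or.inl rfl, Finset.filter_subset _ _, h, by
      intro b hb
      simp only [Finset.mem_filter] at hb
      linarith [hb.2]⟩⟩
  · refine ⟨⟨(GW τ r N).filter (fun w => ¬ 0 < tot w), -1, Or.inr rfl,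
      Finset.filter_subset _ _, ?_, ?_⟩⟩
    · unfold ga at *; omega
    · intro b hb
      simp only [Finset.mem_filter] at hb
      have := hodd b hb.1
      omega

variable {τ r N : ℕ}

theorem Blk.len (𝓑 : Blk τ r N) {b : List (Ltr (Fin r))} (hb : b ∈ 𝓑.B) : b.length = N :=
  (mem_GW.1 (𝓑.sub hb)).1

theorem Blk.good (𝓑 : Blk τ r N) {b : List (Ltr (Fin r))} (hb : b ∈ 𝓑.B) : Good τ b :=
  (mem_GW.1 (𝓑.sub hb)).2

theorem Blk.abs_eq (𝓑 : Blk τ r N) (x : ℤ) : 𝓑.σ * x ≤ |x| ∧ -|x| ≤ 𝓑.σ * x := by
  rcases 𝓑.hσ with h | h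
  · rw [h, one_mul]; exact ⟨le_abs_self x, neg_abs_le x⟩
  · rw [h, neg_one_mul]; exact ⟨neg_le_abs x, by linarith [le_abs_self x]⟩

theorem cat_drift (𝓑 : Blk τ r N) (hN : 0 < N) (k : ℕ) {w : List (Ltr (Fin r))}
    (hw : w ∈ cat 𝓑.B k) {t : ℕ} (ht : t ≤ w.length) :
    ((t / N : ℕ) : ℤ) - N ≤ 𝓑.σ * tot (w.take t) := by
  induction k generalizing w t with
  | zero =>
    simp only [cat, Finset.mem_singleton] at hw
    subst hw
    simp only [List.length_nil, Nat.le_zero] at ht
    subst ht
    simp
  | succ k ih =>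
    simp only [cat, Finset.mem_image, Finset.mem_product, Prod.exists] at hw
    obtain ⟨b, w', ⟨hb, hw'⟩, rfl⟩ := hw
    rcases Nat.lt_or_ge t N with h | h
    · have h1 : t / N = 0 := Nat.div_eq_of_lt h
      rw [h1]
      have h2 := (𝓑.abs_eq (tot ((b ++ w').take t))).2
      have h3 := abs_tot_le ((b ++ w').take t)
      have h4 : ((b ++ w').take t).length ≤ t := by simp
      have h5 : (((b ++ w').take t).length : ℤ) ≤ t := by exact_mod_cast h4
      have h6 : (t : ℤ) < N := by exact_mod_cast h
      push_cast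
      linarith
    · have h1 : (b ++ w').take t = b ++ w'.take (t - N) := by
        rw [List.take_append, List.take_of_length_le (by rw [𝓑.len hb]; exact h), 𝓑.len hb]
      rw [List.length_append, 𝓑.len hb] at ht
      have h2 := ih hw' (t := t - N) (by omega)
      have h3 := 𝓑.drift b hb
      rw [h1, tot_append, mul_add]
      have h4 : t / N = (t - N) / N + 1 := by
        conv_lhs => rw [show t = (t - N) + N by omega]
        rw [Nat.add_div_right _ hN]
      rw [h4, Nat.cast_add, Nat.cast_one]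
      linarith

end Pool.Agent.Helper524_FM
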