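import Pool.Agent.Helper524_FM.TabS1

/-!
# Verification of a part of certificate table S1
-/

namespace Pool.Agent.Helper524_FM.DP

theorem nS1_0 : chk1 PS1 2573964460523446397874675460 (tot PS1 TS1 (dec PS1.S 3011)) = true := by decide +kernel
theorem nS1_1 : chk1 PS1 4130645071235435140495525061 (tot PS1 TS1 (dec PS1.S 4000)) = true := by decide +kernel
theorem nS1_2 : chk1 PS1 7001183038213738785814673460 (tot PS1 TS1 (dec PS1.S 5110)) = true := by decide +kernel

theorem cTS1 : chk PS1 TS1 TS1 = true :=
  have e : chk PS1 TS1 Tr.leaf = true := rfl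
  (chk_node (chk_node e nS1_0 e) nS1_1 (chk_node e nS1_2 e))

end Pool.Agent.Helper524_FM.DP
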