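import Pool.Agent.Helper524_FM.ChkS2_0

/-!
# Verification of certificate table S2
-/

namespace Pool.Agent.Helper524_FM.DP

end Pool.Agent.Helper524_FM.DP
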