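import Pool.Agent.Helper524_FM.TabS2
import Pool.Agent.Helper524_FM.ChkS1

/-!
# Verification of a part of certificate table S2
-/

namespace Pool.Agent.Helper524_FM.DP

theorem nS2_0 : chk1 PS2 1659477084311095179640290843 (tot PS2 TS2 (dec PS2.S 2501112)) = true := by decide +kernel
theorem nS2_1 : chk1 PS2 3497818669101313631061997931 (tot PS2 TS2 (dec PS2.S 2601102)) = true := by decide +kernel
theorem nS2_2 : chk1 PS2 543235934170639666700115405 (tot PS2 TS2 (dec PS2.S 2611112)) = true := by decide +kernel
theorem nS2_3 : chk1 PS2 1330075862783128856401072834 (tot PS2 TS2 (dec PS2.S 3401011)) = true := by decide +kernel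
theorem nS2_4 : chk1 PS2 3904040157285878590889783752 (tot PS2 TS2 (dec PS2.S 3401012)) = true := by decide +kernel
theorem nS2_5 : chk1 PS2 3210497772772667989063931008 (tot PS2 TS2 (dec PS2.S 3501101)) = true := by decide +kernel
theorem nS2_6 : chk1 PS2 8400545074651905528839764014 (tot PS2 TS2 (dec PS2.S 3501102)) = true := by decide +kernel
theorem nS2_7 : chk1 PS2 1434432193061108173128655361 (tot PS2 TS2 (dec PS2.S 3511112)) = true := by decide +kernel
theorem nS2_8 : chk1 PS2 4513777378605492286959057626 (tot PS2 TS2 (dec PS2.S 3611102)) = true := by decide +kernel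
theorem nS2_9 : chk1 PS2 547687004388417265525950351 (tot PS2 TS2 (dec PS2.S 4300210)) = true := by decide +kernel
theorem nS2_10 : chk1 PS2 2870511219199396766431855965 (tot PS2 TS2 (dec PS2.S 4300212)) = true := by decide +kernel
theorem nS2_11 : chk1 PS2 1472862516350796166492139909 (tot PS2 TS2 (dec PS2.S 4400000)) = true := by decide +kernel
theorem nS2_12 : chk1 PS2 3617806050884335547109710189 (tot PS2 TS2 (dec PS2.S 4510201)) = true := by decide +kernel
theorem nS2_13 : chk1 PS2 10618988923077377669538419109 (tot PS2 TS2 (dec PS2.S 4510202)) = true := by decide +kernel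
theorem nS2_14 : chk1 PS2 1129614578425293095126097064 (tot PS2 TS2 (dec PS2.S 5201111)) = true := by decide +kernel
theorem nS2_15 : chk1 PS2 1129614578425293095126097064 (tot PS2 TS2 (dec PS2.S 5201112)) = true := by decide +kernel
theorem nS2_16 : chk1 PS2 2798092401019017449983501254 (tot PS2 TS2 (dec PS2.S 5301101)) = true := by decide +kernel
theorem nS2_17 : chk1 PS2 2798092401019017449983501254 (tot PS2 TS2 (dec PS2.S 5301102)) = true := by decide +kernel
theorem nS2_18 : chk1 PS2 1434432193061108173128655361 (tot PS2 TS2 (dec PS2.S 5311112)) = true := by decide +kernel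
theorem nS2_19 : chk1 PS2 70054683459892700305701935 (tot PS2 TS2 (dec PS2.S 5311210)) = true := by decide +kernel
theorem nS2_20 : chk1 PS2 1434432193061108173128655361 (tot PS2 TS2 (dec PS2.S 5311212)) = true := by decide +kernel
theorem nS2_21 : chk1 PS2 1489708359740068834671287359 (tot PS2 TS2 (dec PS2.S 5411000)) = true := by decide +kernel
theorem nS2_22 : chk1 PS2 7807790202627709951632270753 (tot PS2 TS2 (dec PS2.S 5411002)) = true := by decide +kernel
theorem nS2_23 : chk1 PS2 1050966165644013547135016156 (tot PS2 TS2 (dec PS2.S 6201102)) = true := by decide +kernel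
theorem nS2_24 : chk1 PS2 543235934170639666700115405 (tot PS2 TS2 (dec PS2.S 6211111)) = true := by decide +kernel
theorem nS2_25 : chk1 PS2 543235934170639666700115405 (tot PS2 TS2 (dec PS2.S 6211112)) = true := by decide +kernel
theorem nS2_26 : chk1 PS2 3072551341935757254525752737 (tot PS2 TS2 (dec PS2.S 6311101)) = true := by decide +kernel
theorem nS2_27 : chk1 PS2 3072551341935757254525752737 (tot PS2 TS2 (dec PS2.S 6311102)) = true := by decide +kernel

theorem cTS2 : chk PS2 TS2 TS2 = true :=
  have e : chk PS2 TS2 Tr.leaf = true := rfl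
  (chk_node (chk_node (chk_node (chk_node (chk_node e nS2_0 e) nS2_1 (chk_node e nS2_2 e)) nS2_3
  (chk_node (chk_node e nS2_4 e) nS2_5 (chk_node e nS2_6 e))) nS2_7 (chk_node (chk_node (chk_node
  e nS2_8 e) nS2_9 (chk_node e nS2_10 e)) nS2_11 (chk_node (chk_node e nS2_12 e) nS2_13 e)))
  nS2_14 (chk_node (chk_node (chk_node (chk_node e nS2_15 e) nS2_16 (chk_node e nS2_17 e)) nS2_18
  (chk_node (chk_node e nS2_19 e) nS2_20 e)) nS2_21 (chk_node (chk_node (chk_node e nS2_22 e)
  nS2_23 (chk_node e nS2_24 e)) nS2_25 (chk_node (chk_node e nS2_26 e) nS2_27 e))))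

end Pool.Agent.Helper524_FM.DP
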