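import Pool.Agent.Helper524_FM.TabS3
import Pool.Agent.Helper524_FM.ChkS2

/-!
# Verification of a part of certificate table S3
-/

namespace Pool.Agent.Helper524_FM.DP

theorem nS3_0 : chk1 PS3 1087238367451030112671961790 (tot PS3 TS3 (dec PS3.S 2450101122)) = true := by decide +kernel
theorem nS3_1 : chk1 PS3 2499225060385338493521633121 (tot PS3 TS3 (dec PS3.S 2460101022)) = true := by decide +kernel
theorem nS3_2 : chk1 PS3 146243850108241585711967414 (tot PS3 TS3 (dec PS3.S 2461101122)) = true := by decide +kernel
theorem nS3_3 : chk1 PS3 603511113153343395623073564 (tot PS3 TS3 (dec PS3.S 2540110121)) = true := by decide +kernel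
theorem nS3_4 : chk1 PS3 2262988031443741911877399867 (tot PS3 TS3 (dec PS3.S 2540110122)) = true := by decide +kernel
theorem nS3_5 : chk1 PS3 2419310647558280258995911791 (tot PS3 TS3 (dec PS3.S 2550111021)) = true := by decide +kernel
theorem nS3_6 : chk1 PS3 5495516031240622343765737661 (tot PS3 TS3 (dec PS3.S 2550111022)) = true := by decide +kernel
theorem nS3_7 : chk1 PS3 371131501311744292025316357 (tot PS3 TS3 (dec PS3.S 2551111122)) = true := by decide +kernel
theorem nS3_8 : chk1 PS3 1142412136253637612517536435 (tot PS3 TS3 (dec PS3.S 2640110020)) = true := by decide +kernel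
theorem nS3_9 : chk1 PS3 3828380319958724801037482860 (tot PS3 TS3 (dec PS3.S 2640110022)) = true := by decide +kernel
theorem nS3_10 : chk1 PS3 109140271992567004394857885 (tot PS3 TS3 (dec PS3.S 2641110121)) = true := by decide +kernel
theorem nS3_11 : chk1 PS3 652376021695765933999457131 (tot PS3 TS3 (dec PS3.S 2641110122)) = true := by decide +kernel
theorem nS3_12 : chk1 PS3 1098194515945704721494784873 (tot PS3 TS3 (dec PS3.S 3350111112)) = true := by decide +kernel
theorem nS3_13 : chk1 PS3 2306914174748566118277405930 (tot PS3 TS3 (dec PS3.S 3350111122)) = true := by decide +kernel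
theorem nS3_14 : chk1 PS3 627643826280100958301637932 (tot PS3 TS3 (dec PS3.S 3350122112)) = true := by decide +kernel
theorem nS3_15 : chk1 PS3 627643826280100958301637932 (tot PS3 TS3 (dec PS3.S 3350122122)) = true := by decide +kernel
theorem nS3_16 : chk1 PS3 2419310647558280258995911791 (tot PS3 TS3 (dec PS3.S 3360111012)) = true := by decide +kernel
theorem nS3_17 : chk1 PS3 5495516031240622343765737661 (tot PS3 TS3 (dec PS3.S 3360111022)) = true := by decide +kernel
theorem nS3_18 : chk1 PS3 371131501311744292025316357 (tot PS3 TS3 (dec PS3.S 3361111122)) = true := by decide +kernel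
theorem nS3_19 : chk1 PS3 1157078109448975949272875579 (tot PS3 TS3 (dec PS3.S 3440100111)) = true := by decide +kernel
theorem nS3_20 : chk1 PS3 2487153806211408142287983871 (tot PS3 TS3 (dec PS3.S 3440100112)) = true := by decide +kernel
theorem nS3_21 : chk1 PS3 1157078109448975949272875579 (tot PS3 TS3 (dec PS3.S 3440100121)) = true := by decide +kernel
theorem nS3_22 : chk1 PS3 5061118100714157876776694791 (tot PS3 TS3 (dec PS3.S 3440100122)) = true := by decide +kernel
theorem nS3_23 : chk1 PS3 3552019482834497394297605267 (tot PS3 TS3 (dec PS3.S 3450101011)) = true := by decide +kernel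
theorem nS3_24 : chk1 PS3 5704042619489109468888386455 (tot PS3 TS3 (dec PS3.S 3450101012)) = true := by decide +kernel
theorem nS3_25 : chk1 PS3 5704042619489109468888386453 (tot PS3 TS3 (dec PS3.S 3450101021)) = true := by decide +kernel
theorem nS3_26 : chk1 PS3 13046113058022959083255000657 (tot PS3 TS3 (dec PS3.S 3450101022)) = true := by decide +kernel
theorem nS3_27 : chk1 PS3 961126445274607740964272774 (tot PS3 TS3 (dec PS3.S 3451101122)) = true := by decide +kernel
theorem nS3_28 : chk1 PS3 2957288042182803838663448275 (tot PS3 TS3 (dec PS3.S 3461101022)) = true := by decide +kernel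
theorem nS3_29 : chk1 PS3 1579863814581040253539038076 (tot PS3 TS3 (dec PS3.S 3530111112)) = true := by decide +kernel
theorem nS3_30 : chk1 PS3 2788583491830645724031210748 (tot PS3 TS3 (dec PS3.S 3530111122)) = true := by decide +kernel
theorem nS3_31 : chk1 PS3 380455352763568563754769789 (tot PS3 TS3 (dec PS3.S 3530113110)) = true := by decide +kernel
theorem nS3_32 : chk1 PS3 957872144472100196691847279 (tot PS3 TS3 (dec PS3.S 3530113112)) = true := by decide +kernel
theorem nS3_33 : chk1 PS3 422118523292406377200951311 (tot PS3 TS3 (dec PS3.S 3530113120)) = true := by decide +kernel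
theorem nS3_34 : chk1 PS3 2166591821721705667184019951 (tot PS3 TS3 (dec PS3.S 3530113122)) = true := by decide +kernel
theorem nS3_35 : chk1 PS3 1109313143362180564055442751 (tot PS3 TS3 (dec PS3.S 3530122112)) = true := by decide +kernel
theorem nS3_36 : chk1 PS3 1109313143362180564055442751 (tot PS3 TS3 (dec PS3.S 3530122122)) = true := by decide +kernel
theorem nS3_37 : chk1 PS3 1849981295833288441385397813 (tot PS3 TS3 (dec PS3.S 3540110010)) = true := by decide +kernel
theorem nS3_38 : chk1 PS3 4198895423317246088376941637 (tot PS3 TS3 (dec PS3.S 3540110012)) = true := by decide +kernel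
theorem nS3_39 : chk1 PS3 2722624723424879492545639674 (tot PS3 TS3 (dec PS3.S 3540110020)) = true := by decide +kernel
theorem nS3_40 : chk1 PS3 9244257569622238278400082203 (tot PS3 TS3 (dec PS3.S 3540110022)) = true := by decide +kernel
theorem nS3_41 : chk1 PS3 279256108946828341980843592 (tot PS3 TS3 (dec PS3.S 3541110121)) = true := by decide +kernel
theorem nS3_42 : chk1 PS3 1713688135987239851723534410 (tot PS3 TS3 (dec PS3.S 3541110122)) = true := by decide +kernel
theorem nS3_43 : chk1 PS3 2987088757233881619280942287 (tot PS3 TS3 (dec PS3.S 3551111021)) = true := by decide +kernel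
theorem nS3_44 : chk1 PS3 6274806242459320351600548723 (tot PS3 TS3 (dec PS3.S 3551111022)) = true := by decide +kernel
theorem nS3_45 : chk1 PS3 1707190916023318241969539644 (tot PS3 TS3 (dec PS3.S 3551113021)) = true := by decide +kernel
theorem nS3_46 : chk1 PS3 1707190916023318241969539644 (tot PS3 TS3 (dec PS3.S 3551113022)) = true := by decide +kernel
theorem nS3_47 : chk1 PS3 2142635607042245357478104082 (tot PS3 TS3 (dec PS3.S 3630111011)) = true := by decide +kernel
theorem nS3_48 : chk1 PS3 2142635607042245357478104082 (tot PS3 TS3 (dec PS3.S 3630111012)) = true := by decide +kernel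
theorem nS3_49 : chk1 PS3 4114581701836281084037254958 (tot PS3 TS3 (dec PS3.S 3630111021)) = true := by decide +kernel
theorem nS3_50 : chk1 PS3 4114581701836281084037254958 (tot PS3 TS3 (dec PS3.S 3630111022)) = true := by decide +kernel
theorem nS3_51 : chk1 PS3 812143751733510276996397993 (tot PS3 TS3 (dec PS3.S 3631111122)) = true := by decide +kernel
theorem nS3_52 : chk1 PS3 90487957402900033535310649 (tot PS3 TS3 (dec PS3.S 3631113120)) = true := by decide +kernel
theorem nS3_53 : chk1 PS3 812143751733510276996397993 (tot PS3 TS3 (dec PS3.S 3631113122)) = true := by decide +kernel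
theorem nS3_54 : chk1 PS3 1475117723047527527723397834 (tot PS3 TS3 (dec PS3.S 3641110020)) = true := by decide +kernel
theorem nS3_55 : chk1 PS3 5357907489414909747066547876 (tot PS3 TS3 (dec PS3.S 3641110022)) = true := by decide +kernel
theorem nS3_56 : chk1 PS3 542322801892246970172702921 (tot PS3 TS3 (dec PS3.S 4250022102)) = true := by decide +kernel
theorem nS3_57 : chk1 PS3 1969819037628384425578760124 (tot PS3 TS3 (dec PS3.S 4250022122)) = true := by decide +kernel
theorem nS3_58 : chk1 PS3 1142412136253637612517536435 (tot PS3 TS3 (dec PS3.S 4260022002)) = true := by decide +kernel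
theorem nS3_59 : chk1 PS3 3828380319958724801037482860 (tot PS3 TS3 (dec PS3.S 4260022022)) = true := by decide +kernel
theorem nS3_60 : chk1 PS3 109140271992567004394857885 (tot PS3 TS3 (dec PS3.S 4261022112)) = true := by decide +kernel
theorem nS3_61 : chk1 PS3 652376021695765933999457131 (tot PS3 TS3 (dec PS3.S 4261022122)) = true := by decide +kernel
theorem nS3_62 : chk1 PS3 723434576968149908088938298 (tot PS3 TS3 (dec PS3.S 4340020101)) = true := by decide +kernel
theorem nS3_63 : chk1 PS3 1271121396889126436519372490 (tot PS3 TS3 (dec PS3.S 4340020102)) = true := by decide +kernel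
theorem nS3_64 : chk1 PS3 1831736986329043778391973189 (tot PS3 TS3 (dec PS3.S 4340020121)) = true := by decide +kernel
theorem nS3_65 : chk1 PS3 4702248021060999807728312999 (tot PS3 TS3 (dec PS3.S 4340020122)) = true := by decide +kernel
theorem nS3_66 : chk1 PS3 1849981295833288441385397812 (tot PS3 TS3 (dec PS3.S 4350022001)) = true := by decide +kernel
theorem nS3_67 : chk1 PS3 2722624723424879492545639674 (tot PS3 TS3 (dec PS3.S 4350022002)) = true := by decide +kernel
theorem nS3_68 : chk1 PS3 4198895423317246088376941636 (tot PS3 TS3 (dec PS3.S 4350022021)) = true := by decide +kernel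
theorem nS3_69 : chk1 PS3 9244257569622238278400082203 (tot PS3 TS3 (dec PS3.S 4350022022)) = true := by decide +kernel
theorem nS3_70 : chk1 PS3 279256108946828341980843592 (tot PS3 TS3 (dec PS3.S 4351022112)) = true := by decide +kernel
theorem nS3_71 : chk1 PS3 1713688135987239851723534410 (tot PS3 TS3 (dec PS3.S 4351022122)) = true := by decide +kernel
theorem nS3_72 : chk1 PS3 1641549929677709804948405982 (tot PS3 TS3 (dec PS3.S 4361022012)) = true := by decide +kernel
theorem nS3_73 : chk1 PS3 6155327123815761354811947455 (tot PS3 TS3 (dec PS3.S 4361022022)) = true := by decide +kernel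
theorem nS3_74 : chk1 PS3 402773533462771612677601506 (tot PS3 TS3 (dec PS3.S 4430003100)) = true := by decide +kernel
theorem nS3_75 : chk1 PS3 835426734041256482872823835 (tot PS3 TS3 (dec PS3.S 4430003102)) = true := by decide +kernel
theorem nS3_76 : chk1 PS3 3304320311208284350829752332 (tot PS3 TS3 (dec PS3.S 4430003122)) = true := by decide +kernel
theorem nS3_77 : chk1 PS3 1304966634365341331183494304 (tot PS3 TS3 (dec PS3.S 4440000000)) = true := by decide +kernel
theorem nS3_78 : chk1 PS3 3147252188378751105862767985 (tot PS3 TS3 (dec PS3.S 4451003011)) = true := by decide +kernel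
theorem nS3_79 : chk1 PS3 3147252188378751105862767985 (tot PS3 TS3 (dec PS3.S 4451003012)) = true := by decide +kernel
theorem nS3_80 : chk1 PS3 6765058054795645915876962017 (tot PS3 TS3 (dec PS3.S 4451003021)) = true := by decide +kernel
theorem nS3_81 : chk1 PS3 13766240926988688038305670943 (tot PS3 TS3 (dec PS3.S 4451003022)) = true := by decide +kernel
theorem nS3_82 : chk1 PS3 347514872743936901466988655 (tot PS3 TS3 (dec PS3.S 4520022101)) = true := by decide +kernel
theorem nS3_83 : chk1 PS3 347514872743936901466988655 (tot PS3 TS3 (dec PS3.S 4520022102)) = true := by decide +kernel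
theorem nS3_84 : chk1 PS3 1316063623751018712446341281 (tot PS3 TS3 (dec PS3.S 4520022121)) = true := by decide +kernel
theorem nS3_85 : chk1 PS3 1316063623751018712446341281 (tot PS3 TS3 (dec PS3.S 4520022122)) = true := by decide +kernel
theorem nS3_86 : chk1 PS3 1185416495757098552622892534 (tot PS3 TS3 (dec PS3.S 4530022001)) = true := by decide +kernel
theorem nS3_87 : chk1 PS3 1185416495757098552622892534 (tot PS3 TS3 (dec PS3.S 4530022002)) = true := by decide +kernel
theorem nS3_88 : chk1 PS3 3312510979171660644805209360 (tot PS3 TS3 (dec PS3.S 4530022021)) = true := by decide +kernel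
theorem nS3_89 : chk1 PS3 3312510979171660644805209360 (tot PS3 TS3 (dec PS3.S 4530022022)) = true := by decide +kernel
theorem nS3_90 : chk1 PS3 279256108946828341980843592 (tot PS3 TS3 (dec PS3.S 4531022112)) = true := by decide +kernel
theorem nS3_91 : chk1 PS3 1713688135987239851723534410 (tot PS3 TS3 (dec PS3.S 4531022122)) = true := by decide +kernel
theorem nS3_92 : chk1 PS3 52812401093731940152406028 (tot PS3 TS3 (dec PS3.S 4531023110)) = true := by decide +kernel
theorem nS3_93 : chk1 PS3 279256108946828341980843592 (tot PS3 TS3 (dec PS3.S 4531023112)) = true := by decide +kernel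
theorem nS3_94 : chk1 PS3 122866900086183903362591803 (tot PS3 TS3 (dec PS3.S 4531023120)) = true := by decide +kernel
theorem nS3_95 : chk1 PS3 1713688135987239851723534410 (tot PS3 TS3 (dec PS3.S 4531023122)) = true := by decide +kernel
theorem nS3_96 : chk1 PS3 1967741731331499919249242315 (tot PS3 TS3 (dec PS3.S 4541020010)) = true := by decide +kernel
theorem nS3_97 : chk1 PS3 4982324290696089350060553735 (tot PS3 TS3 (dec PS3.S 4541020012)) = true := by decide +kernel
theorem nS3_98 : chk1 PS3 3457449925050872090534565131 (tot PS3 TS3 (dec PS3.S 4541020020)) = true := by decide +kernel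
theorem nS3_99 : chk1 PS3 12790114308856358564597308338 (tot PS3 TS3 (dec PS3.S 4541020022)) = true := by decide +kernel
theorem nS3_100 : chk1 PS3 450754861410807537228826816 (tot PS3 TS3 (dec PS3.S 4620022002)) = true := by decide +kernel

theorem cTS3l : chk PS3 TS3 TS3l = true :=
  have e : chk PS3 TS3 Tr.leaf = true := rfl
  (chk_node (chk_node (chk_node (chk_node (chk_node (chk_node (chk_node e nS3_0 e) nS3_1 (chk_node
  e nS3_2 e)) nS3_3 (chk_node (chk_node e nS3_4 e) nS3_5 e)) nS3_6 (chk_node (chk_node (chk_node e
  nS3_7 e) nS3_8 e) nS3_9 (chk_node (chk_node e nS3_10 e) nS3_11 e))) nS3_12 (chk_node (chk_node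
  (chk_node (chk_node e nS3_13 e) nS3_14 (chk_node e nS3_15 e)) nS3_16 (chk_node (chk_node e
  nS3_17 e) nS3_18 e)) nS3_19 (chk_node (chk_node (chk_node e nS3_20 e) nS3_21 e) nS3_22 (chk_node
  (chk_node e nS3_23 e) nS3_24 e)))) nS3_25 (chk_node (chk_node (chk_node (chk_node (chk_node e
  nS3_26 e) nS3_27 (chk_node e nS3_28 e)) nS3_29 (chk_node (chk_node e nS3_30 e) nS3_31 e)) nS3_32
  (chk_node (chk_node (chk_node e nS3_33 e) nS3_34 e) nS3_35 (chk_node (chk_node e nS3_36 e)
  nS3_37 e))) nS3_38 (chk_node (chk_node (chk_node (chk_node e nS3_39 e) nS3_40 e) nS3_41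
  (chk_node (chk_node e nS3_42 e) nS3_43 e)) nS3_44 (chk_node (chk_node (chk_node e nS3_45 e)
  nS3_46 e) nS3_47 (chk_node (chk_node e nS3_48 e) nS3_49 e))))) nS3_50 (chk_node (chk_node
  (chk_node (chk_node (chk_node (chk_node e nS3_51 e) nS3_52 (chk_node e nS3_53 e)) nS3_54
  (chk_node (chk_node e nS3_55 e) nS3_56 e)) nS3_57 (chk_node (chk_node (chk_node e nS3_58 e)
  nS3_59 e) nS3_60 (chk_node (chk_node e nS3_61 e) nS3_62 e))) nS3_63 (chk_node (chk_node
  (chk_node (chk_node e nS3_64 e) nS3_65 (chk_node e nS3_66 e)) nS3_67 (chk_node (chk_node e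
  nS3_68 e) nS3_69 e)) nS3_70 (chk_node (chk_node (chk_node e nS3_71 e) nS3_72 e) nS3_73 (chk_node
  (chk_node e nS3_74 e) nS3_75 e)))) nS3_76 (chk_node (chk_node (chk_node (chk_node (chk_node e
  nS3_77 e) nS3_78 (chk_node e nS3_79 e)) nS3_80 (chk_node (chk_node e nS3_81 e) nS3_82 e)) nS3_83
  (chk_node (chk_node (chk_node e nS3_84 e) nS3_85 e) nS3_86 (chk_node (chk_node e nS3_87 e)
  nS3_88 e))) nS3_89 (chk_node (chk_node (chk_node (chk_node e nS3_90 e) nS3_91 e) nS3_92
  (chk_node (chk_node e nS3_93 e) nS3_94 e)) nS3_95 (chk_node (chk_node (chk_node e nS3_96 e)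
  nS3_97 e) nS3_98 (chk_node (chk_node e nS3_99 e) nS3_100 e))))))

end Pool.Agent.Helper524_FM.DP
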