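import Pool.Agent.Helper524_FM.TabS3
import Pool.Agent.Helper524_FM.ChkS3_0

/-!
# Verification of a part of certificate table S3
-/

namespace Pool.Agent.Helper524_FM.DP

theorem nS3_102 : chk1 PS3 109140271992567004394857885 (tot PS3 TS3 (dec PS3.S 4621022111)) = true := by decide +kernel
theorem nS3_103 : chk1 PS3 109140271992567004394857885 (tot PS3 TS3 (dec PS3.S 4621022112)) = true := by decide +kernel
theorem nS3_104 : chk1 PS3 652376021695765933999457131 (tot PS3 TS3 (dec PS3.S 4621022121)) = true := by decide +kernel
theorem nS3_105 : chk1 PS3 652376021695765933999457131 (tot PS3 TS3 (dec PS3.S 4621022122)) = true := by decide +kernel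
theorem nS3_106 : chk1 PS3 2030697093100905130070873233 (tot PS3 TS3 (dec PS3.S 4631022011)) = true := by decide +kernel
theorem nS3_107 : chk1 PS3 2030697093100905130070873233 (tot PS3 TS3 (dec PS3.S 4631022012)) = true := by decide +kernel
theorem nS3_108 : chk1 PS3 5103248250569221647501109816 (tot PS3 TS3 (dec PS3.S 4631022021)) = true := by decide +kernel
theorem nS3_109 : chk1 PS3 5103248250569221647501109816 (tot PS3 TS3 (dec PS3.S 4631022022)) = true := by decide +kernel
theorem nS3_110 : chk1 PS3 746579928118362167017685480 (tot PS3 TS3 (dec PS3.S 5240110111)) = true := by decide +kernel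
theorem nS3_111 : chk1 PS3 1876194322076214525048266388 (tot PS3 TS3 (dec PS3.S 5240110112)) = true := by decide +kernel
theorem nS3_112 : chk1 PS3 746579928118362167017685480 (tot PS3 TS3 (dec PS3.S 5240110121)) = true := by decide +kernel
theorem nS3_113 : chk1 PS3 1876194322076214525048266388 (tot PS3 TS3 (dec PS3.S 5240110122)) = true := by decide +kernel
theorem nS3_114 : chk1 PS3 2142635607042245357478104083 (tot PS3 TS3 (dec PS3.S 5250111011)) = true := by decide +kernel
theorem nS3_115 : chk1 PS3 4114581701836281084037254958 (tot PS3 TS3 (dec PS3.S 5250111012)) = true := by decide +kernel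
theorem nS3_116 : chk1 PS3 2142635607042245357478104083 (tot PS3 TS3 (dec PS3.S 5250111021)) = true := by decide +kernel
theorem nS3_117 : chk1 PS3 4114581701836281084037254958 (tot PS3 TS3 (dec PS3.S 5250111022)) = true := by decide +kernel
theorem nS3_118 : chk1 PS3 812143751733510276996397993 (tot PS3 TS3 (dec PS3.S 5251111122)) = true := by decide +kernel
theorem nS3_119 : chk1 PS3 90487957402900033535310649 (tot PS3 TS3 (dec PS3.S 5251122102)) = true := by decide +kernel
theorem nS3_120 : chk1 PS3 812143751733510276996397993 (tot PS3 TS3 (dec PS3.S 5251122122)) = true := by decide +kernel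
theorem nS3_121 : chk1 PS3 1357772652885623767837598221 (tot PS3 TS3 (dec PS3.S 5330111112)) = true := by decide +kernel
theorem nS3_122 : chk1 PS3 1357772652885623767837598221 (tot PS3 TS3 (dec PS3.S 5330111122)) = true := by decide +kernel
theorem nS3_123 : chk1 PS3 215954538684647750296206142 (tot PS3 TS3 (dec PS3.S 5330113110)) = true := by decide +kernel
theorem nS3_124 : chk1 PS3 735780982776683710990407424 (tot PS3 TS3 (dec PS3.S 5330113112)) = true := by decide +kernel
theorem nS3_125 : chk1 PS3 215954538684647750296206142 (tot PS3 TS3 (dec PS3.S 5330113120)) = true := by decide +kernel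
theorem nS3_126 : chk1 PS3 735780982776683710990407424 (tot PS3 TS3 (dec PS3.S 5330113122)) = true := by decide +kernel
theorem nS3_127 : chk1 PS3 1185416495757098552622892534 (tot PS3 TS3 (dec PS3.S 5340110010)) = true := by decide +kernel
theorem nS3_128 : chk1 PS3 3312510979171660644805209360 (tot PS3 TS3 (dec PS3.S 5340110012)) = true := by decide +kernel
theorem nS3_129 : chk1 PS3 1185416495757098552622892534 (tot PS3 TS3 (dec PS3.S 5340110020)) = true := by decide +kernel
theorem nS3_130 : chk1 PS3 3312510979171660644805209360 (tot PS3 TS3 (dec PS3.S 5340110022)) = true := by decide +kernel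
theorem nS3_131 : chk1 PS3 279256108946828341980843592 (tot PS3 TS3 (dec PS3.S 5341110121)) = true := by decide +kernel
theorem nS3_132 : chk1 PS3 1713688135987239851723534410 (tot PS3 TS3 (dec PS3.S 5341110122)) = true := by decide +kernel
theorem nS3_133 : chk1 PS3 52812401093731940152406028 (tot PS3 TS3 (dec PS3.S 5341120101)) = true := by decide +kernel
theorem nS3_134 : chk1 PS3 122866900086183903362591803 (tot PS3 TS3 (dec PS3.S 5341120102)) = true := by decide +kernel
theorem nS3_135 : chk1 PS3 279256108946828341980843592 (tot PS3 TS3 (dec PS3.S 5341120121)) = true := by decide +kernel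
theorem nS3_136 : chk1 PS3 1713688135987239851723534410 (tot PS3 TS3 (dec PS3.S 5341120122)) = true := by decide +kernel
theorem nS3_137 : chk1 PS3 4297229297483528858086145199 (tot PS3 TS3 (dec PS3.S 5351111021)) = true := by decide +kernel
theorem nS3_138 : chk1 PS3 7584946782708967590405751635 (tot PS3 TS3 (dec PS3.S 5351111022)) = true := by decide +kernel
theorem nS3_139 : chk1 PS3 3017331456272965480774742557 (tot PS3 TS3 (dec PS3.S 5351113021)) = true := by decide +kernel
theorem nS3_140 : chk1 PS3 3017331456272965480774742557 (tot PS3 TS3 (dec PS3.S 5351113022)) = true := by decide +kernel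
theorem nS3_141 : chk1 PS3 1034838269534089654698822425 (tot PS3 TS3 (dec PS3.S 5351122001)) = true := by decide +kernel
theorem nS3_142 : chk1 PS3 1148162060168389174595243256 (tot PS3 TS3 (dec PS3.S 5351122002)) = true := by decide +kernel
theorem nS3_143 : chk1 PS3 2605411953311472377565022104 (tot PS3 TS3 (dec PS3.S 5351122021)) = true := by decide +kernel
theorem nS3_144 : chk1 PS3 5893129438536911109884628538 (tot PS3 TS3 (dec PS3.S 5351122022)) = true := by decide +kernel
theorem nS3_145 : chk1 PS3 560589136808915642375851852 (tot PS3 TS3 (dec PS3.S 5420101111)) = true := by decide +kernel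
theorem nS3_146 : chk1 PS3 560589136808915642375851852 (tot PS3 TS3 (dec PS3.S 5420101112)) = true := by decide +kernel
theorem nS3_147 : chk1 PS3 560589136808915642375851852 (tot PS3 TS3 (dec PS3.S 5420101121)) = true := by decide +kernel
theorem nS3_148 : chk1 PS3 560589136808915642375851852 (tot PS3 TS3 (dec PS3.S 5420101122)) = true := by decide +kernel
theorem nS3_149 : chk1 PS3 2090131543275705472483444376 (tot PS3 TS3 (dec PS3.S 5430101011)) = true := by decide +kernel
theorem nS3_150 : chk1 PS3 2090131543275705472483444376 (tot PS3 TS3 (dec PS3.S 5430101012)) = true := by decide +kernel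
theorem nS3_151 : chk1 PS3 2090131543275705472483444376 (tot PS3 TS3 (dec PS3.S 5430101021)) = true := by decide +kernel
theorem nS3_152 : chk1 PS3 2090131543275705472483444376 (tot PS3 TS3 (dec PS3.S 5430101022)) = true := by decide +kernel
theorem nS3_153 : chk1 PS3 961126445274607740964272774 (tot PS3 TS3 (dec PS3.S 5431101122)) = true := by decide +kernel
theorem nS3_154 : chk1 PS3 22858891661491623300390231 (tot PS3 TS3 (dec PS3.S 5431103100)) = true := by decide +kernel
theorem nS3_155 : chk1 PS3 82577181887354134581930498 (tot PS3 TS3 (dec PS3.S 5431103102)) = true := by decide +kernel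
theorem nS3_156 : chk1 PS3 82577181887354134581930498 (tot PS3 TS3 (dec PS3.S 5431103120)) = true := by decide +kernel
theorem nS3_157 : chk1 PS3 961126445274607740964272774 (tot PS3 TS3 (dec PS3.S 5431103122)) = true := by decide +kernel
theorem nS3_158 : chk1 PS3 1095543718822312658923778503 (tot PS3 TS3 (dec PS3.S 5441100000)) = true := by decide +kernel
theorem nS3_159 : chk1 PS3 2272360416279224113422580527 (tot PS3 TS3 (dec PS3.S 5441100020)) = true := by decide +kernel
theorem nS3_160 : chk1 PS3 8987750963144544462078213521 (tot PS3 TS3 (dec PS3.S 5441100022)) = true := by decide +kernel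
theorem nS3_161 : chk1 PS3 795329194022186620203039355 (tot PS3 TS3 (dec PS3.S 5520111012)) = true := by decide +kernel
theorem nS3_162 : chk1 PS3 795329194022186620203039355 (tot PS3 TS3 (dec PS3.S 5520111022)) = true := by decide +kernel
theorem nS3_163 : chk1 PS3 371131501311744292025316357 (tot PS3 TS3 (dec PS3.S 5521111121)) = true := by decide +kernel
theorem nS3_164 : chk1 PS3 371131501311744292025316357 (tot PS3 TS3 (dec PS3.S 5521111122)) = true := by decide +kernel
theorem nS3_165 : chk1 PS3 33340848153007454396219163 (tot PS3 TS3 (dec PS3.S 5521122101)) = true := by decide +kernel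
theorem nS3_166 : chk1 PS3 33340848153007454396219163 (tot PS3 TS3 (dec PS3.S 5521122102)) = true := by decide +kernel
theorem nS3_167 : chk1 PS3 371131501311744292025316357 (tot PS3 TS3 (dec PS3.S 5521122121)) = true := by decide +kernel
theorem nS3_168 : chk1 PS3 371131501311744292025316357 (tot PS3 TS3 (dec PS3.S 5521122122)) = true := by decide +kernel
theorem nS3_169 : chk1 PS3 3693141317749512417371913046 (tot PS3 TS3 (dec PS3.S 5531111021)) = true := by decide +kernel
theorem nS3_170 : chk1 PS3 3693141317749512417371913046 (tot PS3 TS3 (dec PS3.S 5531111022)) = true := by decide +kernel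
theorem nS3_171 : chk1 PS3 587396055977294805039911369 (tot PS3 TS3 (dec PS3.S 5531122001)) = true := by decide +kernel
theorem nS3_172 : chk1 PS3 587396055977294805039911369 (tot PS3 TS3 (dec PS3.S 5531122002)) = true := by decide +kernel
theorem nS3_173 : chk1 PS3 2001323973577455936850789949 (tot PS3 TS3 (dec PS3.S 5531122021)) = true := by decide +kernel
theorem nS3_174 : chk1 PS3 2001323973577455936850789949 (tot PS3 TS3 (dec PS3.S 5531122022)) = true := by decide +kernel
theorem nS3_175 : chk1 PS3 450754861410807537228826816 (tot PS3 TS3 (dec PS3.S 6240110020)) = true := by decide +kernel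
theorem nS3_176 : chk1 PS3 1249181337549946285988203678 (tot PS3 TS3 (dec PS3.S 6240110022)) = true := by decide +kernel
theorem nS3_177 : chk1 PS3 109140271992567004394857885 (tot PS3 TS3 (dec PS3.S 6241110111)) = true := by decide +kernel
theorem nS3_178 : chk1 PS3 652376021695765933999457131 (tot PS3 TS3 (dec PS3.S 6241110112)) = true := by decide +kernel
theorem nS3_179 : chk1 PS3 109140271992567004394857885 (tot PS3 TS3 (dec PS3.S 6241110121)) = true := by decide +kernel
theorem nS3_180 : chk1 PS3 652376021695765933999457131 (tot PS3 TS3 (dec PS3.S 6241110122)) = true := by decide +kernel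
theorem nS3_181 : chk1 PS3 795329194022186620203039355 (tot PS3 TS3 (dec PS3.S 6330111021)) = true := by decide +kernel
theorem nS3_182 : chk1 PS3 795329194022186620203039355 (tot PS3 TS3 (dec PS3.S 6330111022)) = true := by decide +kernel
theorem nS3_183 : chk1 PS3 371131501311744292025316357 (tot PS3 TS3 (dec PS3.S 6331111112)) = true := by decide +kernel
theorem nS3_184 : chk1 PS3 371131501311744292025316357 (tot PS3 TS3 (dec PS3.S 6331111122)) = true := by decide +kernel
theorem nS3_185 : chk1 PS3 33340848153007454396219163 (tot PS3 TS3 (dec PS3.S 6331113110)) = true := by decide +kernel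
theorem nS3_186 : chk1 PS3 371131501311744292025316357 (tot PS3 TS3 (dec PS3.S 6331113112)) = true := by decide +kernel
theorem nS3_187 : chk1 PS3 33340848153007454396219163 (tot PS3 TS3 (dec PS3.S 6331113120)) = true := by decide +kernel
theorem nS3_188 : chk1 PS3 371131501311744292025316357 (tot PS3 TS3 (dec PS3.S 6331113122)) = true := by decide +kernel
theorem nS3_189 : chk1 PS3 945240127725073148805336573 (tot PS3 TS3 (dec PS3.S 6341110010)) = true := by decide +kernel
theorem nS3_190 : chk1 PS3 3579692771785042399778571334 (tot PS3 TS3 (dec PS3.S 6341110012)) = true := by decide +kernel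
theorem nS3_191 : chk1 PS3 945240127725073148805336573 (tot PS3 TS3 (dec PS3.S 6341110020)) = true := by decide +kernel
theorem nS3_192 : chk1 PS3 3579692771785042399778571334 (tot PS3 TS3 (dec PS3.S 6341110022)) = true := by decide +kernel
theorem nS3_193 : chk1 PS3 307486526461887523324216827 (tot PS3 TS3 (dec PS3.S 6420101022)) = true := by decide +kernel
theorem nS3_194 : chk1 PS3 146243850108241585711967414 (tot PS3 TS3 (dec PS3.S 6421101111)) = true := by decide +kernel
theorem nS3_195 : chk1 PS3 146243850108241585711967414 (tot PS3 TS3 (dec PS3.S 6421101112)) = true := by decide +kernel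
theorem nS3_196 : chk1 PS3 146243850108241585711967414 (tot PS3 TS3 (dec PS3.S 6421101121)) = true := by decide +kernel
theorem nS3_197 : chk1 PS3 146243850108241585711967414 (tot PS3 TS3 (dec PS3.S 6421101122)) = true := by decide +kernel
theorem nS3_198 : chk1 PS3 1524802146642168686632142277 (tot PS3 TS3 (dec PS3.S 6431101011)) = true := by decide +kernel
theorem nS3_199 : chk1 PS3 1524802146642168686632142277 (tot PS3 TS3 (dec PS3.S 6431101012)) = true := by decide +kernel
theorem nS3_200 : chk1 PS3 1524802146642168686632142277 (tot PS3 TS3 (dec PS3.S 6431101021)) = true := by decide +kernel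
theorem nS3_201 : chk1 PS3 1524802146642168686632142277 (tot PS3 TS3 (dec PS3.S 6431101022)) = true := by decide +kernel

theorem cTS3r : chk PS3 TS3 TS3r = true :=
  have e : chk PS3 TS3 Tr.leaf = true := rfl
  (chk_node (chk_node (chk_node (chk_node (chk_node (chk_node (chk_node e nS3_102 e) nS3_103
  (chk_node e nS3_104 e)) nS3_105 (chk_node (chk_node e nS3_106 e) nS3_107 e)) nS3_108 (chk_node
  (chk_node (chk_node e nS3_109 e) nS3_110 e) nS3_111 (chk_node (chk_node e nS3_112 e) nS3_113
  e))) nS3_114 (chk_node (chk_node (chk_node (chk_node e nS3_115 e) nS3_116 (chk_node e nS3_117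
  e)) nS3_118 (chk_node (chk_node e nS3_119 e) nS3_120 e)) nS3_121 (chk_node (chk_node (chk_node e
  nS3_122 e) nS3_123 e) nS3_124 (chk_node (chk_node e nS3_125 e) nS3_126 e)))) nS3_127 (chk_node
  (chk_node (chk_node (chk_node (chk_node e nS3_128 e) nS3_129 (chk_node e nS3_130 e)) nS3_131
  (chk_node (chk_node e nS3_132 e) nS3_133 e)) nS3_134 (chk_node (chk_node (chk_node e nS3_135 e)
  nS3_136 e) nS3_137 (chk_node (chk_node e nS3_138 e) nS3_139 e))) nS3_140 (chk_node (chk_node
  (chk_node (chk_node e nS3_141 e) nS3_142 e) nS3_143 (chk_node (chk_node e nS3_144 e) nS3_145 e))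
  nS3_146 (chk_node (chk_node (chk_node e nS3_147 e) nS3_148 e) nS3_149 (chk_node (chk_node e
  nS3_150 e) nS3_151 e))))) nS3_152 (chk_node (chk_node (chk_node (chk_node (chk_node (chk_node e
  nS3_153 e) nS3_154 (chk_node e nS3_155 e)) nS3_156 (chk_node (chk_node e nS3_157 e) nS3_158 e))
  nS3_159 (chk_node (chk_node (chk_node e nS3_160 e) nS3_161 e) nS3_162 (chk_node (chk_node e
  nS3_163 e) nS3_164 e))) nS3_165 (chk_node (chk_node (chk_node (chk_node e nS3_166 e) nS3_167 e)
  nS3_168 (chk_node (chk_node e nS3_169 e) nS3_170 e)) nS3_171 (chk_node (chk_node (chk_node e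
  nS3_172 e) nS3_173 e) nS3_174 (chk_node (chk_node e nS3_175 e) nS3_176 e)))) nS3_177 (chk_node
  (chk_node (chk_node (chk_node (chk_node e nS3_178 e) nS3_179 (chk_node e nS3_180 e)) nS3_181
  (chk_node (chk_node e nS3_182 e) nS3_183 e)) nS3_184 (chk_node (chk_node (chk_node e nS3_185 e)
  nS3_186 e) nS3_187 (chk_node (chk_node e nS3_188 e) nS3_189 e))) nS3_190 (chk_node (chk_node
  (chk_node (chk_node e nS3_191 e) nS3_192 e) nS3_193 (chk_node (chk_node e nS3_194 e) nS3_195 e))
  nS3_196 (chk_node (chk_node (chk_node e nS3_197 e) nS3_198 e) nS3_199 (chk_node (chk_node e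
  nS3_200 e) nS3_201 e))))))

end Pool.Agent.Helper524_FM.DP
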