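import Pool.Agent.Helper524_FM.ChkS3_0
import Pool.Agent.Helper524_FM.ChkS3_1

/-!
# Verification of certificate table S3
-/

namespace Pool.Agent.Helper524_FM.DP

theorem nS3_101 : chk1 PS3 1249181337549946285988203678 (tot PS3 TS3 (dec PS3.S 4620022022)) = true := by decide +kernel

theorem cTS3 : chk PS3 TS3 TS3 = true := chk_node cTS3l nS3_101 cTS3r

end Pool.Agent.Helper524_FM.DP
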