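import Pool.Agent.Helper524_FM.TabS4
import Pool.Agent.Helper524_FM.ChkS3

/-!
# Verification of a part of certificate table S4
-/

namespace Pool.Agent.Helper524_FM.DP

theorem nS4_0 : chk1 PS4 713189421330308286512380165 (tot PS4 TS4 (dec PS4.S 2445010011222)) = true := by decide +kernel
theorem nS4_1 : chk1 PS4 315175387646226696371345956 (tot PS4 TS4 (dec PS4.S 2454010101221)) = true := by decide +kernel
theorem nS4_2 : chk1 PS4 1381966055800383834944203203 (tot PS4 TS4 (dec PS4.S 2454010101222)) = true := by decide +kernel
theorem nS4_3 : chk1 PS4 454333972482964959271282014 (tot PS4 TS4 (dec PS4.S 2544011001211)) = true := by decide +kernel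
theorem nS4_4 : chk1 PS4 1034782043858152987986245375 (tot PS4 TS4 (dec PS4.S 2544011001212)) = true := by decide +kernel
theorem nS4_5 : chk1 PS4 454333972482964959271282014 (tot PS4 TS4 (dec PS4.S 2544011001221)) = true := by decide +kernel
theorem nS4_6 : chk1 PS4 2688058697870728470879982265 (tot PS4 TS4 (dec PS4.S 2544011001222)) = true := by decide +kernel
theorem nS4_7 : chk1 PS4 747452016391190859780032193 (tot PS4 TS4 (dec PS4.S 3345011011122)) = true := by decide +kernel
theorem nS4_8 : chk1 PS4 1440825613196127019178590767 (tot PS4 TS4 (dec PS4.S 3345011011222)) = true := by decide +kernel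
theorem nS4_9 : chk1 PS4 448287314243043705348336959 (tot PS4 TS4 (dec PS4.S 3345012021122)) = true := by decide +kernel
theorem nS4_10 : chk1 PS4 448287314243043705348336959 (tot PS4 TS4 (dec PS4.S 3345012021222)) = true := by decide +kernel
theorem nS4_11 : chk1 PS4 512566414367178313588747061 (tot PS4 TS4 (dec PS4.S 3354011101121)) = true := by decide +kernel
theorem nS4_12 : chk1 PS4 1584661203972057675497924527 (tot PS4 TS4 (dec PS4.S 3354011101122)) = true := by decide +kernel
theorem nS4_13 : chk1 PS4 667768040291101404983330143 (tot PS4 TS4 (dec PS4.S 3354011101221)) = true := by decide +kernel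
theorem nS4_14 : chk1 PS4 2944658091471113046245180477 (tot PS4 TS4 (dec PS4.S 3354011101222)) = true := by decide +kernel
theorem nS4_15 : chk1 PS4 300662430192979780346381340 (tot PS4 TS4 (dec PS4.S 3354012201121)) = true := by decide +kernel
theorem nS4_16 : chk1 PS4 912755448304758775830506761 (tot PS4 TS4 (dec PS4.S 3354012201122)) = true := by decide +kernel
theorem nS4_17 : chk1 PS4 300662430192979780346381340 (tot PS4 TS4 (dec PS4.S 3354012201221)) = true := by decide +kernel
theorem nS4_18 : chk1 PS4 912755448304758775830506761 (tot PS4 TS4 (dec PS4.S 3354012201222)) = true := by decide +kernel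
theorem nS4_19 : chk1 PS4 961752970490327212158412160 (tot PS4 TS4 (dec PS4.S 3435010111112)) = true := by decide +kernel
theorem nS4_20 : chk1 PS4 1524946086586175842259297292 (tot PS4 TS4 (dec PS4.S 3435010111122)) = true := by decide +kernel
theorem nS4_21 : chk1 PS4 1116954596414250303552995242 (tot PS4 TS4 (dec PS4.S 3435010111212)) = true := by decide +kernel
theorem nS4_22 : chk1 PS4 2884942974085231213006553241 (tot PS4 TS4 (dec PS4.S 3435010111222)) = true := by decide +kernel
theorem nS4_23 : chk1 PS4 305698889387192478095891097 (tot PS4 TS4 (dec PS4.S 3435010331112)) = true := by decide +kernel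
theorem nS4_24 : chk1 PS4 305698889387192478095891097 (tot PS4 TS4 (dec PS4.S 3435010331122)) = true := by decide +kernel
theorem nS4_25 : chk1 PS4 305698889387192478095891097 (tot PS4 TS4 (dec PS4.S 3435010331212)) = true := by decide +kernel
theorem nS4_26 : chk1 PS4 305698889387192478095891097 (tot PS4 TS4 (dec PS4.S 3435010331222)) = true := by decide +kernel
theorem nS4_27 : chk1 PS4 1023519328923717400116224002 (tot PS4 TS4 (dec PS4.S 3444010001111)) = true := by decide +kernel
theorem nS4_28 : chk1 PS4 2145333424916281305689298050 (tot PS4 TS4 (dec PS4.S 3444010001112)) = true := by decide +kernel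
theorem nS4_29 : chk1 PS4 1023519328923717400116224002 (tot PS4 TS4 (dec PS4.S 3444010001121)) = true := by decide +kernel
theorem nS4_30 : chk1 PS4 3467003899635015888929597339 (tot PS4 TS4 (dec PS4.S 3444010001122)) = true := by decide +kernel
theorem nS4_31 : chk1 PS4 1023519328923717400116224002 (tot PS4 TS4 (dec PS4.S 3444010001211)) = true := by decide +kernel
theorem nS4_32 : chk1 PS4 2145333424916281305689298050 (tot PS4 TS4 (dec PS4.S 3444010001212)) = true := by decide +kernel
theorem nS4_33 : chk1 PS4 1023519328923717400116224002 (tot PS4 TS4 (dec PS4.S 3444010001221)) = true := by decide +kernel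
theorem nS4_34 : chk1 PS4 6040968194137765623418308261 (tot PS4 TS4 (dec PS4.S 3444010001222)) = true := by decide +kernel
theorem nS4_35 : chk1 PS4 3505245881667711307795218313 (tot PS4 TS4 (dec PS4.S 3445010010111)) = true := by decide +kernel
theorem nS4_36 : chk1 PS4 5210828536755707256211346683 (tot PS4 TS4 (dec PS4.S 3445010010112)) = true := by decide +kernel
theorem nS4_37 : chk1 PS4 3969741722739025090023581679 (tot PS4 TS4 (dec PS4.S 3445010010121)) = true := by decide +kernel
theorem nS4_38 : chk1 PS4 7768992567770026253580438020 (tot PS4 TS4 (dec PS4.S 3445010010122)) = true := by decide +kernel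
theorem nS4_39 : chk1 PS4 5210828536755707256211346682 (tot PS4 TS4 (dec PS4.S 3445010010211)) = true := by decide +kernel
theorem nS4_40 : chk1 PS4 6916411191843703204627475052 (tot PS4 TS4 (dec PS4.S 3445010010212)) = true := by decide +kernel
theorem nS4_41 : chk1 PS4 7768992567770026253580438018 (tot PS4 TS4 (dec PS4.S 3445010010221)) = true := by decide +kernel
theorem nS4_42 : chk1 PS4 16758290714680264956913127381 (tot PS4 TS4 (dec PS4.S 3445010010222)) = true := by decide +kernel
theorem nS4_43 : chk1 PS4 659795320608955989363307184 (tot PS4 TS4 (dec PS4.S 3445110011222)) = true := by decide +kernel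
theorem nS4_44 : chk1 PS4 1939874917588877626889971029 (tot PS4 TS4 (dec PS4.S 3446110010222)) = true := by decide +kernel
theorem nS4_45 : chk1 PS4 1175936013001344413084130340 (tot PS4 TS4 (dec PS4.S 3453010111112)) = true := by decide +kernel
theorem nS4_46 : chk1 PS4 1739129147543937116894567087 (tot PS4 TS4 (dec PS4.S 3453010111122)) = true := by decide +kernel
theorem nS4_47 : chk1 PS4 1331137657372011578188265038 (tot PS4 TS4 (dec PS4.S 3453010111212)) = true := by decide +kernel
theorem nS4_48 : chk1 PS4 3099126035042992487641823037 (tot PS4 TS4 (dec PS4.S 3453010111222)) = true := by decide +kernel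
theorem nS4_49 : chk1 PS4 390823511290893680625957113 (tot PS4 TS4 (dec PS4.S 3453010141110)) = true := by decide +kernel
theorem nS4_50 : chk1 PS4 891450768618453477089741398 (tot PS4 TS4 (dec PS4.S 3453010141112)) = true := by decide +kernel
theorem nS4_51 : chk1 PS4 401415281249880304682472648 (tot PS4 TS4 (dec PS4.S 3453010141120)) = true := by decide +kernel
theorem nS4_52 : chk1 PS4 1454643884714302107190626529 (tot PS4 TS4 (dec PS4.S 3453010141122)) = true := by decide +kernel
theorem nS4_53 : chk1 PS4 415398153065425103031733651 (tot PS4 TS4 (dec PS4.S 3453010141210)) = true := by decide +kernel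
theorem nS4_54 : chk1 PS4 1046652394542376568484324480 (tot PS4 TS4 (dec PS4.S 3453010141212)) = true := by decide +kernel
theorem nS4_55 : chk1 PS4 463728659432032275685379286 (tot PS4 TS4 (dec PS4.S 3453010141220)) = true := by decide +kernel
theorem nS4_56 : chk1 PS4 2814640772213357477937882479 (tot PS4 TS4 (dec PS4.S 3453010141222)) = true := by decide +kernel
theorem nS4_57 : chk1 PS4 519881931898209679021609276 (tot PS4 TS4 (dec PS4.S 3453010331112)) = true := by decide +kernel
theorem nS4_58 : chk1 PS4 519881931898209679021609276 (tot PS4 TS4 (dec PS4.S 3453010331122)) = true := by decide +kernel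
theorem nS4_59 : chk1 PS4 519881931898209679021609276 (tot PS4 TS4 (dec PS4.S 3453010331212)) = true := by decide +kernel
theorem nS4_60 : chk1 PS4 519881931898209679021609276 (tot PS4 TS4 (dec PS4.S 3453010331222)) = true := by decide +kernel
theorem nS4_61 : chk1 PS4 2029613900288896905193638968 (tot PS4 TS4 (dec PS4.S 3454010100110)) = true := by decide +kernel
theorem nS4_62 : chk1 PS4 4377298109558484041535043927 (tot PS4 TS4 (dec PS4.S 3454010100112)) = true := by decide +kernel
theorem nS4_63 : chk1 PS4 2180106201578010464026427288 (tot PS4 TS4 (dec PS4.S 3454010100120)) = true := by decide +kernel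
theorem nS4_64 : chk1 PS4 5888271470038355625700838060 (tot PS4 TS4 (dec PS4.S 3454010100122)) = true := by decide +kernel
theorem nS4_65 : chk1 PS4 3062763333509550303021926346 (tot PS4 TS4 (dec PS4.S 3454010100210)) = true := by decide +kernel
theorem nS4_66 : chk1 PS4 7104065621214181298894880600 (tot PS4 TS4 (dec PS4.S 3454010100212)) = true := by decide +kernel
theorem nS4_67 : chk1 PS4 4033361111954851623571560245 (tot PS4 TS4 (dec PS4.S 3454010100220)) = true := by decide +kernel
theorem nS4_68 : chk1 PS4 13607863196010385857349970641 (tot PS4 TS4 (dec PS4.S 3454010100222)) = true := by decide +kernel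
theorem nS4_69 : chk1 PS4 200483992299790497738935050 (tot PS4 TS4 (dec PS4.S 3454110101221)) = true := by decide +kernel
theorem nS4_70 : chk1 PS4 1126886231189815157612156179 (tot PS4 TS4 (dec PS4.S 3454110101222)) = true := by decide +kernel
theorem nS4_71 : chk1 PS4 2033069159921343441313579126 (tot PS4 TS4 (dec PS4.S 3455110110221)) = true := by decide +kernel
theorem nS4_72 : chk1 PS4 3919045366104732446277502449 (tot PS4 TS4 (dec PS4.S 3455110110222)) = true := by decide +kernel
theorem nS4_73 : chk1 PS4 1219341220253527061749348484 (tot PS4 TS4 (dec PS4.S 3455110140221)) = true := by decide +kernel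
theorem nS4_74 : chk1 PS4 1219341220253527061749348484 (tot PS4 TS4 (dec PS4.S 3455110140222)) = true := by decide +kernel
theorem nS4_75 : chk1 PS4 1073563962089885885435365053 (tot PS4 TS4 (dec PS4.S 3464110100220)) = true := by decide +kernel

theorem cTS4lll : chk PS4 TS4 TS4lll = true :=
  have e : chk PS4 TS4 Tr.leaf = true := rfl
  (chk_node (chk_node (chk_node (chk_node (chk_node (chk_node (chk_node e nS4_0 e) nS4_1 e) nS4_2
  (chk_node e nS4_3 e)) nS4_4 (chk_node (chk_node (chk_node e nS4_5 e) nS4_6 e) nS4_7 (chk_node e
  nS4_8 e))) nS4_9 (chk_node (chk_node (chk_node (chk_node e nS4_10 e) nS4_11 e) nS4_12 (chk_node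
  e nS4_13 e)) nS4_14 (chk_node (chk_node (chk_node e nS4_15 e) nS4_16 e) nS4_17 (chk_node e
  nS4_18 e)))) nS4_19 (chk_node (chk_node (chk_node (chk_node (chk_node e nS4_20 e) nS4_21 e)
  nS4_22 (chk_node e nS4_23 e)) nS4_24 (chk_node (chk_node (chk_node e nS4_25 e) nS4_26 e) nS4_27
  (chk_node e nS4_28 e))) nS4_29 (chk_node (chk_node (chk_node (chk_node e nS4_30 e) nS4_31 e)
  nS4_32 (chk_node e nS4_33 e)) nS4_34 (chk_node (chk_node e nS4_35 e) nS4_36 (chk_node e nS4_37
  e))))) nS4_38 (chk_node (chk_node (chk_node (chk_node (chk_node (chk_node e nS4_39 e) nS4_40 e)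
  nS4_41 (chk_node e nS4_42 e)) nS4_43 (chk_node (chk_node (chk_node e nS4_44 e) nS4_45 e) nS4_46
  (chk_node e nS4_47 e))) nS4_48 (chk_node (chk_node (chk_node (chk_node e nS4_49 e) nS4_50 e)
  nS4_51 (chk_node e nS4_52 e)) nS4_53 (chk_node (chk_node e nS4_54 e) nS4_55 (chk_node e nS4_56
  e)))) nS4_57 (chk_node (chk_node (chk_node (chk_node (chk_node e nS4_58 e) nS4_59 e) nS4_60
  (chk_node e nS4_61 e)) nS4_62 (chk_node (chk_node (chk_node e nS4_63 e) nS4_64 e) nS4_65
  (chk_node e nS4_66 e))) nS4_67 (chk_node (chk_node (chk_node (chk_node e nS4_68 e) nS4_69 e)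
  nS4_70 (chk_node e nS4_71 e)) nS4_72 (chk_node (chk_node e nS4_73 e) nS4_74 (chk_node e nS4_75
  e))))))

end Pool.Agent.Helper524_FM.DP
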