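import Pool.Agent.Helper524_FM.TabS4
import Pool.Agent.Helper524_FM.ChkS4_0

/-!
# Verification of a part of certificate table S4
-/

namespace Pool.Agent.Helper524_FM.DP

theorem nS4_77 : chk1 PS4 1050760945616193528366467539 (tot PS4 TS4 (dec PS4.S 3534011101121)) = true := by decide +kernel
theorem nS4_78 : chk1 PS4 2597290977147206558267674067 (tot PS4 TS4 (dec PS4.S 3534011101122)) = true := by decide +kernel
theorem nS4_79 : chk1 PS4 1205962589986860693470602236 (tot PS4 TS4 (dec PS4.S 3534011101221)) = true := by decide +kernel
theorem nS4_80 : chk1 PS4 3957287864646261929014930018 (tot PS4 TS4 (dec PS4.S 3534011101222)) = true := by decide +kernel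
theorem nS4_81 : chk1 PS4 348255491071752266254313592 (tot PS4 TS4 (dec PS4.S 3534011301101)) = true := by decide +kernel
theorem nS4_82 : chk1 PS4 710274835766662177351998760 (tot PS4 TS4 (dec PS4.S 3534011301102)) = true := by decide +kernel
theorem nS4_83 : chk1 PS4 395347409254274284774048042 (tot PS4 TS4 (dec PS4.S 3534011301121)) = true := by decide +kernel
theorem nS4_84 : chk1 PS4 1329243951518892703039333125 (tot PS4 TS4 (dec PS4.S 3534011301122)) = true := by decide +kernel
theorem nS4_85 : chk1 PS4 372830132846283688660090130 (tot PS4 TS4 (dec PS4.S 3534011301201)) = true := by decide +kernel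
theorem nS4_86 : chk1 PS4 772588213948814148354905398 (tot PS4 TS4 (dec PS4.S 3534011301202)) = true := by decide +kernel
theorem nS4_87 : chk1 PS4 550549035178197376168631123 (tot PS4 TS4 (dec PS4.S 3534011301221)) = true := by decide +kernel
theorem nS4_88 : chk1 PS4 2689240839017948073786589074 (tot PS4 TS4 (dec PS4.S 3534011301222)) = true := by decide +kernel
theorem nS4_89 : chk1 PS4 838856979888739068833653434 (tot PS4 TS4 (dec PS4.S 3534012201121)) = true := by decide +kernel
theorem nS4_90 : chk1 PS4 1925385221479907658600256302 (tot PS4 TS4 (dec PS4.S 3534012201122)) = true := by decide +kernel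
theorem nS4_91 : chk1 PS4 838856979888739068833653434 (tot PS4 TS4 (dec PS4.S 3534012201221)) = true := by decide +kernel
theorem nS4_92 : chk1 PS4 1925385221479907658600256302 (tot PS4 TS4 (dec PS4.S 3534012201222)) = true := by decide +kernel
theorem nS4_93 : chk1 PS4 1690633524371126170044321212 (tot PS4 TS4 (dec PS4.S 3543011011122)) = true := by decide +kernel
theorem nS4_94 : chk1 PS4 2384007121176062329442879786 (tot PS4 TS4 (dec PS4.S 3543011011222)) = true := by decide +kernel
theorem nS4_95 : chk1 PS4 144264311554947740015871432 (tot PS4 TS4 (dec PS4.S 3543011041100)) = true := by decide +kernel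
theorem nS4_96 : chk1 PS4 315329989808308456122781574 (tot PS4 TS4 (dec PS4.S 3543011041102)) = true := by decide +kernel
theorem nS4_97 : chk1 PS4 153830848371805734612662197 (tot PS4 TS4 (dec PS4.S 3543011041120)) = true := by decide +kernel
theorem nS4_98 : chk1 PS4 607347095136727223171688957 (tot PS4 TS4 (dec PS4.S 3543011041122)) = true := by decide +kernel
theorem nS4_99 : chk1 PS4 154283881959511967490817684 (tot PS4 TS4 (dec PS4.S 3543011041200)) = true := by decide +kernel
theorem nS4_100 : chk1 PS4 352946313622255868135279485 (tot PS4 TS4 (dec PS4.S 3543011041202)) = true := by decide +kernel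
theorem nS4_101 : chk1 PS4 191447172185753146625160107 (tot PS4 TS4 (dec PS4.S 3543011041220)) = true := by decide +kernel
theorem nS4_102 : chk1 PS4 1300720691941663382570247529 (tot PS4 TS4 (dec PS4.S 3543011041222)) = true := by decide +kernel
theorem nS4_103 : chk1 PS4 1391468840669723089322177594 (tot PS4 TS4 (dec PS4.S 3543012021122)) = true := by decide +kernel
theorem nS4_104 : chk1 PS4 1391468840669723089322177594 (tot PS4 TS4 (dec PS4.S 3543012021222)) = true := by decide +kernel
theorem nS4_105 : chk1 PS4 1232899152872589886862058995 (tot PS4 TS4 (dec PS4.S 3544011000100)) = true := by decide +kernel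
theorem nS4_106 : chk1 PS4 1474810012909633978689254670 (tot PS4 TS4 (dec PS4.S 3544011000120)) = true := by decide +kernel
theorem nS4_107 : chk1 PS4 4403207649967909455646477546 (tot PS4 TS4 (dec PS4.S 3544011000122)) = true := by decide +kernel
theorem nS4_108 : chk1 PS4 1804818279891577935837681496 (tot PS4 TS4 (dec PS4.S 3544011000200)) = true := by decide +kernel
theorem nS4_109 : chk1 PS4 2674968666915095288515115058 (tot PS4 TS4 (dec PS4.S 3544011000220)) = true := by decide +kernel
theorem nS4_110 : chk1 PS4 9655567499925815649453043287 (tot PS4 TS4 (dec PS4.S 3544011000222)) = true := by decide +kernel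
theorem nS4_111 : chk1 PS4 96400581600381713857350989 (tot PS4 TS4 (dec PS4.S 3544111001211)) = true := by decide +kernel
theorem nS4_112 : chk1 PS4 347729814205883765164908069 (tot PS4 TS4 (dec PS4.S 3544111001212)) = true := by decide +kernel
theorem nS4_113 : chk1 PS4 96400581600381713857350989 (tot PS4 TS4 (dec PS4.S 3544111001221)) = true := by decide +kernel
theorem nS4_114 : chk1 PS4 1772344115115385577346384770 (tot PS4 TS4 (dec PS4.S 3544111001222)) = true := by decide +kernel
theorem nS4_115 : chk1 PS4 2615967770566259341698795994 (tot PS4 TS4 (dec PS4.S 3545111010211)) = true := by decide +kernel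
theorem nS4_116 : chk1 PS4 3038116214477553275795141852 (tot PS4 TS4 (dec PS4.S 3545111010212)) = true := by decide +kernel
theorem nS4_117 : chk1 PS4 4147853061104362874540844844 (tot PS4 TS4 (dec PS4.S 3545111010221)) = true := by decide +kernel
theorem nS4_118 : chk1 PS4 7847044597315402771818527220 (tot PS4 TS4 (dec PS4.S 3545111010222)) = true := by decide +kernel
theorem nS4_119 : chk1 PS4 831500658159816657874625667 (tot PS4 TS4 (dec PS4.S 3545111040211)) = true := by decide +kernel
theorem nS4_120 : chk1 PS4 831500658159816657874625667 (tot PS4 TS4 (dec PS4.S 3545111040212)) = true := by decide +kernel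
theorem nS4_121 : chk1 PS4 831500658159816657874625667 (tot PS4 TS4 (dec PS4.S 3545111040221)) = true := by decide +kernel
theorem nS4_122 : chk1 PS4 831500658159816657874625667 (tot PS4 TS4 (dec PS4.S 3545111040222)) = true := by decide +kernel
theorem nS4_123 : chk1 PS4 1652241551862367418802180837 (tot PS4 TS4 (dec PS4.S 3554111100210)) = true := by decide +kernel
theorem nS4_124 : chk1 PS4 3988897209166790636327677204 (tot PS4 TS4 (dec PS4.S 3554111100212)) = true := by decide +kernel
theorem nS4_125 : chk1 PS4 2272710535481743120710976454 (tot PS4 TS4 (dec PS4.S 3554111100220)) = true := by decide +kernel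
theorem nS4_126 : chk1 PS4 7420255819592134978859410061 (tot PS4 TS4 (dec PS4.S 3554111100222)) = true := by decide +kernel
theorem nS4_127 : chk1 PS4 557502221762132938586677077 (tot PS4 TS4 (dec PS4.S 3554111300210)) = true := by decide +kernel
theorem nS4_128 : chk1 PS4 1885939165121288996163317262 (tot PS4 TS4 (dec PS4.S 3554111300212)) = true := by decide +kernel
theorem nS4_129 : chk1 PS4 557502221762132938586677077 (tot PS4 TS4 (dec PS4.S 3554111300220)) = true := by decide +kernel
theorem nS4_130 : chk1 PS4 1885939165121288996163317262 (tot PS4 TS4 (dec PS4.S 3554111300222)) = true := by decide +kernel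
theorem nS4_131 : chk1 PS4 1069299277774229047905092520 (tot PS4 TS4 (dec PS4.S 3644111000200)) = true := by decide +kernel
theorem nS4_132 : chk1 PS4 1690657837179815319230387862 (tot PS4 TS4 (dec PS4.S 3644111000220)) = true := by decide +kernel
theorem nS4_133 : chk1 PS4 6033059318636859316516226523 (tot PS4 TS4 (dec PS4.S 3644111000222)) = true := by decide +kernel
theorem nS4_134 : chk1 PS4 394692752753842406497005719 (tot PS4 TS4 (dec PS4.S 4245002021022)) = true := by decide +kernel
theorem nS4_135 : chk1 PS4 1250367592321094326125347402 (tot PS4 TS4 (dec PS4.S 4245002021222)) = true := by decide +kernel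
theorem nS4_136 : chk1 PS4 330392254406582295174855513 (tot PS4 TS4 (dec PS4.S 4254002201021)) = true := by decide +kernel
theorem nS4_137 : chk1 PS4 853296648427781136809591397 (tot PS4 TS4 (dec PS4.S 4254002201022)) = true := by decide +kernel
theorem nS4_138 : chk1 PS4 777184958104541831522108749 (tot PS4 TS4 (dec PS4.S 4254002201221)) = true := by decide +kernel
theorem nS4_139 : chk1 PS4 2711610947301718615087418850 (tot PS4 TS4 (dec PS4.S 4254002201222)) = true := by decide +kernel
theorem nS4_140 : chk1 PS4 607441856061033869136680448 (tot PS4 TS4 (dec PS4.S 4335002221012)) = true := by decide +kernel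
theorem nS4_141 : chk1 PS4 835555455421402828123531257 (tot PS4 TS4 (dec PS4.S 4335002221022)) = true := by decide +kernel
theorem nS4_142 : chk1 PS4 1466506432425782508547169245 (tot PS4 TS4 (dec PS4.S 4335002221212)) = true := by decide +kernel
theorem nS4_143 : chk1 PS4 2728035337929139241140635406 (tot PS4 TS4 (dec PS4.S 4335002221222)) = true := by decide +kernel
theorem nS4_144 : chk1 PS4 204964171479716410248082910 (tot PS4 TS4 (dec PS4.S 4335002331012)) = true := by decide +kernel
theorem nS4_145 : chk1 PS4 204964171479716410248082910 (tot PS4 TS4 (dec PS4.S 4335002331022)) = true := by decide +kernel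
theorem nS4_146 : chk1 PS4 693360093788274203999069362 (tot PS4 TS4 (dec PS4.S 4335002331212)) = true := by decide +kernel
theorem nS4_147 : chk1 PS4 693360093788274203999069362 (tot PS4 TS4 (dec PS4.S 4335002331222)) = true := by decide +kernel
theorem nS4_148 : chk1 PS4 716580467846634239670386166 (tot PS4 TS4 (dec PS4.S 4344002001011)) = true := by decide +kernel
theorem nS4_149 : chk1 PS4 1407901440098256516122757399 (tot PS4 TS4 (dec PS4.S 4344002001012)) = true := by decide +kernel
theorem nS4_150 : chk1 PS4 716580467846634239670386166 (tot PS4 TS4 (dec PS4.S 4344002001021)) = true := by decide +kernel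
theorem nS4_151 : chk1 PS4 1945209051892207775659928703 (tot PS4 TS4 (dec PS4.S 4344002001022)) = true := by decide +kernel

theorem cTS4llr : chk PS4 TS4 TS4llr = true :=
  have e : chk PS4 TS4 Tr.leaf = true := rfl
  (chk_node (chk_node (chk_node (chk_node (chk_node (chk_node (chk_node e nS4_77 e) nS4_78 e)
  nS4_79 (chk_node e nS4_80 e)) nS4_81 (chk_node (chk_node (chk_node e nS4_82 e) nS4_83 e) nS4_84
  (chk_node e nS4_85 e))) nS4_86 (chk_node (chk_node (chk_node (chk_node e nS4_87 e) nS4_88 e)
  nS4_89 (chk_node e nS4_90 e)) nS4_91 (chk_node (chk_node e nS4_92 e) nS4_93 (chk_node e nS4_94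
  e)))) nS4_95 (chk_node (chk_node (chk_node (chk_node (chk_node e nS4_96 e) nS4_97 e) nS4_98
  (chk_node e nS4_99 e)) nS4_100 (chk_node (chk_node (chk_node e nS4_101 e) nS4_102 e) nS4_103
  (chk_node e nS4_104 e))) nS4_105 (chk_node (chk_node (chk_node (chk_node e nS4_106 e) nS4_107 e)
  nS4_108 (chk_node e nS4_109 e)) nS4_110 (chk_node (chk_node e nS4_111 e) nS4_112 (chk_node e
  nS4_113 e))))) nS4_114 (chk_node (chk_node (chk_node (chk_node (chk_node (chk_node e nS4_115 e)
  nS4_116 e) nS4_117 (chk_node e nS4_118 e)) nS4_119 (chk_node (chk_node (chk_node e nS4_120 e)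
  nS4_121 e) nS4_122 (chk_node e nS4_123 e))) nS4_124 (chk_node (chk_node (chk_node (chk_node e
  nS4_125 e) nS4_126 e) nS4_127 (chk_node e nS4_128 e)) nS4_129 (chk_node (chk_node e nS4_130 e)
  nS4_131 (chk_node e nS4_132 e)))) nS4_133 (chk_node (chk_node (chk_node (chk_node (chk_node e
  nS4_134 e) nS4_135 e) nS4_136 (chk_node e nS4_137 e)) nS4_138 (chk_node (chk_node (chk_node e
  nS4_139 e) nS4_140 e) nS4_141 (chk_node e nS4_142 e))) nS4_143 (chk_node (chk_node (chk_node
  (chk_node e nS4_144 e) nS4_145 e) nS4_146 (chk_node e nS4_147 e)) nS4_148 (chk_node (chk_node e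
  nS4_149 e) nS4_150 (chk_node e nS4_151 e))))))

end Pool.Agent.Helper524_FM.DP
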