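import Pool.Agent.Helper524_FM.TabS4
import Pool.Agent.Helper524_FM.ChkS4_1

/-!
# Verification of a part of certificate table S4
-/

namespace Pool.Agent.Helper524_FM.DP

theorem nS4_153 : chk1 PS4 3395548075282260505918740890 (tot PS4 TS4 (dec PS4.S 4344002001212)) = true := by decide +kernel
theorem nS4_154 : chk1 PS4 1613887044690822371663621301 (tot PS4 TS4 (dec PS4.S 4344002001221)) = true := by decide +kernel
theorem nS4_155 : chk1 PS4 6255679901887191266361817812 (tot PS4 TS4 (dec PS4.S 4344002001222)) = true := by decide +kernel
theorem nS4_156 : chk1 PS4 2029613900288896905193638968 (tot PS4 TS4 (dec PS4.S 4345002020011)) = true := by decide +kernel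
theorem nS4_157 : chk1 PS4 3062763333509550303021926346 (tot PS4 TS4 (dec PS4.S 4345002020012)) = true := by decide +kernel
theorem nS4_158 : chk1 PS4 2180106201578010464026427288 (tot PS4 TS4 (dec PS4.S 4345002020021)) = true := by decide +kernel
theorem nS4_159 : chk1 PS4 4033361111954851623571560246 (tot PS4 TS4 (dec PS4.S 4345002020022)) = true := by decide +kernel
theorem nS4_160 : chk1 PS4 4377298109558484041535043926 (tot PS4 TS4 (dec PS4.S 4345002020211)) = true := by decide +kernel
theorem nS4_161 : chk1 PS4 7104065621214181298894880601 (tot PS4 TS4 (dec PS4.S 4345002020212)) = true := by decide +kernel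
theorem nS4_162 : chk1 PS4 5888271470038355625700838058 (tot PS4 TS4 (dec PS4.S 4345002020221)) = true := by decide +kernel
theorem nS4_163 : chk1 PS4 13607863196010385857349970641 (tot PS4 TS4 (dec PS4.S 4345002020222)) = true := by decide +kernel
theorem nS4_164 : chk1 PS4 200483992299790497738935050 (tot PS4 TS4 (dec PS4.S 4345102021122)) = true := by decide +kernel
theorem nS4_165 : chk1 PS4 1126886231189815157612156179 (tot PS4 TS4 (dec PS4.S 4345102021222)) = true := by decide +kernel
theorem nS4_166 : chk1 PS4 857276773269356930796494375 (tot PS4 TS4 (dec PS4.S 4346102020122)) = true := by decide +kernel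
theorem nS4_167 : chk1 PS4 3758947347114348333760124272 (tot PS4 TS4 (dec PS4.S 4346102020222)) = true := by decide +kernel
theorem nS4_168 : chk1 PS4 754307785719673162055139050 (tot PS4 TS4 (dec PS4.S 4353002221012)) = true := by decide +kernel
theorem nS4_169 : chk1 PS4 982421385080042121041989859 (tot PS4 TS4 (dec PS4.S 4353002221022)) = true := by decide +kernel
theorem nS4_170 : chk1 PS4 2008985478240333798621937101 (tot PS4 TS4 (dec PS4.S 4353002221212)) = true := by decide +kernel
theorem nS4_171 : chk1 PS4 3270514383743690531215403262 (tot PS4 TS4 (dec PS4.S 4353002221222)) = true := by decide +kernel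
theorem nS4_172 : chk1 PS4 269340338371166878150094987 (tot PS4 TS4 (dec PS4.S 4353002241010)) = true := by decide +kernel
theorem nS4_173 : chk1 PS4 564088004544352427866182262 (tot PS4 TS4 (dec PS4.S 4353002241012)) = true := by decide +kernel
theorem nS4_174 : chk1 PS4 273469291543929360797882660 (tot PS4 TS4 (dec PS4.S 4353002241020)) = true := by decide +kernel
theorem nS4_175 : chk1 PS4 792201603904721386853033070 (tot PS4 TS4 (dec PS4.S 4353002241022)) = true := by decide +kernel
theorem nS4_176 : chk1 PS4 557813160080239386788537205 (tot PS4 TS4 (dec PS4.S 4353002241210)) = true := by decide +kernel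
theorem nS4_177 : chk1 PS4 1311519286795204438110235849 (tot PS4 TS4 (dec PS4.S 4353002241212)) = true := by decide +kernel
theorem nS4_178 : chk1 PS4 587606607114152125861194573 (tot PS4 TS4 (dec PS4.S 4353002241220)) = true := by decide +kernel
theorem nS4_179 : chk1 PS4 2573048192298561170703702009 (tot PS4 TS4 (dec PS4.S 4353002241222)) = true := by decide +kernel
theorem nS4_180 : chk1 PS4 351830082691611629456989896 (tot PS4 TS4 (dec PS4.S 4353002331012)) = true := by decide +kernel
theorem nS4_181 : chk1 PS4 351830082691611629456989896 (tot PS4 TS4 (dec PS4.S 4353002331022)) = true := by decide +kernel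
theorem nS4_182 : chk1 PS4 1235839139602825494073837217 (tot PS4 TS4 (dec PS4.S 4353002331212)) = true := by decide +kernel
theorem nS4_183 : chk1 PS4 1235839139602825494073837217 (tot PS4 TS4 (dec PS4.S 4353002331222)) = true := by decide +kernel
theorem nS4_184 : chk1 PS4 1138320537737624391708904843 (tot PS4 TS4 (dec PS4.S 4354002200010)) = true := by decide +kernel
theorem nS4_185 : chk1 PS4 2298768000331895611711648919 (tot PS4 TS4 (dec PS4.S 4354002200012)) = true := by decide +kernel
theorem nS4_186 : chk1 PS4 1181631113192708910371354768 (tot PS4 TS4 (dec PS4.S 4354002200020)) = true := by decide +kernel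
theorem nS4_187 : chk1 PS4 2850104453227623353800369629 (tot PS4 TS4 (dec PS4.S 4354002200022)) = true := by decide +kernel
theorem nS4_188 : chk1 PS4 2298768000331895611711648919 (tot PS4 TS4 (dec PS4.S 4354002200210)) = true := by decide +kernel
theorem nS4_189 : chk1 PS4 5034028909467962810501868763 (tot PS4 TS4 (dec PS4.S 4354002200212)) = true := by decide +kernel
theorem nS4_190 : chk1 PS4 2850104453227623353800369628 (tot PS4 TS4 (dec PS4.S 4354002200220)) = true := by decide +kernel
theorem nS4_191 : chk1 PS4 9169088452580933310050179178 (tot PS4 TS4 (dec PS4.S 4354002200222)) = true := by decide +kernel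
theorem nS4_192 : chk1 PS4 75428810304374651396731946 (tot PS4 TS4 (dec PS4.S 4354102201121)) = true := by decide +kernel
theorem nS4_193 : chk1 PS4 326758042909876702704289026 (tot PS4 TS4 (dec PS4.S 4354102201122)) = true := by decide +kernel
theorem nS4_194 : chk1 PS4 326758042909876702704289026 (tot PS4 TS4 (dec PS4.S 4354102201221)) = true := by decide +kernel
theorem nS4_195 : chk1 PS4 2002701576424880566193322808 (tot PS4 TS4 (dec PS4.S 4354102201222)) = true := by decide +kernel
theorem nS4_196 : chk1 PS4 1394180327581117656311958018 (tot PS4 TS4 (dec PS4.S 4355102220121)) = true := by decide +kernel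
theorem nS4_197 : chk1 PS4 1816328771492411590408303876 (tot PS4 TS4 (dec PS4.S 4355102220122)) = true := by decide +kernel
theorem nS4_198 : chk1 PS4 4310278173753133594414472343 (tot PS4 TS4 (dec PS4.S 4355102220221)) = true := by decide +kernel
theorem nS4_199 : chk1 PS4 8009469709964173491692154719 (tot PS4 TS4 (dec PS4.S 4355102220222)) = true := by decide +kernel
theorem nS4_200 : chk1 PS4 817801534161613659847265071 (tot PS4 TS4 (dec PS4.S 4355102240121)) = true := by decide +kernel
theorem nS4_201 : chk1 PS4 817801534161613659847265071 (tot PS4 TS4 (dec PS4.S 4355102240122)) = true := by decide +kernel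
theorem nS4_202 : chk1 PS4 2482694545639261816409232411 (tot PS4 TS4 (dec PS4.S 4355102240221)) = true := by decide +kernel
theorem nS4_203 : chk1 PS4 2482694545639261816409232411 (tot PS4 TS4 (dec PS4.S 4355102240222)) = true := by decide +kernel
theorem nS4_204 : chk1 PS4 898666655284742737232332758 (tot PS4 TS4 (dec PS4.S 4364102200120)) = true := by decide +kernel
theorem nS4_205 : chk1 PS4 2113942784993490498800253426 (tot PS4 TS4 (dec PS4.S 4364102200122)) = true := by decide +kernel
theorem nS4_206 : chk1 PS4 2320966609236012875323960557 (tot PS4 TS4 (dec PS4.S 4364102200220)) = true := by decide +kernel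
theorem nS4_207 : chk1 PS4 7375581476347681113046278965 (tot PS4 TS4 (dec PS4.S 4364102200222)) = true := by decide +kernel
theorem nS4_208 : chk1 PS4 393124853294553389447219423 (tot PS4 TS4 (dec PS4.S 4425000331002)) = true := by decide +kernel
theorem nS4_209 : chk1 PS4 621565494980605145074438582 (tot PS4 TS4 (dec PS4.S 4425000331022)) = true := by decide +kernel
theorem nS4_210 : chk1 PS4 2218036636550045002292844733 (tot PS4 TS4 (dec PS4.S 4425000331222)) = true := by decide +kernel
theorem nS4_211 : chk1 PS4 566316242101248025733976565 (tot PS4 TS4 (dec PS4.S 4434000301001)) = true := by decide +kernel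
theorem nS4_212 : chk1 PS4 949422631795881610279655750 (tot PS4 TS4 (dec PS4.S 4434000301002)) = true := by decide +kernel
theorem nS4_213 : chk1 PS4 715378348875582809320242091 (tot PS4 TS4 (dec PS4.S 4434000301021)) = true := by decide +kernel
theorem nS4_214 : chk1 PS4 1515685525913268467991958643 (tot PS4 TS4 (dec PS4.S 4434000301022)) = true := by decide +kernel
theorem nS4_215 : chk1 PS4 2142344111592392599140480827 (tot PS4 TS4 (dec PS4.S 4434000301221)) = true := by decide +kernel
theorem nS4_216 : chk1 PS4 5394658458017615370285960545 (tot PS4 TS4 (dec PS4.S 4434000301222)) = true := by decide +kernel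
theorem nS4_217 : chk1 PS4 1232899152872589886862058994 (tot PS4 TS4 (dec PS4.S 4435000330001)) = true := by decide +kernel
theorem nS4_218 : chk1 PS4 1804818279891577935837681495 (tot PS4 TS4 (dec PS4.S 4435000330002)) = true := by decide +kernel
theorem nS4_219 : chk1 PS4 1474810012909633978689254669 (tot PS4 TS4 (dec PS4.S 4435000330021)) = true := by decide +kernel
theorem nS4_220 : chk1 PS4 2674968666915095288515115058 (tot PS4 TS4 (dec PS4.S 4435000330022)) = true := by decide +kernel
theorem nS4_221 : chk1 PS4 4403207649967909455646477546 (tot PS4 TS4 (dec PS4.S 4435000330221)) = true := by decide +kernel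
theorem nS4_222 : chk1 PS4 9655567499925815649453043287 (tot PS4 TS4 (dec PS4.S 4435000330222)) = true := by decide +kernel
theorem nS4_223 : chk1 PS4 96400581600381713857350989 (tot PS4 TS4 (dec PS4.S 4435100331112)) = true := by decide +kernel
theorem nS4_224 : chk1 PS4 96400581600381713857350989 (tot PS4 TS4 (dec PS4.S 4435100331122)) = true := by decide +kernel
theorem nS4_225 : chk1 PS4 347729814205883765164908069 (tot PS4 TS4 (dec PS4.S 4435100331212)) = true := by decide +kernel
theorem nS4_226 : chk1 PS4 1772344115115385577346384770 (tot PS4 TS4 (dec PS4.S 4435100331222)) = true := by decide +kernel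
theorem nS4_227 : chk1 PS4 1235788097461973539742566124 (tot PS4 TS4 (dec PS4.S 4436100330112)) = true := by decide +kernel

theorem cTS4lrl : chk PS4 TS4 TS4lrl = true :=
  have e : chk PS4 TS4 Tr.leaf = true := rfl
  (chk_node (chk_node (chk_node (chk_node (chk_node (chk_node (chk_node e nS4_153 e) nS4_154 e)
  nS4_155 (chk_node e nS4_156 e)) nS4_157 (chk_node (chk_node (chk_node e nS4_158 e) nS4_159 e)
  nS4_160 (chk_node e nS4_161 e))) nS4_162 (chk_node (chk_node (chk_node (chk_node e nS4_163 e)
  nS4_164 e) nS4_165 (chk_node e nS4_166 e)) nS4_167 (chk_node (chk_node e nS4_168 e) nS4_169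
  (chk_node e nS4_170 e)))) nS4_171 (chk_node (chk_node (chk_node (chk_node (chk_node e nS4_172 e)
  nS4_173 e) nS4_174 (chk_node e nS4_175 e)) nS4_176 (chk_node (chk_node (chk_node e nS4_177 e)
  nS4_178 e) nS4_179 (chk_node e nS4_180 e))) nS4_181 (chk_node (chk_node (chk_node (chk_node e
  nS4_182 e) nS4_183 e) nS4_184 (chk_node e nS4_185 e)) nS4_186 (chk_node (chk_node e nS4_187 e)
  nS4_188 (chk_node e nS4_189 e))))) nS4_190 (chk_node (chk_node (chk_node (chk_node (chk_node
  (chk_node e nS4_191 e) nS4_192 e) nS4_193 (chk_node e nS4_194 e)) nS4_195 (chk_node (chk_node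
  (chk_node e nS4_196 e) nS4_197 e) nS4_198 (chk_node e nS4_199 e))) nS4_200 (chk_node (chk_node
  (chk_node (chk_node e nS4_201 e) nS4_202 e) nS4_203 (chk_node e nS4_204 e)) nS4_205 (chk_node
  (chk_node e nS4_206 e) nS4_207 (chk_node e nS4_208 e)))) nS4_209 (chk_node (chk_node (chk_node
  (chk_node (chk_node e nS4_210 e) nS4_211 e) nS4_212 (chk_node e nS4_213 e)) nS4_214 (chk_node
  (chk_node (chk_node e nS4_215 e) nS4_216 e) nS4_217 (chk_node e nS4_218 e))) nS4_219 (chk_node
  (chk_node (chk_node (chk_node e nS4_220 e) nS4_221 e) nS4_222 (chk_node e nS4_223 e)) nS4_224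
  (chk_node (chk_node e nS4_225 e) nS4_226 (chk_node e nS4_227 e))))))

end Pool.Agent.Helper524_FM.DP
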