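import Pool.Agent.Helper524_FM.TabS4
import Pool.Agent.Helper524_FM.ChkS4_2

/-!
# Verification of a part of certificate table S4
-/

namespace Pool.Agent.Helper524_FM.DP

theorem nS4_229 : chk1 PS4 2814606830204261852344186594 (tot PS4 TS4 (dec PS4.S 4436100330212)) = true := by decide +kernel
theorem nS4_230 : chk1 PS4 7311519365274085550285872099 (tot PS4 TS4 (dec PS4.S 4436100330222)) = true := by decide +kernel
theorem nS4_231 : chk1 PS4 322073197104452982715426882 (tot PS4 TS4 (dec PS4.S 4443000041000)) = true := by decide +kernel
theorem nS4_232 : chk1 PS4 605503398406792174614237593 (tot PS4 TS4 (dec PS4.S 4443000041002)) = true := by decide +kernel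
theorem nS4_233 : chk1 PS4 984994742771812750911088379 (tot PS4 TS4 (dec PS4.S 4443000041022)) = true := by decide +kernel
theorem nS4_234 : chk1 PS4 3664960558869499662131444722 (tot PS4 TS4 (dec PS4.S 4443000041222)) = true := by decide +kernel
theorem nS4_235 : chk1 PS4 1113618761002936963073286122 (tot PS4 TS4 (dec PS4.S 4444000000000)) = true := by decide +kernel
theorem nS4_236 : chk1 PS4 2783972266980820178840808333 (tot PS4 TS4 (dec PS4.S 4445100040111)) = true := by decide +kernel
theorem nS4_237 : chk1 PS4 2783972266980820178840808333 (tot PS4 TS4 (dec PS4.S 4445100040112)) = true := by decide +kernel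
theorem nS4_238 : chk1 PS4 2783972266980820178840808333 (tot PS4 TS4 (dec PS4.S 4445100040121)) = true := by decide +kernel
theorem nS4_239 : chk1 PS4 2783972266980820178840808333 (tot PS4 TS4 (dec PS4.S 4445100040122)) = true := by decide +kernel
theorem nS4_240 : chk1 PS4 5835306606604854476102805614 (tot PS4 TS4 (dec PS4.S 4445100040211)) = true := by decide +kernel
theorem nS4_241 : chk1 PS4 5835306606604854476102805614 (tot PS4 TS4 (dec PS4.S 4445100040212)) = true := by decide +kernel
theorem nS4_242 : chk1 PS4 9430250316286556616225971296 (tot PS4 TS4 (dec PS4.S 4445100040221)) = true := by decide +kernel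
theorem nS4_243 : chk1 PS4 16431433170032854664945128610 (tot PS4 TS4 (dec PS4.S 4445100040222)) = true := by decide +kernel
theorem nS4_244 : chk1 PS4 244385859689413702367175232 (tot PS4 TS4 (dec PS4.S 4452000331001)) = true := by decide +kernel
theorem nS4_245 : chk1 PS4 244384513077096321569907258 (tot PS4 TS4 (dec PS4.S 4452000331002)) = true := by decide +kernel
theorem nS4_246 : chk1 PS4 391360477564135291964023188 (tot PS4 TS4 (dec PS4.S 4452000331021)) = true := by decide +kernel
theorem nS4_247 : chk1 PS4 391360477564135291964023188 (tot PS4 TS4 (dec PS4.S 4452000331022)) = true := by decide +kernel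
theorem nS4_248 : chk1 PS4 1450765881047918369283718348 (tot PS4 TS4 (dec PS4.S 4452000331221)) = true := by decide +kernel
theorem nS4_249 : chk1 PS4 1450765881047918369283718348 (tot PS4 TS4 (dec PS4.S 4452000331222)) = true := by decide +kernel
theorem nS4_250 : chk1 PS4 719580406495109402921187885 (tot PS4 TS4 (dec PS4.S 4453000330001)) = true := by decide +kernel
theorem nS4_251 : chk1 PS4 719436060722732625679792109 (tot PS4 TS4 (dec PS4.S 4453000330002)) = true := by decide +kernel
theorem nS4_252 : chk1 PS4 972165401203429231952979961 (tot PS4 TS4 (dec PS4.S 4453000330021)) = true := by decide +kernel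
theorem nS4_253 : chk1 PS4 968175794735399551258110265 (tot PS4 TS4 (dec PS4.S 4453000330022)) = true := by decide +kernel
theorem nS4_254 : chk1 PS4 3348312696771077248219177094 (tot PS4 TS4 (dec PS4.S 4453000330221)) = true := by decide +kernel
theorem nS4_255 : chk1 PS4 3348312696771077248219177094 (tot PS4 TS4 (dec PS4.S 4453000330222)) = true := by decide +kernel
theorem nS4_256 : chk1 PS4 96400581600381713857350989 (tot PS4 TS4 (dec PS4.S 4453100331112)) = true := by decide +kernel
theorem nS4_257 : chk1 PS4 96400581600381713857350989 (tot PS4 TS4 (dec PS4.S 4453100331122)) = true := by decide +kernel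
theorem nS4_258 : chk1 PS4 347729814205883765164908069 (tot PS4 TS4 (dec PS4.S 4453100331212)) = true := by decide +kernel
theorem nS4_259 : chk1 PS4 1772344115115385577346384770 (tot PS4 TS4 (dec PS4.S 4453100331222)) = true := by decide +kernel
theorem nS4_260 : chk1 PS4 19821432335570534821690213 (tot PS4 TS4 (dec PS4.S 4453100341110)) = true := by decide +kernel
theorem nS4_261 : chk1 PS4 96400581600381713857350989 (tot PS4 TS4 (dec PS4.S 4453100341112)) = true := by decide +kernel
theorem nS4_262 : chk1 PS4 19821432335570534821690213 (tot PS4 TS4 (dec PS4.S 4453100341120)) = true := by decide +kernel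
theorem nS4_263 : chk1 PS4 96400581600381713857350989 (tot PS4 TS4 (dec PS4.S 4453100341122)) = true := by decide +kernel
theorem nS4_264 : chk1 PS4 60996686483658730627469832 (tot PS4 TS4 (dec PS4.S 4453100341210)) = true := by decide +kernel
theorem nS4_265 : chk1 PS4 347729814205883765164908069 (tot PS4 TS4 (dec PS4.S 4453100341212)) = true := by decide +kernel
theorem nS4_266 : chk1 PS4 121233477791945069985993106 (tot PS4 TS4 (dec PS4.S 4453100341220)) = true := by decide +kernel
theorem nS4_267 : chk1 PS4 1772344115115385577346384770 (tot PS4 TS4 (dec PS4.S 4453100341222)) = true := by decide +kernel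
theorem nS4_268 : chk1 PS4 1949098566326893508324893549 (tot PS4 TS4 (dec PS4.S 4454100300110)) = true := by decide +kernel
theorem nS4_269 : chk1 PS4 4389772443537169020172380084 (tot PS4 TS4 (dec PS4.S 4454100300112)) = true := by decide +kernel
theorem nS4_270 : chk1 PS4 1949098566326893508324893549 (tot PS4 TS4 (dec PS4.S 4454100300120)) = true := by decide +kernel
theorem nS4_271 : chk1 PS4 4389772443537169020172380084 (tot PS4 TS4 (dec PS4.S 4454100300122)) = true := by decide +kernel
theorem nS4_272 : chk1 PS4 3829491588715213211823881365 (tot PS4 TS4 (dec PS4.S 4454100300210)) = true := by decide +kernel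
theorem nS4_273 : chk1 PS4 9235890476998541026229970013 (tot PS4 TS4 (dec PS4.S 4454100300212)) = true := by decide +kernel
theorem nS4_274 : chk1 PS4 5290968313455114000319685121 (tot PS4 TS4 (dec PS4.S 4454100300220)) = true := by decide +kernel
theorem nS4_275 : chk1 PS4 17015449044626082931686757176 (tot PS4 TS4 (dec PS4.S 4454100300222)) = true := by decide +kernel
theorem nS4_276 : chk1 PS4 1790943598230025444010477512 (tot PS4 TS4 (dec PS4.S 4463100330111)) = true := by decide +kernel
theorem nS4_277 : chk1 PS4 1790943598230025444010477512 (tot PS4 TS4 (dec PS4.S 4463100330112)) = true := by decide +kernel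
theorem nS4_278 : chk1 PS4 1790943598230025444010477512 (tot PS4 TS4 (dec PS4.S 4463100330121)) = true := by decide +kernel
theorem nS4_279 : chk1 PS4 1790943598230025444010477512 (tot PS4 TS4 (dec PS4.S 4463100330122)) = true := by decide +kernel
theorem nS4_280 : chk1 PS4 3759928750792557829299629450 (tot PS4 TS4 (dec PS4.S 4463100330211)) = true := by decide +kernel
theorem nS4_281 : chk1 PS4 3759928750792557829299629450 (tot PS4 TS4 (dec PS4.S 4463100330212)) = true := by decide +kernel
theorem nS4_282 : chk1 PS4 6804552220262808812836270713 (tot PS4 TS4 (dec PS4.S 4463100330221)) = true := by decide +kernel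
theorem nS4_283 : chk1 PS4 6804552220262808812836270713 (tot PS4 TS4 (dec PS4.S 4463100330222)) = true := by decide +kernel
theorem nS4_284 : chk1 PS4 317269203779057172736020215 (tot PS4 TS4 (dec PS4.S 4524002201011)) = true := by decide +kernel
theorem nS4_285 : chk1 PS4 649498606321428349575981387 (tot PS4 TS4 (dec PS4.S 4524002201012)) = true := by decide +kernel
theorem nS4_286 : chk1 PS4 317272745553919324969930502 (tot PS4 TS4 (dec PS4.S 4524002201021)) = true := by decide +kernel
theorem nS4_287 : chk1 PS4 649502166543034575519443289 (tot PS4 TS4 (dec PS4.S 4524002201022)) = true := by decide +kernel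
theorem nS4_288 : chk1 PS4 895311377005175706890149578 (tot PS4 TS4 (dec PS4.S 4524002201211)) = true := by decide +kernel
theorem nS4_289 : chk1 PS4 2183727574140840754660717110 (tot PS4 TS4 (dec PS4.S 4524002201212)) = true := by decide +kernel
theorem nS4_290 : chk1 PS4 896467268435578421103966080 (tot PS4 TS4 (dec PS4.S 4524002201221)) = true := by decide +kernel
theorem nS4_291 : chk1 PS4 2184883465571243468874533612 (tot PS4 TS4 (dec PS4.S 4524002201222)) = true := by decide +kernel
theorem nS4_292 : chk1 PS4 450787954869675772163890947 (tot PS4 TS4 (dec PS4.S 4533002221012)) = true := by decide +kernel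
theorem nS4_293 : chk1 PS4 450793396659177516481617689 (tot PS4 TS4 (dec PS4.S 4533002221022)) = true := by decide +kernel
theorem nS4_294 : chk1 PS4 1540113497625669825756618202 (tot PS4 TS4 (dec PS4.S 4533002221212)) = true := by decide +kernel
theorem nS4_295 : chk1 PS4 1542962228312972791812692898 (tot PS4 TS4 (dec PS4.S 4533002221222)) = true := by decide +kernel
theorem nS4_296 : chk1 PS4 106828212430600470322873452 (tot PS4 TS4 (dec PS4.S 4533002241010)) = true := by decide +kernel
theorem nS4_297 : chk1 PS4 260568173694355037974934159 (tot PS4 TS4 (dec PS4.S 4533002241012)) = true := by decide +kernel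
theorem nS4_298 : chk1 PS4 106828193983856396613321837 (tot PS4 TS4 (dec PS4.S 4533002241020)) = true := by decide +kernel
theorem nS4_299 : chk1 PS4 260573615483856782292660901 (tot PS4 TS4 (dec PS4.S 4533002241022)) = true := by decide +kernel
theorem nS4_300 : chk1 PS4 269818127489420029246850279 (tot PS4 TS4 (dec PS4.S 4533002241210)) = true := by decide +kernel
theorem nS4_301 : chk1 PS4 842647306180540465244916950 (tot PS4 TS4 (dec PS4.S 4533002241212)) = true := by decide +kernel
theorem nS4_302 : chk1 PS4 267003412598188983603959515 (tot PS4 TS4 (dec PS4.S 4533002241220)) = true := by decide +kernel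
theorem nS4_303 : chk1 PS4 845496055314587505010543262 (tot PS4 TS4 (dec PS4.S 4533002241222)) = true := by decide +kernel

theorem cTS4lrr : chk PS4 TS4 TS4lrr = true :=
  have e : chk PS4 TS4 Tr.leaf = true := rfl
  (chk_node (chk_node (chk_node (chk_node (chk_node (chk_node (chk_node e nS4_229 e) nS4_230 e)
  nS4_231 (chk_node e nS4_232 e)) nS4_233 (chk_node (chk_node (chk_node e nS4_234 e) nS4_235 e)
  nS4_236 (chk_node e nS4_237 e))) nS4_238 (chk_node (chk_node (chk_node (chk_node e nS4_239 e)
  nS4_240 e) nS4_241 (chk_node e nS4_242 e)) nS4_243 (chk_node (chk_node e nS4_244 e) nS4_245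
  (chk_node e nS4_246 e)))) nS4_247 (chk_node (chk_node (chk_node (chk_node (chk_node e nS4_248 e)
  nS4_249 e) nS4_250 (chk_node e nS4_251 e)) nS4_252 (chk_node (chk_node (chk_node e nS4_253 e)
  nS4_254 e) nS4_255 (chk_node e nS4_256 e))) nS4_257 (chk_node (chk_node (chk_node (chk_node e
  nS4_258 e) nS4_259 e) nS4_260 (chk_node e nS4_261 e)) nS4_262 (chk_node (chk_node e nS4_263 e)
  nS4_264 (chk_node e nS4_265 e))))) nS4_266 (chk_node (chk_node (chk_node (chk_node (chk_node
  (chk_node e nS4_267 e) nS4_268 e) nS4_269 (chk_node e nS4_270 e)) nS4_271 (chk_node (chk_node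
  (chk_node e nS4_272 e) nS4_273 e) nS4_274 (chk_node e nS4_275 e))) nS4_276 (chk_node (chk_node
  (chk_node (chk_node e nS4_277 e) nS4_278 e) nS4_279 (chk_node e nS4_280 e)) nS4_281 (chk_node
  (chk_node e nS4_282 e) nS4_283 (chk_node e nS4_284 e)))) nS4_285 (chk_node (chk_node (chk_node
  (chk_node (chk_node e nS4_286 e) nS4_287 e) nS4_288 (chk_node e nS4_289 e)) nS4_290 (chk_node
  (chk_node (chk_node e nS4_291 e) nS4_292 e) nS4_293 (chk_node e nS4_294 e))) nS4_295 (chk_node
  (chk_node (chk_node (chk_node e nS4_296 e) nS4_297 e) nS4_298 (chk_node e nS4_299 e)) nS4_300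
  (chk_node (chk_node e nS4_301 e) nS4_302 (chk_node e nS4_303 e))))))

end Pool.Agent.Helper524_FM.DP
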