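import Pool.Agent.Helper524_FM.TabS4
import Pool.Agent.Helper524_FM.ChkS4_3

/-!
# Verification of a part of certificate table S4
-/

namespace Pool.Agent.Helper524_FM.DP

theorem nS4_305 : chk1 PS4 1354547774639913790307641726 (tot PS4 TS4 (dec PS4.S 4534002200012)) = true := by decide +kernel
theorem nS4_306 : chk1 PS4 601136556022455133588808512 (tot PS4 TS4 (dec PS4.S 4534002200020)) = true := by decide +kernel
theorem nS4_307 : chk1 PS4 1350824096434450706508869328 (tot PS4 TS4 (dec PS4.S 4534002200022)) = true := by decide +kernel
theorem nS4_308 : chk1 PS4 1354547774639913790307641726 (tot PS4 TS4 (dec PS4.S 4534002200210)) = true := by decide +kernel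
theorem nS4_309 : chk1 PS4 3569263019579255166703015532 (tot PS4 TS4 (dec PS4.S 4534002200212)) = true := by decide +kernel
theorem nS4_310 : chk1 PS4 1350824096434450706508869328 (tot PS4 TS4 (dec PS4.S 4534002200220)) = true := by decide +kernel
theorem nS4_311 : chk1 PS4 3580025514154643972659702538 (tot PS4 TS4 (dec PS4.S 4534002200222)) = true := by decide +kernel
theorem nS4_312 : chk1 PS4 75428810304374651396731946 (tot PS4 TS4 (dec PS4.S 4534102201121)) = true := by decide +kernel
theorem nS4_313 : chk1 PS4 326758042909876702704289026 (tot PS4 TS4 (dec PS4.S 4534102201122)) = true := by decide +kernel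
theorem nS4_314 : chk1 PS4 326758042909876702704289026 (tot PS4 TS4 (dec PS4.S 4534102201221)) = true := by decide +kernel
theorem nS4_315 : chk1 PS4 2002701576424880566193322808 (tot PS4 TS4 (dec PS4.S 4534102201222)) = true := by decide +kernel
theorem nS4_316 : chk1 PS4 28338681456027782703443861 (tot PS4 TS4 (dec PS4.S 4534102301101)) = true := by decide +kernel
theorem nS4_317 : chk1 PS4 69513935604115978509223480 (tot PS4 TS4 (dec PS4.S 4534102301102)) = true := by decide +kernel
theorem nS4_318 : chk1 PS4 75428810304374651396731946 (tot PS4 TS4 (dec PS4.S 4534102301121)) = true := by decide +kernel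
theorem nS4_319 : chk1 PS4 326758042909876702704289026 (tot PS4 TS4 (dec PS4.S 4534102301122)) = true := by decide +kernel
theorem nS4_320 : chk1 PS4 69513935604115978509223480 (tot PS4 TS4 (dec PS4.S 4534102301201)) = true := by decide +kernel
theorem nS4_321 : chk1 PS4 170925981060490513673526373 (tot PS4 TS4 (dec PS4.S 4534102301202)) = true := by decide +kernel
theorem nS4_322 : chk1 PS4 326758042909876702704289026 (tot PS4 TS4 (dec PS4.S 4534102301221)) = true := by decide +kernel
theorem nS4_323 : chk1 PS4 2002701576424880566193322808 (tot PS4 TS4 (dec PS4.S 4534102301222)) = true := by decide +kernel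
theorem nS4_324 : chk1 PS4 2858069480617490032545876175 (tot PS4 TS4 (dec PS4.S 4535102220121)) = true := by decide +kernel
theorem nS4_325 : chk1 PS4 3280217924528783966642222033 (tot PS4 TS4 (dec PS4.S 4535102220122)) = true := by decide +kernel
theorem nS4_326 : chk1 PS4 7064631149410840926064370446 (tot PS4 TS4 (dec PS4.S 4535102220221)) = true := by decide +kernel
theorem nS4_327 : chk1 PS4 10763822685621880823342052823 (tot PS4 TS4 (dec PS4.S 4535102220222)) = true := by decide +kernel
theorem nS4_328 : chk1 PS4 2281690687197986036081183228 (tot PS4 TS4 (dec PS4.S 4535102240121)) = true := by decide +kernel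
theorem nS4_329 : chk1 PS4 2281690687197986036081183228 (tot PS4 TS4 (dec PS4.S 4535102240122)) = true := by decide +kernel
theorem nS4_330 : chk1 PS4 5237047521296969148059130514 (tot PS4 TS4 (dec PS4.S 4535102240221)) = true := by decide +kernel
theorem nS4_331 : chk1 PS4 5237047521296969148059130514 (tot PS4 TS4 (dec PS4.S 4535102240222)) = true := by decide +kernel
theorem nS4_332 : chk1 PS4 947254659751874821516840797 (tot PS4 TS4 (dec PS4.S 4535102330101)) = true := by decide +kernel
theorem nS4_333 : chk1 PS4 1014097654388070246628506266 (tot PS4 TS4 (dec PS4.S 4535102330102)) = true := by decide +kernel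
theorem nS4_334 : chk1 PS4 1075344644742065142161707656 (tot PS4 TS4 (dec PS4.S 4535102330121)) = true := by decide +kernel
theorem nS4_335 : chk1 PS4 1497493088653359076258053513 (tot PS4 TS4 (dec PS4.S 4535102330122)) = true := by decide +kernel
theorem nS4_336 : chk1 PS4 1931947263302504283683285226 (tot PS4 TS4 (dec PS4.S 4535102330201)) = true := by decide +kernel
theorem nS4_337 : chk1 PS4 2101439655647306459553101605 (tot PS4 TS4 (dec PS4.S 4535102330202)) = true := by decide +kernel
theorem nS4_338 : chk1 PS4 3615543244129045817533575469 (tot PS4 TS4 (dec PS4.S 4535102330221)) = true := by decide +kernel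
theorem nS4_339 : chk1 PS4 7314734780340085714811257844 (tot PS4 TS4 (dec PS4.S 4535102330222)) = true := by decide +kernel
theorem nS4_340 : chk1 PS4 187551847026684195448362972 (tot PS4 TS4 (dec PS4.S 4542002021011)) = true := by decide +kernel
theorem nS4_341 : chk1 PS4 187548415932286485471762382 (tot PS4 TS4 (dec PS4.S 4542002021012)) = true := by decide +kernel
theorem nS4_342 : chk1 PS4 187554115976205261723211749 (tot PS4 TS4 (dec PS4.S 4542002021021)) = true := by decide +kernel
theorem nS4_343 : chk1 PS4 187554115976205261723211749 (tot PS4 TS4 (dec PS4.S 4542002021022)) = true := by decide +kernel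
theorem nS4_344 : chk1 PS4 633858239210628526886952029 (tot PS4 TS4 (dec PS4.S 4542002021211)) = true := by decide +kernel
theorem nS4_345 : chk1 PS4 627106122137096398580254413 (tot PS4 TS4 (dec PS4.S 4542002021212)) = true := by decide +kernel
theorem nS4_346 : chk1 PS4 634003968488810832344719114 (tot PS4 TS4 (dec PS4.S 4542002021221)) = true := by decide +kernel
theorem nS4_347 : chk1 PS4 634003968488810832344719114 (tot PS4 TS4 (dec PS4.S 4542002021222)) = true := by decide +kernel
theorem nS4_348 : chk1 PS4 852170566935801537230459810 (tot PS4 TS4 (dec PS4.S 4543002020011)) = true := by decide +kernel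
theorem nS4_349 : chk1 PS4 851637861860440952798890964 (tot PS4 TS4 (dec PS4.S 4543002020012)) = true := by decide +kernel
theorem nS4_350 : chk1 PS4 851951069128068467275780277 (tot PS4 TS4 (dec PS4.S 4543002020021)) = true := by decide +kernel
theorem nS4_351 : chk1 PS4 842915761647045160346468219 (tot PS4 TS4 (dec PS4.S 4543002020022)) = true := by decide +kernel
theorem nS4_352 : chk1 PS4 2279672963884459611618272830 (tot PS4 TS4 (dec PS4.S 4543002020211)) = true := by decide +kernel
theorem nS4_353 : chk1 PS4 2260601557716182033455797755 (tot PS4 TS4 (dec PS4.S 4543002020212)) = true := by decide +kernel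
theorem nS4_354 : chk1 PS4 2281419686080799169060799443 (tot PS4 TS4 (dec PS4.S 4543002020221)) = true := by decide +kernel
theorem nS4_355 : chk1 PS4 2281419686080799169060799443 (tot PS4 TS4 (dec PS4.S 4543002020222)) = true := by decide +kernel
theorem nS4_356 : chk1 PS4 200483992299790497738935050 (tot PS4 TS4 (dec PS4.S 4543102021122)) = true := by decide +kernel
theorem nS4_357 : chk1 PS4 1126886231189815157612156179 (tot PS4 TS4 (dec PS4.S 4543102021222)) = true := by decide +kernel
theorem nS4_358 : chk1 PS4 12720007716258642445561076 (tot PS4 TS4 (dec PS4.S 4543102041100)) = true := by decide +kernel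
theorem nS4_359 : chk1 PS4 40259373304828516567964944 (tot PS4 TS4 (dec PS4.S 4543102041102)) = true := by decide +kernel
theorem nS4_360 : chk1 PS4 23779236616817140249580190 (tot PS4 TS4 (dec PS4.S 4543102041120)) = true := by decide +kernel
theorem nS4_361 : chk1 PS4 200483992299790497738935050 (tot PS4 TS4 (dec PS4.S 4543102041122)) = true := by decide +kernel
theorem nS4_362 : chk1 PS4 29376716638543566592013580 (tot PS4 TS4 (dec PS4.S 4543102041200)) = true := by decide +kernel
theorem nS4_363 : chk1 PS4 102478802219413084824437812 (tot PS4 TS4 (dec PS4.S 4543102041202)) = true := by decide +kernel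
theorem nS4_364 : chk1 PS4 85998665531401708506053057 (tot PS4 TS4 (dec PS4.S 4543102041220)) = true := by decide +kernel
theorem nS4_365 : chk1 PS4 1126886231189815157612156179 (tot PS4 TS4 (dec PS4.S 4543102041222)) = true := by decide +kernel
theorem nS4_366 : chk1 PS4 1540379868610094191675949111 (tot PS4 TS4 (dec PS4.S 4544102000100)) = true := by decide +kernel
theorem nS4_367 : chk1 PS4 1945828807152852195462794054 (tot PS4 TS4 (dec PS4.S 4544102000120)) = true := by decide +kernel
theorem nS4_368 : chk1 PS4 5827175669198788853651348318 (tot PS4 TS4 (dec PS4.S 4544102000122)) = true := by decide +kernel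
theorem nS4_369 : chk1 PS4 2582429247103758015743432367 (tot PS4 TS4 (dec PS4.S 4544102000200)) = true := by decide +kernel
theorem nS4_370 : chk1 PS4 4122664345666361734862650563 (tot PS4 TS4 (dec PS4.S 4544102000220)) = true := by decide +kernel
theorem nS4_371 : chk1 PS4 14673470689999655265270289016 (tot PS4 TS4 (dec PS4.S 4544102000222)) = true := by decide +kernel
theorem nS4_372 : chk1 PS4 2460313037267653722588771571 (tot PS4 TS4 (dec PS4.S 4553102220121)) = true := by decide +kernel
theorem nS4_373 : chk1 PS4 2460313037267653722588771571 (tot PS4 TS4 (dec PS4.S 4553102220122)) = true := by decide +kernel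
theorem nS4_374 : chk1 PS4 6076327964642664293366914713 (tot PS4 TS4 (dec PS4.S 4553102220221)) = true := by decide +kernel
theorem nS4_375 : chk1 PS4 6076327964642664293366914713 (tot PS4 TS4 (dec PS4.S 4553102220222)) = true := by decide +kernel
theorem nS4_376 : chk1 PS4 539922437766399588477266665 (tot PS4 TS4 (dec PS4.S 4553102330101)) = true := by decide +kernel
theorem nS4_377 : chk1 PS4 536402282488301742161470038 (tot PS4 TS4 (dec PS4.S 4553102330102)) = true := by decide +kernel
theorem nS4_378 : chk1 PS4 677588201392228832204603052 (tot PS4 TS4 (dec PS4.S 4553102330121)) = true := by decide +kernel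
theorem nS4_379 : chk1 PS4 677588201392228832204603052 (tot PS4 TS4 (dec PS4.S 4553102330122)) = true := by decide +kernel

theorem cTS4rll : chk PS4 TS4 TS4rll = true :=
  have e : chk PS4 TS4 Tr.leaf = true := rfl
  (chk_node (chk_node (chk_node (chk_node (chk_node (chk_node (chk_node e nS4_305 e) nS4_306 e)
  nS4_307 (chk_node e nS4_308 e)) nS4_309 (chk_node (chk_node (chk_node e nS4_310 e) nS4_311 e)
  nS4_312 (chk_node e nS4_313 e))) nS4_314 (chk_node (chk_node (chk_node (chk_node e nS4_315 e)
  nS4_316 e) nS4_317 (chk_node e nS4_318 e)) nS4_319 (chk_node (chk_node e nS4_320 e) nS4_321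
  (chk_node e nS4_322 e)))) nS4_323 (chk_node (chk_node (chk_node (chk_node (chk_node e nS4_324 e)
  nS4_325 e) nS4_326 (chk_node e nS4_327 e)) nS4_328 (chk_node (chk_node (chk_node e nS4_329 e)
  nS4_330 e) nS4_331 (chk_node e nS4_332 e))) nS4_333 (chk_node (chk_node (chk_node (chk_node e
  nS4_334 e) nS4_335 e) nS4_336 (chk_node e nS4_337 e)) nS4_338 (chk_node (chk_node e nS4_339 e)
  nS4_340 (chk_node e nS4_341 e))))) nS4_342 (chk_node (chk_node (chk_node (chk_node (chk_node
  (chk_node e nS4_343 e) nS4_344 e) nS4_345 (chk_node e nS4_346 e)) nS4_347 (chk_node (chk_node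
  (chk_node e nS4_348 e) nS4_349 e) nS4_350 (chk_node e nS4_351 e))) nS4_352 (chk_node (chk_node
  (chk_node (chk_node e nS4_353 e) nS4_354 e) nS4_355 (chk_node e nS4_356 e)) nS4_357 (chk_node
  (chk_node e nS4_358 e) nS4_359 (chk_node e nS4_360 e)))) nS4_361 (chk_node (chk_node (chk_node
  (chk_node (chk_node e nS4_362 e) nS4_363 e) nS4_364 (chk_node e nS4_365 e)) nS4_366 (chk_node
  (chk_node (chk_node e nS4_367 e) nS4_368 e) nS4_369 (chk_node e nS4_370 e))) nS4_371 (chk_node
  (chk_node (chk_node (chk_node e nS4_372 e) nS4_373 e) nS4_374 (chk_node e nS4_375 e)) nS4_376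
  (chk_node (chk_node e nS4_377 e) nS4_378 (chk_node e nS4_379 e))))))

end Pool.Agent.Helper524_FM.DP
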