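import Pool.Agent.Helper524_FM.TabS4
import Pool.Agent.Helper524_FM.ChkS4_4

/-!
# Verification of a part of certificate table S4
-/

namespace Pool.Agent.Helper524_FM.DP

theorem nS4_381 : chk1 PS4 2627240059360869184836119734 (tot PS4 TS4 (dec PS4.S 4553102330221)) = true := by decide +kernel
theorem nS4_382 : chk1 PS4 2627240059360869184836119734 (tot PS4 TS4 (dec PS4.S 4553102330222)) = true := by decide +kernel
theorem nS4_383 : chk1 PS4 862971910354209575502248611 (tot PS4 TS4 (dec PS4.S 4634102200110)) = true := by decide +kernel
theorem nS4_384 : chk1 PS4 2435246642189605350956178288 (tot PS4 TS4 (dec PS4.S 4634102200112)) = true := by decide +kernel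
theorem nS4_385 : chk1 PS4 862981576448104199307295434 (tot PS4 TS4 (dec PS4.S 4634102200120)) = true := by decide +kernel
theorem nS4_386 : chk1 PS4 2438390668356040259514523304 (tot PS4 TS4 (dec PS4.S 4634102200122)) = true := by decide +kernel
theorem nS4_387 : chk1 PS4 1766635917735728746235753842 (tot PS4 TS4 (dec PS4.S 4634102200210)) = true := by decide +kernel
theorem nS4_388 : chk1 PS4 5939738697660744517943739909 (tot PS4 TS4 (dec PS4.S 4634102200212)) = true := by decide +kernel
theorem nS4_389 : chk1 PS4 1766645565382879296331249049 (tot PS4 TS4 (dec PS4.S 4634102200220)) = true := by decide +kernel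
theorem nS4_390 : chk1 PS4 5942882723827179426502084924 (tot PS4 TS4 (dec PS4.S 4634102200222)) = true := by decide +kernel
theorem nS4_391 : chk1 PS4 1078886714752122555425380430 (tot PS4 TS4 (dec PS4.S 4643102020111)) = true := by decide +kernel
theorem nS4_392 : chk1 PS4 1071711540050003972261919451 (tot PS4 TS4 (dec PS4.S 4643102020112)) = true := by decide +kernel
theorem nS4_393 : chk1 PS4 1079093226052027733855722512 (tot PS4 TS4 (dec PS4.S 4643102020121)) = true := by decide +kernel
theorem nS4_394 : chk1 PS4 1079093226052027733855722512 (tot PS4 TS4 (dec PS4.S 4643102020122)) = true := by decide +kernel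
theorem nS4_395 : chk1 PS4 2561652660806794874058718197 (tot PS4 TS4 (dec PS4.S 4643102020211)) = true := by decide +kernel
theorem nS4_396 : chk1 PS4 2554477486104676290895257217 (tot PS4 TS4 (dec PS4.S 4643102020212)) = true := by decide +kernel
theorem nS4_397 : chk1 PS4 2561859172106700052489060278 (tot PS4 TS4 (dec PS4.S 4643102020221)) = true := by decide +kernel
theorem nS4_398 : chk1 PS4 2561859172106700052489060278 (tot PS4 TS4 (dec PS4.S 4643102020222)) = true := by decide +kernel
theorem nS4_399 : chk1 PS4 658435260615145457823281883 (tot PS4 TS4 (dec PS4.S 5244011001111)) = true := by decide +kernel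
theorem nS4_400 : chk1 PS4 1382326855667721520054860085 (tot PS4 TS4 (dec PS4.S 5244011001112)) = true := by decide +kernel
theorem nS4_401 : chk1 PS4 658435260615145457823281883 (tot PS4 TS4 (dec PS4.S 5244011001121)) = true := by decide +kernel
theorem nS4_402 : chk1 PS4 2501673718087170846817628814 (tot PS4 TS4 (dec PS4.S 5244011001122)) = true := by decide +kernel
theorem nS4_403 : chk1 PS4 658435260615145457823281883 (tot PS4 TS4 (dec PS4.S 5244011001211)) = true := by decide +kernel
theorem nS4_404 : chk1 PS4 1382326855667721520054860085 (tot PS4 TS4 (dec PS4.S 5244011001212)) = true := by decide +kernel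
theorem nS4_405 : chk1 PS4 658435260615145457823281883 (tot PS4 TS4 (dec PS4.S 5244011001221)) = true := by decide +kernel
theorem nS4_406 : chk1 PS4 2501673718087170846817628814 (tot PS4 TS4 (dec PS4.S 5244011001222)) = true := by decide +kernel
theorem nS4_407 : chk1 PS4 904526964516031377267400144 (tot PS4 TS4 (dec PS4.S 5334011101121)) = true := by decide +kernel
theorem nS4_408 : chk1 PS4 2233944223195496581547748882 (tot PS4 TS4 (dec PS4.S 5334011101122)) = true := by decide +kernel
theorem nS4_409 : chk1 PS4 904526964516031377267400144 (tot PS4 TS4 (dec PS4.S 5334011101221)) = true := by decide +kernel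
theorem nS4_410 : chk1 PS4 2233944223195496581547748882 (tot PS4 TS4 (dec PS4.S 5334011101222)) = true := by decide +kernel
theorem nS4_411 : chk1 PS4 198501004205354868357841320 (tot PS4 TS4 (dec PS4.S 5334011301101)) = true := by decide +kernel
theorem nS4_412 : chk1 PS4 404672754892368526983657192 (tot PS4 TS4 (dec PS4.S 5334011301102)) = true := by decide +kernel
theorem nS4_413 : chk1 PS4 249113409707368059965429031 (tot PS4 TS4 (dec PS4.S 5334011301121)) = true := by decide +kernel
theorem nS4_414 : chk1 PS4 965897197567182726319407938 (tot PS4 TS4 (dec PS4.S 5334011301122)) = true := by decide +kernel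
theorem nS4_415 : chk1 PS4 197206835981375627345110777 (tot PS4 TS4 (dec PS4.S 5334011301201)) = true := by decide +kernel
theorem nS4_416 : chk1 PS4 249113409707368059965429031 (tot PS4 TS4 (dec PS4.S 5334011301221)) = true := by decide +kernel
theorem nS4_417 : chk1 PS4 965897197567182726319407938 (tot PS4 TS4 (dec PS4.S 5334011301222)) = true := by decide +kernel
theorem nS4_418 : chk1 PS4 1550827052989031080272906127 (tot PS4 TS4 (dec PS4.S 5343011011122)) = true := by decide +kernel
theorem nS4_419 : chk1 PS4 1550827052989031080272906127 (tot PS4 TS4 (dec PS4.S 5343011011222)) = true := by decide +kernel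
theorem nS4_420 : chk1 PS4 84983412077816955913222637 (tot PS4 TS4 (dec PS4.S 5343011041100)) = true := by decide +kernel
theorem nS4_421 : chk1 PS4 190593530656998163414514365 (tot PS4 TS4 (dec PS4.S 5343011041102)) = true := by decide +kernel
theorem nS4_422 : chk1 PS4 95552049819735148192026460 (tot PS4 TS4 (dec PS4.S 5343011041120)) = true := by decide +kernel
theorem nS4_423 : chk1 PS4 467540623754632133400273870 (tot PS4 TS4 (dec PS4.S 5343011041122)) = true := by decide +kernel
theorem nS4_424 : chk1 PS4 84927850484666942743754992 (tot PS4 TS4 (dec PS4.S 5343011041200)) = true := by decide +kernel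
theorem nS4_425 : chk1 PS4 178760940457893466368580543 (tot PS4 TS4 (dec PS4.S 5343011041202)) = true := by decide +kernel
theorem nS4_426 : chk1 PS4 92681662654889647122358351 (tot PS4 TS4 (dec PS4.S 5343011041220)) = true := by decide +kernel
theorem nS4_427 : chk1 PS4 467540623754632133400273870 (tot PS4 TS4 (dec PS4.S 5343011041222)) = true := by decide +kernel
theorem nS4_428 : chk1 PS4 719580406495109402921187885 (tot PS4 TS4 (dec PS4.S 5344011000100)) = true := by decide +kernel
theorem nS4_429 : chk1 PS4 972165401203429231952979960 (tot PS4 TS4 (dec PS4.S 5344011000120)) = true := by decide +kernel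
theorem nS4_430 : chk1 PS4 3348312696771077248219177093 (tot PS4 TS4 (dec PS4.S 5344011000122)) = true := by decide +kernel
theorem nS4_431 : chk1 PS4 719436060722732625679792109 (tot PS4 TS4 (dec PS4.S 5344011000200)) = true := by decide +kernel
theorem nS4_432 : chk1 PS4 968175794735399551258110265 (tot PS4 TS4 (dec PS4.S 5344011000220)) = true := by decide +kernel
theorem nS4_433 : chk1 PS4 3348312696771077248219177093 (tot PS4 TS4 (dec PS4.S 5344011000222)) = true := by decide +kernel
theorem nS4_434 : chk1 PS4 96400581600381713857350989 (tot PS4 TS4 (dec PS4.S 5344111001211)) = true := by decide +kernel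
theorem nS4_435 : chk1 PS4 347729814205883765164908069 (tot PS4 TS4 (dec PS4.S 5344111001212)) = true := by decide +kernel
theorem nS4_436 : chk1 PS4 96400581600381713857350989 (tot PS4 TS4 (dec PS4.S 5344111001221)) = true := by decide +kernel
theorem nS4_437 : chk1 PS4 1772344115115385577346384770 (tot PS4 TS4 (dec PS4.S 5344111001222)) = true := by decide +kernel
theorem nS4_438 : chk1 PS4 19821432335570534821690213 (tot PS4 TS4 (dec PS4.S 5344112001011)) = true := by decide +kernel
theorem nS4_439 : chk1 PS4 60996686483658730627469832 (tot PS4 TS4 (dec PS4.S 5344112001012)) = true := by decide +kernel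
theorem nS4_440 : chk1 PS4 19821432335570534821690213 (tot PS4 TS4 (dec PS4.S 5344112001021)) = true := by decide +kernel
theorem nS4_441 : chk1 PS4 121233477791945069985993106 (tot PS4 TS4 (dec PS4.S 5344112001022)) = true := by decide +kernel
theorem nS4_442 : chk1 PS4 96400581600381713857350989 (tot PS4 TS4 (dec PS4.S 5344112001211)) = true := by decide +kernel
theorem nS4_443 : chk1 PS4 347729814205883765164908069 (tot PS4 TS4 (dec PS4.S 5344112001212)) = true := by decide +kernel
theorem nS4_444 : chk1 PS4 96400581600381713857350989 (tot PS4 TS4 (dec PS4.S 5344112001221)) = true := by decide +kernel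
theorem nS4_445 : chk1 PS4 1772344115115385577346384770 (tot PS4 TS4 (dec PS4.S 5344112001222)) = true := by decide +kernel
theorem nS4_446 : chk1 PS4 3198545684565453801532616803 (tot PS4 TS4 (dec PS4.S 5345111010211)) = true := by decide +kernel
theorem nS4_447 : chk1 PS4 3620694128476747735628962661 (tot PS4 TS4 (dec PS4.S 5345111010212)) = true := by decide +kernel
theorem nS4_448 : chk1 PS4 4730430956656813260665114037 (tot PS4 TS4 (dec PS4.S 5345111010221)) = true := by decide +kernel
theorem nS4_449 : chk1 PS4 8429622511314597231652348030 (tot PS4 TS4 (dec PS4.S 5345111010222)) = true := by decide +kernel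
theorem nS4_450 : chk1 PS4 1414078553712267043998894860 (tot PS4 TS4 (dec PS4.S 5345111040211)) = true := by decide +kernel
theorem nS4_451 : chk1 PS4 1414078553712267043998894860 (tot PS4 TS4 (dec PS4.S 5345111040212)) = true := by decide +kernel
theorem nS4_452 : chk1 PS4 1414078553712267043998894860 (tot PS4 TS4 (dec PS4.S 5345111040221)) = true := by decide +kernel
theorem nS4_453 : chk1 PS4 1414078553712267043998894860 (tot PS4 TS4 (dec PS4.S 5345111040222)) = true := by decide +kernel
theorem nS4_454 : chk1 PS4 1063039670320720890917418787 (tot PS4 TS4 (dec PS4.S 5345112020011)) = true := by decide +kernel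
theorem nS4_455 : chk1 PS4 1129882664956916316029084256 (tot PS4 TS4 (dec PS4.S 5345112020012)) = true := by decide +kernel

theorem cTS4rlr : chk PS4 TS4 TS4rlr = true :=
  have e : chk PS4 TS4 Tr.leaf = true := rfl
  (chk_node (chk_node (chk_node (chk_node (chk_node (chk_node (chk_node e nS4_381 e) nS4_382 e)
  nS4_383 (chk_node e nS4_384 e)) nS4_385 (chk_node (chk_node (chk_node e nS4_386 e) nS4_387 e)
  nS4_388 (chk_node e nS4_389 e))) nS4_390 (chk_node (chk_node (chk_node (chk_node e nS4_391 e)
  nS4_392 e) nS4_393 (chk_node e nS4_394 e)) nS4_395 (chk_node (chk_node e nS4_396 e) nS4_397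
  (chk_node e nS4_398 e)))) nS4_399 (chk_node (chk_node (chk_node (chk_node (chk_node e nS4_400 e)
  nS4_401 e) nS4_402 (chk_node e nS4_403 e)) nS4_404 (chk_node (chk_node (chk_node e nS4_405 e)
  nS4_406 e) nS4_407 (chk_node e nS4_408 e))) nS4_409 (chk_node (chk_node (chk_node (chk_node e
  nS4_410 e) nS4_411 e) nS4_412 (chk_node e nS4_413 e)) nS4_414 (chk_node (chk_node e nS4_415 e)
  nS4_416 (chk_node e nS4_417 e))))) nS4_418 (chk_node (chk_node (chk_node (chk_node (chk_node
  (chk_node e nS4_419 e) nS4_420 e) nS4_421 (chk_node e nS4_422 e)) nS4_423 (chk_node (chk_node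
  (chk_node e nS4_424 e) nS4_425 e) nS4_426 (chk_node e nS4_427 e))) nS4_428 (chk_node (chk_node
  (chk_node (chk_node e nS4_429 e) nS4_430 e) nS4_431 (chk_node e nS4_432 e)) nS4_433 (chk_node
  (chk_node e nS4_434 e) nS4_435 (chk_node e nS4_436 e)))) nS4_437 (chk_node (chk_node (chk_node
  (chk_node (chk_node e nS4_438 e) nS4_439 e) nS4_440 (chk_node e nS4_441 e)) nS4_442 (chk_node
  (chk_node (chk_node e nS4_443 e) nS4_444 e) nS4_445 (chk_node e nS4_446 e))) nS4_447 (chk_node
  (chk_node (chk_node (chk_node e nS4_448 e) nS4_449 e) nS4_450 (chk_node e nS4_451 e)) nS4_452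
  (chk_node (chk_node e nS4_453 e) nS4_454 (chk_node e nS4_455 e))))))

end Pool.Agent.Helper524_FM.DP
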