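import Pool.Agent.Helper524_FM.TabS4
import Pool.Agent.Helper524_FM.ChkS4_5

/-!
# Verification of a part of certificate table S4
-/

namespace Pool.Agent.Helper524_FM.DP

theorem nS4_457 : chk1 PS4 1261341671051008580633900904 (tot PS4 TS4 (dec PS4.S 5345112020022)) = true := by decide +kernel
theorem nS4_458 : chk1 PS4 2424745796232158041279652813 (tot PS4 TS4 (dec PS4.S 5345112020211)) = true := by decide +kernel
theorem nS4_459 : chk1 PS4 2846894240143451975375998671 (tot PS4 TS4 (dec PS4.S 5345112020212)) = true := by decide +kernel
theorem nS4_460 : chk1 PS4 3956631068323517500412150047 (tot PS4 TS4 (dec PS4.S 5345112020221)) = true := by decide +kernel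
theorem nS4_461 : chk1 PS4 7655822622981301471399384039 (tot PS4 TS4 (dec PS4.S 5345112020222)) = true := by decide +kernel
theorem nS4_462 : chk1 PS4 2051716862824991984779218683 (tot PS4 TS4 (dec PS4.S 5354111100210)) = true := by decide +kernel
theorem nS4_463 : chk1 PS4 5464440203452193464053696867 (tot PS4 TS4 (dec PS4.S 5354111100212)) = true := by decide +kernel
theorem nS4_464 : chk1 PS4 2672185846444367686688014300 (tot PS4 TS4 (dec PS4.S 5354111100220)) = true := by decide +kernel
theorem nS4_465 : chk1 PS4 8895798813877537806585429724 (tot PS4 TS4 (dec PS4.S 5354111100222)) = true := by decide +kernel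
theorem nS4_466 : chk1 PS4 956977532724757504563714923 (tot PS4 TS4 (dec PS4.S 5354111300210)) = true := by decide +kernel
theorem nS4_467 : chk1 PS4 3361482159406691823889336925 (tot PS4 TS4 (dec PS4.S 5354111300212)) = true := by decide +kernel
theorem nS4_468 : chk1 PS4 956977532724757504563714923 (tot PS4 TS4 (dec PS4.S 5354111300220)) = true := by decide +kernel
theorem nS4_469 : chk1 PS4 3361482159406691823889336925 (tot PS4 TS4 (dec PS4.S 5354111300222)) = true := by decide +kernel
theorem nS4_470 : chk1 PS4 732605412677882759092937412 (tot PS4 TS4 (dec PS4.S 5354112200010)) = true := by decide +kernel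
theorem nS4_471 : chk1 PS4 1517251488464429745537882311 (tot PS4 TS4 (dec PS4.S 5354112200012)) = true := by decide +kernel
theorem nS4_472 : chk1 PS4 743836140958094534598311749 (tot PS4 TS4 (dec PS4.S 5354112200020)) = true := by decide +kernel
theorem nS4_473 : chk1 PS4 1598289695387202439647557065 (tot PS4 TS4 (dec PS4.S 5354112200022)) = true := by decide +kernel
theorem nS4_474 : chk1 PS4 1534319080164212476236718157 (tot PS4 TS4 (dec PS4.S 5354112200210)) = true := by decide +kernel
theorem nS4_475 : chk1 PS4 3567332180430315914223039013 (tot PS4 TS4 (dec PS4.S 5354112200212)) = true := by decide +kernel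
theorem nS4_476 : chk1 PS4 2154788063783588178145513774 (tot PS4 TS4 (dec PS4.S 5354112200220)) = true := by decide +kernel
theorem nS4_477 : chk1 PS4 6998690790855660256754771869 (tot PS4 TS4 (dec PS4.S 5354112200222)) = true := by decide +kernel
theorem nS4_478 : chk1 PS4 396649638705413736861039313 (tot PS4 TS4 (dec PS4.S 5424010101111)) = true := by decide +kernel
theorem nS4_479 : chk1 PS4 941784185563095885440604622 (tot PS4 TS4 (dec PS4.S 5424010101112)) = true := by decide +kernel
theorem nS4_480 : chk1 PS4 396725565504021125375491122 (tot PS4 TS4 (dec PS4.S 5424010101121)) = true := by decide +kernel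
theorem nS4_481 : chk1 PS4 941860093914959200245504816 (tot PS4 TS4 (dec PS4.S 5424010101122)) = true := by decide +kernel
theorem nS4_482 : chk1 PS4 394011698962641049851281646 (tot PS4 TS4 (dec PS4.S 5424010101211)) = true := by decide +kernel
theorem nS4_483 : chk1 PS4 939146245820323198430846955 (tot PS4 TS4 (dec PS4.S 5424010101212)) = true := by decide +kernel
theorem nS4_484 : chk1 PS4 396725565504021125375491122 (tot PS4 TS4 (dec PS4.S 5424010101221)) = true := by decide +kernel
theorem nS4_485 : chk1 PS4 941860093914959200245504816 (tot PS4 TS4 (dec PS4.S 5424010101222)) = true := by decide +kernel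
theorem nS4_486 : chk1 PS4 679460213874317024922539671 (tot PS4 TS4 (dec PS4.S 5433010111112)) = true := by decide +kernel
theorem nS4_487 : chk1 PS4 679598324647196888335489311 (tot PS4 TS4 (dec PS4.S 5433010111122)) = true := by decide +kernel
theorem nS4_488 : chk1 PS4 672647480799758687029231591 (tot PS4 TS4 (dec PS4.S 5433010111212)) = true := by decide +kernel
theorem nS4_489 : chk1 PS4 679598324647196888335489311 (tot PS4 TS4 (dec PS4.S 5433010111222)) = true := by decide +kernel
theorem nS4_490 : chk1 PS4 128389836815108469405880332 (tot PS4 TS4 (dec PS4.S 5433010141110)) = true := by decide +kernel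
theorem nS4_491 : chk1 PS4 394974951044682015218599113 (tot PS4 TS4 (dec PS4.S 5433010141112)) = true := by decide +kernel
theorem nS4_492 : chk1 PS4 128341266537962392156475237 (tot PS4 TS4 (dec PS4.S 5433010141120)) = true := by decide +kernel
theorem nS4_493 : chk1 PS4 395113080264305952341100369 (tot PS4 TS4 (dec PS4.S 5433010141122)) = true := by decide +kernel
theorem nS4_494 : chk1 PS4 128262701854952463176142328 (tot PS4 TS4 (dec PS4.S 5433010141210)) = true := by decide +kernel
theorem nS4_495 : chk1 PS4 388162236416867751034842649 (tot PS4 TS4 (dec PS4.S 5433010141212)) = true := by decide +kernel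
theorem nS4_496 : chk1 PS4 395113080264305952341100369 (tot PS4 TS4 (dec PS4.S 5433010141222)) = true := by decide +kernel
theorem nS4_497 : chk1 PS4 852170566935801537230459810 (tot PS4 TS4 (dec PS4.S 5434010100110)) = true := by decide +kernel
theorem nS4_498 : chk1 PS4 2279672963884459611618272829 (tot PS4 TS4 (dec PS4.S 5434010100112)) = true := by decide +kernel
theorem nS4_499 : chk1 PS4 851951069128068467275780276 (tot PS4 TS4 (dec PS4.S 5434010100120)) = true := by decide +kernel
theorem nS4_500 : chk1 PS4 2281419686080799169060799443 (tot PS4 TS4 (dec PS4.S 5434010100122)) = true := by decide +kernel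
theorem nS4_501 : chk1 PS4 851637861860440952798890963 (tot PS4 TS4 (dec PS4.S 5434010100210)) = true := by decide +kernel
theorem nS4_502 : chk1 PS4 2260601557716182033455797755 (tot PS4 TS4 (dec PS4.S 5434010100212)) = true := by decide +kernel
theorem nS4_503 : chk1 PS4 842915761647045160346468219 (tot PS4 TS4 (dec PS4.S 5434010100220)) = true := by decide +kernel
theorem nS4_504 : chk1 PS4 2281419686080799169060799443 (tot PS4 TS4 (dec PS4.S 5434010100222)) = true := by decide +kernel
theorem nS4_505 : chk1 PS4 200483992299790497738935050 (tot PS4 TS4 (dec PS4.S 5434110101221)) = true := by decide +kernel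
theorem nS4_506 : chk1 PS4 1126886231189815157612156179 (tot PS4 TS4 (dec PS4.S 5434110101222)) = true := by decide +kernel
theorem nS4_507 : chk1 PS4 12720007716258642445561076 (tot PS4 TS4 (dec PS4.S 5434110301001)) = true := by decide +kernel
theorem nS4_508 : chk1 PS4 29376716638543566592013580 (tot PS4 TS4 (dec PS4.S 5434110301002)) = true := by decide +kernel
theorem nS4_509 : chk1 PS4 23779236616817140249580190 (tot PS4 TS4 (dec PS4.S 5434110301021)) = true := by decide +kernel
theorem nS4_510 : chk1 PS4 85998665531401708506053057 (tot PS4 TS4 (dec PS4.S 5434110301022)) = true := by decide +kernel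
theorem nS4_511 : chk1 PS4 40259373304828516567964944 (tot PS4 TS4 (dec PS4.S 5434110301201)) = true := by decide +kernel
theorem nS4_512 : chk1 PS4 102478802219413084824437812 (tot PS4 TS4 (dec PS4.S 5434110301202)) = true := by decide +kernel
theorem nS4_513 : chk1 PS4 200483992299790497738935050 (tot PS4 TS4 (dec PS4.S 5434110301221)) = true := by decide +kernel
theorem nS4_514 : chk1 PS4 1126886231189815157612156179 (tot PS4 TS4 (dec PS4.S 5434110301222)) = true := by decide +kernel
theorem nS4_515 : chk1 PS4 4598522883024990610735525132 (tot PS4 TS4 (dec PS4.S 5435110110221)) = true := by decide +kernel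
theorem nS4_516 : chk1 PS4 6484499070761635541989896840 (tot PS4 TS4 (dec PS4.S 5435110110222)) = true := by decide +kernel
theorem nS4_517 : chk1 PS4 3784794924910430157461742874 (tot PS4 TS4 (dec PS4.S 5435110140221)) = true := by decide +kernel
theorem nS4_518 : chk1 PS4 3784794924910430157461742874 (tot PS4 TS4 (dec PS4.S 5435110140222)) = true := by decide +kernel
theorem nS4_519 : chk1 PS4 392398641873859591819311281 (tot PS4 TS4 (dec PS4.S 5435110330001)) = true := by decide +kernel
theorem nS4_520 : chk1 PS4 419651861568358083377052052 (tot PS4 TS4 (dec PS4.S 5435110330002)) = true := by decide +kernel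
theorem nS4_521 : chk1 PS4 418419600617490211619502287 (tot PS4 TS4 (dec PS4.S 5435110330021)) = true := by decide +kernel
theorem nS4_522 : chk1 PS4 520735997702078357551586281 (tot PS4 TS4 (dec PS4.S 5435110330022)) = true := by decide +kernel
theorem nS4_523 : chk1 PS4 857697285247261213733342738 (tot PS4 TS4 (dec PS4.S 5435110330201)) = true := by decide +kernel
theorem nS4_524 : chk1 PS4 960013663885105285955875116 (tot PS4 TS4 (dec PS4.S 5435110330202)) = true := by decide +kernel
theorem nS4_525 : chk1 PS4 1651983777060681401532413781 (tot PS4 TS4 (dec PS4.S 5435110330221)) = true := by decide +kernel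
theorem nS4_526 : chk1 PS4 3537959983244070406496337102 (tot PS4 TS4 (dec PS4.S 5435110330222)) = true := by decide +kernel
theorem nS4_527 : chk1 PS4 287296472839492050532329241 (tot PS4 TS4 (dec PS4.S 5442010011111)) = true := by decide +kernel
theorem nS4_528 : chk1 PS4 287142479419964723195438137 (tot PS4 TS4 (dec PS4.S 5442010011112)) = true := by decide +kernel
theorem nS4_529 : chk1 PS4 287330783783469150298335158 (tot PS4 TS4 (dec PS4.S 5442010011121)) = true := by decide +kernel
theorem nS4_530 : chk1 PS4 287330783783469150298335158 (tot PS4 TS4 (dec PS4.S 5442010011122)) = true := by decide +kernel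
theorem nS4_531 : chk1 PS4 287119033608247038355334091 (tot PS4 TS4 (dec PS4.S 5442010011211)) = true := by decide +kernel

theorem cTS4rrl : chk PS4 TS4 TS4rrl = true :=
  have e : chk PS4 TS4 Tr.leaf = true := rfl
  (chk_node (chk_node (chk_node (chk_node (chk_node (chk_node (chk_node e nS4_457 e) nS4_458 e)
  nS4_459 (chk_node e nS4_460 e)) nS4_461 (chk_node (chk_node (chk_node e nS4_462 e) nS4_463 e)
  nS4_464 (chk_node e nS4_465 e))) nS4_466 (chk_node (chk_node (chk_node (chk_node e nS4_467 e)
  nS4_468 e) nS4_469 (chk_node e nS4_470 e)) nS4_471 (chk_node (chk_node e nS4_472 e) nS4_473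
  (chk_node e nS4_474 e)))) nS4_475 (chk_node (chk_node (chk_node (chk_node (chk_node e nS4_476 e)
  nS4_477 e) nS4_478 (chk_node e nS4_479 e)) nS4_480 (chk_node (chk_node (chk_node e nS4_481 e)
  nS4_482 e) nS4_483 (chk_node e nS4_484 e))) nS4_485 (chk_node (chk_node (chk_node (chk_node e
  nS4_486 e) nS4_487 e) nS4_488 (chk_node e nS4_489 e)) nS4_490 (chk_node (chk_node e nS4_491 e)
  nS4_492 (chk_node e nS4_493 e))))) nS4_494 (chk_node (chk_node (chk_node (chk_node (chk_node
  (chk_node e nS4_495 e) nS4_496 e) nS4_497 (chk_node e nS4_498 e)) nS4_499 (chk_node (chk_node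
  (chk_node e nS4_500 e) nS4_501 e) nS4_502 (chk_node e nS4_503 e))) nS4_504 (chk_node (chk_node
  (chk_node (chk_node e nS4_505 e) nS4_506 e) nS4_507 (chk_node e nS4_508 e)) nS4_509 (chk_node
  (chk_node e nS4_510 e) nS4_511 (chk_node e nS4_512 e)))) nS4_513 (chk_node (chk_node (chk_node
  (chk_node (chk_node e nS4_514 e) nS4_515 e) nS4_516 (chk_node e nS4_517 e)) nS4_518 (chk_node
  (chk_node (chk_node e nS4_519 e) nS4_520 e) nS4_521 (chk_node e nS4_522 e))) nS4_523 (chk_node
  (chk_node (chk_node (chk_node e nS4_524 e) nS4_525 e) nS4_526 (chk_node e nS4_527 e)) nS4_528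
  (chk_node (chk_node e nS4_529 e) nS4_530 (chk_node e nS4_531 e))))))

end Pool.Agent.Helper524_FM.DP
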