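import Pool.Agent.Helper524_FM.TabS4
import Pool.Agent.Helper524_FM.ChkS4_6

/-!
# Verification of a part of certificate table S4
-/

namespace Pool.Agent.Helper524_FM.DP

theorem nS4_533 : chk1 PS4 287330783783469150298335158 (tot PS4 TS4 (dec PS4.S 5442010011222)) = true := by decide +kernel
theorem nS4_534 : chk1 PS4 1411210564624151125170363101 (tot PS4 TS4 (dec PS4.S 5443010010111)) = true := by decide +kernel
theorem nS4_535 : chk1 PS4 1409507967039635880975301816 (tot PS4 TS4 (dec PS4.S 5443010010112)) = true := by decide +kernel
theorem nS4_536 : chk1 PS4 1411794551648036622155424811 (tot PS4 TS4 (dec PS4.S 5443010010121)) = true := by decide +kernel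
theorem nS4_537 : chk1 PS4 1411794551648036622155424811 (tot PS4 TS4 (dec PS4.S 5443010010122)) = true := by decide +kernel
theorem nS4_538 : chk1 PS4 1409507967039635880975301816 (tot PS4 TS4 (dec PS4.S 5443010010211)) = true := by decide +kernel
theorem nS4_539 : chk1 PS4 1366719618909278079719104732 (tot PS4 TS4 (dec PS4.S 5443010010212)) = true := by decide +kernel
theorem nS4_540 : chk1 PS4 1411794551648036622155424811 (tot PS4 TS4 (dec PS4.S 5443010010221)) = true := by decide +kernel
theorem nS4_541 : chk1 PS4 1411794551648036622155424811 (tot PS4 TS4 (dec PS4.S 5443010010222)) = true := by decide +kernel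
theorem nS4_542 : chk1 PS4 659795320608955989363307184 (tot PS4 TS4 (dec PS4.S 5443110011222)) = true := by decide +kernel
theorem nS4_543 : chk1 PS4 7649588066206245411920814 (tot PS4 TS4 (dec PS4.S 5443110041000)) = true := by decide +kernel
theorem nS4_544 : chk1 PS4 17536839975529754273132491 (tot PS4 TS4 (dec PS4.S 5443110041002)) = true := by decide +kernel
theorem nS4_545 : chk1 PS4 53248998632468497820015830 (tot PS4 TS4 (dec PS4.S 5443110041022)) = true := by decide +kernel
theorem nS4_546 : chk1 PS4 17536839975529754273132491 (tot PS4 TS4 (dec PS4.S 5443110041200)) = true := by decide +kernel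
theorem nS4_547 : chk1 PS4 60076931824143572383885388 (tot PS4 TS4 (dec PS4.S 5443110041202)) = true := by decide +kernel
theorem nS4_548 : chk1 PS4 53248998632468497820015830 (tot PS4 TS4 (dec PS4.S 5443110041220)) = true := by decide +kernel
theorem nS4_549 : chk1 PS4 659795320608955989363307184 (tot PS4 TS4 (dec PS4.S 5443110041222)) = true := by decide +kernel
theorem nS4_550 : chk1 PS4 876038809092774326065337978 (tot PS4 TS4 (dec PS4.S 5444110000000)) = true := by decide +kernel
theorem nS4_551 : chk1 PS4 1646968974344011238791272664 (tot PS4 TS4 (dec PS4.S 5444110000200)) = true := by decide +kernel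
theorem nS4_552 : chk1 PS4 2679185408142904554918862798 (tot PS4 TS4 (dec PS4.S 5444110000220)) = true := by decide +kernel
theorem nS4_553 : chk1 PS4 9968692402841041013193241850 (tot PS4 TS4 (dec PS4.S 5444110000222)) = true := by decide +kernel
theorem nS4_554 : chk1 PS4 4218249267584036233486398936 (tot PS4 TS4 (dec PS4.S 5453110110221)) = true := by decide +kernel
theorem nS4_555 : chk1 PS4 4218249267584036233486398936 (tot PS4 TS4 (dec PS4.S 5453110110222)) = true := by decide +kernel
theorem nS4_556 : chk1 PS4 231154600461152199698781010 (tot PS4 TS4 (dec PS4.S 5453110330001)) = true := by decide +kernel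
theorem nS4_557 : chk1 PS4 231003447840212223632838820 (tot PS4 TS4 (dec PS4.S 5453110330002)) = true := by decide +kernel
theorem nS4_558 : chk1 PS4 259901287002602290264924699 (tot PS4 TS4 (dec PS4.S 5453110330021)) = true := by decide +kernel
theorem nS4_559 : chk1 PS4 252093813253869164800729633 (tot PS4 TS4 (dec PS4.S 5453110330022)) = true := by decide +kernel
theorem nS4_560 : chk1 PS4 518414124472264609999058641 (tot PS4 TS4 (dec PS4.S 5453110330201)) = true := by decide +kernel
theorem nS4_561 : chk1 PS4 486229444450820975460161607 (tot PS4 TS4 (dec PS4.S 5453110330202)) = true := by decide +kernel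
theorem nS4_562 : chk1 PS4 1271710180066471097992839197 (tot PS4 TS4 (dec PS4.S 5453110330221)) = true := by decide +kernel
theorem nS4_563 : chk1 PS4 1271710180066471097992839197 (tot PS4 TS4 (dec PS4.S 5453110330222)) = true := by decide +kernel
theorem nS4_564 : chk1 PS4 1226142922175129321326641778 (tot PS4 TS4 (dec PS4.S 5534111100210)) = true := by decide +kernel
theorem nS4_565 : chk1 PS4 4189108411015219117221355009 (tot PS4 TS4 (dec PS4.S 5534111100212)) = true := by decide +kernel
theorem nS4_566 : chk1 PS4 1226157716463876436387037870 (tot PS4 TS4 (dec PS4.S 5534111100220)) = true := by decide +kernel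
theorem nS4_567 : chk1 PS4 4196856984310124888087250445 (tot PS4 TS4 (dec PS4.S 5534111100222)) = true := by decide +kernel
theorem nS4_568 : chk1 PS4 290572430119542129802894836 (tot PS4 TS4 (dec PS4.S 5534112200010)) = true := by decide +kernel
theorem nS4_569 : chk1 PS4 733905004244619670714786260 (tot PS4 TS4 (dec PS4.S 5534112200012)) = true := by decide +kernel
theorem nS4_570 : chk1 PS4 290572374779309908674239990 (tot PS4 TS4 (dec PS4.S 5534112200020)) = true := by decide +kernel
theorem nS4_571 : chk1 PS4 726248959817987626959807634 (tot PS4 TS4 (dec PS4.S 5534112200022)) = true := by decide +kernel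
theorem nS4_572 : chk1 PS4 708745139514349812784141252 (tot PS4 TS4 (dec PS4.S 5534112200210)) = true := by decide +kernel
theorem nS4_573 : chk1 PS4 2292000369546597493681145538 (tot PS4 TS4 (dec PS4.S 5534112200212)) = true := by decide +kernel
theorem nS4_574 : chk1 PS4 708759952249841001554088960 (tot PS4 TS4 (dec PS4.S 5534112200220)) = true := by decide +kernel
theorem nS4_575 : chk1 PS4 2299748942841503264547040973 (tot PS4 TS4 (dec PS4.S 5534112200222)) = true := by decide +kernel
theorem nS4_576 : chk1 PS4 1848131474784320921262369021 (tot PS4 TS4 (dec PS4.S 5543111010211)) = true := by decide +kernel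
theorem nS4_577 : chk1 PS4 1829600871812052286024617759 (tot PS4 TS4 (dec PS4.S 5543111010212)) = true := by decide +kernel
theorem nS4_578 : chk1 PS4 1848507161174126089990582240 (tot PS4 TS4 (dec PS4.S 5543111010221)) = true := by decide +kernel
theorem nS4_579 : chk1 PS4 1848507161174126089990582240 (tot PS4 TS4 (dec PS4.S 5543111010222)) = true := by decide +kernel
theorem nS4_580 : chk1 PS4 349220052872622464998965940 (tot PS4 TS4 (dec PS4.S 5543112020011)) = true := by decide +kernel
theorem nS4_581 : chk1 PS4 348874231761472632034819339 (tot PS4 TS4 (dec PS4.S 5543112020012)) = true := by decide +kernel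
theorem nS4_582 : chk1 PS4 349087937291566557190291693 (tot PS4 TS4 (dec PS4.S 5543112020021)) = true := by decide +kernel
theorem nS4_583 : chk1 PS4 1074331586451025161009405030 (tot PS4 TS4 (dec PS4.S 5543112020211)) = true := by decide +kernel
theorem nS4_584 : chk1 PS4 1055800983478756525771653768 (tot PS4 TS4 (dec PS4.S 5543112020212)) = true := by decide +kernel
theorem nS4_585 : chk1 PS4 1074707272840830329737618249 (tot PS4 TS4 (dec PS4.S 5543112020221)) = true := by decide +kernel
theorem nS4_586 : chk1 PS4 1074707272840830329737618249 (tot PS4 TS4 (dec PS4.S 5543112020222)) = true := by decide +kernel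
theorem nS4_587 : chk1 PS4 664729234352862935705306001 (tot PS4 TS4 (dec PS4.S 6344111000100)) = true := by decide +kernel
theorem nS4_588 : chk1 PS4 1064500209729500918376373734 (tot PS4 TS4 (dec PS4.S 6344111000120)) = true := by decide +kernel
theorem nS4_589 : chk1 PS4 3946082906467521125737562504 (tot PS4 TS4 (dec PS4.S 6344111000122)) = true := by decide +kernel
theorem nS4_590 : chk1 PS4 664725581897536341214086019 (tot PS4 TS4 (dec PS4.S 6344111000200)) = true := by decide +kernel
theorem nS4_591 : chk1 PS4 1064500209729500918376373734 (tot PS4 TS4 (dec PS4.S 6344111000220)) = true := by decide +kernel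
theorem nS4_592 : chk1 PS4 3946082906467521125737562504 (tot PS4 TS4 (dec PS4.S 6344111000222)) = true := by decide +kernel
theorem nS4_593 : chk1 PS4 510140741308461802389216530 (tot PS4 TS4 (dec PS4.S 6434110100110)) = true := by decide +kernel
theorem nS4_594 : chk1 PS4 1724094091893171999431457601 (tot PS4 TS4 (dec PS4.S 6434110100112)) = true := by decide +kernel
theorem nS4_595 : chk1 PS4 510146902520982421379456299 (tot PS4 TS4 (dec PS4.S 6434110100120)) = true := by decide +kernel
theorem nS4_596 : chk1 PS4 1724490512423316017695687304 (tot PS4 TS4 (dec PS4.S 6434110100122)) = true := by decide +kernel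
theorem nS4_597 : chk1 PS4 510131388809216431646547180 (tot PS4 TS4 (dec PS4.S 6434110100210)) = true := by decide +kernel
theorem nS4_598 : chk1 PS4 1705728347472690106456499312 (tot PS4 TS4 (dec PS4.S 6434110100212)) = true := by decide +kernel
theorem nS4_599 : chk1 PS4 510146902520982421379456299 (tot PS4 TS4 (dec PS4.S 6434110100220)) = true := by decide +kernel
theorem nS4_600 : chk1 PS4 1724490512423316017695687304 (tot PS4 TS4 (dec PS4.S 6434110100222)) = true := by decide +kernel
theorem nS4_601 : chk1 PS4 781446100645336516817760780 (tot PS4 TS4 (dec PS4.S 6443110010111)) = true := by decide +kernel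
theorem nS4_602 : chk1 PS4 780963460033391980109277453 (tot PS4 TS4 (dec PS4.S 6443110010112)) = true := by decide +kernel
theorem nS4_603 : chk1 PS4 781539404276861339729834933 (tot PS4 TS4 (dec PS4.S 6443110010121)) = true := by decide +kernel
theorem nS4_604 : chk1 PS4 781539404276861339729834933 (tot PS4 TS4 (dec PS4.S 6443110010122)) = true := by decide +kernel
theorem nS4_605 : chk1 PS4 781027230427654794029214265 (tot PS4 TS4 (dec PS4.S 6443110010211)) = true := by decide +kernel
theorem nS4_606 : chk1 PS4 781539404276861339729834933 (tot PS4 TS4 (dec PS4.S 6443110010221)) = true := by decide +kernel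
theorem nS4_607 : chk1 PS4 781539404276861339729834933 (tot PS4 TS4 (dec PS4.S 6443110010222)) = true := by decide +kernel

theorem cTS4rrr : chk PS4 TS4 TS4rrr = true :=
  have e : chk PS4 TS4 Tr.leaf = true := rfl
  (chk_node (chk_node (chk_node (chk_node (chk_node (chk_node (chk_node e nS4_533 e) nS4_534 e)
  nS4_535 (chk_node e nS4_536 e)) nS4_537 (chk_node (chk_node (chk_node e nS4_538 e) nS4_539 e)
  nS4_540 (chk_node e nS4_541 e))) nS4_542 (chk_node (chk_node (chk_node (chk_node e nS4_543 e)
  nS4_544 e) nS4_545 (chk_node e nS4_546 e)) nS4_547 (chk_node (chk_node e nS4_548 e) nS4_549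
  (chk_node e nS4_550 e)))) nS4_551 (chk_node (chk_node (chk_node (chk_node (chk_node e nS4_552 e)
  nS4_553 e) nS4_554 (chk_node e nS4_555 e)) nS4_556 (chk_node (chk_node (chk_node e nS4_557 e)
  nS4_558 e) nS4_559 (chk_node e nS4_560 e))) nS4_561 (chk_node (chk_node (chk_node (chk_node e
  nS4_562 e) nS4_563 e) nS4_564 (chk_node e nS4_565 e)) nS4_566 (chk_node (chk_node e nS4_567 e)
  nS4_568 (chk_node e nS4_569 e))))) nS4_570 (chk_node (chk_node (chk_node (chk_node (chk_node
  (chk_node e nS4_571 e) nS4_572 e) nS4_573 (chk_node e nS4_574 e)) nS4_575 (chk_node (chk_node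
  (chk_node e nS4_576 e) nS4_577 e) nS4_578 (chk_node e nS4_579 e))) nS4_580 (chk_node (chk_node
  (chk_node (chk_node e nS4_581 e) nS4_582 e) nS4_583 (chk_node e nS4_584 e)) nS4_585 (chk_node
  (chk_node e nS4_586 e) nS4_587 (chk_node e nS4_588 e)))) nS4_589 (chk_node (chk_node (chk_node
  (chk_node (chk_node e nS4_590 e) nS4_591 e) nS4_592 (chk_node e nS4_593 e)) nS4_594 (chk_node
  (chk_node (chk_node e nS4_595 e) nS4_596 e) nS4_597 (chk_node e nS4_598 e))) nS4_599 (chk_node
  (chk_node (chk_node (chk_node e nS4_600 e) nS4_601 e) nS4_602 (chk_node e nS4_603 e)) nS4_604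
  (chk_node (chk_node e nS4_605 e) nS4_606 (chk_node e nS4_607 e))))))

end Pool.Agent.Helper524_FM.DP
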