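import Pool.Agent.Helper524_FM.ChkS4_0
import Pool.Agent.Helper524_FM.ChkS4_1
import Pool.Agent.Helper524_FM.ChkS4_2
import Pool.Agent.Helper524_FM.ChkS4_3
import Pool.Agent.Helper524_FM.ChkS4_4
import Pool.Agent.Helper524_FM.ChkS4_5
import Pool.Agent.Helper524_FM.ChkS4_6
import Pool.Agent.Helper524_FM.ChkS4_7

/-!
# Verification of certificate table S4
-/

namespace Pool.Agent.Helper524_FM.DP

theorem nS4_76 : chk1 PS4 3400999530877899447463128881 (tot PS4 TS4 (dec PS4.S 3464110100222)) = true := by decide +kernel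

theorem cTS4ll : chk PS4 TS4 TS4ll = true := chk_node cTS4lll nS4_76 cTS4llr

theorem nS4_228 : chk1 PS4 1235788097461973539742566124 (tot PS4 TS4 (dec PS4.S 4436100330122)) = true := by decide +kernel

theorem cTS4lr : chk PS4 TS4 TS4lr = true := chk_node cTS4lrl nS4_228 cTS4lrr

theorem nS4_152 : chk1 PS4 1613887044690822371663621301 (tot PS4 TS4 (dec PS4.S 4344002001211)) = true := by decide +kernel

theorem cTS4l : chk PS4 TS4 TS4l = true := chk_node cTS4ll nS4_152 cTS4lr

theorem nS4_380 : chk1 PS4 1100709581926202429178316286 (tot PS4 TS4 (dec PS4.S 4553102330201)) = true := by decide +kernel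

theorem cTS4rl : chk PS4 TS4 TS4rl = true := chk_node cTS4rll nS4_380 cTS4rlr

theorem nS4_532 : chk1 PS4 287330783783469150298335158 (tot PS4 TS4 (dec PS4.S 5442010011221)) = true := by decide +kernel

theorem cTS4rr : chk PS4 TS4 TS4rr = true := chk_node cTS4rrl nS4_532 cTS4rrr

theorem nS4_456 : chk1 PS4 1091849278706206404764084525 (tot PS4 TS4 (dec PS4.S 5345112020021)) = true := by decide +kernel

theorem cTS4r : chk PS4 TS4 TS4r = true := chk_node cTS4rl nS4_456 cTS4rr

theorem nS4_304 : chk1 PS4 601150926036088553329517410 (tot PS4 TS4 (dec PS4.S 4534002200010)) = true := by decide +kernel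

theorem cTS4 : chk PS4 TS4 TS4 = true := chk_node cTS4l nS4_304 cTS4r

end Pool.Agent.Helper524_FM.DP
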