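import Pool.Agent.Helper524_FM.Rep

/-!
# Ratios of the numbers of good words converge fast
-/

set_option linter.unusedSectionVars false
set_option linter.unusedSimpArgs false

namespace Pool.Agent.Helper524_FM

open scoped Classical

variable {r : ℕ}

/-- the last `τ` letters -/
def lastN (τ : ℕ) (w : List (Ltr (Fin r))) : List (Ltr (Fin r)) := w.drop (w.length - τ)

theorem lastN_length (τ : ℕ) (w : List (Ltr (Fin r))) : (lastN τ w).length ≤ τ := by
  simp [lastN]; omega

theorem suffix_lastN {τ : ℕ} {s w : List (Ltr (Fin r))} (h : s <:+ w) (hl : s.length ≤ τ) :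
    s <:+ lastN τ w := by
  apply List.suffix_of_suffix_length_le h (List.drop_suffix _ _)
  have := h.length_le
  simp; omega

theorem good_junction {τ : ℕ} {s w : List (Ltr (Fin r))} (hs : Good τ s) (hw : Good τ w)
    (hnd : (axs (w.take τ)).Nodup) (hdis : ∀ i ∈ axs (w.take τ), i ∉ axs (lastN τ s)) :
    Good τ (s ++ w) := by
  by_contra hg
  obtain ⟨φ, h1, h2, h3⟩ := exists_minForb hg
  rcases List.infix_append_iff_ne_nil.1 h1 with h | h | ⟨x, y, hx, hy, rfl, hxu, hyt⟩
  · exact h3.not_min (hs φ h h2)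
  · exact h3.not_min (hw φ h h2)
  · have hx' := List.length_pos_iff.2 hx
    simp only [List.length_append] at h2
    have hxs := suffix_lastN (τ := τ) hxu (by omega)
    have hyz : y <+: w.take τ := by
      rw [List.prefix_take_iff]
      exact ⟨hyt, by omega⟩
    rcases List.eq_nil_or_concat y with h | ⟨y', l, h⟩
    · exact hy h
    · rw [List.concat_eq_append] at h
      subst h
      have h4 := h3.last (t := x ++ y') (l := l) (by simp)
      have hl : l.1 ∈ axs (w.take τ) := axs_sub_of_infix hyz.isInfix (by simp)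
      rw [axs_append, List.mem_append] at h4
      rcases h4 with h4 | h4
      · exact hdis _ hl (axs_sub_of_infix hxs.isInfix h4)
      · have h5 : (axs (y' ++ [l])).Nodup := by
          have : axs (y' ++ [l]) <+: axs (w.take τ) := by
            obtain ⟨s, hs⟩ := hyz
            exact ⟨axs s, by rw [← axs_append, hs]⟩
          exact this.sublist.nodup hnd
        rw [axs_append, List.nodup_append] at h5
        exact h5.2.2 _ h4 _ (by simp) rfl

/-- words continuing `s` -/
noncomputable def EW (τ n : ℕ) (s : List (Ltr (Fin r))) : Finset (List (Ltr (Fin r))) :=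
  (words r n).filter (fun w => Good τ (s ++ w))

theorem mem_EW {τ n : ℕ} {s w : List (Ltr (Fin r))} :
    w ∈ EW τ n s ↔ w.length = n ∧ Good τ (s ++ w) := by simp [EW]

/-- their number -/
noncomputable def ee (τ n : ℕ) (s : List (Ltr (Fin r))) : ℝ := ((EW τ n s).card : ℝ)

/-- number of good words as a real number -/
noncomputable def aa (τ r n : ℕ) : ℝ := (ga τ r n : ℝ)

theorem EW_nil (τ n : ℕ) : EW τ n ([] : List (Ltr (Fin r))) = GW τ r n := by
  ext w; simp [mem_EW, mem_GW]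

theorem ee_nil (τ n : ℕ) : ee τ n ([] : List (Ltr (Fin r))) = aa τ r n := by
  unfold ee aa ga; rw [EW_nil]

theorem EW_sub (τ n : ℕ) (s : List (Ltr (Fin r))) : EW τ n s ⊆ GW τ r n := by
  intro w hw
  rw [mem_EW] at hw
  rw [mem_GW]
  exact ⟨hw.1, hw.2.fac (List.suffix_append s w).isInfix⟩

theorem ee_le (τ n : ℕ) (s : List (Ltr (Fin r))) : ee τ n s ≤ aa τ r n := by
  unfold ee aa ga
  exact_mod_cast Finset.card_le_card (EW_sub τ n s)

theorem ee_nonneg (τ n : ℕ) (s : List (Ltr (Fin r))) : 0 ≤ ee τ n s := by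
  unfold ee; positivity

/-- decomposition of the continuations -/
theorem ee_add (τ m n : ℕ) (s : List (Ltr (Fin r))) :
    ee τ (m + n) s = ∑ b ∈ EW τ m s, ee τ n (s ++ b) := by
  unfold ee
  rw [← Nat.cast_sum, ← Finset.card_sigma]
  norm_cast
  apply Finset.card_nbij' (fun w => (⟨w.take m, w.drop m⟩ : Σ _ : List (Ltr (Fin r)),
    List (Ltr (Fin r)))) (fun p => p.1 ++ p.2)
  · intro w hw
    simp only [Finset.mem_coe, mem_EW] at hw
    simp only [Finset.coe_sigma, Set.mem_sigma_iff, Finset.mem_coe, mem_EW]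
    refine ⟨⟨by simp; omega, ?_⟩, by simp; omega, ?_⟩
    · apply hw.2.fac
      refine ⟨[], w.drop m, ?_⟩
      rw [List.nil_append, List.append_assoc, List.take_append_drop]
    · rw [List.append_assoc, List.take_append_drop]; exact hw.2
  · rintro ⟨b, w⟩ hp
    simp only [Finset.coe_sigma, Set.mem_sigma_iff, Finset.mem_coe, mem_EW] at hp
    simp only [Finset.mem_coe, mem_EW]
    refine ⟨by simp; omega, ?_⟩
    rw [← List.append_assoc]; exact hp.2.2
  · intro w _; simp
  · rintro ⟨b, w⟩ hp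
    simp only [Finset.coe_sigma, Set.mem_sigma_iff, Finset.mem_coe, mem_EW] at hp
    have : b.length = m := hp.1.1
    subst this
    simp

/-- long blocks screen the past -/
theorem ee_screen {τ n : ℕ} {s b : List (Ltr (Fin r))} (hb : τ ≤ b.length)
    (h : Good τ (s ++ b)) : ee τ n (s ++ b) = ee τ n b := by
  unfold ee
  congr 2
  ext w
  rw [mem_EW, mem_EW]
  constructor
  · rintro ⟨h1, h2⟩
    refine ⟨h1, h2.fac ?_⟩
    rw [List.append_assoc]
    exact (List.suffix_append _ _).isInfix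
  · rintro ⟨h1, h2⟩
    refine ⟨h1, fun u hu hl => ?_⟩
    rcases List.infix_append_iff_ne_nil.1 hu with h3 | h3 | ⟨x, y, hx, hy, rfl, hxu, hyt⟩
    · exact h u h3 hl
    · exact h2 u (h3.trans (List.suffix_append _ _).isInfix) hl
    · apply h2 _ _ hl
      have hy' := List.length_pos_iff.2 hy
      simp only [List.length_append] at hl
      have hxb : x <:+ b := List.suffix_of_suffix_length_le hxu (List.suffix_append _ _) (by omega)
      obtain ⟨x', hx'⟩ := hxb
      obtain ⟨y', hy'⟩ := hyt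
      exact ⟨x', y', by rw [← hx', ← hy']; simp⟩

/-- constant -/
def CF (τ : ℕ) : ℕ := (4 * τ) ^ τ

theorem card_nonfresh {τ : ℕ} (hτ : 2 ≤ τ) (hr : τ * C1 τ + 1 ≤ r) {n : ℕ}
    (S : Finset (Fin r)) (hS : S.card ≤ τ) :
    r * ((GW τ r n).filter (fun w => ¬ ((axs (w.take τ)).Nodup ∧
      ∀ i ∈ axs (w.take τ), i ∉ S))).card ≤ CF τ * ga τ r n := by
  have hr0 : 0 < r := by omega
  rcases Nat.eq_zero_or_pos n with h0 | hn
  · subst h0
    have : ((GW τ r 0).filter (fun w => ¬ ((axs (w.take τ)).Nodup ∧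
      ∀ i ∈ axs (w.take τ), i ∉ S))) = ∅ := by
      rw [Finset.filter_eq_empty_iff]
      intro w hw
      rw [mem_GW, List.length_eq_zero_iff] at hw
      rw [hw.1]; simp
    rw [this]; simp
  obtain ⟨t, ht⟩ : ∃ t, t = min n τ := ⟨_, rfl⟩
  have ht1 : 1 ≤ t := by omega
  have htn : t ≤ n := by omega
  have htτ : t ≤ τ := by omega
  set Z : Finset (List (Ltr (Fin r))) := (words r t).filter (fun w => ∃ Y : Finset (Fin r),
    Y.card ≤ t - 1 ∧ ∀ i ∈ axs w, i ∈ S ∨ i ∈ Y) with hZ
  have hZc : Z.card ≤ r ^ (t - 1) * CF τ := by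
    refine (card_axes_le hr0 S (t - 1) t).trans ?_
    apply Nat.mul_le_mul_left
    unfold CF
    calc (2 * (S.card + (t - 1))) ^ t ≤ (4 * τ) ^ t := Nat.pow_le_pow_left (by omega) _
      _ ≤ (4 * τ) ^ τ := Nat.pow_le_pow_right (by omega) htτ
  have hsub : ((GW τ r n).filter (fun w => ¬ ((axs (w.take τ)).Nodup ∧
      ∀ i ∈ axs (w.take τ), i ∉ S))) ⊆ (Z ×ˢ GW τ r (n - t)).image (fun p => p.1 ++ p.2) := by
    intro w hw
    simp only [Finset.mem_filter, mem_GW] at hw
    obtain ⟨⟨hw1, hw2⟩, hw3⟩ := hw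
    have htake : w.take τ = w.take t := by
      rw [ht, ← hw1]
      rcases Nat.le_total w.length τ with h | h
      · rw [Nat.min_eq_left h, List.take_of_length_le h, List.take_length]
      · rw [Nat.min_eq_right h]
    rw [htake] at hw3
    have hlt : (w.take t).length = t := by simp; omega
    rw [Finset.mem_image]
    refine ⟨(w.take t, w.drop t), ?_, by simp⟩
    rw [Finset.mem_product]
    refine ⟨?_, mem_GW.2 ⟨by simp; omega, hw2.fac (List.drop_suffix _ _).isInfix⟩⟩
    simp only [hZ, Finset.mem_filter, mem_words]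
    refine ⟨hlt, ?_⟩
    by_cases hnd : (axs (w.take t)).Nodup
    · have h4 : ¬ ∀ i ∈ axs (w.take t), i ∉ S := fun h => hw3 ⟨hnd, h⟩
      push Not at h4
      obtain ⟨i, hi, hiS⟩ := h4
      refine ⟨(axs (w.take t)).toFinset.erase i, ?_, ?_⟩
      · rw [Finset.card_erase_of_mem (List.mem_toFinset.2 hi)]
        have := nax_le_length (w.take t)
        unfold nax at this
        omega
      · intro j hj
        by_cases hji : j = i
        · left; rw [hji]; exact hiS
        · right; rw [Finset.mem_erase]; exact ⟨hji, List.mem_toFinset.2 hj⟩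
    · refine ⟨(axs (w.take t)).toFinset, ?_, fun j hj => Or.inr (List.mem_toFinset.2 hj)⟩
      have := nax_lt_of_not_nodup hnd
      unfold nax at this
      omega
  have h1 := (Finset.card_le_card hsub).trans Finset.card_image_le
  rw [Finset.card_product] at h1
  have h2 := growth_pow hτ hr (n - t) t
  rw [show n - t + t = n by omega] at h2
  calc r * _ ≤ r * (Z.card * (GW τ r (n - t)).card) := Nat.mul_le_mul_left _ h1
    _ ≤ r * ((r ^ (t - 1) * CF τ) * (GW τ r (n - t)).card) := by gcongr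
    _ = CF τ * ((r ^ (t - 1) * r) * ga τ r (n - t)) := by unfold ga; ring
    _ = CF τ * (r ^ t * ga τ r (n - t)) := by
        rw [← pow_succ, show t - 1 + 1 = t by omega]
    _ ≤ CF τ * ga τ r n := Nat.mul_le_mul_left _ h2

theorem card_badcont {τ : ℕ} (hτ : 2 ≤ τ) (hr : τ * C1 τ + 1 ≤ r) {n : ℕ}
    {s : List (Ltr (Fin r))} (hs : Good τ s) :
    r * ((GW τ r n) \ (EW τ n s)).card ≤ CF τ * ga τ r n := by
  refine le_trans ?_ (card_nonfresh hτ hr (n := n) (axs (lastN τ s)).toFinset (by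
    refine (List.toFinset_card_le _).trans ?_
    rw [axs_length]; exact lastN_length _ _))
  apply Nat.mul_le_mul_left
  apply Finset.card_le_card
  intro w hw
  rw [Finset.mem_sdiff, mem_EW, mem_GW] at hw
  simp only [Finset.mem_filter, mem_GW]
  refine ⟨hw.1, fun h => hw.2 ⟨hw.1.1, ?_⟩⟩
  apply good_junction hs hw.1.2 h.1
  intro i hi hi'
  exact h.2 i hi (List.mem_toFinset.2 hi')

theorem ee_ge {τ : ℕ} (hτ : 2 ≤ τ) (hr : τ * C1 τ + 1 ≤ r) {n : ℕ}
    {s : List (Ltr (Fin r))} (hs : Good τ s) :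
    (1 - CF τ / (r : ℝ)) * aa τ r n ≤ ee τ n s := by
  have hr0 : (0 : ℝ) < r := by
    have : 0 < r := by omega
    exact_mod_cast this
  have h1 : ((r * ((GW τ r n) \ (EW τ n s)).card : ℕ) : ℝ) ≤ ((CF τ * ga τ r n : ℕ) : ℝ) := by
    exact_mod_cast card_badcont hτ hr (n := n) hs
  have h2 : ((GW τ r n) \ (EW τ n s)).card + (EW τ n s).card = (GW τ r n).card :=
    Finset.card_sdiff_add_card_eq_card (EW_sub τ n s)
  have h3 : (((GW τ r n) \ (EW τ n s)).card : ℝ) + ee τ n s = aa τ r n := by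
    unfold ee aa ga; exact_mod_cast h2
  push_cast at h1
  have h4 : (((GW τ r n) \ (EW τ n s)).card : ℝ) ≤ CF τ / (r : ℝ) * aa τ r n := by
    rw [div_mul_eq_mul_div, le_div_iff₀ hr0, mul_comm]
    exact h1
  linarith

/-- invariant -/
def Inv (τ r n : ℕ) (lo hi : ℝ) : Prop := ∀ s : List (Ltr (Fin r)), Good τ s →
  lo * ee τ n s ≤ ee τ (n + 1) s ∧ ee τ (n + 1) s ≤ hi * ee τ n s

theorem Inv.mono {τ r n : ℕ} {lo hi : ℝ} (h : Inv τ r n lo hi) (j : ℕ) :
    Inv τ r (j + n) lo hi := by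
  intro s hs
  rw [ee_add, show j + n + 1 = j + (n + 1) by ring, ee_add, Finset.mul_sum, Finset.mul_sum]
  constructor
  · apply Finset.sum_le_sum
    intro b hb
    exact (h _ (mem_EW.1 hb).2).1
  · apply Finset.sum_le_sum
    intro b hb
    exact (h _ (mem_EW.1 hb).2).2

theorem Inv.init {τ r : ℕ} (n : ℕ) : Inv τ r n 0 (2 * r) := by
  intro s hs
  refine ⟨by rw [zero_mul]; exact ee_nonneg _ _ _, ?_⟩
  rw [ee_add]
  have h1 : ∀ b ∈ EW τ n s, ee τ 1 (s ++ b) ≤ 2 * r := by
    intro b _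
    unfold ee
    have : (EW τ 1 (s ++ b)).card ≤ 2 * r := by
      refine (Finset.card_filter_le _ _).trans ?_
      rw [card_words, pow_one]
    exact_mod_cast this
  refine (Finset.sum_le_sum h1).trans ?_
  rw [Finset.sum_const, nsmul_eq_mul, mul_comm]
  rfl

theorem contraction_step {τ : ℕ} (hτ : 2 ≤ τ) {r : ℕ} (hr : 2 * τ ^ 2 * C1 τ + 1 ≤ r)
    (hr2 : 2 * CF τ ≤ r) {n : ℕ} {lo hi : ℝ} (h : Inv τ r n lo hi) :
    ∃ lo' hi', Inv τ r (τ + n) lo' hi' ∧ hi' - lo' ≤ 6 * CF τ / r * (hi - lo) := by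
  have hr0 : 0 < r := by omega
  have hrR : (0 : ℝ) < r := by exact_mod_cast hr0
  have hr1 : τ * C1 τ + 1 ≤ r := by nlinarith [Nat.zero_le (C1 τ), Nat.zero_le (τ * C1 τ)]
  obtain ⟨q, hq⟩ : ∃ q : ℝ, q = CF τ / (r : ℝ) := ⟨_, rfl⟩
  have hq0 : 0 ≤ q := by rw [hq]; positivity
  have hq1 : q ≤ 1 / 2 := by
    rw [hq, div_le_iff₀ hrR]
    have : ((2 * CF τ : ℕ) : ℝ) ≤ (r : ℝ) := by exact_mod_cast hr2
    push_cast at this
    linarith
  have hpos : ∀ n, 0 < aa τ r n := by
    intro n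
    have h1 := growth_pow hτ hr1 0 n
    rw [ga_zero, mul_one, zero_add] at h1
    have h2 : 0 < r ^ n := by positivity
    unfold aa
    exact_mod_cast h2.trans_le h1
  have hlh : lo ≤ hi := by
    have h1 := h [] good_nil
    rw [ee_nil] at h1
    have h2 := h1.1.trans h1.2
    exact le_of_mul_le_mul_right h2 (hpos n)
  obtain ⟨A, hA⟩ : ∃ A : ℝ, A = aa τ r (τ + n) := ⟨_, rfl⟩
  have hA0 : 0 < A := by rw [hA]; exact hpos _
  have hsuper : aa τ r τ * aa τ r n ≤ 2 * A := by
    rw [hA]; unfold aa; exact_mod_cast supermult hτ hr τ n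
  -- the excess
  let g : List (Ltr (Fin r)) → ℝ := fun b => ee τ (n + 1) b - lo * ee τ n b
  have hg0 : ∀ b ∈ GW τ r τ, 0 ≤ g b := by
    intro b hb
    have := (h b (mem_GW.1 hb).2).1
    simp only [g]; linarith
  have hg1 : ∀ b ∈ GW τ r τ, g b ≤ (hi - lo) * aa τ r n := by
    intro b hb
    have h1 := (h b (mem_GW.1 hb).2).2
    have h2 := ee_le τ n b
    have h3 : g b ≤ (hi - lo) * ee τ n b := by simp only [g]; linarith
    exact h3.trans (mul_le_mul_of_nonneg_left h2 (by linarith))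
  obtain ⟨G, hG⟩ : ∃ G : ℝ, G = ∑ b ∈ GW τ r τ, g b := ⟨_, rfl⟩
  have hG0 : 0 ≤ G := by rw [hG]; exact Finset.sum_nonneg hg0
  have hG1 : G ≤ (hi - lo) * (2 * A) := by
    rw [hG]
    refine (Finset.sum_le_sum hg1).trans ?_
    rw [Finset.sum_const, nsmul_eq_mul]
    have : ((GW τ r τ).card : ℝ) = aa τ r τ := rfl
    rw [this]
    calc aa τ r τ * ((hi - lo) * aa τ r n) = (hi - lo) * (aa τ r τ * aa τ r n) := by ring
      _ ≤ _ := mul_le_mul_of_nonneg_left hsuper (by linarith)
  refine ⟨lo + (G / A - 2 * q * (hi - lo)), lo + G / ((1 - q) * A), ?_, ?_⟩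
  · intro s hs
    have e1 : ee τ (τ + n + 1) s - lo * ee τ (τ + n) s = ∑ b ∈ EW τ τ s, g b := by
      rw [show τ + n + 1 = τ + (n + 1) by ring, ee_add, ee_add, Finset.mul_sum,
        ← Finset.sum_sub_distrib]
      apply Finset.sum_congr rfl
      intro b hb
      rw [mem_EW] at hb
      rw [ee_screen hb.1.ge hb.2, ee_screen hb.1.ge hb.2]
    have e2 : ∑ b ∈ EW τ τ s, g b ≤ G := by
      rw [hG]
      apply Finset.sum_le_sum_of_subset_of_nonneg (EW_sub τ τ s)
      intro b hb _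
      exact hg0 b hb
    have e3 : G - q * ((hi - lo) * (2 * A)) ≤ ∑ b ∈ EW τ τ s, g b := by
      have f1 : G = ∑ b ∈ GW τ r τ \ EW τ τ s, g b + ∑ b ∈ EW τ τ s, g b := by
        rw [hG]; exact (Finset.sum_sdiff (EW_sub τ τ s)).symm
      have f2 : ∑ b ∈ GW τ r τ \ EW τ τ s, g b ≤ q * ((hi - lo) * (2 * A)) := by
        refine (Finset.sum_le_sum (fun b hb => hg1 b (Finset.mem_sdiff.1 hb).1)).trans ?_
        rw [Finset.sum_const, nsmul_eq_mul]
        have f3 : ((r * (GW τ r τ \ EW τ τ s).card : ℕ) : ℝ) ≤ ((CF τ * ga τ r τ : ℕ) : ℝ) := by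
          exact_mod_cast card_badcont hτ hr1 (n := τ) hs
        push_cast at f3
        have f4 : ((GW τ r τ \ EW τ τ s).card : ℝ) ≤ q * aa τ r τ := by
          rw [hq, div_mul_eq_mul_div, le_div_iff₀ hrR, mul_comm]
          exact f3
        have f5 : 0 ≤ (hi - lo) * aa τ r n := mul_nonneg (by linarith) (hpos n).le
        calc _ ≤ (q * aa τ r τ) * ((hi - lo) * aa τ r n) := mul_le_mul_of_nonneg_right f4 f5
          _ = q * (hi - lo) * (aa τ r τ * aa τ r n) := by ring
          _ ≤ q * (hi - lo) * (2 * A) := by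
              apply mul_le_mul_of_nonneg_left hsuper
              exact mul_nonneg hq0 (by linarith)
          _ = _ := by ring
      linarith
    have e4 : ee τ (τ + n) s ≤ A := by rw [hA]; exact ee_le _ _ _
    have e5 : (1 - q) * A ≤ ee τ (τ + n) s := by rw [hA, hq]; exact ee_ge hτ hr1 hs
    have e6 : 0 ≤ ∑ b ∈ EW τ τ s, g b :=
      Finset.sum_nonneg fun b hb => hg0 b (EW_sub τ τ s hb)
    have e7 : 0 < (1 - q) * A := by
      apply mul_pos _ hA0
      linarith
    constructor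
    · -- lower
      have k1 : (G / A - 2 * q * (hi - lo)) * ee τ (τ + n) s ≤ ∑ b ∈ EW τ τ s, g b := by
        by_cases k : 0 ≤ G / A - 2 * q * (hi - lo)
        · calc _ ≤ (G / A - 2 * q * (hi - lo)) * A := mul_le_mul_of_nonneg_left e4 k
            _ = G - q * ((hi - lo) * (2 * A)) := by field_simp
            _ ≤ _ := e3
        · push Not at k
          exact (mul_nonpos_of_nonpos_of_nonneg k.le (e7.le.trans e5)).trans e6
      linarith
    · have k1 : ∑ b ∈ EW τ τ s, g b ≤ G / ((1 - q) * A) * ee τ (τ + n) s := by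
        refine e2.trans ?_
        rw [div_mul_eq_mul_div, le_div_iff₀ e7]
        exact mul_le_mul_of_nonneg_left e5 hG0
      linarith
  · -- length
    have k1 : G / ((1 - q) * A) ≤ G / A + 2 * q * (G / A) := by
      rw [div_le_iff₀ (by apply mul_pos _ hA0; linarith)]
      have k2 : (G / A + 2 * q * (G / A)) * ((1 - q) * A) = G * ((1 + 2 * q) * (1 - q)) := by
        field_simp
      rw [k2]
      have k3 : 1 ≤ (1 + 2 * q) * (1 - q) := by nlinarith
      nlinarith
    have k4 : G / A ≤ 2 * (hi - lo) := by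
      rw [div_le_iff₀ hA0]; linarith
    have k5 : 2 * q * (G / A) ≤ 2 * q * (2 * (hi - lo)) :=
      mul_le_mul_of_nonneg_left k4 (by linarith)
    have k6 : 6 * (CF τ : ℝ) / r * (hi - lo) = 6 * q * (hi - lo) := by rw [hq]; ring
    rw [k6]
    linarith

theorem contraction {τ : ℕ} (hτ : 2 ≤ τ) {r : ℕ} (hr : 2 * τ ^ 2 * C1 τ + 1 ≤ r)
    (hr2 : 2 * CF τ ≤ r) (k : ℕ) :
    ∃ lo hi, Inv τ r (τ * k) lo hi ∧ hi - lo ≤ (6 * CF τ / r) ^ k * (2 * r) := by
  induction k with
  | zero => exact ⟨0, 2 * r, Inv.init _, by simp⟩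
  | succ k ih =>
    obtain ⟨lo, hi, h1, h2⟩ := ih
    obtain ⟨lo', hi', h3, h4⟩ := contraction_step hτ hr hr2 h1
    refine ⟨lo', hi', by rw [show τ * (k + 1) = τ + τ * k by ring]; exact h3, h4.trans ?_⟩
    rw [pow_succ, mul_comm ((6 * (CF τ : ℝ) / r) ^ k), mul_assoc]
    apply mul_le_mul_of_nonneg_left h2
    positivity

end Pool.Agent.Helper524_FM
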