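import Pool.Agent.Helper524_FM.Min

/-!
# Counting words with few axes
-/

set_option linter.unusedSectionVars false
set_option linter.unusedSimpArgs false

namespace Pool.Agent.Helper524_FM

open scoped Classical

/-- all words of length `n` -/
noncomputable def words (r n : ℕ) : Finset (List (Ltr (Fin r))) :=
  (List.finite_length_eq (Ltr (Fin r)) n).toFinset

@[simp] theorem mem_words {r n : ℕ} {w : List (Ltr (Fin r))} : w ∈ words r n ↔ w.length = n := by
  simp [words]

theorem card_words (r n : ℕ) : (words r n).card = (2 * r) ^ n := by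
  have h : (words r n) = (Finset.univ : Finset (Fin n → Ltr (Fin r))).image List.ofFn := by
    ext w
    simp only [mem_words, Finset.mem_image, Finset.mem_univ, true_and]
    constructor
    · rintro rfl
      exact ⟨w.get, List.ofFn_get w⟩
    · rintro ⟨f, rfl⟩
      simp
  rw [h, Finset.card_image_of_injective _ List.ofFn_injective]
  simp [Fintype.card_prod, mul_comm]

theorem exists_cover {r k : ℕ} (hr : 0 < r) (Y : Finset (Fin r)) (hY : Y.card ≤ k) :
    ∃ ι : Fin k → Fin r, ∀ y ∈ Y, ∃ j, ι j = y := by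
  refine ⟨fun j => if h : j.val < Y.card then (Y.equivFin.symm ⟨j.val, h⟩ : Fin r) else ⟨0, hr⟩, ?_⟩
  intro y hy
  have h1 : (Y.equivFin ⟨y, hy⟩).val < k := lt_of_lt_of_le (Y.equivFin ⟨y, hy⟩).isLt hY
  refine ⟨⟨(Y.equivFin ⟨y, hy⟩).val, h1⟩, ?_⟩
  simp

/-- words all of whose axes lie in a fixed set up to `k` exceptions -/
theorem card_axes_le {r : ℕ} (hr : 0 < r) (Z : Finset (Fin r)) (k n : ℕ) :
    ((words r n).filter (fun w => ∃ Y : Finset (Fin r), Y.card ≤ k ∧
      ∀ i ∈ axs w, i ∈ Z ∨ i ∈ Y)).card ≤ r ^ k * (2 * (Z.card + k)) ^ n := by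
  let F : (Fin k → Fin r) × (Fin n → (Z ⊕ Fin k) × Bool) → List (Ltr (Fin r)) := fun p =>
    List.ofFn (fun t => ((Sum.elim (fun z : Z => (z : Fin r)) p.1 (p.2 t).1), (p.2 t).2))
  have hsub : (words r n).filter (fun w => ∃ Y : Finset (Fin r), Y.card ≤ k ∧
      ∀ i ∈ axs w, i ∈ Z ∨ i ∈ Y) ⊆ Finset.univ.image F := by
    intro w hw
    simp only [Finset.mem_filter, mem_words] at hw
    obtain ⟨rfl, Y, hY, hax⟩ := hw
    obtain ⟨ι, hι⟩ := exists_cover hr Y hY
    have hch : ∀ t : Fin w.length, ∃ s : Z ⊕ Fin k,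
        Sum.elim (fun z : Z => (z : Fin r)) ι s = (w.get t).1 := by
      intro t
      have hmem : (w.get t).1 ∈ axs w := List.mem_map.2 ⟨w.get t, List.get_mem w t, rfl⟩
      rcases hax _ hmem with h | h
      · exact ⟨Sum.inl ⟨_, h⟩, rfl⟩
      · obtain ⟨j, hj⟩ := hι _ h
        exact ⟨Sum.inr j, hj⟩
    choose s hs using hch
    rw [Finset.mem_image]
    refine ⟨(ι, fun t => (s t, (w.get t).2)), Finset.mem_univ _, ?_⟩
    simp only [F]
    have : (fun t : Fin w.length => (Sum.elim (fun z : Z => (z : Fin r)) ι (s t), (w.get t).2)) =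
        w.get := by
      funext t
      rw [hs t]
    rw [this, List.ofFn_get]
  refine (Finset.card_le_card hsub).trans (Finset.card_image_le.trans ?_)
  simp only [Finset.card_univ, Fintype.card_prod, Fintype.card_fun, Fintype.card_fin,
    Fintype.card_sum, Fintype.card_coe, Fintype.card_bool]
  rw [mul_comm 2]

/-- words with few axes -/
theorem card_nax_le {r : ℕ} (hr : 0 < r) (k n : ℕ) :
    ((words r n).filter (fun w => nax w ≤ k)).card ≤ r ^ k * (2 * k) ^ n := by
  have h := card_axes_le hr ∅ k n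
  simp only [Finset.card_empty, zero_add] at h
  refine (Finset.card_le_card ?_).trans h
  intro w hw
  simp only [Finset.mem_filter, mem_words] at hw ⊢
  refine ⟨hw.1, (axs w).toFinset, hw.2, fun i hi => Or.inr (List.mem_toFinset.2 hi)⟩

/-- words with a prescribed endpoint -/
theorem card_pos_le {r : ℕ} (hr : 0 < r) (n : ℕ) (z : Fin r → ℤ) :
    ((words r n).filter (fun w => pos w = z)).card ≤ r ^ (n / 2) * (4 * n) ^ n := by
  rcases ((words r n).filter (fun w => pos w = z)).eq_empty_or_nonempty with h | ⟨u0, hu0⟩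
  · rw [h]; simp
  · simp only [Finset.mem_filter, mem_words] at hu0
    set Z : Finset (Fin r) := Finset.univ.filter (fun i => z i ≠ 0) with hZ
    have hZc : Z.card ≤ n := by
      have h1 : Z ⊆ (axs u0).toFinset := by
        intro i hi
        simp only [hZ, Finset.mem_filter, Finset.mem_univ, true_and] at hi
        rw [List.mem_toFinset]
        by_contra hni
        exact hi (by rw [← hu0.2]; exact pos_level hni)
      exact (Finset.card_le_card h1).trans ((nax_le_length u0).trans hu0.1.le)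
    have h := card_axes_le hr Z (n / 2) n
    refine (Finset.card_le_card ?_).trans (h.trans ?_)
    · intro w hw
      simp only [Finset.mem_filter, mem_words] at hw ⊢
      refine ⟨hw.1, (axs w).toFinset.filter (fun i => z i = 0), ?_, ?_⟩
      · have h1 : ∀ i ∈ (axs w).toFinset.filter (fun i => z i = 0), 2 ≤ (axs w).count i := by
          intro i hi
          simp only [Finset.mem_filter, List.mem_toFinset] at hi
          have h2 : 0 < (axs w).count i := List.count_pos_iff.2 hi.1
          have h3 := parity_count w i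
          rw [hw.2, hi.2] at h3
          omega
        have h2 := Finset.sum_le_sum h1
        rw [Finset.sum_const, smul_eq_mul] at h2
        have h3 := sum_count_le ((axs w).toFinset.filter (fun i => z i = 0)) (axs w)
        rw [axs_length, hw.1] at h3
        omega
      · intro i hi
        by_cases hz : z i = 0
        · right; simp [hi, hz]
        · left; simp [hZ, hz]
    · exact Nat.mul_le_mul_left _ (Nat.pow_le_pow_left (by omega) n)

/-- no cancelling factor -/
def Red {r : ℕ} (w : List (Ltr (Fin r))) : Prop := ∀ l, ¬ [l, inv l] <:+: w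

theorem MinForb.cross' {r : ℕ} {φ v : List (Ltr (Fin r))} (hφ : MinForb φ) (hr : Red φ)
    (hv : IsMin v) (h : flow 0 v = flow 0 φ) (i : Fin r) :
    (axs φ).count i + (axs v).count i ≠ 2 := by
  intro hi
  have hcase : ((axs φ).count i = 1 ∧ (axs v).count i = 1) ∨
      ((axs φ).count i = 2 ∧ (axs v).count i = 0) ∨
      ((axs v).count i = 2 ∧ (axs φ).count i = 0) := by omega
  rcases hcase with ⟨h1, h2⟩ | ⟨h1, h2⟩ | ⟨h1, h2⟩
  · obtain ⟨w1, l, w2, v1, v2, rfl, rfl, -, -, -, -, -, hf1, hf2⟩ := two_cross_one h.symm h1 h2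
    have e1 : w1 = v1 := isMin_unique (hφ.proper w1 ⟨[], l :: w2, by simp⟩ (by simp))
      (isMin_infix ⟨[], l :: v2, by simp⟩ hv) hf1
    have e2 : w2 = v2 := isMin_unique
      (hφ.proper w2 ⟨w1 ++ [l], [], by simp⟩ (by simp; omega))
      (isMin_infix ⟨v1 ++ [l], [], by simp⟩ hv) hf2
    subst e1 e2
    exact hφ.not_min hv
  · obtain ⟨w1, l, q, w2, rfl, -, hq⟩ := two_cross_two h.symm h1 h2
    have e1 : q = [] := eq_nil_of_isMin
      (hφ.proper q ⟨w1 ++ [l], inv l :: w2, by simp⟩ (by simp; omega)) hq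
    subst e1
    exact hr l ⟨w1, w2, by simp⟩
  · obtain ⟨w1, l, q, w2, rfl, -, hq⟩ := two_cross_two h h1 h2
    have e1 : q = [] := eq_nil_of_isMin (isMin_infix ⟨w1 ++ [l], inv l :: w2, by simp⟩ hv) hq
    subst e1
    exact not_isMin_cancel l (isMin_infix ⟨w1, w2, by simp⟩ hv)

theorem MinForb.two_nax_le_red {r : ℕ} {φ : List (Ltr (Fin r))} (hφ : MinForb φ)
    (hr : Red φ) : 2 * nax φ ≤ φ.length := by
  obtain ⟨v, hv, hm⟩ := exists_isMin φ
  have h1 := four_nax_le (w := φ) (v := v) (hφ.cross' hr hm hv) hv.symm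
  have h2 := isMin_length hm hv.symm
  omega

/-- A minimal forbidden word is reduced or is a cancelling pair. -/
theorem MinForb.red_or {r : ℕ} {φ : List (Ltr (Fin r))} (hφ : MinForb φ) :
    Red φ ∨ ∃ l, φ = [l, inv l] := by
  by_cases h : Red φ
  · exact Or.inl h
  · right
    unfold Red at h
    push Not at h
    obtain ⟨l, hl⟩ := h
    refine ⟨l, ?_⟩
    rcases Nat.lt_or_ge 2 φ.length with h1 | h1
    · exact absurd (hφ.proper _ hl (by simpa using h1)) (not_isMin_cancel l)
    · exact (hl.eq_of_length (le_antisymm hl.length_le (by simpa using h1))).symm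

theorem MinForb.two_nax_le' {r : ℕ} {φ : List (Ltr (Fin r))} (hφ : MinForb φ) :
    2 * nax φ ≤ φ.length := by
  rcases hφ.red_or with h | ⟨l, rfl⟩
  · exact hφ.two_nax_le_red h
  · simp [nax]

theorem nax_pos {r : ℕ} {φ : List (Ltr (Fin r))} (h : φ ≠ []) : 0 < nax φ := by
  unfold nax
  rw [Finset.card_pos]
  cases φ with
  | nil => exact absurd rfl h
  | cons l _ => exact ⟨l.1, by simp⟩

theorem MinForb.two_le {r : ℕ} {φ : List (Ltr (Fin r))} (hφ : MinForb φ) : 2 ≤ φ.length := by
  have h0 : φ ≠ [] := by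
    rintro rfl
    exact hφ.not_min isMin_nil
  have := nax_pos h0
  have := hφ.two_nax_le'
  omega

/-- every word that is not good contains a minimal forbidden word of length at most `τ` -/
theorem exists_minForb {r τ : ℕ} {w : List (Ltr (Fin r))} (h : ¬ Good τ w) :
    ∃ φ, φ <:+: w ∧ φ.length ≤ τ ∧ MinForb φ := by
  have hex : ∃ n, ∃ u : List (Ltr (Fin r)), u <:+: w ∧ u.length ≤ τ ∧ ¬ IsMin u ∧ u.length = n := by
    unfold Good at h
    push Not at h
    obtain ⟨u, h1, h2, h3⟩ := h
    exact ⟨u.length, u, h1, h2, h3, rfl⟩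
  obtain ⟨u, h1, h2, h3, h4⟩ := Nat.find_spec hex
  refine ⟨u, h1, h2, h3, fun v hv hlt => ?_⟩
  by_contra hnm
  have := Nat.find_min' hex ⟨v, hv.trans h1, by omega, hnm, rfl⟩
  omega

/-- the minimal forbidden words of length `ℓ` -/
noncomputable def MF (r ℓ : ℕ) : Finset (List (Ltr (Fin r))) := (words r ℓ).filter MinForb

/-- the reduced minimal forbidden words of length `ℓ` -/
noncomputable def MFR (r ℓ : ℕ) : Finset (List (Ltr (Fin r))) :=
  (words r ℓ).filter (fun φ => MinForb φ ∧ Red φ)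

theorem card_MF_le {r : ℕ} (hr : 0 < r) (ℓ : ℕ) : (MF r ℓ).card ≤ r ^ (ℓ / 2) * (2 * ℓ) ^ ℓ := by
  refine (Finset.card_le_card ?_).trans ((card_nax_le hr (ℓ / 2) ℓ).trans ?_)
  · intro φ hφ
    simp only [MF, Finset.mem_filter, mem_words] at hφ ⊢
    refine ⟨hφ.1, ?_⟩
    have := hφ.2.two_nax_le'
    omega
  · gcongr
    omega

theorem MFR_subset_MF (r ℓ : ℕ) : MFR r ℓ ⊆ MF r ℓ := by
  intro φ hφ
  simp only [MF, MFR, Finset.mem_filter, mem_words] at hφ ⊢
  exact ⟨hφ.1, hφ.2.1⟩

end Pool.Agent.Helper524_FM
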