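import Mathlib

/-!
# A transfer matrix for flows in a slab: the computable part
-/

namespace Pool.Agent.Helper524_FM.DP

/-- states of the slab automaton -/
structure SSt where
  v : List ℕ
  lb : List ℕ
  st : ℕ
  en : ℕ
  cs : List ℕ
  deriving DecidableEq

/-- offset of the vertical flows -/
def off : ℕ := 4

/-- distance of natural numbers -/
def dst (p q : ℕ) : ℕ := (p - q) + (q - p)

/-- absolute values of the horizontal flows to the right of the successive columns -/
def scan : ℕ → ℕ → List ℕ → List ℕ → List ℕ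
  | p, q, v :: vs, w :: ws => dst (p + v) (q + w) :: scan (p + v) (q + w) vs ws
  | _, _, _, _ => []

def lsum : List ℕ → ℕ
  | [] => 0
  | a :: l => a + lsum l

/-- cost of the vertical flows -/
def vcost : List ℕ → ℕ
  | [] => 0
  | w :: ws => dst w off + vcost ws

/-- initial labels of the vertices of a row -/
def init : ℕ → List ℕ → List ℕ → List ℕ
  | j, v :: vs, l :: ls => (if Nat.beq v off then j else l) :: init (j + 1) vs ls
  | _, _, _ => []

def gt : List ℕ → ℕ → ℕ
  | [], _ => 0
  | a :: _, 0 => a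
  | _ :: l, n + 1 => gt l n

/-- replace the label `y` by `x` -/
def relab (x y : ℕ) : List ℕ → List ℕ
  | [] => []
  | n :: N => (if Nat.beq n y then x else n) :: relab x y N

/-- merge neighbours joined by horizontal flows -/
def mergeAll : List ℕ → List ℕ → ℕ → List ℕ → List ℕ
  | _ :: cs, d :: D, j, N =>
    if Nat.beq d 0 then mergeAll cs D (j + 1) N
    else mergeAll cs D (j + 1) (relab (gt N j) (gt N (j + 1)) N)
  | _, _, _, N => N

/-- first column with upward flow and label `n`; `0` if there is none -/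
def first : ℕ → ℕ → List ℕ → List ℕ → ℕ
  | n, j, w :: ws, m :: N => if Nat.beq w off then first n (j + 1) ws N
      else if Nat.beq m n then j else first n (j + 1) ws N
  | _, _, _, _ => 0

/-- new labels -/
def newl (ws N : List ℕ) : List ℕ → List ℕ → List ℕ
  | w :: ws', m :: N' => (if Nat.beq w off then 0 else first m 1 ws N) :: newl ws N ws' N'
  | _, _ => []

/-- every vertex with a lower or a left edge is joined to an upward edge -/
def cover (ws N : List ℕ) : ℕ → List ℕ → List ℕ → List ℕ → Bool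
  | d, v :: vs, d' :: D, m :: N' =>
    (if Nat.beq v off && Nat.beq d 0 then true else !(Nat.beq (first m 1 ws N) 0)) &&
      cover ws N d' vs D N'
  | _, _, _, _ => true

/-- all vertices with a lower or a left edge have the same label `n` -/
def same (n : ℕ) : ℕ → List ℕ → List ℕ → List ℕ → Bool
  | d, v :: vs, d' :: D, m :: N' =>
    (if Nat.beq v off && Nat.beq d 0 then true else Nat.beq m n) && same n d' vs D N'
  | _, _, _, _ => true

/-- update of the crossing numbers -/
def newc : List ℕ → List ℕ → List ℕ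
  | c :: cs, d :: D => (if Nat.ble 2 (c + d) then 2 else c + d) :: newc cs D
  | _, _ => []

def sumc : List ℕ → List ℕ → ℕ
  | _ :: cs, d :: D => d + sumc cs D
  | _, _ => 0

def all2 : List ℕ → Bool
  | [] => true
  | c :: cs => Nat.ble 2 c && all2 cs

def allOff : List ℕ → Bool
  | [] => true
  | w :: ws => Nat.beq w off && allOff ws

def anySame (a : ℕ) (vs D N : List ℕ) : List ℕ → Bool
  | [] => false
  | n :: M => same n a vs D N || anySame a vs D N M

/-- labels of the vertices of a row -/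
def nodes (σ : SSt) (a : ℕ) (ws : List ℕ) : List ℕ :=
  mergeAll σ.cs (scan a 0 σ.v ws) 0 (init 100 σ.v σ.lb)

/-- cost of a row -/
def cost (σ : SSt) (a : ℕ) (ws : List ℕ) : ℕ :=
  a + sumc σ.cs (scan a 0 σ.v ws) + vcost ws

def okRow (σ : SSt) (a b : ℕ) (ws : List ℕ) : Bool :=
  Nat.beq (a + lsum σ.v) (b + lsum ws) && cover ws (nodes σ a ws) a σ.v (scan a 0 σ.v ws)
    (nodes σ a ws)

def okEnd (σ : SSt) (a b : ℕ) (ws : List ℕ) : Bool :=
  Nat.beq (a + lsum σ.v) (b + lsum ws) && Nat.beq (σ.st + a) 1 && Nat.beq (σ.en + b) 1 &&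
    all2 (newc σ.cs (scan a 0 σ.v ws)) &&
    anySame a σ.v (scan a 0 σ.v ws) (nodes σ a ws) (nodes σ a ws)

/-- the next state -/
def nxt (σ : SSt) (a b : ℕ) (ws : List ℕ) : SSt :=
  ⟨ws, newl ws (nodes σ a ws) ws (nodes σ a ws), σ.st + a, σ.en + b,
    newc σ.cs (scan a 0 σ.v ws)⟩

/-- digits -/
def encl : ℕ → List ℕ → ℕ
  | acc, [] => acc
  | acc, a :: l => encl (acc * 10 + a) l

def enc (σ : SSt) : ℕ := encl (encl (encl 0 σ.v * 10 + σ.st) σ.lb * 10 + σ.en) σ.cs

/-- the `n` lowest digits, in front of `acc` -/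
def decl : ℕ → ℕ → List ℕ → List ℕ
  | 0, _, acc => acc
  | n + 1, k, acc => decl n (k / 10) (k % 10 :: acc)

def dec (S k : ℕ) : SSt :=
  ⟨decl S (k / 10 ^ (2 * S + 1)) [], decl S (k / 10 ^ S) [], k / 10 ^ (2 * S) % 10,
    k / 10 ^ (S - 1) % 10, decl (S - 1) k []⟩

/-- search trees; the values are packed pairs -/
inductive Tr where
  | leaf : Tr
  | node : Tr → ℕ → ℕ → Tr → Tr

def Tr.look : Tr → ℕ → ℕ
  | .leaf, _ => 0
  | .node l k x r, n => if Nat.beq n k then x else if Nat.blt n k then l.look n else r.look n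

/-- parameters: vectors of vertical flows sorted by their sums, and powers of `z` -/
structure SPar where
  S : ℕ
  vm : List (List ℕ)
  v0 : List (List ℕ)
  v1 : List (List ℕ)
  num : ℕ
  den : ℕ
  sc : ℕ

/-- lower approximation of `sc * (num / den) ^ n` -/
def SPar.zl (P : SPar) (n : ℕ) : ℕ := P.sc * P.num ^ n / P.den ^ n

def SPar.vs (P : SPar) (i j : ℕ) : List (List ℕ) :=
  if Nat.beq i j then P.v0 else if Nat.beq i (j + 1) then P.v1 else if Nat.beq j (i + 1) then P.vm
    else []

/-- packed contribution -/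
def pk (c t : ℕ) : ℕ := c * (t % 2 ^ 64) + (c + 1) * (t / 2 ^ 64) * 2 ^ 128

/-- contribution of the rows with upward flows `ws` -/
def sumW (P : SPar) (T : Tr) (σ : SSt) (a b : ℕ) : List (List ℕ) → ℕ
  | [] => 0
  | ws :: W => (if okRow σ a b ws then pk (P.zl (cost σ a ws)) (T.look (enc (nxt σ a b ws))) else 0)
      + sumW P T σ a b W

def offs : ℕ → List ℕ
  | 0 => []
  | n + 1 => off :: offs n

def endW (P : SPar) (σ : SSt) (a b : ℕ) : ℕ :=
  if okEnd σ a b (offs P.S) then P.zl (cost σ a (offs P.S)) * P.sc else 0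

def tot1 (P : SPar) (T : Tr) (σ : SSt) (a b : ℕ) : ℕ :=
  if Nat.ble (σ.st + a) 1 && Nat.ble (σ.en + b) 1 then
    sumW P T σ a b (P.vs (σ.st + a) (σ.en + b)) + endW P σ a b else 0

def tot (P : SPar) (T : Tr) (σ : SSt) : ℕ :=
  tot1 P T σ 0 0 + tot1 P T σ 0 1 + tot1 P T σ 1 0 + tot1 P T σ 1 1

/-- the two inequalities at a state with packed value `x` -/
def chk1 (P : SPar) (x m : ℕ) : Bool :=
  Nat.ble (P.sc * (x % 2 ^ 64)) (m % 2 ^ 128) &&
    Nat.ble (1000 * (m / 2 ^ 128)) (999 * P.sc * (x / 2 ^ 64)) &&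
    Nat.ble (x % 2 ^ 64) (x / 2 ^ 64)

def chk (P : SPar) (T : Tr) : Tr → Bool
  | .leaf => true
  | .node l k x r => chk P T l && chk1 P x (tot P T (dec P.S k)) && chk P T r

theorem chk_node {P : SPar} {T l r : Tr} {k x : ℕ} (h1 : chk P T l = true)
    (h2 : chk1 P x (tot P T (dec P.S k)) = true) (h3 : chk P T r = true) :
    chk P T (Tr.node l k x r) = true := by
  simp only [chk, h1, h2, h3, Bool.and_self]

/-- admissible lists of vectors -/
def okV (S : ℕ) : List (List ℕ) → Bool
  | [] => true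
  | ws :: L => Nat.beq ws.length S && ws.all (fun x => Nat.blt x 10) &&
      ws.any (fun x => !(Nat.beq x off)) && okV S L

/-- strictly increasing codes -/
def incV : ℕ → List (List ℕ) → Bool
  | _, [] => true
  | n, ws :: L => Nat.blt n (encl 1 ws) && incV (encl 1 ws) L

/-- admissible parameters -/
def okP (P : SPar) : Bool :=
  Nat.ble 1 P.S && Nat.blt P.S 10 && okV P.S P.vm && okV P.S P.v0 && okV P.S P.v1 &&
    incV 0 P.vm && incV 0 P.v0 && incV 0 P.v1 && Nat.blt 0 P.den && Nat.ble P.num P.den &&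
    Nat.blt 0 P.sc

end Pool.Agent.Helper524_FM.DP
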