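import Pool.Agent.Helper524_FM.Count

/-!
# Local decoding of a word from its flow
-/

set_option linter.unusedSectionVars false
set_option linter.unusedSimpArgs false

namespace Pool.Agent.Helper524_FM

open scoped Classical

variable {r : ℕ}

/-- reachable in at most `D` steps -/
def Near (D : ℕ) (z : Fin r → ℤ) : Prop := ∃ u : List (Ltr (Fin r)), u.length ≤ D ∧ pos u = z

theorem Near.mono {D D' : ℕ} (h : D ≤ D') {z : Fin r → ℤ} (hz : Near D z) : Near D' z := by
  obtain ⟨u, hu, rfl⟩ := hz
  exact ⟨u, hu.trans h, rfl⟩

theorem near_pos (u : List (Ltr (Fin r))) : Near u.length (pos u) := ⟨u, le_rfl, rfl⟩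

theorem low_near (x : List (Ltr (Fin r))) (l : Ltr (Fin r)) :
    Near (x.length + 1) (low (pos x) l) := by
  unfold low
  split
  · exact (near_pos x).mono (by omega)
  · refine ⟨x ++ [l], by simp, by simp⟩

/-- the flow of a word is carried by its visited vertices -/
theorem flow_visited {x : Fin r → ℤ} {w : List (Ltr (Fin r))} {j : Fin r} {z : Fin r → ℤ}
    (h : flow x w (j, z) ≠ 0) : ∃ t ≤ w.length, z = x + pos (w.take t) := by
  induction w generalizing x with
  | nil => simp at h
  | cons l w ih =>
    rw [flow_cons, Finsupp.add_apply] at h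
    by_cases h1 : (Finsupp.single (l.1, low x l) (sgn l)) (j, z) = (0 : ℤ)
    · rw [h1, zero_add] at h
      obtain ⟨t, ht, rfl⟩ := ih h
      exact ⟨t + 1, by simpa using ht, by simp [add_assoc]⟩
    · rw [Finsupp.single_apply] at h1
      have h2 : (l.1, low x l) = (j, z) := by
        by_contra hne
        exact h1 (if_neg hne)
      have h3 : low x l = z := congrArg Prod.snd h2
      unfold low at h3
      split at h3
      · exact ⟨0, by simp, by simp [h3]⟩
      · exact ⟨1, by simp, by simp [← h3]⟩

theorem flow_near {w : List (Ltr (Fin r))} {j : Fin r} {z : Fin r → ℤ}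
    (h : flow 0 w (j, z) ≠ 0) : Near w.length z := by
  obtain ⟨t, ht, rfl⟩ := flow_visited h
  rw [zero_add]
  exact (near_pos _).mono (by simp)

/-- number of nonzero coordinates of the endpoint -/
theorem card_supp_le (u : List (Ltr (Fin r))) :
    (Finset.univ.filter (fun i => pos u i ≠ 0)).card ≤ u.length := by
  refine (Finset.card_le_card (t := (axs u).toFinset) ?_).trans (nax_le_length u)
  intro i hi
  simp only [Finset.mem_filter, Finset.mem_univ, true_and] at hi
  rw [List.mem_toFinset]
  by_contra hni
  exact hi (pos_level hni)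

theorem pos_ne_zero_of_count_one {u : List (Ltr (Fin r))} {i : Fin r}
    (h : (axs u).count i = 1) : pos u i ≠ 0 := by
  intro h0
  have := parity_count u i
  rw [h0, h] at this
  norm_num at this

/-- the axes used at least twice -/
noncomputable def multi (w : List (Ltr (Fin r))) : Finset (Fin r) :=
  (axs w).toFinset.filter (fun i => 2 ≤ (axs w).count i)

theorem card_multi_le {w : List (Ltr (Fin r))} {c : ℕ} (h : w.length ≤ nax w + c) :
    (multi w).card ≤ c := by
  have h1 : ∀ i ∈ (axs w).toFinset, 1 + (if i ∈ multi w then 1 else 0) ≤ (axs w).count i := by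
    intro i hi
    have h2 : 0 < (axs w).count i := List.count_pos_iff.2 (List.mem_toFinset.1 hi)
    split
    · rename_i h3
      simp only [multi, Finset.mem_filter] at h3
      omega
    · omega
  have h2 := Finset.sum_le_sum h1
  rw [Finset.sum_add_distrib, Finset.sum_const, smul_eq_mul, mul_one] at h2
  have h3 := sum_count_le (axs w).toFinset (axs w)
  rw [axs_length] at h3
  have h4 : ∑ i ∈ (axs w).toFinset, (if i ∈ multi w then 1 else 0) = (multi w).card := by
    rw [← Finset.sum_filter, Finset.sum_const, smul_eq_mul, mul_one]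
    congr 1
    ext i
    simp only [multi, Finset.mem_filter]
    tauto
  unfold nax at h
  omega

theorem nax_infix_le {u w : List (Ltr (Fin r))} (h : u <:+: w) : nax u ≤ nax w := by
  unfold nax
  apply Finset.card_le_card
  intro i hi
  rw [List.mem_toFinset] at hi ⊢
  obtain ⟨s, t, rfl⟩ := h
  simp [hi]

/-- **Local decoding.** The first letter of a word of low codimension with minimal short factors
is determined by the flow near the origin. -/
theorem head_unique {c τ D : ℕ} (hc : 2 * c ≤ τ) (hτ : 2 ≤ τ) (hD : 5 * c + 1 ≤ D)
    {p p' : List (Ltr (Fin r))} (hp : Good τ p) (hp' : Good τ p')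
    (cp : p.length ≤ nax p + c) (cp' : p'.length ≤ nax p' + c) (hl : 3 * c + 1 ≤ p.length)
    (h : ∀ j z, Near D z → flow 0 p (j, z) = flow 0 p' (j, z)) : p.head? = p'.head? := by
  set P := p.take (3 * c + 1) with hP
  have iP : P <:+: p := (List.take_prefix _ _).isInfix
  have hPl : P.length = 3 * c + 1 := by rw [hP, List.length_take]; omega
  have cP := codim_infix iP cp
  -- free axes of `p` among the first letters
  set I : Finset (Fin r) := (axs P).toFinset \ multi p with hI
  have hIc : c + 1 ≤ I.card := by
    have h1 : (axs P).toFinset.card - (multi p).card ≤ I.card := Finset.le_card_sdiff _ _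
    have h2 := card_multi_le cp
    unfold nax at cP
    omega
  have key1 : ∀ i ∈ I, ∃ p1 l p2, p = p1 ++ l :: p2 ∧ l.1 = i ∧ i ∉ axs p1 ∧ i ∉ axs p2 ∧
      p1.length ≤ 3 * c := by
    intro i hi
    simp only [hI, Finset.mem_sdiff, List.mem_toFinset] at hi
    have hip : i ∈ axs p := by
      obtain ⟨s, t, hst⟩ := iP
      rw [← hst]
      simp [hi.1]
    have hcnt : (axs p).count i = 1 := by
      have h1 : 0 < (axs p).count i := List.count_pos_iff.2 hip
      have h2 : ¬ 2 ≤ (axs p).count i := by
        intro h3
        exact hi.2 (by simp [multi, hip, h3])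
      omega
    obtain ⟨p1, l, p2, e, h1, h2, h3⟩ := exists_split_of_count_pos (i := i) (w := p) (by omega)
    refine ⟨p1, l, p2, e, h1, h2, not_mem_of_count (by omega), ?_⟩
    by_contra hlt
    rw [not_le] at hlt
    apply h2
    have : P <+: p1 := by
      rw [hP, e, List.take_append_of_le_length (by omega)]
      exact List.take_prefix _ _
    obtain ⟨t, ht⟩ := this
    rw [← ht]
    simp [hi.1]
  have key2 : ∀ i ∈ I, i ∈ axs p' := by
    intro i hi
    obtain ⟨p1, l, p2, e, h1, h2, h3, h4⟩ := key1 i hi
    by_contra hni
    have h5 := h i (low (pos p1) l) ((low_near p1 l).mono (by omega))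
    rw [flow_axis hni, e, flow_one_axis h1 h2 h3, if_pos rfl] at h5
    exact sgn_ne_zero l h5
  have key3 : ∃ i ∈ I, i ∉ multi p' := by
    by_contra hall
    push Not at hall
    have h1 := Finset.card_le_card (show I ⊆ multi p' from hall)
    have h2 := card_multi_le cp'
    omega
  obtain ⟨i, hi, him⟩ := key3
  obtain ⟨p1, l, p2, e, h1, h2, h3, h4⟩ := key1 i hi
  have hip' := key2 i hi
  have hcnt : (axs p').count i = 1 := by
    have h1 : 0 < (axs p').count i := List.count_pos_iff.2 hip'
    have h2 : ¬ 2 ≤ (axs p').count i := by
      intro h3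
      exact him (by simp [multi, hip', h3])
    omega
  obtain ⟨q1, l', q2, e', k1, k2, k3⟩ := exists_split_of_count_pos (i := i) (w := p') (by omega)
  have k3' : i ∉ axs q2 := not_mem_of_count (by omega)
  have h5 := h i (low (pos p1) l) ((low_near p1 l).mono (by omega))
  rw [e, flow_one_axis h1 h2 h3, if_pos rfl, e', flow_one_axis k1 k2 k3'] at h5
  split at h5
  swap
  · exact absurd h5 (sgn_ne_zero l)
  rename_i h6
  have hll : l = l' := ltr_ext (h1.trans k1.symm) h5
  subst hll
  have hpos : pos p1 = pos q1 := low_eq_of h6
  -- the length of `q1`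
  have hq1 : q1.length ≤ 5 * c := by
    have iq : q1 <:+: p' := ⟨[], l :: q2, by simp [e']⟩
    have cq := codim_infix iq cp'
    have h7 := card_multi_le cp'
    have h8 : (axs q1).toFinset \ multi p' ⊆ Finset.univ.filter (fun i => pos q1 i ≠ 0) := by
      intro a ha
      simp only [Finset.mem_sdiff, List.mem_toFinset] at ha
      simp only [Finset.mem_filter, Finset.mem_univ, true_and]
      apply pos_ne_zero_of_count_one
      have h9 : 0 < (axs q1).count a := List.count_pos_iff.2 ha.1
      have h10 : (axs q1).count a ≤ (axs p').count a := by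
        rw [e']; simp [List.count_append]
      have h11 : ¬ 2 ≤ (axs p').count a := by
        intro h12
        apply ha.2
        simp only [multi, Finset.mem_filter, List.mem_toFinset]
        exact ⟨List.count_pos_iff.1 (by omega), h12⟩
      omega
    have h9 := Finset.card_le_card h8
    have h10 : (axs q1).toFinset.card - (multi p').card ≤ ((axs q1).toFinset \ multi p').card :=
      Finset.le_card_sdiff _ _
    have h11 := card_supp_le p1
    rw [hpos] at h11
    unfold nax at cq
    omega
  have hflow : flow 0 p1 = flow 0 q1 := by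
    ext ⟨j, z⟩
    by_cases hj : j = i
    · subst hj; rw [flow_axis h2, flow_axis k2]
    · by_cases hz : z i = 0
      · by_cases hn : Near D z
        · rw [← flow_level_left h1 h2 h3 hj hz, ← e, h j z hn, e',
            flow_level_left k1 k2 k3' hj hz]
        · have a1 : flow 0 p1 (j, z) = 0 := by
            by_contra hne
            exact hn ((flow_near hne).mono (by omega))
          have a2 : flow 0 q1 (j, z) = 0 := by
            by_contra hne
            exact hn ((flow_near hne).mono (by omega))
          rw [a1, a2]
      · rw [flow_level h2 (by simpa using hz), flow_level k2 (by simpa using hz)]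
  have i1 : p1 <:+: p := ⟨[], l :: p2, by simp [e]⟩
  have i2 : q1 <:+: p' := ⟨[], l :: q2, by simp [e']⟩
  have := unique_of_good hc hτ (hp.fac i1) (hp'.fac i2) (codim_infix i1 cp)
    (codim_infix i2 cp') hflow
  rw [e, e', this]
  cases q1 <;> simp

/-- parameters of the decoding -/
structure Par where
  c : ℕ
  τ : ℕ
  D : ℕ
  K : ℕ
  hc : 2 * c ≤ τ
  hτ : 2 ≤ τ
  hD : 5 * c + 1 ≤ D
  hK : 3 * c + 1 ≤ K

/-- a decodable word -/
def OK (P : Par) (w : List (Ltr (Fin r))) : Prop :=
  P.K ≤ w.length ∧ Good P.τ (w.take P.K) ∧ (w.take P.K).length ≤ nax (w.take P.K) + P.c ∧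
    ∀ t, P.K ≤ t → t ≤ w.length → ¬ Near P.D (pos (w.take t))

theorem OK.flow_eq {P : Par} {w : List (Ltr (Fin r))} (h : OK P w) (j : Fin r) (z : Fin r → ℤ)
    (hz : Near P.D z) : flow 0 w (j, z) = flow 0 (w.take P.K) (j, z) := by
  conv_lhs => rw [← List.take_append_drop P.K w]
  rw [flow_append, Finsupp.add_apply]
  have : flow (0 + pos (w.take P.K)) (w.drop P.K) (j, z) = 0 := by
    by_contra hne
    obtain ⟨t, ht, hzt⟩ := flow_visited hne
    have h1 := h.1
    rw [List.length_drop] at ht
    apply h.2.2.2 (P.K + t) (by omega) (by omega)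
    rw [List.take_add, pos_append]
    rw [zero_add] at hzt
    rw [← hzt]; exact hz
  rw [this, add_zero]

/-- the decoder -/
noncomputable def dec (P : Par) (f : Fin r × (Fin r → ℤ) →₀ ℤ) : Option (Ltr (Fin r)) :=
  if h : ∃ p : List (Ltr (Fin r)), p.length = P.K ∧ Good P.τ p ∧ p.length ≤ nax p + P.c ∧
      ∀ j z, Near P.D z → f (j, z) = flow 0 p (j, z) then h.choose.head? else none

theorem OK.dec_eq {P : Par} {w : List (Ltr (Fin r))} (h : OK P w) :
    dec P (flow 0 w) = w.head? := by
  have hex : ∃ p : List (Ltr (Fin r)), p.length = P.K ∧ Good P.τ p ∧ p.length ≤ nax p + P.c ∧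
      ∀ j z, Near P.D z → flow 0 w (j, z) = flow 0 p (j, z) :=
    ⟨w.take P.K, by rw [List.length_take]; have := h.1; omega, h.2.1, h.2.2.1,
      fun j z hz => h.flow_eq j z hz⟩
  unfold dec
  rw [dif_pos hex]
  obtain ⟨h1, h2, h3, h4⟩ := hex.choose_spec
  have h5 : hex.choose.head? = (w.take P.K).head? := by
    apply head_unique P.hc P.hτ P.hD h2 h.2.1 h3 h.2.2.1 (by rw [h1]; exact P.hK)
    intro j z hz
    rw [← h4 j z hz, h.flow_eq j z hz]
  rw [h5]
  have hK := P.hK
  cases w with
  | nil => simp
  | cons l w =>
    obtain ⟨k, hk⟩ : ∃ k, P.K = k + 1 := ⟨P.K - 1, by omega⟩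
    rw [hk]; simp

/-- the side information -/
noncomputable def code (P : Par) : List (Ltr (Fin r)) → List (Option (Ltr (Fin r)))
  | [] => []
  | l :: w => (if OK P (l :: w) then none else some l) :: code P w

theorem code_length (P : Par) (w : List (Ltr (Fin r))) : (code P w).length = w.length := by
  induction w with
  | nil => rfl
  | cons l w ih => simp [code, ih]

/-- A word is determined by its flow and its side information. -/
theorem code_injective (P : Par) {w v : List (Ltr (Fin r))} (hf : flow 0 w = flow 0 v)
    (hc : code P w = code P v) : w = v := by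
  induction w generalizing v with
  | nil =>
    have := congrArg List.length hc
    rw [code_length, code_length] at this
    exact (List.length_eq_zero_iff.1 this.symm).symm
  | cons l w ih =>
    cases v with
    | nil =>
      have := congrArg List.length hc
      rw [code_length, code_length] at this
      simp at this
    | cons l' v =>
      simp only [code, List.cons.injEq] at hc
      have hll : l = l' := by
        by_cases h1 : OK P (l :: w)
        · by_cases h2 : OK P (l' :: v)
          · have e1 := h1.dec_eq
            rw [hf, h2.dec_eq] at e1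
            simpa using e1.symm
          · rw [if_pos h1, if_neg h2] at hc
            simp at hc
        · by_cases h2 : OK P (l' :: v)
          · rw [if_neg h1, if_pos h2] at hc
            simp at hc
          · rw [if_neg h1, if_neg h2] at hc
            simpa using hc.1
      subst hll
      rw [ih _ hc.2]
      rw [flow_cons, flow_cons] at hf
      exact (flow_eq_iff _ _ _).1 (add_left_cancel hf)

/-- number of undecodable times -/
noncomputable def bad (P : Par) (w : List (Ltr (Fin r))) : ℕ := (code P w).countP (·.isSome)

end Pool.Agent.Helper524_FM
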