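import Mathlib

/-!
# The free metabelian group of rank `r` and its sphere counts
-/

namespace Pool.Agent.Helper524_FM

/-- The free metabelian group `M_r = F_r / F_r''` of rank `r`: the quotient of the free group on
`Fin r` by its second derived subgroup (the second term of the derived series). -/
abbrev FM (r : ℕ) : Type := FreeGroup (Fin r) ⧸ derivedSeries (FreeGroup (Fin r)) 2

/-- The image in `M_r` of the letter `(i, true)` (which stands for `x_i`) or `(i, false)`
(which stands for the inverse of `x_i`). -/
def gen (r : ℕ) (l : Fin r × Bool) : FM r :=
  QuotientGroup.mk (if l.2 then FreeGroup.of l.1 else (FreeGroup.of l.1)⁻¹)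

/-- The element of `M_r` spelled by a word in the letters `x_i` and their inverses. -/
def ev (r : ℕ) (w : List (Fin r × Bool)) : FM r := (w.map (gen r)).prod

/-- The word length in `M_r` with respect to the images of the free generators and their
inverses: the least number of letters in a word representing `g`. -/
noncomputable def wlen (r : ℕ) (g : FM r) : ℕ :=
  sInf {n | ∃ w : List (Fin r × Bool), w.length = n ∧ ev r w = g}

/-- `f_r(n)`: the number of elements of `M_r` of word length exactly `n`. -/
noncomputable def sph (r n : ℕ) : ℕ := Nat.card {g : FM r // wlen r g = n}

end Pool.Agent.Helper524_FM
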