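import Pool.Agent.Helper524_FM.HW1

/-!
# Connected flows are realized by words of minimal length
-/

set_option linter.unusedSectionVars false
set_option linter.unusedSimpArgs false

namespace Pool.Agent.Helper524_FM

open scoped Classical

variable {r : ℕ}

/-- upper endpoint of an edge -/
def hi (e : Fin r × (Fin r → ℤ)) : Fin r → ℤ := e.2 + stp (e.1, true)

/-- net outflow of a chain at a point -/
noncomputable def dv (f : Ch r) (q : Fin r → ℤ) : ℤ :=
  ∑ i, (f (i, q) - f (i, q - stp (i, true)))

theorem dv_add (f g : Ch r) (q : Fin r → ℤ) : dv (f + g) q = dv f q + dv g q := by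
  unfold dv
  rw [← Finset.sum_add_distrib]
  apply Finset.sum_congr rfl
  intro i _
  simp only [Finsupp.add_apply]; ring

theorem dv_zero (q : Fin r → ℤ) : dv (0 : Ch r) q = 0 := by
  simp [dv]

theorem dv_sub (f g : Ch r) (q : Fin r → ℤ) : dv (f - g) q = dv f q - dv g q := by
  have := dv_add (f - g) g q
  rw [sub_add_cancel] at this
  linarith

theorem dv_single (i : Fin r) (x : Fin r → ℤ) (c : ℤ) (q : Fin r → ℤ) :
    dv (Finsupp.single (i, x) c) q =
      (if q = x then c else 0) - (if q = x + stp (i, true) then c else 0) := by
  unfold dv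
  rw [Finset.sum_sub_distrib]
  congr 1
  · rw [Finset.sum_eq_single i]
    · rw [Finsupp.single_apply]
      by_cases h : q = x
      · subst h; simp
      · rw [if_neg, if_neg h]
        intro h'
        exact h (congrArg Prod.snd h').symm
    · intro j _ hj
      rw [Finsupp.single_apply, if_neg]
      intro h'
      exact hj (congrArg Prod.fst h').symm
    · intro h; exact absurd (Finset.mem_univ i) h
  · rw [Finset.sum_eq_single i]
    · rw [Finsupp.single_apply]
      by_cases h : q = x + stp (i, true)
      · subst h; simp
      · rw [if_neg, if_neg h]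
        intro h'
        apply h
        have h2 : x = q - stp (i, true) := congrArg Prod.snd h'
        rw [h2]; simp
    · intro j _ hj
      rw [Finsupp.single_apply, if_neg]
      intro h'
      exact hj (congrArg Prod.fst h').symm
    · intro h; exact absurd (Finset.mem_univ i) h

theorem low_true (x : Fin r → ℤ) (i : Fin r) : low x (i, true) = x := rfl
theorem low_false (x : Fin r → ℤ) (i : Fin r) : low x (i, false) = x + stp (i, false) := rfl
theorem stp_false (i : Fin r) : stp ((i, false) : Ltr (Fin r)) = - stp (i, true) := by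
  rw [← stp_inv]; rfl

theorem dv_letter (x : Fin r → ℤ) (l : Ltr (Fin r)) (q : Fin r → ℤ) :
    dv (Finsupp.single (l.1, low x l) (sgn l)) q =
      (if q = x then 1 else 0) - (if q = x + stp l then 1 else 0) := by
  rcases l with ⟨i, b⟩
  rw [dv_single]
  cases b
  · rw [low_false, stp_false]
    simp only [sgn, Bool.false_eq_true, if_false]
    have h : x + -stp (i, true) + stp (i, true) = x := by abel
    rw [h]
    split_ifs <;> simp
  · rw [low_true]
    simp only [sgn, if_true]

theorem dv_flow (x : Fin r → ℤ) (w : List (Ltr (Fin r))) (q : Fin r → ℤ) :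
    dv (flow x w) q = (if q = x then 1 else 0) - (if q = x + pos w then 1 else 0) := by
  induction w generalizing x with
  | nil => simp [dv_zero]
  | cons l w ih =>
    rw [flow_cons, dv_add, dv_letter, ih, pos_cons, add_assoc]
    ring

/-- the `ℓ¹` norm -/
noncomputable def nm (f : Ch r) : ℕ := f.sum (fun _ c => c.natAbs)

theorem nm_eq_sum (f : Ch r) {s : Finset (Fin r × (Fin r → ℤ))} (h : f.support ⊆ s) :
    nm f = ∑ e ∈ s, (f e).natAbs := by
  unfold nm Finsupp.sum
  apply Finset.sum_subset h
  intro e _ he
  rw [Finsupp.notMem_support_iff.1 he]; rfl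

theorem nm_zero : nm (0 : Ch r) = 0 := by simp [nm]

theorem nm_single (e : Fin r × (Fin r → ℤ)) (c : ℤ) :
    nm (Finsupp.single e c : Ch r) = c.natAbs := by
  unfold nm
  rw [Finsupp.sum_single_index]
  rfl

theorem nm_add_le (f g : Ch r) : nm (f + g) ≤ nm f + nm g := by
  have h1 : (f + g).support ⊆ f.support ∪ g.support := Finsupp.support_add
  rw [nm_eq_sum (f + g) h1, nm_eq_sum f Finset.subset_union_left,
    nm_eq_sum g Finset.subset_union_right, ← Finset.sum_add_distrib]
  apply Finset.sum_le_sum
  intro e _
  rw [Finsupp.add_apply]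
  exact Int.natAbs_add_le _ _

theorem eq_zero_of_nm {f : Ch r} (h : nm f = 0) : f = 0 := by
  by_contra hne
  obtain ⟨e, he⟩ := Finsupp.support_nonempty_iff.2 hne
  have h1 : (f e).natAbs ≤ nm f := by
    unfold nm Finsupp.sum
    exact Finset.single_le_sum (f := fun e => (f e).natAbs) (fun _ _ => Nat.zero_le _) he
  rw [h] at h1
  rw [Finsupp.mem_support_iff] at he
  exact he (Int.natAbs_eq_zero.1 (Nat.le_zero.1 h1))

/-- `g` is dominated by `f` -/
def Dom (g f : Ch r) : Prop := ∀ e, (g e).natAbs + (f e - g e).natAbs = (f e).natAbs

theorem nm_of_dom {g f : Ch r} (h : Dom g f) : nm g + nm (f - g) = nm f := by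
  have hs1 : g.support ⊆ f.support ∪ g.support := Finset.subset_union_right
  have hs2 : (f - g).support ⊆ f.support ∪ g.support := by
    intro e he
    rw [Finset.mem_union]
    by_contra hne
    push Not at hne
    rw [Finsupp.notMem_support_iff, Finsupp.notMem_support_iff] at hne
    rw [Finsupp.mem_support_iff, Finsupp.sub_apply, hne.1, hne.2] at he
    exact he (sub_zero 0)
  rw [nm_eq_sum g hs1, nm_eq_sum (f - g) hs2, nm_eq_sum f Finset.subset_union_left,
    ← Finset.sum_add_distrib]
  apply Finset.sum_congr rfl
  intro e _
  rw [Finsupp.sub_apply]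
  exact h e

theorem dom_zero (f : Ch r) : Dom 0 f := by
  intro e; simp

theorem nm_flow_le (x : Fin r → ℤ) (w : List (Ltr (Fin r))) : nm (flow x w) ≤ w.length := by
  induction w generalizing x with
  | nil => simp [nm_zero]
  | cons l w ih =>
    rw [flow_cons]
    refine (nm_add_le _ _).trans ?_
    rw [nm_single, List.length_cons]
    have := ih (x + stp l)
    have h2 : (sgn l).natAbs = 1 := by unfold sgn; split <;> rfl
    omega

theorem sgn_cases (l : Ltr (Fin r)) : sgn l = 1 ∨ sgn l = -1 := by
  unfold sgn; split <;> simp

/-- greedy paths -/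
theorem greedy (n : ℕ) : ∀ (g : Ch r) (p t : Fin r → ℤ), nm g = n →
    (∀ q, dv g q = (if q = p then 1 else 0) - (if q = t then 1 else 0)) →
    ∃ w, p + pos w = t ∧ Dom (flow p w) g ∧ nm (flow p w) = w.length ∧
      ∀ l, sgn l * (g (l.1, low t l) - flow p w (l.1, low t l)) ≤ 0 := by
  induction n with
  | zero =>
    intro g p t hn hd
    have hg := eq_zero_of_nm hn
    subst hg
    refine ⟨[], ?_, dom_zero _, by simp [nm_zero], by simp⟩
    have := hd p
    rw [dv_zero, if_pos rfl] at this
    by_contra hne
    rw [if_neg (by simpa using hne)] at this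
    norm_num at this
  | succ n ih =>
    intro g p t hn hd
    by_cases hout : ∃ l, 0 < sgn l * g (l.1, low p l)
    · obtain ⟨l, hl⟩ := hout
      set e0 : Fin r × (Fin r → ℤ) := (l.1, low p l) with he0
      set g' : Ch r := g - Finsupp.single e0 (sgn l) with hg'
      have hdom : Dom (Finsupp.single e0 (sgn l)) g := by
        intro e
        rw [Finsupp.single_apply]
        split_ifs with h
        · rw [← h]
          rcases sgn_cases l with h1 | h1 <;> rw [h1] at hl ⊢ <;> omega
        · simp
      have hn' : nm g' = n := by
        have := nm_of_dom hdom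
        rw [nm_single, hn, ← hg'] at this
        have h2 : (sgn l).natAbs = 1 := by rcases sgn_cases l with h | h <;> rw [h] <;> rfl
        rw [h2] at this
        omega
      have hd' : ∀ q, dv g' q = (if q = p + stp l then 1 else 0) - (if q = t then 1 else 0) := by
        intro q
        rw [hg', dv_sub, hd, dv_letter]; ring
      obtain ⟨w, hw1, hw2, hw3, hw4⟩ := ih g' (p + stp l) t hn' hd'
      have hsub : g - flow p (l :: w) = g' - flow (p + stp l) w := by
        rw [flow_cons, hg']; abel
      have hdom2 : Dom (flow p (l :: w)) g := by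
        intro e
        have e1 := hw2 e
        have e2 : g e - flow p (l :: w) e = g' e - flow (p + stp l) w e := by
          have := DFunLike.congr_fun hsub e
          simpa using this
        have e3 : flow p (l :: w) e = Finsupp.single e0 (sgn l) e + flow (p + stp l) w e := by
          rw [flow_cons, Finsupp.add_apply]
        have e4 : g e = g' e + Finsupp.single e0 (sgn l) e := by
          rw [hg', Finsupp.sub_apply]; ring
        rw [e2, e3, e4]
        rw [Finsupp.single_apply]
        split_ifs with h
        · have hl' : 0 < sgn l * (g' e + sgn l) := by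
            have : g e = g' e + sgn l := by rw [e4, Finsupp.single_apply, if_pos h]
            rw [← this, ← h]; exact hl
          generalize flow (p + stp l) w e = c at *
          generalize g' e = d at *
          rcases sgn_cases l with h1 | h1 <;> rw [h1] at hl' ⊢ <;> omega
        · simpa using e1
      refine ⟨l :: w, ?_, hdom2, ?_, ?_⟩
      · rw [pos_cons, ← add_assoc]; exact hw1
      · have e1 := nm_of_dom hdom2
        have e2 := nm_of_dom hw2
        rw [hsub] at e1
        rw [List.length_cons]
        omega
      · intro l'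
        have := hw4 l'
        have e2 : g (l'.1, low t l') - flow p (l :: w) (l'.1, low t l') =
            g' (l'.1, low t l') - flow (p + stp l) w (l'.1, low t l') := by
          have := DFunLike.congr_fun hsub (l'.1, low t l')
          simpa using this
        rw [e2]; exact this
    · push Not at hout
      have hpt : p = t := by
        by_contra hne
        have h1 := hd p
        rw [if_pos rfl, if_neg hne] at h1
        have h2 : dv g p ≤ 0 := by
          unfold dv
          apply Finset.sum_nonpos
          intro i _
          have a1 := hout (i, true)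
          have a2 := hout (i, false)
          rw [low_true] at a1
          rw [low_false, stp_false, ← sub_eq_add_neg] at a2
          simp only [sgn, if_true, Bool.false_eq_true, if_false] at a1 a2
          linarith
        linarith
      refine ⟨[], by simp [hpt], dom_zero _, by simp [nm_zero], ?_⟩
      intro l
      rw [← hpt]
      simpa using hout l

/-- the edges of `f` form, together with `s`, a connected set -/
def Conn (f : Ch r) (s : Fin r → ℤ) : Prop :=
  ∀ A : Set (Fin r → ℤ), s ∈ A → (∀ e, f e ≠ 0 → (e.2 ∈ A ↔ hi e ∈ A)) →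
    ∀ e, f e ≠ 0 → e.2 ∈ A

/-- traversed edges have visited endpoints -/
theorem visited_of_flow_ne (x : Fin r → ℤ) (w : List (Ltr (Fin r)))
    (e : Fin r × (Fin r → ℤ)) (h : flow x w e ≠ 0) :
    (∃ u v, w = u ++ v ∧ e.2 = x + pos u) ∧ (∃ u v, w = u ++ v ∧ hi e = x + pos u) := by
  induction w generalizing x with
  | nil => simp at h
  | cons l w ih =>
    by_cases h1 : flow (x + stp l) w e = 0
    · rw [flow_cons, Finsupp.add_apply, h1, add_zero, Finsupp.single_apply] at h
      have he : (l.1, low x l) = e := by
        by_contra hne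
        rw [if_neg hne] at h
        exact h rfl
      subst he
      rcases l with ⟨i, b⟩
      cases b
      · refine ⟨⟨[(i, false)], w, rfl, by simp [low_false]⟩, ⟨[], (i, false) :: w, rfl, ?_⟩⟩
        unfold hi
        simp only [low_false, stp_false, pos_nil]
        abel
      · refine ⟨⟨[], (i, true) :: w, rfl, by simp [low_true]⟩, ⟨[(i, true)], w, rfl, ?_⟩⟩
        unfold hi
        simp only [low_true, pos_cons, pos_nil]
        abel
    · obtain ⟨⟨u, v, rfl, h2⟩, ⟨u', v', h4, h3⟩⟩ := ih (x + stp l) h1
      refine ⟨⟨l :: u, v, rfl, by rw [h2, pos_cons, add_assoc]⟩,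
        ⟨l :: u', v', by rw [h4]; rfl, by rw [h3, pos_cons, add_assoc]⟩⟩

/-- **Euler's theorem** for flows. -/
theorem euler {f : Ch r} {s t : Fin r → ℤ}
    (hd : ∀ q, dv f q = (if q = s then 1 else 0) - (if q = t then 1 else 0)) (hc : Conn f s) :
    ∃ w, flow s w = f ∧ w.length = nm f := by
  set D : ℕ → Prop := fun n => ∃ w : List (Ltr (Fin r)), w.length = n ∧ s + pos w = t ∧
    Dom (flow s w) f ∧ nm (flow s w) = w.length with hD
  obtain ⟨w0, hw1, hw2, hw3, _⟩ := greedy (nm f) f s t rfl hd
  have hbd : ∀ n, D n → n ≤ nm f := by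
    rintro n ⟨w, rfl, _, h2, h3⟩
    have := nm_of_dom h2
    omega
  have hD0 : D w0.length := ⟨w0, rfl, hw1, hw2, hw3⟩
  set N := Nat.findGreatest D (nm f) with hN
  have hDN : D N := Nat.findGreatest_spec (P := D) (hbd _ hD0) hD0
  have hmax : ∀ n, D n → n ≤ N := fun n hn => Nat.le_findGreatest (hbd n hn) hn
  obtain ⟨w, hwN, hwt, hwd, hwn⟩ := hDN
  by_cases hfin : nm (f - flow s w) = 0
  · have h1 := eq_zero_of_nm hfin
    have h2 : flow s w = f := (sub_eq_zero.1 h1).symm
    exact ⟨w, h2, by rw [← hwn, h2]⟩
  exfalso
  set g : Ch r := f - flow s w with hg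
  set A : Set (Fin r → ℤ) := {q | ∃ u v, w = u ++ v ∧ q = s + pos u} with hA
  have hsA : s ∈ A := ⟨[], w, rfl, by simp⟩
  -- some residual edge touches the visited points
  have htouch : ∃ e, g e ≠ 0 ∧ (e.2 ∈ A ∨ hi e ∈ A) := by
    by_contra hno
    push Not at hno
    have hclosed : ∀ e, f e ≠ 0 → (e.2 ∈ A ↔ hi e ∈ A) := by
      intro e he
      by_cases hge : g e = 0
      · have h1 : flow s w e ≠ 0 := by
          intro h0
          rw [hg, Finsupp.sub_apply, h0, sub_zero] at hge
          exact he hge
        obtain ⟨h2, h3⟩ := visited_of_flow_ne s w e h1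
        exact ⟨fun _ => h3, fun _ => h2⟩
      · have := hno e hge
        exact ⟨fun h => absurd h this.1, fun h => absurd h this.2⟩
    obtain ⟨e, he⟩ : ∃ e, g e ≠ 0 := by
      by_contra hz
      push Not at hz
      apply hfin
      have : g = 0 := by ext e; simpa using hz e
      rw [this, nm_zero]
    have hfe : f e ≠ 0 := by
      intro h0
      have h1 := hwd e
      rw [h0] at h1
      have h2 : g e = 0 - flow s w e := by rw [hg, Finsupp.sub_apply, h0]
      rw [← h2] at h1
      have : (g e).natAbs = 0 := by simp at h1; omega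
      exact he (Int.natAbs_eq_zero.1 this)
    exact (hno e he).1 (hc A hsA hclosed e hfe)
  obtain ⟨e, he, hetouch⟩ := htouch
  -- a visited point `q` with an incident residual edge
  obtain ⟨q, hqA, hqe⟩ : ∃ q ∈ A, ∃ i, g (i, q) ≠ 0 ∨ g (i, q - stp (i, true)) ≠ 0 := by
    rcases hetouch with h | h
    · exact ⟨e.2, h, e.1, Or.inl he⟩
    · refine ⟨hi e, h, e.1, Or.inr ?_⟩
      unfold hi
      rw [add_sub_cancel_right]
      exact he
  obtain ⟨u, v, hwuv, hq⟩ := hqA
  have hdg : ∀ x, dv g x = 0 := by
    intro x
    rw [hg, dv_sub, hd, dv_flow, hwt]; ring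
  have hout : ∃ l, 0 < sgn l * g (l.1, low q l) := by
    by_contra hno
    push Not at hno
    have h1 : ∀ i, g (i, q) ≤ 0 := by
      intro i
      have := hno (i, true)
      rw [low_true] at this
      simpa [sgn] using this
    have h2 : ∀ i, 0 ≤ g (i, q - stp (i, true)) := by
      intro i
      have := hno (i, false)
      rw [low_false, stp_false, ← sub_eq_add_neg] at this
      simp only [sgn, Bool.false_eq_true, if_false] at this
      linarith
    have h3 := hdg q
    unfold dv at h3
    have h4 : ∀ i ∈ Finset.univ, g (i, q) - g (i, q - stp (i, true)) = 0 := by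
      have h5 : ∑ i, -(g (i, q) - g (i, q - stp (i, true))) = 0 := by
        rw [Finset.sum_neg_distrib, h3, neg_zero]
      have h6 := (Finset.sum_eq_zero_iff_of_nonneg (fun i _ => by
        have a1 := h1 i
        have a2 := h2 i
        linarith)).1 h5
      intro i hi
      have := h6 i hi
      linarith
    obtain ⟨i, hi⟩ := hqe
    have a1 := h1 i
    have a2 := h2 i
    have a3 := h4 i (Finset.mem_univ i)
    rcases hi with h | h
    · apply h; linarith
    · apply h; linarith
  obtain ⟨c, hc1, hc2, hc3, hc4⟩ := greedy (nm g) g q q rfl (fun x => by rw [hdg]; ring)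
  have hcne : c ≠ [] := by
    rintro rfl
    obtain ⟨l, hl⟩ := hout
    have := hc4 l
    simp only [flow_nil, Finsupp.coe_zero, Pi.zero_apply, sub_zero] at this
    linarith
  have hpc : pos c = 0 := by simpa using hc1
  -- insert `c` at `q`
  have hflow : flow s (u ++ c ++ v) = flow s w + flow q c := by
    rw [hwuv, flow_append, flow_append, flow_append, pos_append, hpc, add_zero, ← hq]
    abel
  have hdom : Dom (flow s (u ++ c ++ v)) f := by
    intro e'
    have a1 := hwd e'
    have a2 := hc2 e'
    rw [hflow, Finsupp.add_apply]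
    have a3 : g e' = f e' - flow s w e' := by rw [hg, Finsupp.sub_apply]
    rw [a3] at a2
    generalize flow s w e' = x at *
    generalize flow q c e' = y at *
    generalize f e' = z at *
    omega
  have hnm : nm (flow s (u ++ c ++ v)) = (u ++ c ++ v).length := by
    have a1 := nm_of_dom hdom
    have a2 := nm_of_dom hc2
    have a3 := nm_of_dom hwd
    have a4 : f - flow s (u ++ c ++ v) = g - flow q c := by rw [hflow, hg]; abel
    rw [a4] at a1
    have a5 : (u ++ c ++ v).length = w.length + c.length := by
      rw [hwuv]; simp only [List.length_append]; omega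
    rw [a5]
    rw [← hg] at a3
    omega
  have hlen := hmax (u ++ c ++ v).length ⟨_, rfl, by
    rw [pos_append, pos_append, hpc, add_zero, ← pos_append, ← hwuv]; exact hwt, hdom, hnm⟩
  have h7 : (u ++ c ++ v).length = w.length + c.length := by
    rw [hwuv]; simp only [List.length_append]; omega
  have h8 : c.length ≠ 0 := by simpa using hcne
  omega

/-- letters of words without cancellation follow the flow -/
theorem follow {x : Fin r → ℤ} {u v : List (Ltr (Fin r))} {l : Ltr (Fin r)}
    (h : nm (flow x (u ++ l :: v)) = (u ++ l :: v).length) :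
    0 < sgn l * flow x (u ++ l :: v) (l.1, low (x + pos u) l) := by
  set e0 : Fin r × (Fin r → ℤ) := (l.1, low (x + pos u) l) with he0
  set rest : Ch r := flow x u + flow (x + pos u + stp l) v with hrest
  have h1 : flow x (u ++ l :: v) = Finsupp.single e0 (sgn l) + rest := by
    rw [flow_append, flow_cons, hrest]; abel
  have h2 : nm rest ≤ u.length + v.length :=
    (nm_add_le _ _).trans (Nat.add_le_add (nm_flow_le _ _) (nm_flow_le _ _))
  rw [h1] at h ⊢
  rw [List.length_append, List.length_cons] at h
  have hs : (Finsupp.single e0 (sgn l) + rest).support ⊆ insert e0 rest.support := by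
    intro e he
    rw [Finsupp.mem_support_iff, Finsupp.add_apply] at he
    rw [Finset.mem_insert, Finsupp.mem_support_iff]
    by_cases h3 : e = e0
    · exact Or.inl h3
    · right
      rw [Finsupp.single_apply, if_neg (fun h => h3 h.symm), zero_add] at he
      exact he
  rw [nm_eq_sum _ hs] at h
  rw [nm_eq_sum rest (Finset.subset_insert e0 _)] at h2
  rw [← Finset.add_sum_erase _ _ (Finset.mem_insert_self e0 _)] at h h2
  have h3 : ∑ e ∈ (insert e0 rest.support).erase e0,
      ((Finsupp.single e0 (sgn l) + rest) e).natAbs =
      ∑ e ∈ (insert e0 rest.support).erase e0, (rest e).natAbs := by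
    apply Finset.sum_congr rfl
    intro e he
    rw [Finsupp.add_apply, Finsupp.single_apply,
      if_neg (fun h => (Finset.mem_erase.1 he).1 h.symm), zero_add]
  rw [h3] at h
  rw [Finsupp.add_apply, Finsupp.single_eq_same] at h ⊢
  have h4 : (sgn l + rest e0).natAbs = (rest e0).natAbs + 1 ∨
      (rest e0).natAbs + 1 ≤ (sgn l + rest e0).natAbs := by
    right; omega
  rcases sgn_cases l with h5 | h5 <;> rw [h5] at h4 ⊢ <;> omega

end Pool.Agent.Helper524_FM
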