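import Pool.Agent.Helper524_FM.Half

/-!
# The lower bound for the growth rate
-/

set_option linter.unusedSectionVars false
set_option linter.unusedSimpArgs false

namespace Pool.Agent.Helper524_FM

open scoped Classical

theorem card_MFR_nax {r ℓ k : ℕ} (hr : 0 < r) (h : ℓ < 2 * (k + 1)) :
    (MFR r ℓ).card ≤ r ^ k * (2 * k) ^ ℓ := by
  refine (Finset.card_le_card ?_).trans (card_nax_le hr k ℓ)
  intro φ hφ
  simp only [MFR, Finset.mem_filter, mem_words] at hφ ⊢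
  refine ⟨hφ.1, ?_⟩
  have := hφ.2.1.two_nax_le'
  omega

theorem card_MFR7 {r : ℕ} (hr : 0 < r) : (MFR r 7).card ≤ 28 * r ^ 3 + r ^ 2 * 4 ^ 7 := by
  have h1 : MFR r 7 ⊆ (MFR r 7).filter (fun φ => nax φ = 3) ∪
      (words r 7).filter (fun w => nax w ≤ 2) := by
    intro φ hφ
    have hφ' := hφ
    simp only [MFR, Finset.mem_filter, mem_words] at hφ
    have := hφ.2.1.two_nax_le'
    rw [Finset.mem_union, Finset.mem_filter, Finset.mem_filter, mem_words]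
    by_cases h : nax φ = 3
    · exact Or.inl ⟨hφ', h⟩
    · right; exact ⟨hφ.1, by omega⟩
  refine (Finset.card_le_card h1).trans ((Finset.card_union_le _ _).trans ?_)
  exact Nat.add_le_add card7 (card_nax_le hr 2 7)

theorem card_MFR8 {r : ℕ} (hr : 0 < r) : (MFR r 8).card ≤ 32 * r ^ 4 + r ^ 3 * 6 ^ 8 := by
  have h1 : MFR r 8 ⊆ (MFR r 8).filter (fun φ => nax φ = 4) ∪
      (words r 8).filter (fun w => nax w ≤ 3) := by
    intro φ hφ
    have hφ' := hφ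
    simp only [MFR, Finset.mem_filter, mem_words] at hφ
    have := hφ.2.1.two_nax_le'
    rw [Finset.mem_union, Finset.mem_filter, Finset.mem_filter, mem_words]
    by_cases h : nax φ = 4
    · exact Or.inl ⟨hφ', h⟩
    · right; exact ⟨hφ.1, by omega⟩
  refine (Finset.card_le_card h1).trans ((Finset.card_union_le _ _).trans ?_)
  exact Nat.add_le_add card8 (card_nax_le hr 3 8)

/-- `1 / (2r-2)^k` against `1 / (2r)^k` -/
theorem inv_pow_le {r : ℝ} {k : ℕ} (hr : 2 * k + 2 ≤ r) :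
    1 / (2 * r - 2) ^ k ≤ (1 + 2 * k / r) / (2 * r) ^ k := by
  have hk : (0 : ℝ) ≤ k := by positivity
  have hr0 : 0 < r := by linarith
  have h1 : (2 * r - 2) ^ k = (2 * r) ^ k * (1 - 1 / r) ^ k := by
    rw [← mul_pow]; congr 1; field_simp
  have h2 : 1 - k * (1 / r) ≤ (1 - 1 / r) ^ k := by
    have h3 : (-2 : ℝ) ≤ -(1 / r) := by
      have : 1 / r ≤ 1 := by rw [div_le_one hr0]; linarith
      linarith
    have := one_add_mul_le_pow h3 k
    calc 1 - k * (1 / r) = 1 + k * -(1 / r) := by ring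
      _ ≤ (1 + -(1 / r)) ^ k := this
      _ = _ := by ring
  have h4 : k * (1 / r) ≤ 1 / 2 := by
    rw [mul_one_div, div_le_iff₀ hr0]; linarith
  have h5 : 1 ≤ (1 + 2 * k / r) * (1 - 1 / r) ^ k := by
    have h6 : 0 ≤ 1 + 2 * k / r := by positivity
    calc (1 : ℝ) ≤ (1 + 2 * k / r) * (1 - k * (1 / r)) := by
          have : (1 + 2 * k / r) * (1 - k * (1 / r)) =
            1 + (k * (1 / r)) * (1 - 2 * (k * (1 / r))) := by ring
          rw [this]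
          have : 0 ≤ k * (1 / r) := by positivity
          nlinarith
      _ ≤ _ := by gcongr
  rw [h1, div_le_div_iff₀ (by
    have : 0 < 1 - 1 / r := by
      rw [sub_pos, div_lt_one hr0]; linarith
    positivity) (by positivity)]
  nlinarith [pow_pos (show (0 : ℝ) < 2 * r by positivity) k]

/-- the numerical estimate -/
theorem numeric {r m7 m8 m9 m10 : ℝ} (hr : 20 ≤ r) (h7 : m7 ≤ 28 * r ^ 3 + r ^ 2 * 4 ^ 7)
    (h8 : m8 ≤ 32 * r ^ 4 + r ^ 3 * 6 ^ 8) (h9 : m9 ≤ r ^ 4 * 8 ^ 9)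
    (h10 : m10 ≤ r ^ 5 * 10 ^ 10) :
    m7 / (2 * r - 2) ^ 6 + m8 / (2 * r - 2) ^ 7 + m9 / (2 * r - 2) ^ 8 +
      m10 / (2 * r - 2) ^ 9 ≤ 11 / 16 / r ^ 3 + 10 ^ 9 / r ^ 4 := by
  have hr0 : 0 < r := by linarith
  have e6 := inv_pow_le (r := r) (k := 6) (by push_cast; linarith)
  have e7 := inv_pow_le (r := r) (k := 7) (by push_cast; linarith)
  have e8 := inv_pow_le (r := r) (k := 8) (by push_cast; linarith)
  have e9 := inv_pow_le (r := r) (k := 9) (by push_cast; linarith)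
  push_cast at e6 e7 e8 e9
  have hp : 0 < 2 * r - 2 := by linarith
  have f6 : m7 / (2 * r - 2) ^ 6 ≤ (28 * r ^ 3 + r ^ 2 * 4 ^ 7) *
      ((1 + 2 * 6 / r) / (2 * r) ^ 6) := by
    rw [div_eq_mul_one_div]
    exact mul_le_mul h7 e6 (by positivity) (by positivity)
  have f7 : m8 / (2 * r - 2) ^ 7 ≤ (32 * r ^ 4 + r ^ 3 * 6 ^ 8) *
      ((1 + 2 * 7 / r) / (2 * r) ^ 7) := by
    rw [div_eq_mul_one_div]
    exact mul_le_mul h8 e7 (by positivity) (by positivity)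
  have f8 : m9 / (2 * r - 2) ^ 8 ≤ (r ^ 4 * 8 ^ 9) * ((1 + 2 * 8 / r) / (2 * r) ^ 8) := by
    rw [div_eq_mul_one_div]
    exact mul_le_mul h9 e8 (by positivity) (by positivity)
  have f9 : m10 / (2 * r - 2) ^ 9 ≤ (r ^ 5 * 10 ^ 10) * ((1 + 2 * 9 / r) / (2 * r) ^ 9) := by
    rw [div_eq_mul_one_div]
    exact mul_le_mul h10 e9 (by positivity) (by positivity)
  refine (add_le_add (add_le_add (add_le_add f6 f7) f8) f9).trans ?_
  obtain ⟨x, hx⟩ : ∃ x : ℝ, x = 1 / r := ⟨_, rfl⟩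
  have hrx : r = 1 / x := by rw [hx, one_div_one_div]
  have hx0 : 0 < x := by rw [hx]; positivity
  have hx1 : x ≤ 1 / 20 := by
    rw [hx]; exact one_div_le_one_div_of_le (by norm_num) hr
  rw [hrx]
  have g6 : (28 * (1 / x) ^ 3 + (1 / x) ^ 2 * 4 ^ 7) * ((1 + 2 * 6 / (1 / x)) / (2 * (1 / x)) ^ 6) =
      (28 * x ^ 3 + 4 ^ 7 * x ^ 4) * (1 + 12 * x) / 64 := by
    field_simp; ring
  have g7 : (32 * (1 / x) ^ 4 + (1 / x) ^ 3 * 6 ^ 8) * ((1 + 2 * 7 / (1 / x)) / (2 * (1 / x)) ^ 7) =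
      (32 * x ^ 3 + 6 ^ 8 * x ^ 4) * (1 + 14 * x) / 128 := by
    field_simp; ring
  have g8 : ((1 / x) ^ 4 * 8 ^ 9) * ((1 + 2 * 8 / (1 / x)) / (2 * (1 / x)) ^ 8) =
      8 ^ 9 * x ^ 4 * (1 + 16 * x) / 256 := by
    field_simp; ring
  have g9 : ((1 / x) ^ 5 * 10 ^ 10) * ((1 + 2 * 9 / (1 / x)) / (2 * (1 / x)) ^ 9) =
      10 ^ 10 * x ^ 4 * (1 + 18 * x) / 512 := by
    field_simp; ring
  have g0 : 11 / 16 / (1 / x) ^ 3 + 10 ^ 9 / (1 / x) ^ 4 = 11 / 16 * x ^ 3 + 10 ^ 9 * x ^ 4 := by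
    field_simp
  rw [g6, g7, g8, g9, g0]
  have hx4 : 0 < x ^ 4 := by positivity
  have key : (28 * x ^ 3 + 4 ^ 7 * x ^ 4) * (1 + 12 * x) / 64 +
      (32 * x ^ 3 + 6 ^ 8 * x ^ 4) * (1 + 14 * x) / 128 +
      8 ^ 9 * x ^ 4 * (1 + 16 * x) / 256 + 10 ^ 10 * x ^ 4 * (1 + 18 * x) / 512 =
      11 / 16 * x ^ 3 + x ^ 4 * ((28 * 12 + 4 ^ 7 * (1 + 12 * x)) / 64 +
        (32 * 14 + 6 ^ 8 * (1 + 14 * x)) / 128 + 8 ^ 9 * (1 + 16 * x) / 256 +
        10 ^ 10 * (1 + 18 * x) / 512) := by ring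
  rw [key]
  have : (28 * 12 + 4 ^ 7 * (1 + 12 * x)) / 64 +
        (32 * 14 + 6 ^ 8 * (1 + 14 * x)) / 128 + 8 ^ 9 * (1 + 16 * x) / 256 +
        10 ^ 10 * (1 + 18 * x) / 512 ≤ 10 ^ 9 := by
    nlinarith
  nlinarith

theorem grow_lower {r : ℕ} (hr : 10 ^ 4 ≤ r) (n : ℕ) :
    (2 * (r : ℝ) - 1 - 11 / 16 / (r : ℝ) ^ 3 - 10 ^ 9 / (r : ℝ) ^ 4) * ga 10 r n ≤
      ga 10 r (n + 1) := by
  have hr0 : 0 < r := by omega
  have hrR : (10 : ℝ) ^ 4 ≤ r := by exact_mod_cast hr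
  have hrp : (0 : ℝ) < r := by linarith
  have hβ : (2 : ℝ) * r - 2 ≤ 2 * (r : ℝ) - 1 - 11 / 16 / (r : ℝ) ^ 3 - 10 ^ 9 / (r : ℝ) ^ 4 := by
    have h1 : 11 / 16 / (r : ℝ) ^ 3 ≤ 1 / 2 := by
      rw [div_le_iff₀ (by positivity)]
      have : (10 ^ 4) ^ 3 ≤ (r : ℝ) ^ 3 := by gcongr
      linarith
    have h2 : 10 ^ 9 / (r : ℝ) ^ 4 ≤ 1 / 2 := by
      rw [div_le_iff₀ (by positivity)]
      have : (10 ^ 4) ^ 4 ≤ (r : ℝ) ^ 4 := by gcongr
      linarith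
    linarith
  induction n using Nat.strong_induction_on with
  | _ n ih =>
    have hpow : ∀ j ≤ n, (2 * (r : ℝ) - 2) ^ j * ga 10 r (n - j) ≤ ga 10 r n := by
      intro j hj
      induction j with
      | zero => simp
      | succ j ihj =>
        have h1 := ih (n - (j + 1)) (by omega)
        have h2 : n - (j + 1) + 1 = n - j := by omega
        rw [h2] at h1
        have h3 : (2 * (r : ℝ) - 2) * ga 10 r (n - (j + 1)) ≤ ga 10 r (n - j) := by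
          refine le_trans ?_ h1
          gcongr
        have hp : (0 : ℝ) ≤ (2 * (r : ℝ) - 2) ^ j := by
          apply pow_nonneg; linarith
        calc (2 * (r : ℝ) - 2) ^ (j + 1) * ga 10 r (n - (j + 1))
            = (2 * (r : ℝ) - 2) ^ j * ((2 * (r : ℝ) - 2) * ga 10 r (n - (j + 1))) := by ring
          _ ≤ (2 * (r : ℝ) - 2) ^ j * ga 10 r (n - j) := mul_le_mul_of_nonneg_left h3 hp
          _ ≤ ga 10 r n := ihj (by omega)
    have h1 := ext_lower (show 2 ≤ 10 by norm_num) r n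
    have h1' : (2 * (r : ℝ) - 1) * ga 10 r n ≤ ga 10 r (n + 1) +
        ∑ ℓ ∈ (Finset.Icc 2 10).filter (fun ℓ => ℓ ≤ n + 1),
          ((MFR r ℓ).card : ℝ) * ga 10 r (n + 1 - ℓ) := by
      have h2 : ((2 * r - 1 : ℕ) : ℝ) = 2 * (r : ℝ) - 1 := by
        rw [Nat.cast_sub (by omega)]; push_cast; ring
      rw [← h2]
      exact_mod_cast h1
    have hg0 : (0 : ℝ) ≤ ga 10 r n := by positivity
    have hpos : (0 : ℝ) < 2 * (r : ℝ) - 2 := by linarith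
    have h3 : ∑ ℓ ∈ (Finset.Icc 2 10).filter (fun ℓ => ℓ ≤ n + 1),
          ((MFR r ℓ).card : ℝ) * ga 10 r (n + 1 - ℓ) ≤
        ∑ ℓ ∈ Finset.Icc 2 10, ((MFR r ℓ).card : ℝ) / (2 * (r : ℝ) - 2) ^ (ℓ - 1) * ga 10 r n := by
      refine (Finset.sum_le_sum (g := fun ℓ => ((MFR r ℓ).card : ℝ) /
        (2 * (r : ℝ) - 2) ^ (ℓ - 1) * ga 10 r n) ?_).trans ?_
      · intro ℓ hℓ
        simp only [Finset.mem_filter, Finset.mem_Icc] at hℓ
        have h4 := hpow (ℓ - 1) (by omega)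
        rw [show n - (ℓ - 1) = n + 1 - ℓ by omega] at h4
        rw [div_mul_eq_mul_div, le_div_iff₀ (by positivity)]
        calc ((MFR r ℓ).card : ℝ) * ga 10 r (n + 1 - ℓ) * (2 * (r : ℝ) - 2) ^ (ℓ - 1)
            = ((MFR r ℓ).card : ℝ) * ((2 * (r : ℝ) - 2) ^ (ℓ - 1) * ga 10 r (n + 1 - ℓ)) := by ring
          _ ≤ _ := by gcongr
      · apply Finset.sum_le_sum_of_subset_of_nonneg (Finset.filter_subset _ _)
        intro ℓ _ _
        positivity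
    have h4 : ∑ ℓ ∈ Finset.Icc 2 10,
        ((MFR r ℓ).card : ℝ) / (2 * (r : ℝ) - 2) ^ (ℓ - 1) * ga 10 r n ≤
        (11 / 16 / (r : ℝ) ^ 3 + 10 ^ 9 / (r : ℝ) ^ 4) * ga 10 r n := by
      rw [← Finset.sum_mul]
      apply mul_le_mul_of_nonneg_right _ hg0
      rw [show Finset.Icc 2 10 = {2, 3, 4, 5, 6, 7, 8, 9, 10} by decide]
      rw [Finset.sum_insert (by decide), Finset.sum_insert (by decide),
        Finset.sum_insert (by decide), Finset.sum_insert (by decide),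
        Finset.sum_insert (by decide), Finset.sum_insert (by decide),
        Finset.sum_insert (by decide), Finset.sum_insert (by decide), Finset.sum_singleton]
      rw [MFR_small (show 2 ≤ 6 by norm_num), MFR_small (show 3 ≤ 6 by norm_num),
        MFR_small (show 4 ≤ 6 by norm_num), MFR_small (show 5 ≤ 6 by norm_num),
        MFR_small (show 6 ≤ 6 by norm_num)]
      have n7 : ((MFR r 7).card : ℝ) ≤ 28 * (r : ℝ) ^ 3 + (r : ℝ) ^ 2 * 4 ^ 7 := by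
        exact_mod_cast card_MFR7 hr0
      have n8 : ((MFR r 8).card : ℝ) ≤ 32 * (r : ℝ) ^ 4 + (r : ℝ) ^ 3 * 6 ^ 8 := by
        exact_mod_cast card_MFR8 hr0
      have n9 : ((MFR r 9).card : ℝ) ≤ (r : ℝ) ^ 4 * 8 ^ 9 := by
        exact_mod_cast card_MFR_nax (k := 4) hr0 (by norm_num)
      have n10 : ((MFR r 10).card : ℝ) ≤ (r : ℝ) ^ 5 * 10 ^ 10 := by
        exact_mod_cast card_MFR_nax (k := 5) hr0 (by norm_num)
      have := numeric (r := (r : ℝ)) (by linarith) n7 n8 n9 n10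
      simp only [Finset.card_empty, Nat.cast_zero, zero_div, zero_add]
      calc _ = _ := ?_
        _ ≤ _ := this
      norm_num
      ring
    nlinarith [h1', h3, h4]

theorem om_lb : ∃ C r0 : ℕ, ∀ r : ℕ, r0 ≤ r →
    2 * (r : ℝ) - 1 - 11 / 16 / (r : ℝ) ^ 3 - C / (r : ℝ) ^ 4 ≤ om r := by
  obtain ⟨C, r0, h⟩ := om_lower' (c := 5) (τ := 10) (by norm_num) (by norm_num)
  refine ⟨10 ^ 9 + 2 * C, max r0 (10 ^ 4), fun r hr => ?_⟩
  have hr1 : r0 ≤ r := (le_max_left _ _).trans hr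
  have hr2 : 10 ^ 4 ≤ r := (le_max_right _ _).trans hr
  have hrR : (10 : ℝ) ^ 4 ≤ r := by exact_mod_cast hr2
  have hrp : (0 : ℝ) < r := by linarith
  obtain ⟨β, hβ⟩ : ∃ β : ℝ, β = 2 * (r : ℝ) - 1 - 11 / 16 / (r : ℝ) ^ 3 - 10 ^ 9 / (r : ℝ) ^ 4 :=
    ⟨_, rfl⟩
  have hβ2 : β ≤ 2 * r := by
    rw [hβ]
    have h1 : 0 ≤ 11 / 16 / (r : ℝ) ^ 3 := by positivity
    have h2 : 0 ≤ 10 ^ 9 / (r : ℝ) ^ 4 := by positivity
    linarith
  have hβ0 : 0 < β := by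
    rw [hβ]
    have h1 : 11 / 16 / (r : ℝ) ^ 3 ≤ 1 / 2 := by
      rw [div_le_iff₀ (by positivity)]
      have : (10 ^ 4) ^ 3 ≤ (r : ℝ) ^ 3 := by gcongr
      linarith
    have h2 : 10 ^ 9 / (r : ℝ) ^ 4 ≤ 1 / 2 := by
      rw [div_le_iff₀ (by positivity)]
      have : (10 ^ 4) ^ 4 ≤ (r : ℝ) ^ 4 := by gcongr
      linarith
    linarith
  have hpow : ∀ n, β ^ n ≤ ga 10 r n := by
    intro n
    induction n with
    | zero => simp [ga_zero]
    | succ n ih =>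
      have h1 := grow_lower hr2 n
      rw [← hβ] at h1
      calc β ^ (n + 1) = β * β ^ n := by ring
        _ ≤ β * ga 10 r n := by gcongr
        _ ≤ _ := h1
  have h1 := h r hr1 β hβ0 hpow
  refine le_trans ?_ h1
  have h2 : β * (C / (r : ℝ) ^ 5) ≤ 2 * r * (C / (r : ℝ) ^ 5) := by gcongr
  have h3 : 2 * (r : ℝ) * (C / (r : ℝ) ^ 5) = 2 * C / (r : ℝ) ^ 4 := by
    field_simp
  have h4 : ((10 ^ 9 + 2 * C : ℕ) : ℝ) / (r : ℝ) ^ 4 = 10 ^ 9 / (r : ℝ) ^ 4 + 2 * C / (r : ℝ) ^ 4 := by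
    push_cast; ring
  rw [h4]
  rw [h3] at h2
  calc _ = β - 2 * C / (r : ℝ) ^ 4 := by rw [hβ]; ring
    _ ≤ β - β * (C / (r : ℝ) ^ 5) := by linarith
    _ = _ := by ring

end Pool.Agent.Helper524_FM
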