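import Pool.Agent.Helper524_FM.Poly
import Pool.Agent.Helper524_FM.LowGrow

/-!
# Asymptotic expansions in inverse powers of the rank
-/

set_option linter.unusedSectionVars false
set_option linter.unusedSimpArgs false

namespace Pool.Agent.Helper524_FM

open Polynomial

/-- evaluation of a rational polynomial at a real number -/
noncomputable def rv (p : Polynomial ℚ) (x : ℝ) : ℝ := p.eval₂ (algebraMap ℚ ℝ) x

theorem rv_add (p q : Polynomial ℚ) (x : ℝ) : rv (p + q) x = rv p x + rv q x := by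
  simp [rv, Polynomial.eval₂_add]
theorem rv_sub (p q : Polynomial ℚ) (x : ℝ) : rv (p - q) x = rv p x - rv q x := by
  simp [rv, Polynomial.eval₂_sub]
theorem rv_mul (p q : Polynomial ℚ) (x : ℝ) : rv (p * q) x = rv p x * rv q x := by
  simp [rv, Polynomial.eval₂_mul]
theorem rv_X_pow (k : ℕ) (x : ℝ) : rv (X ^ k) x = x ^ k := by simp [rv]
theorem rv_C (a : ℚ) (x : ℝ) : rv (C a) x = (a : ℝ) := by simp [rv]
theorem rv_zero (p : Polynomial ℚ) : rv p 0 = (p.coeff 0 : ℝ) := by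
  simp [rv, Polynomial.eval₂_at_zero]
theorem rv_cont (p : Polynomial ℚ) : Continuous (rv p) := by
  unfold rv
  have : (fun x : ℝ => p.eval₂ (algebraMap ℚ ℝ) x) = fun x => (p.map (algebraMap ℚ ℝ)).eval x := by
    funext x; rw [Polynomial.eval_map]
  rw [this]
  exact Polynomial.continuous _
theorem rv_nat (p : Polynomial ℚ) (n : ℕ) : rv p n = ((p.eval (n : ℚ) : ℚ) : ℝ) := by
  unfold rv
  simp

theorem tendsto_inv : Filter.Tendsto (fun r : ℕ => 1 / (r : ℝ)) Filter.atTop (nhds 0) :=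
  tendsto_one_div_atTop_nhds_zero_nat

theorem rv_tendsto (p : Polynomial ℚ) :
    Filter.Tendsto (fun r : ℕ => rv p (1 / (r : ℝ))) Filter.atTop (nhds (p.coeff 0 : ℝ)) := by
  have := ((rv_cont p).tendsto 0).comp tendsto_inv
  rw [rv_zero] at this
  exact this

/-- a polynomial vanishing to high order -/
theorem coeff_zero_of_small {D : Polynomial ℚ} {K : ℕ} {C : ℝ} {R : ℕ}
    (h : ∀ r : ℕ, R ≤ r → |rv D (1 / (r : ℝ))| ≤ C / (r : ℝ) ^ (K + 1)) :
    ∀ j ≤ K, D.coeff j = 0 := by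
  intro j
  induction j using Nat.strong_induction_on with
  | _ j ih =>
    intro hj
    obtain ⟨D1, hD1⟩ := (Polynomial.X_pow_dvd_iff (f := D) (n := j)).2
      (fun i hi => ih i hi (by omega))
    have h1 : D.coeff j = D1.coeff 0 := by
      rw [hD1]
      have := Polynomial.coeff_X_pow_mul D1 j 0
      simpa using this
    rw [h1]
    have h2 := rv_tendsto D1
    have h3 : Filter.Tendsto (fun r : ℕ => rv D1 (1 / (r : ℝ))) Filter.atTop (nhds 0) := by
      apply squeeze_zero_norm' (a := fun r : ℕ => |C| * (1 / (r : ℝ)))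
      · filter_upwards [Filter.eventually_ge_atTop (max R 1)] with r hr
        have hr1 : 1 ≤ r := (le_max_right _ _).trans hr
        have hrR : (0 : ℝ) < r := by exact_mod_cast hr1
        have hr1R : (1 : ℝ) ≤ r := by exact_mod_cast hr1
        have h4 := h r ((le_max_left _ _).trans hr)
        rw [hD1, rv_mul, rv_X_pow, abs_mul] at h4
        rw [Real.norm_eq_abs]
        have h5 : |(1 / (r : ℝ)) ^ j| = 1 / (r : ℝ) ^ j := by
          rw [abs_of_nonneg (by positivity), one_div_pow]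
        rw [h5] at h4
        have h6 : |rv D1 (1 / (r : ℝ))| = (r : ℝ) ^ j * (1 / (r : ℝ) ^ j * |rv D1 (1 / (r : ℝ))|) := by
          field_simp
        rw [h6]
        calc (r : ℝ) ^ j * (1 / (r : ℝ) ^ j * |rv D1 (1 / (r : ℝ))|)
            ≤ (r : ℝ) ^ j * (C / (r : ℝ) ^ (K + 1)) := by gcongr
          _ ≤ (r : ℝ) ^ K * (|C| / (r : ℝ) ^ (K + 1)) := by
              have e1 : C / (r : ℝ) ^ (K + 1) ≤ |C| / (r : ℝ) ^ (K + 1) := by
                gcongr; exact le_abs_self C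
              calc (r : ℝ) ^ j * (C / (r : ℝ) ^ (K + 1)) ≤ (r : ℝ) ^ j * (|C| / (r : ℝ) ^ (K + 1)) := by
                    gcongr
                _ ≤ _ := by
                    gcongr
          _ = |C| * (1 / (r : ℝ)) := by rw [pow_succ]; field_simp
      · have := tendsto_inv.const_mul |C|
        simpa using this
    have h4 := tendsto_nhds_unique h2 h3
    exact_mod_cast h4

/-- polynomial division at zero -/
theorem div_at_zero (P Q : Polynomial ℚ) (hQ : Q.coeff 0 ≠ 0) (k : ℕ) :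
    ∃ q s : Polynomial ℚ, P = q * Q + X ^ k * s := by
  induction k with
  | zero => exact ⟨0, P, by simp⟩
  | succ k ih =>
    obtain ⟨q, s, h⟩ := ih
    have h1 : X ∣ (s - C (s.coeff 0 / Q.coeff 0) * Q) := by
      rw [Polynomial.X_dvd_iff]
      simp only [Polynomial.coeff_sub, Polynomial.coeff_C_mul]
      field_simp
      ring
    obtain ⟨s', hs'⟩ := h1
    refine ⟨q + X ^ k * C (s.coeff 0 / Q.coeff 0), s', ?_⟩
    have h2 : s = C (s.coeff 0 / Q.coeff 0) * Q + X * s' := by rw [← hs']; ring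
    rw [h]
    conv_lhs => rw [h2]
    ring

theorem rat_expand (P Q : Polynomial ℚ) (hQ : Q.coeff 0 ≠ 0) (k : ℕ) :
    ∃ q : Polynomial ℚ, ∃ C : ℝ, ∃ R : ℕ, ∀ r : ℕ, R ≤ r →
      |rv P (1 / (r : ℝ)) / rv Q (1 / (r : ℝ)) - rv q (1 / (r : ℝ))| ≤ C / (r : ℝ) ^ k := by
  obtain ⟨q, s, h⟩ := div_at_zero P Q hQ k
  have hQ' : (Q.coeff 0 : ℝ) ≠ 0 := by exact_mod_cast hQ
  have h1 := rv_tendsto Q
  have h2 := rv_tendsto s
  have h3 : Filter.Tendsto (fun r : ℕ => rv s (1 / (r : ℝ)) / rv Q (1 / (r : ℝ))) Filter.atTop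
      (nhds ((s.coeff 0 : ℝ) / (Q.coeff 0 : ℝ))) := h2.div h1 hQ'
  have h4 : ∀ᶠ r : ℕ in Filter.atTop, rv Q (1 / (r : ℝ)) ≠ 0 := h1.eventually_ne hQ'
  have h5 : ∀ᶠ r : ℕ in Filter.atTop, |rv s (1 / (r : ℝ)) / rv Q (1 / (r : ℝ))| ≤
      |(s.coeff 0 : ℝ) / (Q.coeff 0 : ℝ)| + 1 := by
    have := h3.abs.eventually (gt_mem_nhds (show |(s.coeff 0 : ℝ) / (Q.coeff 0 : ℝ)| <
      |(s.coeff 0 : ℝ) / (Q.coeff 0 : ℝ)| + 1 by linarith))
    filter_upwards [this] with r hr using hr.le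
  have h6 := h4.and (h5.and (Filter.eventually_ge_atTop 1))
  rw [Filter.eventually_atTop] at h6
  obtain ⟨R, hR⟩ := h6
  refine ⟨q, |(s.coeff 0 : ℝ) / (Q.coeff 0 : ℝ)| + 1, R, fun r hr => ?_⟩
  obtain ⟨g1, g2, g3⟩ := hR r hr
  have hrR : (0 : ℝ) < r := by exact_mod_cast g3
  have e1 : rv P (1 / (r : ℝ)) = rv q (1 / (r : ℝ)) * rv Q (1 / (r : ℝ)) +
      (1 / (r : ℝ)) ^ k * rv s (1 / (r : ℝ)) := by
    rw [h, rv_add, rv_mul, rv_mul, rv_X_pow]
  have e2 : rv P (1 / (r : ℝ)) / rv Q (1 / (r : ℝ)) - rv q (1 / (r : ℝ)) =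
      (1 / (r : ℝ)) ^ k * (rv s (1 / (r : ℝ)) / rv Q (1 / (r : ℝ))) := by
    rw [e1]; field_simp; ring
  rw [e2, abs_mul, abs_of_nonneg (by positivity)]
  calc (1 / (r : ℝ)) ^ k * |rv s (1 / (r : ℝ)) / rv Q (1 / (r : ℝ))|
      ≤ (1 / (r : ℝ)) ^ k * (|(s.coeff 0 : ℝ) / (Q.coeff 0 : ℝ)| + 1) := by gcongr
    _ = _ := by rw [one_div_pow]; ring

/-- approximations to all orders come from one sequence of coefficients -/
theorem patch {g : ℕ → ℝ} (h : ∀ K : ℕ, ∃ q : Polynomial ℚ, ∃ C : ℝ, ∃ R : ℕ, ∀ r : ℕ, R ≤ r →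
      |g r - rv q (1 / (r : ℝ))| ≤ C / (r : ℝ) ^ (K + 1)) :
    ∃ c : ℕ → ℚ, ∀ K : ℕ, ∃ C : ℝ, ∃ R : ℕ, ∀ r : ℕ, R ≤ r →
      |g r - ∑ k ∈ Finset.range (K + 1), (c k : ℝ) * (1 / (r : ℝ)) ^ k| ≤
        C / (r : ℝ) ^ (K + 1) := by
  choose q C R hq using h
  have hcoef : ∀ K j, j ≤ K → (q K).coeff j = (q j).coeff j := by
    intro K j hj
    have h1 : ∀ r : ℕ, max 1 (max (R K) (R j)) ≤ r →
        |rv (q K - q j) (1 / (r : ℝ))| ≤ (|C K| + |C j|) / (r : ℝ) ^ (j + 1) := by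
      intro r hr
      have hr1 : 1 ≤ r := (le_max_left _ _).trans hr
      have hr1R : (1 : ℝ) ≤ r := by exact_mod_cast hr1
      have e1 := hq K r ((le_max_left _ _).trans ((le_max_right _ _).trans hr))
      have e2 := hq j r ((le_max_right _ _).trans ((le_max_right _ _).trans hr))
      have e3 : C K / (r : ℝ) ^ (K + 1) ≤ |C K| / (r : ℝ) ^ (j + 1) := by
        calc C K / (r : ℝ) ^ (K + 1) ≤ |C K| / (r : ℝ) ^ (K + 1) := by
              gcongr; exact le_abs_self _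
          _ ≤ _ := by
              apply div_le_div_of_nonneg_left (abs_nonneg _) (by positivity)
              exact pow_le_pow_right₀ hr1R (by omega)
      have e4 : C j / (r : ℝ) ^ (j + 1) ≤ |C j| / (r : ℝ) ^ (j + 1) := by
        gcongr; exact le_abs_self _
      rw [rv_sub]
      have e5 : rv (q K) (1 / (r : ℝ)) - rv (q j) (1 / (r : ℝ)) =
        -(g r - rv (q K) (1 / (r : ℝ))) + (g r - rv (q j) (1 / (r : ℝ))) := by ring
      rw [e5, add_div]
      refine (abs_add_le _ _).trans ?_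
      rw [abs_neg]
      linarith
    have h2 := coeff_zero_of_small h1 j le_rfl
    rw [Polynomial.coeff_sub, sub_eq_zero] at h2
    exact h2
  refine ⟨fun k => (q k).coeff k, fun K => ?_⟩
  -- split the approximating polynomial
  obtain ⟨T, hT⟩ : ∃ T : Polynomial ℚ, T = ∑ k ∈ Finset.range (K + 1),
    Polynomial.C ((q K).coeff k) * X ^ k := ⟨_, rfl⟩
  have hTc : ∀ d, d < K + 1 → (q K - T).coeff d = 0 := by
    intro d hd
    rw [Polynomial.coeff_sub, hT, Polynomial.finsetSum_coeff, sub_eq_zero]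
    rw [Finset.sum_eq_single d]
    · simp
    · intro b _ hb
      rw [Polynomial.coeff_C_mul, Polynomial.coeff_X_pow, if_neg (Ne.symm hb), mul_zero]
    · intro hd'; exact absurd (Finset.mem_range.2 hd) hd'
  obtain ⟨t, ht⟩ := (Polynomial.X_pow_dvd_iff (f := q K - T) (n := K + 1)).2 hTc
  have h1 := (rv_tendsto t).abs.eventually (gt_mem_nhds (show |(t.coeff 0 : ℝ)| <
      |(t.coeff 0 : ℝ)| + 1 by linarith))
  rw [Filter.eventually_atTop] at h1
  obtain ⟨R', hR'⟩ := h1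
  refine ⟨C K + (|(t.coeff 0 : ℝ)| + 1), max 1 (max (R K) R'), fun r hr => ?_⟩
  have hr1 : 1 ≤ r := (le_max_left _ _).trans hr
  have hrR : (0 : ℝ) < r := by exact_mod_cast hr1
  have e1 := hq K r ((le_max_left _ _).trans ((le_max_right _ _).trans hr))
  have e2 := hR' r ((le_max_right _ _).trans ((le_max_right _ _).trans hr))
  have e3 : ∑ k ∈ Finset.range (K + 1), (((q k).coeff k : ℚ) : ℝ) * (1 / (r : ℝ)) ^ k =
      rv T (1 / (r : ℝ)) := by
    rw [hT]
    unfold rv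
    rw [Polynomial.eval₂_finsetSum]
    apply Finset.sum_congr rfl
    intro k hk
    rw [hcoef K k (by rw [Finset.mem_range] at hk; omega)]
    simp
  have e4 : rv (q K) (1 / (r : ℝ)) - rv T (1 / (r : ℝ)) =
      (1 / (r : ℝ)) ^ (K + 1) * rv t (1 / (r : ℝ)) := by
    rw [← rv_sub, ht, rv_mul, rv_X_pow]
  rw [e3]
  have e5 : g r - rv T (1 / (r : ℝ)) = (g r - rv (q K) (1 / (r : ℝ))) +
      (1 / (r : ℝ)) ^ (K + 1) * rv t (1 / (r : ℝ)) := by rw [← e4]; ring
  rw [e5, add_div]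
  refine (abs_add_le _ _).trans (add_le_add e1 ?_)
  rw [abs_mul, abs_of_nonneg (by positivity), one_div_pow, div_mul_eq_mul_div, one_mul]
  gcongr

/-! ### The sphere polynomials -/

theorem GG_diag (n : ℕ) : GG n n ≠ 0 := by
  unfold GG
  rw [← Nat.pos_iff_ne_zero, Finset.card_pos]
  obtain ⟨w, hw⟩ : ∃ w : List (Ltr (Fin n)), w = (List.finRange n).map (fun i => (i, true)) :=
    ⟨_, rfl⟩
  have hax : axs w = List.finRange n := by
    rw [hw]; simp [axs, Function.comp_def]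
  have hu : (axs w).toFinset = Finset.univ := by
    rw [hax, Finset.eq_univ_iff_forall]
    intro i
    rw [List.mem_toFinset]
    exact List.mem_finRange i
  refine ⟨flow 0 w, mem_SFS.2 ⟨w, by rw [hw]; simp, ?_, hu, rfl⟩⟩
  intro v hv
  have hp := pos_eq_of_flow hv
  have h1 : (axs v).toFinset = Finset.univ := by
    rw [Finset.eq_univ_iff_forall]
    intro i
    rw [List.mem_toFinset]
    by_contra hi
    have h2 := pos_level hi
    rw [hp] at h2
    have h3 := parity_count w i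
    rw [h2, hax, List.count_eq_one_of_mem (List.nodup_finRange n) (List.mem_finRange i)] at h3
    norm_num at h3
  have h2 := (axs v).toFinset_card_le
  rw [h1, Finset.card_univ, Fintype.card_fin, axs_length] at h2
  have h3 : w.length = n := by rw [hw]; simp
  omega

theorem SP_natDegree_le (n : ℕ) : (SP n).natDegree ≤ n := by
  unfold SP
  apply Polynomial.natDegree_sum_le_of_forall_le
  intro m hm
  rw [Finset.mem_range] at hm
  refine (Polynomial.natDegree_C_mul_le _ _).trans ?_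
  rw [descPochhammer_natDegree]
  omega

theorem SP_coeff (n : ℕ) : (SP n).coeff n ≠ 0 := by
  unfold SP
  rw [Polynomial.finsetSum_coeff, Finset.sum_eq_single n]
  · rw [Polynomial.coeff_C_mul]
    have h1 : (descPochhammer ℚ n).coeff n = 1 := by
      have h2 := monic_descPochhammer ℚ n
      have h3 := h2.coeff_natDegree
      rwa [descPochhammer_natDegree] at h3
    rw [h1, mul_one]
    have h2 : (GG n n : ℚ) ≠ 0 := by exact_mod_cast GG_diag n
    have h3 : (n.factorial : ℚ) ≠ 0 := by exact_mod_cast n.factorial_ne_zero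
    positivity
  · intro m hm hmn
    rw [Finset.mem_range] at hm
    rw [Polynomial.coeff_C_mul, Polynomial.coeff_eq_zero_of_natDegree_lt, mul_zero]
    rw [descPochhammer_natDegree]
    omega
  · intro h; exact absurd (Finset.mem_range.2 (by omega)) h

theorem SP_natDegree (n : ℕ) : (SP n).natDegree = n :=
  le_antisymm (SP_natDegree_le n) (Polynomial.le_natDegree_of_ne_zero (SP_coeff n))

theorem sph_real (r n : ℕ) : (sph r n : ℝ) = rv (SP n) (r : ℝ) := by
  rw [rv_nat, ← sph_eq_eval]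
  norm_cast

theorem sph_rev {r : ℕ} (hr : 0 < r) (n : ℕ) :
    (sph r n : ℝ) = (r : ℝ) ^ n * rv (SP n).reverse (1 / (r : ℝ)) := by
  have hrR : (r : ℝ) ≠ 0 := by
    have : r ≠ 0 := by omega
    exact_mod_cast this
  let _ : Invertible (r : ℝ) := invertibleOfNonzero hrR
  have h := Polynomial.eval₂_reverse_mul_pow (algebraMap ℚ ℝ) (r : ℝ) (SP n)
  rw [SP_natDegree, invOf_eq_inv] at h
  rw [sph_real, rv, ← h, rv, one_div, mul_comm]

theorem ratio_expand (n k : ℕ) : ∃ q : Polynomial ℚ, ∃ C : ℝ, ∃ R : ℕ, ∀ r : ℕ, R ≤ r →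
    |(sph r (n + 1) : ℝ) / sph r n / r - rv q (1 / (r : ℝ))| ≤ C / (r : ℝ) ^ k := by
  have hQ : (SP n).reverse.coeff 0 ≠ 0 := by
    rw [Polynomial.coeff_zero_reverse, Polynomial.leadingCoeff, SP_natDegree]
    exact SP_coeff n
  obtain ⟨q, C, R, h⟩ := rat_expand (SP (n + 1)).reverse (SP n).reverse hQ k
  refine ⟨q, C, max 1 R, fun r hr => ?_⟩
  have hr1 : 1 ≤ r := (le_max_left _ _).trans hr
  have h1 := h r ((le_max_right _ _).trans hr)
  have h2 : (sph r (n + 1) : ℝ) / sph r n / r =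
      rv (SP (n + 1)).reverse (1 / (r : ℝ)) / rv (SP n).reverse (1 / (r : ℝ)) := by
    rw [sph_rev hr1, sph_rev hr1]
    have hrR : (r : ℝ) ≠ 0 := by
      have : r ≠ 0 := by omega
      exact_mod_cast this
    rw [div_div, pow_succ]
    rw [show (r : ℝ) ^ n * (r : ℝ) * rv (SP (n + 1)).reverse (1 / (r : ℝ)) =
      ((r : ℝ) ^ n * (r : ℝ)) * rv (SP (n + 1)).reverse (1 / (r : ℝ)) by ring,
      show (r : ℝ) ^ n * rv (SP n).reverse (1 / (r : ℝ)) * (r : ℝ) =
      ((r : ℝ) ^ n * (r : ℝ)) * rv (SP n).reverse (1 / (r : ℝ)) by ring]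
    rw [mul_div_mul_left]
    positivity
  rw [h2]; exact h1

/-- **Expansion to all orders.** -/
theorem om_expand : ∃ c : ℕ → ℚ, ∀ K : ℕ, ∃ C : ℝ, ∃ R : ℕ, ∀ r : ℕ, R ≤ r →
      |om r / r - ∑ k ∈ Finset.range (K + 1), (c k : ℝ) * (1 / (r : ℝ)) ^ k| ≤
        C / (r : ℝ) ^ (K + 1) := by
  apply patch
  intro K
  obtain ⟨n, hn⟩ : ∃ n, n = 2 * (K + 1) * (K + 1) := ⟨_, rfl⟩
  obtain ⟨C, R, h⟩ := ratio_sph K n hn.ge
  obtain ⟨q, C', R', h'⟩ := ratio_expand n (K + 1)
  refine ⟨q, C + C', max 1 (max R R'), fun r hr => ?_⟩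
  have hr1 : 1 ≤ r := (le_max_left _ _).trans hr
  have hrR : (0 : ℝ) < r := by exact_mod_cast hr1
  have h1 := h r ((le_max_left _ _).trans ((le_max_right _ _).trans hr))
  have h2 := h' r ((le_max_right _ _).trans ((le_max_right _ _).trans hr))
  have h3 : om r / r - rv q (1 / (r : ℝ)) = (om r - (sph r (n + 1) : ℝ) / sph r n) / r +
      ((sph r (n + 1) : ℝ) / sph r n / r - rv q (1 / (r : ℝ))) := by ring
  rw [h3, add_div]
  refine (abs_add_le _ _).trans (add_le_add ?_ h2)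
  rw [abs_div, abs_of_pos hrR, pow_succ, ← div_div]
  gcongr

/-- the first coefficients -/
theorem om_expand' : ∃ c : ℕ → ℚ, c 0 = 2 ∧ c 1 = -1 ∧ c 2 = 0 ∧ c 3 = 0 ∧ c 4 = -11 / 16 ∧
    ∀ K : ℕ, ∃ C : ℝ, ∃ R : ℕ, ∀ r : ℕ, R ≤ r →
      |om r / r - ∑ k ∈ Finset.range (K + 1), (c k : ℝ) * (1 / (r : ℝ)) ^ k| ≤
        C / (r : ℝ) ^ (K + 1) := by
  obtain ⟨c, hc⟩ := om_expand
  obtain ⟨C, R, h⟩ := hc 4
  obtain ⟨C', r0, hlb⟩ := om_lb
  have hub := om_ub
  obtain ⟨D, hD⟩ : ∃ D : Polynomial ℚ, D = (∑ k ∈ Finset.range 5, Polynomial.C (c k) * X ^ k) -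
    (Polynomial.C 2 - Polynomial.C 1 * X ^ 1 - Polynomial.C (11 / 16) * X ^ 4) := ⟨_, rfl⟩
  have hsmall : ∀ r : ℕ, max 1 (max R (max r0 (28 ^ 7))) ≤ r →
      |rv D (1 / (r : ℝ))| ≤ (C + (C' + 2 * 28 ^ 7)) / (r : ℝ) ^ (4 + 1) := by
    intro r hr
    have hr1 : 1 ≤ r := (le_max_left _ _).trans hr
    have hr2 : R ≤ r := (le_max_left _ _).trans ((le_max_right _ _).trans hr)
    have hr3 : r0 ≤ r := (le_max_left _ _).trans ((le_max_right _ _).trans
      ((le_max_right _ _).trans hr))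
    have hr4 : 28 ^ 7 ≤ r := (le_max_right _ _).trans ((le_max_right _ _).trans
      ((le_max_right _ _).trans hr))
    have hrR : (0 : ℝ) < r := by exact_mod_cast hr1
    have e1 := h r hr2
    have e2 := hlb r hr3
    have e3 := hub r hr4
    have e4 : |om r / r - (2 - 1 / (r : ℝ) - 11 / 16 * (1 / (r : ℝ)) ^ 4)| ≤
        (C' + 2 * 28 ^ 7) / (r : ℝ) ^ 5 := by
      have f1 : om r / r - (2 - 1 / (r : ℝ) - 11 / 16 * (1 / (r : ℝ)) ^ 4) =
          (om r - (2 * (r : ℝ) - 1 - 11 / 16 / (r : ℝ) ^ 3)) / r := by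
        field_simp
      have f4 : ((C' : ℝ) + 2 * 28 ^ 7) / (r : ℝ) ^ 5 * r =
          C' / (r : ℝ) ^ 4 + 2 * 28 ^ 7 / (r : ℝ) ^ 4 := by
        field_simp
      rw [f1, abs_div, abs_of_pos hrR, div_le_iff₀ hrR, f4, abs_le]
      have f2 : (0 : ℝ) ≤ C' / (r : ℝ) ^ 4 := by positivity
      have f3 : (0 : ℝ) ≤ 2 * 28 ^ 7 / (r : ℝ) ^ 4 := by positivity
      constructor <;> linarith
    have e5 : rv D (1 / (r : ℝ)) = -(om r / r - ∑ k ∈ Finset.range (4 + 1),
        (c k : ℝ) * (1 / (r : ℝ)) ^ k) +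
        (om r / r - (2 - 1 / (r : ℝ) - 11 / 16 * (1 / (r : ℝ)) ^ 4)) := by
      have f1 : rv (∑ k ∈ Finset.range 5, Polynomial.C (c k) * X ^ k) (1 / (r : ℝ)) =
          ∑ k ∈ Finset.range (4 + 1), (c k : ℝ) * (1 / (r : ℝ)) ^ k := by
        unfold rv
        rw [Polynomial.eval₂_finsetSum]
        apply Finset.sum_congr rfl
        intro k _
        simp
      have f2 : rv (Polynomial.C 2 - Polynomial.C 1 * X ^ 1 - Polynomial.C (11 / 16) * X ^ 4)
          (1 / (r : ℝ)) = 2 - 1 / (r : ℝ) - 11 / 16 * (1 / (r : ℝ)) ^ 4 := by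
        rw [rv_sub, rv_sub, rv_mul, rv_mul, rv_C, rv_C, rv_C, rv_X_pow, rv_X_pow]
        push_cast
        ring
      rw [hD, rv_sub, f1, f2]; ring
    rw [e5, add_div]
    refine (abs_add_le _ _).trans (add_le_add ?_ e4)
    rw [abs_neg]; exact e1
  have hz := coeff_zero_of_small hsmall
  have hcoef : ∀ j, D.coeff j = (if j < 5 then c j else 0) -
      ((if j = 0 then 2 else 0) - (if j = 1 then 1 else 0) - (if j = 4 then 11 / 16 else 0)) := by
    intro j
    rw [hD]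
    simp only [Polynomial.coeff_sub, Polynomial.finsetSum_coeff, Polynomial.coeff_C_mul,
      Polynomial.coeff_X_pow, Polynomial.coeff_C]
    congr 1
    · by_cases hj : j < 5
      · rw [if_pos hj, Finset.sum_eq_single j]
        · simp
        · intro b _ hb; rw [if_neg (Ne.symm hb), mul_zero]
        · intro hj'; exact absurd (Finset.mem_range.2 hj) hj'
      · rw [if_neg hj]
        apply Finset.sum_eq_zero
        intro b hb
        rw [Finset.mem_range] at hb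
        rw [if_neg (by omega), mul_zero]
    · simp
  have z0 := hz 0 (by norm_num)
  have z1 := hz 1 (by norm_num)
  have z2 := hz 2 (by norm_num)
  have z3 := hz 3 (by norm_num)
  have z4 := hz 4 (by norm_num)
  rw [hcoef] at z0 z1 z2 z3 z4
  norm_num at z0 z1 z2 z3 z4
  refine ⟨c, by linarith, by linarith, z2, z3, by linarith, hc⟩

end Pool.Agent.Helper524_FM
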