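import Pool.Agent.Helper524_FM.Six

/-!
# Classification of the relators of length 14 and 16
-/

set_option linter.unusedSectionVars false
set_option linter.unusedSimpArgs false

namespace Pool.Agent.Helper524_FM

variable {r : ℕ}

theorem flow_step {u v : List (Ltr (Fin r))} (h : FreeGroup.Red.Step u v) :
    flow 0 u = flow 0 v := by
  obtain @⟨L1, L2, x, b⟩ := h
  have e : ((x, !b) : Ltr (Fin r)) = inv (x, b) := rfl
  rw [e, flow_append, flow_append, flow_cons, flow_cons, low_inv, sgn_inv, inv_fst, stp_inv,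
    Finsupp.single_neg, add_neg_cancel_right]
  congr 1
  abel

theorem flow_fred {u v : List (Ltr (Fin r))} (h : FreeGroup.Red u v) :
    flow 0 u = flow 0 v := by
  induction h with
  | refl => rfl
  | tail _ hs ih => exact ih.trans (flow_step hs)

theorem red_iff_isReduced {w : List (Ltr (Fin r))} : Red w ↔ FreeGroup.IsReduced w := by
  rw [FreeGroup.isReduced_iff_not_step]
  constructor
  · intro h v hs
    obtain @⟨L1, L2, x, b⟩ := hs
    exact h (x, b) ⟨L1, L2, by simp [inv]⟩
  · rintro h l ⟨s, t, rfl⟩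
    apply h (s ++ t)
    have := @FreeGroup.Red.Step.not (Fin r) s t l.1 l.2
    simpa [inv] using this

theorem eq_of_mk {u v : List (Ltr (Fin r))} (hu : Red u) (hv : Red v)
    (h : FreeGroup.mk u = FreeGroup.mk v) : u = v := by
  rw [red_iff_isReduced, FreeGroup.isReduced_iff_reduce_eq] at hu hv
  rw [← hu, ← hv]
  exact FreeGroup.reduce.sound h

theorem length_le_of_mk {u v : List (Ltr (Fin r))} (hu : Red u)
    (h : FreeGroup.mk u = FreeGroup.mk v) : u.length ≤ v.length := by
  rw [red_iff_isReduced, FreeGroup.isReduced_iff_reduce_eq] at hu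
  rw [← hu, FreeGroup.reduce.sound h]
  exact FreeGroup.reduce.red.length_le

theorem mk_eq_one {w : List (Ltr (Fin r))} (hz : ZW w) (hl : w.length < 14) :
    FreeGroup.mk w = 1 := by
  have h1 : FreeGroup.Red w (FreeGroup.reduce w) := FreeGroup.reduce.red
  have h2 : ZW (FreeGroup.reduce w) := by
    unfold ZW; rw [← flow_fred h1]; exact hz
  have h3 : Red (FreeGroup.reduce w) := by
    rw [red_iff_isReduced, FreeGroup.isReduced_iff_reduce_eq]
    exact FreeGroup.reduce.idem
  by_contra hne
  have h4 : FreeGroup.reduce w ≠ [] := by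
    intro h
    apply hne
    rw [← FreeGroup.reduce.self, h]
    rfl
  have h5 := zw_len h3 h2 h4
  have h6 := h1.length_le
  omega

theorem mk_invW (w : List (Ltr (Fin r))) :
    FreeGroup.mk (invW w) = (FreeGroup.mk w)⁻¹ := by
  rw [FreeGroup.inv_mk]; rfl

theorem mk_app (u v : List (Ltr (Fin r))) :
    FreeGroup.mk (u ++ v) = FreeGroup.mk u * FreeGroup.mk v := by
  rw [FreeGroup.mul_mk]

theorem mk_cancel (s t : List (Ltr (Fin r))) (l : Ltr (Fin r)) :
    FreeGroup.mk (s ++ l :: inv l :: t) = FreeGroup.mk (s ++ t) := by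
  have := @FreeGroup.Red.Step.not (Fin r) s t l.1 l.2
  exact Quot.sound this

theorem mk_cancel' (s t : List (Ltr (Fin r))) (l : Ltr (Fin r)) :
    FreeGroup.mk (s ++ inv l :: l :: t) = FreeGroup.mk (s ++ t) := by
  have := mk_cancel s t (inv l)
  rwa [inv_inv] at this

theorem red_cons {a b : Ltr (Fin r)} {w : List (Ltr (Fin r))} :
    Red (a :: b :: w) ↔ b ≠ inv a ∧ Red (b :: w) := by
  rw [red_iff_isReduced, red_iff_isReduced, FreeGroup.isReduced_cons_cons]
  constructor
  · rintro ⟨h1, h2⟩
    refine ⟨?_, h2⟩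
    rintro rfl
    have := h1 rfl
    simp [inv] at this
  · rintro ⟨h1, h2⟩
    refine ⟨fun he => ?_, h2⟩
    by_contra hne
    apply h1
    rcases a with ⟨a, s⟩
    rcases b with ⟨b, t⟩
    simp only at he hne
    subst he
    simp only [inv, Prod.mk.injEq, true_and]
    cases s <;> cases t <;> simp_all

theorem red_nil : Red ([] : List (Ltr (Fin r))) := by
  rw [red_iff_isReduced]; exact FreeGroup.IsReduced.nil

theorem red_one (a : Ltr (Fin r)) : Red [a] := by
  rw [red_iff_isReduced]; exact FreeGroup.IsReduced.singleton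

theorem ne_inv_of_axis {a b : Ltr (Fin r)} (h : a.1 ≠ b.1) : b ≠ inv a := by
  rintro rfl; exact h rfl

theorem Red.invW {w : List (Ltr (Fin r))} (h : Red w) : Red (invW w) := by
  intro l hl
  obtain ⟨s, t, e⟩ := hl
  apply h l
  refine ⟨Pool.Agent.Helper524_FM.invW t, Pool.Agent.Helper524_FM.invW s, ?_⟩
  have := congrArg Pool.Agent.Helper524_FM.invW e
  simp only [invW_append, invW_cons, invW_nil, invW_invW, inv_inv, List.nil_append,
    List.singleton_append, List.append_assoc, List.cons_append] at this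
  simpa using this

theorem invW_eq_comm {u v : List (Ltr (Fin r))} : invW u = v ↔ u = invW v := by
  constructor
  · rintro rfl; rw [invW_invW]
  · rintro rfl; rw [invW_invW]

/-- the relator of length 14 -/
def R0 (a b c : Ltr (Fin r)) : List (Ltr (Fin r)) :=
  [a, b, inv a, inv b, c, b, inv c, a, inv b, inv a, b, c, inv b, inv c]

/-- the relator of length 16 -/
def W0 (a b c d : Ltr (Fin r)) : List (Ltr (Fin r)) :=
  [a, b, inv a, inv b, c, d, inv c, inv d, b, a, inv b, inv a, d, c, inv d, inv c]

theorem rot_of (u v : List (Ltr (Fin r))) {w : List (Ltr (Fin r))} (h : w ~r (u ++ v)) :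
    w ~r (v ++ u) := h.trans List.isRotated_append

/-- **Classification, length 14.** -/
theorem class14 {i : Fin r} {w : List (Ltr (Fin r))} (hc : (axs w).count i = 4) (hw : CRed w)
    (hz : ZW w) (hl : w.length = 14) : ∃ a b c, w ~r R0 a b c := by
  obtain ⟨l, u1, u2, u3, u4, hrot, hli, b1, b2, b3, b4, m1, m2, m3, m4, p1, p3, z1, z2⟩ :=
    struct4 (N := 14) (fun q h1 h2 h3 => zw_len h1 h2 h3) hc hw hz (by omega)
  have hred := (hw.isRotated hrot).red
  have r1 : Red u1 := hred.fac ⟨[l], inv l :: (u2 ++ l :: (u3 ++ inv l :: u4)), by simp⟩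
  have r2 : Red u2 := hred.fac ⟨l :: (u1 ++ [inv l]), l :: (u3 ++ inv l :: u4), by simp⟩
  have r3 : Red u3 := hred.fac ⟨l :: (u1 ++ inv l :: (u2 ++ [l])), inv l :: u4, by simp⟩
  have r4 : Red u4 := hred.fac ⟨l :: (u1 ++ inv l :: (u2 ++ l :: (u3 ++ [inv l]))), [], by simp⟩
  have c1 := closed_len m1 r1 p1
  have c3 := closed_len m3 r3 p3
  have g2 := List.length_pos_iff.2 m2
  have g4 := List.length_pos_iff.2 m4
  have hlen := hrot.perm.length_eq
  simp only [List.length_cons, List.length_append] at hlen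
  have l1 : u1.length = 4 := by omega
  have l3 : u3.length = 4 := by omega
  have l2 : u2.length = 1 := by omega
  obtain ⟨y, rfl⟩ := List.length_eq_one_iff.1 l2
  have e4 : u4 = [inv y] := by
    apply eq_of_mk r4 (red_one _)
    have := mk_eq_one z1 (by simp; omega)
    rw [mk_app] at this
    rw [show [inv y] = invW [y] by simp, mk_invW]
    exact (inv_eq_of_mul_eq_one_right this).symm
  subst e4
  obtain ⟨a, b, hab, rfl⟩ := closed_four l1 r1 p1
  obtain ⟨c, d, hcd, rfl⟩ := closed_four l3 r3 p3
  have hm := mk_eq_one z2 (by simp)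
  have hm2 : FreeGroup.mk [a, b, inv a, inv b] = FreeGroup.mk [y, d, c, inv d, inv c, inv y] := by
    rw [mk_app, mk_app, mk_app] at hm
    have e1 : FreeGroup.mk [y, d, c, inv d, inv c, inv y] =
        FreeGroup.mk [y] * (FreeGroup.mk [c, d, inv c, inv d])⁻¹ * (FreeGroup.mk [y])⁻¹ := by
      rw [← mk_invW, ← mk_invW, ← mk_app, ← mk_app]; simp
    rw [e1]
    rw [mk_invW] at hm
    generalize FreeGroup.mk [a, b, inv a, inv b] = A at *
    generalize FreeGroup.mk [c, d, inv c, inv d] = C at *
    generalize FreeGroup.mk [y] = Y at *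
    have : A * (Y * C * Y⁻¹) = 1 := by rw [← hm]; group
    rw [eq_inv_of_mul_eq_one_left this]; group
  by_cases h1 : d = inv y
  · -- `y = inv d`
    subst h1
    have e1 : [a, b, inv a, inv b] = [c, y, inv c, inv y] := by
      apply eq_of_mk r1
      · simp only [red_cons]
        refine ⟨ne_inv_of_axis hcd, ?_, ?_, red_one _⟩
        · exact ne_inv_of_axis (Ne.symm hcd)
        · exact ne_inv_of_axis hcd
      · rw [hm2]
        have := mk_cancel [] [c, inv (inv y), inv c, inv y] y
        simpa using this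
    rw [e1] at hrot
    refine ⟨c, y, inv l, ?_⟩
    have := rot_of [l] _ hrot
    simpa [R0] using this
  · by_cases h2 : c = inv y
    · subst h2
      have e1 : [a, b, inv a, inv b] = [y, d, inv y, inv d] := by
        apply eq_of_mk r1
        · simp only [red_cons]
          refine ⟨ne_inv_of_axis hcd, ?_, ?_, red_one _⟩
          · exact ne_inv_of_axis (Ne.symm hcd)
          · exact ne_inv_of_axis hcd
        · rw [hm2]
          have := mk_cancel [y, d, inv y, inv d] [] y
          simpa using this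
      rw [e1] at hrot
      refine ⟨inv l, y, d, ?_⟩
      have := rot_of [l, y, d, inv y, inv d] _ hrot
      simpa [R0] using this
    · exfalso
      have e1 : [a, b, inv a, inv b] = [y, d, c, inv d, inv c, inv y] := by
        apply eq_of_mk r1 _ hm2
        simp only [red_cons]
        refine ⟨h1, ne_inv_of_axis (Ne.symm hcd), ne_inv_of_axis hcd,
          ne_inv_of_axis (Ne.symm hcd), ?_, red_one _⟩
        rw [inv_inv]
        intro h; exact h2 h.symm
      have := congrArg List.length e1
      simp at this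

theorem conj_eq {A Y C : FreeGroup (Fin r)} (h : A * Y * C * Y⁻¹ = 1) : A = Y * C⁻¹ * Y⁻¹ := by
  have : A * (Y * C * Y⁻¹) = 1 := by rw [← h]; group
  rw [eq_inv_of_mul_eq_one_left this]; group

theorem conj_eq' {A Y C : FreeGroup (Fin r)} (h : A * Y * C * Y⁻¹ = 1) : C = Y⁻¹ * A⁻¹ * Y := by
  have : A * (Y * C * Y⁻¹) = 1 := by rw [← h]; group
  have h2 := eq_inv_of_mul_eq_one_right this
  rw [← h2]; group

theorem eq_of_mk_len {u v : List (Ltr (Fin r))} (hu : Red u)
    (h : FreeGroup.mk u = FreeGroup.mk v) (hl : v.length ≤ u.length) : u = v := by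
  rw [red_iff_isReduced, FreeGroup.isReduced_iff_reduce_eq] at hu
  have h1 : FreeGroup.reduce v = u := by rw [← FreeGroup.reduce.sound h, hu]
  have h2 : (FreeGroup.reduce v).Sublist v := FreeGroup.reduce.red.sublist
  rw [h1] at h2
  exact h2.eq_of_length_le hl

/-- **Classification, length 16.** -/
theorem class16 {i : Fin r} {w : List (Ltr (Fin r))} (hc : (axs w).count i = 4) (hw : CRed w)
    (hz : ZW w) (hl : w.length = 16) (hax : ∀ j, (axs w).count j ≤ 4) :
    ∃ a b c d, w ~r W0 a b c d := by
  obtain ⟨l, u1, u2, u3, u4, hrot, hli, b1, b2, b3, b4, m1, m2, m3, m4, p1, p3, z1, z2⟩ :=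
    struct4 (N := 14) (fun q h1 h2 h3 => zw_len h1 h2 h3) hc hw hz (by omega)
  have hred := (hw.isRotated hrot).red
  have r1 : Red u1 := hred.fac ⟨[l], inv l :: (u2 ++ l :: (u3 ++ inv l :: u4)), by simp⟩
  have r2 : Red u2 := hred.fac ⟨l :: (u1 ++ [inv l]), l :: (u3 ++ inv l :: u4), by simp⟩
  have r3 : Red u3 := hred.fac ⟨l :: (u1 ++ inv l :: (u2 ++ [l])), inv l :: u4, by simp⟩
  have r4 : Red u4 := hred.fac ⟨l :: (u1 ++ inv l :: (u2 ++ l :: (u3 ++ [inv l]))), [], by simp⟩
  have c1 := closed_len m1 r1 p1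
  have c3 := closed_len m3 r3 p3
  have g2 := List.length_pos_iff.2 m2
  have g4 := List.length_pos_iff.2 m4
  have hlen := hrot.perm.length_eq
  simp only [List.length_cons, List.length_append] at hlen
  have e4 : u4 = invW u2 := by
    apply eq_of_mk r4 r2.invW
    have := mk_eq_one z1 (by simp; omega)
    rw [mk_app] at this
    rw [mk_invW]
    exact (inv_eq_of_mul_eq_one_right this).symm
  subst e4
  rw [invW_length] at hlen
  have hm := mk_eq_one z2 (by simp; omega)
  rw [mk_app, mk_app, mk_app, mk_invW] at hm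
  have hm1 := conj_eq hm
  have hm3 := conj_eq' hm
  rw [← mk_invW, ← mk_invW, ← mk_app, ← mk_app] at hm1
  rw [← mk_invW, ← mk_invW, ← mk_app, ← mk_app] at hm3
  have hcases : (u2.length = 1 ∧ u1.length = 4 ∧ u3.length = 6) ∨
      (u2.length = 1 ∧ u1.length = 6 ∧ u3.length = 4) ∨
      (u2.length = 2 ∧ u1.length = 4 ∧ u3.length = 4) := by omega
  rcases hcases with ⟨l2, l1, l3⟩ | ⟨l2, l1, l3⟩ | ⟨l2, l1, l3⟩
  · obtain ⟨y, rfl⟩ := List.length_eq_one_iff.1 l2
    obtain ⟨a, b, hab, rfl⟩ := closed_four l1 r1 p1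
    have e3 := eq_of_mk_len r3 hm3 (by simp; omega)
    rw [e3] at hrot
    refine ⟨a, b, inv l, y, ?_⟩
    have := rot_of [l] _ hrot
    simpa [W0] using this
  · obtain ⟨y, rfl⟩ := List.length_eq_one_iff.1 l2
    obtain ⟨c, d, hcd, rfl⟩ := closed_four l3 r3 p3
    have e1 := eq_of_mk_len r1 hm1 (by simp; omega)
    rw [e1] at hrot
    refine ⟨d, c, inv y, inv l, ?_⟩
    have := rot_of [l, y] _ hrot
    simpa [W0] using this
  · obtain ⟨y, z, rfl⟩ := List.length_eq_two.1 l2
    obtain ⟨a, b, hab, rfl⟩ := closed_four l1 r1 p1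
    obtain ⟨c, d, hcd, rfl⟩ := closed_four l3 r3 p3
    exfalso
    have hyz : z ≠ inv y := (red_cons.1 r2).1
    have hm2 : FreeGroup.mk [a, b, inv a, inv b, y, z] =
        FreeGroup.mk [y, z, d, c, inv d, inv c] := by
      have e1 : FreeGroup.mk [a, b, inv a, inv b, y, z] =
        FreeGroup.mk [a, b, inv a, inv b] * FreeGroup.mk [y, z] := by rw [← mk_app]; simp
      have e2 : FreeGroup.mk [y, z, d, c, inv d, inv c] =
        FreeGroup.mk [y, z] * (FreeGroup.mk [c, d, inv c, inv d])⁻¹ := by
        rw [← mk_invW, ← mk_app]; simp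
      rw [e1, e2, conj_eq hm]
      group
    have hcnt := hax y.1
    rw [show (axs w).count y.1 = (axs (l :: ([a, b, inv a, inv b] ++ inv l :: ([y, z] ++
      l :: ([c, d, inv c, inv d] ++ inv l :: invW [y, z]))))).count y.1 from
      (hrot.perm.map Prod.fst).count_eq _] at hcnt
    simp only [axs_cons, axs_append, axs_nil, List.count_append, List.count_cons, List.count_nil,
      inv_fst, invW_cons, invW_nil, List.nil_append, beq_iff_eq, List.cons_append] at hcnt
    by_cases hyb : y = b
    · subst hyb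
      have hcy : c.1 ≠ y.1 := by
        intro h; simp [h] at hcnt; omega
      have hdy : d.1 ≠ y.1 := by
        intro h; simp [h] at hcnt; omega
      have hm4 : FreeGroup.mk [a, y, inv a, z] = FreeGroup.mk [y, z, d, c, inv d, inv c] := by
        rw [← hm2]
        have := mk_cancel' [a, y, inv a] [z] y
        simpa using this.symm
      by_cases hdz : d = inv z
      · subst hdz
        have hm5 : FreeGroup.mk [a, y, inv a, z] = FreeGroup.mk [y, c, z, inv c] := by
          rw [hm4]
          have := mk_cancel [y] [c, z, inv c] z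
          simpa using this
        have hr5 : Red [y, c, z, inv c] := by
          simp only [red_cons]
          refine ⟨ne_inv_of_axis (Ne.symm hcy), ne_inv_of_axis hcd, ne_inv_of_axis (Ne.symm hcd),
            red_one _⟩
        have e1 := eq_of_mk_len hr5 hm5.symm (by simp)
        simp only [List.cons.injEq] at e1
        exact hab (by rw [e1.1])
      · have hr5 : Red [y, z, d, c, inv d, inv c] := by
          simp only [red_cons]
          refine ⟨hyz, hdz, ne_inv_of_axis (Ne.symm hcd), ne_inv_of_axis hcd,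
            ne_inv_of_axis (Ne.symm hcd), red_one _⟩
        have := length_le_of_mk hr5 hm4.symm
        simp at this
    · have e1 : [a, b, inv a, inv b, y, z] = [y, z, d, c, inv d, inv c] := by
        apply eq_of_mk_len _ hm2 (by simp)
        simp only [red_cons]
        refine ⟨ne_inv_of_axis hab, ne_inv_of_axis (Ne.symm hab), ne_inv_of_axis hab, ?_, hyz,
          red_one _⟩
        rw [inv_inv]; exact hyb
      simp only [List.cons.injEq] at e1
      obtain ⟨x1, x2, x3, -⟩ := e1
      rw [← x1, ← x3] at hcnt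
      simp at hcnt
      omega

end Pool.Agent.Helper524_FM
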