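import Pool.Agent.Helper524_FM.Block

/-!
# Many words with distinct flows
-/

set_option linter.unusedSectionVars false
set_option linter.unusedSimpArgs false

namespace Pool.Agent.Helper524_FM

open scoped Classical

theorem bad_append (P : Par) {r : ℕ} (u v : List (Ltr (Fin r))) :
    bad P (u ++ v) =
      ((Finset.range u.length).filter (fun t => ¬ OK P (u.drop t ++ v))).card + bad P v := by
  induction u with
  | nil => simp
  | cons l u ih =>
    have h1 : bad P (l :: u ++ v) = (if OK P (l :: u ++ v) then 0 else 1) + bad P (u ++ v) := by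
      unfold bad
      rw [List.cons_append, code, List.countP_cons]
      by_cases h : OK P (l :: (u ++ v))
      · simp [h]
      · simp [h, add_comm]
    rw [h1, ih, Finset.card_filter, Finset.card_filter, List.length_cons, Finset.sum_range_succ']
    simp only [List.drop_succ_cons, List.drop_zero]
    simp only [List.cons_append, ite_not]
    by_cases h : OK P (l :: (u ++ v))
    · rw [if_pos h]; ring
    · rw [if_neg h]; ring

/-- the parameters used -/
def mkPar (c τ : ℕ) (hc : 2 * c ≤ τ) (hτ : 2 ≤ τ) : Par where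
  c := c
  τ := τ
  D := 5 * c + 1
  K := 2 * (5 * c + 1 + (3 * c + 5))
  hc := hc
  hτ := hτ
  hD := le_rfl
  hK := by omega

/-- constant of the window estimate -/
def C5 (P : Par) : ℕ := 2 * (2 * P.K) ^ P.K + 3 * (P.D + 8) *
  (2 * ((P.D + 1) * 2 ^ P.D * (8 * (P.D + (3 * P.c + 5))) ^ (2 * (P.D + (3 * P.c + 5)))))

/-- constant of the block estimate -/
def C4 (P : Par) : ℕ := 2 * C5 P + P.K

/-- block length -/
def NN (c r : ℕ) : ℕ := 2 * r ^ (c + 2) + 1

theorem one_time {P : Par} (hPK : P.K = 2 * (P.D + (3 * P.c + 5))) {r : ℕ}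
    (hr : 2 * P.τ ^ 2 * C1 P.τ + 1 ≤ r) {N : ℕ} (hN : N = NN P.c r) (𝓑 : Blk P.τ r N) {k : ℕ}
    {w' : List (Ltr (Fin r))}
    (hw' : w' ∈ cat 𝓑.B k) {t0 : ℕ} (ht0 : t0 + P.K ≤ N) :
    r ^ (P.c + 1) * (𝓑.B.filter (fun b => ¬ OK P (b.drop t0 ++ w'))).card ≤
      C5 P * ga P.τ r N := by
  have hr0 : 0 < r := by omega
  have hN0 : 0 < N := by rw [hN, NN]; omega
  obtain ⟨H, hH⟩ : ∃ H, H = (2 * N + P.D + 2) * N := ⟨_, rfl⟩
  obtain ⟨X1, hX1⟩ : ∃ X1, X1 = (GW P.τ r N).filter
      (fun b => ¬ ((b.drop t0).take P.K).length ≤ nax ((b.drop t0).take P.K) + P.c) := ⟨_, rfl⟩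
  obtain ⟨X2, hX2⟩ : ∃ X2 : ℕ → Finset (List (Ltr (Fin r))), X2 = fun t =>
    (GW P.τ r N).filter (fun b => Near P.D (pos ((b.drop t0 ++ w').take t))) := ⟨_, rfl⟩
  have hcov : 𝓑.B.filter (fun b => ¬ OK P (b.drop t0 ++ w')) ⊆
      X1 ∪ (Finset.Ico P.K H).biUnion X2 := by
    intro b hb
    simp only [Finset.mem_filter] at hb
    obtain ⟨hbB, hbad⟩ := hb
    have hlen := 𝓑.len hbB
    have hgood := 𝓑.good hbB
    rw [Finset.mem_union, Finset.mem_biUnion]
    by_contra hcon
    rw [not_or] at hcon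
    obtain ⟨hn1, hn2⟩ := hcon
    apply hbad
    have htake : (b.drop t0 ++ w').take P.K = (b.drop t0).take P.K := by
      rw [List.take_append_of_le_length]
      rw [List.length_drop, hlen]; omega
    have hGW := 𝓑.sub hbB
    refine ⟨?_, ?_, ?_, ?_⟩
    · rw [List.length_append, List.length_drop, hlen]; omega
    · rw [htake]
      exact hgood.fac ((List.take_prefix _ _).isInfix.trans (List.drop_suffix _ _).isInfix)
    · rw [htake]
      by_contra hlt
      exact hn1 (by rw [hX1, Finset.mem_filter]; exact ⟨hGW, hlt⟩)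
    · intro t ht1 ht2 hnear
      rcases Nat.lt_or_ge t H with h | h
      · exact hn2 ⟨t, Finset.mem_Ico.2 ⟨ht1, h⟩, by
          rw [hX2]; simp only [Finset.mem_filter]; exact ⟨hGW, hnear⟩⟩
      · have h1 := near_tot hnear
        have hdl : (b.drop t0).length = N - t0 := by rw [List.length_drop, hlen]
        have hHN : N ≤ H := by rw [hH]; exact Nat.le_mul_of_pos_left _ (by omega)
        have hle : (b.drop t0).length ≤ t := by rw [hdl]; omega
        have h2 : (b.drop t0 ++ w').take t = b.drop t0 ++ w'.take (t - (N - t0)) := by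
          rw [List.take_append, List.take_of_length_le hle, hdl]
        rw [List.length_append, hdl] at ht2
        have h3 := cat_drift 𝓑 hN0 k hw' (t := t - (N - t0)) (by omega)
        have h4 : 2 * N + P.D + 1 ≤ (t - (N - t0)) / N := by
          rw [Nat.le_div_iff_mul_le hN0]
          have : (2 * N + P.D + 1) * N + N = H := by rw [hH]; ring
          omega
        generalize (t - (N - t0)) / N = q at h3 h4
        have h5 := (𝓑.abs_eq (tot (b.drop t0))).2
        have h6 := abs_tot_le (b.drop t0)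
        have h7 := (𝓑.abs_eq (tot ((b.drop t0 ++ w').take t))).1
        rw [h2, tot_append, mul_add] at h7
        rw [h2, tot_append] at h1
        have h8 : ((b.drop t0).length : ℤ) ≤ N := by rw [hdl]; exact_mod_cast Nat.sub_le _ _
        have h9 : (2 * (N : ℤ) + P.D + 1) ≤ (q : ℤ) := by exact_mod_cast h4
        linarith
  have hcard := Finset.card_le_card hcov
  have h1 : r ^ (P.c + 1) * X1.card ≤ 2 * (2 * P.K) ^ P.K * ga P.τ r N := by
    rw [hX1]
    exact codim_count P.hτ hr (by omega) ht0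
  obtain ⟨C3, hC3⟩ : ∃ C3, C3 = 2 * ((P.D + 1) * 2 ^ P.D *
    (8 * (P.D + (3 * P.c + 5))) ^ (2 * (P.D + (3 * P.c + 5)))) := ⟨_, rfl⟩
  have h2 : ∀ t ∈ Finset.Ico P.K H, r ^ (3 * P.c + 5) * (X2 t).card ≤ C3 * ga P.τ r N := by
    intro t ht
    rw [Finset.mem_Ico] at ht
    rw [hX2, hC3]
    exact near_count P.hτ hr (by omega) (by omega) rfl w'
  have h3 : r ^ (3 * P.c + 5) * ((Finset.Ico P.K H).biUnion X2).card ≤
      H * (C3 * ga P.τ r N) := by
    refine (Nat.mul_le_mul_left _ Finset.card_biUnion_le).trans ?_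
    rw [Finset.mul_sum]
    refine (Finset.sum_le_sum h2).trans ?_
    rw [Finset.sum_const, smul_eq_mul]
    apply Nat.mul_le_mul_right
    rw [Nat.card_Ico]
    exact Nat.sub_le _ _
  have hHb : H ≤ 3 * (P.D + 8) * r ^ (2 * P.c + 4) := by
    have e1 : 1 ≤ r ^ (P.c + 2) := Nat.one_le_pow _ _ hr0
    have e2 : N ≤ 3 * r ^ (P.c + 2) := by rw [hN, NN]; omega
    have e3 : 2 * N + P.D + 2 ≤ (P.D + 8) * r ^ (P.c + 2) := by nlinarith
    calc H ≤ ((P.D + 8) * r ^ (P.c + 2)) * (3 * r ^ (P.c + 2)) := by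
          rw [hH]; exact Nat.mul_le_mul e3 e2
      _ = 3 * (P.D + 8) * r ^ (2 * P.c + 4) := by
          rw [show 2 * P.c + 4 = (P.c + 2) + (P.c + 2) by ring, pow_add]; ring
  have h4 : r ^ (P.c + 1) * ((Finset.Ico P.K H).biUnion X2).card ≤
      3 * (P.D + 8) * C3 * ga P.τ r N := by
    have e1 : r ^ (3 * P.c + 5) = r ^ (2 * P.c + 4) * r ^ (P.c + 1) := by
      rw [← pow_add]; congr 1; ring
    have e2 : r ^ (2 * P.c + 4) * (r ^ (P.c + 1) * ((Finset.Ico P.K H).biUnion X2).card) ≤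
        r ^ (2 * P.c + 4) * (3 * (P.D + 8) * C3 * ga P.τ r N) := by
      calc r ^ (2 * P.c + 4) * (r ^ (P.c + 1) * ((Finset.Ico P.K H).biUnion X2).card)
          = r ^ (3 * P.c + 5) * ((Finset.Ico P.K H).biUnion X2).card := by rw [e1]; ring
        _ ≤ H * (C3 * ga P.τ r N) := h3
        _ ≤ (3 * (P.D + 8) * r ^ (2 * P.c + 4)) * (C3 * ga P.τ r N) :=
            Nat.mul_le_mul_right _ hHb
        _ = r ^ (2 * P.c + 4) * (3 * (P.D + 8) * C3 * ga P.τ r N) := by ring
    exact Nat.le_of_mul_le_mul_left e2 (Nat.pow_pos hr0)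
  calc r ^ (P.c + 1) * (𝓑.B.filter (fun b => ¬ OK P (b.drop t0 ++ w'))).card
      ≤ r ^ (P.c + 1) * (X1 ∪ (Finset.Ico P.K H).biUnion X2).card :=
        Nat.mul_le_mul_left _ hcard
    _ ≤ r ^ (P.c + 1) * (X1.card + ((Finset.Ico P.K H).biUnion X2).card) :=
        Nat.mul_le_mul_left _ (Finset.card_union_le _ _)
    _ = r ^ (P.c + 1) * X1.card + r ^ (P.c + 1) * ((Finset.Ico P.K H).biUnion X2).card := by ring
    _ ≤ 2 * (2 * P.K) ^ P.K * ga P.τ r N + 3 * (P.D + 8) * C3 * ga P.τ r N := Nat.add_le_add h1 h4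
    _ = C5 P * ga P.τ r N := by rw [C5, ← hC3]; ring

theorem one_block {P : Par} (hPK : P.K = 2 * (P.D + (3 * P.c + 5))) {r : ℕ}
    (hr : 2 * P.τ ^ 2 * C1 P.τ + 1 ≤ r) {N : ℕ} (hN : N = NN P.c r) (𝓑 : Blk P.τ r N) {k : ℕ}
    {w' : List (Ltr (Fin r))} (hw' : w' ∈ cat 𝓑.B k) :
    r ^ (P.c + 1) * ∑ b ∈ 𝓑.B, ((Finset.range N).filter
      (fun t => ¬ OK P (b.drop t ++ w'))).card ≤
      C4 P * N * 𝓑.B.card := by
  have hr0 : 0 < r := by omega
  have hswap : ∑ b ∈ 𝓑.B, ((Finset.range N).filter (fun t => ¬ OK P (b.drop t ++ w'))).card =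
      ∑ t ∈ Finset.range N, (𝓑.B.filter (fun b => ¬ OK P (b.drop t ++ w'))).card := by
    simp only [Finset.card_filter]
    exact Finset.sum_comm
  rw [hswap, Finset.mul_sum]
  have hNr : r ^ (P.c + 1) ≤ N := by
    rw [hN, NN]
    have : r ^ (P.c + 1) ≤ r ^ (P.c + 2) := Nat.pow_le_pow_right hr0 (by omega)
    omega
  have hterm : ∀ t ∈ Finset.range N,
      r ^ (P.c + 1) * (𝓑.B.filter (fun b => ¬ OK P (b.drop t ++ w'))).card ≤
        2 * C5 P * 𝓑.B.card + (if N < t + P.K then N * 𝓑.B.card else 0) := by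
    intro t ht
    rw [Finset.mem_range] at ht
    split
    · calc r ^ (P.c + 1) * (𝓑.B.filter (fun b => ¬ OK P (b.drop t ++ w'))).card
          ≤ N * 𝓑.B.card := Nat.mul_le_mul hNr (Finset.card_filter_le _ _)
        _ ≤ _ := Nat.le_add_left _ _
    · rename_i h
      refine (one_time hPK hr hN 𝓑 hw' (by omega)).trans ?_
      rw [add_zero]
      calc C5 P * ga P.τ r N ≤ C5 P * (2 * 𝓑.B.card) := Nat.mul_le_mul_left _ 𝓑.half
        _ = 2 * C5 P * 𝓑.B.card := by ring
  refine (Finset.sum_le_sum hterm).trans ?_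
  rw [Finset.sum_add_distrib, Finset.sum_const, Finset.card_range, smul_eq_mul,
    ← Finset.sum_filter, Finset.sum_const, smul_eq_mul]
  have hfew : ((Finset.range N).filter (fun t => N < t + P.K)).card ≤ P.K := by
    have : (Finset.range N).filter (fun t => N < t + P.K) ⊆ Finset.Ico (N - P.K) N := by
      intro t ht
      simp only [Finset.mem_filter, Finset.mem_range] at ht
      rw [Finset.mem_Ico]; omega
    refine (Finset.card_le_card this).trans ?_
    rw [Nat.card_Ico]; omega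
  calc N * (2 * C5 P * 𝓑.B.card) + ((Finset.range N).filter (fun t => N < t + P.K)).card *
        (N * 𝓑.B.card)
      ≤ N * (2 * C5 P * 𝓑.B.card) + P.K * (N * 𝓑.B.card) :=
        Nat.add_le_add_left (Nat.mul_le_mul_right _ hfew) _
    _ = C4 P * N * 𝓑.B.card := by rw [C4]; ring

theorem cat_inj {τ r N : ℕ} (𝓑 : Blk τ r N) (k : ℕ) :
    Set.InjOn (fun p : List (Ltr (Fin r)) × List (Ltr (Fin r)) => p.1 ++ p.2)
      (𝓑.B ×ˢ cat 𝓑.B k : Finset _) := by
  rintro ⟨b, w⟩ hb ⟨b', w'⟩ hb' h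
  simp only [Finset.coe_product, Set.mem_prod, Finset.mem_coe] at hb hb'
  simp only at h
  have := List.append_inj h (by rw [𝓑.len hb.1, 𝓑.len hb'.1])
  simp [this.1, this.2]

theorem card_cat {τ r N : ℕ} (𝓑 : Blk τ r N) (k : ℕ) :
    (cat 𝓑.B k).card = 𝓑.B.card ^ k := by
  induction k with
  | zero => simp [cat]
  | succ k ih =>
    rw [cat, Finset.card_image_of_injOn (cat_inj 𝓑 k), Finset.card_product, ih, pow_succ]
    ring

theorem cat_length {τ r N : ℕ} (𝓑 : Blk τ r N) (k : ℕ) {w : List (Ltr (Fin r))}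
    (hw : w ∈ cat 𝓑.B k) : w.length = N * k := by
  induction k generalizing w with
  | zero => simp [cat] at hw; simp [hw]
  | succ k ih =>
    simp only [cat, Finset.mem_image, Finset.mem_product, Prod.exists] at hw
    obtain ⟨b, w', ⟨hb, hw'⟩, rfl⟩ := hw
    rw [List.length_append, 𝓑.len hb, ih hw']; ring

theorem sum_bad {P : Par} (hPK : P.K = 2 * (P.D + (3 * P.c + 5))) {r : ℕ}
    (hr : 2 * P.τ ^ 2 * C1 P.τ + 1 ≤ r) {N : ℕ} (hN : N = NN P.c r) (𝓑 : Blk P.τ r N) (k : ℕ) :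
    r ^ (P.c + 1) * ∑ w ∈ cat 𝓑.B k, bad P w ≤ C4 P * N * k * 𝓑.B.card ^ k := by
  induction k with
  | zero => simp [cat, bad, code]
  | succ k ih =>
    rw [cat, Finset.sum_image (cat_inj 𝓑 k), Finset.sum_product_right]
    have h1 : ∀ w' ∈ cat 𝓑.B k, r ^ (P.c + 1) * ∑ b ∈ 𝓑.B, bad P (b ++ w') ≤
        C4 P * N * 𝓑.B.card + 𝓑.B.card * (r ^ (P.c + 1) * bad P w') := by
      intro w' hw'
      have h2 : ∑ b ∈ 𝓑.B, bad P (b ++ w') = ∑ b ∈ 𝓑.B, ((Finset.range N).filter
          (fun t => ¬ OK P (b.drop t ++ w'))).card + 𝓑.B.card * bad P w' := by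
        rw [← smul_eq_mul, ← Finset.sum_const, ← Finset.sum_add_distrib]
        apply Finset.sum_congr rfl
        intro b hb
        rw [bad_append, 𝓑.len hb]
      rw [h2, mul_add]
      have h3 := one_block hPK hr hN 𝓑 hw'
      calc _ ≤ C4 P * N * 𝓑.B.card + r ^ (P.c + 1) * (𝓑.B.card * bad P w') :=
            Nat.add_le_add_right h3 _
        _ = _ := by ring
    rw [Finset.mul_sum]
    refine (Finset.sum_le_sum h1).trans ?_
    rw [Finset.sum_add_distrib, Finset.sum_const, smul_eq_mul, card_cat, ← Finset.mul_sum,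
      ← Finset.mul_sum]
    calc 𝓑.B.card ^ k * (C4 P * N * 𝓑.B.card) +
          𝓑.B.card * (r ^ (P.c + 1) * ∑ w' ∈ cat 𝓑.B k, bad P w')
        ≤ 𝓑.B.card ^ k * (C4 P * N * 𝓑.B.card) +
          𝓑.B.card * (C4 P * N * k * 𝓑.B.card ^ k) :=
          Nat.add_le_add_left (Nat.mul_le_mul_left _ ih) _
      _ = C4 P * N * (k + 1) * 𝓑.B.card ^ (k + 1) := by ring

/-- side-information lists -/
noncomputable def cds (r : ℕ) : ℕ → Finset (List (Option (Ltr (Fin r))))
  | 0 => {[]}
  | n + 1 => ((Finset.univ : Finset (Option (Ltr (Fin r)))) ×ˢ cds r n).image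
      (fun p => p.1 :: p.2)

theorem mem_cds {r n : ℕ} {l : List (Option (Ltr (Fin r)))} : l ∈ cds r n ↔ l.length = n := by
  induction n generalizing l with
  | zero => simp [cds]
  | succ n ih =>
    simp only [cds, Finset.mem_image, Finset.mem_product, Finset.mem_univ, true_and, Prod.exists]
    constructor
    · rintro ⟨a, b, hb, rfl⟩
      simp [ih.1 hb]
    · intro h
      cases l with
      | nil => simp at h
      | cons a b => exact ⟨a, b, ih.2 (by simpa using h), rfl⟩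

theorem sum_cds (r n : ℕ) (x : ℝ) :
    ∑ l ∈ cds r n, x ^ (l.countP (·.isSome)) = (1 + 2 * r * x) ^ n := by
  induction n with
  | zero => simp [cds]
  | succ n ih =>
    rw [cds, Finset.sum_image]
    · rw [Finset.sum_product, Fintype.sum_option]
      simp only [List.countP_cons, Option.isSome_none, Option.isSome_some]
      simp only [if_true, Bool.false_eq_true, if_false, add_zero, pow_add, pow_one]
      rw [← Finset.sum_mul, ih]
      simp only [Finset.sum_const, Finset.card_univ, Fintype.card_prod, Fintype.card_fin,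
        Fintype.card_bool, nsmul_eq_mul]
      push_cast
      ring
    · rintro ⟨a, b⟩ _ ⟨a', b'⟩ _ h
      simpa using h

theorem card_cds_le (r n J : ℕ) {x : ℝ} (hx0 : 0 < x) (hx1 : x ≤ 1) :
    (((cds r n).filter (fun l => l.countP (·.isSome) ≤ J)).card : ℝ) * x ^ J ≤
      (1 + 2 * r * x) ^ n := by
  rw [← sum_cds, ← nsmul_eq_mul, ← Finset.sum_const]
  calc ∑ _l ∈ (cds r n).filter (fun l => l.countP (·.isSome) ≤ J), x ^ J
      ≤ ∑ l ∈ (cds r n).filter (fun l => l.countP (·.isSome) ≤ J),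
          x ^ (l.countP (·.isSome)) := by
        apply Finset.sum_le_sum
        intro l hl
        exact pow_le_pow_of_le_one hx0.le hx1 (Finset.mem_filter.1 hl).2
    _ ≤ _ := by
        apply Finset.sum_le_sum_of_subset_of_nonneg (Finset.filter_subset _ _)
        intro l _ _
        positivity

/-- the number of flows of words of length `n` -/
noncomputable def Fl (r n : ℕ) : ℕ := ((words r n).image (flow 0)).card

theorem lower_core {P : Par} (hPK : P.K = 2 * (P.D + (3 * P.c + 5))) {r : ℕ}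
    (hr : 2 * P.τ ^ 2 * C1 P.τ + 1 ≤ r) {N : ℕ} (hN : N = NN P.c r) (k : ℕ)
    {x : ℝ} (hx0 : 0 < x) (hx1 : x ≤ 1) :
    ((ga P.τ r N : ℝ) / 2) ^ (r ^ (P.c + 1) * k) * x ^ (2 * C4 P * N * k) ≤
      2 * Fl r (N * (r ^ (P.c + 1) * k)) * (1 + 2 * r * x) ^ (N * (r ^ (P.c + 1) * k)) := by
  have hr0 : 0 < r := by omega
  have hN0 : 0 < N := by rw [hN, NN]; omega
  obtain ⟨𝓑⟩ := exists_blk P.τ r N (by rw [hN, NN]; omega)
  obtain ⟨k', hk'⟩ : ∃ k', k' = r ^ (P.c + 1) * k := ⟨_, rfl⟩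
  obtain ⟨J, hJ⟩ : ∃ J, J = 2 * C4 P * N * k := ⟨_, rfl⟩
  rw [← hk', ← hJ]
  set T := (cat 𝓑.B k').filter (fun w => bad P w ≤ J) with hT
  have hsum := sum_bad hPK hr hN 𝓑 k'
  -- Markov
  have hmarkov : 𝓑.B.card ^ k' ≤ 2 * T.card := by
    have h1 : ((cat 𝓑.B k').filter (fun w => ¬ bad P w ≤ J)).card * (J + 1) ≤
        ∑ w ∈ cat 𝓑.B k', bad P w := by
      rw [← smul_eq_mul, ← Finset.sum_const]
      refine (Finset.sum_le_sum (g := fun w => bad P w) ?_).trans
        (Finset.sum_le_sum_of_subset (Finset.filter_subset _ _))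
      intro w hw
      have := (Finset.mem_filter.1 hw).2
      omega
    have h2 := Finset.card_filter_add_card_filter_not (s := cat 𝓑.B k') (fun w => bad P w ≤ J)
    rw [card_cat] at h2
    obtain ⟨Y, hY⟩ : ∃ Y, Y = ((cat 𝓑.B k').filter (fun w => ¬ bad P w ≤ J)).card := ⟨_, rfl⟩
    rw [← hY] at h1 h2
    have h3 : r ^ (P.c + 1) * (Y * (J + 1)) ≤
        r ^ (P.c + 1) * (C4 P * N * k * 𝓑.B.card ^ k') := by
      calc r ^ (P.c + 1) * (Y * (J + 1)) ≤ r ^ (P.c + 1) * ∑ w ∈ cat 𝓑.B k', bad P w :=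
            Nat.mul_le_mul_left _ h1
        _ ≤ C4 P * N * k' * 𝓑.B.card ^ k' := hsum
        _ = C4 P * N * (r ^ (P.c + 1) * k) * 𝓑.B.card ^ k' := by rw [← hk']
        _ = r ^ (P.c + 1) * (C4 P * N * k * 𝓑.B.card ^ k') := by ring
    have h4 : Y * (J + 1) ≤ C4 P * N * k * 𝓑.B.card ^ k' :=
      Nat.le_of_mul_le_mul_left h3 (Nat.pow_pos hr0)
    have h5 : 2 * Y * (C4 P * N * k) + Y ≤ C4 P * N * k * 𝓑.B.card ^ k' := by
      calc 2 * Y * (C4 P * N * k) + Y = Y * (J + 1) := by rw [hJ]; ring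
        _ ≤ _ := h4
    have h6 : 2 * Y ≤ 𝓑.B.card ^ k' := by
      by_contra hlt
      rw [not_le] at hlt
      rcases Nat.eq_zero_or_pos (C4 P * N * k) with h0 | h0
      · rw [h0] at h5; omega
      · have := Nat.mul_lt_mul_of_pos_right hlt h0
        nlinarith
    have hTc : T.card = ((cat 𝓑.B k').filter (fun w => bad P w ≤ J)).card := rfl
    omega
  -- injection
  have hinj : T.card ≤ Fl r (N * k') *
      ((cds r (N * k')).filter (fun l => l.countP (·.isSome) ≤ J)).card := by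
    unfold Fl
    rw [← Finset.card_product]
    apply Finset.card_le_card_of_injOn (fun w => (flow 0 w, code P w))
    · intro w hw
      simp only [hT, Finset.coe_filter, Set.mem_ofPred_eq] at hw
      have hlen := cat_length 𝓑 k' hw.1
      simp only [Finset.mem_coe, Finset.mem_product, Finset.mem_image, mem_words,
        Finset.mem_filter, mem_cds, code_length]
      exact ⟨⟨w, hlen, rfl⟩, hlen, hw.2⟩
    · intro w _ w' _ h
      simp only [Prod.mk.injEq] at h
      exact code_injective P h.1 h.2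
  have hcds := card_cds_le r (N * k') J hx0 hx1
  have hhalf : ((ga P.τ r N : ℝ) / 2) ≤ 𝓑.B.card := by
    have := 𝓑.half
    have h1 : (ga P.τ r N : ℝ) ≤ 2 * 𝓑.B.card := by exact_mod_cast this
    linarith
  have h1 : ((ga P.τ r N : ℝ) / 2) ^ k' ≤ 2 * T.card := by
    calc ((ga P.τ r N : ℝ) / 2) ^ k' ≤ (𝓑.B.card : ℝ) ^ k' := by gcongr
      _ ≤ 2 * T.card := by exact_mod_cast hmarkov
  have h2 : (T.card : ℝ) ≤ Fl r (N * k') *
      ((cds r (N * k')).filter (fun l => l.countP (·.isSome) ≤ J)).card := by exact_mod_cast hinj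
  calc ((ga P.τ r N : ℝ) / 2) ^ k' * x ^ J ≤ 2 * T.card * x ^ J := by gcongr
    _ ≤ 2 * (Fl r (N * k') *
      ((cds r (N * k')).filter (fun l => l.countP (·.isSome) ≤ J)).card) * x ^ J := by gcongr
    _ = 2 * Fl r (N * k') * (((cds r (N * k')).filter
          (fun l => l.countP (·.isSome) ≤ J)).card * x ^ J) := by ring
    _ ≤ 2 * Fl r (N * k') * (1 + 2 * r * x) ^ (N * k') := by gcongr

end Pool.Agent.Helper524_FM
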