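import Pool.Agent.Helper524_FM.Defs
import Pool.Agent.Helper524_FM.Total

/-!
# The free metabelian group and flows; the growth rate
-/

set_option linter.unusedSectionVars false
set_option linter.unusedSimpArgs false

namespace Pool.Agent.Helper524_FM

open scoped Classical

/-- translation of a chain -/
noncomputable def shift {r : ℕ} (y : Fin r → ℤ) (f : Fin r × (Fin r → ℤ) →₀ ℤ) :
    Fin r × (Fin r → ℤ) →₀ ℤ := f.mapDomain (fun e => (e.1, e.2 + y))

theorem shift_add {r : ℕ} (y : Fin r → ℤ) (f g : Fin r × (Fin r → ℤ) →₀ ℤ) :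
    shift y (f + g) = shift y f + shift y g := Finsupp.mapDomain_add

theorem shift_shift {r : ℕ} (y z : Fin r → ℤ) (f : Fin r × (Fin r → ℤ) →₀ ℤ) :
    shift y (shift z f) = shift (y + z) f := by
  unfold shift
  rw [← Finsupp.mapDomain_comp]
  congr 1
  funext e
  simp only [Function.comp_apply, Prod.mk.injEq, true_and]
  abel

theorem shift_zero_left {r : ℕ} (f : Fin r × (Fin r → ℤ) →₀ ℤ) : shift 0 f = f := by
  unfold shift
  simp only [add_zero, Prod.mk.eta]
  exact Finsupp.mapDomain_id

theorem shift_neg {r : ℕ} (y : Fin r → ℤ) (f : Fin r × (Fin r → ℤ) →₀ ℤ) :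
    shift y (-f) = - shift y f := by
  have h := shift_add y f (-f)
  rw [add_neg_cancel] at h
  have h0 : shift y (0 : Fin r × (Fin r → ℤ) →₀ ℤ) = 0 := Finsupp.mapDomain_zero
  rw [h0] at h
  exact (neg_eq_of_add_eq_zero_right h.symm).symm

/-- the group of translations and chains -/
@[ext] structure LG (r : ℕ) where
  x : Fin r → ℤ
  f : Fin r × (Fin r → ℤ) →₀ ℤ

noncomputable instance (r : ℕ) : Mul (LG r) := ⟨fun a b => ⟨a.x + b.x, a.f + shift a.x b.f⟩⟩
noncomputable instance (r : ℕ) : One (LG r) := ⟨⟨0, 0⟩⟩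
noncomputable instance (r : ℕ) : Inv (LG r) := ⟨fun a => ⟨-a.x, -shift (-a.x) a.f⟩⟩

theorem LG.mul_def {r : ℕ} (a b : LG r) : a * b = ⟨a.x + b.x, a.f + shift a.x b.f⟩ := rfl
theorem LG.one_def {r : ℕ} : (1 : LG r) = ⟨0, 0⟩ := rfl
theorem LG.inv_def {r : ℕ} (a : LG r) : a⁻¹ = ⟨-a.x, -shift (-a.x) a.f⟩ := rfl

noncomputable instance (r : ℕ) : Group (LG r) :=
  Group.ofLeftAxioms
    (by
      intro a b c
      simp only [LG.mul_def, LG.mk.injEq]
      refine ⟨by abel, ?_⟩
      rw [shift_add, shift_shift, add_assoc])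
    (by
      intro a
      simp only [LG.mul_def, LG.one_def, zero_add, shift_zero_left])
    (by
      intro a
      simp only [LG.mul_def, LG.one_def, LG.inv_def, neg_add_cancel])

/-- first coordinate -/
noncomputable def LG.proj (r : ℕ) : LG r →* Multiplicative (Fin r → ℤ) where
  toFun a := Multiplicative.ofAdd a.x
  map_one' := rfl
  map_mul' _ _ := rfl

theorem LG.derived_two (r : ℕ) : derivedSeries (LG r) 2 = ⊥ := by
  have h1 : derivedSeries (LG r) 1 ≤ (LG.proj r).ker := by
    rw [derivedSeries_one]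
    exact Abelianization.commutator_subset_ker _
  rw [derivedSeries_succ]
  refine le_antisymm ?_ bot_le
  refine (Subgroup.commutator_mono h1 h1).trans ?_
  rw [Subgroup.commutator_le]
  intro a ha b hb
  rw [MonoidHom.mem_ker] at ha hb
  have ha' : a.x = 0 := ha
  have hb' : b.x = 0 := hb
  rw [Subgroup.mem_bot, commutatorElement_eq_one_iff_mul_comm]
  simp only [LG.mul_def, ha', hb', shift_zero_left, LG.mk.injEq]
  exact ⟨trivial, add_comm _ _⟩

/-- the homomorphism from the free group -/
noncomputable def toLG (r : ℕ) : FreeGroup (Fin r) →* LG r :=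
  FreeGroup.lift (fun i => ⟨Pi.single i 1, Finsupp.single (i, 0) 1⟩)

/-- the homomorphism from the free metabelian group -/
noncomputable def toLG' (r : ℕ) : FM r →* LG r :=
  QuotientGroup.lift _ (toLG r) (by
    intro g hg
    have h1 := map_derivedSeries_le_derivedSeries (toLG r) 2
    have h2 : toLG r g ∈ derivedSeries (LG r) 2 := h1 (Subgroup.mem_map_of_mem _ hg)
    rw [LG.derived_two] at h2
    exact h2)

theorem toLG'_gen (r : ℕ) (l : Ltr (Fin r)) :
    toLG' r (gen r l) = ⟨stp l, Finsupp.single (l.1, low 0 l) (sgn l)⟩ := by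
  rcases l with ⟨i, b⟩
  cases b
  · simp only [gen, Bool.false_eq_true, if_false]
    rw [QuotientGroup.mk_inv, map_inv]
    have : toLG' r (QuotientGroup.mk (FreeGroup.of i)) =
        ⟨Pi.single i 1, Finsupp.single (i, 0) 1⟩ := by
      show toLG r (FreeGroup.of i) = _
      simp [toLG]
    rw [this, LG.inv_def]
    simp [stp, sgn, low, shift, Finsupp.mapDomain_single, Pi.single_neg]
  · simp only [gen, if_true]
    show toLG r (FreeGroup.of i) = _
    simp [toLG, stp, sgn, low]

theorem toLG'_ev (r : ℕ) (w : List (Ltr (Fin r))) : toLG' r (ev r w) = ⟨pos w, flow 0 w⟩ := by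
  induction w with
  | nil => simp [ev, LG.one_def]
  | cons l w ih =>
    have h1 : ev r (l :: w) = gen r l * ev r w := by simp [ev]
    rw [h1, map_mul, ih, toLG'_gen, LG.mul_def]
    simp only [LG.mk.injEq, pos_cons, true_and]
    rw [flow_cons, flow_shift]
    rfl

theorem flow_eq_of_ev {r : ℕ} {w v : List (Ltr (Fin r))} (h : ev r w = ev r v) :
    flow 0 w = flow 0 v := by
  have := congrArg (toLG' r) h
  rw [toLG'_ev, toLG'_ev] at this
  exact congrArg LG.f this

theorem ev_append (r : ℕ) (u v : List (Ltr (Fin r))) : ev r (u ++ v) = ev r u * ev r v := by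
  simp [ev]

theorem ev_surj (r : ℕ) (g : FM r) : ∃ w : List (Ltr (Fin r)), ev r w = g := by
  obtain ⟨g, rfl⟩ := QuotientGroup.mk_surjective g
  refine ⟨g.toWord, ?_⟩
  have h : ∀ w : List (Ltr (Fin r)), ev r w = QuotientGroup.mk (FreeGroup.mk w) := by
    intro w
    induction w with
    | nil =>
      rw [← FreeGroup.one_eq_mk]
      rfl
    | cons l w ih =>
      have h1 : ev r (l :: w) = gen r l * ev r w := by simp [ev]
      rw [h1, ih, gen, ← QuotientGroup.mk_mul]
      congr 1
      rcases l with ⟨i, b⟩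
      cases b
      · simp only [Bool.false_eq_true, if_false]
        rw [FreeGroup.of, FreeGroup.inv_mk, FreeGroup.mul_mk]
        rfl
      · simp only [if_true]
        rw [FreeGroup.of, FreeGroup.mul_mk]
        rfl
  rw [h, FreeGroup.mk_toWord]

theorem wlen_spec (r : ℕ) (g : FM r) : ∃ w : List (Ltr (Fin r)), w.length = wlen r g ∧ ev r w = g := by
  have hne : {n | ∃ w : List (Fin r × Bool), w.length = n ∧ ev r w = g}.Nonempty := by
    obtain ⟨w, hw⟩ := ev_surj r g
    exact ⟨w.length, w, rfl, hw⟩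
  exact Nat.sInf_mem hne

theorem wlen_le {r : ℕ} (w : List (Ltr (Fin r))) : wlen r (ev r w) ≤ w.length :=
  Nat.sInf_le ⟨w, rfl, rfl⟩

/-- the sphere as a finite set -/
noncomputable def sphF (r n : ℕ) : Finset (FM r) :=
  ((words r n).image (ev r)).filter (fun g => wlen r g = n)

theorem mem_sphF {r n : ℕ} {g : FM r} : g ∈ sphF r n ↔ wlen r g = n := by
  simp only [sphF, Finset.mem_filter, Finset.mem_image, mem_words]
  constructor
  · exact fun h => h.2
  · intro h
    obtain ⟨w, h1, h2⟩ := wlen_spec r g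
    exact ⟨⟨w, by omega, h2⟩, h⟩

theorem sph_eq (r n : ℕ) : sph r n = (sphF r n).card := by
  unfold sph
  rw [Nat.card_congr (Equiv.subtypeEquivRight (fun g => (mem_sphF (r := r) (n := n)).symm)),
    Nat.card_eq_fintype_card, Fintype.card_coe]

/-- submultiplicativity -/
theorem sph_submult (r m n : ℕ) : sph r (m + n) ≤ sph r m * sph r n := by
  rw [sph_eq, sph_eq, sph_eq, ← Finset.card_product]
  have hsplit : ∀ g ∈ sphF r (m + n), ∃ p : FM r × FM r, p.1 ∈ sphF r m ∧ p.2 ∈ sphF r n ∧
      p.1 * p.2 = g := by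
    intro g hg
    rw [mem_sphF] at hg
    obtain ⟨w, hw, hwg⟩ := wlen_spec r g
    have e1 : ev r (w.take m) * ev r (w.drop m) = g := by
      rw [← ev_append, List.take_append_drop, hwg]
    have h1 : wlen r (ev r (w.take m)) ≤ m := (wlen_le _).trans (by simp)
    have h2 : wlen r (ev r (w.drop m)) ≤ n := (wlen_le _).trans (by simp; omega)
    have h3 : m + n ≤ wlen r (ev r (w.take m)) + wlen r (ev r (w.drop m)) := by
      obtain ⟨u, hu, hu'⟩ := wlen_spec r (ev r (w.take m))
      obtain ⟨v, hv, hv'⟩ := wlen_spec r (ev r (w.drop m))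
      have h4 := wlen_le (u ++ v)
      rw [ev_append, hu', hv', e1, hg, List.length_append, hu, hv] at h4
      exact h4
    exact ⟨(ev r (w.take m), ev r (w.drop m)), mem_sphF.2 (by simp only; omega),
      mem_sphF.2 (by simp only; omega), e1⟩
  choose! F hF1 hF2 hF3 using hsplit
  apply Finset.card_le_card_of_injOn F
  · intro g hg
    simp only [Finset.mem_coe, Finset.mem_product]
    exact ⟨hF1 g hg, hF2 g hg⟩
  · intro g hg g' hg' h
    rw [← hF3 g hg, ← hF3 g' hg', h]

theorem sph_pos {r : ℕ} (hr : 0 < r) (n : ℕ) : 0 < sph r n := by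
  rw [sph_eq, Finset.card_pos]
  refine ⟨ev r (List.replicate n ((⟨0, hr⟩ : Fin r), true)), ?_⟩
  rw [mem_sphF]
  apply le_antisymm
  · exact (wlen_le _).trans (by simp)
  · obtain ⟨w, hw, hwg⟩ := wlen_spec r (ev r (List.replicate n ((⟨0, hr⟩ : Fin r), true)))
    rw [← hw]
    have h1 := pos_eq_of_flow (flow_eq_of_ev hwg)
    have h2 : tot w = tot (List.replicate n ((⟨0, hr⟩ : Fin r), true)) := by
      unfold tot; rw [h1]
    have h3 : ∀ n, tot (List.replicate n ((⟨0, hr⟩ : Fin r), true)) = n := by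
      intro n
      induction n with
      | zero => simp
      | succ n ih =>
        rw [List.replicate_succ, tot_cons, ih]
        simp [sgn]; ring
    rw [h3] at h2
    have h4 := abs_tot_le w
    rw [h2] at h4
    have h5 : ((n : ℕ) : ℤ) ≤ w.length := by
      rw [abs_of_nonneg (by positivity)] at h4; exact h4
    exact_mod_cast h5

theorem sph_le_words (r n : ℕ) : sph r n ≤ (2 * r) ^ n := by
  rw [sph_eq, sphF]
  refine (Finset.card_filter_le _ _).trans (Finset.card_image_le.trans ?_)
  rw [card_words]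

theorem Fl_le (r n : ℕ) : Fl r n ≤ ∑ j ∈ Finset.range (n + 1), sph r j := by
  have h1 : Fl r n ≤ ((words r n).image (ev r)).card := by
    unfold Fl
    have hsub : (words r n).image (flow 0) =
        ((words r n).image (ev r)).image (fun g => (toLG' r g).f) := by
      rw [Finset.image_image]
      apply Finset.image_congr
      intro w _
      simp only [Function.comp_apply, toLG'_ev]
    rw [hsub]
    exact Finset.card_image_le
  refine h1.trans ?_
  have h2 : (words r n).image (ev r) ⊆ (Finset.range (n + 1)).biUnion (fun j => sphF r j) := by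
    intro g hg
    simp only [Finset.mem_image, mem_words] at hg
    obtain ⟨w, hw, rfl⟩ := hg
    rw [Finset.mem_biUnion]
    exact ⟨wlen r (ev r w), Finset.mem_range.2 (by have := wlen_le w; omega), mem_sphF.2 rfl⟩
  refine (Finset.card_le_card h2).trans (Finset.card_biUnion_le.trans ?_)
  apply le_of_eq
  apply Finset.sum_congr rfl
  intro j _
  rw [sph_eq]

/-- logarithms of sphere sizes -/
noncomputable def lsph (r n : ℕ) : ℝ := Real.log (sph r n)

theorem lsph_subadd {r : ℕ} (hr : 0 < r) : Subadditive (lsph r) := by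
  intro m n
  unfold lsph
  have h1 := sph_pos hr m
  have h2 := sph_pos hr n
  have h3 := sph_pos hr (m + n)
  rw [← Real.log_mul (by positivity) (by positivity)]
  apply Real.log_le_log (by positivity)
  exact_mod_cast sph_submult r m n

theorem lsph_nonneg {r : ℕ} (hr : 0 < r) (n : ℕ) : 0 ≤ lsph r n := by
  apply Real.log_nonneg
  exact_mod_cast sph_pos hr n

theorem lsph_bdd {r : ℕ} (hr : 0 < r) : BddBelow (Set.range fun n => lsph r n / n) := by
  refine ⟨0, ?_⟩
  rintro _ ⟨n, rfl⟩
  exact div_nonneg (lsph_nonneg hr n) (by positivity)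

/-- the growth rate -/
noncomputable def om (r : ℕ) : ℝ := if hr : 0 < r then Real.exp (lsph_subadd hr).lim else 0

theorem om_tendsto {r : ℕ} (hr : 0 < r) :
    Filter.Tendsto (fun n : ℕ => (sph r n : ℝ) ^ (1 / (n : ℝ))) Filter.atTop (nhds (om r)) := by
  have h1 := (lsph_subadd hr).tendsto_lim (lsph_bdd hr)
  have h2 := (Real.continuous_exp.tendsto _).comp h1
  rw [om, dif_pos hr]
  refine h2.congr fun n => ?_
  simp only [Function.comp_apply, lsph]
  rw [Real.rpow_def_of_pos (by exact_mod_cast sph_pos hr n)]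
  congr 1
  ring

theorem one_le_om {r : ℕ} (hr : 0 < r) : 1 ≤ om r := by
  rw [om, dif_pos hr]
  apply Real.one_le_exp
  apply ge_of_tendsto' ((lsph_subadd hr).tendsto_lim (lsph_bdd hr))
  intro n
  exact div_nonneg (lsph_nonneg hr n) (by positivity)

/-- upper bounds on the growth rate -/
theorem om_le_of_bound {r : ℕ} (hr : 0 < r) {C lam : ℝ} (hC : 0 < C) (hl : 0 < lam)
    (h : ∀ n, (sph r n : ℝ) ≤ C * lam ^ n) : om r ≤ lam := by
  have h1 : ∀ n, lsph r n / n ≤ Real.log C / n + (n : ℝ) * Real.log lam / n := by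
    intro n
    rw [← add_div]
    apply div_le_div_of_nonneg_right _ (by positivity)
    unfold lsph
    have := Real.log_le_log (by exact_mod_cast sph_pos hr n) (h n)
    rwa [Real.log_mul (by positivity) (by positivity), Real.log_pow] at this
  have h2 : Filter.Tendsto (fun n : ℕ => Real.log C / n + (n : ℝ) * Real.log lam / n)
      Filter.atTop (nhds (0 + Real.log lam)) := by
    apply Filter.Tendsto.add
    · exact tendsto_const_div_atTop_nhds_zero_nat _
    · apply tendsto_const_nhds.congr'
      filter_upwards [Filter.eventually_gt_atTop 0] with n hn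
      have : (n : ℝ) ≠ 0 := by exact_mod_cast hn.ne'
      field_simp
  rw [zero_add] at h2
  have h3 := le_of_tendsto_of_tendsto' ((lsph_subadd hr).tendsto_lim (lsph_bdd hr)) h2 h1
  rw [om, dif_pos hr]
  calc Real.exp _ ≤ Real.exp (Real.log lam) := Real.exp_le_exp.2 h3
    _ = lam := Real.exp_log hl

theorem om_le {r : ℕ} (hr : 0 < r) : om r ≤ 2 * r := by
  apply om_le_of_bound hr (C := 1) one_pos (by positivity)
  intro n
  rw [one_mul]
  exact_mod_cast sph_le_words r n

/-- lower bounds on the growth rate -/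
theorem om_ge_of_bound {r : ℕ} (hr : 0 < r) {A B : ℝ} (_hA : 0 ≤ A) (hB : 0 < B) {n0 : ℕ}
    (h : ∀ k, A ^ k ≤ 2 * (∑ j ∈ Finset.range (n0 * k + 1), sph r j : ℕ) * B ^ k) :
    A ≤ om r ^ n0 * B := by
  -- for every `μ > om r` the spheres are eventually at most `μ ^ n`
  have key : ∀ μ, om r < μ → A ≤ μ ^ n0 * B := by
    intro μ hμ
    have hμ1 : 1 ≤ μ := (one_le_om hr).trans hμ.le
    have h1 := (om_tendsto hr).eventually (gt_mem_nhds hμ)
    rw [Filter.eventually_atTop] at h1
    obtain ⟨n1, hn1⟩ := h1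
    have h2 : ∀ n, (sph r n : ℝ) ≤ (2 * r : ℝ) ^ n1 * μ ^ n := by
      intro n
      rcases Nat.lt_or_ge n n1 with hlt | hge
      · have e1 : (sph r n : ℝ) ≤ (2 * r : ℝ) ^ n := by exact_mod_cast sph_le_words r n
        have e2 : (2 * r : ℝ) ^ n ≤ (2 * r : ℝ) ^ n1 := by
          apply pow_le_pow_right₀ _ hlt.le
          have : (1 : ℝ) ≤ r := by exact_mod_cast hr
          linarith
        have e3 : (1 : ℝ) ≤ μ ^ n := one_le_pow₀ hμ1
        calc (sph r n : ℝ) ≤ (2 * r : ℝ) ^ n1 * 1 := by rw [mul_one]; exact e1.trans e2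
          _ ≤ _ := by gcongr
      · rcases Nat.eq_zero_or_pos n with h0 | h0
        · subst h0
          have e1 : (sph r 0 : ℝ) ≤ (2 * r : ℝ) ^ 0 := by exact_mod_cast sph_le_words r 0
          have e2 : (1 : ℝ) ≤ (2 * r : ℝ) ^ n1 := by
            apply one_le_pow₀
            have : (1 : ℝ) ≤ r := by exact_mod_cast hr
            linarith
          simp only [pow_zero, mul_one] at e1 ⊢
          linarith
        · have e1 := (hn1 n hge).le
          have e2 : (sph r n : ℝ) ≤ μ ^ n := by
            have e3 : ((sph r n : ℝ) ^ (1 / (n : ℝ))) ^ n ≤ μ ^ n := by gcongr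
            rw [← Real.rpow_natCast, ← Real.rpow_mul (by positivity)] at e3
            have e4 : 1 / (n : ℝ) * n = 1 := by
              have : (n : ℝ) ≠ 0 := by exact_mod_cast h0.ne'
              field_simp
            rwa [e4, Real.rpow_one] at e3
          have e5 : (1 : ℝ) ≤ (2 * r : ℝ) ^ n1 := by
            apply one_le_pow₀
            have : (1 : ℝ) ≤ r := by exact_mod_cast hr
            linarith
          calc (sph r n : ℝ) ≤ 1 * μ ^ n := by rw [one_mul]; exact e2
            _ ≤ _ := by gcongr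
    have h3 : ∀ k : ℕ, A ^ k ≤ 2 * (2 * r : ℝ) ^ n1 * (n0 * k + 1) * (μ ^ n0 * B) ^ k := by
      intro k
      refine (h k).trans ?_
      have e1 : ((∑ j ∈ Finset.range (n0 * k + 1), sph r j : ℕ) : ℝ) ≤
          (n0 * k + 1) * ((2 * r : ℝ) ^ n1 * μ ^ (n0 * k)) := by
        push_cast
        calc ∑ j ∈ Finset.range (n0 * k + 1), (sph r j : ℝ)
            ≤ ∑ _j ∈ Finset.range (n0 * k + 1), ((2 * r : ℝ) ^ n1 * μ ^ (n0 * k)) := by
              apply Finset.sum_le_sum
              intro j hj
              refine (h2 j).trans ?_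
              have : μ ^ j ≤ μ ^ (n0 * k) :=
                pow_le_pow_right₀ hμ1 (by simpa [Nat.lt_succ_iff] using Finset.mem_range.1 hj)
              gcongr
          _ = _ := by
              rw [Finset.sum_const, Finset.card_range, nsmul_eq_mul]
              push_cast
              ring
      calc 2 * ((∑ j ∈ Finset.range (n0 * k + 1), sph r j : ℕ) : ℝ) * B ^ k
          ≤ 2 * ((n0 * k + 1) * ((2 * r : ℝ) ^ n1 * μ ^ (n0 * k))) * B ^ k := by gcongr
        _ = _ := by rw [mul_pow, pow_mul]; ring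
    -- compare exponential rates
    by_contra hlt
    rw [not_le] at hlt
    have hpos : 0 < μ ^ n0 * B := by positivity
    have hq : 1 < A / (μ ^ n0 * B) := by rw [one_lt_div hpos]; exact hlt
    have h4 : ∀ k : ℕ, (A / (μ ^ n0 * B)) ^ k ≤ 2 * (2 * r : ℝ) ^ n1 * (n0 * k + 1) := by
      intro k
      rw [div_pow, div_le_iff₀ (by positivity)]
      exact h3 k
    have h5 : Filter.Tendsto (fun k : ℕ => (2 * (2 * r : ℝ) ^ n1 * (n0 * k + 1)) /
        (A / (μ ^ n0 * B)) ^ k) Filter.atTop (nhds 0) := by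
      have e1 := tendsto_pow_const_div_const_pow_of_one_lt 1 hq
      have e2 := tendsto_pow_const_div_const_pow_of_one_lt 0 hq
      have e3 := (e1.const_mul (2 * (2 * r : ℝ) ^ n1 * n0)).add
        (e2.const_mul (2 * (2 * r : ℝ) ^ n1))
      simp only [mul_zero, add_zero] at e3
      refine e3.congr fun k => ?_
      simp only [pow_one, pow_zero]
      field_simp
    have h6 := (h5.eventually (gt_mem_nhds one_pos)).exists
    obtain ⟨k, hk⟩ := h6
    have h7 : 0 < (A / (μ ^ n0 * B)) ^ k := by positivity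
    rw [div_lt_one h7] at hk
    exact absurd (h4 k) (not_le.2 hk)
  have hcont : Filter.Tendsto (fun μ : ℝ => μ ^ n0 * B) (nhdsWithin (om r) (Set.Ioi (om r)))
      (nhds (om r ^ n0 * B)) := by
    apply Filter.Tendsto.mono_left _ nhdsWithin_le_nhds
    exact ((continuous_pow n0).mul continuous_const).tendsto _
  apply ge_of_tendsto hcont
  filter_upwards [self_mem_nhdsWithin] with μ hμ
  exact key μ hμ

end Pool.Agent.Helper524_FM
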