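import Pool.Agent.Helper524_FM.Decode

/-!
# Growth of the language of good words
-/

set_option linter.unusedSectionVars false
set_option linter.unusedSimpArgs false

namespace Pool.Agent.Helper524_FM

open scoped Classical

/-- good words of length `n` -/
noncomputable def GW (τ r n : ℕ) : Finset (List (Ltr (Fin r))) := (words r n).filter (Good τ)

/-- their number -/
noncomputable def ga (τ r n : ℕ) : ℕ := (GW τ r n).card

theorem mem_GW {τ r n : ℕ} {w : List (Ltr (Fin r))} : w ∈ GW τ r n ↔ w.length = n ∧ Good τ w := by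
  simp [GW]

theorem good_nil {τ r : ℕ} : Good τ ([] : List (Ltr (Fin r))) := by
  intro u hu _; rw [List.infix_nil.1 hu]; exact isMin_nil

theorem ga_zero (τ r : ℕ) : ga τ r 0 = 1 := by
  unfold ga
  rw [Finset.card_eq_one]
  refine ⟨[], ?_⟩
  ext w
  rw [mem_GW, Finset.mem_singleton, List.length_eq_zero_iff]
  constructor
  · exact fun h => h.1
  · rintro rfl; exact ⟨rfl, good_nil⟩

/-- one-letter extensions of good words -/
theorem ext_lower {τ : ℕ} (hτ : 2 ≤ τ) (r n : ℕ) :
    (2 * r - 1) * ga τ r n ≤ ga τ r (n + 1) +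
      ∑ ℓ ∈ (Finset.Icc 2 τ).filter (fun ℓ => ℓ ≤ n + 1), (MFR r ℓ).card * ga τ r (n + 1 - ℓ) := by
  set S : Finset (List (Ltr (Fin r)) × Ltr (Fin r)) :=
    (GW τ r n ×ˢ Finset.univ).filter (fun p => p.1.getLast? ≠ some (inv p.2)) with hS
  have hScard : (2 * r - 1) * ga τ r n ≤ S.card := by
    have h1 : S.card = ∑ w ∈ GW τ r n,
        (Finset.univ.filter (fun l : Ltr (Fin r) => w.getLast? ≠ some (inv l))).card := by
      rw [hS, Finset.card_filter, Finset.sum_product]
      apply Finset.sum_congr rfl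
      intro w _
      rw [Finset.card_filter]
    rw [h1, ga, mul_comm, ← smul_eq_mul, ← Finset.sum_const]
    apply Finset.sum_le_sum
    intro w _
    have h2 : (Finset.univ.filter (fun l : Ltr (Fin r) => w.getLast? = some (inv l))).card ≤ 1 := by
      rw [Finset.card_le_one]
      intro a ha b hb
      simp only [Finset.mem_filter, Finset.mem_univ, true_and] at ha hb
      rw [ha] at hb
      have := Option.some.inj hb
      rw [← inv_inv a, this, inv_inv]
    have h3 := Finset.card_filter_add_card_filter_not (s := (Finset.univ : Finset (Ltr (Fin r))))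
      (fun l : Ltr (Fin r) => w.getLast? = some (inv l))
    have h4 : (Finset.univ : Finset (Ltr (Fin r))).card = 2 * r := by
      simp [Fintype.card_prod, mul_comm]
    rw [h4] at h3
    have h5 : (Finset.univ.filter (fun l : Ltr (Fin r) => w.getLast? ≠ some (inv l))).card =
      (Finset.univ.filter (fun l : Ltr (Fin r) => ¬ w.getLast? = some (inv l))).card := rfl
    omega
  set T : Finset (List (Ltr (Fin r))) := GW τ r (n + 1) ∪
    ((Finset.Icc 2 τ).filter (fun ℓ => ℓ ≤ n + 1)).biUnion (fun ℓ =>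
      (MFR r ℓ ×ˢ GW τ r (n + 1 - ℓ)).image (fun p => p.2 ++ p.1)) with hT
  have hmaps : ∀ p ∈ S, p.1 ++ [p.2] ∈ T := by
    rintro ⟨w, l⟩ hp
    simp only [hS, Finset.mem_filter, Finset.mem_product, mem_GW, Finset.mem_univ, and_true] at hp
    obtain ⟨⟨hwl, hwg⟩, hlast⟩ := hp
    by_cases hg : Good τ (w ++ [l])
    · rw [hT, Finset.mem_union]
      left
      rw [mem_GW]
      exact ⟨by simp [hwl], hg⟩
    · rw [hT, Finset.mem_union]
      right
      obtain ⟨φ, h1, h2, h3⟩ := exists_minForb hg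
      have h4 : φ <:+ w ++ [l] := by
        rcases List.infix_concat_iff.1 h1 with h | h
        · exact h
        · exact absurd (hwg φ h h2) h3.not_min
      have h5 := h3.two_le
      have h6 : Red φ := by
        rcases h3.red_or with h | ⟨a, ha⟩
        · exact h
        · exfalso
          apply hlast
          rw [ha, List.suffix_concat_iff] at h4
          rcases h4 with h4 | ⟨t, ht, hs⟩
          · simp at h4
          · have ht1 : [a] ++ [inv a] = t ++ [l] := by simpa using ht
            have ht2 := List.append_inj' ht1 rfl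
            obtain ⟨s, hs⟩ := hs
            have hl : inv a = l := by simpa using ht2.2
            rw [← hs, ← ht2.1, ← hl]
            simp
      obtain ⟨y, hy⟩ := h4
      have hlen : y.length + φ.length = n + 1 := by
        have := congrArg List.length hy
        simp at this; omega
      rw [Finset.mem_biUnion]
      refine ⟨φ.length, ?_, ?_⟩
      · simp only [Finset.mem_filter, Finset.mem_Icc]
        omega
      · rw [Finset.mem_image]
        refine ⟨(φ, y), ?_, hy⟩
        simp only [Finset.mem_product, MFR, Finset.mem_filter, mem_words, mem_GW]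
        refine ⟨⟨trivial, h3, h6⟩, by omega, ?_⟩
        apply hwg.fac
        have : y <+: w := by
          have hyw : y <+: w ++ [l] := ⟨φ, hy⟩
          rcases List.prefix_concat_iff.1 hyw with h | h
          · exfalso
            rw [h] at hlen
            simp at hlen; omega
          · exact h
        exact this.isInfix
  have hinj : Set.InjOn (fun p : List (Ltr (Fin r)) × Ltr (Fin r) => p.1 ++ [p.2]) S := by
    rintro ⟨w, l⟩ _ ⟨w', l'⟩ _ h
    simp only at h
    have := List.append_inj' h rfl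
    simp at this
    simp [this.1, this.2]
  have h1 := Finset.card_le_card_of_injOn _ hmaps hinj
  refine hScard.trans (h1.trans ?_)
  refine (Finset.card_union_le _ _).trans ?_
  refine Nat.add_le_add_left ?_ _
  refine Finset.card_biUnion_le.trans ?_
  apply Finset.sum_le_sum
  intro ℓ _
  refine Finset.card_image_le.trans ?_
  rw [Finset.card_product, ga]

/-- a constant bounding the numbers of minimal forbidden words -/
def C1 (τ : ℕ) : ℕ := (2 * τ) ^ τ

theorem card_MF_le' {τ r ℓ : ℕ} (hr : 0 < r) (hℓ : ℓ ≤ τ) (h2 : 2 ≤ ℓ) :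
    (MF r ℓ).card ≤ r ^ (ℓ / 2) * C1 τ := by
  refine (card_MF_le hr ℓ).trans (Nat.mul_le_mul_left _ ?_)
  unfold C1
  calc (2 * ℓ) ^ ℓ ≤ (2 * τ) ^ ℓ := Nat.pow_le_pow_left (by omega) _
    _ ≤ (2 * τ) ^ τ := Nat.pow_le_pow_right (by omega) hℓ

theorem growth_step {τ : ℕ} (hτ : 2 ≤ τ) {r : ℕ} (hr : τ * C1 τ + 1 ≤ r) (n : ℕ) :
    r * ga τ r n ≤ ga τ r (n + 1) := by
  induction n using Nat.strong_induction_on with
  | _ n ih =>
    have hr0 : 0 < r := by omega
    have hpow : ∀ j ≤ n, r ^ j * ga τ r (n - j) ≤ ga τ r n := by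
      intro j hj
      induction j with
      | zero => simp
      | succ j ihj =>
        have h1 := ih (n - (j + 1)) (by omega)
        have h2 : n - (j + 1) + 1 = n - j := by omega
        rw [h2] at h1
        calc r ^ (j + 1) * ga τ r (n - (j + 1)) = r ^ j * (r * ga τ r (n - (j + 1))) := by ring
          _ ≤ r ^ j * ga τ r (n - j) := Nat.mul_le_mul_left _ h1
          _ ≤ ga τ r n := ihj (by omega)
    have h1 := ext_lower hτ r n
    have h2 : ∑ ℓ ∈ (Finset.Icc 2 τ).filter (fun ℓ => ℓ ≤ n + 1),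
        (MFR r ℓ).card * ga τ r (n + 1 - ℓ) ≤ τ * C1 τ * ga τ r n := by
      have h3 : ∀ ℓ ∈ (Finset.Icc 2 τ).filter (fun ℓ => ℓ ≤ n + 1),
          (MFR r ℓ).card * ga τ r (n + 1 - ℓ) ≤ C1 τ * ga τ r n := by
        intro ℓ hℓ
        simp only [Finset.mem_filter, Finset.mem_Icc] at hℓ
        have h4 := (Finset.card_le_card (MFR_subset_MF r ℓ)).trans
          (card_MF_le' hr0 hℓ.1.2 hℓ.1.1)
        have h5 := hpow (ℓ - 1) (by omega)
        have h6 : n - (ℓ - 1) = n + 1 - ℓ := by omega
        rw [h6] at h5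
        calc (MFR r ℓ).card * ga τ r (n + 1 - ℓ)
            ≤ (r ^ (ℓ / 2) * C1 τ) * ga τ r (n + 1 - ℓ) := Nat.mul_le_mul_right _ h4
          _ ≤ (r ^ (ℓ - 1) * C1 τ) * ga τ r (n + 1 - ℓ) := by
            apply Nat.mul_le_mul_right
            apply Nat.mul_le_mul_right
            exact Nat.pow_le_pow_right hr0 (by omega)
          _ = C1 τ * (r ^ (ℓ - 1) * ga τ r (n + 1 - ℓ)) := by ring
          _ ≤ C1 τ * ga τ r n := Nat.mul_le_mul_left _ h5
      refine (Finset.sum_le_sum h3).trans ?_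
      rw [Finset.sum_const, smul_eq_mul]
      calc ((Finset.Icc 2 τ).filter (fun ℓ => ℓ ≤ n + 1)).card * (C1 τ * ga τ r n)
          ≤ τ * (C1 τ * ga τ r n) := by
            apply Nat.mul_le_mul_right
            refine (Finset.card_filter_le _ _).trans ?_
            simp
        _ = τ * C1 τ * ga τ r n := by ring
    have h7 : r * ga τ r n + τ * C1 τ * ga τ r n ≤ (2 * r - 1) * ga τ r n := by
      rw [← add_mul]
      apply Nat.mul_le_mul_right
      omega
    omega

theorem growth_pow {τ : ℕ} (hτ : 2 ≤ τ) {r : ℕ} (hr : τ * C1 τ + 1 ≤ r) (n k : ℕ) :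
    r ^ k * ga τ r n ≤ ga τ r (n + k) := by
  induction k with
  | zero => simp
  | succ k ih =>
    calc r ^ (k + 1) * ga τ r n = r * (r ^ k * ga τ r n) := by ring
      _ ≤ r * ga τ r (n + k) := Nat.mul_le_mul_left _ ih
      _ ≤ ga τ r (n + k + 1) := growth_step hτ hr _

/-- approximate supermultiplicativity -/
theorem supermult {τ : ℕ} (hτ : 2 ≤ τ) {r : ℕ} (hr : 2 * τ ^ 2 * C1 τ + 1 ≤ r)
    (m n : ℕ) : ga τ r m * ga τ r n ≤ 2 * ga τ r (m + n) := by
  have hr0 : 0 < r := by omega
  have hr1 : τ * C1 τ + 1 ≤ r := by nlinarith [Nat.zero_le (C1 τ), Nat.zero_le (τ * C1 τ)]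
  set A : Finset (List (Ltr (Fin r)) × List (Ltr (Fin r))) := GW τ r m ×ˢ GW τ r n with hA
  set I : Finset (ℕ × ℕ) := (Finset.Icc 2 τ ×ˢ Finset.Icc 1 τ).filter
    (fun q => q.2 < q.1 ∧ q.2 ≤ m ∧ q.1 - q.2 ≤ n) with hI
  have hcov : A ⊆ A.filter (fun p => Good τ (p.1 ++ p.2)) ∪
      I.biUnion (fun q => (MF r q.1 ×ˢ (GW τ r (m - q.2) ×ˢ GW τ r (n - (q.1 - q.2)))).image
        (fun t => (t.2.1 ++ t.1.take q.2, t.1.drop q.2 ++ t.2.2))) := by
    rintro ⟨u, v⟩ hp
    rw [Finset.mem_union]
    by_cases hg : Good τ (u ++ v)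
    · left; simp [hp, hg]
    · right
      simp only [hA, Finset.mem_product, mem_GW] at hp
      obtain ⟨⟨hu1, hu2⟩, hv1, hv2⟩ := hp
      obtain ⟨φ, h1, h2, h3⟩ := exists_minForb hg
      rcases List.infix_append_iff_ne_nil.1 h1 with h | h | ⟨x, y, hx, hy, rfl, hxu, hyv⟩
      · exact absurd (hu2 φ h h2) h3.not_min
      · exact absurd (hv2 φ h h2) h3.not_min
      · obtain ⟨u', rfl⟩ := hxu
        obtain ⟨v', rfl⟩ := hyv
        have hx' : 0 < x.length := List.length_pos_iff.2 hx
        have hy' : 0 < y.length := List.length_pos_iff.2 hy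
        simp only [List.length_append] at hu1 hv1 h2
        rw [Finset.mem_biUnion]
        refine ⟨(x.length + y.length, x.length), ?_, ?_⟩
        · simp only [hI, Finset.mem_filter, Finset.mem_product, Finset.mem_Icc]
          omega
        · rw [Finset.mem_image]
          refine ⟨(x ++ y, (u', v')), ?_, ?_⟩
          · simp only [Finset.mem_product, MF, Finset.mem_filter, mem_words, mem_GW]
            refine ⟨⟨by simp, h3⟩, ⟨by omega, hu2.fac ?_⟩, by omega, hv2.fac ?_⟩
            · exact (List.prefix_append _ _).isInfix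
            · exact (List.suffix_append _ _).isInfix
          · simp
  have h1 := Finset.card_le_card hcov
  have h2 : A.card = ga τ r m * ga τ r n := by rw [hA, Finset.card_product]; rfl
  have h3 : (A.filter (fun p => Good τ (p.1 ++ p.2))).card ≤ ga τ r (m + n) := by
    apply Finset.card_le_card_of_injOn (fun p => p.1 ++ p.2)
    · rintro ⟨u, v⟩ hp
      simp only [hA, Finset.coe_filter, Set.mem_setOf_eq, Finset.mem_product, mem_GW] at hp
      simp only [Finset.mem_coe, mem_GW, List.length_append]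
      exact ⟨by omega, hp.2⟩
    · rintro ⟨u, v⟩ hp ⟨u', v'⟩ hp' h
      simp only [hA, Finset.coe_filter, Set.mem_setOf_eq, Finset.mem_product, mem_GW] at hp hp'
      simp only at h
      have := List.append_inj h (by omega)
      simp [this.1, this.2]
  have h4 : (I.biUnion (fun q => (MF r q.1 ×ˢ (GW τ r (m - q.2) ×ˢ
      GW τ r (n - (q.1 - q.2)))).image
        (fun t => (t.2.1 ++ t.1.take q.2, t.1.drop q.2 ++ t.2.2)))).card * r ≤
      τ ^ 2 * C1 τ * (ga τ r m * ga τ r n) := by
    refine (Nat.mul_le_mul_right r Finset.card_biUnion_le).trans ?_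
    rw [Finset.sum_mul]
    have h5 : ∀ q ∈ I, ((MF r q.1 ×ˢ (GW τ r (m - q.2) ×ˢ
        GW τ r (n - (q.1 - q.2)))).image
          (fun t => (t.2.1 ++ t.1.take q.2, t.1.drop q.2 ++ t.2.2))).card * r ≤
        C1 τ * (ga τ r m * ga τ r n) := by
      rintro ⟨ℓ, j⟩ hq
      simp only [hI, Finset.mem_filter, Finset.mem_product, Finset.mem_Icc] at hq
      obtain ⟨⟨⟨q1, q2⟩, q3, q4⟩, q5, q6, q7⟩ := hq
      have e1 := card_MF_le' hr0 q2 q1 (τ := τ)
      have e2 := growth_pow hτ hr1 (m - j) j
      have e3 := growth_pow hτ hr1 (n - (ℓ - j)) (ℓ - j)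
      rw [show m - j + j = m by omega] at e2
      rw [show n - (ℓ - j) + (ℓ - j) = n by omega] at e3
      have e4 : r ^ ℓ = r ^ j * r ^ (ℓ - j) := by rw [← pow_add]; congr 1; omega
      have e5 : r ^ (ℓ / 2) * r ≤ r ^ ℓ := by
        rw [← pow_succ]; exact Nat.pow_le_pow_right hr0 (by omega)
      calc ((MF r ℓ ×ˢ (GW τ r (m - j) ×ˢ GW τ r (n - (ℓ - j)))).image
          (fun t => (t.2.1 ++ t.1.take j, t.1.drop j ++ t.2.2))).card * r
          ≤ (MF r ℓ ×ˢ (GW τ r (m - j) ×ˢ GW τ r (n - (ℓ - j)))).card * r :=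
            Nat.mul_le_mul_right _ Finset.card_image_le
        _ = (MF r ℓ).card * (ga τ r (m - j) * ga τ r (n - (ℓ - j))) * r := by
            rw [Finset.card_product, Finset.card_product]; rfl
        _ ≤ (r ^ (ℓ / 2) * C1 τ) * (ga τ r (m - j) * ga τ r (n - (ℓ - j))) * r := by
            gcongr
        _ = C1 τ * ((r ^ (ℓ / 2) * r) * (ga τ r (m - j) * ga τ r (n - (ℓ - j)))) := by ring
        _ ≤ C1 τ * (r ^ ℓ * (ga τ r (m - j) * ga τ r (n - (ℓ - j)))) := by gcongr
        _ = C1 τ * ((r ^ j * ga τ r (m - j)) * (r ^ (ℓ - j) * ga τ r (n - (ℓ - j)))) := by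
            rw [e4]; ring
        _ ≤ C1 τ * (ga τ r m * ga τ r n) := by gcongr
    refine (Finset.sum_le_sum h5).trans ?_
    rw [Finset.sum_const, smul_eq_mul]
    have h6 : I.card ≤ τ ^ 2 := by
      rw [hI]
      refine (Finset.card_filter_le _ _).trans ?_
      rw [Finset.card_product]
      simp only [Nat.card_Icc]
      rw [sq]
      exact Nat.mul_le_mul (by omega) (by omega)
    calc I.card * (C1 τ * (ga τ r m * ga τ r n)) ≤ τ ^ 2 * (C1 τ * (ga τ r m * ga τ r n)) :=
          Nat.mul_le_mul_right _ h6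
      _ = τ ^ 2 * C1 τ * (ga τ r m * ga τ r n) := by ring
  have h7 := Finset.card_union_le (A.filter (fun p => Good τ (p.1 ++ p.2)))
      (I.biUnion (fun q => (MF r q.1 ×ˢ (GW τ r (m - q.2) ×ˢ GW τ r (n - (q.1 - q.2)))).image
        (fun t => (t.2.1 ++ t.1.take q.2, t.1.drop q.2 ++ t.2.2))))
  rw [h2] at h1
  set X := (I.biUnion (fun q => (MF r q.1 ×ˢ (GW τ r (m - q.2) ×ˢ
      GW τ r (n - (q.1 - q.2)))).image
        (fun t => (t.2.1 ++ t.1.take q.2, t.1.drop q.2 ++ t.2.2)))).card with hX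
  have h8 : ga τ r m * ga τ r n ≤ ga τ r (m + n) + X := by omega
  -- `2 X ≤ ga m * ga n`
  have h9 : 2 * X ≤ ga τ r m * ga τ r n := by
    by_contra hlt
    rw [not_le] at hlt
    have h10 : (ga τ r m * ga τ r n + 1) * r ≤ 2 * X * r := Nat.mul_le_mul_right _ hlt
    have h11 : 2 * (τ ^ 2 * C1 τ * (ga τ r m * ga τ r n)) ≤ r * (ga τ r m * ga τ r n) := by
      calc 2 * (τ ^ 2 * C1 τ * (ga τ r m * ga τ r n))
          = (2 * τ ^ 2 * C1 τ) * (ga τ r m * ga τ r n) := by ring
        _ ≤ r * (ga τ r m * ga τ r n) := Nat.mul_le_mul_right _ (by omega)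
    nlinarith
  omega

end Pool.Agent.Helper524_FM
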