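import Pool.Agent.Helper524_FM.Group

/-!
# Generating functions of the flows of classes of words
-/

set_option linter.unusedSectionVars false
set_option linter.unusedSimpArgs false

namespace Pool.Agent.Helper524_FM

open scoped Classical ENNReal

variable {r : ℕ}

/-- chains -/
abbrev Ch (r : ℕ) : Type := Fin r × (Fin r → ℤ) →₀ ℤ

/-- the weight of a flow: `z` to the least length of a word with property `P` and this flow
(as a supremum, for `z ≤ 1`). -/
noncomputable def wt (P : List (Ltr (Fin r)) → Prop) (z : ℝ≥0∞) (f : Ch r) : ℝ≥0∞ :=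
  ⨆ w : {w : List (Ltr (Fin r)) // P w ∧ flow 0 w = f}, z ^ w.1.length

/-- the generating function of the flows of the words with property `P` -/
noncomputable def G (P : List (Ltr (Fin r)) → Prop) (z : ℝ≥0∞) : ℝ≥0∞ := ∑' f, wt P z f

theorem le_wt {P : List (Ltr (Fin r)) → Prop} {z : ℝ≥0∞} {w : List (Ltr (Fin r))} (h : P w) :
    z ^ w.length ≤ wt P z (flow 0 w) :=
  le_iSup (fun w : {v : List (Ltr (Fin r)) // P v ∧ flow 0 v = flow 0 w} => z ^ w.1.length)
    ⟨w, h, rfl⟩

theorem wt_le {P : List (Ltr (Fin r)) → Prop} {z : ℝ≥0∞} {f : Ch r} {c : ℝ≥0∞}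
    (h : ∀ w, P w → flow 0 w = f → z ^ w.length ≤ c) : wt P z f ≤ c :=
  iSup_le fun w => h w.1 w.2.1 w.2.2

theorem wt_eq_zero {P : List (Ltr (Fin r)) → Prop} {z : ℝ≥0∞} {f : Ch r}
    (h : ∀ w, P w → flow 0 w ≠ f) : wt P z f = 0 := by
  apply le_antisymm _ bot_le
  exact wt_le fun w hw hf => absurd hf (h w hw)

theorem exists_of_wt_ne {P : List (Ltr (Fin r)) → Prop} {z : ℝ≥0∞} {f : Ch r}
    (h : wt P z f ≠ 0) : ∃ w, P w ∧ flow 0 w = f := by
  by_contra hne
  push Not at hne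
  exact h (wt_eq_zero hne)

theorem G_mono {P Q : List (Ltr (Fin r)) → Prop} {z : ℝ≥0∞} (h : ∀ w, P w → Q w) :
    G P z ≤ G Q z := by
  refine ENNReal.tsum_le_tsum fun f => wt_le fun w hw hf => ?_
  rw [← hf]
  exact le_wt (h w hw)

theorem G_mono_z {P : List (Ltr (Fin r)) → Prop} {z z' : ℝ≥0∞} (h : z ≤ z') :
    G P z ≤ G P z' := by
  refine ENNReal.tsum_le_tsum fun f => wt_le fun w hw hf => ?_
  rw [← hf]
  exact (pow_le_pow_left' h _).trans (le_wt hw)

theorem G_or {P Q R : List (Ltr (Fin r)) → Prop} {z : ℝ≥0∞} (h : ∀ w, P w → Q w ∨ R w) :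
    G P z ≤ G Q z + G R z := by
  unfold G
  rw [← ENNReal.tsum_add]
  refine ENNReal.tsum_le_tsum fun f => wt_le fun w hw hf => ?_
  rw [← hf]
  rcases h w hw with h1 | h1
  · exact (le_wt h1).trans le_self_add
  · exact (le_wt h1).trans le_add_self

/-- subproducts -/
theorem G_sub {P Q R : List (Ltr (Fin r)) → Prop} {z : ℝ≥0∞} (ψ : Ch r → Ch r → Ch r) (c : ℕ)
    (h : ∀ w, P w → ∃ u v, Q u ∧ R v ∧ w.length + c = u.length + v.length ∧
      flow 0 w = ψ (flow 0 u) (flow 0 v)) :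
    z ^ c * G P z ≤ G Q z * G R z := by
  have h1 : ∀ f, z ^ c * wt P z f ≤ ∑' p : Ch r × Ch r,
      if ψ p.1 p.2 = f then wt Q z p.1 * wt R z p.2 else 0 := by
    intro f
    unfold wt
    rw [ENNReal.mul_iSup]
    apply iSup_le
    rintro ⟨w, hw, hf⟩
    obtain ⟨u, v, hu, hv, hl, hfl⟩ := h w hw
    refine le_trans ?_ (ENNReal.le_tsum (flow 0 u, flow 0 v))
    rw [if_pos (by rw [← hf, hfl])]
    simp only
    rw [← pow_add, add_comm, hl, pow_add]
    exact mul_le_mul' (le_wt hu) (le_wt hv)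
  unfold G
  rw [← ENNReal.tsum_mul_left]
  calc ∑' f, z ^ c * wt P z f
      ≤ ∑' f, ∑' p : Ch r × Ch r, (if ψ p.1 p.2 = f then wt Q z p.1 * wt R z p.2 else 0) :=
        ENNReal.tsum_le_tsum h1
    _ = ∑' p : Ch r × Ch r, ∑' f, (if ψ p.1 p.2 = f then wt Q z p.1 * wt R z p.2 else 0) :=
        ENNReal.tsum_comm
    _ = ∑' p : Ch r × Ch r, wt Q z p.1 * wt R z p.2 := by
        congr 1
        funext p
        rw [tsum_eq_single (ψ p.1 p.2)]
        · rw [if_pos rfl]
        · intro b hb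
          rw [if_neg (fun h => hb h.symm)]
    _ = (∑' f, wt Q z f) * (∑' f, wt R z f) := by
        rw [ENNReal.tsum_prod', ← ENNReal.tsum_mul_right]
        congr 1
        funext f
        have h5 : ∑' b, wt Q z f * wt R z b = wt Q z f * ∑' b, wt R z b := ENNReal.tsum_mul_left
        exact h5

/-- superproducts -/
theorem G_super {P Q R : List (Ltr (Fin r)) → Prop} {z : ℝ≥0∞}
    (h : ∀ u v, Q u → R v → P (u ++ v))
    (hinj : ∀ u v u' v', Q u → R v → Q u' → R v' → flow 0 (u ++ v) = flow 0 (u' ++ v') →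
      flow 0 u = flow 0 u') :
    G Q z * G R z ≤ G P z := by
  set φ : Ch r × Ch r → Ch r := fun p => p.1 + shift (endOf p.1) p.2 with hφ
  set g : Ch r × Ch r → ℝ≥0∞ := fun p => wt Q z p.1 * wt R z p.2 with hg
  have e1 : ∀ u v : List (Ltr (Fin r)), flow 0 (u ++ v) = φ (flow 0 u, flow 0 v) := by
    intro u v
    simp only [hφ]
    rw [flow_append, endOf_flow, shift]
    congr 1
    have := flow_shift 0 (pos u) v
    simpa using this
  have hgφ : ∀ p, g p ≤ wt P z (φ p) := by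
    intro p
    simp only [hg]
    unfold wt
    rw [ENNReal.iSup_mul]
    apply iSup_le
    rintro ⟨u, hu, hfu⟩
    rw [ENNReal.mul_iSup]
    apply iSup_le
    rintro ⟨v, hv, hfv⟩
    have h2 : φ p = flow 0 (u ++ v) := by
      rw [e1, hfu, hfv]
    have h3 := le_wt (z := z) (h u v hu hv)
    simp only
    rw [h2, ← pow_add, ← List.length_append]
    exact h3
  have hinj' : Function.Injective (fun p : Function.support g => φ p.1) := by
    rintro ⟨⟨f1, f2⟩, hp⟩ ⟨⟨f1', f2'⟩, hp'⟩ hpp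
    simp only at hpp
    simp only [hg, Function.mem_support, ne_eq, mul_eq_zero, not_or] at hp hp'
    obtain ⟨u, hu, rfl⟩ := exists_of_wt_ne hp.1
    obtain ⟨v, hv, rfl⟩ := exists_of_wt_ne hp.2
    obtain ⟨u', hu', rfl⟩ := exists_of_wt_ne hp'.1
    obtain ⟨v', hv', rfl⟩ := exists_of_wt_ne hp'.2
    have h1 : flow 0 (u ++ v) = flow 0 (u' ++ v') := by rw [e1, e1, hpp]
    have h2 := hinj u v u' v' hu hv hu' hv' h1
    have h3 : flow 0 v = flow 0 v' := by
      rw [flow_append, flow_append, h2, pos_eq_of_flow h2] at h1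
      exact (flow_eq_iff _ _ _).1 (add_left_cancel h1)
    simp only [h2, h3]
  calc G Q z * G R z = ∑' p : Ch r × Ch r, g p := by
        unfold G
        rw [ENNReal.tsum_prod', ← ENNReal.tsum_mul_right]
        congr 1
        funext f
        exact ENNReal.tsum_mul_left.symm
    _ = ∑' p : Function.support g, g p := (tsum_subtype_support g).symm
    _ ≤ ∑' p : Function.support g, wt P z (φ p.1) := ENNReal.tsum_le_tsum fun p => hgφ p.1
    _ ≤ ∑' f, wt P z f := ENNReal.tsum_comp_le_tsum_of_injective hinj' (wt P z)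

theorem G_scale {P : List (Ltr (Fin r)) → Prop} {z t : ℝ≥0∞} (ht : t ≤ 1) {s : ℕ}
    (h : ∀ w, P w → s ≤ w.length) : G P (z * t) ≤ t ^ s * G P z := by
  unfold G
  rw [← ENNReal.tsum_mul_left]
  refine ENNReal.tsum_le_tsum fun f => wt_le fun w hw hf => ?_
  rw [← hf, mul_pow, mul_comm]
  exact mul_le_mul' (pow_le_pow_right_of_le_one' ht (h w hw)) (le_wt hw)

theorem G_nil (z : ℝ≥0∞) : G (fun w : List (Ltr (Fin r)) => w = []) z = 1 := by
  unfold G
  rw [tsum_eq_single 0]
  · apply le_antisymm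
    · exact wt_le fun w hw _ => by rw [hw]; simp
    · have := le_wt (z := z) (P := fun w : List (Ltr (Fin r)) => w = []) (w := []) rfl
      simpa using this
  · intro f hf
    apply wt_eq_zero
    rintro w rfl h
    exact hf h.symm

theorem one_le_G {P : List (Ltr (Fin r)) → Prop} (h : P []) (z : ℝ≥0∞) : 1 ≤ G P z := by
  rw [← G_nil (r := r) z]
  exact G_mono fun w hw => by rw [hw]; exact h

/-- finitely many flows -/
theorem le_G_of_finset {P : List (Ltr (Fin r)) → Prop} {z : ℝ≥0∞}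
    (s : Finset (List (Ltr (Fin r)))) (h : ∀ w ∈ s, P w) (hinj : Set.InjOn (flow 0) (s : Set (List (Ltr (Fin r))))) :
    ∑ w ∈ s, z ^ w.length ≤ G P z := by
  calc ∑ w ∈ s, z ^ w.length ≤ ∑ w ∈ s, wt P z (flow 0 w) :=
        Finset.sum_le_sum fun w hw => le_wt (h w hw)
    _ = ∑ f ∈ s.image (flow 0), wt P z f := (Finset.sum_image (fun a ha b hb => hinj ha hb)).symm
    _ ≤ G P z := ENNReal.sum_le_tsum _

end Pool.Agent.Helper524_FM
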