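import Pool.Agent.Helper524_FM.HW1

/-!
# Bridges, half-space words and unfolding
-/

set_option linter.unusedSectionVars false
set_option linter.unusedSimpArgs false

namespace Pool.Agent.Helper524_FM

open scoped Classical ENNReal

variable {r : ℕ}

/-- height of the upper endpoint of an edge -/
def top (a : Fin r) (e : Fin r × (Fin r → ℤ)) : ℤ := e.2 a + (if e.1 = a then 1 else 0)

theorem stp_same (a : Fin r) (l : Ltr (Fin r)) (h : l.1 = a) : stp l a = sgn l := by
  subst h; simp [stp]

theorem top_low (a : Fin r) (x : Fin r → ℤ) (l : Ltr (Fin r)) :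
    top a (l.1, low x l) = max (x a) ((x + stp l) a) := by
  unfold top
  simp only [Pi.add_apply]
  by_cases h : l.1 = a
  · rw [if_pos h, stp_same a l h]
    unfold low
    rcases l with ⟨i, b⟩
    simp only at h
    subst h
    cases b
    · simp [sgn, stp]
    · simp [sgn, stp]
  · rw [if_neg h, stp_level (fun h' => h h'.symm), low_level (fun h' => h h'.symm)]
    simp

theorem flow_top_zero (a : Fin r) {s : ℤ} {w : List (Ltr (Fin r))} {x : Fin r → ℤ}
    (h : ∀ k ≤ w.length, (x + pos (w.take k)) a ≤ s) {e : Fin r × (Fin r → ℤ)}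
    (he : s < top a e) : flow x w e = 0 := by
  induction w generalizing x with
  | nil => simp
  | cons l w ih =>
    have h0 := h 0 (by simp)
    have h1 := h 1 (by simp)
    have ih' := ih (x := x + stp l) (fun k hk => by
      have := h (k + 1) (by simpa using hk)
      simpa [add_assoc] using this)
    rw [flow_cons, Finsupp.add_apply, ih', add_zero, Finsupp.single_apply, if_neg]
    intro h'
    rw [← h', top_low] at he
    simp only [List.take_zero, pos_nil, add_zero, List.take_succ_cons, pos_cons] at h0 h1
    exact absurd he (not_lt.2 (max_le h0 h1))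

theorem flow_top_zero' (a : Fin r) {s : ℤ} {w : List (Ltr (Fin r))} {x : Fin r → ℤ}
    (h : ∀ k, 1 ≤ k → k ≤ w.length → s < (x + pos (w.take k)) a) {e : Fin r × (Fin r → ℤ)}
    (he : top a e ≤ s) : flow x w e = 0 := by
  induction w generalizing x with
  | nil => simp
  | cons l w ih =>
    have h1 := h 1 le_rfl (by simp)
    have ih' := ih (x := x + stp l) (fun k hk1 hk => by
      have := h (k + 1) (by omega) (by simpa using hk)
      simpa [add_assoc] using this)
    rw [flow_cons, Finsupp.add_apply, ih', add_zero, Finsupp.single_apply, if_neg]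
    intro h'
    rw [← h', top_low] at he
    simp only [List.take_zero, pos_nil, add_zero, List.take_succ_cons, pos_cons] at h1
    exact absurd h1 (not_lt.2 ((le_max_right _ _).trans he))

/-- words whose heights after the start lie between `1` and `M` -/
def Hm (a : Fin r) (M : ℕ) (w : List (Ltr (Fin r))) : Prop :=
  ∀ k, 1 ≤ k → k ≤ w.length → 1 ≤ pos (w.take k) a ∧ pos (w.take k) a ≤ M

/-- bridges of span `s` -/
def Br (a : Fin r) (s : ℕ) (w : List (Ltr (Fin r))) : Prop := pos w a = s ∧ Hm a s w

theorem Hm.mono {a : Fin r} {M N : ℕ} (h : M ≤ N) {w : List (Ltr (Fin r))} (hw : Hm a M w) :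
    Hm a N w := fun k h1 h2 => ⟨(hw k h1 h2).1, (hw k h1 h2).2.trans (by exact_mod_cast h)⟩

theorem take_append_cases {u v : List (Ltr (Fin r))} {k : ℕ} :
    (k ≤ u.length ∧ (u ++ v).take k = u.take k) ∨
    (u.length < k ∧ (u ++ v).take k = u ++ v.take (k - u.length)) := by
  rcases Nat.lt_or_ge u.length k with h | h
  · right
    refine ⟨h, ?_⟩
    rw [List.take_append, List.take_of_length_le (by omega)]
  · left
    exact ⟨h, by rw [List.take_append_of_le_length h]⟩

theorem Br.append {a : Fin r} {s t : ℕ} {u v : List (Ltr (Fin r))} (hu : Br a s u)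
    (hv : Br a t v) : Br a (s + t) (u ++ v) := by
  refine ⟨by rw [pos_append, Pi.add_apply, hu.1, hv.1]; push_cast; rfl, ?_⟩
  intro k h1 h2
  rw [List.length_append] at h2
  rcases take_append_cases (u := u) (v := v) (k := k) with ⟨h3, h4⟩ | ⟨h3, h4⟩
  · rw [h4]
    have := hu.2 k h1 h3
    push_cast
    exact ⟨this.1, by linarith [this.2]⟩
  · rw [h4, pos_append, Pi.add_apply, hu.1]
    have := hv.2 (k - u.length) (by omega) (by omega)
    push_cast
    exact ⟨by linarith [this.1], by linarith [this.2]⟩

theorem Br.flow_left {a : Fin r} {s : ℕ} {u v : List (Ltr (Fin r))} (hu : Br a s u)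
    (hv : ∀ k, 1 ≤ k → k ≤ v.length → 1 ≤ pos (v.take k) a) (e : Fin r × (Fin r → ℤ)) :
    flow 0 u e = if top a e ≤ s then flow 0 (u ++ v) e else 0 := by
  split
  · rename_i he
    rw [flow_append, Finsupp.add_apply, zero_add, flow_top_zero' a (s := s) (w := v) _ he, add_zero]
    intro k h1 h2
    rw [Pi.add_apply, hu.1]
    linarith [hv k h1 h2]
  · rename_i he
    apply flow_top_zero a (s := s) _ (not_le.1 he)
    intro k hk
    rcases Nat.eq_zero_or_pos k with h0 | h0
    · subst h0; simp
    · rw [zero_add]; exact (hu.2 k h0 hk).2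

theorem Br.inj {a : Fin r} {s : ℕ} {u v u' v' : List (Ltr (Fin r))} (hu : Br a s u)
    (hu' : Br a s u') (hv : ∀ k, 1 ≤ k → k ≤ v.length → 1 ≤ pos (v.take k) a)
    (hv' : ∀ k, 1 ≤ k → k ≤ v'.length → 1 ≤ pos (v'.take k) a)
    (h : flow 0 (u ++ v) = flow 0 (u' ++ v')) : flow 0 u = flow 0 u' := by
  ext e
  rw [hu.flow_left hv, hu'.flow_left hv', h]

theorem G_Br_mul (a : Fin r) (s t : ℕ) (z : ℝ≥0∞) :
    G (Br a s) z * G (Br a t) z ≤ G (Br a (s + t)) z := by
  apply G_super
  · intro u v hu hv; exact hu.append hv
  · intro u v u' v' hu hv hu' hv' h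
    exact hu.inj hu' (fun k h1 h2 => (hv.2 k h1 h2).1) (fun k h1 h2 => (hv'.2 k h1 h2).1) h

theorem G_Br_pow (a : Fin r) (s k : ℕ) (z : ℝ≥0∞) :
    G (Br a s) z ^ k ≤ G (Br a (k * s)) z := by
  induction k with
  | zero =>
    simp only [pow_zero, zero_mul]
    apply one_le_G
    refine ⟨by simp, ?_⟩
    intro k h1 h2
    simp at h2; omega
  | succ k ih =>
    rw [pow_succ, add_mul, one_mul]
    exact (mul_le_mul' ih le_rfl).trans (G_Br_mul a _ _ z)

/-! ### lengths -/

theorem abs_stp_le (a : Fin r) (l : Ltr (Fin r)) : |stp l a| ≤ 1 := by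
  by_cases h : l.1 = a
  · rw [stp_same a l h]; unfold sgn; split <;> simp
  · rw [stp_level (fun h' => h h'.symm)]; simp

theorem abs_pos_le (a : Fin r) (w : List (Ltr (Fin r))) : |pos w a| ≤ w.length := by
  induction w with
  | nil => simp
  | cons l w ih =>
    rw [pos_cons, Pi.add_apply]
    have := abs_add_le (stp l a) (pos w a)
    have h2 := abs_stp_le a l
    push_cast [List.length_cons]
    linarith

theorem Br.le_length {a : Fin r} {s : ℕ} {w : List (Ltr (Fin r))} (h : Br a s w) :
    s ≤ w.length := by
  have h1 := abs_pos_le a w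
  rw [h.1, Nat.abs_cast] at h1
  exact_mod_cast h1

/-! ### the reflection -/

/-- reflection of letters -/
def rl (a : Fin r) (l : Ltr (Fin r)) : Ltr (Fin r) := if l.1 = a then inv l else l

/-- reflection of words -/
def rw' (a : Fin r) (w : List (Ltr (Fin r))) : List (Ltr (Fin r)) := w.map (rl a)

/-- reflection of points -/
def rp (a : Fin r) (x : Fin r → ℤ) : Fin r → ℤ := Function.update x a (- x a)

/-- reflection of edges -/
def re (a : Fin r) (e : Fin r × (Fin r → ℤ)) : Fin r × (Fin r → ℤ) :=
  (e.1, if e.1 = a then rp a (e.2 + stp (a, true)) else rp a e.2)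

/-- reflection of chains -/
noncomputable def rc (a : Fin r) : Ch r →+ Ch r :=
  Finsupp.liftAddHom (fun e => (Finsupp.singleAddHom (re a e)).comp
    (AddMonoidHom.mulLeft (if e.1 = a then (-1 : ℤ) else 1)))

theorem rl_rl (a : Fin r) (l : Ltr (Fin r)) : rl a (rl a l) = l := by
  unfold rl
  by_cases h : l.1 = a
  · rw [if_pos h, if_pos (by simpa using h), inv_inv]
  · rw [if_neg h, if_neg h]

theorem rw'_rw' (a : Fin r) (w : List (Ltr (Fin r))) : rw' a (rw' a w) = w := by
  unfold rw'
  rw [List.map_map]
  have : (rl a ∘ rl a) = (id : Ltr (Fin r) → Ltr (Fin r)) := funext (rl_rl a)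
  rw [this, List.map_id]

theorem rp_add (a : Fin r) (x y : Fin r → ℤ) : rp a (x + y) = rp a x + rp a y := by
  ext i
  unfold rp
  by_cases h : i = a
  · subst h; simp; ring
  · simp [Function.update_of_ne h]

theorem rp_rp (a : Fin r) (x : Fin r → ℤ) : rp a (rp a x) = x := by
  ext i
  unfold rp
  by_cases h : i = a
  · subst h; simp
  · simp [Function.update_of_ne h]

theorem stp_rl (a : Fin r) (l : Ltr (Fin r)) : stp (rl a l) = rp a (stp l) := by
  unfold rl
  split
  · rename_i h
    rw [stp_inv]
    ext i
    unfold rp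
    by_cases hi : i = a
    · subst hi; simp
    · rw [Function.update_of_ne hi, Pi.neg_apply, stp_level (by rw [h]; exact hi)]; simp
  · rename_i h
    ext i
    unfold rp
    by_cases hi : i = a
    · subst hi; rw [Function.update_self, stp_level (fun h' => h h'.symm)]; simp
    · rw [Function.update_of_ne hi]

theorem pos_rw' (a : Fin r) (w : List (Ltr (Fin r))) : pos (rw' a w) = rp a (pos w) := by
  induction w with
  | nil => ext i; simp [rw', rp, Function.update_apply]
  | cons l w ih =>
    have : rw' a (l :: w) = rl a l :: rw' a w := rfl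
    rw [this, pos_cons, ih, stp_rl, pos_cons, rp_add]

theorem flow_rw' (a : Fin r) (x : Fin r → ℤ) (w : List (Ltr (Fin r))) :
    flow (rp a x) (rw' a w) = rc a (flow x w) := by
  induction w generalizing x with
  | nil => simp [rw']
  | cons l w ih =>
    have h0 : rw' a (l :: w) = rl a l :: rw' a w := rfl
    rw [h0, flow_cons, flow_cons, map_add, ← ih, stp_rl, ← rp_add]
    congr 1
    by_cases h : l.1 = a
    · have h1 : rl a l = inv l := by unfold rl; rw [if_pos h]
      rw [h1]
      simp only [rc, Finsupp.liftAddHom_apply_single, if_pos h]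
      simp only [AddMonoidHom.comp_apply, AddMonoidHom.coe_mulLeft, Finsupp.singleAddHom_apply,
        sgn_inv, inv_fst, neg_mul, one_mul]
      congr 1
      unfold re
      rw [if_pos h]
      simp only [Prod.mk.injEq, true_and]
      rcases l with ⟨i, b⟩
      simp only at h
      subst h
      cases b
      · simp only [low, inv, Bool.not_false, if_true, Bool.false_eq_true, if_false]
        congr 1
        have : stp ((i, true) : Ltr (Fin r)) = - stp (i, false) := by rw [← stp_inv]; rfl
        rw [this]; abel
      · simp only [low, inv, Bool.not_true, if_true, Bool.false_eq_true, if_false]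
        rw [rp_add]
        congr 1
        have h3 := stp_rl i (i, true)
        rw [← h3, h1]
        rfl
    · have h1 : rl a l = l := by unfold rl; rw [if_neg h]
      rw [h1]
      simp only [rc, Finsupp.liftAddHom_apply_single, if_neg h]
      simp only [AddMonoidHom.comp_apply, AddMonoidHom.coe_mulLeft, Finsupp.singleAddHom_apply,
        one_mul]
      congr 1
      unfold re
      rw [if_neg h]
      simp only [Prod.mk.injEq, true_and]
      unfold low
      split
      · rfl
      · rw [rp_add]
        congr 1
        have h3 := stp_rl a l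
        rw [h1] at h3
        exact h3

end Pool.Agent.Helper524_FM
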