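import Pool.Agent.Helper524_FM.Upper1

/-!
# Words with the same flow are equal in the free metabelian group
-/

set_option linter.unusedSectionVars false
set_option linter.unusedSimpArgs false

namespace Pool.Agent.Helper524_FM

open scoped Classical commutatorElement

variable {r : ℕ}

theorem fm_derived_two (r : ℕ) : derivedSeries (FM r) 2 = ⊥ := by
  have h1 := map_derivedSeries_eq (f := QuotientGroup.mk' (derivedSeries (FreeGroup (Fin r)) 2))
    (QuotientGroup.mk'_surjective _) 2
  rw [← h1]
  exact QuotientGroup.map_mk'_self _

theorem comm_of_mem {a b : FM r} (ha : a ∈ commutator (FM r)) (hb : b ∈ commutator (FM r)) :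
    a * b = b * a := by
  have h3 : derivedSeries (FM r) 2 = ⁅derivedSeries (FM r) 1, derivedSeries (FM r) 1⁆ :=
    derivedSeries_succ (G := FM r) 1
  have h2 : ⁅a, b⁆ ∈ derivedSeries (FM r) 2 := by
    rw [h3, derivedSeries_one]
    exact Subgroup.commutator_mem_commutator ha hb
  rw [fm_derived_two, Subgroup.mem_bot] at h2
  exact commutatorElement_eq_one_iff_mul_comm.1 h2

/-- the commutator subgroup as a commutative group -/
noncomputable instance instCG (r : ℕ) : CommGroup (commutator (FM r)) :=
  { (inferInstance : Group (commutator (FM r))) with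
    mul_comm := fun a b => Subtype.ext (comm_of_mem a.2 b.2) }

/-- the image in the abelianization -/
theorem ab_ev (w : List (Ltr (Fin r))) :
    Abelianization.of (ev r w) = ∏ i, (Abelianization.of (gen r (i, true))) ^ (pos w i) := by
  induction w with
  | nil => simp [ev_nil]
  | cons l w ih =>
    rw [ev_cons, map_mul, ih, pos_cons]
    simp only [Pi.add_apply, zpow_add, Finset.prod_mul_distrib]
    congr 1
    rcases l with ⟨i, b⟩
    cases b
    · rw [Finset.prod_eq_single i]
      · have : ((i, false) : Ltr (Fin r)) = inv (i, true) := rfl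
        rw [this, gen_inv, map_inv]
        simp [stp, sgn, inv]
      · intro j _ hj
        rw [stp_level hj, zpow_zero]
      · intro h; exact absurd (Finset.mem_univ i) h
    · rw [Finset.prod_eq_single i]
      · simp [stp, sgn]
      · intro j _ hj
        rw [stp_level hj, zpow_zero]
      · intro h; exact absurd (Finset.mem_univ i) h

theorem mem_commutator_of_pos {w : List (Ltr (Fin r))} (h : pos w = 0) :
    ev r w ∈ commutator (FM r) := by
  have h1 : Abelianization.of (ev r w) = 1 := by rw [ab_ev, h]; simp
  rw [← Abelianization.ker_of]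
  exact h1

/-- every lattice point is an endpoint -/
theorem exists_pos (x : Fin r → ℤ) : ∃ w : List (Ltr (Fin r)), pos w = x := by
  have h : ∀ s : Finset (Fin r), ∃ w : List (Ltr (Fin r)), pos w = ∑ i ∈ s, Pi.single i (x i) := by
    intro s
    induction s using Finset.induction_on with
    | empty => exact ⟨[], by simp⟩
    | insert i s hi ih =>
      obtain ⟨w, hw⟩ := ih
      have h1 : ∀ n : ℕ, pos (List.replicate n ((i, true) : Ltr (Fin r))) =
          Pi.single i (n : ℤ) := by
        intro n
        induction n with
        | zero => simp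
        | succ n ih =>
          rw [List.replicate_succ, pos_cons, ih]
          simp only [stp, sgn, if_true]
          rw [← Pi.single_add]; push_cast; congr 1; ring
      have h2 : ∃ v : List (Ltr (Fin r)), pos v = Pi.single i (x i) := by
        rcases Int.eq_nat_or_neg (x i) with ⟨n, hn | hn⟩
        · exact ⟨_, by rw [h1 n, hn]⟩
        · refine ⟨invW (List.replicate n ((i, true) : Ltr (Fin r))), ?_⟩
          rw [pos_invW, h1 n, hn, Pi.single_neg]
      obtain ⟨v, hv⟩ := h2
      exact ⟨v ++ w, by rw [pos_append, hv, hw, Finset.sum_insert hi]⟩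
  obtain ⟨w, hw⟩ := h Finset.univ
  exact ⟨w, by rw [hw]; exact Finset.univ_sum_single x⟩

/-- a chosen element over each lattice point -/
noncomputable def tr (x : Fin r → ℤ) : List (Ltr (Fin r)) :=
  if x = 0 then [] else (exists_pos x).choose

theorem pos_tr (x : Fin r → ℤ) : pos (tr x) = x := by
  unfold tr
  split
  · rename_i h; rw [h]; rfl
  · exact (exists_pos x).choose_spec

/-- the element of the commutator subgroup attached to an edge -/
noncomputable def sg (e : Fin r × (Fin r → ℤ)) : commutator (FM r) :=
  ⟨ev r (tr e.2) * gen r (e.1, true) * (ev r (tr (e.2 + stp (e.1, true))))⁻¹, by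
    have h : ev r (tr e.2) * gen r (e.1, true) * (ev r (tr (e.2 + stp (e.1, true))))⁻¹ =
        ev r (tr e.2 ++ (e.1, true) :: invW (tr (e.2 + stp (e.1, true)))) := by
      rw [ev_append, ev_cons, ev_invW, mul_assoc]
    rw [h]
    apply mem_commutator_of_pos
    rw [pos_append, pos_cons, pos_invW, pos_tr, pos_tr]
    abel⟩

/-- the product of the edge elements -/
noncomputable def PhiF (r : ℕ) : (Fin r × (Fin r → ℤ) →₀ ℤ) →+ Additive (commutator (FM r)) :=
  Finsupp.liftAddHom (fun e => zmultiplesHom _ (Additive.ofMul (sg e)))

theorem PhiF_single (e : Fin r × (Fin r → ℤ)) (n : ℤ) :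
    (PhiF r (Finsupp.single e n)).toMul = (sg e) ^ n := by
  simp [PhiF]

theorem key_identity (x : Fin r → ℤ) (w : List (Ltr (Fin r))) :
    ev r (tr x) * ev r w * (ev r (tr (x + pos w)))⁻¹ =
      ((PhiF r (flow x w)).toMul : commutator (FM r)) := by
  induction w generalizing x with
  | nil => simp [ev_nil]
  | cons l w ih =>
    rw [flow_cons, map_add, toMul_add, Subgroup.coe_mul, ← ih, PhiF_single, ev_cons, pos_cons]
    have h1 : ((sg (l.1, low x l) ^ sgn l : commutator (FM r)) : FM r) =
        ev r (tr x) * gen r l * (ev r (tr (x + stp l)))⁻¹ := by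
      rcases l with ⟨i, b⟩
      cases b
      · simp only [sgn, Bool.false_eq_true, if_false, zpow_neg, zpow_one, low]
        rw [Subgroup.coe_inv]
        simp only [sg]
        have h2 : x + stp (i, false) + stp (i, true) = x := by
          have : stp (i, true) = - stp ((i, false) : Ltr (Fin r)) := by
            rw [← stp_inv]; rfl
          rw [this]; abel
        rw [h2]
        have h3 : gen r (i, false) = (gen r (i, true))⁻¹ := by
          rw [← gen_inv]; rfl
        rw [h3]; group
      · simp only [sgn, if_true, zpow_one, low, sg]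
    rw [h1, add_assoc]
    group

/-- **Magnus embedding.** A word with zero flow is trivial in the free metabelian group. -/
theorem ev_of_zero {w : List (Ltr (Fin r))} (h : flow 0 w = 0) : ev r w = 1 := by
  have h1 := key_identity 0 w
  have hp : pos w = 0 := by rw [← endOf_flow 0 w, h, map_zero]
  rw [h, map_zero, hp, add_zero] at h1
  have h2 : tr (0 : Fin r → ℤ) = [] := by simp [tr]
  rw [h2, ev_nil] at h1
  simpa using h1

theorem ev_of_flow {w v : List (Ltr (Fin r))} (h : flow 0 w = flow 0 v) : ev r w = ev r v := by
  have h1 := ev_of_zero ((flow_zero_iff w v).2 h)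
  rw [ev_append, ev_invW] at h1
  exact mul_inv_eq_one.1 h1

theorem ev_iff_flow {w v : List (Ltr (Fin r))} : ev r w = ev r v ↔ flow 0 w = flow 0 v :=
  ⟨flow_eq_of_ev, ev_of_flow⟩

end Pool.Agent.Helper524_FM
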