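import Pool.Agent.Helper524_FM.HW2
import Pool.Agent.Helper524_FM.Magnus

/-!
# Unfolding: the generating function of all elements
-/

set_option linter.unusedSectionVars false
set_option linter.unusedSimpArgs false

namespace Pool.Agent.Helper524_FM

open scoped Classical ENNReal

variable {r : ℕ}

theorem take_rw' (a : Fin r) (w : List (Ltr (Fin r))) (j : ℕ) :
    (rw' a w).take j = rw' a (w.take j) := by
  unfold rw'; rw [List.map_take]

theorem rp_self (a : Fin r) (x : Fin r → ℤ) : rp a x a = - x a := by
  unfold rp; rw [Function.update_self]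

theorem length_rw' (a : Fin r) (w : List (Ltr (Fin r))) : (rw' a w).length = w.length := by
  unfold rw'; rw [List.length_map]

theorem rp_zero (a : Fin r) : rp a (0 : Fin r → ℤ) = 0 := by
  ext i; simp [rp, Function.update_apply]

/-- unfolding of half-space words -/
theorem unfold_split (a : Fin r) (M : ℕ) (w : List (Ltr (Fin r))) (hw : Hm a (M + 1) w) :
    Hm a M w ∨ ∃ u v, w = u ++ v ∧ Br a (M + 1) u ∧ Hm a M (rw' a v) := by
  by_cases hM : Hm a M w
  · exact Or.inl hM
  right
  unfold Hm at hM
  push Not at hM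
  obtain ⟨k, hk1, hk2, hk3⟩ := hM
  have hk4 : pos (w.take k) a = M + 1 := by
    have h1 := hw k hk1 hk2
    have h2 := hk3 h1.1
    push_cast at h1 h2
    omega
  set P : ℕ → Prop := fun k => 1 ≤ k ∧ pos (w.take k) a = M + 1 with hP
  set k0 := Nat.findGreatest P w.length with hk0
  have hPk0 : P k0 := Nat.findGreatest_spec (P := P) hk2 ⟨hk1, hk4⟩
  have hk0le : k0 ≤ w.length := Nat.findGreatest_le _
  have hgr : ∀ j, k0 < j → j ≤ w.length → ¬ P j := fun j h1 h2 =>
    Nat.findGreatest_is_greatest h1 h2
  refine ⟨w.take k0, w.drop k0, (List.take_append_drop _ _).symm, ⟨?_, ?_⟩, ?_⟩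
  · rw [hPk0.2]; push_cast; rfl
  · intro j h1 h2
    rw [List.length_take, min_eq_left hk0le] at h2
    rw [List.take_take, min_eq_left h2]
    exact hw j h1 (h2.trans hk0le)
  · intro j h1 h2
    rw [length_rw', List.length_drop] at h2
    rw [take_rw', pos_rw', rp_self]
    have h3 : w.take (k0 + j) = w.take k0 ++ (w.drop k0).take j := List.take_add
    have h4 := hw (k0 + j) (by omega) (by omega)
    have h5 := hgr (k0 + j) (by omega) (by omega)
    have h6 : pos (w.take (k0 + j)) a ≠ M + 1 := fun h => h5 ⟨by omega, h⟩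
    rw [h3, pos_append, Pi.add_apply, hPk0.2] at h4 h6
    push_cast at h4
    omega

theorem G_Hm_succ (a : Fin r) (M : ℕ) (z : ℝ≥0∞) :
    G (Hm a (M + 1)) z ≤ (1 + G (Br a (M + 1)) z) * G (Hm a M) z := by
  refine (G_or (Q := Hm a M)
    (R := fun w => ∃ u v, w = u ++ v ∧ Br a (M + 1) u ∧ Hm a M (rw' a v))
    (unfold_split a M)).trans ?_
  rw [add_mul, one_mul]
  apply add_le_add le_rfl
  have h := G_sub (P := fun w => ∃ u v, w = u ++ v ∧ Br a (M + 1) u ∧ Hm a M (rw' a v))
    (Q := Br a (M + 1)) (R := Hm a M) (z := z) (fun f g => f + shift (endOf f) (rc a g)) 0 (by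
      rintro w ⟨u, v, rfl, hu, hv⟩
      refine ⟨u, rw' a v, hu, hv, ?_, ?_⟩
      · rw [length_rw', List.length_append]; rfl
      · rw [flow_append, endOf_flow]
        congr 1
        have h1 := flow_rw' a 0 (rw' a v)
        rw [rw'_rw', rp_zero] at h1
        rw [← h1, shift]
        exact flow_shift 0 (pos u) v)
  rwa [pow_zero, one_mul] at h

theorem G_Hm_zero (a : Fin r) (z : ℝ≥0∞) : G (Hm a 0) z ≤ 1 := by
  rw [← G_nil (r := r) z]
  apply G_mono
  intro w hw
  by_contra hne
  have h1 : 1 ≤ w.length := by
    rcases w with _ | ⟨l, w⟩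
    · exact absurd rfl hne
    · simp
  have := hw 1 le_rfl h1
  push_cast at this
  omega

theorem G_Hm_le (a : Fin r) {z t : ℝ≥0∞} (ht : t ≤ 1) (hz : ∀ s, G (Br a s) z ≤ 1) (M : ℕ) :
    G (Hm a M) (z * t) ≤ ∏ s ∈ Finset.range M, (1 + t ^ (s + 1)) := by
  induction M with
  | zero => simpa using G_Hm_zero a (z * t)
  | succ M ih =>
    rw [Finset.prod_range_succ, mul_comm (∏ x ∈ Finset.range M, (1 + t ^ (x + 1)))]
    refine (G_Hm_succ a M _).trans (mul_le_mul' (add_le_add le_rfl ?_) ih)
    calc G (Br a (M + 1)) (z * t) ≤ t ^ (M + 1) * G (Br a (M + 1)) z :=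
          G_scale ht fun w hw => hw.le_length
      _ ≤ t ^ (M + 1) * 1 := mul_le_mul' le_rfl (hz _)
      _ = _ := mul_one _

/-- cutting a word at its last lowest point -/
theorem low_split (a : Fin r) (w : List (Ltr (Fin r))) :
    ∃ u v, w = u ++ v ∧ Hm a (w.length + 1) ((a, true) :: invW u) ∧ Hm a (w.length + 1) v := by
  obtain ⟨k1, hk1, hmin⟩ := Finset.exists_min_image (Finset.range (w.length + 1))
    (fun k => pos (w.take k) a) ⟨0, by simp⟩
  set P : ℕ → Prop := fun k => pos (w.take k) a = pos (w.take k1) a with hP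
  set k0 := Nat.findGreatest P w.length with hk0
  have hk1' : k1 ≤ w.length := by simpa [Nat.lt_succ_iff] using hk1
  have hPk0 : pos (w.take k0) a = pos (w.take k1) a :=
    Nat.findGreatest_spec (P := P) hk1' rfl
  have hk0le : k0 ≤ w.length := Nat.findGreatest_le _
  have hgr : ∀ j, k0 < j → j ≤ w.length → pos (w.take j) a ≠ pos (w.take k1) a :=
    fun j h1 h2 => Nat.findGreatest_is_greatest (P := P) h1 h2
  refine ⟨w.take k0, w.drop k0, (List.take_append_drop _ _).symm, ?_, ?_⟩
  · intro j h1 h2
    have hlen : (invW (w.take k0)).length = k0 := by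
      rw [invW_length, List.length_take, min_eq_left hk0le]
    rw [List.length_cons, hlen] at h2
    have hup : pos (((a, true) :: invW (w.take k0)).take j) a ≤ (w.length + 1 : ℕ) := by
      refine (le_abs_self _).trans ((abs_pos_le a _).trans ?_)
      rw [List.length_take, List.length_cons, hlen]
      push_cast
      have : min j (k0 + 1) ≤ w.length + 1 := by omega
      exact_mod_cast this
    refine ⟨?_, hup⟩
    obtain ⟨i, rfl⟩ : ∃ i, j = i + 1 := ⟨j - 1, by omega⟩
    rw [List.take_succ_cons, pos_cons, Pi.add_apply, stp_same a (a, true) rfl]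
    have hi : i ≤ k0 := by omega
    -- the first `i` letters of the inverse word
    have h3 : (invW (w.take k0)).take i = invW ((w.take k0).drop (k0 - i)) := by
      conv_lhs => rw [← List.take_append_drop (k0 - i) (w.take k0)]
      rw [invW_append, List.take_append_of_le_length, List.take_of_length_le]
      · rw [invW_length, List.length_drop, List.length_take, min_eq_left hk0le]; omega
      · rw [invW_length, List.length_drop, List.length_take, min_eq_left hk0le]; omega
    rw [h3, pos_invW, Pi.neg_apply]
    have h4 : pos (w.take k0) = pos (w.take (k0 - i)) + pos ((w.take k0).drop (k0 - i)) := by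
      conv_lhs => rw [← List.take_append_drop (k0 - i) (w.take k0)]
      rw [pos_append, List.take_take, min_eq_left (by omega)]
    have h5 := hmin (k0 - i) (by simp; omega)
    have h6 := congrFun h4 a
    rw [Pi.add_apply] at h6
    simp only [sgn, if_true]
    omega
  · intro j h1 h2
    rw [List.length_drop] at h2
    have h3 : w.take (k0 + j) = w.take k0 ++ (w.drop k0).take j := List.take_add
    refine ⟨?_, ?_⟩
    · have h5 := hmin (k0 + j) (by simp; omega)
      have h6 := hgr (k0 + j) (by omega) (by omega)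
      rw [h3, pos_append, Pi.add_apply] at h5 h6
      omega
    · refine (le_abs_self _).trans ((abs_pos_le a _).trans ?_)
      rw [List.length_take, List.length_drop]
      have : min j (w.length - k0) ≤ w.length + 1 := by omega
      exact_mod_cast this

theorem G_len_le (a : Fin r) (N : ℕ) (z : ℝ≥0∞) :
    z * G (fun w : List (Ltr (Fin r)) => w.length ≤ N) z ≤
      G (Hm a (N + 1)) z * G (Hm a (N + 1)) z := by
  have h := G_sub (P := fun w : List (Ltr (Fin r)) => w.length ≤ N)
    (Q := Hm a (N + 1)) (R := Hm a (N + 1)) (z := z)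
    (fun f g => - shift (- endOf f) (f - Finsupp.single (a, 0) 1) +
      shift (stp (a, true) - endOf f) g) 1 (by
      intro w hw
      obtain ⟨u, v, rfl, hu, hv⟩ := low_split a w
      refine ⟨(a, true) :: invW u, v, hu.mono (by omega), hv.mono (by omega), ?_, ?_⟩
      · rw [List.length_cons, invW_length, List.length_append]; omega
      · rw [endOf_flow, pos_cons, pos_invW, flow_append, flow_cons]
        have h0 : low 0 ((a, true) : Ltr (Fin r)) = 0 := rfl
        rw [h0]
        simp only [sgn, if_true]
        rw [add_sub_cancel_left]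
        congr 1
        · have h1 := flow_shift (stp (a, true)) (-(stp (a, true) + -pos u)) (invW u)
          have h2 : stp (a, true) + -(stp (a, true) + -pos u) = 0 + pos u := by abel
          rw [h2, flow_invW] at h1
          rw [zero_add, shift, ← h1, _root_.neg_neg]
        · have h1 := flow_shift 0 (pos u) v
          have h2 : stp (a, true) - (stp (a, true) + -pos u) = pos u := by abel
          rw [h2, shift, ← h1])
  rwa [pow_one] at h

/-- the spheres in terms of generating functions -/
theorem sph_le_G (n : ℕ) {z : ℝ≥0∞} :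
    (sph r n : ℝ≥0∞) * z ^ n ≤ G (fun w : List (Ltr (Fin r)) => w.length ≤ n) z := by
  set s : Finset (Ch r) := (sphF r n).image (fun g => (toLG' r g).f) with hs
  have hcard : s.card = (sphF r n).card := by
    rw [hs, Finset.card_image_iff]
    intro g hg g' hg' h
    obtain ⟨w, hw, rfl⟩ := wlen_spec r g
    obtain ⟨w', hw', rfl⟩ := wlen_spec r g'
    simp only [toLG'_ev] at h
    exact ev_of_flow h
  calc (sph r n : ℝ≥0∞) * z ^ n = ∑ f ∈ s, z ^ n := by
        rw [Finset.sum_const, hcard, ← sph_eq, nsmul_eq_mul]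
    _ ≤ ∑ f ∈ s, wt (fun w : List (Ltr (Fin r)) => w.length ≤ n) z f := by
        apply Finset.sum_le_sum
        intro f hf
        rw [hs, Finset.mem_image] at hf
        obtain ⟨g, hg, rfl⟩ := hf
        obtain ⟨w, hw, hwg⟩ := wlen_spec r g
        rw [mem_sphF] at hg
        have h1 : (toLG' r g).f = flow 0 w := by rw [← hwg, toLG'_ev]
        rw [h1]
        have h2 := le_wt (z := z) (P := fun w : List (Ltr (Fin r)) => w.length ≤ n) (w := w)
          (by rw [hw, hg])
        rwa [hw, hg] at h2
    _ ≤ _ := ENNReal.sum_le_tsum _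

theorem G_true_le {z : ℝ≥0∞} (hz : z ≤ 1) :
    G (fun _ : List (Ltr (Fin r)) => True) z ≤ ∑' n, (sph r n : ℝ≥0∞) * z ^ n := by
  set s : ℕ → Finset (Ch r) := fun n => (sphF r n).image (fun g => (toLG' r g).f) with hs
  have h1 : ∀ f, wt (fun _ : List (Ltr (Fin r)) => True) z f ≤
      ∑' n, if f ∈ s n then z ^ n else 0 := by
    intro f
    apply wt_le
    intro w _ hf
    refine le_trans ?_ (ENNReal.le_tsum (wlen r (ev r w)))
    rw [if_pos]
    · exact pow_le_pow_right_of_le_one' hz (wlen_le w)
    · simp only [hs, Finset.mem_image, mem_sphF]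
      exact ⟨ev r w, rfl, by rw [toLG'_ev, hf]⟩
  calc G (fun _ : List (Ltr (Fin r)) => True) z
      ≤ ∑' f, ∑' n, (if f ∈ s n then z ^ n else 0) := ENNReal.tsum_le_tsum h1
    _ = ∑' n, ∑' f, (if f ∈ s n then z ^ n else 0) := ENNReal.tsum_comm
    _ ≤ ∑' n, (sph r n : ℝ≥0∞) * z ^ n := by
        refine ENNReal.tsum_le_tsum fun n => ?_
        rw [tsum_eq_sum (s := s n)]
        · rw [Finset.sum_congr rfl (fun f hf => if_pos hf), Finset.sum_const, nsmul_eq_mul]
          apply mul_le_mul' _ le_rfl
          rw [sph_eq]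
          exact_mod_cast Finset.card_image_le
        · intro f hf
          rw [if_neg hf]

end Pool.Agent.Helper524_FM
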