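import Pool.Agent.Helper524_FM.HW3

/-!
# A bound of Hammersley-Welsh type for the sphere sizes
-/

set_option linter.unusedSectionVars false
set_option linter.unusedSimpArgs false

namespace Pool.Agent.Helper524_FM

open scoped Classical ENNReal

variable {r : ℕ}

theorem sph_le_C {r : ℕ} (hr : 0 < r) {μ : ℝ} (hμ : om r < μ) :
    ∃ C : ℝ, 0 < C ∧ ∀ n, (sph r n : ℝ) ≤ C * μ ^ n := by
  have hμ1 : 1 ≤ μ := (one_le_om hr).trans hμ.le
  have h1 := (om_tendsto hr).eventually (gt_mem_nhds hμ)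
  rw [Filter.eventually_atTop] at h1
  obtain ⟨n1, hn1⟩ := h1
  refine ⟨(2 * r : ℝ) ^ n1, by positivity, ?_⟩
  intro n
  rcases Nat.lt_or_ge n n1 with hlt | hge
  · have e1 : (sph r n : ℝ) ≤ (2 * r : ℝ) ^ n := by exact_mod_cast sph_le_words r n
    have e2 : (2 * r : ℝ) ^ n ≤ (2 * r : ℝ) ^ n1 := by
      apply pow_le_pow_right₀ _ hlt.le
      have : (1 : ℝ) ≤ r := by exact_mod_cast hr
      linarith
    have e3 : (1 : ℝ) ≤ μ ^ n := one_le_pow₀ hμ1
    calc (sph r n : ℝ) ≤ (2 * r : ℝ) ^ n1 * 1 := by rw [mul_one]; exact e1.trans e2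
      _ ≤ _ := by gcongr
  · rcases Nat.eq_zero_or_pos n with h0 | h0
    · subst h0
      have e1 : (sph r 0 : ℝ) ≤ (2 * r : ℝ) ^ 0 := by exact_mod_cast sph_le_words r 0
      have e2 : (1 : ℝ) ≤ (2 * r : ℝ) ^ n1 := by
        apply one_le_pow₀
        have : (1 : ℝ) ≤ r := by exact_mod_cast hr
        linarith
      simp only [pow_zero, mul_one] at e1 ⊢
      linarith
    · have e1 := (hn1 n hge).le
      have e2 : (sph r n : ℝ) ≤ μ ^ n := by
        have e3 : ((sph r n : ℝ) ^ (1 / (n : ℝ))) ^ n ≤ μ ^ n := by gcongr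
        rw [← Real.rpow_natCast, ← Real.rpow_mul (by positivity)] at e3
        have e4 : 1 / (n : ℝ) * n = 1 := by
          have : (n : ℝ) ≠ 0 := by exact_mod_cast h0.ne'
          field_simp
        rwa [e4, Real.rpow_one] at e3
      have e5 : (1 : ℝ) ≤ (2 * r : ℝ) ^ n1 := by
        apply one_le_pow₀
        have : (1 : ℝ) ≤ r := by exact_mod_cast hr
        linarith
      calc (sph r n : ℝ) ≤ 1 * μ ^ n := by rw [one_mul]; exact e2
        _ ≤ _ := by gcongr

/-- below the radius of convergence the generating function of all elements is finite -/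
theorem G_true_lt_top (hr : 0 < r) {μ : ℝ} (hμ : om r < μ) :
    G (fun _ : List (Ltr (Fin r)) => True) (ENNReal.ofReal (1 / μ)) < ∞ := by
  have hμ1 : 1 ≤ μ := (one_le_om hr).trans hμ.le
  have hμ0 : 0 < μ := by linarith
  obtain ⟨μ', h1, h2⟩ := exists_between hμ
  have hμ'0 : 0 < μ' := lt_of_lt_of_le one_pos ((one_le_om hr).trans h1.le)
  obtain ⟨C, hC, hb⟩ := sph_le_C hr h1
  have hz1 : ENNReal.ofReal (1 / μ) ≤ 1 := by
    rw [← ENNReal.ofReal_one]
    apply ENNReal.ofReal_le_ofReal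
    rw [div_le_one hμ0]; exact hμ1
  refine (G_true_le hz1).trans_lt ?_
  have h3 : ∀ n, (sph r n : ℝ≥0∞) * ENNReal.ofReal (1 / μ) ^ n ≤
      ENNReal.ofReal C * ENNReal.ofReal (μ' / μ) ^ n := by
    intro n
    rw [← ENNReal.ofReal_pow (by positivity), ← ENNReal.ofReal_pow (by positivity),
      ← ENNReal.ofReal_natCast, ← ENNReal.ofReal_mul (by positivity),
      ← ENNReal.ofReal_mul (by positivity)]
    apply ENNReal.ofReal_le_ofReal
    calc (sph r n : ℝ) * (1 / μ) ^ n ≤ C * μ' ^ n * (1 / μ) ^ n := by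
          gcongr; exact hb n
      _ = C * (μ' / μ) ^ n := by rw [mul_assoc, ← mul_pow, mul_one_div]
  refine (ENNReal.tsum_le_tsum h3).trans_lt ?_
  rw [ENNReal.tsum_mul_left, ENNReal.tsum_geometric]
  apply ENNReal.mul_lt_top ENNReal.ofReal_lt_top
  rw [ENNReal.inv_lt_top, tsub_pos_iff_lt, ← ENNReal.ofReal_one]
  apply (ENNReal.ofReal_lt_ofReal_iff one_pos).2
  rw [div_lt_one hμ0]; exact h2

/-- **Bridges of a given span.** -/
theorem G_Br_le_one (hr : 0 < r) (a : Fin r) {μ : ℝ} (hμ : om r < μ) (s : ℕ) :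
    G (Br a s) (ENNReal.ofReal (1 / μ)) ≤ 1 := by
  by_contra hlt
  rw [not_le] at hlt
  have h1 := ENNReal.tendsto_pow_atTop_nhds_top_iff.2 hlt
  have h2 : ∀ k, G (Br a s) (ENNReal.ofReal (1 / μ)) ^ k ≤
      G (fun _ : List (Ltr (Fin r)) => True) (ENNReal.ofReal (1 / μ)) := fun k =>
    (G_Br_pow a s k _).trans (G_mono fun _ _ => trivial)
  have h3 := le_of_tendsto' h1 h2
  exact absurd (G_true_lt_top hr hμ) (not_lt.2 h3)

theorem prod_le_exp {t : ℝ} (h0 : 0 ≤ t) (h1 : t < 1) (M : ℕ) :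
    ∏ s ∈ Finset.range M, (1 + t ^ (s + 1)) ≤ Real.exp (t / (1 - t)) := by
  calc ∏ s ∈ Finset.range M, (1 + t ^ (s + 1)) ≤ ∏ s ∈ Finset.range M, Real.exp (t ^ (s + 1)) := by
        apply Finset.prod_le_prod
        · intro i _; positivity
        · intro i _
          rw [add_comm]
          exact Real.add_one_le_exp _
    _ = Real.exp (∑ s ∈ Finset.range M, t ^ (s + 1)) := (Real.exp_sum _ _).symm
    _ ≤ _ := by
        apply Real.exp_le_exp.2
        have h2 : ∑ s ∈ Finset.range M, t ^ (s + 1) = t * ∑ s ∈ Finset.range M, t ^ s := by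
          rw [Finset.mul_sum]; apply Finset.sum_congr rfl; intro i _; ring
        rw [h2, div_eq_mul_inv]
        apply mul_le_mul_of_nonneg_left _ h0
        rw [← tsum_geometric_of_lt_one h0 h1]
        exact (summable_geometric_of_lt_one h0 h1).sum_le_tsum _ (fun i _ => by positivity)

/-- the basic inequality -/
theorem sph_basic (hr : 0 < r) {μ t : ℝ} (hμ : om r < μ) (h0 : 0 < t) (h1 : t < 1) (n : ℕ) :
    (sph r n : ℝ) * (t / μ) ^ (n + 1) ≤ Real.exp (2 * (t / (1 - t))) := by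
  have hμ1 : 1 ≤ μ := (one_le_om hr).trans hμ.le
  have hμ0 : 0 < μ := by linarith
  set a : Fin r := ⟨0, hr⟩
  have ht : ENNReal.ofReal t ≤ 1 := by
    rw [← ENNReal.ofReal_one]; exact ENNReal.ofReal_le_ofReal h1.le
  have h2 := G_Hm_le a ht (G_Br_le_one hr a hμ) (n + 1)
  have h3 := G_len_le a n (ENNReal.ofReal (1 / μ) * ENNReal.ofReal t)
  have h4 := sph_le_G (r := r) n (z := ENNReal.ofReal (1 / μ) * ENNReal.ofReal t)
  have e1 : ENNReal.ofReal (1 / μ) * ENNReal.ofReal t = ENNReal.ofReal (t / μ) := by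
    rw [← ENNReal.ofReal_mul (by positivity)]; congr 1; ring
  have e2 : ∏ s ∈ Finset.range (n + 1), (1 + ENNReal.ofReal t ^ (s + 1)) =
      ENNReal.ofReal (∏ s ∈ Finset.range (n + 1), (1 + t ^ (s + 1))) := by
    rw [ENNReal.ofReal_prod_of_nonneg (fun i _ => by positivity)]
    apply Finset.prod_congr rfl
    intro i _
    rw [ENNReal.ofReal_add zero_le_one (by positivity), ENNReal.ofReal_one,
      ENNReal.ofReal_pow h0.le]
  rw [e2] at h2
  have h5 : G (Hm a (n + 1)) (ENNReal.ofReal (1 / μ) * ENNReal.ofReal t) ≤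
      ENNReal.ofReal (Real.exp (t / (1 - t))) :=
    h2.trans (ENNReal.ofReal_le_ofReal (prod_le_exp h0.le h1 _))
  have h6 : ENNReal.ofReal ((sph r n : ℝ) * (t / μ) ^ (n + 1)) ≤
      ENNReal.ofReal (Real.exp (2 * (t / (1 - t)))) := by
    calc ENNReal.ofReal ((sph r n : ℝ) * (t / μ) ^ (n + 1))
        = ENNReal.ofReal (t / μ) * ((sph r n : ℝ≥0∞) * ENNReal.ofReal (t / μ) ^ n) := by
          rw [ENNReal.ofReal_mul (by positivity), ENNReal.ofReal_natCast,
            ENNReal.ofReal_pow (by positivity), pow_succ]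
          ring
      _ ≤ ENNReal.ofReal (t / μ) *
          G (fun w : List (Ltr (Fin r)) => w.length ≤ n) (ENNReal.ofReal (t / μ)) := by
          rw [e1] at h4
          exact mul_le_mul' le_rfl h4
      _ ≤ G (Hm a (n + 1)) (ENNReal.ofReal (t / μ)) * G (Hm a (n + 1)) (ENNReal.ofReal (t / μ)) := by
          rw [e1] at h3
          exact h3
      _ ≤ ENNReal.ofReal (Real.exp (t / (1 - t))) * ENNReal.ofReal (Real.exp (t / (1 - t))) := by
          rw [e1] at h5
          exact mul_le_mul' h5 h5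
      _ = _ := by
          rw [← ENNReal.ofReal_mul (by positivity), ← Real.exp_add]
          congr 2; ring
  exact (ENNReal.ofReal_le_ofReal_iff (by positivity)).1 h6

/-- **The Hammersley-Welsh type bound.** -/
theorem sph_le_om (hr : 0 < r) (n : ℕ) :
    (sph r n : ℝ) ≤ om r ^ (n + 1) * Real.exp (2 * Real.sqrt (2 * (n + 1))) := by
  have key : ∀ μ, om r < μ → (sph r n : ℝ) ≤ μ ^ (n + 1) * Real.exp (2 * Real.sqrt (2 * (n + 1))) := by
    intro μ hμ
    have hμ1 : 1 ≤ μ := (one_le_om hr).trans hμ.le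
    have hμ0 : 0 < μ := by linarith
    have hn : (0 : ℝ) < n + 1 := by positivity
    set δ : ℝ := Real.sqrt (2 / (n + 1)) with hδ
    have hδ0 : 0 < δ := Real.sqrt_pos.2 (by positivity)
    have hδ2 : δ * δ = 2 / (n + 1) := Real.mul_self_sqrt (by positivity)
    have h1 := sph_basic hr hμ (t := 1 / (1 + δ)) (by positivity)
      (by rw [div_lt_one (by positivity)]; linarith) n
    have e1 : 1 / (1 + δ) / (1 - 1 / (1 + δ)) = 1 / δ := by
      have h2 : 1 - 1 / (1 + δ) = δ / (1 + δ) := by field_simp; ring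
      rw [h2, div_div_div_cancel_right₀ (by positivity)]
    rw [e1] at h1
    have e2 : δ * (n + 1) = Real.sqrt (2 * (n + 1)) := by
      rw [eq_comm, Real.sqrt_eq_iff_mul_self_eq (by positivity) (by positivity)]
      calc (2 : ℝ) * (n + 1) = (δ * δ) * ((n + 1) * (n + 1)) := by rw [hδ2]; field_simp
        _ = δ * (n + 1) * (δ * (n + 1)) := by ring
    have e3 : 2 * (1 / δ) = Real.sqrt (2 * (n + 1)) := by
      rw [← e2]
      have : 2 = δ * δ * (n + 1) := by rw [hδ2]; field_simp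
      field_simp
      linarith
    have e4 : (1 + δ) ^ (n + 1) ≤ Real.exp (Real.sqrt (2 * (n + 1))) := by
      rw [← e2]
      calc (1 + δ) ^ (n + 1) ≤ (Real.exp δ) ^ (n + 1) := by
            gcongr
            rw [add_comm]; exact Real.add_one_le_exp δ
        _ = Real.exp (δ * (n + 1)) := by
            rw [← Real.exp_nat_mul]; congr 1; push_cast; ring
    rw [e3] at h1
    have e5 : (1 / (1 + δ) / μ) ^ (n + 1) = 1 / ((1 + δ) ^ (n + 1) * μ ^ (n + 1)) := by
      rw [div_div, div_pow, one_pow, mul_pow]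
    rw [e5, mul_one_div, div_le_iff₀ (by positivity)] at h1
    calc (sph r n : ℝ) ≤ Real.exp (Real.sqrt (2 * (n + 1))) * ((1 + δ) ^ (n + 1) * μ ^ (n + 1)) := h1
      _ ≤ Real.exp (Real.sqrt (2 * (n + 1))) *
          (Real.exp (Real.sqrt (2 * (n + 1))) * μ ^ (n + 1)) := by gcongr
      _ = μ ^ (n + 1) * Real.exp (2 * Real.sqrt (2 * (n + 1))) := by
          rw [two_mul (Real.sqrt (2 * (n + 1))), Real.exp_add]; ring
  have hc : ContinuousWithinAt
      (fun μ : ℝ => μ ^ (n + 1) * Real.exp (2 * Real.sqrt (2 * (n + 1)))) (Set.Ioi (om r)) (om r) := by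
    apply Continuous.continuousWithinAt
    fun_prop
  exact ge_of_tendsto hc (eventually_nhdsWithin_of_forall fun μ hμ => key μ hμ)

/-- the lower bound by submultiplicativity -/
theorem om_pow_le_sph (hr : 0 < r) (n : ℕ) : om r ^ n ≤ (sph r n : ℝ) := by
  rcases Nat.eq_zero_or_pos n with h0 | h0
  · subst h0
    rw [pow_zero]
    exact_mod_cast sph_pos hr 0
  · have h1 := (lsph_subadd hr).lim_le_div (lsph_bdd hr) h0.ne'
    rw [om, dif_pos hr, ← Real.exp_nat_mul]
    have h2 : (n : ℝ) * (lsph_subadd hr).lim ≤ lsph r n := by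
      rw [le_div_iff₀ (by positivity)] at h1
      linarith
    calc Real.exp (n * (lsph_subadd hr).lim) ≤ Real.exp (lsph r n) := Real.exp_le_exp.2 h2
      _ = sph r n := Real.exp_log (by exact_mod_cast sph_pos hr n)

end Pool.Agent.Helper524_FM
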