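import Pool.Agent.Helper524_FM.Mf

/-!
# Counting the minimal forbidden words of length seven and eight
-/

set_option linter.unusedSectionVars false
set_option linter.unusedSimpArgs false

namespace Pool.Agent.Helper524_FM

variable {r : ℕ}

/-- indices for the relator of length 14 -/
abbrev X7 (r : ℕ) := Fin 7 × Ltr (Fin r) × Ltr (Fin r) × Ltr (Fin r)

/-- indices for the relator of length 16 -/
abbrev X8 (r : ℕ) := Fin 4 × Ltr (Fin r) × Ltr (Fin r) × Ltr (Fin r) × Ltr (Fin r)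

def ph7 (x : X7 r) : List (Ltr (Fin r)) :=
  ((R0 x.2.1 x.2.2.1 x.2.2.2).rotate x.1.val).take 7
def pv7 (x : X7 r) : List (Ltr (Fin r)) :=
  invW (((R0 x.2.1 x.2.2.1 x.2.2.2).rotate x.1.val).drop 7)
def sw7 (x : X7 r) : X7 r :=
  (![0, 6, 5, 4, 3, 2, 1] x.1, x.2.2.2, if x.1 = 0 then x.2.2.1 else inv x.2.2.1, x.2.1)

def ph8 (x : X8 r) : List (Ltr (Fin r)) :=
  ((W0 x.2.1 x.2.2.1 x.2.2.2.1 x.2.2.2.2).rotate x.1.val).take 8
def pv8 (x : X8 r) : List (Ltr (Fin r)) :=
  invW (((W0 x.2.1 x.2.2.1 x.2.2.2.1 x.2.2.2.2).rotate x.1.val).drop 8)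
def sw8 (x : X8 r) : X8 r :=
  if x.1 = 0 then (0, x.2.2.2.1, x.2.2.2.2, x.2.1, x.2.2.1)
  else (![0, 3, 2, 1] x.1, x.2.2.1, x.2.1, x.2.2.2.1, x.2.2.2.2)

theorem ph7_sw7 (x : X7 r) : ph7 (sw7 x) = pv7 x := by
  obtain ⟨k, a, b, c⟩ := x
  fin_cases k <;> simp [ph7, sw7, pv7, R0]

theorem sw7_sw7 (x : X7 r) : sw7 (sw7 x) = x := by
  obtain ⟨k, a, b, c⟩ := x
  fin_cases k <;> simp [sw7]

theorem pv7_sw7 (x : X7 r) : pv7 (sw7 x) = ph7 x := by
  rw [← ph7_sw7, sw7_sw7]

theorem ph8_sw8 (x : X8 r) : ph8 (sw8 x) = pv8 x := by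
  obtain ⟨k, a, b, c, d⟩ := x
  fin_cases k <;> simp [ph8, sw8, pv8, W0]

theorem sw8_sw8 (x : X8 r) : sw8 (sw8 x) = x := by
  obtain ⟨k, a, b, c, d⟩ := x
  fin_cases k <;> simp [sw8]

theorem pv8_sw8 (x : X8 r) : pv8 (sw8 x) = ph8 x := by
  rw [← ph8_sw8, sw8_sw8]

theorem R0_shift (a b c : Ltr (Fin r)) : (R0 a b c).rotate 7 = R0 a (inv b) c := by
  simp [R0]

theorem W0_shift (a b c d : Ltr (Fin r)) : (W0 a b c d).rotate 4 = W0 c d b a := by
  simp [W0]

/-- every rotation of the relator of length 14 is one of the first seven -/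
theorem rot14 {a b c : Ltr (Fin r)} {w : List (Ltr (Fin r))} (h : w ~r R0 a b c) :
    ∃ x : X7 r, w = (R0 x.2.1 x.2.2.1 x.2.2.2).rotate x.1.val := by
  obtain ⟨n, hn, rfl⟩ := List.isRotated_iff_mod.1 h.symm
  simp only [R0, List.length_cons, List.length_nil] at hn
  by_cases h7 : n < 7
  · exact ⟨(⟨n, h7⟩, a, b, c), rfl⟩
  · by_cases h14 : n < 14
    · refine ⟨(⟨n - 7, by omega⟩, a, inv b, c), ?_⟩
      change _ = (R0 a (inv b) c).rotate (n - 7)
      rw [← R0_shift, List.rotate_rotate]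
      congr 1; omega
    · have : n = 14 := by omega
      subst this
      exact ⟨(0, a, b, c), by simp [R0]⟩

/-- every rotation of the relator of length 16 is one of the first four -/
theorem rot16 {a b c d : Ltr (Fin r)} {w : List (Ltr (Fin r))} (h : w ~r W0 a b c d) :
    ∃ x : X8 r, w = (W0 x.2.1 x.2.2.1 x.2.2.2.1 x.2.2.2.2).rotate x.1.val := by
  obtain ⟨n, hn, rfl⟩ := List.isRotated_iff_mod.1 h.symm
  clear hn h
  obtain ⟨q, k, hk, rfl⟩ : ∃ q k, k < 4 ∧ n = 4 * q + k :=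
    ⟨n / 4, n % 4, Nat.mod_lt _ (by norm_num), by omega⟩
  induction q generalizing a b c d with
  | zero => exact ⟨(⟨k, hk⟩, a, b, c, d), by simp⟩
  | succ q ih =>
    rw [show 4 * (q + 1) + k = 4 + (4 * q + k) by ring, ← List.rotate_rotate, W0_shift]
    exact ih

theorem half_count {X : Type} [Fintype X] [DecidableEq X] (s : X → X) (hs : ∀ x, s (s x) = x)
    (p : X → Prop) [DecidablePred p] (hp : ∀ x, p x → ¬ p (s x)) :
    2 * (Finset.univ.filter p).card ≤ Fintype.card X := by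
  have h1 : ((Finset.univ.filter p).image s) ⊆ Finset.univ.filter (fun x => ¬ p x) := by
    intro y hy
    simp only [Finset.mem_image, Finset.mem_filter, Finset.mem_univ, true_and] at hy ⊢
    obtain ⟨x, hx, rfl⟩ := hy
    exact hp x hx
  have h2 : ((Finset.univ.filter p).image s).card = (Finset.univ.filter p).card :=
    Finset.card_image_of_injective _ (fun x y h => by rw [← hs x, h, hs])
  have h3 := Finset.card_le_card h1
  have h4 := Finset.card_filter_add_card_filter_not (s := (Finset.univ : Finset X)) p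
  rw [Finset.card_univ] at h4
  omega

open scoped Classical in
/-- reduced minimal forbidden words of length 7 on three axes -/
theorem card7 : (((MFR r 7).filter (fun φ => nax φ = 3)).card) ≤ 28 * r ^ 3 := by
  have h1 : (MFR r 7).filter (fun φ => nax φ = 3) ⊆
      (Finset.univ.filter (fun x : X7 r => ¬ IsMin (ph7 x) ∧ IsMin (pv7 x))).image ph7 := by
    intro φ hφ
    simp only [MFR, Finset.mem_filter, mem_words] at hφ
    obtain ⟨⟨hl, hm, hr⟩, hx⟩ := hφ
    obtain ⟨v, hv, hvm⟩ := exists_isMin φ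
    obtain ⟨hlv, a, b, c, hrot⟩ := mf7 hm hr hvm hv hl hx
    obtain ⟨x, hx⟩ := rot14 hrot
    have e1 : ph7 x = φ := by
      unfold ph7
      rw [← hx, List.take_append_of_le_length (by omega), List.take_of_length_le (by omega)]
    have e2 : pv7 x = v := by
      unfold pv7
      rw [← hx, ← hl, List.drop_left, invW_invW]
    simp only [Finset.mem_image, Finset.mem_filter, Finset.mem_univ, true_and]
    exact ⟨x, ⟨by rw [e1]; exact hm.not_min, by rw [e2]; exact hvm⟩, e1⟩
  have h2 := half_count (X := X7 r) sw7 sw7_sw7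
    (fun x : X7 r => ¬ IsMin (ph7 x) ∧ IsMin (pv7 x)) (by
      rintro x ⟨h, h'⟩ ⟨h'', -⟩
      rw [ph7_sw7] at h''
      exact h'' h')
  have h3 := (Finset.card_le_card h1).trans Finset.card_image_le
  have h4 : Fintype.card (X7 r) = 56 * r ^ 3 := by
    simp [X7, Fintype.card_prod]; ring
  omega

open scoped Classical in
/-- reduced minimal forbidden words of length 8 on four axes -/
theorem card8 : (((MFR r 8).filter (fun φ => nax φ = 4)).card) ≤ 32 * r ^ 4 := by
  have h1 : (MFR r 8).filter (fun φ => nax φ = 4) ⊆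
      (Finset.univ.filter (fun x : X8 r => ¬ IsMin (ph8 x) ∧ IsMin (pv8 x))).image ph8 := by
    intro φ hφ
    simp only [MFR, Finset.mem_filter, mem_words] at hφ
    obtain ⟨⟨hl, hm, hr⟩, hx⟩ := hφ
    obtain ⟨v, hv, hvm⟩ := exists_isMin φ
    obtain ⟨hlv, a, b, c, d, hrot⟩ := mf8 hm hr hvm hv hl hx
    obtain ⟨x, hx⟩ := rot16 hrot
    have e1 : ph8 x = φ := by
      unfold ph8
      rw [← hx, List.take_append_of_le_length (by omega), List.take_of_length_le (by omega)]
    have e2 : pv8 x = v := by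
      unfold pv8
      rw [← hx, ← hl, List.drop_left, invW_invW]
    simp only [Finset.mem_image, Finset.mem_filter, Finset.mem_univ, true_and]
    exact ⟨x, ⟨by rw [e1]; exact hm.not_min, by rw [e2]; exact hvm⟩, e1⟩
  have h2 := half_count (X := X8 r) sw8 sw8_sw8
    (fun x : X8 r => ¬ IsMin (ph8 x) ∧ IsMin (pv8 x)) (by
      rintro x ⟨h, h'⟩ ⟨h'', -⟩
      rw [ph8_sw8] at h''
      exact h'' h')
  have h3 := (Finset.card_le_card h1).trans Finset.card_image_le
  have h4 : Fintype.card (X8 r) = 64 * r ^ 4 := by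
    simp [X8, Fintype.card_prod]; ring
  omega

end Pool.Agent.Helper524_FM
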