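import Pool.Agent.Helper524_FM.Path5

/-!
# From certificates to lower bounds for the growth rate in rank two
-/

set_option linter.unusedSectionVars false
set_option linter.unusedSimpArgs false

namespace Pool.Agent.Helper524_FM

open scoped Classical ENNReal
open DP

theorem okV_spec {S : ℕ} {L : List (List ℕ)} (h : okV S L = true) :
    ∀ ws ∈ L, ws.length = S ∧ (∀ x ∈ ws, x < 10) ∧ ∃ x ∈ ws, x ≠ off := by
  induction L with
  | nil => intro ws hws; simp at hws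
  | cons a L ih =>
    simp only [okV, Bool.and_eq_true, Nat.beq_eq, List.all_eq_true, List.any_eq_true] at h
    obtain ⟨⟨⟨h1, h2⟩, h3⟩, h4⟩ := h
    intro ws hws
    rw [List.mem_cons] at hws
    rcases hws with rfl | hws
    · refine ⟨h1, ?_, ?_⟩
      · intro x hx
        have := h2 x hx
        simpa [Nat.blt_eq] using this
      · obtain ⟨x, hx, hx2⟩ := h3
        refine ⟨x, hx, ?_⟩
        intro h0
        rw [h0] at hx2
        simp at hx2
    · exact ih h4 ws hws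

theorem incV_spec {n : ℕ} {L : List (List ℕ)} (h : incV n L = true) :
    L.Nodup ∧ ∀ ws ∈ L, n < encl 1 ws := by
  induction L generalizing n with
  | nil => simp
  | cons a L ih =>
    simp only [incV, Bool.and_eq_true] at h
    have h1 : n < encl 1 a := by simpa [Nat.blt_eq] using h.1
    obtain ⟨h2, h3⟩ := ih h.2
    refine ⟨?_, ?_⟩
    · rw [List.nodup_cons]
      refine ⟨?_, h2⟩
      intro hmem
      exact absurd (h3 a hmem) (lt_irrefl _)
    · intro ws hws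
      rw [List.mem_cons] at hws
      rcases hws with rfl | hws
      · exact h1
      · exact h1.trans (h3 ws hws)

theorem parOk_of {P : SPar} (h : okP P = true) :
    ParOk P ∧ (∀ i j, (P.vs i j).Nodup) ∧ 0 < P.den ∧ P.num ≤ P.den ∧ 0 < P.sc := by
  unfold okP at h
  simp only [Bool.and_eq_true, Nat.ble_eq] at h
  obtain ⟨⟨⟨⟨⟨⟨⟨⟨⟨⟨h1, h2⟩, h3⟩, h4⟩, h5⟩, h6⟩, h7⟩, h8⟩, h9⟩, h10⟩, h11⟩ := h
  have hcase : ∀ i j, okV P.S (P.vs i j) = true ∧ ∃ n, incV n (P.vs i j) = true := by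
    intro i j
    unfold SPar.vs
    split_ifs
    · exact ⟨h4, 0, h7⟩
    · exact ⟨h5, 0, h8⟩
    · exact ⟨h3, 0, h6⟩
    · exact ⟨rfl, 0, rfl⟩
  refine ⟨⟨h1, ?_, ?_, ?_, by simpa [Nat.blt_eq] using h2⟩, ?_, by simpa [Nat.blt_eq] using h9,
    h10, by simpa [Nat.blt_eq] using h11⟩
  · intro i j ws hws
    exact (okV_spec (hcase i j).1 ws hws).1
  · intro i j ws hws
    exact (okV_spec (hcase i j).1 ws hws).2.1
  · intro i j ws hws
    obtain ⟨hl, _, x, hx, hne⟩ := okV_spec (hcase i j).1 ws hws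
    obtain ⟨n, hn, rfl⟩ := mem_gt hx
    exact ⟨n, by rw [← hl]; exact hn, hne⟩
  · intro i j
    obtain ⟨n, hn⟩ := (hcase i j).2
    exact (incV_spec hn).1

/-- the certified lower bound for a span -/
theorem cert_bound {P : SPar} {T : Tr} (hok : okP P = true) (hc : chk P T T = true) {x : ℕ}
    (hx : Nat.ble x (xh T (σ0 P)) = true) :
    (x : ℝ≥0∞) ≤ P.sc * G (IrrS (0 : Fin 2) P.S) ((P.num : ℝ≥0∞) / P.den) := by
  obtain ⟨h1, h2, h3, h4, h5⟩ := parOk_of hok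
  refine le_trans ?_ (cert' h1 h2 h3 h4 h5 hc)
  rw [Nat.ble_eq] at hx
  exact_mod_cast hx

/-- spans are disjoint -/
theorem sum_IrrS_le {r : ℕ} (a : Fin r) (z : ℝ≥0∞) (n : ℕ) :
    ∑ s ∈ Finset.range n, G (IrrS a (s + 1)) z ≤
      G (fun w => ∃ s : ℕ, 1 ≤ s ∧ s ≤ n ∧ IrrS a s w) z := by
  induction n with
  | zero => simp
  | succ n ih =>
    rw [Finset.sum_range_succ]
    refine (add_le_add ih le_rfl).trans (G_add ?_ ?_ ?_)
    · rintro w ⟨s, h1, h2, h3⟩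
      exact ⟨s, h1, by omega, h3⟩
    · intro w hw
      exact ⟨n + 1, by omega, le_rfl, hw⟩
    · rintro w v ⟨s, h1, h2, h3⟩ hv h
      have := congrFun (pos_eq_of_flow h) a
      rw [h3.1.1, hv.1.1] at this
      push_cast at this
      omega

/-- **Numerical lower bound** for `ω_2` from four certified spans. -/
theorem om_two_ge {num den x1 x2 x3 x4 sc : ℕ} (hsc : 0 < sc) (hden : 0 < den)
    (h1 : (x1 : ℝ≥0∞) ≤ sc * G (IrrS (0 : Fin 2) 1) ((num : ℝ≥0∞) / den))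
    (h2 : (x2 : ℝ≥0∞) ≤ sc * G (IrrS (0 : Fin 2) 2) ((num : ℝ≥0∞) / den))
    (h3 : (x3 : ℝ≥0∞) ≤ sc * G (IrrS (0 : Fin 2) 3) ((num : ℝ≥0∞) / den))
    (h4 : (x4 : ℝ≥0∞) ≤ sc * G (IrrS (0 : Fin 2) 4) ((num : ℝ≥0∞) / den))
    (hsum : sc ≤ x1 + x2 + x3 + x4) : (den : ℝ) / num ≤ om 2 := by
  apply om_ge_of_irr (by norm_num) (0 : Fin 2)
  have hz : ENNReal.ofReal (1 / ((den : ℝ) / num)) = (num : ℝ≥0∞) / den := by
    rw [one_div_div, ENNReal.ofReal_div_of_pos (by exact_mod_cast hden), ENNReal.ofReal_natCast,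
      ENNReal.ofReal_natCast]
  rw [hz]
  have h5 := sum_IrrS_le (0 : Fin 2) ((num : ℝ≥0∞) / den) 4
  simp only [Finset.sum_range_succ, Finset.sum_range_zero, zero_add] at h5
  have h6 : G (fun w => ∃ s : ℕ, 1 ≤ s ∧ s ≤ 4 ∧ IrrS (0 : Fin 2) s w) ((num : ℝ≥0∞) / den) ≤
      G (Irr (0 : Fin 2)) ((num : ℝ≥0∞) / den) := by
    apply G_mono
    rintro w ⟨s, h1, _, h3⟩
    exact ⟨s, h1, h3⟩
  refine le_trans ?_ (h5.trans h6)
  have h7 : (sc : ℝ≥0∞) * 1 ≤ sc * (G (IrrS (0 : Fin 2) 1) ((num : ℝ≥0∞) / den) +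
      G (IrrS (0 : Fin 2) (1 + 1)) ((num : ℝ≥0∞) / den) +
      G (IrrS (0 : Fin 2) (2 + 1)) ((num : ℝ≥0∞) / den) +
      G (IrrS (0 : Fin 2) (3 + 1)) ((num : ℝ≥0∞) / den)) := by
    rw [mul_one]
    calc (sc : ℝ≥0∞) ≤ (x1 : ℝ≥0∞) + x2 + x3 + x4 := by exact_mod_cast hsum
      _ ≤ _ := add_le_add (add_le_add (add_le_add h1 h2) h3) h4
      _ = _ := by ring
  have h8 : (sc : ℝ≥0∞) ≠ 0 := by exact_mod_cast hsc.ne'
  exact (ENNReal.mul_le_mul_iff_right h8 (ENNReal.natCast_ne_top _)).1 h7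

end Pool.Agent.Helper524_FM
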