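import Pool.Agent.Helper524_FM.Lb
import Pool.Agent.Helper524_FM.ChkS1
import Pool.Agent.Helper524_FM.ChkS2
import Pool.Agent.Helper524_FM.ChkS3
import Pool.Agent.Helper524_FM.ChkS4

/-!
# The lower bound `2.72 ≤ ω_2`
-/

set_option linter.unusedSectionVars false
set_option linter.unusedSimpArgs false

namespace Pool.Agent.Helper524_FM

open scoped ENNReal
open DP

theorem b1 : ((79512773 : ℕ) : ℝ≥0∞) ≤
    (100000000 : ℕ) * G (IrrS (0 : Fin 2) 1) (((100 : ℕ) : ℝ≥0∞) / (272 : ℕ)) :=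
  cert_bound (P := PS1) (T := TS1) (by decide +kernel) cTS1 (by decide +kernel)

theorem b2 : ((10826117 : ℕ) : ℝ≥0∞) ≤
    (100000000 : ℕ) * G (IrrS (0 : Fin 2) 2) (((100 : ℕ) : ℝ≥0∞) / (272 : ℕ)) :=
  cert_bound (P := PS2) (T := TS2) (by decide +kernel) cTS2 (by decide +kernel)

theorem b3 : ((6153376 : ℕ) : ℝ≥0∞) ≤
    (100000000 : ℕ) * G (IrrS (0 : Fin 2) 3) (((100 : ℕ) : ℝ≥0∞) / (272 : ℕ)) :=
  cert_bound (P := PS3) (T := TS3) (by decide +kernel) cTS3 (by decide +kernel)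

theorem b4 : ((3645418 : ℕ) : ℝ≥0∞) ≤
    (100000000 : ℕ) * G (IrrS (0 : Fin 2) 4) (((100 : ℕ) : ℝ≥0∞) / (272 : ℕ)) :=
  cert_bound (P := PS4) (T := TS4) (by decide +kernel) cTS4 (by decide +kernel)

theorem om_two_lower : (2.72 : ℝ) ≤ om 2 := by
  have h := om_two_ge (sc := 100000000) (by norm_num) (by norm_num) b1 b2 b3 b4 (by norm_num)
  refine le_trans ?_ h
  norm_num

end Pool.Agent.Helper524_FM
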