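import Pool.Agent.Helper524_FM.Ratio

/-!
# The rate at which ratios of good word counts converge
-/

set_option linter.unusedSectionVars false
set_option linter.unusedSimpArgs false

namespace Pool.Agent.Helper524_FM

open scoped Classical

variable {r : ℕ}

/-- delete the letters of a set of axes -/
def delS (B : Finset (Fin r)) (w : List (Ltr (Fin r))) : List (Ltr (Fin r)) :=
  w.filter (fun l => decide (l.1 ∉ B))

theorem delS_insert (i : Fin r) (B : Finset (Fin r)) (w : List (Ltr (Fin r))) :
    delS (insert i B) w = del i (delS B w) := by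
  unfold delS del
  rw [List.filter_filter]
  apply List.filter_congr
  intro l _
  simp only [Finset.mem_insert, not_or, Bool.decide_and, ne_eq]

theorem delS_flow (B : Finset (Fin r)) {w v : List (Ltr (Fin r))} (h : flow 0 w = flow 0 v) :
    flow 0 (delS B w) = flow 0 (delS B v) := by
  induction B using Finset.induction_on with
  | empty => simpa [delS] using h
  | insert i B _ ih => rw [delS_insert, delS_insert]; exact del_flow i ih

theorem delS_append (B : Finset (Fin r)) (u v : List (Ltr (Fin r))) :
    delS B (u ++ v) = delS B u ++ delS B v := by simp [delS]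

theorem delS_eq_self {B : Finset (Fin r)} {w : List (Ltr (Fin r))} (h : ∀ i ∈ axs w, i ∉ B) :
    delS B w = w := by
  unfold delS
  rw [List.filter_eq_self]
  intro l hl
  have := h l.1 (List.mem_map.2 ⟨l, hl, rfl⟩)
  simpa using this

theorem delS_length (B : Finset (Fin r)) (w : List (Ltr (Fin r))) :
    (delS B w).length + ∑ i ∈ B, (axs w).count i = w.length := by
  induction w with
  | nil => simp [delS]
  | cons l w ih =>
    simp only [axs_cons, List.count_cons, Finset.sum_add_distrib, List.length_cons]
    have h1 : ∑ i ∈ B, (if (l.1 == i) = true then 1 else 0) = if l.1 ∈ B then 1 else 0 := by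
      simp only [beq_iff_eq]
      rw [Finset.sum_ite_eq]
    rw [h1]
    by_cases h : l.1 ∈ B
    · have h2 : delS B (l :: w) = delS B w := by simp [delS, h]
      rw [h2, if_pos h]; omega
    · have h2 : delS B (l :: w) = l :: delS B w := by simp [delS, h]
      rw [h2, if_neg h, List.length_cons]; omega

theorem flow_cancel (x : Fin r → ℤ) (z : List (Ltr (Fin r))) : flow x (z ++ invW z) = 0 := by
  rw [flow_append, flow_invW, add_neg_cancel]

/-- **New axes.** The axes of a final segment of a minimal forbidden word which do not occur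
before are at most half as many as its letters. -/
theorem MinForb.new_axes {x y : List (Ltr (Fin r))} (h : MinForb (x ++ y)) (hx : x ≠ [])
    (hy : y ≠ []) : 2 * ((axs y).toFinset \ (axs x).toFinset).card ≤ y.length := by
  rcases h.red_or with hr | ⟨m, hm⟩
  · obtain ⟨B, hB⟩ : ∃ B, B = (axs y).toFinset \ (axs x).toFinset := ⟨_, rfl⟩
    obtain ⟨v, hv, hvm⟩ := exists_isMin (x ++ y)
    rw [← hB]
    have hmem : ∀ i ∈ B, i ∈ axs y ∧ i ∉ axs x := by
      intro i hi
      rw [hB, Finset.mem_sdiff, List.mem_toFinset, List.mem_toFinset] at hi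
      exact hi
    have h4 : ∀ i ∈ B, 4 ≤ (axs y).count i + (axs v).count i := by
      intro i hi
      have h1 := four_le_count h hr hvm hv (i := i) (by
        rw [axs_append, List.mem_append]; exact Or.inr (hmem i hi).1)
      rw [axs_append, List.count_append, List.count_eq_zero.2 (hmem i hi).2] at h1
      omega
    have hsum := Finset.sum_le_sum h4
    rw [Finset.sum_const, smul_eq_mul, Finset.sum_add_distrib] at hsum
    have hd := delS_flow B hv
    rw [delS_append, delS_eq_self (fun i hi hiB => (hmem i hiB).2 hi)] at hd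
    -- `x` again
    have hfl : flow 0 (delS B v ++ invW (delS B y)) = flow 0 x := by
      rw [flow_append, hd, pos_eq_of_flow hd]
      have h1 := flow_append 0 (x ++ delS B y) (invW (delS B y))
      rw [List.append_assoc, flow_append, flow_cancel, add_zero] at h1
      exact h1.symm
    have hxm : IsMin x := h.proper x ⟨[], y, by simp⟩ (by
      have := List.length_pos_iff.2 hy
      simp; omega)
    have hl := isMin_length hxm hfl
    have hl1 := delS_length B v
    have hl2 := delS_length B y
    have hl3 := isMin_length hvm hv.symm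
    simp only [List.length_append, invW_length] at hl hl3
    omega
  · -- a cancelling pair
    cases x with
    | nil => exact absurd rfl hx
    | cons a x' =>
      rw [List.cons_append] at hm
      injection hm with h1 h2
      subst h1
      cases x' with
      | nil =>
        rw [List.nil_append] at h2
        subst h2
        simp
      | cons b x'' =>
        rw [List.cons_append] at h2
        injection h2 with h3 h4
        rw [List.append_eq_nil_iff] at h4
        exact absurd h4.2 hy

/-- minimal bad continuations -/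
noncomputable def YY (τ j : ℕ) (s : List (Ltr (Fin r))) : Finset (List (Ltr (Fin r))) :=
  (words r j).filter (fun y => Good τ y ∧ Good τ (s ++ y.dropLast) ∧ ¬ Good τ (s ++ y))

theorem mem_YY {τ j : ℕ} {s y : List (Ltr (Fin r))} : y ∈ YY τ j s ↔
    y.length = j ∧ Good τ y ∧ Good τ (s ++ y.dropLast) ∧ ¬ Good τ (s ++ y) := by
  simp [YY]

theorem YY_forb {τ j : ℕ} {s y : List (Ltr (Fin r))} (hs : Good τ s) (hy : y ∈ YY τ j s) :
    y ≠ [] ∧ ∃ x, x ≠ [] ∧ x <:+ s ∧ MinForb (x ++ y) ∧ x.length + y.length ≤ τ := by
  rw [mem_YY] at hy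
  obtain ⟨h1, h2, h3, h4⟩ := hy
  have hy0 : y ≠ [] := by
    rintro rfl
    rw [List.append_nil] at h4; exact h4 hs
  refine ⟨hy0, ?_⟩
  obtain ⟨φ, g1, g2, g3⟩ := exists_minForb h4
  rcases List.infix_append_iff_ne_nil.1 g1 with g | g | ⟨x, z, hx, hz, rfl, hxu, hyt⟩
  · exact absurd (hs φ g g2) g3.not_min
  · exact absurd (h2 φ g g2) g3.not_min
  · by_cases hzy : z = y
    · subst hzy
      exact ⟨x, hx, hxu, g3, by simpa using g2⟩
    · exfalso
      apply g3.not_min
      apply h3 _ _ g2
      obtain ⟨t, ht⟩ := hyt
      have ht0 : t ≠ [] := by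
        rintro rfl
        rw [List.append_nil] at ht
        exact hzy ht
      obtain ⟨s', hs'⟩ := hxu
      refine ⟨s', t.dropLast, ?_⟩
      rw [← ht, List.dropLast_append_of_ne_nil ht0, ← hs']
      simp

/-- constant -/
def CY (τ : ℕ) : ℕ := τ * CF τ

theorem card_YY {τ j : ℕ} (hr : 0 < r) {s : List (Ltr (Fin r))} (hs : Good τ s) :
    (YY τ j s).card ≤ CY τ * r ^ (j / 2) := by
  rcases Nat.lt_or_ge τ j with hj | hj
  · have : YY τ j s = ∅ := by
      rw [Finset.eq_empty_iff_forall_notMem]
      intro y hy
      obtain ⟨-, x, -, -, -, hl⟩ := YY_forb hs hy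
      rw [mem_YY] at hy
      omega
    rw [this]; simp
  · have hsub : YY τ j s ⊆ (Finset.range τ).biUnion (fun i => (words r j).filter
        (fun y => ∃ Y : Finset (Fin r), Y.card ≤ j / 2 ∧
          ∀ a ∈ axs y, a ∈ (axs (s.drop (s.length - i))).toFinset ∨ a ∈ Y)) := by
      intro y hy
      obtain ⟨hy0, x, hx0, hxs, hm, hl⟩ := YY_forb hs hy
      have hyj := (mem_YY.1 hy).1
      have hyl := List.length_pos_iff.2 hy0
      rw [Finset.mem_biUnion]
      refine ⟨x.length, Finset.mem_range.2 (by omega), ?_⟩
      have hxe : s.drop (s.length - x.length) = x := by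
        obtain ⟨s', rfl⟩ := hxs
        simp
      rw [hxe]
      simp only [Finset.mem_filter, mem_words]
      refine ⟨hyj, (axs y).toFinset \ (axs x).toFinset, ?_, ?_⟩
      · have := hm.new_axes hx0 hy0
        omega
      · intro a ha
        by_cases h : a ∈ (axs x).toFinset
        · exact Or.inl h
        · right
          rw [Finset.mem_sdiff]
          exact ⟨List.mem_toFinset.2 ha, h⟩
    refine (Finset.card_le_card hsub).trans (Finset.card_biUnion_le.trans ?_)
    have hterm : ∀ i ∈ Finset.range τ, ((words r j).filter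
        (fun y => ∃ Y : Finset (Fin r), Y.card ≤ j / 2 ∧
          ∀ a ∈ axs y, a ∈ (axs (s.drop (s.length - i))).toFinset ∨ a ∈ Y)).card ≤
        r ^ (j / 2) * CF τ := by
      intro i hi
      rw [Finset.mem_range] at hi
      refine (card_axes_le hr _ (j / 2) j).trans (Nat.mul_le_mul_left _ ?_)
      have h1 := (axs (s.drop (s.length - i))).toFinset_card_le
      rw [axs_length, List.length_drop] at h1
      unfold CF
      calc (2 * ((axs (s.drop (s.length - i))).toFinset.card + j / 2)) ^ j ≤ (4 * τ) ^ j :=
            Nat.pow_le_pow_left (by omega) _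
        _ ≤ (4 * τ) ^ τ := Nat.pow_le_pow_right (by omega) hj
    refine (Finset.sum_le_sum hterm).trans ?_
    rw [Finset.sum_const, Finset.card_range, smul_eq_mul]
    unfold CY
    exact le_of_eq (by ring)

theorem good_single {τ : ℕ} (l : Ltr (Fin r)) : Good τ [l] := by
  by_contra h
  obtain ⟨φ, h1, -, h3⟩ := exists_minForb h
  have h4 := h3.two_le
  have h5 := h1.length_le
  simp at h5
  omega

/-- pairs of a letter and a bad continuation -/
noncomputable def YL (τ r j : ℕ) : Finset (Ltr (Fin r) × List (Ltr (Fin r))) :=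
  (Finset.univ ×ˢ words r j).filter (fun p => p.2 ∈ YY τ j [p.1])

theorem card_YL {τ j : ℕ} (hr : 0 < r) : (YL τ r j).card ≤ CF τ * r ^ ((j + 1) / 2) := by
  rcases Nat.lt_or_ge τ (j + 1) with hj | hj
  · have : YL τ r j = ∅ := by
      rw [Finset.eq_empty_iff_forall_notMem]
      rintro ⟨l, y⟩ hy
      simp only [YL, Finset.mem_filter, Finset.mem_product, Finset.mem_univ, true_and,
        mem_words] at hy
      obtain ⟨-, x, hx, -, -, hl⟩ := YY_forb (good_single l) hy.2
      have := List.length_pos_iff.2 hx
      omega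
    rw [this]; simp
  · have h1 : (YL τ r j).card ≤ (MF r (j + 1)).card := by
      apply Finset.card_le_card_of_injOn (fun p => p.1 :: p.2)
      · rintro ⟨l, y⟩ hy
        simp only [YL, Finset.coe_filter, Finset.mem_product, Finset.mem_univ, true_and,
          mem_words, Set.mem_ofPred_eq] at hy
        obtain ⟨-, x, hx, hxs, hm, hl⟩ := YY_forb (good_single l) hy.2
        have hx1 : x = [l] := by
          have h2 := hxs.length_le
          have h3 := List.length_pos_iff.2 hx
          exact hxs.eq_of_length (by simp at h2 ⊢; omega)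
        subst hx1
        simp only [Finset.mem_coe, MF, Finset.mem_filter, mem_words, List.length_cons]
        exact ⟨by omega, hm⟩
      · rintro ⟨l, y⟩ _ ⟨l', y'⟩ _ h
        simpa using h
    refine h1.trans ((card_MF_le hr (j + 1)).trans ?_)
    rw [mul_comm]
    apply Nat.mul_le_mul_right
    unfold CF
    calc (2 * (j + 1)) ^ (j + 1) ≤ (4 * τ) ^ (j + 1) := Nat.pow_le_pow_left (by omega) _
      _ ≤ (4 * τ) ^ τ := Nat.pow_le_pow_right (by omega) hj

/-- decomposition at the first violation -/
theorem ee_decomp {τ m : ℕ} {s : List (Ltr (Fin r))} (hs : Good τ s) :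
    ee τ m s = aa τ r m - ∑ j ∈ Finset.range m, ∑ y ∈ YY τ (j + 1) s, ee τ (m - 1 - j) y := by
  let N : ℕ → ℕ := fun j => ((GW τ r m).filter (fun w => Good τ (s ++ w.take j))).card
  have hN0 : (N 0 : ℝ) = aa τ r m := by
    unfold aa ga
    simp only [N]
    norm_cast
    congr 1
    rw [Finset.filter_eq_self]
    intro w _
    simpa using hs
  have hNm : (N m : ℝ) = ee τ m s := by
    unfold ee
    simp only [N]
    norm_cast
    congr 1
    ext w
    rw [Finset.mem_filter, mem_GW, mem_EW]
    constructor
    · rintro ⟨⟨h1, h2⟩, h3⟩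
      rw [List.take_of_length_le h1.le] at h3
      exact ⟨h1, h3⟩
    · rintro ⟨h1, h2⟩
      rw [List.take_of_length_le h1.le]
      exact ⟨⟨h1, h2.fac (List.suffix_append s w).isInfix⟩, h2⟩
  have hstep : ∀ j, j < m → (N j : ℝ) - N (j + 1) = ∑ y ∈ YY τ (j + 1) s, ee τ (m - 1 - j) y := by
    intro j hj
    have h1 : N j = N (j + 1) + ((GW τ r m).filter (fun w => Good τ (s ++ w.take j) ∧
        ¬ Good τ (s ++ w.take (j + 1)))).card := by
      simp only [N]
      have h2 : (GW τ r m).filter (fun w => Good τ (s ++ w.take j)) =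
          (GW τ r m).filter (fun w => Good τ (s ++ w.take (j + 1))) ∪
          (GW τ r m).filter (fun w => Good τ (s ++ w.take j) ∧
            ¬ Good τ (s ++ w.take (j + 1))) := by
        ext w
        simp only [Finset.mem_union, Finset.mem_filter]
        constructor
        · rintro ⟨h3, h4⟩
          by_cases h5 : Good τ (s ++ w.take (j + 1))
          · exact Or.inl ⟨h3, h5⟩
          · exact Or.inr ⟨h3, h4, h5⟩
        · rintro (⟨h3, h4⟩ | ⟨h3, h4, -⟩)
          · refine ⟨h3, h4.fac ?_⟩
            have h6 : w.take j <+: w.take (j + 1) := List.take_prefix_take_left (by omega)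
            obtain ⟨t, ht⟩ := h6
            exact ⟨[], t, by rw [← ht]; simp⟩
          · exact ⟨h3, h4⟩
      rw [h2, Finset.card_union_of_disjoint]
      rw [Finset.disjoint_left]
      intro w hw hw'
      rw [Finset.mem_filter] at hw hw'
      exact hw'.2.2 hw.2
    have h3 : ((GW τ r m).filter (fun w => Good τ (s ++ w.take j) ∧
        ¬ Good τ (s ++ w.take (j + 1)))).card =
        ∑ y ∈ YY τ (j + 1) s, (EW τ (m - 1 - j) y).card := by
      rw [← Finset.card_sigma]
      apply Finset.card_nbij' (fun w => (⟨w.take (j + 1), w.drop (j + 1)⟩ :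
        Σ _ : List (Ltr (Fin r)), List (Ltr (Fin r)))) (fun p => p.1 ++ p.2)
      · intro w hw
        simp only [Finset.mem_coe, Finset.mem_filter, mem_GW] at hw
        obtain ⟨⟨h4, h5⟩, h6, h7⟩ := hw
        simp only [Finset.coe_sigma, Set.mem_sigma_iff, Finset.mem_coe, mem_YY, mem_EW]
        refine ⟨⟨by simp; omega, h5.fac (List.take_prefix _ _).isInfix, ?_, h7⟩,
          by simp; omega, by rw [List.take_append_drop]; exact h5⟩
        have : (w.take (j + 1)).dropLast = w.take j := by
          rw [List.dropLast_eq_take, List.take_take]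
          congr 1
          simp; omega
        rw [this]; exact h6
      · rintro ⟨y, w⟩ hp
        simp only [Finset.coe_sigma, Set.mem_sigma_iff, Finset.mem_coe, mem_YY, mem_EW] at hp
        obtain ⟨⟨h4, h5, h6, h7⟩, h8, h9⟩ := hp
        simp only [Finset.mem_coe, Finset.mem_filter, mem_GW]
        refine ⟨⟨by simp; omega, h9⟩, ?_, ?_⟩
        · have : (y ++ w).take j = y.dropLast := by
            rw [List.dropLast_eq_take, List.take_append_of_le_length (by omega)]
            congr 1; omega
          rw [this]; exact h6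
        · have : (y ++ w).take (j + 1) = y := by
            rw [← h4, List.take_left]
          rw [this]; exact h7
      · intro w _; simp
      · rintro ⟨y, w⟩ hp
        simp only [Finset.coe_sigma, Set.mem_sigma_iff, Finset.mem_coe, mem_YY, mem_EW] at hp
        have : y.length = j + 1 := hp.1.1
        rw [← this]
        simp
    rw [h1, h3]
    unfold ee
    push_cast
    ring
  have hsum := Finset.sum_range_sub' (fun j => (N j : ℝ)) m
  rw [hN0, hNm] at hsum
  have h4 : ∑ j ∈ Finset.range m, ((N j : ℝ) - N (j + 1)) =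
      ∑ j ∈ Finset.range m, ∑ y ∈ YY τ (j + 1) s, ee τ (m - 1 - j) y := by
    apply Finset.sum_congr rfl
    intro j hj
    exact hstep j (Finset.mem_range.1 hj)
  rw [h4] at hsum
  linarith

theorem EW_one {τ : ℕ} : EW τ 1 ([] : List (Ltr (Fin r))) =
    Finset.univ.image (fun l : Ltr (Fin r) => [l]) := by
  ext w
  rw [mem_EW, Finset.mem_image]
  constructor
  · rintro ⟨h1, -⟩
    obtain ⟨l, rfl⟩ := List.length_eq_one_iff.1 h1
    exact ⟨l, Finset.mem_univ _, rfl⟩
  · rintro ⟨l, -, rfl⟩
    exact ⟨rfl, good_single l⟩

theorem aa_succ (τ r m : ℕ) : aa τ r (m + 1) = ∑ l : Ltr (Fin r), ee τ m [l] := by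
  rw [← ee_nil, show m + 1 = 1 + m by ring, ee_add, EW_one, Finset.sum_image]
  · simp
  · intro a _ b _ h; simpa using h

theorem aa_decomp (τ r m : ℕ) : aa τ r (m + 1) = 2 * r * aa τ r m -
    ∑ j ∈ Finset.range m, ∑ p ∈ YL τ r (j + 1), ee τ (m - 1 - j) p.2 := by
  rw [aa_succ]
  have h1 : ∀ l : Ltr (Fin r), ee τ m [l] = aa τ r m -
      ∑ j ∈ Finset.range m, ∑ y ∈ YY τ (j + 1) [l], ee τ (m - 1 - j) y :=
    fun l => ee_decomp (good_single l)
  simp only [h1]
  rw [Finset.sum_sub_distrib, Finset.sum_const, card_letters, nsmul_eq_mul, Finset.sum_comm]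
  push_cast
  congr 1
  apply Finset.sum_congr rfl
  intro j _
  unfold YL
  rw [Finset.sum_filter, Finset.sum_product]
  apply Finset.sum_congr rfl
  intro l _
  rw [← Finset.sum_filter]
  apply Finset.sum_congr _ (fun _ _ => rfl)
  ext y
  rw [Finset.mem_filter, mem_words, mem_YY]
  tauto

end Pool.Agent.Helper524_FM
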