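import Pool.Agent.Helper524_FM.Linear

/-!
# The rate at which ratios of good word counts converge, continued
-/

set_option linter.unusedSectionVars false
set_option linter.unusedSimpArgs false

namespace Pool.Agent.Helper524_FM

open scoped Classical

variable {r : ℕ}

/-- normalized continuation counts -/
noncomputable def uu (τ m : ℕ) (s : List (Ltr (Fin r))) : ℝ := ee τ m s / aa τ r m

/-- ratios -/
noncomputable def RR (τ r m : ℕ) : ℝ := aa τ r (m + 1) / aa τ r m

/-- the correction functional -/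
noncomputable def TT (τ r m : ℕ) {ι : Type} (Y : ℕ → Finset ι) (f : ι → List (Ltr (Fin r))) : ℝ :=
  (∑ j ∈ Finset.range m, ∑ y ∈ Y j, ee τ (m - 1 - j) (f y)) / aa τ r m

theorem aa_pos {τ r : ℕ} (hτ : 2 ≤ τ) (hr : τ * C1 τ + 1 ≤ r) (m : ℕ) : 0 < aa τ r m := by
  have h1 := growth_pow hτ hr 0 m
  rw [ga_zero, mul_one, zero_add] at h1
  have h2 : 0 < r ^ m := by
    have : 0 < r := by omega
    positivity
  unfold aa
  exact_mod_cast h2.trans_le h1

theorem aa_growth {τ r : ℕ} (hτ : 2 ≤ τ) (hr : τ * C1 τ + 1 ≤ r) (m k : ℕ) :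
    (r : ℝ) ^ k * aa τ r m ≤ aa τ r (m + k) := by
  unfold aa
  exact_mod_cast growth_pow hτ hr m k

theorem TT_step {τ r : ℕ} (hτ : 2 ≤ τ) (hr : τ * C1 τ + 1 ≤ r) {m : ℕ} {C D : ℝ} (hC : 0 ≤ C)
    (hD : 0 ≤ D)
    (hA : ∀ k, k < m → |RR τ r (k + 1) - RR τ r k| ≤ C / (r : ℝ) ^ ((k + 1) / 2))
    (hB : ∀ k, k < m → ∀ s : List (Ltr (Fin r)), Good τ s →
      |uu τ (k + 1) s - uu τ k s| ≤ C / (r : ℝ) ^ ((k + 2) / 2))
    {ι : Type} (Y : ℕ → Finset ι) (f : ι → List (Ltr (Fin r))) (hY : ∀ j, ∀ y ∈ Y j, Good τ (f y))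
    {g : ℕ → ℕ} (hg : ∀ j, ((Y j).card : ℝ) / (r : ℝ) ^ (j + 1) ≤ D / (r : ℝ) ^ (g j))
    {h : ℕ} (h0 : h ≤ g m) (h1 : ∀ j, j < m → h ≤ g j + (m - j + 1) / 2)
    (h2 : ∀ j, j < m → h ≤ g j + 1 + (m - j) / 2) :
    |TT τ r (m + 1) Y f - TT τ r m Y f| ≤ (D + m * (D * (C + m * C))) / (r : ℝ) ^ h := by
  have hr0 : 0 < r := by omega
  have hrp : (0 : ℝ) < r := by exact_mod_cast hr0
  have hr1 : (1 : ℝ) ≤ r := by exact_mod_cast hr0
  have hpos := aa_pos hτ hr
  -- differences of ratios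
  have hR : ∀ k, k ≤ m → |RR τ r k - RR τ r m| ≤ m * C / (r : ℝ) ^ ((k + 1) / 2) := by
    intro k hk
    have e1 : RR τ r k - RR τ r m = - ∑ i ∈ Finset.Ico k m, (RR τ r (i + 1) - RR τ r i) := by
      rw [Finset.sum_Ico_eq_sum_range]
      have := Finset.sum_range_sub (fun i => RR τ r (k + i)) (m - k)
      simp only [add_zero] at this
      rw [show k + (m - k) = m by omega] at this
      rw [← neg_sub, ← this]
      rfl
    rw [e1, abs_neg]
    refine (Finset.abs_sum_le_sum_abs _ _).trans ?_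
    have e2 : ∀ i ∈ Finset.Ico k m, |RR τ r (i + 1) - RR τ r i| ≤ C / (r : ℝ) ^ ((k + 1) / 2) := by
      intro i hi
      rw [Finset.mem_Ico] at hi
      refine (hA i hi.2).trans ?_
      apply div_le_div_of_nonneg_left hC (by positivity)
      exact pow_le_pow_right₀ hr1 (by omega)
    refine (Finset.sum_le_sum e2).trans ?_
    rw [Finset.sum_const, Nat.card_Ico, nsmul_eq_mul, mul_div_assoc]
    apply mul_le_mul_of_nonneg_right _ (by positivity)
    exact_mod_cast Nat.sub_le m k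
  -- single terms
  have hterm : ∀ j, j < m → ∀ y ∈ Y j,
      |ee τ (m - j) (f y) / aa τ r (m + 1) - ee τ (m - 1 - j) (f y) / aa τ r m| ≤
      (C / (r : ℝ) ^ ((m - j + 1) / 2) + m * C / (r : ℝ) ^ (1 + (m - j) / 2)) /
        (r : ℝ) ^ (j + 1) := by
    intro j hj y hy
    obtain ⟨k, hk⟩ : ∃ k, k = m - 1 - j := ⟨_, rfl⟩
    have hk1 : m - j = k + 1 := by omega
    have hk2 : m - 1 - j = k := hk.symm
    rw [hk1, hk2]
    have hgd := hY j y hy
    have a1 := hpos k
    have a2 := hpos (k + 1)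
    have a3 := hpos m
    have a4 := hpos (m + 1)
    have e1 : ee τ (k + 1) (f y) / aa τ r (m + 1) - ee τ k (f y) / aa τ r m =
        (uu τ (k + 1) (f y) - uu τ k (f y)) * (aa τ r (k + 1) / aa τ r (m + 1)) +
        uu τ k (f y) * (aa τ r k / aa τ r (m + 1)) * (RR τ r k - RR τ r m) := by
      unfold uu RR
      field_simp
      ring
    have g1 : aa τ r (k + 1) / aa τ r (m + 1) ≤ 1 / (r : ℝ) ^ (j + 1) := by
      rw [div_le_div_iff₀ a4 (by positivity), one_mul, mul_comm]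
      have := aa_growth hτ hr (k + 1) (j + 1)
      rwa [show k + 1 + (j + 1) = m + 1 by omega] at this
    have g2 : aa τ r k / aa τ r (m + 1) ≤ 1 / (r : ℝ) ^ (j + 2) := by
      rw [div_le_div_iff₀ a4 (by positivity), one_mul, mul_comm]
      have := aa_growth hτ hr k (j + 2)
      rwa [show k + (j + 2) = m + 1 by omega] at this
    have g3 : 0 ≤ uu τ k (f y) ∧ uu τ k (f y) ≤ 1 := by
      unfold uu
      refine ⟨div_nonneg (ee_nonneg _ _ _) a1.le, ?_⟩
      rw [div_le_one a1]; exact ee_le _ _ _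
    have g4 := hB k (by omega) (f y) hgd
    have g5 := hR k (by omega)
    rw [e1]
    refine (abs_add_le _ _).trans ?_
    rw [abs_mul, abs_mul, abs_mul, abs_of_nonneg (div_nonneg a2.le a4.le), abs_of_nonneg g3.1,
      abs_of_nonneg (div_nonneg a1.le a4.le), add_div]
    apply add_le_add
    · calc |uu τ (k + 1) (f y) - uu τ k (f y)| * (aa τ r (k + 1) / aa τ r (m + 1))
          ≤ C / (r : ℝ) ^ ((k + 2) / 2) * (1 / (r : ℝ) ^ (j + 1)) := by gcongr
        _ = C / (r : ℝ) ^ ((k + 1 + 1) / 2) / (r : ℝ) ^ (j + 1) := by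
            rw [mul_one_div]
    · calc uu τ k (f y) * (aa τ r k / aa τ r (m + 1)) * |RR τ r k - RR τ r m|
          ≤ 1 * (1 / (r : ℝ) ^ (j + 2)) * (m * C / (r : ℝ) ^ ((k + 1) / 2)) := by
            gcongr
            exact g3.2
        _ = m * C / (r : ℝ) ^ (1 + (k + 1) / 2) / (r : ℝ) ^ (j + 1) := by
            rw [show j + 2 = (j + 1) + 1 by ring, pow_succ (r : ℝ) (j + 1),
              pow_add (r : ℝ) 1 ((k + 1) / 2), pow_one]
            ring
  -- the difference
  have hdiff : TT τ r (m + 1) Y f - TT τ r m Y f =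
      (∑ y ∈ Y m, ee τ 0 (f y)) / aa τ r (m + 1) +
      ∑ j ∈ Finset.range m, ∑ y ∈ Y j,
        (ee τ (m - j) (f y) / aa τ r (m + 1) - ee τ (m - 1 - j) (f y) / aa τ r m) := by
    unfold TT
    rw [Finset.sum_range_succ]
    simp only [Nat.add_sub_cancel, Nat.sub_self]
    rw [add_div, Finset.sum_div, Finset.sum_div]
    simp only [Finset.sum_sub_distrib, Finset.sum_div]
    ring
  rw [hdiff]
  refine (abs_add_le _ _).trans ?_
  have hfirst : |(∑ y ∈ Y m, ee τ 0 (f y)) / aa τ r (m + 1)| ≤ D / (r : ℝ) ^ h := by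
    have e1 : ∀ y ∈ Y m, ee τ 0 (f y) ≤ 1 := by
      intro y _
      refine (ee_le τ 0 (f y)).trans ?_
      unfold aa; rw [ga_zero]; simp
    have e2 : ∑ y ∈ Y m, ee τ 0 (f y) ≤ (Y m).card := by
      refine (Finset.sum_le_sum e1).trans ?_
      rw [Finset.sum_const, nsmul_eq_mul, mul_one]
    have e3 : 0 ≤ ∑ y ∈ Y m, ee τ 0 (f y) := Finset.sum_nonneg fun y _ => ee_nonneg _ _ _
    rw [abs_of_nonneg (div_nonneg e3 (hpos _).le)]
    have e4 : (r : ℝ) ^ (m + 1) ≤ aa τ r (m + 1) := by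
      have := aa_growth hτ hr 0 (m + 1)
      unfold aa at this ⊢
      rw [ga_zero, zero_add] at this
      simpa using this
    calc (∑ y ∈ Y m, ee τ 0 (f y)) / aa τ r (m + 1) ≤ (Y m).card / (r : ℝ) ^ (m + 1) := by
          gcongr
      _ ≤ D / (r : ℝ) ^ (g m) := hg m
      _ ≤ D / (r : ℝ) ^ h := by
          apply div_le_div_of_nonneg_left hD (by positivity)
          exact pow_le_pow_right₀ hr1 h0
  have hrest : |∑ j ∈ Finset.range m, ∑ y ∈ Y j,
        (ee τ (m - j) (f y) / aa τ r (m + 1) - ee τ (m - 1 - j) (f y) / aa τ r m)| ≤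
      m * (D * (C + m * C)) / (r : ℝ) ^ h := by
    refine (Finset.abs_sum_le_sum_abs _ _).trans ?_
    have e1 : ∀ j ∈ Finset.range m, |∑ y ∈ Y j,
        (ee τ (m - j) (f y) / aa τ r (m + 1) - ee τ (m - 1 - j) (f y) / aa τ r m)| ≤
        D * (C + m * C) / (r : ℝ) ^ h := by
      intro j hj
      rw [Finset.mem_range] at hj
      refine (Finset.abs_sum_le_sum_abs _ _).trans ((Finset.sum_le_sum (hterm j hj)).trans ?_)
      rw [Finset.sum_const, nsmul_eq_mul]
      have k1 : ((Y j).card : ℝ) * ((C / (r : ℝ) ^ ((m - j + 1) / 2) +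
          m * C / (r : ℝ) ^ (1 + (m - j) / 2)) / (r : ℝ) ^ (j + 1)) =
          ((Y j).card : ℝ) / (r : ℝ) ^ (j + 1) * (C / (r : ℝ) ^ ((m - j + 1) / 2) +
          m * C / (r : ℝ) ^ (1 + (m - j) / 2)) := by ring
      rw [k1]
      have k2 : 0 ≤ C / (r : ℝ) ^ ((m - j + 1) / 2) + m * C / (r : ℝ) ^ (1 + (m - j) / 2) := by
        positivity
      refine (mul_le_mul_of_nonneg_right (hg j) k2).trans ?_
      have k3 : D / (r : ℝ) ^ g j * (C / (r : ℝ) ^ ((m - j + 1) / 2) +
          m * C / (r : ℝ) ^ (1 + (m - j) / 2)) =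
          D * C / (r : ℝ) ^ (g j + (m - j + 1) / 2) +
          D * (m * C) / (r : ℝ) ^ (g j + (1 + (m - j) / 2)) := by
        have p1 : (r : ℝ) ^ (g j + (m - j + 1) / 2) = (r : ℝ) ^ g j * (r : ℝ) ^ ((m - j + 1) / 2) :=
          pow_add _ _ _
        have p2 : (r : ℝ) ^ (g j + (1 + (m - j) / 2)) =
          (r : ℝ) ^ g j * (r : ℝ) ^ (1 + (m - j) / 2) := pow_add _ _ _
        rw [p1, p2]
        generalize (r : ℝ) ^ g j = a
        generalize (r : ℝ) ^ ((m - j + 1) / 2) = b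
        generalize (r : ℝ) ^ (1 + (m - j) / 2) = c
        ring
      rw [k3]
      have k4 : D * C / (r : ℝ) ^ (g j + (m - j + 1) / 2) ≤ D * C / (r : ℝ) ^ h := by
        apply div_le_div_of_nonneg_left (by positivity) (by positivity)
        exact pow_le_pow_right₀ hr1 (h1 j hj)
      have k5 : D * (m * C) / (r : ℝ) ^ (g j + (1 + (m - j) / 2)) ≤ D * (m * C) / (r : ℝ) ^ h := by
        apply div_le_div_of_nonneg_left (by positivity) (by positivity)
        exact pow_le_pow_right₀ hr1 (by have := h2 j hj; omega)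
      calc _ ≤ D * C / (r : ℝ) ^ h + D * (m * C) / (r : ℝ) ^ h := add_le_add k4 k5
        _ = _ := by ring
    refine (Finset.sum_le_sum e1).trans (le_of_eq ?_)
    rw [Finset.sum_const, Finset.card_range, nsmul_eq_mul]
    ring
  calc _ ≤ D / (r : ℝ) ^ h + m * (D * (C + m * C)) / (r : ℝ) ^ h := add_le_add hfirst hrest
    _ = _ := by ring

/-- one induction step -/
theorem step_all {τ r : ℕ} (hτ : 2 ≤ τ) (hr : τ * C1 τ + 1 ≤ r) {m : ℕ} {C : ℝ} (hC : 0 ≤ C)
    (hA : ∀ k, k < m → |RR τ r (k + 1) - RR τ r k| ≤ C / (r : ℝ) ^ ((k + 1) / 2))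
    (hB : ∀ k, k < m → ∀ s : List (Ltr (Fin r)), Good τ s →
      |uu τ (k + 1) s - uu τ k s| ≤ C / (r : ℝ) ^ ((k + 2) / 2)) :
    |RR τ r (m + 1) - RR τ r m| ≤
        ((CY τ : ℝ) + m * (CY τ * (C + m * C))) / (r : ℝ) ^ ((m + 1) / 2) ∧
      ∀ s : List (Ltr (Fin r)), Good τ s → |uu τ (m + 1) s - uu τ m s| ≤
        ((CY τ : ℝ) + m * (CY τ * (C + m * C))) / (r : ℝ) ^ ((m + 2) / 2) := by
  have hr0 : 0 < r := by omega
  have hrp : (0 : ℝ) < r := by exact_mod_cast hr0
  have hpos := aa_pos hτ hr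
  constructor
  · have e1 : ∀ m, RR τ r m = 2 * r - TT τ r m (fun j => YL τ r (j + 1)) (fun p => p.2) := by
      intro m
      unfold RR TT
      rw [aa_decomp, sub_div]
      congr 1
      have := (hpos m).ne'
      field_simp
    have e2 := TT_step hτ hr hC (D := CY τ) (by positivity) hA hB
      (fun j => YL τ r (j + 1)) (fun p => p.2)
      (by
        rintro j ⟨l, y⟩ hy
        simp only [YL, Finset.mem_filter] at hy
        exact (mem_YY.1 hy.2).2.1)
      (g := fun j => (j + 1) / 2) (by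
        intro j
        rw [div_le_div_iff₀ (by positivity) (by positivity)]
        have h1 : (YL τ r (j + 1)).card ≤ CY τ * r ^ ((j + 1 + 1) / 2) := by
          refine (card_YL hr0).trans (Nat.mul_le_mul_right _ ?_)
          unfold CY
          exact Nat.le_mul_of_pos_left _ (by omega)
        have h2 : r ^ ((j + 1 + 1) / 2) * r ^ ((j + 1) / 2) ≤ r ^ (j + 1) := by
          rw [← pow_add]; exact Nat.pow_le_pow_right hr0 (by omega)
        have h3 : (YL τ r (j + 1)).card * r ^ ((j + 1) / 2) ≤ CY τ * r ^ (j + 1) := by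
          calc _ ≤ CY τ * r ^ ((j + 1 + 1) / 2) * r ^ ((j + 1) / 2) := Nat.mul_le_mul_right _ h1
            _ = CY τ * (r ^ ((j + 1 + 1) / 2) * r ^ ((j + 1) / 2)) := by ring
            _ ≤ _ := Nat.mul_le_mul_left _ h2
        exact_mod_cast h3)
      (h := (m + 1) / 2) le_rfl (by intro j hj; omega) (by intro j hj; omega)
    rw [e1, e1]
    rw [show 2 * (r : ℝ) - TT τ r (m + 1) (fun j => YL τ r (j + 1)) (fun p => p.2) -
      (2 * (r : ℝ) - TT τ r m (fun j => YL τ r (j + 1)) (fun p => p.2)) =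
      -(TT τ r (m + 1) (fun j => YL τ r (j + 1)) (fun p => p.2) -
        TT τ r m (fun j => YL τ r (j + 1)) (fun p => p.2)) by ring, abs_neg]
    exact e2
  · intro s hs
    have e1 : ∀ m, uu τ m s = 1 - TT τ r m (fun j => YY τ (j + 1) s) (fun y => y) := by
      intro m
      unfold uu TT
      rw [ee_decomp hs, sub_div, div_self (hpos m).ne']
    have e2 := TT_step hτ hr hC (D := CY τ) (by positivity) hA hB
      (fun j => YY τ (j + 1) s) (fun y => y)
      (by
        intro j y hy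
        exact (mem_YY.1 hy).2.1)
      (g := fun j => (j + 2) / 2) (by
        intro j
        rw [div_le_div_iff₀ (by positivity) (by positivity)]
        have h1 : (YY τ (j + 1) s).card ≤ CY τ * r ^ ((j + 1) / 2) := card_YY hr0 hs
        have h2 : r ^ ((j + 1) / 2) * r ^ ((j + 2) / 2) ≤ r ^ (j + 1) := by
          rw [← pow_add]; exact Nat.pow_le_pow_right hr0 (by omega)
        have h3 : (YY τ (j + 1) s).card * r ^ ((j + 2) / 2) ≤ CY τ * r ^ (j + 1) := by
          calc _ ≤ CY τ * r ^ ((j + 1) / 2) * r ^ ((j + 2) / 2) := Nat.mul_le_mul_right _ h1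
            _ = CY τ * (r ^ ((j + 1) / 2) * r ^ ((j + 2) / 2)) := by ring
            _ ≤ _ := Nat.mul_le_mul_left _ h2
        exact_mod_cast h3)
      (h := (m + 2) / 2) le_rfl (by intro j hj; omega) (by intro j hj; omega)
    rw [e1, e1]
    rw [show 1 - TT τ r (m + 1) (fun j => YY τ (j + 1) s) (fun y => y) -
      (1 - TT τ r m (fun j => YY τ (j + 1) s) (fun y => y)) =
      -(TT τ r (m + 1) (fun j => YY τ (j + 1) s) (fun y => y) -
        TT τ r m (fun j => YY τ (j + 1) s) (fun y => y)) by ring, abs_neg]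
    exact e2

theorem ratio_steps {τ : ℕ} (hτ : 2 ≤ τ) (m : ℕ) : ∃ C : ℝ, 0 ≤ C ∧ ∀ r : ℕ, τ * C1 τ + 1 ≤ r →
    (∀ k, k < m → |RR τ r (k + 1) - RR τ r k| ≤ C / (r : ℝ) ^ ((k + 1) / 2)) ∧
    (∀ k, k < m → ∀ s : List (Ltr (Fin r)), Good τ s →
      |uu τ (k + 1) s - uu τ k s| ≤ C / (r : ℝ) ^ ((k + 2) / 2)) := by
  induction m with
  | zero => exact ⟨0, le_rfl, fun r _ => ⟨fun k hk => absurd hk (by omega),
      fun k hk => absurd hk (by omega)⟩⟩
  | succ m ih =>
    obtain ⟨C, hC, ih⟩ := ih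
    obtain ⟨C', hC'⟩ : ∃ C' : ℝ, C' = (CY τ : ℝ) + m * (CY τ * (C + m * C)) := ⟨_, rfl⟩
    have hC'0 : 0 ≤ C' := by rw [hC']; positivity
    refine ⟨C + C', by positivity, fun r hr => ?_⟩
    obtain ⟨hA, hB⟩ := ih r hr
    obtain ⟨h1, h2⟩ := step_all hτ hr hC hA hB
    rw [← hC'] at h1
    constructor
    · intro k hk
      rcases Nat.lt_or_ge k m with h | h
      · refine (hA k h).trans ?_
        gcongr; linarith
      · have : k = m := by omega
        subst this
        refine h1.trans ?_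
        gcongr; linarith
    · intro k hk s hs
      rcases Nat.lt_or_ge k m with h | h
      · refine (hB k h s hs).trans ?_
        gcongr; linarith
      · have : k = m := by omega
        subst this
        have h3 := h2 s hs
        rw [← hC'] at h3
        refine h3.trans ?_
        gcongr; linarith

/-- **Two consecutive spheres determine the growth rate up to `O(r ^ (-n / 2))`.** -/
theorem ratio_linear (n : ℕ) : ∃ C : ℝ, ∃ r0 : ℕ, ∀ r : ℕ, r0 ≤ r →
    |om r - (sph r (n + 1) : ℝ) / sph r n| ≤ C / (r : ℝ) ^ ((n + 1) / 2) := by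
  obtain ⟨K, hK⟩ : ∃ K, K = (n + 1) / 2 := ⟨_, rfl⟩
  obtain ⟨τ, hτ⟩ : ∃ τ, τ = 2 * (K + 1) := ⟨_, rfl⟩
  obtain ⟨N, hN⟩ : ∃ N, N = 2 * (K + 1) * (K + 1) := ⟨_, rfl⟩
  have hNn : n ≤ N := by
    have h1 : n ≤ 2 * (K + 1) := by omega
    rw [hN]
    exact h1.trans (Nat.le_mul_of_pos_right _ (by omega))
  obtain ⟨C1', r1, h1⟩ := ratio_ga K
  obtain ⟨C2, r2, h2⟩ := sph_ratio_close K n
  obtain ⟨C3, hC3, h3⟩ := ratio_steps (τ := τ) (by omega) N
  rw [← hτ] at h2
  refine ⟨C1' + (N * C3 + C2), r1 + r2 + (τ * C1 τ + 1), fun r hr => ?_⟩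
  have hr0 : 0 < r := by omega
  have hr1R : (1 : ℝ) ≤ r := by exact_mod_cast hr0
  have e1 := h1 r (by omega) N hN.ge
  rw [← hτ] at e1
  have e2 := h2 r (by omega)
  obtain ⟨hA, -⟩ := h3 r (by omega)
  have e3 : |RR τ r N - RR τ r n| ≤ N * C3 / (r : ℝ) ^ K := by
    have f1 : RR τ r N - RR τ r n = ∑ i ∈ Finset.Ico n N, (RR τ r (i + 1) - RR τ r i) := by
      rw [Finset.sum_Ico_eq_sum_range]
      have := Finset.sum_range_sub (fun i => RR τ r (n + i)) (N - n)
      simp only [add_zero] at this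
      rw [show n + (N - n) = N by omega] at this
      rw [← this]
      rfl
    rw [f1]
    refine (Finset.abs_sum_le_sum_abs _ _).trans ?_
    have f2 : ∀ i ∈ Finset.Ico n N, |RR τ r (i + 1) - RR τ r i| ≤ C3 / (r : ℝ) ^ K := by
      intro i hi
      rw [Finset.mem_Ico] at hi
      refine (hA i hi.2).trans ?_
      apply div_le_div_of_nonneg_left hC3 (by positivity)
      exact pow_le_pow_right₀ hr1R (by omega)
    refine (Finset.sum_le_sum f2).trans ?_
    rw [Finset.sum_const, Nat.card_Ico, nsmul_eq_mul, mul_div_assoc]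
    apply mul_le_mul_of_nonneg_right _ (by positivity)
    exact_mod_cast Nat.sub_le N n
  have g1 : RR τ r N = (ga τ r (N + 1) : ℝ) / ga τ r N := rfl
  have g2 : RR τ r n = (ga τ r (n + 1) : ℝ) / ga τ r n := rfl
  rw [← g1] at e1
  rw [← g2] at e2
  rw [← hK]
  have e4 : om r - (sph r (n + 1) : ℝ) / sph r n = (om r - RR τ r N) +
      ((RR τ r N - RR τ r n) + (RR τ r n - (sph r (n + 1) : ℝ) / sph r n)) := by ring
  rw [e4, add_div, add_div]
  exact (abs_add_le _ _).trans (add_le_add e1 ((abs_add_le _ _).trans (add_le_add e3 e2)))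

end Pool.Agent.Helper524_FM
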