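import Pool.Agent.Helper524_FM.Group

/-!
# The general lower bound: the growth rate is almost that of the good words
-/

set_option linter.unusedSectionVars false
set_option linter.unusedSimpArgs false

namespace Pool.Agent.Helper524_FM

open scoped Classical

/-- constant of the general lower bound -/
def C6 (P : Par) : ℕ := 3 + 2 * C4 P * (P.c + 2)

theorem om_lower {P : Par} (hPK : P.K = 2 * (P.D + (3 * P.c + 5))) {r : ℕ}
    (hr : 2 * P.τ ^ 2 * C1 P.τ + 1 ≤ r) {β : ℝ} (hβ : 0 < β)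
    (h : β ^ (NN P.c r) ≤ ga P.τ r (NN P.c r)) :
    β * (1 - C6 P / (r : ℝ) ^ P.c) ≤ om r := by
  have hr0 : 0 < r := by omega
  have hrR : (0 : ℝ) < r := by exact_mod_cast hr0
  have hr1 : (1 : ℝ) ≤ r := by exact_mod_cast hr0
  obtain ⟨N, hN⟩ : ∃ N, N = NN P.c r := ⟨_, rfl⟩
  rw [← hN] at h
  obtain ⟨R, hR⟩ : ∃ R, R = r ^ (P.c + 1) := ⟨_, rfl⟩
  obtain ⟨x, hx⟩ : ∃ x : ℝ, x = 1 / (r : ℝ) ^ (P.c + 2) := ⟨_, rfl⟩
  have hN0 : 0 < N := by rw [hN, NN]; omega
  have hR0 : 0 < R := by rw [hR]; positivity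
  have hx0 : 0 < x := by rw [hx]; positivity
  have hx1 : x ≤ 1 := by
    rw [hx, div_le_one (by positivity)]
    exact one_le_pow₀ hr1
  have hcore := fun k => lower_core hPK hr hN k hx0 hx1
  rw [← hR] at hcore
  have hC6 : (C6 P : ℝ) = 3 + 2 * (C4 P : ℝ) * ((P.c : ℝ) + 2) := by
    unfold C6
    rw [Nat.cast_add, Nat.cast_mul, Nat.cast_mul, Nat.cast_add]
    norm_num
  generalize C6 P = K6 at hC6 ⊢
  generalize C4 P = K4 at hC6 hcore
  have h1 : ((ga P.τ r N : ℝ) / 2) ^ R * x ^ (2 * K4 * N) ≤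
      om r ^ (N * R) * (1 + 2 * r * x) ^ (N * R) := by
    apply om_ge_of_bound hr0 (by positivity) (by positivity)
    intro k
    have e1 := hcore k
    have e2 := Fl_le r (N * (R * k))
    calc (((ga P.τ r N : ℝ) / 2) ^ R * x ^ (2 * K4 * N)) ^ k
        = ((ga P.τ r N : ℝ) / 2) ^ (R * k) * x ^ (2 * K4 * N * k) := by
          rw [mul_pow, ← pow_mul, ← pow_mul]
      _ ≤ 2 * Fl r (N * (R * k)) * (1 + 2 * r * x) ^ (N * (R * k)) := e1
      _ ≤ 2 * (∑ j ∈ Finset.range (N * (R * k) + 1), sph r j : ℕ) *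
          (1 + 2 * r * x) ^ (N * (R * k)) := by gcongr
      _ = 2 * (∑ j ∈ Finset.range (N * R * k + 1), sph r j : ℕ) *
          ((1 + 2 * r * x) ^ (N * R)) ^ k := by rw [← pow_mul, mul_assoc N R k]
  have hom : 0 < om r := lt_of_lt_of_le one_pos (one_le_om hr0)
  have h2 : (β ^ N / 2) ^ R * x ^ (2 * K4 * N) ≤
      om r ^ (N * R) * (1 + 2 * r * x) ^ (N * R) := by
    refine le_trans ?_ h1
    gcongr
  have h3 := Real.log_le_log (by positivity) h2
  rw [Real.log_mul (by positivity) (by positivity), Real.log_mul (by positivity) (by positivity),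
    Real.log_pow, Real.log_pow, Real.log_pow, Real.log_pow,
    Real.log_div (by positivity) (by norm_num), Real.log_pow] at h3
  have hlx : Real.log x = -((P.c + 2) * Real.log r) := by
    rw [hx, one_div, Real.log_inv, Real.log_pow]
    push_cast; ring
  have hrx : 2 * (r : ℝ) * x = 2 / R := by
    rw [hx, hR]
    push_cast
    rw [show P.c + 2 = (P.c + 1) + 1 by ring, pow_succ (r : ℝ) (P.c + 1)]
    field_simp
  have hlog1 : Real.log (1 + 2 * r * x) ≤ 2 / R := by
    rw [hrx]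
    have := Real.log_le_sub_one_of_pos (show (0 : ℝ) < 1 + 2 / R by positivity)
    linarith
  have hlog2 : Real.log 2 ≤ 1 := by
    have := Real.log_two_lt_d9
    linarith
  have hlogr : Real.log r ≤ r := (Real.log_le_sub_one_of_pos hrR).trans (by linarith)
  have hlogr0 : 0 ≤ Real.log r := Real.log_nonneg hr1
  have hNR : (R : ℝ) ≤ N := by
    have : R ≤ N := by
      rw [hR, hN, NN]
      have : r ^ (P.c + 1) ≤ r ^ (P.c + 2) := Nat.pow_le_pow_right hr0 (by omega)
      omega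
    exact_mod_cast this
  have hRR : (0 : ℝ) < R := by exact_mod_cast hR0
  have hNRR : (0 : ℝ) < N := by exact_mod_cast hN0
  -- divide by `N R`
  have h4 : Real.log β - K6 * r / R ≤ Real.log (om r) := by
    push_cast at h3
    rw [hlx] at h3
    have e1 : (N : ℝ) * R * Real.log (om r) ≥ R * (N * Real.log β - 1) -
        2 * K4 * N * ((P.c + 2) * r) - N * R * (2 / R) := by
      have e2 : (N : ℝ) * R * Real.log (1 + 2 * r * x) ≤ N * R * (2 / R) := by gcongr
      have e3 : 2 * (K4 : ℝ) * N * ((P.c + 2) * Real.log r) ≤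
          2 * K4 * N * ((P.c + 2) * r) := by gcongr
      have e4 : (R : ℝ) * (N * Real.log β - Real.log 2) ≥ R * (N * Real.log β - 1) := by gcongr
      linarith
    have e5 : (N : ℝ) * R * (2 / R) = 2 * N := by field_simp
    rw [e5] at e1
    have e6 : (N : ℝ) * R * (Real.log β - K6 * r / R) =
        N * R * Real.log β - N * (K6 * r) := by field_simp
    have e7 : (N : ℝ) * R * (Real.log β - K6 * r / R) ≤ N * R * Real.log (om r) := by
      rw [e6]
      rw [hC6]
      have e9 : (3 : ℝ) * N ≤ 3 * N * r := by nlinarith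
      nlinarith
    exact le_of_mul_le_mul_left e7 (by positivity)
  have h5 : (K6 : ℝ) * r / R = K6 / (r : ℝ) ^ P.c := by
    rw [hR]
    push_cast
    rw [pow_succ (r : ℝ) P.c]
    field_simp
  rw [h5] at h4
  have h6 : Real.exp (Real.log β - K6 / (r : ℝ) ^ P.c) ≤ om r := by
    calc _ ≤ Real.exp (Real.log (om r)) := Real.exp_le_exp.2 h4
      _ = om r := Real.exp_log hom
  refine le_trans ?_ h6
  rw [Real.exp_sub, Real.exp_log hβ, div_eq_mul_inv β, ← Real.exp_neg]
  gcongr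
  have := Real.add_one_le_exp (-((K6 : ℝ) / (r : ℝ) ^ P.c))
  linarith

/-- standard parameters -/
theorem mkPar_K (c τ : ℕ) (hc : 2 * c ≤ τ) (hτ : 2 ≤ τ) :
    (mkPar c τ hc hτ).K = 2 * ((mkPar c τ hc hτ).D + (3 * (mkPar c τ hc hτ).c + 5)) := rfl

theorem om_lower' {c τ : ℕ} (hc : 2 * c ≤ τ) (hτ : 2 ≤ τ) :
    ∃ C r0 : ℕ, ∀ r : ℕ, r0 ≤ r → ∀ β : ℝ, 0 < β → (∀ n, β ^ n ≤ ga τ r n) →
      β * (1 - C / (r : ℝ) ^ c) ≤ om r :=
  ⟨C6 (mkPar c τ hc hτ), 2 * τ ^ 2 * C1 τ + 1, fun _ hr _ hβ h =>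
    om_lower (mkPar_K c τ hc hτ) hr hβ (h _)⟩

end Pool.Agent.Helper524_FM
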