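import Pool.Agent.Helper524_FM.Fg

/-!
# The minimal forbidden words of length at most eight
-/

set_option linter.unusedSectionVars false
set_option linter.unusedSimpArgs false

namespace Pool.Agent.Helper524_FM

variable {r : ℕ}

theorem IsMin.red {w : List (Ltr (Fin r))} (h : IsMin w) : Red w :=
  fun l hl => not_isMin_cancel l (isMin_infix hl h)

theorem flow_last {u v : List (Ltr (Fin r))} {l : Ltr (Fin r)}
    (h : flow 0 (u ++ [l]) = flow 0 (v ++ [l])) : flow 0 u = flow 0 v := by
  have hp := pos_eq_of_flow h
  simp only [pos_append, pos_cons, pos_nil, add_zero, add_left_inj] at hp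
  rw [flow_append, flow_append, hp] at h
  exact add_right_cancel h

theorem flow_first {u v : List (Ltr (Fin r))} {l : Ltr (Fin r)}
    (h : flow 0 (l :: u) = flow 0 (l :: v)) : flow 0 u = flow 0 v := by
  rw [flow_cons, flow_cons] at h
  have := add_left_cancel h
  exact (flow_eq_iff _ _ _).1 this

theorem mf_cred {φ v : List (Ltr (Fin r))} (hφ : MinForb φ) (hr : Red φ)
    (hv : IsMin v) (h : flow 0 v = flow 0 φ) : CRed (φ ++ invW v) := by
  have hred : Red (φ ++ invW v) := by
    intro l hl
    rcases List.infix_append_iff_ne_nil.1 hl with h1 | h1 | ⟨x, y, hx, hy, hxy, h3, h4⟩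
    · exact hr l h1
    · exact hv.red.invW l h1
    · have hx1 : x = [l] ∧ y = [inv l] := by
        have hlen := congrArg List.length hxy
        simp only [List.length_cons, List.length_nil, List.length_append] at hlen
        have hx' := List.length_pos_iff.2 hx
        have hy' := List.length_pos_iff.2 hy
        have : x.length = 1 := by omega
        obtain ⟨a, rfl⟩ := List.length_eq_one_iff.1 this
        have : y.length = 1 := by omega
        obtain ⟨b, rfl⟩ := List.length_eq_one_iff.1 this
        simp at hxy
        exact ⟨by rw [hxy.1], by rw [hxy.2]⟩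
      rw [hx1.1] at h3
      rw [hx1.2] at h4
      obtain ⟨s, hs⟩ := h3
      obtain ⟨t, ht⟩ := h4
      have hv2 : v = invW t ++ [l] := by
        rw [← invW_invW v, ← ht]; simp
      have hf : flow 0 s = flow 0 (invW t) := by
        apply flow_last (l := l)
        rw [hs, ← hv2, h]
      have e1 : s = invW t := isMin_unique
        (hφ.proper s ⟨[], [l], by simp [hs]⟩ (by rw [← hs]; simp))
        (isMin_infix ⟨[], [l], by simp [hv2]⟩ hv) hf
      apply hφ.not_min
      rw [← hs, e1, ← hv2]
      exact hv
  apply cred_of hred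
  intro l w' he
  -- the first letters
  cases φ with
  | nil => exact hφ.not_min isMin_nil
  | cons m φ' =>
    have hm : m = inv l := by simpa using (List.cons.inj he).1
    subst hm
    rcases List.eq_nil_or_concat v with h0 | ⟨v', m', h0⟩
    · subst h0
      simp only [invW_nil, List.append_nil] at he
      have h2 : ZW w' := by
        apply zw_strip (l := l)
        rw [← he]; unfold ZW; rw [← h]; rfl
      have h3 : IsMin w' := hφ.proper w' ⟨[inv l], [l], by rw [he]; simp⟩ (by rw [he]; simp)
      have h4 : w' = [] := eq_nil_of_isMin h3 h2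
      subst h4
      apply hr (inv l)
      rw [he]
      simp
    · -- `v` is not empty: its first letter
      cases v with
      | nil => simp at h0
      | cons m v'' =>
        have hm : m = inv l := by
          have h1 : (inv l :: φ') ++ invW (m :: v'') = (inv l :: (φ' ++ invW v'')) ++ [inv m] := by
            simp
          have h2 : inv l :: (w' ++ [l]) = (inv l :: w') ++ [l] := by simp
          rw [h1, h2] at he
          have := (List.append_inj' he rfl).2
          simp only [List.cons.injEq, and_true] at this
          rw [← this, inv_inv]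
        subst hm
        have e1 : v'' = φ' := isMin_unique
          (isMin_infix ⟨[inv l], [], by simp⟩ hv)
          (hφ.proper φ' ⟨[inv l], [], by simp⟩ (by simp)) (flow_first h)
        subst e1
        exact hφ.not_min hv

theorem mf_zw {φ v : List (Ltr (Fin r))} (h : flow 0 v = flow 0 φ) : ZW (φ ++ invW v) :=
  (flow_zero_iff φ v).2 h.symm

theorem mf_len {φ v : List (Ltr (Fin r))} (hφ : MinForb φ) (hr : Red φ)
    (hv : IsMin v) (h : flow 0 v = flow 0 φ) : 14 ≤ φ.length + v.length := by
  have h1 := zw_len (mf_cred hφ hr hv h).red (mf_zw h) (by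
    intro h0
    rw [List.append_eq_nil_iff] at h0
    exact hφ.not_min (h0.1 ▸ isMin_nil))
  simpa using h1

theorem MFR_small {ℓ : ℕ} (hℓ : ℓ ≤ 6) : MFR r ℓ = ∅ := by
  rw [Finset.eq_empty_iff_forall_notMem]
  intro φ hφ
  simp only [MFR, Finset.mem_filter, mem_words] at hφ
  obtain ⟨v, hv, hm⟩ := exists_isMin φ
  have h1 := mf_len hφ.2.1 hφ.2.2 hm hv
  have h2 := isMin_length hm hv.symm
  omega

theorem count_app_invW (φ v : List (Ltr (Fin r))) (i : Fin r) :
    (axs (φ ++ invW v)).count i = (axs φ).count i + (axs v).count i := by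
  rw [axs_append, List.count_append, count_axs_invW]

theorem four_le_count {φ v : List (Ltr (Fin r))} (hφ : MinForb φ) (hr : Red φ)
    (hv : IsMin v) (h : flow 0 v = flow 0 φ) {i : Fin r} (hi : i ∈ axs φ) :
    4 ≤ (axs φ).count i + (axs v).count i := by
  have h2 : 0 < (axs φ).count i := List.count_pos_iff.2 hi
  have h3 := even_count h.symm i
  have h4 := hφ.cross' hr hv h i
  omega

theorem mf7 {φ v : List (Ltr (Fin r))} (hφ : MinForb φ) (hr : Red φ)
    (hv : IsMin v) (h : flow 0 v = flow 0 φ) (hl : φ.length = 7) (hx : nax φ = 3) :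
    v.length = 7 ∧ ∃ a b c, (φ ++ invW v) ~r R0 a b c := by
  have h1 := mf_len hφ hr hv h
  have h2 := isMin_length hv h.symm
  have hlv : v.length = 7 := by omega
  refine ⟨hlv, ?_⟩
  obtain ⟨i, hi, hi4⟩ : ∃ i ∈ (axs φ).toFinset, (axs φ).count i + (axs v).count i = 4 := by
    by_contra hcon
    push Not at hcon
    have h3 : ∀ i ∈ (axs φ).toFinset, 6 ≤ (axs φ).count i + (axs v).count i := by
      intro i hi
      have g1 := four_le_count hφ hr hv h (List.mem_toFinset.1 hi)
      have g2 := even_count h.symm i
      have g3 := hcon i hi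
      omega
    have h4 := Finset.sum_le_sum h3
    rw [Finset.sum_const, Finset.sum_add_distrib] at h4
    have h5 := sum_count_le (axs φ).toFinset (axs φ)
    have h6 := sum_count_le (axs φ).toFinset (axs v)
    simp only [axs_length, smul_eq_mul] at h4 h5 h6
    unfold nax at hx
    omega
  apply class14 (i := i) _ (mf_cred hφ hr hv h) (mf_zw h) (by simp; omega)
  rw [count_app_invW]; exact hi4

theorem mf8 {φ v : List (Ltr (Fin r))} (hφ : MinForb φ) (hr : Red φ)
    (hv : IsMin v) (h : flow 0 v = flow 0 φ) (hl : φ.length = 8) (hx : nax φ = 4) :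
    v.length = 8 ∧ ∃ a b c d, (φ ++ invW v) ~r W0 a b c d := by
  have h2 := isMin_length hv h.symm
  have h3 : ∀ i ∈ (axs φ).toFinset, 4 ≤ (axs φ).count i + (axs v).count i := by
    intro i hi
    exact four_le_count hφ hr hv h (List.mem_toFinset.1 hi)
  have h4 := Finset.sum_le_sum h3
  rw [Finset.sum_const, Finset.sum_add_distrib] at h4
  have h5 := sum_count_le (axs φ).toFinset (axs φ)
  have h6 := sum_count_le (axs φ).toFinset (axs v)
  simp only [axs_length, smul_eq_mul] at h4 h5 h6
  have hx' := hx
  unfold nax at hx
  have hlv : v.length = 8 := by omega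
  refine ⟨hlv, ?_⟩
  have hax : ∀ j, (axs (φ ++ invW v)).count j ≤ 4 := by
    intro j
    rw [count_app_invW]
    by_cases hj : j ∈ (axs φ).toFinset
    · have g1 : ∑ i ∈ (axs φ).toFinset.erase j, 4 ≤
          ∑ i ∈ (axs φ).toFinset.erase j, ((axs φ).count i + (axs v).count i) :=
        Finset.sum_le_sum fun i hi => h3 i (Finset.mem_of_mem_erase hi)
      rw [Finset.sum_const, Finset.card_erase_of_mem hj] at g1
      have g2 := Finset.sum_erase_add (axs φ).toFinset
        (fun i => (axs φ).count i + (axs v).count i) hj
      simp only [smul_eq_mul, Finset.sum_add_distrib] at g1 g2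
      omega
    · have g1 := sum_count_le (insert j (axs φ).toFinset) (axs v)
      have g2 := sum_count_le (insert j (axs φ).toFinset) (axs φ)
      rw [Finset.sum_insert hj, axs_length] at g1 g2
      omega
  obtain ⟨i, hi⟩ : (axs φ).toFinset.Nonempty := by
    rw [← Finset.card_pos]; omega
  apply class16 (i := i) _ (mf_cred hφ hr hv h) (mf_zw h) (by simp; omega) hax
  have := hax i
  have g := h3 i hi
  rw [count_app_invW] at this ⊢
  omega

end Pool.Agent.Helper524_FM
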