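import Pool.Agent.Helper524_FM.Basic

/-!
# ShortLex-minimal words for the flow
-/

set_option linter.unusedSectionVars false
set_option linter.unusedSimpArgs false

namespace Pool.Agent.Helper524_FM

open scoped Classical

/-- number of distinct axes -/
def nax {α : Type} [DecidableEq α] (w : List (Ltr α)) : ℕ := (axs w).toFinset.card

section general
variable {α : Type} [DecidableEq α]

theorem sum_count_le (s : Finset α) (l : List α) : ∑ i ∈ s, l.count i ≤ l.length := by
  induction l with
  | nil => simp
  | cons a l ih =>
    simp only [List.count_cons, Finset.sum_add_distrib, List.length_cons]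
    have : ∑ i ∈ s, (if (a == i) = true then 1 else 0) ≤ 1 := by
      simp only [beq_iff_eq]
      rw [Finset.sum_ite_eq]
      split <;> omega
    omega

theorem nax_le_length (w : List (Ltr α)) : nax w ≤ w.length := by
  unfold nax
  exact (List.toFinset_card_le _).trans (by simp)

theorem nax_append_le (u v : List (Ltr α)) : nax (u ++ v) ≤ nax u + nax v := by
  unfold nax
  rw [axs_append, List.toFinset_append]
  exact Finset.card_union_le _ _

theorem codim_infix {u w : List (Ltr α)} {c : ℕ} (h : u <:+: w) (hw : w.length ≤ nax w + c) :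
    u.length ≤ nax u + c := by
  obtain ⟨s, t, rfl⟩ := h
  have h1 := nax_append_le (s ++ u) t
  have h2 := nax_append_le s u
  have h3 := nax_le_length s
  have h4 := nax_le_length t
  simp only [List.length_append] at hw
  omega

theorem parity_count (w : List (Ltr α)) (i : α) : (pos w i + (axs w).count i) % 2 = 0 := by
  induction w with
  | nil => simp
  | cons l w ih =>
    have h1 : (stp l i + (if (l.1 == i) = true then (1 : ℤ) else 0)) % 2 = 0 := by
      by_cases h : l.1 = i
      · subst h
        rcases l with ⟨a, b⟩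
        cases b <;> simp [stp, sgn]
      · simp [h, stp_level (Ne.symm h)]
    rw [pos_cons, Pi.add_apply, axs_cons, List.count_cons]
    push_cast
    omega

theorem even_count {w v : List (Ltr α)} (h : flow 0 w = flow 0 v) (i : α) :
    ((axs w).count i + (axs v).count i) % 2 = 0 := by
  have h1 := parity_count w i
  have h2 := parity_count v i
  rw [pos_eq_of_flow h] at h1
  omega

theorem four_nax_le {w v : List (Ltr α)}
    (h : ∀ i, (axs w).count i + (axs v).count i ≠ 2) (hf : flow 0 w = flow 0 v) :
    4 * nax w ≤ w.length + v.length := by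
  have h1 : ∀ i ∈ (axs w).toFinset, 4 ≤ (axs w).count i + (axs v).count i := by
    intro i hi
    have h2 : 0 < (axs w).count i := List.count_pos_iff.2 (List.mem_toFinset.1 hi)
    have h3 := even_count hf i
    have h4 := h i
    omega
  have h2 := Finset.sum_le_sum h1
  rw [Finset.sum_const, Finset.sum_add_distrib] at h2
  have h3 := sum_count_le (axs w).toFinset (axs w)
  have h4 := sum_count_le (axs w).toFinset (axs v)
  simp only [axs_length, smul_eq_mul] at h2 h3 h4
  unfold nax
  omega

end general

variable {r : ℕ}

/-- numbering of the letters -/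
def enc (l : Ltr (Fin r)) : ℕ := 2 * l.1.val + (if l.2 then 0 else 1)

theorem enc_lt (l : Ltr (Fin r)) : enc l + 1 ≤ 2 * r := by
  unfold enc
  have := l.1.isLt
  split <;> omega

theorem enc_inj {l l' : Ltr (Fin r)} (h : enc l = enc l') : l = l' := by
  rcases l with ⟨i, b⟩
  rcases l' with ⟨j, c⟩
  unfold enc at h
  cases b <;> cases c <;> simp at h ⊢ <;> omega

/-- ShortLex key of a word -/
def key : List (Ltr (Fin r)) → ℕ
  | [] => 0
  | l :: w => (enc l + 1) * (2 * r) ^ w.length + key w

/-- geometric sums -/
def gs (B : ℕ) : ℕ → ℕ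
  | 0 => 0
  | n + 1 => B ^ n + gs B n

theorem gs_mono (B : ℕ) {m n : ℕ} (h : m ≤ n) : gs B m ≤ gs B n := by
  induction n with
  | zero => simp at h; subst h; exact le_rfl
  | succ n ih =>
    rcases Nat.lt_or_ge m (n + 1) with h1 | h1
    · exact (ih (by omega)).trans (by simp [gs])
    · have : m = n + 1 := by omega
      subst this; exact le_rfl

theorem key_ge (w : List (Ltr (Fin r))) : gs (2 * r) w.length ≤ key w := by
  induction w with
  | nil => simp [gs]
  | cons l w ih =>
    simp only [List.length_cons, gs, key]
    nlinarith [Nat.zero_le (enc l * (2 * r) ^ w.length)]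

theorem key_lt (w : List (Ltr (Fin r))) : key w < gs (2 * r) (w.length + 1) := by
  induction w with
  | nil => simp [gs, key]
  | cons l w ih =>
    simp only [List.length_cons, gs, key] at ih ⊢
    have h1 : (enc l + 1) * (2 * r) ^ w.length ≤ 2 * r * (2 * r) ^ w.length :=
      Nat.mul_le_mul_right _ (enc_lt l)
    have h2 : (2 * r) ^ (w.length + 1) = 2 * r * (2 * r) ^ w.length := by ring
    omega

theorem key_lt_of_length {w v : List (Ltr (Fin r))} (h : w.length < v.length) :
    key w < key v :=
  (key_lt w).trans_le ((gs_mono _ h).trans (key_ge v))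

theorem length_le_of_key {w v : List (Ltr (Fin r))} (h : key w ≤ key v) :
    w.length ≤ v.length := by
  by_contra h'
  exact absurd (key_lt_of_length (not_le.1 h')) (not_lt.2 h)

theorem key_inj {w v : List (Ltr (Fin r))} (h : key w = key v) : w = v := by
  have hl : w.length = v.length := le_antisymm (length_le_of_key h.le) (length_le_of_key h.ge)
  induction w generalizing v with
  | nil => exact (List.length_eq_zero_iff.1 hl.symm).symm
  | cons l w ih =>
    cases v with
    | nil => simp at hl
    | cons l' v =>
      simp only [List.length_cons, add_left_inj] at hl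
      simp only [key] at h
      rw [← hl] at h
      have h1 := key_ge w
      have h2 := key_lt w
      have h3 := key_ge v
      have h4 := key_lt v
      rw [← hl] at h3 h4
      simp only [gs] at h2 h4
      have he : enc l = enc l' := by
        by_contra hne
        rcases lt_or_gt_of_ne hne with h5 | h5
        · have : (enc l + 1) * (2 * r) ^ w.length + (2 * r) ^ w.length ≤
              (enc l' + 1) * (2 * r) ^ w.length := by
            have := Nat.mul_le_mul_right ((2 * r) ^ w.length) (show enc l + 1 + 1 ≤ enc l' + 1 by omega)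
            linarith [this, Nat.succ_mul (enc l + 1) ((2 * r) ^ w.length)]
          omega
        · have : (enc l' + 1) * (2 * r) ^ w.length + (2 * r) ^ w.length ≤
              (enc l + 1) * (2 * r) ^ w.length := by
            have := Nat.mul_le_mul_right ((2 * r) ^ w.length) (show enc l' + 1 + 1 ≤ enc l + 1 by omega)
            linarith [this, Nat.succ_mul (enc l' + 1) ((2 * r) ^ w.length)]
          omega
      have hll := enc_inj he
      subst hll
      rw [ih (by omega) hl]

theorem key_append (u v : List (Ltr (Fin r))) :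
    key (u ++ v) = key u * (2 * r) ^ v.length + key v := by
  induction u with
  | nil => simp [key]
  | cons l u ih =>
    simp only [List.cons_append, key, ih, List.length_append]
    ring

theorem key_ctx {u w w' v : List (Ltr (Fin r))} (hl : w.length = w'.length)
    (h : key w < key w') : key (u ++ w ++ v) < key (u ++ w' ++ v) := by
  have hB : 0 < (2 * r) ^ v.length := by
    rcases Nat.eq_zero_or_pos r with h0 | h0
    · subst h0
      cases w' with
      | nil => simp [key] at h
      | cons l _ => exact l.1.elim0
    · positivity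
  rw [key_append, key_append, key_append (u ++ w'), key_append u w', hl]
  have := Nat.mul_lt_mul_of_pos_right h hB
  nlinarith

/-- `w` is the ShortLex-least word with its flow. -/
def IsMin (w : List (Ltr (Fin r))) : Prop := ∀ v, flow 0 v = flow 0 w → key w ≤ key v

theorem exists_isMin (w : List (Ltr (Fin r))) : ∃ v, flow 0 v = flow 0 w ∧ IsMin v := by
  have hne : ∃ n, ∃ v : List (Ltr (Fin r)), flow 0 v = flow 0 w ∧ key v = n := ⟨key w, w, rfl, rfl⟩
  obtain ⟨v, hv, hk⟩ := Nat.find_spec hne
  refine ⟨v, hv, fun u hu => ?_⟩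
  rw [hk]
  exact Nat.find_min' hne ⟨u, hu.trans hv, rfl⟩

theorem isMin_unique {w v : List (Ltr (Fin r))} (hw : IsMin w) (hv : IsMin v)
    (h : flow 0 w = flow 0 v) : w = v :=
  key_inj (le_antisymm (hw v h.symm) (hv w h))

theorem isMin_length {w v : List (Ltr (Fin r))} (hw : IsMin w) (h : flow 0 v = flow 0 w) :
    w.length ≤ v.length := length_le_of_key (hw v h)

theorem flow_ctx {α : Type} [DecidableEq α] {u w w' v : List (Ltr α)} (h : flow 0 w = flow 0 w') :
    flow 0 (u ++ w ++ v) = flow 0 (u ++ w' ++ v) := by
  simp only [flow_append, pos_append, pos_eq_of_flow h, zero_add]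
  rw [(flow_eq_iff (pos u) w w').2 h]

theorem isMin_mid {u w v : List (Ltr (Fin r))} (h : IsMin (u ++ w ++ v)) : IsMin w := by
  intro w' hw'
  by_contra hlt
  rw [not_le] at hlt
  have h1 : flow 0 (u ++ w' ++ v) = flow 0 (u ++ w ++ v) := flow_ctx hw'
  have h2 := h _ h1
  rcases Nat.lt_or_ge w'.length w.length with h3 | h3
  · have : key (u ++ w' ++ v) < key (u ++ w ++ v) := key_lt_of_length (by simp; omega)
    omega
  · have h4 : w'.length = w.length := le_antisymm (length_le_of_key hlt.le) h3
    have := key_ctx (u := u) (v := v) h4 hlt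
    omega

theorem isMin_infix {u w : List (Ltr (Fin r))} (h : u <:+: w) (hw : IsMin w) : IsMin u := by
  obtain ⟨s, t, rfl⟩ := h
  exact isMin_mid hw

theorem isMin_nil : IsMin ([] : List (Ltr (Fin r))) := by
  intro v _; simp [key]

theorem eq_nil_of_isMin {w : List (Ltr (Fin r))} (hw : IsMin w) (h : flow 0 w = 0) : w = [] :=
  isMin_unique hw isMin_nil (by simpa using h)

theorem not_isMin_cancel (l : Ltr (Fin r)) : ¬ IsMin [l, inv l] := by
  intro h
  have h1 := isMin_length h (v := []) (by
    simp only [flow_cons, flow_nil, add_zero]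
    rw [low_inv, sgn_inv, inv_fst, Finsupp.single_neg, add_neg_cancel])
  simp at h1

/-- all factors of length at most `τ` are minimal -/
def Good (τ : ℕ) (w : List (Ltr (Fin r))) : Prop := ∀ u, u <:+: w → u.length ≤ τ → IsMin u

theorem Good.fac {τ : ℕ} {u w : List (Ltr (Fin r))} (hw : Good τ w) (h : u <:+: w) :
    Good τ u := fun u' h' hl => hw u' (h'.trans h) hl

theorem Good.noCancel {τ : ℕ} (hτ : 2 ≤ τ) {w : List (Ltr (Fin r))} (hw : Good τ w)
    {s t : List (Ltr (Fin r))} {l : Ltr (Fin r)} (h : w = s ++ l :: inv l :: t) : False := by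
  apply not_isMin_cancel l
  apply hw [l, inv l] _ (by simpa using hτ)
  exact ⟨s, t, by simp [h]⟩

/-- **Uniqueness.** Words of low codimension all of whose short factors are minimal are
determined by their flow. -/
theorem unique_of_good {c τ : ℕ} (hc : 2 * c ≤ τ) (hτ : 2 ≤ τ) {w v : List (Ltr (Fin r))}
    (hw : Good τ w) (hv : Good τ v) (cw : w.length ≤ nax w + c) (cv : v.length ≤ nax v + c)
    (h : flow 0 w = flow 0 v) : w = v := by
  induction hn : w.length + v.length using Nat.strong_induction_on generalizing w v with
  | _ n ih =>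
    subst hn
    by_cases hex : ∃ i, (axs w).count i + (axs v).count i = 2
    · obtain ⟨i, hi⟩ := hex
      have hcase : ((axs w).count i = 1 ∧ (axs v).count i = 1) ∨
          ((axs w).count i = 2 ∧ (axs v).count i = 0) ∨
          ((axs v).count i = 2 ∧ (axs w).count i = 0) := by omega
      rcases hcase with ⟨h1, h2⟩ | ⟨h1, h2⟩ | ⟨h1, h2⟩
      · obtain ⟨w1, l, w2, v1, v2, rfl, rfl, -, -, -, -, -, hf1, hf2⟩ := two_cross_one h h1 h2
        have iw1 : w1 <:+: w1 ++ l :: w2 := ⟨[], l :: w2, by simp⟩
        have iw2 : w2 <:+: w1 ++ l :: w2 := ⟨w1 ++ [l], [], by simp⟩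
        have iv1 : v1 <:+: v1 ++ l :: v2 := ⟨[], l :: v2, by simp⟩
        have iv2 : v2 <:+: v1 ++ l :: v2 := ⟨v1 ++ [l], [], by simp⟩
        have e1 := ih (w1.length + v1.length) (by simp; omega) (hw.fac iw1) (hv.fac iv1)
          (codim_infix iw1 cw) (codim_infix iv1 cv) hf1 rfl
        have e2 := ih (w2.length + v2.length) (by simp; omega) (hw.fac iw2) (hv.fac iv2)
          (codim_infix iw2 cw) (codim_infix iv2 cv) hf2 rfl
        rw [e1, e2]
      · exfalso
        obtain ⟨w1, l, q, w2, rfl, -, hq⟩ := two_cross_two h h1 h2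
        have iq : q <:+: w1 ++ l :: (q ++ inv l :: w2) := ⟨w1 ++ [l], inv l :: w2, by simp⟩
        have e1 := ih (q.length + 0) (by simp; omega) (v := []) (hw.fac iq)
          (by intro u hu _; rw [List.infix_nil.1 hu]; exact isMin_nil)
          (codim_infix iq cw) (by simp) (by simpa using hq) (by simp)
        subst e1
        exact hw.noCancel hτ (s := w1) (l := l) (t := w2) (by simp)
      · exfalso
        obtain ⟨w1, l, q, w2, rfl, -, hq⟩ := two_cross_two h.symm h1 h2
        have iq : q <:+: w1 ++ l :: (q ++ inv l :: w2) := ⟨w1 ++ [l], inv l :: w2, by simp⟩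
        have e1 := ih (q.length + 0) (by simp; omega) (v := []) (hv.fac iq)
          (by intro u hu _; rw [List.infix_nil.1 hu]; exact isMin_nil)
          (codim_infix iq cv) (by simp) (by simpa using hq) (by simp)
        subst e1
        exact hv.noCancel hτ (s := w1) (l := l) (t := w2) (by simp)
    · push Not at hex
      have h1 := four_nax_le hex h
      have h2 := four_nax_le (w := v) (v := w) (fun i => by rw [add_comm]; exact hex i) h.symm
      have hlw : w.length ≤ τ := by omega
      have hlv : v.length ≤ τ := by omega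
      exact isMin_unique (hw w List.infix_rfl hlw) (hv v List.infix_rfl hlv) h

/-- minimal forbidden words -/
structure MinForb (φ : List (Ltr (Fin r))) : Prop where
  not_min : ¬ IsMin φ
  proper : ∀ u, u <:+: φ → u.length < φ.length → IsMin u

/-- The structure of a minimal forbidden word of length at least 3 and its minimal partner. -/
theorem MinForb.cross {φ v : List (Ltr (Fin r))} (hφ : MinForb φ) (h3 : 3 ≤ φ.length)
    (hv : IsMin v) (h : flow 0 v = flow 0 φ) (i : Fin r) :
    (axs φ).count i + (axs v).count i ≠ 2 := by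
  intro hi
  have hcase : ((axs φ).count i = 1 ∧ (axs v).count i = 1) ∨
      ((axs φ).count i = 2 ∧ (axs v).count i = 0) ∨
      ((axs v).count i = 2 ∧ (axs φ).count i = 0) := by omega
  rcases hcase with ⟨h1, h2⟩ | ⟨h1, h2⟩ | ⟨h1, h2⟩
  · obtain ⟨w1, l, w2, v1, v2, rfl, rfl, -, -, -, -, -, hf1, hf2⟩ := two_cross_one h.symm h1 h2
    have e1 : w1 = v1 := isMin_unique (hφ.proper w1 ⟨[], l :: w2, by simp⟩ (by simp))
      (isMin_infix ⟨[], l :: v2, by simp⟩ hv) hf1
    have e2 : w2 = v2 := isMin_unique
      (hφ.proper w2 ⟨w1 ++ [l], [], by simp⟩ (by simp; omega))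
      (isMin_infix ⟨v1 ++ [l], [], by simp⟩ hv) hf2
    subst e1 e2
    exact hφ.not_min hv
  · obtain ⟨w1, l, q, w2, rfl, -, hq⟩ := two_cross_two h.symm h1 h2
    have e1 : q = [] := eq_nil_of_isMin
      (hφ.proper q ⟨w1 ++ [l], inv l :: w2, by simp⟩ (by simp; omega)) hq
    subst e1
    exact not_isMin_cancel l (hφ.proper [l, inv l] ⟨w1, w2, by simp⟩ (by simp at h3 ⊢; omega))
  · obtain ⟨w1, l, q, w2, rfl, -, hq⟩ := two_cross_two h h1 h2
    have e1 : q = [] := eq_nil_of_isMin (isMin_infix ⟨w1 ++ [l], inv l :: w2, by simp⟩ hv) hq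
    subst e1
    exact not_isMin_cancel l (isMin_infix ⟨w1, w2, by simp⟩ hv)

/-- A minimal forbidden word of length at least three has at most half as many axes as letters. -/
theorem MinForb.two_nax_le {φ : List (Ltr (Fin r))} (hφ : MinForb φ) (h3 : 3 ≤ φ.length) :
    2 * nax φ ≤ φ.length := by
  obtain ⟨v, hv, hm⟩ := exists_isMin φ
  have h1 := four_nax_le (w := φ) (v := v) (hφ.cross h3 hm hv) hv.symm
  have h2 := isMin_length hm hv.symm
  omega

end Pool.Agent.Helper524_FM
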