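import Pool.Agent.Helper524_FM.HW4

/-!
# Irreducible bridges and the renewal inequality
-/

set_option linter.unusedSectionVars false
set_option linter.unusedSimpArgs false

namespace Pool.Agent.Helper524_FM

open scoped Classical ENNReal

variable {r : ℕ}

/-- the level `j` is crossed by a single unit of flow -/
def Sg (a : Fin r) (j : ℤ) (f : Ch r) : Prop :=
  ∃ x : Fin r → ℤ, x a = j ∧ f (a, x) = 1 ∧ ∀ x' : Fin r → ℤ, x' a = j → x' ≠ x → f (a, x') = 0

/-- irreducible bridges of span `s` -/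
def IrrS (a : Fin r) (s : ℕ) (w : List (Ltr (Fin r))) : Prop :=
  Br a s w ∧ ∀ j : ℤ, 0 < j → j < s → ¬ Sg a j (flow 0 w)

/-- irreducible bridges -/
def Irr (a : Fin r) (w : List (Ltr (Fin r))) : Prop := ∃ s : ℕ, 1 ≤ s ∧ IrrS a s w

/-- bridges -/
def BrA (a : Fin r) (w : List (Ltr (Fin r))) : Prop := ∃ s : ℕ, Br a s w

theorem G_add {P Q R : List (Ltr (Fin r)) → Prop} {z : ℝ≥0∞} (hP : ∀ w, P w → R w)
    (hQ : ∀ w, Q w → R w) (hd : ∀ w v, P w → Q v → flow 0 w ≠ flow 0 v) :
    G P z + G Q z ≤ G R z := by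
  unfold G
  rw [← ENNReal.tsum_add]
  refine ENNReal.tsum_le_tsum fun f => ?_
  by_cases h : ∃ w, P w ∧ flow 0 w = f
  · obtain ⟨w, hw, rfl⟩ := h
    have h1 : wt Q z (flow 0 w) = 0 := wt_eq_zero fun v hv h2 => hd w v hw hv h2.symm
    rw [h1, add_zero]
    exact wt_le fun v hv h2 => by rw [← h2]; exact le_wt (hP v hv)
  · push Not at h
    have h1 : wt P z f = 0 := wt_eq_zero fun v hv h2 => h v hv h2
    rw [h1, zero_add]
    exact wt_le fun v hv h2 => by rw [← h2]; exact le_wt (hQ v hv)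

theorem flow_low_zero (a : Fin r) {m : ℤ} {w : List (Ltr (Fin r))} {x : Fin r → ℤ}
    (h : ∀ k ≤ w.length, m ≤ (x + pos (w.take k)) a) {y : Fin r → ℤ} {i : Fin r}
    (he : y a < m) : flow x w (i, y) = 0 := by
  induction w generalizing x with
  | nil => simp
  | cons l w ih =>
    have h0 := h 0 (by simp)
    have h1 := h 1 (by simp)
    have ih' := ih (x := x + stp l) (fun k hk => by
      have := h (k + 1) (by simpa using hk)
      simpa [add_assoc] using this)
    rw [flow_cons, Finsupp.add_apply, ih', add_zero, Finsupp.single_apply, if_neg]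
    intro h'
    have h2 : low x l = y := congrArg Prod.snd h'
    simp only [List.take_zero, pos_nil, add_zero, List.take_succ_cons, pos_cons] at h0 h1
    rw [← h2] at he
    unfold low at he
    split at he
    · linarith
    · linarith

theorem Br.head {a : Fin r} {s : ℕ} {w : List (Ltr (Fin r))} (h : Br a s w) (hs : 1 ≤ s) :
    ∃ w', w = (a, true) :: w' ∧ ∀ k ≤ w'.length, 1 ≤ (stp (a, true) + pos (w'.take k)) a := by
  rcases w with _ | ⟨l, w'⟩
  · have := h.1
    simp at this; omega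
  · have h1 := h.2 1 le_rfl (by simp)
    simp only [List.take_succ_cons, List.take_zero, pos_cons, pos_nil, add_zero] at h1
    have hl : l = (a, true) := by
      by_cases hla : l.1 = a
      · rw [stp_same a l hla] at h1
        rcases l with ⟨i, b⟩
        simp only at hla
        subst hla
        cases b
        · simp only [sgn, Bool.false_eq_true, if_false] at h1; omega
        · rfl
      · rw [stp_level (fun h' => hla h'.symm)] at h1; omega
    subst hl
    refine ⟨w', rfl, fun k hk => ?_⟩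
    have := (h.2 (k + 1) (by omega) (by simpa using hk)).1
    simpa using this

/-- a nonempty bridge crosses level `0` in a single unit -/
theorem Br.single_zero {a : Fin r} {s : ℕ} {w : List (Ltr (Fin r))} (h : Br a s w) (hs : 1 ≤ s) :
    Sg a 0 (flow 0 w) := by
  obtain ⟨w', rfl, hw'⟩ := h.head hs
  have h0 : low 0 ((a, true) : Ltr (Fin r)) = 0 := rfl
  have hz : ∀ x' : Fin r → ℤ, x' a = 0 → flow (0 + stp (a, true)) w' (a, x') = 0 := by
    intro x' hx'
    apply flow_low_zero a (m := 1) _ (by rw [hx']; norm_num)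
    intro k hk
    rw [zero_add]; exact hw' k hk
  refine ⟨0, rfl, ?_, ?_⟩
  · rw [flow_cons, Finsupp.add_apply, hz 0 rfl, add_zero, h0, Finsupp.single_eq_same]
    rfl
  · intro x' hx' hne
    rw [flow_cons, Finsupp.add_apply, hz x' hx', add_zero, h0, Finsupp.single_apply, if_neg]
    intro h'
    exact hne (congrArg Prod.snd h').symm

/-- levels of a product of bridges -/
theorem Br.cut_level {a : Fin r} {s t : ℕ} {u v : List (Ltr (Fin r))} (hu : Br a s u)
    (hv : Br a t v) (ht : 1 ≤ t) : Sg a s (flow 0 (u ++ v)) := by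
  obtain ⟨x, hx0, hx1, hx2⟩ := hv.single_zero ht
  have hul : ∀ y : Fin r → ℤ, y a = s → flow 0 u (a, y) = 0 := by
    intro y hy
    apply flow_top_zero a (s := s)
    · intro k hk
      rcases Nat.eq_zero_or_pos k with h0 | h0
      · subst h0; simp
      · rw [zero_add]; exact (hu.2 k h0 hk).2
    · unfold top; rw [if_pos rfl]; simp only; omega
  have hval : ∀ y : Fin r → ℤ, y a = s → flow 0 (u ++ v) (a, y) = flow 0 v (a, y - pos u) := by
    intro y hy
    rw [flow_append, Finsupp.add_apply, hul y hy, zero_add, zero_add, flow_apply_base]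
  refine ⟨x + pos u, by rw [Pi.add_apply, hx0, hu.1, zero_add], ?_, ?_⟩
  · rw [hval _ (by rw [Pi.add_apply, hx0, hu.1, zero_add]), add_sub_cancel_right, hx1]
  · intro x' hx' hne
    rw [hval x' hx']
    apply hx2
    · rw [Pi.sub_apply, hx', hu.1, sub_self]
    · intro h
      apply hne
      rw [← h, sub_add_cancel]

/-- below its span, the levels of a product are those of the first factor -/
theorem Br.level_left {a : Fin r} {s t : ℕ} {u v : List (Ltr (Fin r))} (hu : Br a s u)
    (hv : Br a t v) {j : ℤ} (hj : j < s) (h : Sg a j (flow 0 (u ++ v))) : Sg a j (flow 0 u) := by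
  obtain ⟨x, hx0, hx1, hx2⟩ := h
  have hfl := hu.flow_left (v := v) (fun k h1 h2 => (hv.2 k h1 h2).1)
  have htop : ∀ y : Fin r → ℤ, y a = j → top a (a, y) ≤ s := by
    intro y hy
    unfold top
    rw [if_pos rfl]
    simp only
    omega
  refine ⟨x, hx0, ?_, ?_⟩
  · rw [hfl, if_pos (htop x hx0)]; exact hx1
  · intro x' hx' hne
    rw [hfl, if_pos (htop x' hx')]; exact hx2 x' hx' hne

/-- unique decoding of the first irreducible factor -/
theorem irr_decode {a : Fin r} {u v u' v' : List (Ltr (Fin r))} (hu : Irr a u) (hv : BrA a v)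
    (hu' : Irr a u') (hv' : BrA a v') (h : flow 0 (u ++ v) = flow 0 (u' ++ v')) :
    flow 0 u = flow 0 u' := by
  have key : ∀ {u v u' v' : List (Ltr (Fin r))} {s t s' t' : ℕ}, 1 ≤ s → IrrS a s u → Br a t v →
      IrrS a s' u' → Br a t' v' → flow 0 (u ++ v) = flow 0 (u' ++ v') → ¬ s < s' := by
    intro u v u' v' s t s' t' hs hu hv hu' hv' h hlt
    have hpos := congrFun (pos_eq_of_flow h) a
    rw [pos_append, pos_append, Pi.add_apply, Pi.add_apply, hu.1.1, hv.1, hu'.1.1, hv'.1] at hpos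
    have ht : 1 ≤ t := by
      have : (s : ℤ) + t = s' + t' := hpos
      omega
    have h1 := hu.1.cut_level hv ht
    rw [h] at h1
    have h2 := hu'.1.level_left hv' (by exact_mod_cast hlt) h1
    exact hu'.2 s (by exact_mod_cast hs) (by exact_mod_cast hlt) h2
  obtain ⟨s, hs, hu⟩ := hu
  obtain ⟨t, hv⟩ := hv
  obtain ⟨s', hs', hu'⟩ := hu'
  obtain ⟨t', hv'⟩ := hv'
  have h1 := key hs hu hv hu' hv' h
  have h2 := key hs' hu' hv' hu hv h.symm
  have h3 : s = s' := by omega
  subst h3
  exact hu.1.inj hu'.1 (fun k h1 h2 => (hv.2 k h1 h2).1) (fun k h1 h2 => (hv'.2 k h1 h2).1) h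

/-- **The renewal inequality.** -/
theorem renewal (a : Fin r) (z : ℝ≥0∞) : 1 + G (Irr a) z * G (BrA a) z ≤ G (BrA a) z := by
  have h1 : G (Irr a) z * G (BrA a) z ≤
      G (fun w => ∃ u v, w = u ++ v ∧ Irr a u ∧ BrA a v) z := by
    apply G_super
    · intro u v hu hv; exact ⟨u, v, rfl, hu, hv⟩
    · intro u v u' v' hu hv hu' hv' h
      exact irr_decode hu hv hu' hv' h
  rw [← G_nil (r := r) z]
  refine (add_le_add le_rfl h1).trans (G_add ?_ ?_ ?_)
  · rintro w rfl
    refine ⟨0, by simp, ?_⟩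
    intro k h1 h2
    simp at h2; omega
  · rintro w ⟨u, v, rfl, ⟨s, _, hu⟩, ⟨t, hv⟩⟩
    exact ⟨s + t, hu.1.append hv⟩
  · rintro w v rfl ⟨u, v', rfl, ⟨s, hs, hu⟩, ⟨t, hv'⟩⟩ h
    have := congrFun (pos_eq_of_flow h) a
    rw [pos_append, Pi.add_apply, hu.1.1, hv'.1] at this
    simp only [pos_nil, Pi.zero_apply] at this
    omega

/-- **Lower bounds from irreducible bridges.** -/
theorem om_ge_of_irr (hr : 0 < r) (a : Fin r) {μ : ℝ}
    (h : 1 ≤ G (Irr a) (ENNReal.ofReal (1 / μ))) : μ ≤ om r := by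
  by_contra hlt
  rw [not_le] at hlt
  have h1 := G_true_lt_top hr hlt
  have h2 : G (BrA a) (ENNReal.ofReal (1 / μ)) < ∞ := (G_mono fun _ _ => trivial).trans_lt h1
  have h3 := renewal a (ENNReal.ofReal (1 / μ))
  have h4 : 1 + G (BrA a) (ENNReal.ofReal (1 / μ)) ≤ G (BrA a) (ENNReal.ofReal (1 / μ)) := by
    refine le_trans ?_ h3
    apply add_le_add le_rfl
    calc G (BrA a) (ENNReal.ofReal (1 / μ)) = 1 * G (BrA a) (ENNReal.ofReal (1 / μ)) :=
          (one_mul _).symm
      _ ≤ _ := mul_le_mul' h le_rfl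
  have h5 : G (BrA a) (ENNReal.ofReal (1 / μ)) < 1 + G (BrA a) (ENNReal.ofReal (1 / μ)) := by
    rw [add_comm]
    exact ENNReal.lt_add_right h2.ne one_ne_zero
  exact absurd h4 (not_le.2 h5)

end Pool.Agent.Helper524_FM
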