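import Pool.Agent.Helper524_FM.Euler
import Pool.Agent.Helper524_FM.Renew
import Pool.Agent.Helper524_FM.DP

/-!
# Flows of paths of the slab automaton
-/

set_option linter.unusedSectionVars false
set_option linter.unusedSimpArgs false

namespace Pool.Agent.Helper524_FM

open scoped Classical ENNReal
open DP

/-- lattice points of the plane -/
def pt (j y : ℤ) : Fin 2 → ℤ := ![j, y]

@[simp] theorem pt_zero (j y : ℤ) : pt j y 0 = j := rfl
@[simp] theorem pt_one (j y : ℤ) : pt j y 1 = y := rfl

theorem pt_inj {j y j' y' : ℤ} : pt j y = pt j' y' ↔ j = j' ∧ y = y' := by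
  constructor
  · intro h
    exact ⟨congrFun h 0, congrFun h 1⟩
  · rintro ⟨rfl, rfl⟩; rfl

theorem eq_pt (x : Fin 2 → ℤ) : x = pt (x 0) (x 1) := by
  ext i
  fin_cases i <;> rfl

theorem pt_add_h (j y : ℤ) : pt j y + stp ((0 : Fin 2), true) = pt (j + 1) y := by
  ext i
  fin_cases i
  · simp [stp, sgn, pt]
  · simp [stp, sgn, pt]

theorem pt_add_v (j y : ℤ) : pt j y + stp ((1 : Fin 2), true) = pt j (y + 1) := by
  ext i
  fin_cases i
  · simp [stp, sgn, pt]
  · simp [stp, sgn, pt]

theorem hi_h (j y : ℤ) : hi ((0 : Fin 2), pt j y) = pt (j + 1) y := pt_add_h j y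
theorem hi_v (j y : ℤ) : hi ((1 : Fin 2), pt j y) = pt j (y + 1) := pt_add_v j y

theorem f01 : (0 : Fin 2) ≠ 1 := by decide
theorem f10 : (1 : Fin 2) ≠ 0 := by decide

/-- the vertical flow coded by a digit -/
def co (n : ℕ) : ℤ := (n : ℤ) - 4

/-- the horizontal flows of a row -/
def hs : ℤ → List ℕ → List ℕ → ℕ → ℤ
  | c, _, _, 0 => c
  | c, v :: vs, w :: ws, n + 1 => hs (c + v - w) vs ws n
  | _, _, _, _ => 0

/-- the chain of a row -/
noncomputable def rowF (y : ℤ) : ℤ → ℤ → List ℕ → List ℕ → Ch 2
  | j, c, v :: vs, w :: ws =>
    Finsupp.single (0, pt j y) c + Finsupp.single (1, pt (j + 1) y) (co w) +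
      rowF y (j + 1) (c + v - w) vs ws
  | _, _, _, _ => 0

theorem rowF_supp {y : ℤ} {vs ws : List ℕ} (hl : vs.length = ws.length) (j c : ℤ)
    {e : Fin 2 × (Fin 2 → ℤ)} (h : rowF y j c vs ws e ≠ 0) :
    (∃ n : ℕ, n < ws.length ∧ e = (0, pt (j + n) y)) ∨
      (∃ n : ℕ, n < ws.length ∧ e = (1, pt (j + 1 + n) y)) := by
  induction vs generalizing ws j c with
  | nil =>
    cases ws with
    | nil => simp [rowF] at h
    | cons w ws => simp at hl
  | cons v vs ih =>
    cases ws with
    | nil => simp at hl
    | cons w ws =>
      simp only [rowF, Finsupp.add_apply] at h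
      by_cases h1 : (0, pt j y) = e
      · left
        exact ⟨0, by simp, by rw [← h1]; simp⟩
      by_cases h2 : (1, pt (j + 1) y) = e
      · right
        exact ⟨0, by simp, by rw [← h2]; simp⟩
      rw [Finsupp.single_apply, Finsupp.single_apply, if_neg h1, if_neg h2, zero_add,
        zero_add] at h
      rcases ih (by simpa using hl) _ _ h with ⟨n, hn, he⟩ | ⟨n, hn, he⟩
      · left
        refine ⟨n + 1, by simpa using hn, ?_⟩
        rw [he]; push_cast; congr 2; ring
      · right
        refine ⟨n + 1, by simpa using hn, ?_⟩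
        rw [he]; push_cast; congr 2; ring

theorem rowF_h {y : ℤ} {vs ws : List ℕ} (hl : vs.length = ws.length) (j c : ℤ) {n : ℕ}
    (hn : n < ws.length) : rowF y j c vs ws (0, pt (j + n) y) = hs c vs ws n := by
  induction vs generalizing ws j c n with
  | nil =>
    rw [← hl] at hn; simp at hn
  | cons v vs ih =>
    cases ws with
    | nil => simp at hn
    | cons w ws =>
      have hl' : vs.length = ws.length := by simpa using hl
      simp only [rowF, Finsupp.add_apply]
      have h2 : Finsupp.single ((1 : Fin 2), pt (j + 1) y) (co w) ((0 : Fin 2), pt (j + n) y) = 0 := by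
        rw [Finsupp.single_apply, if_neg]
        intro h; exact absurd (congrArg Prod.fst h) f10
      rw [h2, add_zero]
      cases n with
      | zero =>
        have h3 : rowF y (j + 1) (c + v - w) vs ws (0, pt (j + (0 : ℕ)) y) = 0 := by
          by_contra hne
          rcases rowF_supp hl' _ _ hne with ⟨m, _, he⟩ | ⟨m, _, he⟩
          · have := (pt_inj.1 (congrArg Prod.snd he)).1
            push_cast at this; omega
          · exact absurd (congrArg Prod.fst he) f01
        rw [h3, add_zero]
        simp [hs]
      | succ n =>
        rw [Finsupp.single_apply, if_neg]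
        · have := ih hl' (j + 1) (c + v - w) (n := n) (by simpa using hn)
          have e1 : j + ((n + 1 : ℕ) : ℤ) = j + 1 + n := by push_cast; ring
          rw [e1, this, zero_add]
          rfl
        · intro h
          have := (pt_inj.1 (congrArg Prod.snd h)).1
          push_cast at this; omega

theorem rowF_v {y : ℤ} {vs ws : List ℕ} (hl : vs.length = ws.length) (j c : ℤ) {n : ℕ}
    (hn : n < ws.length) : rowF y j c vs ws (1, pt (j + 1 + n) y) = co (gt ws n) := by
  induction vs generalizing ws j c n with
  | nil =>
    rw [← hl] at hn; simp at hn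
  | cons v vs ih =>
    cases ws with
    | nil => simp at hn
    | cons w ws =>
      have hl' : vs.length = ws.length := by simpa using hl
      simp only [rowF, Finsupp.add_apply]
      have h2 : Finsupp.single ((0 : Fin 2), pt j y) c ((1 : Fin 2), pt (j + 1 + n) y) = 0 := by
        rw [Finsupp.single_apply, if_neg]
        intro h; exact absurd (congrArg Prod.fst h) f01
      rw [h2, zero_add]
      cases n with
      | zero =>
        have h3 : rowF y (j + 1) (c + v - w) vs ws (1, pt (j + 1 + (0 : ℕ)) y) = 0 := by
          by_contra hne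
          rcases rowF_supp hl' _ _ hne with ⟨m, _, he⟩ | ⟨m, _, he⟩
          · exact absurd (congrArg Prod.fst he) f10
          · have := (pt_inj.1 (congrArg Prod.snd he)).1
            push_cast at this; omega
        rw [h3, add_zero]
        simp [gt]
      | succ n =>
        rw [Finsupp.single_apply, if_neg]
        · have := ih hl' (j + 1) (c + v - w) (n := n) (by simpa using hn)
          have e1 : j + 1 + ((n + 1 : ℕ) : ℤ) = j + 1 + 1 + n := by push_cast; ring
          rw [e1, this, zero_add]
          rfl
        · intro h
          have := (pt_inj.1 (congrArg Prod.snd h)).1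
          push_cast at this; omega

theorem scan_length (p q : ℕ) {vs ws : List ℕ} (hl : vs.length = ws.length) :
    (scan p q vs ws).length = ws.length := by
  induction vs generalizing ws p q with
  | nil =>
    cases ws with
    | nil => rfl
    | cons w ws => simp at hl
  | cons v vs ih =>
    cases ws with
    | nil => simp at hl
    | cons w ws =>
      simp only [scan, List.length_cons]
      rw [ih _ _ (by simpa using hl)]

theorem dst_eq (p q : ℕ) : dst p q = ((p : ℤ) - q).natAbs := by
  unfold dst; omega

theorem gt_scan (p q : ℕ) {vs ws : List ℕ} (hl : vs.length = ws.length) {n : ℕ}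
    (hn : n < ws.length) : gt (scan p q vs ws) n = (hs ((p : ℤ) - q) vs ws (n + 1)).natAbs := by
  induction vs generalizing ws p q n with
  | nil => rw [← hl] at hn; simp at hn
  | cons v vs ih =>
    cases ws with
    | nil => simp at hn
    | cons w ws =>
      have hl' : vs.length = ws.length := by simpa using hl
      cases n with
      | zero =>
        simp only [scan, gt, hs]
        rw [dst_eq]
        congr 1
        push_cast
        ring
      | succ n =>
        simp only [scan, gt]
        rw [ih _ _ hl' (by simpa using hn)]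
        have e1 : (((p + v : ℕ) : ℤ) - ((q + w : ℕ) : ℤ)) = (p : ℤ) - q + v - w := by
          push_cast; ring
        rw [e1]
        rfl

/-- divergence of vertical flows entering a row -/
noncomputable def Dl (y : ℤ) : ℤ → List ℕ → (Fin 2 → ℤ) → ℤ
  | _, [], _ => 0
  | j, v :: vs, q => (if q = pt (j + 1) y then co v else 0) + Dl y (j + 1) vs q

theorem dv_rowF {y : ℤ} {vs ws : List ℕ} (hl : vs.length = ws.length) (j c : ℤ)
    (q : Fin 2 → ℤ) : dv (rowF y j c vs ws) q =
      (if q = pt j y then c else 0) + Dl y j vs q - Dl (y + 1) j ws q -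
        (if q = pt (j + ws.length) y then c + lsum vs - lsum ws else 0) := by
  induction vs generalizing ws j c with
  | nil =>
    cases ws with
    | nil => simp [rowF, dv_zero, Dl, lsum]
    | cons w ws => simp at hl
  | cons v vs ih =>
    cases ws with
    | nil => simp at hl
    | cons w ws =>
      have hl' : vs.length = ws.length := by simpa using hl
      simp only [rowF]
      rw [dv_add, dv_add, dv_single, dv_single, ih hl', pt_add_h, pt_add_v]
      simp only [Dl, lsum, List.length_cons]
      have e1 : pt (j + ((ws.length + 1 : ℕ) : ℤ)) y = pt (j + 1 + ws.length) y := by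
        push_cast; congr 1; ring
      have e2 : (c + ((v + lsum vs : ℕ) : ℤ) - ((w + lsum ws : ℕ) : ℤ)) =
          c + v - w + lsum vs - lsum ws := by push_cast; ring
      simp only [e1, e2]
      by_cases h : q = pt (j + 1) y
      · simp only [h, if_true]
        have e3 : pt (j + 1) y ≠ pt (j + 1) (y + 1) := by
          intro h'; have := (pt_inj.1 h').2; omega
        simp only [if_neg e3]
        unfold co; ring
      · simp only [if_neg h]; ring

theorem Dl_offs (y j : ℤ) (n : ℕ) (q : Fin 2 → ℤ) : Dl y j (offs n) q = 0 := by
  induction n generalizing j with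
  | zero => rfl
  | succ n ih =>
    simp only [offs, Dl, ih, add_zero]
    split_ifs
    · rfl
    · rfl

theorem nm_rowF {y : ℤ} {cs vs ws : List ℕ} (hl : vs.length = ws.length)
    (hc : cs.length + 1 = ws.length) (j : ℤ) (p q : ℕ) :
    nm (rowF y j ((p : ℤ) - q) vs ws) ≤
      ((p : ℤ) - q).natAbs + sumc cs (scan p q vs ws) + vcost ws := by
  induction cs generalizing vs ws j p q with
  | nil =>
    rcases ws with _ | ⟨w, ws⟩
    · simp at hc
    rcases vs with _ | ⟨v, vs⟩
    · simp at hl
    have hws : ws = [] := by simpa using hc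
    subst hws
    have hvs : vs = [] := by simpa using hl
    subst hvs
    simp only [rowF, add_zero, sumc, vcost]
    refine (nm_add_le _ _).trans ?_
    rw [nm_single, nm_single, dst_eq]
    exact le_rfl
  | cons c cs ih =>
    rcases ws with _ | ⟨w, ws⟩
    · simp at hc
    rcases vs with _ | ⟨v, vs⟩
    · simp at hl
    simp only [rowF, scan, sumc, vcost]
    have h1 := ih (vs := vs) (ws := ws) (by simpa using hl) (by simpa using hc) (j + 1)
      (p + v) (q + w)
    have e1 : (((p + v : ℕ) : ℤ) - ((q + w : ℕ) : ℤ)) = (p : ℤ) - q + v - w := by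
      push_cast; ring
    rw [e1] at h1
    have e2 : dst (p + v) (q + w) = ((p : ℤ) - q + v - w).natAbs := by
      rw [dst_eq, e1]
    have e3 : dst w off = (co w).natAbs := by rw [dst_eq]; rfl
    refine (nm_add_le _ _).trans ?_
    have h2 := nm_add_le (Finsupp.single ((0 : Fin 2), pt j y) ((p : ℤ) - q))
      (Finsupp.single ((1 : Fin 2), pt (j + 1) y) (co w))
    rw [nm_single, nm_single] at h2
    rw [e2, e3]
    omega

end Pool.Agent.Helper524_FM
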