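import Pool.Agent.Helper524_FM.Path1

/-!
# Labels and connectivity
-/

set_option linter.unusedSectionVars false
set_option linter.unusedSimpArgs false

namespace Pool.Agent.Helper524_FM

open scoped Classical ENNReal
open DP

/-- a colouring respects labels -/
def Resp (N : List ℕ) (α : ℕ → Prop) : Prop :=
  ∀ m n, m < N.length → n < N.length → gt N m = gt N n → (α m ↔ α n)

theorem relab_length (x y : ℕ) (N : List ℕ) : (relab x y N).length = N.length := by
  induction N with
  | nil => rfl
  | cons n N ih => simp [relab, ih]

theorem gt_relab (x y : ℕ) (N : List ℕ) {n : ℕ} (h : n < N.length) :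
    gt (relab x y N) n = if gt N n = y then x else gt N n := by
  induction N generalizing n with
  | nil => simp at h
  | cons a N ih =>
    cases n with
    | zero =>
      simp only [relab, gt]
      by_cases h1 : a = y
      · simp [h1]
      · simp [h1]
    | succ n =>
      simp only [relab, gt]
      exact ih (by simpa using h)

theorem Resp.relab {N : List ℕ} {α : ℕ → Prop} (hN : Resp N α) {i j : ℕ} (hi : i < N.length)
    (hj : j < N.length) (h : α i ↔ α j) : Resp (relab (gt N i) (gt N j) N) α := by
  intro m n hm hn hmn
  rw [relab_length] at hm hn
  rw [gt_relab _ _ _ hm, gt_relab _ _ _ hn] at hmn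
  by_cases h1 : gt N m = gt N j
  · rw [if_pos h1] at hmn
    by_cases h2 : gt N n = gt N j
    · exact hN m n hm hn (h1.trans h2.symm)
    · rw [if_neg h2] at hmn
      rw [hN m j hm hj h1, ← h, hN i n hi hn hmn]
  · rw [if_neg h1] at hmn
    by_cases h2 : gt N n = gt N j
    · rw [if_pos h2] at hmn
      rw [hN n j hn hj h2, ← h, hN m i hm hi hmn]
    · rw [if_neg h2] at hmn
      exact hN m n hm hn hmn

theorem mergeAll_length (cs D : List ℕ) (j : ℕ) (N : List ℕ) :
    (mergeAll cs D j N).length = N.length := by
  induction cs generalizing D j N with
  | nil => cases D <;> rfl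
  | cons c cs ih =>
    cases D with
    | nil => rfl
    | cons d D =>
      simp only [mergeAll]
      split_ifs
      · exact ih _ _ _
      · rw [ih, relab_length]

theorem Resp.mergeAll {cs D : List ℕ} {j : ℕ} {N : List ℕ} {α : ℕ → Prop} (hN : Resp N α)
    (hlen : j + cs.length < N.length)
    (h : ∀ i, i < cs.length → i < D.length → gt D i ≠ 0 → (α (j + i) ↔ α (j + i + 1))) :
    Resp (mergeAll cs D j N) α := by
  induction cs generalizing D j N with
  | nil => cases D <;> exact hN
  | cons c cs ih =>
    cases D with
    | nil => exact hN
    | cons d D =>
      rw [List.length_cons] at hlen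
      have hstep : ∀ i, i < cs.length → i < D.length → gt D i ≠ 0 →
          (α (j + 1 + i) ↔ α (j + 1 + i + 1)) := by
        intro i h1 h2 h3
        have := h (i + 1) (by simpa using h1) (by simpa using h2) h3
        have e1 : j + (i + 1) = j + 1 + i := by ring
        rwa [e1] at this
      simp only [DP.mergeAll]
      split_ifs with hd
      · exact ih hN (by omega) hstep
      · refine ih (hN.relab (by omega) (by omega) ?_) ?_ hstep
        · have h0 := h 0 (by simp) (by simp)
          rw [Nat.beq_eq] at hd
          exact h0 hd
        · rw [relab_length]; omega

theorem init_length {vs ls : List ℕ} (hl : vs.length = ls.length) (j : ℕ) :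
    (init j vs ls).length = vs.length := by
  induction vs generalizing ls j with
  | nil => cases ls <;> rfl
  | cons v vs ih =>
    cases ls with
    | nil => simp at hl
    | cons l ls => simp [init, ih (by simpa using hl)]

theorem gt_init {vs ls : List ℕ} (hl : vs.length = ls.length) (j : ℕ) {n : ℕ}
    (hn : n < vs.length) : gt (init j vs ls) n = if gt vs n = off then j + n else gt ls n := by
  induction vs generalizing ls j n with
  | nil => simp at hn
  | cons v vs ih =>
    cases ls with
    | nil => simp at hl
    | cons l ls =>
      cases n with
      | zero =>
        simp only [init, gt, Nat.add_zero]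
        by_cases h : v = off
        · simp [h]
        · simp [h]
      | succ n =>
        have h1 := ih (ls := ls) (by simpa using hl) (j + 1) (n := n) (by simpa using hn)
        have e1 : j + 1 + n = j + (n + 1) := by ring
        rw [e1] at h1
        exact h1

theorem gt_mem {l : List ℕ} {n : ℕ} (h : n < l.length) : gt l n ∈ l := by
  induction l generalizing n with
  | nil => simp at h
  | cons a l ih =>
    cases n with
    | zero => simp [gt]
    | succ n => simp only [gt]; exact List.mem_cons_of_mem _ (ih (by simpa using h))

theorem list_ext_gt {l l' : List ℕ} (hl : l.length = l'.length)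
    (h : ∀ n, n < l.length → gt l n = gt l' n) : l = l' := by
  induction l generalizing l' with
  | nil => cases l' with
    | nil => rfl
    | cons _ _ => simp at hl
  | cons a l ih =>
    cases l' with
    | nil => simp at hl
    | cons b l' =>
      have h0 := h 0 (by simp)
      simp only [gt] at h0
      rw [h0, ih (by simpa using hl) (fun n hn => h (n + 1) (by simpa using hn))]

theorem Resp.init {vs ls : List ℕ} (hl : vs.length = ls.length) {α : ℕ → Prop}
    (hls : ∀ x ∈ ls, x < 10)
    (h : ∀ m n, m < vs.length → n < vs.length → gt vs m ≠ off → gt vs n ≠ off →
      gt ls m = gt ls n → (α m ↔ α n)) : Resp (init 100 vs ls) α := by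
  intro m n hm hn hmn
  rw [init_length hl] at hm hn
  rw [gt_init hl _ hm, gt_init hl _ hn] at hmn
  have h1 := hls _ (gt_mem (hl ▸ hm : m < ls.length))
  have h2 := hls _ (gt_mem (hl ▸ hn : n < ls.length))
  by_cases hvm : gt vs m = off
  · rw [if_pos hvm] at hmn
    by_cases hvn : gt vs n = off
    · rw [if_pos hvn] at hmn
      have : m = n := by omega
      rw [this]
    · rw [if_neg hvn] at hmn
      omega
  · rw [if_neg hvm] at hmn
    by_cases hvn : gt vs n = off
    · rw [if_pos hvn] at hmn
      omega
    · rw [if_neg hvn] at hmn
      exact h m n hm hn hvm hvn hmn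

theorem first_spec {m j : ℕ} {ws N : List ℕ} (h : first m j ws N ≠ 0) :
    ∃ k, k < ws.length ∧ k < N.length ∧ gt ws k ≠ off ∧ gt N k = m ∧ first m j ws N = j + k := by
  induction ws generalizing j N with
  | nil => exact absurd rfl h
  | cons w ws ih =>
    cases N with
    | nil => exact absurd rfl h
    | cons a N =>
      simp only [first] at h ⊢
      split_ifs at h ⊢ with h1 h2
      · obtain ⟨k, hk1, hk2, hk3, hk4, hk5⟩ := ih h
        exact ⟨k + 1, by simpa using hk1, by simpa using hk2, hk3, hk4, by rw [hk5]; ring⟩
      · rw [Nat.beq_eq] at h1 h2
        exact ⟨0, by simp, by simp, h1, h2, by simp⟩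
      · obtain ⟨k, hk1, hk2, hk3, hk4, hk5⟩ := ih h
        exact ⟨k + 1, by simpa using hk1, by simpa using hk2, hk3, hk4, by rw [hk5]; ring⟩

theorem first_ne {m j : ℕ} (hj : 1 ≤ j) {ws N : List ℕ} {k : ℕ} (hk1 : k < ws.length)
    (hk2 : k < N.length) (hk3 : gt ws k ≠ off) (hk4 : gt N k = m) : first m j ws N ≠ 0 := by
  induction ws generalizing j N k with
  | nil => simp at hk1
  | cons w ws ih =>
    cases N with
    | nil => simp at hk2
    | cons a N =>
      simp only [first]
      cases k with
      | zero =>
        simp only [gt] at hk3 hk4
        rw [if_neg (by rw [Nat.beq_eq]; exact hk3), if_pos (by rw [Nat.beq_eq]; exact hk4)]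
        omega
      | succ k =>
        simp only [gt] at hk3 hk4
        have h1 := ih (j := j + 1) (by omega) (N := N) (k := k) (by simpa using hk1)
          (by simpa using hk2) hk3 hk4
        split_ifs
        · exact h1
        · omega
        · exact h1

theorem gt_newl_aux (ws N : List ℕ) {ws' N' : List ℕ} (hl : ws'.length = N'.length) {n : ℕ}
    (hn : n < ws'.length) : gt (newl ws N ws' N') n =
      if gt ws' n = off then 0 else first (gt N' n) 1 ws N := by
  induction ws' generalizing N' n with
  | nil => simp at hn
  | cons w ws' ih =>
    cases N' with
    | nil => simp at hl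
    | cons a N' =>
      cases n with
      | zero =>
        simp only [newl, gt]
        by_cases h : w = off
        · simp [h]
        · simp [h]
      | succ n =>
        simp only [newl, gt]
        exact ih (by simpa using hl) (by simpa using hn)

theorem newl_length (ws N : List ℕ) {ws' N' : List ℕ} (hl : ws'.length = N'.length) :
    (newl ws N ws' N').length = ws'.length := by
  induction ws' generalizing N' with
  | nil => cases N' <;> rfl
  | cons w ws' ih =>
    cases N' with
    | nil => simp at hl
    | cons a N' => simp [newl, ih (by simpa using hl)]

/-- the meaning of `cover` -/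
theorem cover_spec {ws N : List ℕ} {d : ℕ} {vs D N' : List ℕ} (hD : D.length = vs.length)
    (hN : N'.length = vs.length) (h : cover ws N d vs D N' = true) {n : ℕ} (hn : n < vs.length)
    (hact : gt vs n ≠ off ∨ gt (d :: D) n ≠ 0) : first (gt N' n) 1 ws N ≠ 0 := by
  induction vs generalizing d D N' n with
  | nil => simp at hn
  | cons v vs ih =>
    cases D with
    | nil => simp at hD
    | cons d' D =>
      cases N' with
      | nil => simp at hN
      | cons m N' =>
        simp only [cover, Bool.and_eq_true] at h
        cases n with
        | zero =>
          simp only [gt] at hact ⊢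
          have h1 := h.1
          split_ifs at h1 with h2
          · simp only [Bool.and_eq_true, Nat.beq_eq] at h2
            rcases hact with h3 | h3
            · exact absurd h2.1 h3
            · exact absurd h2.2 h3
          · simp only [Bool.not_eq_true', ] at h1
            intro h0
            rw [h0] at h1
            exact absurd h1 (by decide)
        | succ n =>
          exact ih (by simpa using hD) (by simpa using hN) h.2 (by simpa using hn)
            (by simpa [gt] using hact)

theorem same_spec {n0 d : ℕ} {vs D N' : List ℕ} (hD : D.length = vs.length)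
    (hN : N'.length = vs.length) (h : same n0 d vs D N' = true) {n : ℕ} (hn : n < vs.length)
    (hact : gt vs n ≠ off ∨ gt (d :: D) n ≠ 0) : gt N' n = n0 := by
  induction vs generalizing d D N' n with
  | nil => simp at hn
  | cons v vs ih =>
    cases D with
    | nil => simp at hD
    | cons d' D =>
      cases N' with
      | nil => simp at hN
      | cons m N' =>
        simp only [same, Bool.and_eq_true] at h
        cases n with
        | zero =>
          simp only [gt] at hact ⊢
          have h1 := h.1
          split_ifs at h1 with h2
          · simp only [Bool.and_eq_true, Nat.beq_eq] at h2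
            rcases hact with h3 | h3
            · exact absurd h2.1 h3
            · exact absurd h2.2 h3
          · rwa [Nat.beq_eq] at h1
        | succ n =>
          exact ih (by simpa using hD) (by simpa using hN) h.2 (by simpa using hn)
            (by simpa [gt] using hact)

theorem anySame_spec {a : ℕ} {vs D N M : List ℕ} (h : anySame a vs D N M = true) :
    ∃ n, same n a vs D N = true := by
  induction M with
  | nil => simp [anySame] at h
  | cons n M ih =>
    simp only [anySame, Bool.or_eq_true] at h
    rcases h with h | h
    · exact ⟨n, h⟩
    · exact ih h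

end Pool.Agent.Helper524_FM
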