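import Pool.Agent.Helper524_FM.Path2

/-!
# Accepted paths of the slab automaton and their flows
-/

set_option linter.unusedSectionVars false
set_option linter.unusedSimpArgs false

namespace Pool.Agent.Helper524_FM

open scoped Classical ENNReal
open DP

/-- moves: start marker, end marker, upward flows -/
abbrev Mv : Type := ℕ × ℕ × List ℕ

/-- the chain of a path -/
noncomputable def pathF : List ℕ → ℤ → List Mv → Ch 2
  | _, _, [] => 0
  | v, y, m :: p => rowF y 0 m.1 v m.2.2 + pathF m.2.2 (y + 1) p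

/-- well-formed parameters -/
structure ParOk (P : SPar) : Prop where
  S1 : 1 ≤ P.S
  len : ∀ i j, ∀ ws ∈ P.vs i j, ws.length = P.S
  dig : ∀ i j, ∀ ws ∈ P.vs i j, ∀ x ∈ ws, x < 10
  nz : ∀ i j, ∀ ws ∈ P.vs i j, ∃ n, n < P.S ∧ gt ws n ≠ off
  S9 : P.S < 10

/-- well-formed states -/
structure Wf (P : SPar) (σ : SSt) : Prop where
  v : σ.v.length = P.S
  lb : σ.lb.length = P.S
  cs : σ.cs.length + 1 = P.S
  vd : ∀ x ∈ σ.v, x < 10
  lbd : ∀ x ∈ σ.lb, x < 10
  csd : ∀ x ∈ σ.cs, x < 10
  st : σ.st ≤ 1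
  en : σ.en ≤ 1

/-- inner rows -/
structure RowOk (P : SPar) (σ : SSt) (m : Mv) : Prop where
  st : σ.st + m.1 ≤ 1
  en : σ.en + m.2.1 ≤ 1
  mem : m.2.2 ∈ P.vs (σ.st + m.1) (σ.en + m.2.1)
  ok : okRow σ m.1 m.2.1 m.2.2 = true

/-- last rows -/
structure EndOk (P : SPar) (σ : SSt) (m : Mv) : Prop where
  ws : m.2.2 = offs P.S
  ok : okEnd σ m.1 m.2.1 m.2.2 = true

/-- the next state -/
def nx (σ : SSt) (m : Mv) : SSt := nxt σ m.1 m.2.1 m.2.2

/-- accepted paths -/
def Acc (P : SPar) : SSt → List Mv → Prop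
  | _, [] => False
  | σ, m :: p => (p = [] ∧ EndOk P σ m) ∨ (RowOk P σ m ∧ Acc P (nx σ m) p)

theorem offs_length (n : ℕ) : (offs n).length = n := by
  induction n with
  | zero => rfl
  | succ n ih => simp [offs, ih]

theorem gt_offs {n m : ℕ} (h : m < n) : gt (offs n) m = off := by
  induction n generalizing m with
  | zero => omega
  | succ n ih =>
    cases m with
    | zero => rfl
    | succ m => exact ih (by omega)

theorem EndOk.facts {P : SPar} {σ : SSt} {m : Mv} (h : EndOk P σ m) :
    m.1 + lsum σ.v = m.2.1 + lsum m.2.2 ∧ σ.st + m.1 = 1 ∧ σ.en + m.2.1 = 1 ∧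
      all2 (newc σ.cs (scan m.1 0 σ.v m.2.2)) = true ∧
      ∃ n, same n m.1 σ.v (scan m.1 0 σ.v m.2.2) (nodes σ m.1 m.2.2) = true := by
  have h1 := h.ok
  unfold okEnd at h1
  simp only [Bool.and_eq_true, Nat.beq_eq] at h1
  obtain ⟨⟨⟨⟨h1, h2⟩, h3⟩, h4⟩, h5⟩ := h1
  exact ⟨h1, h2, h3, h4, anySame_spec h5⟩

theorem RowOk.facts {P : SPar} {σ : SSt} {m : Mv} (h : RowOk P σ m) :
    m.1 + lsum σ.v = m.2.1 + lsum m.2.2 ∧
      cover m.2.2 (nodes σ m.1 m.2.2) m.1 σ.v (scan m.1 0 σ.v m.2.2) (nodes σ m.1 m.2.2) = true := by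
  have h1 := h.ok
  unfold okRow at h1
  simp only [Bool.and_eq_true, Nat.beq_eq] at h1
  exact h1

theorem first_le {m j : ℕ} {ws N : List ℕ} : first m j ws N = 0 ∨ first m j ws N < j + ws.length := by
  by_cases h : first m j ws N = 0
  · exact Or.inl h
  · right
    obtain ⟨k, hk, _, _, _, hk5⟩ := first_spec h
    omega

theorem newc_length {cs D : List ℕ} (h : cs.length ≤ D.length) : (newc cs D).length = cs.length := by
  induction cs generalizing D with
  | nil => cases D <;> rfl
  | cons c cs ih =>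
    cases D with
    | nil => simp at h
    | cons d D => simp [newc, ih (by simpa using h)]

theorem newc_le {cs D : List ℕ} : ∀ x ∈ newc cs D, x ≤ 2 := by
  induction cs generalizing D with
  | nil => intro x hx; cases D <;> simp [newc] at hx
  | cons c cs ih =>
    cases D with
    | nil => intro x hx; simp [newc] at hx
    | cons d D =>
      intro x hx
      simp only [newc, List.mem_cons] at hx
      rcases hx with rfl | hx
      · split_ifs with h
        · exact le_rfl
        · rw [Nat.ble_eq] at h; omega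
      · exact ih x hx

theorem nodes_length {P : SPar} {σ : SSt} (hσ : Wf P σ) (a : ℕ) (ws : List ℕ) :
    (nodes σ a ws).length = P.S := by
  unfold nodes
  rw [mergeAll_length, init_length (by rw [hσ.v, hσ.lb]), hσ.v]

theorem mem_gt {l : List ℕ} {x : ℕ} (h : x ∈ l) : ∃ n, n < l.length ∧ gt l n = x := by
  induction l with
  | nil => simp at h
  | cons a l ih =>
    simp only [List.mem_cons] at h
    rcases h with rfl | h
    · exact ⟨0, by simp, rfl⟩
    · obtain ⟨n, hn, hn2⟩ := ih h
      exact ⟨n + 1, by simpa using hn, hn2⟩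

theorem Wf.next {P : SPar} (hP : ParOk P) {σ : SSt} (hσ : Wf P σ) {m : Mv} (hm : RowOk P σ m) :
    Wf P (nx σ m) := by
  have hlen := hP.len _ _ _ hm.mem
  have hN := nodes_length hσ m.1 m.2.2
  have hnl : (newl m.2.2 (nodes σ m.1 m.2.2) m.2.2 (nodes σ m.1 m.2.2)).length = P.S := by
    rw [newl_length _ _ (by rw [hN, hlen]), hlen]
  have hcs : σ.cs.length ≤ (scan m.1 0 σ.v m.2.2).length := by
    rw [scan_length _ _ (by rw [hσ.v, hlen]), hlen]
    have := hσ.cs
    omega
  refine ⟨hlen, hnl, ?_, hP.dig _ _ _ hm.mem, ?_, ?_, hm.st, hm.en⟩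
  · show (newc σ.cs (scan m.1 0 σ.v m.2.2)).length + 1 = P.S
    rw [newc_length hcs]; exact hσ.cs
  · intro x hx
    obtain ⟨n, hn, rfl⟩ := mem_gt hx
    have hn' : n < m.2.2.length := by
      have h2 : n < P.S := by rw [← hnl]; exact hn
      rw [hlen]; exact h2
    show gt (newl m.2.2 (nodes σ m.1 m.2.2) m.2.2 (nodes σ m.1 m.2.2)) n < 10
    rw [gt_newl_aux _ _ (by rw [hN, hlen]) hn']
    split_ifs
    · norm_num
    · have h9 := hP.S9
      rcases first_le (m := gt (nodes σ m.1 m.2.2) n) (j := 1) (ws := m.2.2)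
        (N := nodes σ m.1 m.2.2) with h | h
      · omega
      · omega
  · intro x hx
    have := newc_le x hx
    omega

theorem pathF_supp {P : SPar} (hP : ParOk P) {σ : SSt} (hσ : Wf P σ) {p : List Mv}
    (hp : Acc P σ p) (y : ℤ) {e : Fin 2 × (Fin 2 → ℤ)} (h : pathF σ.v y p e ≠ 0) :
    ∃ k : ℕ, k < p.length ∧ e.2 1 = y + k ∧
      ((∃ n : ℕ, n < P.S ∧ e = (0, pt n (y + k))) ∨
        (∃ n : ℕ, n < P.S ∧ e = (1, pt (1 + n) (y + k)))) := by
  induction p generalizing σ y with
  | nil => exact absurd hp id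
  | cons m p ih =>
    simp only [pathF, Finsupp.add_apply] at h
    have hlen : m.2.2.length = P.S := by
      rcases hp with ⟨_, h1⟩ | ⟨h1, _⟩
      · rw [h1.ws, offs_length]
      · exact hP.len _ _ _ h1.mem
    by_cases h1 : rowF y 0 m.1 σ.v m.2.2 e = 0
    · rw [h1, zero_add] at h
      rcases hp with ⟨hp1, h2⟩ | ⟨h2, h3⟩
      · subst hp1; simp [pathF] at h
      · obtain ⟨k, hk1, hk2, hk3⟩ := ih (hσ.next hP h2) h3 (y + 1) h
        refine ⟨k + 1, by simpa using hk1, by rw [hk2]; push_cast; ring, ?_⟩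
        have e1 : y + ((k + 1 : ℕ) : ℤ) = y + 1 + k := by push_cast; ring
        rw [e1]
        exact hk3
    · rcases rowF_supp (by rw [hσ.v, hlen]) _ _ h1 with ⟨n, hn, he⟩ | ⟨n, hn, he⟩
      · refine ⟨0, by simp, by rw [he]; simp, Or.inl ⟨n, by rw [← hlen]; exact hn, ?_⟩⟩
        rw [he]; simp
      · refine ⟨0, by simp, by rw [he]; simp, Or.inr ⟨n, by rw [← hlen]; exact hn, ?_⟩⟩
        rw [he]; simp

/-- the values of a path chain in its first row -/
theorem pathF_first {P : SPar} (hP : ParOk P) {σ : SSt} (hσ : Wf P σ) {m : Mv} {p : List Mv}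
    (hp : Acc P σ (m :: p)) {y : ℤ} {e : Fin 2 × (Fin 2 → ℤ)} (he : e.2 1 = y) :
    pathF σ.v y (m :: p) e = rowF y 0 m.1 σ.v m.2.2 e := by
  simp only [pathF, Finsupp.add_apply]
  rcases hp with ⟨hp1, h2⟩ | ⟨h2, h3⟩
  · subst hp1; simp [pathF]
  · have : pathF m.2.2 (y + 1) p e = 0 := by
      by_contra hne
      obtain ⟨k, _, hk2, _⟩ := pathF_supp hP (hσ.next hP h2) h3 (y + 1) hne
      rw [he] at hk2
      omega
    rw [this, add_zero]

/-- the values of a path chain in the later rows -/
theorem pathF_later {v : List ℕ} {m : Mv} {p : List Mv} (hl : v.length = m.2.2.length)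
    {y : ℤ} {e : Fin 2 × (Fin 2 → ℤ)} (he : e.2 1 ≠ y) :
    pathF v y (m :: p) e = pathF m.2.2 (y + 1) p e := by
  simp only [pathF, Finsupp.add_apply]
  have : rowF y 0 m.1 v m.2.2 e = 0 := by
    by_contra hne
    rcases rowF_supp hl _ _ hne with ⟨n, _, h⟩ | ⟨n, _, h⟩
    · apply he; rw [h]; rfl
    · apply he; rw [h]; rfl
  rw [this, zero_add]

theorem Acc.length {P : SPar} (hP : ParOk P) {σ : SSt} {m : Mv} {p : List Mv}
    (hp : Acc P σ (m :: p)) : m.2.2.length = P.S := by
  rcases hp with ⟨_, h1⟩ | ⟨h1, _⟩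
  · rw [h1.ws, offs_length]
  · exact hP.len _ _ _ h1.mem

theorem Acc.sum {P : SPar} {σ : SSt} {m : Mv} {p : List Mv} (hp : Acc P σ (m :: p)) :
    m.1 + lsum σ.v = m.2.1 + lsum m.2.2 := by
  rcases hp with ⟨_, h1⟩ | ⟨h1, _⟩
  · exact h1.facts.1
  · exact h1.facts.1

/-- **Connectivity.** -/
theorem conn_path {P : SPar} (hP : ParOk P) {σ : SSt} (hσ : Wf P σ) {p : List Mv}
    (hp : Acc P σ p) (y : ℤ) (C : (Fin 2 → ℤ) → Prop)
    (hC : ∀ e, pathF σ.v y p e ≠ 0 → (C e.2 ↔ C (hi e)))
    (hR : ∀ m n, m < P.S → n < P.S → gt σ.v m ≠ off → gt σ.v n ≠ off →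
      gt σ.lb m = gt σ.lb n → (C (pt (m + 1) y) ↔ C (pt (n + 1) y))) :
    ∃ c : Prop, (∀ e, pathF σ.v y p e ≠ 0 → (C e.2 ↔ c)) ∧
      (∀ n, n < P.S → gt σ.v n ≠ off → (C (pt (n + 1) y) ↔ c)) := by
  induction p generalizing σ y with
  | nil => exact absurd hp id
  | cons m p ih =>
    have hlen := hp.length hP
    have hvl : σ.v.length = m.2.2.length := by rw [hσ.v, hlen]
    have hscl : (scan m.1 0 σ.v m.2.2).length = P.S := by rw [scan_length _ _ hvl, hlen]
    have hNl := nodes_length hσ m.1 m.2.2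
    set N := nodes σ m.1 m.2.2 with hN
    set α : ℕ → Prop := fun n => C (pt (n + 1) y) with hα
    -- horizontal edges
    have hH : ∀ n : ℕ, n < P.S → hs m.1 σ.v m.2.2 n ≠ 0 → (C (pt n y) ↔ α n) := by
      intro n hn h
      have h1 : pathF σ.v y (m :: p) (0, pt n y) ≠ 0 := by
        rw [pathF_first hP hσ hp (by rfl)]
        have := rowF_h (y := y) hvl 0 m.1 (n := n) (by rw [hlen]; exact hn)
        rw [zero_add] at this
        rw [this]; exact h
      have h2 := hC _ h1
      rw [hi_h] at h2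
      exact h2
    have hV : ∀ n : ℕ, n < P.S → gt m.2.2 n ≠ off → (α n ↔ C (pt (n + 1) (y + 1))) := by
      intro n hn h
      have h1 : pathF σ.v y (m :: p) (1, pt (n + 1) y) ≠ 0 := by
        rw [pathF_first hP hσ hp (by rfl)]
        have := rowF_v (y := y) hvl 0 m.1 (n := n) (by rw [hlen]; exact hn)
        have e1 : (0 : ℤ) + 1 + n = n + 1 := by ring
        rw [e1] at this
        rw [this]
        unfold co
        intro h0
        apply h
        unfold off
        omega
      have h2 := hC _ h1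
      rw [hi_v] at h2
      exact h2
    have hRN : Resp N α := by
      apply Resp.mergeAll
      · apply Resp.init (by rw [hσ.v, hσ.lb]) hσ.lbd
        intro i j hi hj h1 h2 h3
        rw [hσ.v] at hi hj
        exact hR i j hi hj h1 h2 h3
      · rw [init_length (by rw [hσ.v, hσ.lb]), hσ.v, zero_add]
        have := hσ.cs
        omega
      · intro i h1 h2 h3
        have hc := hσ.cs
        have h4 := gt_scan m.1 0 hvl (n := i) (by rw [hlen]; omega)
        rw [Nat.cast_zero, sub_zero] at h4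
        rw [h4] at h3
        have h5 : hs m.1 σ.v m.2.2 (i + 1) ≠ 0 := fun h => h3 (by rw [h]; rfl)
        have h6 := hH (i + 1) (by omega) h5
        simp only [zero_add]
        show C (pt (i + 1) y) ↔ α (i + 1)
        push_cast at h6
        exact h6
    -- left edges and active vertices
    have hleft : ∀ n : ℕ, n < P.S → hs m.1 σ.v m.2.2 n ≠ 0 →
        gt (m.1 :: scan m.1 0 σ.v m.2.2) n ≠ 0 := by
      intro n hn h
      cases n with
      | zero =>
        simp only [gt]
        intro h0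
        apply h
        unfold hs
        rw [h0]; rfl
      | succ n =>
        simp only [gt]
        have h4 := gt_scan m.1 0 hvl (n := n) (by rw [hlen]; omega)
        rw [Nat.cast_zero, sub_zero] at h4
        rw [h4]
        intro h0
        exact h (Int.natAbs_eq_zero.1 h0)
    -- classification of the edges of the row
    have hrow : ∀ (c : Prop), (∀ n, n < P.S → (gt σ.v n ≠ off ∨
        gt (m.1 :: scan m.1 0 σ.v m.2.2) n ≠ 0) → (α n ↔ c)) →
        (∀ n, n < P.S → gt m.2.2 n ≠ off → (α n ↔ c)) →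
        (∀ e, rowF y 0 m.1 σ.v m.2.2 e ≠ 0 → (C e.2 ↔ c)) := by
      intro c h1 h2 e he
      rcases rowF_supp hvl _ _ he with ⟨n, hn, h⟩ | ⟨n, hn, h⟩
      · subst h
        rw [hlen] at hn
        have h3 := rowF_h (y := y) hvl 0 m.1 (n := n) (by rw [hlen]; exact hn)
        rw [h3] at he
        have h4 := hH n hn he
        rw [zero_add]
        show C (pt n y) ↔ c
        rw [h4]
        exact h1 n hn (Or.inr (hleft n hn he))
      · subst h
        rw [hlen] at hn
        have h3 := rowF_v (y := y) hvl 0 m.1 (n := n) (by rw [hlen]; exact hn)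
        rw [h3] at he
        have h4 : gt m.2.2 n ≠ off := by
          intro h0
          apply he
          rw [h0]; rfl
        have e1 : (0 : ℤ) + 1 + n = n + 1 := by ring
        rw [e1]
        exact h2 n hn h4
    have hNget : nodes σ m.1 m.2.2 = N := rfl
    rcases hp with ⟨hp1, h2⟩ | ⟨h2, h3⟩
    · -- last row
      subst hp1
      obtain ⟨_, _, _, _, n0, hn0⟩ := h2.facts
      have hact : ∀ n, n < P.S → (gt σ.v n ≠ off ∨
          gt (m.1 :: scan m.1 0 σ.v m.2.2) n ≠ 0) → gt N n = n0 := by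
        intro n hn h
        exact same_spec (by rw [hscl, hσ.v]) (by rw [hNget, hNl, hσ.v]) hn0 (by rw [hσ.v]; exact hn) h
      refine ⟨∀ n, n < P.S → (gt σ.v n ≠ off ∨
          gt (m.1 :: scan m.1 0 σ.v m.2.2) n ≠ 0) → α n, ?_, ?_⟩
      · have hkey : ∀ n, n < P.S → (gt σ.v n ≠ off ∨
            gt (m.1 :: scan m.1 0 σ.v m.2.2) n ≠ 0) → (α n ↔ ∀ n, n < P.S → (gt σ.v n ≠ off ∨
            gt (m.1 :: scan m.1 0 σ.v m.2.2) n ≠ 0) → α n) := by
          intro n hn h
          constructor
          · intro h1 k hk h4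
            exact (hRN n k (by rw [hNl]; exact hn) (by rw [hNl]; exact hk)
              ((hact n hn h).trans (hact k hk h4).symm)).1 h1
          · intro h1; exact h1 n hn h
        intro e he
        have he' : rowF y 0 m.1 σ.v m.2.2 e ≠ 0 := by
          simpa [pathF] using he
        apply hrow _ hkey _ e he'
        intro n hn h
        exfalso
        apply h
        rw [h2.ws]; exact gt_offs hn
      · intro n hn h
        constructor
        · intro h1 k hk h4
          exact (hRN n k (by rw [hNl]; exact hn) (by rw [hNl]; exact hk)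
            ((hact n hn (Or.inl h)).trans (hact k hk h4).symm)).1 h1
        · intro h1; exact h1 n hn (Or.inl h)
    · -- inner row
      obtain ⟨_, hcov⟩ := h2.facts
      have hnz : ∀ e, pathF m.2.2 (y + 1) p e ≠ 0 → pathF σ.v y (m :: p) e ≠ 0 := by
        intro e he
        obtain ⟨k, _, hk2, _⟩ := pathF_supp hP (hσ.next hP h2) h3 (y + 1) he
        rw [pathF_later hvl (by rw [hk2]; omega)]
        exact he
      obtain ⟨c, hc1, hc2⟩ := ih (σ := nx σ m) (hσ.next hP h2) h3 (y + 1)
        (fun e he => hC e (hnz e he)) (by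
          intro i j hi hj h4 h5 h6
          have h4' : gt m.2.2 i ≠ off := h4
          have h5' : gt m.2.2 j ≠ off := h5
          have h6' : gt (newl m.2.2 N m.2.2 N) i = gt (newl m.2.2 N m.2.2 N) j := h6
          rw [gt_newl_aux _ _ (by rw [hNl, hlen]) (by rw [hlen]; exact hi), if_neg h4',
            gt_newl_aux _ _ (by rw [hNl, hlen]) (by rw [hlen]; exact hj), if_neg h5'] at h6'
          have h7 : first (gt N i) 1 m.2.2 N ≠ 0 :=
            first_ne le_rfl (k := i) (by rw [hlen]; exact hi) (by rw [hNl]; exact hi) h4' rfl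
          obtain ⟨k, hk1, hk2, hk3, hk4, hk5⟩ := first_spec h7
          have h8 : first (gt N j) 1 m.2.2 N ≠ 0 := by rw [← h6']; exact h7
          obtain ⟨k', hk1', hk2', hk3', hk4', hk5'⟩ := first_spec h8
          have hkk : k = k' := by omega
          subst hkk
          have h9 : α i ↔ α j := hRN i j (by rw [hNl]; exact hi) (by rw [hNl]; exact hj)
            (hk4.symm.trans hk4')
          rw [← hV i hi h4', ← hV j hj h5']
          exact h9)
      have hup : ∀ n, n < P.S → gt m.2.2 n ≠ off → (α n ↔ c) := by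
        intro n hn h
        rw [hV n hn h]
        exact hc2 n hn h
      have hact : ∀ n, n < P.S → (gt σ.v n ≠ off ∨
          gt (m.1 :: scan m.1 0 σ.v m.2.2) n ≠ 0) → (α n ↔ c) := by
        intro n hn h
        have h4 := cover_spec (by rw [hscl, hσ.v]) (by rw [hNget, hNl, hσ.v]) hcov
          (by rw [hσ.v]; exact hn) h
        obtain ⟨k, hk1, hk2, hk3, hk4, _⟩ := first_spec h4
        rw [hNget] at hk2 hk4
        rw [hlen] at hk1
        rw [hRN n k (by rw [hNl]; exact hn) hk2 hk4.symm]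
        exact hup k hk1 hk3
      refine ⟨c, ?_, ?_⟩
      · intro e he
        by_cases h4 : e.2 1 = y
        · rw [pathF_first hP hσ (Or.inr ⟨h2, h3⟩) h4] at he
          exact hrow c hact hup e he
        · rw [pathF_later hvl h4] at he
          exact hc1 e he
      · intro n hn h
        exact hact n hn (Or.inl h)

end Pool.Agent.Helper524_FM
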