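import Pool.Agent.Helper524_FM.Path3

/-!
# Accepted paths give irreducible bridges
-/

set_option linter.unusedSectionVars false
set_option linter.unusedSimpArgs false

namespace Pool.Agent.Helper524_FM

open scoped Classical ENNReal
open DP

theorem dv_path {P : SPar} (hP : ParOk P) {σ : SSt} (hσ : Wf P σ) {p : List Mv}
    (hp : Acc P σ p) (y : ℤ) :
    ∃ A B : (Fin 2 → ℤ) → ℤ,
      (∀ q, dv (pathF σ.v y p) q = Dl y 0 σ.v q + A q - B q) ∧
      (σ.st = 1 → ∀ q, A q = 0) ∧
      (σ.st = 0 → ∃ ys, ∀ q, A q = if q = pt 0 ys then 1 else 0) ∧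
      (σ.en = 1 → ∀ q, B q = 0) ∧
      (σ.en = 0 → ∃ ye, ∀ q, B q = if q = pt P.S ye then 1 else 0) := by
  induction p generalizing σ y with
  | nil => exact absurd hp id
  | cons m p ih =>
    have hlen := hp.length hP
    have hvl : σ.v.length = m.2.2.length := by rw [hσ.v, hlen]
    have hsum := hp.sum
    have hrow : ∀ q, dv (rowF y 0 m.1 σ.v m.2.2) q = (if q = pt 0 y then (m.1 : ℤ) else 0) +
        Dl y 0 σ.v q - Dl (y + 1) 0 m.2.2 q - (if q = pt P.S y then (m.2.1 : ℤ) else 0) := by
      intro q
      rw [dv_rowF hvl, hlen, zero_add]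
      have : (m.1 : ℤ) + lsum σ.v - lsum m.2.2 = m.2.1 := by
        have h := congrArg (Nat.cast : ℕ → ℤ) hsum
        push_cast at h
        linarith
      rw [this]
    rcases hp with ⟨hp1, h2⟩ | ⟨h2, h3⟩
    · subst hp1
      obtain ⟨_, hst, hen, _, _⟩ := h2.facts
      refine ⟨fun q => if q = pt 0 y then (m.1 : ℤ) else 0,
        fun q => if q = pt P.S y then (m.2.1 : ℤ) else 0, ?_, ?_, ?_, ?_, ?_⟩
      · intro q
        simp only [pathF, add_zero]
        rw [hrow, h2.ws, Dl_offs]; ring
      · intro h q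
        have : m.1 = 0 := by omega
        simp [this]
      · intro h
        have : m.1 = 1 := by omega
        exact ⟨y, fun q => by simp [this]⟩
      · intro h q
        have : m.2.1 = 0 := by omega
        simp [this]
      · intro h
        have : m.2.1 = 1 := by omega
        exact ⟨y, fun q => by simp [this]⟩
    · obtain ⟨A, B, hAB, hA1, hA0, hB1, hB0⟩ := ih (hσ.next hP h2) h3 (y + 1)
      have hst := h2.st
      have hen := h2.en
      refine ⟨fun q => (if q = pt 0 y then (m.1 : ℤ) else 0) + A q,
        fun q => (if q = pt P.S y then (m.2.1 : ℤ) else 0) + B q, ?_, ?_, ?_, ?_, ?_⟩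
      · intro q
        simp only [pathF]
        have h4 : dv (pathF m.2.2 (y + 1) p) q = Dl (y + 1) 0 m.2.2 q + A q - B q := hAB q
        rw [dv_add, hrow, h4]; ring
      · intro h q
        have h5 : m.1 = 0 := by omega
        have h6 : (nx σ m).st = 1 := by show σ.st + m.1 = 1; omega
        simp [h5, hA1 h6 q]
      · intro h
        rcases Nat.eq_zero_or_pos m.1 with h5 | h5
        · have h6 : (nx σ m).st = 0 := by show σ.st + m.1 = 0; omega
          obtain ⟨ys, hys⟩ := hA0 h6
          exact ⟨ys, fun q => by simp [h5, hys q]⟩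
        · have h5' : m.1 = 1 := by omega
          have h6 : (nx σ m).st = 1 := by show σ.st + m.1 = 1; omega
          exact ⟨y, fun q => by simp [h5', hA1 h6 q]⟩
      · intro h q
        have h5 : m.2.1 = 0 := by omega
        have h6 : (nx σ m).en = 1 := by show σ.en + m.2.1 = 1; omega
        simp [h5, hB1 h6 q]
      · intro h
        rcases Nat.eq_zero_or_pos m.2.1 with h5 | h5
        · have h6 : (nx σ m).en = 0 := by show σ.en + m.2.1 = 0; omega
          obtain ⟨ye, hye⟩ := hB0 h6
          exact ⟨ye, fun q => by simp [h5, hye q]⟩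
        · have h5' : m.2.1 = 1 := by omega
          have h6 : (nx σ m).en = 1 := by show σ.en + m.2.1 = 1; omega
          exact ⟨y, fun q => by simp [h5', hB1 h6 q]⟩

/-- total cost of a path -/
def costP : SSt → List Mv → ℕ
  | _, [] => 0
  | σ, m :: p => cost σ m.1 m.2.2 + costP (nx σ m) p

theorem nm_path {P : SPar} (hP : ParOk P) {σ : SSt} (hσ : Wf P σ) {p : List Mv}
    (hp : Acc P σ p) (y : ℤ) : nm (pathF σ.v y p) ≤ costP σ p := by
  induction p generalizing σ y with
  | nil => exact absurd hp id
  | cons m p ih =>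
    have hlen := hp.length hP
    have hvl : σ.v.length = m.2.2.length := by rw [hσ.v, hlen]
    have h1 := nm_rowF (y := y) (cs := σ.cs) hvl (by rw [hlen]; exact hσ.cs) 0 m.1 0
    rw [Nat.cast_zero, sub_zero, Int.natAbs_natCast] at h1
    simp only [pathF, costP]
    refine (nm_add_le _ _).trans (Nat.add_le_add h1 ?_)
    rcases hp with ⟨hp1, h2⟩ | ⟨h2, h3⟩
    · subst hp1; simp [pathF, nm_zero]
    · exact ih (hσ.next hP h2) h3 (y + 1)

theorem gt_newc {cs D : List ℕ} {i : ℕ} (h1 : i < cs.length) (h2 : i < D.length) :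
    gt (newc cs D) i = min 2 (gt cs i + gt D i) := by
  induction cs generalizing D i with
  | nil => simp at h1
  | cons c cs ih =>
    cases D with
    | nil => simp at h2
    | cons d D =>
      cases i with
      | zero =>
        simp only [newc, gt]
        split_ifs with h
        · rw [Nat.ble_eq] at h; omega
        · rw [Nat.ble_eq] at h; omega
      | succ i =>
        exact ih (by simpa using h1) (by simpa using h2)

theorem all2_spec {l : List ℕ} (h : all2 l = true) {i : ℕ} (hi : i < l.length) : 2 ≤ gt l i := by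
  induction l generalizing i with
  | nil => simp at hi
  | cons a l ih =>
    simp only [all2, Bool.and_eq_true, Nat.ble_eq] at h
    cases i with
    | zero => exact h.1
    | succ i => exact ih h.2 (by simpa using hi)

theorem cross_path {P : SPar} (hP : ParOk P) {σ : SSt} (hσ : Wf P σ) {p : List Mv}
    (hp : Acc P σ p) (y : ℤ) {i : ℕ} (hi : i + 1 < P.S) :
    2 ≤ gt σ.cs i + ∑ k ∈ Finset.range p.length,
      (pathF σ.v y p (0, pt (i + 1) (y + k))).natAbs := by
  induction p generalizing σ y with
  | nil => exact absurd hp id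
  | cons m p ih =>
    have hlen := hp.length hP
    have hvl : σ.v.length = m.2.2.length := by rw [hσ.v, hlen]
    have hcs := hσ.cs
    have hscl : (scan m.1 0 σ.v m.2.2).length = P.S := by rw [scan_length _ _ hvl, hlen]
    have hv0 : (pathF σ.v y (m :: p) (0, pt (i + 1) (y + (0 : ℕ)))).natAbs =
        gt (scan m.1 0 σ.v m.2.2) i := by
      rw [pathF_first hP hσ hp (by simp)]
      have h1 := rowF_h (y := y) hvl 0 m.1 (n := i + 1) (by rw [hlen]; exact hi)
      have h2 := gt_scan m.1 0 hvl (n := i) (by rw [hlen]; omega)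
      rw [Nat.cast_zero, sub_zero] at h2
      rw [h2, ← h1]
      push_cast
      simp
    have hnc := gt_newc (cs := σ.cs) (D := scan m.1 0 σ.v m.2.2) (i := i) (by omega)
      (by rw [hscl]; omega)
    rw [List.length_cons, Finset.sum_range_succ', hv0]
    rcases hp with ⟨hp1, h2⟩ | ⟨h2, h3⟩
    · obtain ⟨_, _, _, h4, _⟩ := h2.facts
      have h5 := all2_spec h4 (i := i) (by rw [newc_length (by rw [hscl]; omega)]; omega)
      rw [hnc] at h5
      omega
    · have h4 := ih (hσ.next hP h2) h3 (y + 1)
      have h5 : gt (nx σ m).cs i = min 2 (gt σ.cs i + gt (scan m.1 0 σ.v m.2.2) i) := hnc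
      rw [h5] at h4
      have h6 : ∑ k ∈ Finset.range p.length,
          (pathF σ.v y (m :: p) (0, pt (i + 1) (y + (k + 1 : ℕ)))).natAbs =
          ∑ k ∈ Finset.range p.length,
          (pathF (nx σ m).v (y + 1) p (0, pt (i + 1) (y + 1 + k))).natAbs := by
        apply Finset.sum_congr rfl
        intro k _
        rw [pathF_later hvl (by simp; omega)]
        have : y + ((k + 1 : ℕ) : ℤ) = y + 1 + k := by push_cast; ring
        rw [this]; rfl
      rw [h6]
      omega

theorem co_inj {m n : ℕ} (h : co m = co n) : m = n := by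
  unfold co at h; omega

/-- **Injectivity.** -/
theorem path_inj {P : SPar} (hP : ParOk P) {σ : SSt} (hσ : Wf P σ) {p p' : List Mv}
    (hp : Acc P σ p) (hp' : Acc P σ p') (y : ℤ) (h : pathF σ.v y p = pathF σ.v y p') :
    p = p' := by
  induction p generalizing σ y p' with
  | nil => exact absurd hp id
  | cons m p ih =>
    cases p' with
    | nil => exact absurd hp' id
    | cons m' p' =>
      have hlen := hp.length hP
      have hlen' := hp'.length hP
      have hvl : σ.v.length = m.2.2.length := by rw [hσ.v, hlen]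
      have hvl' : σ.v.length = m'.2.2.length := by rw [hσ.v, hlen']
      have hval : ∀ e : Fin 2 × (Fin 2 → ℤ), e.2 1 = y →
          rowF y 0 m.1 σ.v m.2.2 e = rowF y 0 m'.1 σ.v m'.2.2 e := by
        intro e he
        rw [← pathF_first hP hσ hp he, h, pathF_first hP hσ hp' he]
      have hws : m.2.2 = m'.2.2 := by
        apply list_ext_gt (by rw [hlen, hlen'])
        intro n hn
        have h1 := hval (1, pt (0 + 1 + n) y) rfl
        rw [rowF_v hvl 0 m.1 hn, rowF_v hvl' 0 m'.1 (by rw [hlen', ← hlen]; exact hn)] at h1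
        exact co_inj h1
      have ha : m.1 = m'.1 := by
        have hS := hP.S1
        have h1 := hval (0, pt (0 + (0 : ℕ)) y) rfl
        rw [rowF_h hvl 0 m.1 (by rw [hlen]; omega),
          rowF_h hvl' 0 m'.1 (by rw [hlen']; omega)] at h1
        simp only [hs] at h1
        exact_mod_cast h1
      have hb : m.2.1 = m'.2.1 := by
        have h1 := hp.sum
        have h2 := hp'.sum
        rw [hws, ha] at h1
        omega
      have hm : m = m' := by
        ext1
        · exact ha
        · ext1
          · exact hb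
          · exact hws
      subst hm
      congr 1
      rcases hp with ⟨hp1, h2⟩ | ⟨h2, h3⟩
      · rcases hp' with ⟨hp1', h2'⟩ | ⟨h2', h3'⟩
        · rw [hp1, hp1']
        · exfalso
          obtain ⟨n, hn, hne⟩ := hP.nz _ _ _ h2'.mem
          apply hne
          rw [h2.ws]; exact gt_offs hn
      · rcases hp' with ⟨hp1', h2'⟩ | ⟨h2', h3'⟩
        · exfalso
          obtain ⟨n, hn, hne⟩ := hP.nz _ _ _ h2.mem
          apply hne
          rw [h2'.ws]; exact gt_offs hn
        · simp only [pathF] at h
          exact ih (hσ.next hP h2) h3 h3' (y + 1) (add_left_cancel h)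

/-- the initial state -/
def σ0 (P : SPar) : SSt := ⟨offs P.S, List.replicate P.S 0, 0, 0, List.replicate (P.S - 1) 0⟩

theorem wf_σ0 {P : SPar} (hP : ParOk P) : Wf P (σ0 P) := by
  have hS := hP.S1
  refine ⟨offs_length _, by simp [σ0], by simp [σ0]; omega, ?_, ?_, ?_, by simp [σ0], by simp [σ0]⟩
  · intro x hx
    obtain ⟨n, hn, rfl⟩ := mem_gt hx
    have hn' : n < P.S := by rw [← offs_length P.S]; exact hn
    show gt (offs P.S) n < 10
    rw [gt_offs hn']; unfold off; norm_num
  · intro x hx
    have := List.eq_of_mem_replicate hx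
    omega
  · intro x hx
    have := List.eq_of_mem_replicate hx
    omega

theorem gt_replicate {n i : ℕ} : gt (List.replicate n 0) i = 0 := by
  induction n generalizing i with
  | zero => rfl
  | succ n ih =>
    cases i with
    | zero => rfl
    | succ i => exact ih

/-- the first row of an accepted path is not empty -/
theorem row0_ne {P : SPar} (hP : ParOk P) {p : List Mv} (hp : Acc P (σ0 P) p) (y : ℤ) :
    ∃ e : Fin 2 × (Fin 2 → ℤ), e.2 1 = y ∧ pathF (σ0 P).v y p e ≠ 0 := by
  have hσ := wf_σ0 hP
  cases p with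
  | nil => exact absurd hp id
  | cons m p =>
    have hlen := hp.length hP
    have hvl : (σ0 P).v.length = m.2.2.length := by rw [hσ.v, hlen]
    rcases hp with ⟨hp1, h2⟩ | ⟨h2, h3⟩
    · subst hp1
      obtain ⟨_, hst, _, _, _⟩ := h2.facts
      have hm : m.1 = 1 := by
        have : (σ0 P).st = 0 := rfl
        omega
      refine ⟨(0, pt (0 + (0 : ℕ)) y), rfl, ?_⟩
      rw [pathF_first hP hσ (Or.inl ⟨rfl, h2⟩) (by rfl),
        rowF_h hvl 0 m.1 (by rw [hlen]; exact hP.S1)]
      simp [hs, hm]
    · obtain ⟨n, hn, hne⟩ := hP.nz _ _ _ h2.mem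
      refine ⟨(1, pt (0 + 1 + n) y), rfl, ?_⟩
      rw [pathF_first hP hσ (Or.inr ⟨h2, h3⟩) (by rfl),
        rowF_v hvl 0 m.1 (by rw [hlen]; exact hn)]
      intro h0
      apply hne
      exact co_inj (h0.trans (by rfl : (0 : ℤ) = co off))

/-- **Realization** of accepted paths by irreducible bridges. -/
theorem realize {P : SPar} (hP : ParOk P) {p : List Mv} (hp : Acc P (σ0 P) p) :
    ∃ (w : List (Ltr (Fin 2))) (ys : ℤ), IrrS 0 P.S w ∧ w.length ≤ costP (σ0 P) p ∧
      flow (pt 0 ys) w = pathF (σ0 P).v 0 p := by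
  have hσ := wf_σ0 hP
  have hS := hP.S1
  set f := pathF (σ0 P).v 0 p with hf
  obtain ⟨A, B, hAB, _, hA0, _, hB0⟩ := dv_path hP hσ hp 0
  obtain ⟨ys, hys⟩ := hA0 rfl
  obtain ⟨ye, hye⟩ := hB0 rfl
  have hd : ∀ q, dv f q = (if q = pt 0 ys then 1 else 0) - (if q = pt P.S ye then 1 else 0) := by
    intro q
    rw [hAB, hys, hye]
    have : Dl 0 0 (σ0 P).v q = 0 := Dl_offs 0 0 P.S q
    rw [this]; ring
  have hsupp : ∀ e, f e ≠ 0 → (∃ n k : ℕ, n < P.S ∧ e = (0, pt n k)) ∨
      (∃ n k : ℕ, n < P.S ∧ e = (1, pt (1 + n) k)) := by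
    intro e he
    obtain ⟨k, _, _, h3⟩ := pathF_supp hP hσ hp 0 he
    rw [zero_add] at h3
    rcases h3 with ⟨n, hn, h⟩ | ⟨n, hn, h⟩
    · exact Or.inl ⟨n, k, hn, h⟩
    · exact Or.inr ⟨n, k, hn, h⟩
  -- vanishing of certain values
  have hz1 : ∀ j y : ℤ, j < 0 ∨ (P.S : ℤ) ≤ j → f (0, pt j y) = 0 := by
    intro j y hj
    by_contra hne
    rcases hsupp _ hne with ⟨n, k, hn, h⟩ | ⟨n, k, hn, h⟩
    · have := (pt_inj.1 (congrArg Prod.snd h)).1
      omega
    · exact f01 (congrArg Prod.fst h)
  have hz2 : ∀ y : ℤ, f (1, pt 0 y) = 0 := by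
    intro y
    by_contra hne
    rcases hsupp _ hne with ⟨n, k, hn, h⟩ | ⟨n, k, hn, h⟩
    · exact f10 (congrArg Prod.fst h)
    · have := (pt_inj.1 (congrArg Prod.snd h)).1
      omega
  have hsub_h : ∀ j y : ℤ, pt j y - stp ((0 : Fin 2), true) = pt (j - 1) y := by
    intro j y
    have := pt_add_h (j - 1) y
    rw [sub_add_cancel] at this
    rw [← this, add_sub_cancel_right]
  have hsub_v : ∀ j y : ℤ, pt j y - stp ((1 : Fin 2), true) = pt j (y - 1) := by
    intro j y
    have := pt_add_v j (y - 1)
    rw [sub_add_cancel] at this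
    rw [← this, add_sub_cancel_right]
  have hcol0 : ∀ y : ℤ, f (0, pt 0 y) = if y = ys then 1 else 0 := by
    intro y
    have h1 := hd (pt 0 y)
    unfold dv at h1
    rw [Fin.sum_univ_two, hsub_h, hsub_v, hz1 (0 - 1) y (Or.inl (by norm_num)), hz2, hz2] at h1
    have h2 : pt 0 y ≠ pt P.S ye := by
      intro h
      have := (pt_inj.1 h).1
      omega
    rw [if_neg h2] at h1
    by_cases h3 : y = ys
    · subst h3
      rw [if_pos rfl] at h1 ⊢
      linarith
    · rw [if_neg (fun h => h3 (pt_inj.1 h).2)] at h1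
      rw [if_neg h3]
      linarith
  have hconn : Conn f (pt 0 ys) := by
    intro C hs0 hcl e he
    obtain ⟨c, hc1, _⟩ := conn_path hP hσ hp 0 (fun x => x ∈ C) hcl (by
      intro m n hm _ h1
      exact absurd (gt_offs hm) h1)
    have h1 : f (0, pt 0 ys) ≠ 0 := by rw [hcol0, if_pos rfl]; norm_num
    have h2 := hc1 _ h1
    exact (hc1 e he).2 (h2.1 hs0)
  obtain ⟨w, hw1, hw2⟩ := euler hd hconn
  have hnmw : nm (flow (pt 0 ys) w) = w.length := by rw [hw1, hw2]
  -- the endpoint
  have hend : pt 0 ys + pos w = pt P.S ye := by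
    have h1 := dv_flow (pt 0 ys) w (pt P.S ye)
    have hne0 : pt P.S ye ≠ pt 0 ys := by
      intro h
      have := (pt_inj.1 h).1
      omega
    rw [hw1, hd, if_neg hne0, if_pos rfl] at h1
    by_contra hne
    rw [if_neg (fun h => hne h.symm)] at h1
    omega
  -- heights
  have hht : ∀ k, 1 ≤ k → k ≤ w.length → 1 ≤ pos (w.take k) 0 ∧ pos (w.take k) 0 ≤ P.S := by
    intro k hk
    induction k, hk using Nat.le_induction with
    | base =>
      intro hk
      rcases w with _ | ⟨l, w⟩
      · simp at hk
      simp only [List.take_succ_cons, List.take_zero, pos_cons, pos_nil, add_zero]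
      have h1 := follow (x := pt 0 ys) (u := []) (v := w) (l := l) hnmw
      rw [List.nil_append, hw1, pos_nil, add_zero] at h1
      rcases l with ⟨i, b⟩
      fin_cases i
      · cases b
        · exfalso
          simp only [low_false, stp_false, ← sub_eq_add_neg] at h1
          have h2 : pt 0 ys - stp ((0 : Fin 2), true) = pt (0 - 1) ys := hsub_h 0 ys
          simp only [Fin.zero_eta] at h1
          rw [h2, hz1 _ _ (Or.inl (by norm_num))] at h1
          simp at h1
        · simp [stp, sgn]; omega
      · exfalso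
        cases b
        · simp only [low_false, stp_false, ← sub_eq_add_neg, Fin.mk_one] at h1
          rw [hsub_v, hz2] at h1
          simp at h1
        · simp only [low_true, Fin.mk_one] at h1
          rw [hz2] at h1
          simp at h1
    | succ k hk ih =>
      intro hk2
      obtain ⟨ih1, ih2⟩ := ih (by omega)
      have hsplit : w = w.take k ++ w[k]'(by omega) :: w.drop (k + 1) := by
        rw [List.getElem_cons_drop, List.take_append_drop]
      have h1 := follow (x := pt 0 ys) (u := w.take k) (v := w.drop (k + 1)) (l := w[k]'(by omega))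
        (by rw [← hsplit]; exact hnmw)
      rw [← hsplit, hw1] at h1
      have h2 : w.take (k + 1) = w.take k ++ [w[k]'(by omega)] := by
        rw [List.take_succ_eq_append_getElem (by omega)]
      rw [h2, pos_append, Pi.add_apply]
      simp only [pos_cons, pos_nil, add_zero]
      set q := pt 0 ys + pos (w.take k) with hq
      have hq0 : q 0 = pos (w.take k) 0 := by rw [hq]; simp
      rw [← hq0] at ih1 ih2 ⊢
      have hqpt := eq_pt q
      set l := w[k]'(by omega) with hl
      clear_value l
      rcases l with ⟨i, b⟩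
      fin_cases i
      · cases b
        · simp only [low_false, stp_false, ← sub_eq_add_neg, Fin.zero_eta] at h1 ⊢
          rw [hqpt, hsub_h] at h1
          have h3 : q 0 - 1 ≠ 0 := by
            intro h0
            rw [h0, hcol0] at h1
            simp only [sgn, Bool.false_eq_true, if_false] at h1
            split_ifs at h1 <;> omega
          have h4 : stp ((0 : Fin 2), true) 0 = 1 := by simp [stp, sgn]
          rw [Pi.neg_apply, h4]
          omega
        · simp only [low_true, Fin.zero_eta] at h1 ⊢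
          have h4 : stp ((0 : Fin 2), true) 0 = 1 := by simp [stp, sgn]
          rw [h4]
          have h3 : ¬ ((P.S : ℤ) ≤ q 0) := by
            intro h0
            rw [hqpt, hz1 _ _ (Or.inr h0)] at h1
            simp at h1
          omega
      · have h4 : stp (((1 : Fin 2), b) : Ltr (Fin 2)) 0 = 0 := stp_level f01
        simp only [Fin.mk_one]
        rw [h4]
        omega
  refine ⟨w, ys, ⟨⟨?_, hht⟩, ?_⟩, ?_, hw1⟩
  · have := congrFun hend 0
    simpa using this
  · rintro j hj1 hj2 ⟨x, hx0, hx1, hx2⟩
    have hval : ∀ z : Fin 2 → ℤ, f (0, z) = flow 0 w (0, z - pt 0 ys) := by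
      intro z
      rw [← hw1, flow_apply_base]
    obtain ⟨i, hi⟩ : ∃ i : ℕ, j = i + 1 := ⟨(j - 1).toNat, by omega⟩
    have h1 := cross_path hP hσ hp 0 (i := i) (by omega)
    have h2 : gt (σ0 P).cs i = 0 := gt_replicate
    rw [h2, zero_add] at h1
    have h3 : ∀ k ∈ Finset.range p.length,
        (pathF (σ0 P).v 0 p (0, pt (i + 1) (0 + k))).natAbs ≤
          if (k : ℤ) = x 1 + ys then 1 else 0 := by
      intro k _
      rw [← hf, zero_add, hval]
      have h4 : pt (i + 1) k - pt 0 ys = pt (i + 1) (k - ys) := by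
        ext t; fin_cases t <;> simp [pt]
      rw [h4]
      by_cases h5 : pt (i + 1) (k - ys) = x
      · rw [h5, hx1]
        have h6 : (k : ℤ) - ys = x 1 := by rw [← h5]; rfl
        rw [if_pos (by linarith)]
        rfl
      · rw [hx2 _ (by rw [hi]; rfl) h5]
        simp
    have h4 := h1.trans (Finset.sum_le_sum h3)
    have h5 : ∑ k ∈ Finset.range p.length, (if (k : ℤ) = x 1 + ys then 1 else 0) ≤ 1 := by
      rw [← Finset.card_filter]
      apply Finset.card_le_one.2
      intro a ha b hb
      rw [Finset.mem_filter] at ha hb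
      have := ha.2.trans hb.2.symm
      exact_mod_cast this
    omega
  · rw [hw2]; exact nm_path hP hσ hp 0

end Pool.Agent.Helper524_FM
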