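import Pool.Agent.Helper524_FM.Path4

/-!
# Lower bounds for irreducible bridges from a certificate
-/

set_option linter.unusedSectionVars false
set_option linter.unusedSimpArgs false

namespace Pool.Agent.Helper524_FM

open scoped Classical ENNReal
open DP

/-- weight of a path -/
noncomputable def W (P : SPar) (z : ℝ≥0∞) (σ : SSt) (p : List Mv) : ℝ≥0∞ :=
  if Acc P σ p then z ^ costP σ p else 0

/-- total weight of the accepted paths -/
noncomputable def X (P : SPar) (z : ℝ≥0∞) (σ : SSt) : ℝ≥0∞ := ∑' p, W P z σ p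

theorem X_le_G {P : SPar} (hP : ParOk P) {z : ℝ≥0∞} (hz : z ≤ 1) :
    X P z (σ0 P) ≤ G (IrrS (0 : Fin 2) P.S) z := by
  have hex : ∀ p : Function.support (W P z (σ0 P)), Acc P (σ0 P) p.1 := by
    intro p
    have := p.2
    rw [Function.mem_support] at this
    by_contra hne
    apply this
    unfold W
    rw [if_neg hne]
  choose w ys hw1 hw2 hw3 using fun p : Function.support (W P z (σ0 P)) => realize hP (hex p)
  have hinj : Function.Injective (fun p => flow 0 (w p)) := by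
    have key : ∀ p p', flow 0 (w p) = flow 0 (w p') → ¬ ys p < ys p' := by
      intro p p' h hlt
      obtain ⟨e, he1, he2⟩ := row0_ne hP (hex p') 0
      rw [← hw3 p'] at he2
      have e1 : e = (e.1, e.2) := rfl
      rw [e1, flow_apply_base, ← h] at he2
      have h3 : flow (pt 0 (ys p)) (w p) (e.1, e.2 - pt 0 (ys p') + pt 0 (ys p)) ≠ 0 := by
        rw [flow_apply_base, add_sub_cancel_right]
        exact he2
      rw [hw3 p] at h3
      obtain ⟨k, _, hk2, _⟩ := pathF_supp hP (wf_σ0 hP) (hex p) 0 h3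
      simp only [Pi.add_apply, Pi.sub_apply, pt_one] at hk2
      rw [he1] at hk2
      omega
    intro p p' h
    have h1 := key p p' h
    have h2 := key p' p h.symm
    have h3 : ys p = ys p' := by omega
    apply Subtype.ext
    apply path_inj hP (wf_σ0 hP) (hex p) (hex p') 0
    rw [← hw3 p, ← hw3 p', h3]
    exact (flow_eq_iff _ _ _).2 h
  calc X P z (σ0 P) = ∑' p : Function.support (W P z (σ0 P)), W P z (σ0 P) p.1 :=
        (tsum_subtype_support _).symm
    _ ≤ ∑' p : Function.support (W P z (σ0 P)), wt (IrrS (0 : Fin 2) P.S) z (flow 0 (w p)) := by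
        refine ENNReal.tsum_le_tsum fun p => ?_
        unfold W
        rw [if_pos (hex p)]
        exact (pow_le_pow_right_of_le_one' hz (hw2 p)).trans (le_wt (hw1 p))
    _ ≤ G (IrrS (0 : Fin 2) P.S) z := ENNReal.tsum_comp_le_tsum_of_injective hinj _

theorem W_cons_row {P : SPar} {z : ℝ≥0∞} {σ : SSt} {m : Mv} (h : RowOk P σ m) (p : List Mv) :
    z ^ cost σ m.1 m.2.2 * W P z (nx σ m) p ≤ W P z σ (m :: p) := by
  unfold W
  by_cases h1 : Acc P (nx σ m) p
  · have h2 : Acc P σ (m :: p) := Or.inr ⟨h, h1⟩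
    rw [if_pos h1, if_pos h2]
    simp only [costP]
    rw [pow_add]
  · rw [if_neg h1, mul_zero]; exact bot_le

theorem W_end {P : SPar} {z : ℝ≥0∞} {σ : SSt} {m : Mv} (h : EndOk P σ m) :
    z ^ cost σ m.1 m.2.2 ≤ W P z σ [m] := by
  have h2 : Acc P σ [m] := Or.inl ⟨rfl, h⟩
  unfold W
  rw [if_pos h2]
  simp [costP]

/-- sum over a list -/
noncomputable def lS {β : Type} (f : β → ℝ≥0∞) : List β → ℝ≥0∞
  | [] => 0
  | a :: l => f a + lS f l

theorem lS_eq {β : Type} [DecidableEq β] (f : β → ℝ≥0∞) {l : List β} (h : l.Nodup) :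
    lS f l = ∑ a ∈ l.toFinset, f a := by
  induction l with
  | nil => simp [lS]
  | cons a l ih =>
    rw [List.nodup_cons] at h
    rw [List.toFinset_cons, Finset.sum_insert (by simpa using h.1), lS, ih h.2]

/-- contribution of the rows with given markers -/
noncomputable def T1 (P : SPar) (z : ℝ≥0∞) (σ : SSt) (a b : ℕ) : ℝ≥0∞ :=
  if σ.st + a ≤ 1 ∧ σ.en + b ≤ 1 then
    lS (fun ws => if okRow σ a b ws = true then z ^ cost σ a ws * X P z (nx σ (a, b, ws)) else 0)
      (P.vs (σ.st + a) (σ.en + b)) +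
    (if okEnd σ a b (offs P.S) = true then z ^ cost σ a (offs P.S) else 0)
  else 0

theorem T1_le {P : SPar} (hP : ParOk P) (hnd : ∀ i j, (P.vs i j).Nodup) (z : ℝ≥0∞) (σ : SSt)
    (a b : ℕ) : T1 P z σ a b ≤ ∑' ws, ∑' p, W P z σ ((a, b, ws) :: p) := by
  unfold T1
  by_cases h : σ.st + a ≤ 1 ∧ σ.en + b ≤ 1
  · rw [if_pos h]
    set K : List ℕ → ℝ≥0∞ := fun ws => ∑' p, W P z σ ((a, b, ws) :: p) with hK
    have hoff : offs P.S ∉ P.vs (σ.st + a) (σ.en + b) := by
      intro hmem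
      obtain ⟨n, hn, hne⟩ := hP.nz _ _ _ hmem
      exact hne (gt_offs hn)
    have h1 : lS (fun ws => if okRow σ a b ws = true then
        z ^ cost σ a ws * X P z (nx σ (a, b, ws)) else 0) (P.vs (σ.st + a) (σ.en + b)) ≤
        ∑ ws ∈ (P.vs (σ.st + a) (σ.en + b)).toFinset, K ws := by
      rw [lS_eq _ (hnd _ _)]
      refine Finset.sum_le_sum fun ws hws => ?_
      rw [List.mem_toFinset] at hws
      by_cases hok : okRow σ a b ws = true
      · rw [if_pos hok]
        have hr : RowOk P σ (a, b, ws) := ⟨h.1, h.2, hws, hok⟩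
        show z ^ cost σ a ws * ∑' p, W P z (nx σ (a, b, ws)) p ≤ ∑' p, W P z σ ((a, b, ws) :: p)
        rw [← ENNReal.tsum_mul_left]
        exact ENNReal.tsum_le_tsum fun p => W_cons_row hr p
      · rw [if_neg hok]; exact bot_le
    have h2 : (if okEnd σ a b (offs P.S) = true then z ^ cost σ a (offs P.S) else 0) ≤
        K (offs P.S) := by
      by_cases hok : okEnd σ a b (offs P.S) = true
      · rw [if_pos hok]
        have he : EndOk P σ (a, b, offs P.S) := ⟨rfl, hok⟩
        exact (W_end (z := z) he).trans (ENNReal.le_tsum (f := fun p =>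
          W P z σ ((a, b, offs P.S) :: p)) [])
      · rw [if_neg hok]; exact bot_le
    calc _ ≤ ∑ ws ∈ (P.vs (σ.st + a) (σ.en + b)).toFinset, K ws + K (offs P.S) :=
          add_le_add h1 h2
      _ = ∑ ws ∈ insert (offs P.S) (P.vs (σ.st + a) (σ.en + b)).toFinset, K ws := by
          rw [Finset.sum_insert (by simpa using hoff), add_comm]
      _ ≤ _ := ENNReal.sum_le_tsum _
  · rw [if_neg h]; exact bot_le

theorem T_le_X {P : SPar} (hP : ParOk P) (hnd : ∀ i j, (P.vs i j).Nodup) (z : ℝ≥0∞) (σ : SSt) :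
    T1 P z σ 0 0 + T1 P z σ 0 1 + T1 P z σ 1 0 + T1 P z σ 1 1 ≤ X P z σ := by
  have h1 : ∑' m : Mv, ∑' p, W P z σ (m :: p) ≤ X P z σ := by
    rw [← ENNReal.tsum_prod' (f := fun q : Mv × List Mv => W P z σ (q.1 :: q.2))]
    have hinj : Function.Injective (fun q : Mv × List Mv => q.1 :: q.2) := by
      rintro ⟨m, p⟩ ⟨m', p'⟩ h
      simp only [List.cons.injEq] at h
      exact Prod.ext h.1 h.2
    exact ENNReal.tsum_comp_le_tsum_of_injective hinj (W P z σ)
  refine le_trans ?_ h1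
  have h2 : ∑' m : Mv, ∑' p, W P z σ (m :: p) =
      ∑' q : ℕ × ℕ, ∑' ws : List ℕ, ∑' p, W P z σ ((q.1, q.2, ws) :: p) := by
    rw [ENNReal.tsum_prod' (f := fun m : Mv => ∑' p, W P z σ (m :: p)),
      ENNReal.tsum_prod' (f := fun q : ℕ × ℕ => ∑' ws : List ℕ, ∑' p, W P z σ ((q.1, q.2, ws) :: p))]
    congr 1
    funext a
    rw [ENNReal.tsum_prod' (f := fun q : ℕ × List ℕ => ∑' p, W P z σ ((a, q) :: p))]
  rw [h2]
  refine le_trans ?_ (ENNReal.sum_le_tsum ({(0, 0), (0, 1), (1, 0), (1, 1)} : Finset (ℕ × ℕ)))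
  rw [Finset.sum_insert (by decide), Finset.sum_insert (by decide), Finset.sum_insert (by decide),
    Finset.sum_singleton, ← add_assoc, ← add_assoc]
  exact add_le_add (add_le_add (add_le_add (T1_le hP hnd z σ 0 0) (T1_le hP hnd z σ 0 1))
    (T1_le hP hnd z σ 1 0)) (T1_le hP hnd z σ 1 1)

/-! ### codes -/

theorem decl_encl {l : List ℕ} (hl : ∀ x ∈ l, x < 10) (a : ℕ) (acc : List ℕ) :
    decl l.length (encl a l) acc = l ++ acc ∧ encl a l / 10 ^ l.length = a := by
  induction l using List.reverseRecOn generalizing acc with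
  | nil => simp [decl, encl]
  | append_singleton l x ih =>
    have hx : x < 10 := hl x (by simp)
    have ih' := ih (fun y hy => hl y (by simp [hy]))
    have e1 : encl a (l ++ [x]) = encl a l * 10 + x := by
      have : ∀ (l : List ℕ) (a : ℕ), encl a (l ++ [x]) = encl a l * 10 + x := by
        intro l
        induction l with
        | nil => intro a; simp [encl]
        | cons b l ih => intro a; simp [encl, ih]
      exact this l a
    rw [e1, List.length_append, List.length_singleton]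
    constructor
    · simp only [decl]
      have e2 : (encl a l * 10 + x) / 10 = encl a l := by omega
      have e3 : (encl a l * 10 + x) % 10 = x := by omega
      rw [e2, e3, (ih' (x :: acc)).1]
      simp
    · rw [pow_succ, mul_comm (10 ^ l.length), ← Nat.div_div_eq_div_mul]
      have e2 : (encl a l * 10 + x) / 10 = encl a l := by omega
      rw [e2]
      exact (ih' []).2

theorem dec_enc {P : SPar} {σ : SSt} (hσ : Wf P σ) : DP.dec P.S (DP.enc σ) = σ := by
  obtain ⟨v, lb, st, en, cs⟩ := σ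
  have hv : v.length = P.S := hσ.v
  have hlb : lb.length = P.S := hσ.lb
  have hcs : cs.length = P.S - 1 := by have : cs.length + 1 = P.S := hσ.cs; omega
  have hS : cs.length + 1 = P.S := hσ.cs
  have hst : st < 10 := by have : st ≤ 1 := hσ.st; omega
  have hen : en < 10 := by have : en ≤ 1 := hσ.en; omega
  set A1 := encl 0 v with hA1
  set A2 := encl (A1 * 10 + st) lb with hA2
  set A3 := A2 * 10 + en with hA3
  have hk : DP.enc ⟨v, lb, st, en, cs⟩ = encl A3 cs := rfl
  obtain ⟨c1, c2⟩ := decl_encl (l := cs) hσ.csd A3 []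
  obtain ⟨l1, l2⟩ := decl_encl (l := lb) hσ.lbd (A1 * 10 + st) []
  obtain ⟨v1, v2⟩ := decl_encl (l := v) hσ.vd 0 []
  rw [← hA2] at l1 l2
  rw [← hA1] at v1 v2
  have d1 : encl A3 cs / 10 ^ (P.S - 1) = A3 := by rw [← hcs]; exact c2
  have d2 : encl A3 cs / 10 ^ P.S = A2 := by
    have : 10 ^ P.S = 10 ^ (P.S - 1) * 10 := by rw [← pow_succ]; congr 1; omega
    rw [this, ← Nat.div_div_eq_div_mul, d1]; omega
  have d3 : encl A3 cs / 10 ^ (2 * P.S) = A1 * 10 + st := by
    rw [two_mul, pow_add, ← Nat.div_div_eq_div_mul, d2, ← hlb]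
    exact l2
  have d4 : encl A3 cs / 10 ^ (2 * P.S + 1) = A1 := by
    rw [pow_succ, ← Nat.div_div_eq_div_mul, d3]; omega
  unfold DP.dec
  rw [hk, d4, d2, d3, d1]
  congr 1
  · rw [← hv, v1]; simp
  · rw [← hlb, l1]; simp
  · omega
  · omega
  · rw [← hcs, c1]; simp

/-! ### certificates -/

/-- nodes of search trees -/
def _root_.Pool.Agent.Helper524_FM.DP.Tr.Mem : Tr → ℕ → ℕ → Prop
  | .leaf, _, _ => False
  | .node l k x r, n, t => (n = k ∧ t = x) ∨ l.Mem n t ∨ r.Mem n t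

theorem look_mem {T : Tr} {n : ℕ} (h : T.look n ≠ 0) : T.Mem n (T.look n) := by
  induction T with
  | leaf => exact absurd rfl h
  | node l k x r ihl ihr =>
    simp only [Tr.look] at h ⊢
    simp only [Tr.Mem]
    split_ifs at h ⊢ with h1 h2
    · left
      rw [Nat.beq_eq] at h1
      exact ⟨h1, rfl⟩
    · exact Or.inr (Or.inl (ihl h))
    · exact Or.inr (Or.inr (ihr h))

theorem chk_mem {P : SPar} {T T' : Tr} (h : chk P T T' = true) {n t : ℕ} (hm : T'.Mem n t) :
    chk1 P t (DP.tot P T (DP.dec P.S n)) = true := by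
  induction T' with
  | leaf => exact absurd hm id
  | node l k x r ihl ihr =>
    simp only [chk, Bool.and_eq_true] at h
    simp only [Tr.Mem] at hm
    rcases hm with ⟨rfl, rfl⟩ | hm | hm
    · exact h.1.2
    · exact ihl h.1.1 hm
    · exact ihr h.2 hm

/-- first component of the certificate -/
def xh (T : Tr) (σ : SSt) : ℕ := T.look (DP.enc σ) % 2 ^ 64
/-- second component of the certificate -/
def yh (T : Tr) (σ : SSt) : ℕ := T.look (DP.enc σ) / 2 ^ 64

/-- list sums of natural numbers -/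
def nS {β : Type} (f : β → ℕ) : List β → ℕ
  | [] => 0
  | a :: l => f a + nS f l

/-- the `x` part -/
def tx (P : SPar) (T : Tr) (σ : SSt) (a b : ℕ) : ℕ :=
  if σ.st + a ≤ 1 ∧ σ.en + b ≤ 1 then
    nS (fun ws => if okRow σ a b ws = true then P.zl (cost σ a ws) * xh T (nx σ (a, b, ws)) else 0)
      (P.vs (σ.st + a) (σ.en + b)) +
    (if okEnd σ a b (offs P.S) = true then P.zl (cost σ a (offs P.S)) * P.sc else 0)
  else 0

/-- the `y` part -/
def ty (P : SPar) (T : Tr) (σ : SSt) (a b : ℕ) : ℕ :=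
  if σ.st + a ≤ 1 ∧ σ.en + b ≤ 1 then
    nS (fun ws => if okRow σ a b ws = true then
      (P.zl (cost σ a ws) + 1) * yh T (nx σ (a, b, ws)) else 0) (P.vs (σ.st + a) (σ.en + b))
  else 0

theorem sumW_eq (P : SPar) (T : Tr) (σ : SSt) (a b : ℕ) (L : List (List ℕ)) :
    sumW P T σ a b L =
      nS (fun ws => if okRow σ a b ws = true then P.zl (cost σ a ws) * xh T (nx σ (a, b, ws))
        else 0) L +
      nS (fun ws => if okRow σ a b ws = true then
        (P.zl (cost σ a ws) + 1) * yh T (nx σ (a, b, ws)) else 0) L * 2 ^ 128 := by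
  induction L with
  | nil => simp only [sumW, nS, zero_mul, add_zero]
  | cons ws L ih =>
    simp only [sumW, nS]
    rw [ih]
    by_cases h : okRow σ a b ws = true
    · simp only [h, if_true]
      unfold pk xh yh nx
      ring
    · simp only [h]
      simp

theorem tot1_eq (P : SPar) (T : Tr) (σ : SSt) (a b : ℕ) :
    tot1 P T σ a b = tx P T σ a b + ty P T σ a b * 2 ^ 128 := by
  unfold tot1 tx ty
  by_cases h : σ.st + a ≤ 1 ∧ σ.en + b ≤ 1
  · have h' : (Nat.ble (σ.st + a) 1 && Nat.ble (σ.en + b) 1) = true := by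
      simp only [Bool.and_eq_true, Nat.ble_eq]; exact h
    rw [if_pos h, if_pos h, if_pos h', sumW_eq]
    unfold endW
    ring
  · have h' : ¬ ((Nat.ble (σ.st + a) 1 && Nat.ble (σ.en + b) 1) = true) := by
      simp only [Bool.and_eq_true, Nat.ble_eq]; exact h
    rw [if_neg h, if_neg h, if_neg h', zero_mul, add_zero]

theorem cert_ineq {P : SPar} {T : Tr} (hc : chk P T T = true) {σ : SSt} (hσ : Wf P σ)
    (h : T.look (DP.enc σ) ≠ 0) :
    P.sc * xh T σ ≤ tx P T σ 0 0 + tx P T σ 0 1 + tx P T σ 1 0 + tx P T σ 1 1 ∧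
      1000 * (ty P T σ 0 0 + ty P T σ 0 1 + ty P T σ 1 0 + ty P T σ 1 1) ≤
        999 * P.sc * yh T σ ∧ xh T σ ≤ yh T σ := by
  have h1 := chk_mem hc (look_mem h)
  rw [dec_enc hσ] at h1
  unfold chk1 at h1
  simp only [Bool.and_eq_true, Nat.ble_eq] at h1
  obtain ⟨⟨h1, h2⟩, h3⟩ := h1
  have h4 : DP.tot P T σ = (tx P T σ 0 0 + tx P T σ 0 1 + tx P T σ 1 0 + tx P T σ 1 1) +
      (ty P T σ 0 0 + ty P T σ 0 1 + ty P T σ 1 0 + ty P T σ 1 1) * 2 ^ 128 := by
    unfold DP.tot
    rw [tot1_eq, tot1_eq, tot1_eq, tot1_eq]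
    ring
  rw [h4] at h1 h2
  refine ⟨?_, ?_, h3⟩
  · refine h1.trans ?_
    rw [Nat.add_mul_mod_self_right]
    exact Nat.mod_le _ _
  · refine le_trans ?_ h2
    apply Nat.mul_le_mul_left
    rw [Nat.add_mul_div_right _ _ (by positivity)]
    exact Nat.le_add_left _ _

theorem zl_le {P : SPar} (hden : 0 < P.den) (n : ℕ) :
    (P.zl n : ℝ≥0∞) ≤ P.sc * ((P.num : ℝ≥0∞) / P.den) ^ n := by
  have h1 : P.zl n * P.den ^ n ≤ P.sc * P.num ^ n := Nat.div_mul_le_self _ _
  have h2 : (P.zl n : ℝ≥0∞) * (P.den : ℝ≥0∞) ^ n ≤ P.sc * (P.num : ℝ≥0∞) ^ n := by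
    exact_mod_cast h1
  have hd0 : ((P.den : ℝ≥0∞) ^ n) ≠ 0 := by
    apply pow_ne_zero
    exact_mod_cast hden.ne'
  have hdt : ((P.den : ℝ≥0∞) ^ n) ≠ ∞ := ENNReal.pow_ne_top (ENNReal.natCast_ne_top _)
  have e1 : (P.sc : ℝ≥0∞) * ((P.num : ℝ≥0∞) / P.den) ^ n =
      (P.sc * (P.num : ℝ≥0∞) ^ n) / (P.den : ℝ≥0∞) ^ n := by
    rw [div_eq_mul_inv, div_eq_mul_inv, mul_pow, ENNReal.inv_pow, mul_assoc]
  rw [e1, ENNReal.le_div_iff_mul_le (Or.inl hd0) (Or.inl hdt)]
  exact h2

theorem lS_mono {β : Type} {f g : β → ℝ≥0∞} {l : List β} (h : ∀ a ∈ l, f a ≤ g a) :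
    lS f l ≤ lS g l := by
  induction l with
  | nil => exact le_rfl
  | cons a l ih =>
    exact add_le_add (h a (by simp)) (ih fun b hb => h b (by simp [hb]))

theorem lS_cast {β : Type} (f : β → ℕ) (l : List β) :
    ((nS f l : ℕ) : ℝ≥0∞) = lS (fun a => (f a : ℝ≥0∞)) l := by
  induction l with
  | nil => simp [nS, lS]
  | cons a l ih => simp only [nS, lS]; push_cast; rw [ih]

theorem lS_add {β : Type} (f g : β → ℝ≥0∞) (l : List β) :
    lS (fun a => f a + g a) l = lS f l + lS g l := by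
  induction l with
  | nil => simp [lS]
  | cons a l ih => simp only [lS]; rw [ih]; ring

theorem lS_mul {β : Type} (f : β → ℝ≥0∞) (c : ℝ≥0∞) (l : List β) :
    lS (fun a => c * f a) l = c * lS f l := by
  induction l with
  | nil => simp [lS]
  | cons a l ih => simp only [lS]; rw [ih]; ring

/-- one marker pair -/
theorem tx_le {P : SPar} (hden : 0 < P.den) (T : Tr) (σ : SSt) (a b : ℕ) (ρ : ℝ≥0∞)
    (ih : ∀ ws ∈ P.vs (σ.st + a) (σ.en + b), okRow σ a b ws = true →
      σ.st + a ≤ 1 → σ.en + b ≤ 1 →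
      (xh T (nx σ (a, b, ws)) : ℝ≥0∞) ≤
        P.sc * X P ((P.num : ℝ≥0∞) / P.den) (nx σ (a, b, ws)) + ρ * yh T (nx σ (a, b, ws))) :
    (tx P T σ a b : ℝ≥0∞) ≤ P.sc * (P.sc * T1 P ((P.num : ℝ≥0∞) / P.den) σ a b) +
      ρ * ty P T σ a b := by
  unfold tx ty T1
  by_cases h : σ.st + a ≤ 1 ∧ σ.en + b ≤ 1
  · rw [if_pos h, if_pos h, if_pos h]
    set z : ℝ≥0∞ := (P.num : ℝ≥0∞) / P.den with hz
    push_cast
    rw [lS_cast, lS_cast, mul_add, mul_add, ← lS_mul, ← lS_mul, ← lS_mul, add_right_comm, ← lS_add]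
    apply add_le_add
    · apply lS_mono
      intro ws hws
      by_cases hok : okRow σ a b ws = true
      · simp only [hok, if_true]
        push_cast
        have h1 := ih ws hws hok h.1 h.2
        have h2 := zl_le (P := P) hden (cost σ a ws)
        rw [← hz] at h2
        calc (P.zl (cost σ a ws) : ℝ≥0∞) * xh T (nx σ (a, b, ws))
            ≤ P.zl (cost σ a ws) * (P.sc * X P z (nx σ (a, b, ws)) +
                ρ * yh T (nx σ (a, b, ws))) := mul_le_mul' le_rfl h1
          _ = P.zl (cost σ a ws) * (P.sc * X P z (nx σ (a, b, ws))) +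
                ρ * (P.zl (cost σ a ws) * yh T (nx σ (a, b, ws))) := by ring
          _ ≤ P.sc * z ^ cost σ a ws * (P.sc * X P z (nx σ (a, b, ws))) +
                ρ * ((P.zl (cost σ a ws) + 1) * yh T (nx σ (a, b, ws))) := by
              apply add_le_add
              · exact mul_le_mul' h2 le_rfl
              · apply mul_le_mul' le_rfl
                exact mul_le_mul' le_self_add le_rfl
          _ = _ := by ring
      · simp [hok]
    · by_cases hok : okEnd σ a b (offs P.S) = true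
      · simp only [hok, if_true]
        push_cast
        have h2 := zl_le (P := P) hden (cost σ a (offs P.S))
        rw [← hz] at h2
        calc (P.zl (cost σ a (offs P.S)) : ℝ≥0∞) * P.sc
            ≤ P.sc * z ^ cost σ a (offs P.S) * P.sc := mul_le_mul' h2 le_rfl
          _ = _ := by ring
      · simp [hok]
  · rw [if_neg h]
    simp

/-- **Certificates.** -/
theorem cert {P : SPar} (hP : ParOk P) (hnd : ∀ i j, (P.vs i j).Nodup) (hden : 0 < P.den)
    (hsc : 0 < P.sc) {T : Tr} (hc : chk P T T = true) (k : ℕ) {σ : SSt} (hσ : Wf P σ) :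
    (xh T σ : ℝ≥0∞) ≤ P.sc * X P ((P.num : ℝ≥0∞) / P.den) σ +
      ((999 : ℝ≥0∞) / 1000) ^ k * yh T σ := by
  set z : ℝ≥0∞ := (P.num : ℝ≥0∞) / P.den with hz
  induction k generalizing σ with
  | zero =>
    rw [pow_zero, one_mul]
    refine le_trans ?_ le_add_self
    by_cases h : T.look (DP.enc σ) = 0
    · unfold xh; rw [h]; simp
    · exact_mod_cast (cert_ineq hc hσ h).2.2
  | succ k ih =>
    by_cases h : T.look (DP.enc σ) = 0
    · have : xh T σ = 0 := by unfold xh; rw [h]; rfl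
      rw [this]; simp
    obtain ⟨h1, h2, _⟩ := cert_ineq hc hσ h
    set ρ : ℝ≥0∞ := ((999 : ℝ≥0∞) / 1000) ^ k with hρ
    have key : ∀ a b, (tx P T σ a b : ℝ≥0∞) ≤ P.sc * (P.sc * T1 P z σ a b) +
        ρ * ty P T σ a b := by
      intro a b
      apply tx_le hden
      intro ws hws hok ha hb
      exact ih (hσ.next hP ⟨ha, hb, hws, hok⟩)
    have hX := T_le_X hP hnd z σ
    have h3 : (P.sc : ℝ≥0∞) * xh T σ ≤ P.sc * (P.sc * X P z σ + ρ * ((999 : ℝ≥0∞) / 1000) * yh T σ) := by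
      calc (P.sc : ℝ≥0∞) * xh T σ ≤
            (tx P T σ 0 0 + tx P T σ 0 1 + tx P T σ 1 0 + tx P T σ 1 1 : ℝ≥0∞) := by
            exact_mod_cast h1
        _ ≤ (P.sc * (P.sc * T1 P z σ 0 0) + ρ * ty P T σ 0 0) +
            (P.sc * (P.sc * T1 P z σ 0 1) + ρ * ty P T σ 0 1) +
            (P.sc * (P.sc * T1 P z σ 1 0) + ρ * ty P T σ 1 0) +
            (P.sc * (P.sc * T1 P z σ 1 1) + ρ * ty P T σ 1 1) :=
            add_le_add (add_le_add (add_le_add (key 0 0) (key 0 1)) (key 1 0)) (key 1 1)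
        _ = P.sc * (P.sc * (T1 P z σ 0 0 + T1 P z σ 0 1 + T1 P z σ 1 0 + T1 P z σ 1 1)) +
            ρ * (ty P T σ 0 0 + ty P T σ 0 1 + ty P T σ 1 0 + ty P T σ 1 1) := by ring
        _ ≤ P.sc * (P.sc * X P z σ) + ρ * (P.sc * ((999 : ℝ≥0∞) / 1000 * yh T σ)) := by
            apply add_le_add
            · exact mul_le_mul' le_rfl (mul_le_mul' le_rfl hX)
            · apply mul_le_mul' le_rfl
              have h4 : (1000 : ℝ≥0∞) * (ty P T σ 0 0 + ty P T σ 0 1 + ty P T σ 1 0 + ty P T σ 1 1) ≤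
                  999 * P.sc * yh T σ := by exact_mod_cast h2
              have h5 : (P.sc : ℝ≥0∞) * ((999 : ℝ≥0∞) / 1000 * yh T σ) =
                  (999 * P.sc * yh T σ) / 1000 := by
                rw [ENNReal.div_eq_inv_mul, ENNReal.div_eq_inv_mul]; ring
              rw [h5, ENNReal.le_div_iff_mul_le (Or.inl (by norm_num)) (Or.inl (by norm_num)),
                mul_comm]
              exact h4
        _ = _ := by ring
    have h6 : (P.sc : ℝ≥0∞) ≠ 0 := by exact_mod_cast hsc.ne'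
    have h7 := (ENNReal.mul_le_mul_iff_right h6 (ENNReal.natCast_ne_top _)).1 h3
    rw [pow_succ]
    exact h7

theorem cert' {P : SPar} (hP : ParOk P) (hnd : ∀ i j, (P.vs i j).Nodup) (hden : 0 < P.den)
    (hnum : P.num ≤ P.den) (hsc : 0 < P.sc) {T : Tr} (hc : chk P T T = true) :
    (xh T (σ0 P) : ℝ≥0∞) ≤ P.sc * G (IrrS (0 : Fin 2) P.S) ((P.num : ℝ≥0∞) / P.den) := by
  have h1 : ∀ k, (xh T (σ0 P) : ℝ≥0∞) ≤ P.sc * X P ((P.num : ℝ≥0∞) / P.den) (σ0 P) +
      ((999 : ℝ≥0∞) / 1000) ^ k * yh T (σ0 P) := fun k => cert hP hnd hden hsc hc k (wf_σ0 hP)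
  have hlt : ((999 : ℝ≥0∞) / 1000) < 1 := by
    rw [ENNReal.div_lt_iff (Or.inl (by norm_num)) (Or.inl (by norm_num)), one_mul]
    norm_num
  have h2 : Filter.Tendsto (fun k : ℕ => P.sc * X P ((P.num : ℝ≥0∞) / P.den) (σ0 P) +
      ((999 : ℝ≥0∞) / 1000) ^ k * yh T (σ0 P)) Filter.atTop
      (nhds (P.sc * X P ((P.num : ℝ≥0∞) / P.den) (σ0 P) + 0 * yh T (σ0 P))) := by
    apply Filter.Tendsto.add tendsto_const_nhds
    apply ENNReal.Tendsto.mul_const (ENNReal.tendsto_pow_atTop_nhds_zero_of_lt_one hlt)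
    right
    exact ENNReal.natCast_ne_top _
  have h3 := ge_of_tendsto' h2 h1
  rw [zero_mul, add_zero] at h3
  refine h3.trans (mul_le_mul' le_rfl (X_le_G hP ?_))
  rw [ENNReal.div_le_iff_le_mul (Or.inl (by exact_mod_cast hden.ne'))
    (Or.inl (ENNReal.natCast_ne_top _)), one_mul]
  exact_mod_cast hnum

end Pool.Agent.Helper524_FM
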