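import Pool.Agent.Helper524_FM.Ratio

/-!
# Sphere sizes are polynomials in the rank
-/

set_option linter.unusedSectionVars false
set_option linter.unusedSimpArgs false

namespace Pool.Agent.Helper524_FM

open scoped Classical

section maps

variable {k r : ℕ} (ι : Fin k → Fin r)

/-- relabelling of words -/
def exW (w : List (Ltr (Fin k))) : List (Ltr (Fin r)) := w.map (fun l => (ι l.1, l.2))

/-- extension of lattice points -/
noncomputable def exP (x : Fin k → ℤ) : Fin r → ℤ := Function.extend ι x 0

/-- relabelling of chains -/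
noncomputable def exF (f : Fin k × (Fin k → ℤ) →₀ ℤ) : Fin r × (Fin r → ℤ) →₀ ℤ :=
  f.mapDomain (fun e => (ι e.1, exP ι e.2))

/-- restriction of words -/
noncomputable def reW (v : List (Ltr (Fin r))) : List (Ltr (Fin k)) :=
  v.filterMap (fun l => if h : ∃ a, ι a = l.1 then some (h.choose, l.2) else none)

/-- restriction of chains -/
noncomputable def reF : (Fin r × (Fin r → ℤ) →₀ ℤ) →+ (Fin k × (Fin k → ℤ) →₀ ℤ) :=
  Finsupp.liftAddHom (fun e => if h : ∃ a, ι a = e.1 then
    Finsupp.singleAddHom (h.choose, e.2 ∘ ι) else 0)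

variable {ι}

theorem exP_add (hι : Function.Injective ι) (x y : Fin k → ℤ) :
    exP ι (x + y) = exP ι x + exP ι y := by
  funext j
  by_cases h : ∃ a, ι a = j
  · obtain ⟨a, rfl⟩ := h
    simp [exP, hι.extend_apply]
  · simp [exP, Function.extend_apply' _ _ _ h]

theorem exP_stp (hι : Function.Injective ι) (l : Ltr (Fin k)) :
    exP ι (stp l) = stp ((ι l.1, l.2) : Ltr (Fin r)) := by
  funext j
  by_cases h : ∃ a, ι a = j
  · obtain ⟨a, rfl⟩ := h
    rw [exP, hι.extend_apply]
    by_cases ha : a = l.1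
    · subst ha; simp [stp, sgn]
    · rw [stp_level ha, stp_level]
      exact fun h => ha (hι h)
  · rw [exP, Function.extend_apply' _ _ _ h, stp_level]
    · rfl
    · rintro rfl; exact h ⟨_, rfl⟩

theorem exP_zero : exP ι (0 : Fin k → ℤ) = 0 := by
  funext j
  by_cases h : ∃ a, ι a = j
  · unfold exP Function.extend; rw [dif_pos h]; rfl
  · simp [exP, Function.extend_apply' _ _ _ h]

theorem exP_low (hι : Function.Injective ι) (x : Fin k → ℤ) (l : Ltr (Fin k)) :
    exP ι (low x l) = low (exP ι x) ((ι l.1, l.2) : Ltr (Fin r)) := by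
  unfold low
  simp only
  split
  · rfl
  · rw [exP_add hι, exP_stp hι]

theorem flow_exW (hι : Function.Injective ι) (x : Fin k → ℤ) (w : List (Ltr (Fin k))) :
    flow (exP ι x) (exW ι w) = exF ι (flow x w) := by
  induction w generalizing x with
  | nil => simp [exW, exF]
  | cons l w ih =>
    have h1 : exW ι (l :: w) = (ι l.1, l.2) :: exW ι w := by simp [exW]
    rw [h1, flow_cons, flow_cons, exF, Finsupp.mapDomain_add, Finsupp.mapDomain_single]
    have h2 : exP ι x + stp ((ι l.1, l.2) : Ltr (Fin r)) = exP ι (x + stp l) := by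
      rw [exP_add hι, exP_stp hι]
    rw [h2, ih, exP_low hι]
    rfl

theorem exW_flow (hι : Function.Injective ι) {w w' : List (Ltr (Fin k))}
    (h : flow 0 w = flow 0 w') : flow 0 (exW ι w) = flow 0 (exW ι w') := by
  have h1 := flow_exW hι 0 w
  have h2 := flow_exW hι 0 w'
  rw [exP_zero] at h1 h2
  rw [h1, h2, h]

theorem reW_cons_pos (hι : Function.Injective ι) (a : Fin k) (b : Bool)
    (v : List (Ltr (Fin r))) : reW ι ((ι a, b) :: v) = (a, b) :: reW ι v := by
  have h : ∃ a', ι a' = ι a := ⟨a, rfl⟩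
  have h2 : h.choose = a := hι h.choose_spec
  simp only [reW, List.filterMap_cons]
  rw [dif_pos h]
  simp [h2]

theorem reW_cons_neg {l : Ltr (Fin r)} (h : ¬ ∃ a, ι a = l.1) (v : List (Ltr (Fin r))) :
    reW ι (l :: v) = reW ι v := by
  simp only [reW, List.filterMap_cons]
  rw [dif_neg h]

theorem flow_reW (hι : Function.Injective ι) (x : Fin r → ℤ) (v : List (Ltr (Fin r))) :
    flow (x ∘ ι) (reW ι v) = reF ι (flow x v) := by
  induction v generalizing x with
  | nil => simp [reW]
  | cons l v ih =>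
    rw [flow_cons, map_add, ← ih]
    by_cases h : ∃ a, ι a = l.1
    · obtain ⟨a, ha⟩ := h
      obtain ⟨j, b⟩ := l
      simp only at ha
      subst ha
      have h' : ∃ a', ι a' = ι a := ⟨a, rfl⟩
      have h2 : h'.choose = a := hι h'.choose_spec
      have hst : stp ((ι a, b) : Ltr (Fin r)) ∘ ι = stp ((a, b) : Ltr (Fin k)) := by
        funext i
        by_cases hi : i = a
        · subst hi; simp [stp, sgn]
        · have : ι i ≠ ι a := fun h => hi (hι h)
          simp only [Function.comp_apply]
          rw [stp_level this, stp_level hi]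
      have hlow : low (x ∘ ι) ((a, b) : Ltr (Fin k)) = low x ((ι a, b) : Ltr (Fin r)) ∘ ι := by
        unfold low
        simp only
        split
        · rfl
        · rw [← hst]; rfl
      have hs : reF ι (Finsupp.single (ι a, low x ((ι a, b) : Ltr (Fin r))) (sgn (ι a, b))) =
          Finsupp.single (a, low (x ∘ ι) ((a, b) : Ltr (Fin k))) (sgn (a, b)) := by
        unfold reF
        rw [Finsupp.liftAddHom_apply_single]
        rw [dif_pos h', hlow]
        simp only [Finsupp.singleAddHom_apply, h2]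
        rfl
      have hx : (x + stp ((ι a, b) : Ltr (Fin r))) ∘ ι = x ∘ ι + stp ((a, b) : Ltr (Fin k)) := by
        rw [← hst]; rfl
      rw [reW_cons_pos hι, flow_cons, hs, hx]
    · rw [reW_cons_neg h]
      unfold reF
      rw [Finsupp.liftAddHom_apply_single]
      rw [dif_neg h]
      simp only [AddMonoidHom.zero_apply, zero_add]
      congr 1
      funext i
      have : ι i ≠ l.1 := fun hi => h ⟨i, hi⟩
      simp [stp_level this]

theorem reW_flow (hι : Function.Injective ι) {v v' : List (Ltr (Fin r))}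
    (h : flow 0 v = flow 0 v') : flow 0 (reW ι v) = flow 0 (reW ι v') := by
  have h1 := flow_reW hι 0 v
  have h2 := flow_reW hι 0 v'
  have h0 : (0 : Fin r → ℤ) ∘ ι = 0 := rfl
  rw [h0] at h1 h2
  rw [h1, h2, h]

theorem reW_exW (hι : Function.Injective ι) (w : List (Ltr (Fin k))) :
    reW ι (exW ι w) = w := by
  induction w with
  | nil => rfl
  | cons l w ih =>
    have h1 : exW ι (l :: w) = (ι l.1, l.2) :: exW ι w := by simp [exW]
    rw [h1, reW_cons_pos hι, ih]

theorem exW_reW (hι : Function.Injective ι) {v : List (Ltr (Fin r))}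
    (h : ∀ j ∈ axs v, ∃ a, ι a = j) : exW ι (reW ι v) = v := by
  induction v with
  | nil => rfl
  | cons l v ih =>
    obtain ⟨a, ha⟩ := h l.1 (by simp)
    obtain ⟨j, b⟩ := l
    simp only at ha
    subst ha
    rw [reW_cons_pos hι]
    have h1 : exW ι ((a, b) :: reW ι v) = (ι a, b) :: exW ι (reW ι v) := by simp [exW]
    rw [h1, ih (fun j hj => h j (by simp [hj]))]

theorem reW_length (v : List (Ltr (Fin r))) : (reW ι v).length ≤ v.length :=
  List.length_filterMap_le _ _

theorem exW_length (w : List (Ltr (Fin k))) : (exW ι w).length = w.length := by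
  simp [exW]

theorem axs_exW (w : List (Ltr (Fin k))) : axs (exW ι w) = (axs w).map ι := by
  simp [exW, axs]

/-- shortest words -/
def Sht {r : ℕ} (w : List (Ltr (Fin r))) : Prop := ∀ v, flow 0 v = flow 0 w → w.length ≤ v.length

theorem Sht.exW (hι : Function.Injective ι) {w : List (Ltr (Fin k))} (h : Sht w) :
    Sht (exW ι w) := by
  intro v hv
  have h1 := reW_flow hι hv
  rw [reW_exW hι] at h1
  rw [exW_length]
  exact (h _ h1).trans (reW_length v)

theorem Sht.reW (hι : Function.Injective ι) {v : List (Ltr (Fin r))} (h : Sht v)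
    (ha : ∀ j ∈ axs v, ∃ a, ι a = j) : Sht (reW ι v) := by
  intro w hw
  have h1 := exW_flow hι hw
  rw [exW_reW hι ha] at h1
  have h2 := h _ h1
  rw [exW_length] at h2
  exact (reW_length v).trans h2

end maps

/-- flows of the shortest words of length `n` with axes `S` -/
noncomputable def SFS (r n : ℕ) (S : Finset (Fin r)) : Finset (Fin r × (Fin r → ℤ) →₀ ℤ) :=
  ((words r n).filter (fun w => Sht w ∧ (axs w).toFinset = S)).image (flow 0)

theorem mem_SFS {r n : ℕ} {S : Finset (Fin r)} {F : Fin r × (Fin r → ℤ) →₀ ℤ} :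
    F ∈ SFS r n S ↔ ∃ w : List (Ltr (Fin r)), w.length = n ∧ Sht w ∧ (axs w).toFinset = S ∧
      flow 0 w = F := by
  simp [SFS, and_assoc]

theorem IsMin.sht {r : ℕ} {w : List (Ltr (Fin r))} (h : IsMin w) : Sht w :=
  fun _ hv => isMin_length h hv

theorem Sht.axes_eq {r : ℕ} {w v : List (Ltr (Fin r))} (hw : Sht w) (hv : Sht v)
    (h : flow 0 w = flow 0 v) : (axs w).toFinset = (axs v).toFinset := by
  have key : ∀ {w v : List (Ltr (Fin r))}, Sht w → flow 0 w = flow 0 v →
      (axs w).toFinset ⊆ (axs v).toFinset := by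
    intro w v hw h i hi
    rw [List.mem_toFinset] at hi ⊢
    by_contra hni
    have h1 := del_flow i h
    rw [del_eq_self hni, ← h] at h1
    have h2 := hw _ h1
    have h3 := del_length i w
    have h4 : 0 < (axs w).count i := List.count_pos_iff.2 hi
    omega
  exact Finset.Subset.antisymm (key hw h) (key hv h.symm)

theorem sph_eq_sum_SFS (r n : ℕ) :
    sph r n = ∑ S ∈ (Finset.univ : Finset (Fin r)).powerset, (SFS r n S).card := by
  have h1 : (MW r n).card = ((Finset.univ : Finset (Fin r)).powerset.biUnion (SFS r n)).card := by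
    have h2 : (Finset.univ : Finset (Fin r)).powerset.biUnion (SFS r n) =
        (MW r n).image (flow 0) := by
      ext F
      rw [Finset.mem_biUnion, Finset.mem_image]
      constructor
      · rintro ⟨S, -, hF⟩
        obtain ⟨w, hw1, hw2, -, rfl⟩ := mem_SFS.1 hF
        obtain ⟨v, hv, hm⟩ := exists_isMin w
        refine ⟨v, mem_MW.2 ⟨?_, hm⟩, hv⟩
        rw [← hw1]
        exact le_antisymm (isMin_length hm hv.symm) (hw2 _ hv)
      · rintro ⟨w, hw, rfl⟩
        rw [mem_MW] at hw
        exact ⟨(axs w).toFinset, by simp, mem_SFS.2 ⟨w, hw.1, hw.2.sht, rfl, rfl⟩⟩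
    rw [h2, Finset.card_image_of_injOn]
    intro w hw v hv h
    simp only [Finset.mem_coe, mem_MW] at hw hv
    exact isMin_unique hw.2 hv.2 h
  rw [sph_eq_MW, h1, Finset.card_biUnion]
  intro S _ T _ hST
  rw [Function.onFun, Finset.disjoint_left]
  intro F hF hF'
  obtain ⟨w, -, hw2, hw3, hw4⟩ := mem_SFS.1 hF
  obtain ⟨v, -, hv2, hv3, hv4⟩ := mem_SFS.1 hF'
  apply hST
  rw [← hw3, ← hv3]
  exact hw2.axes_eq hv2 (hw4.trans hv4.symm)

/-- numbers of elements involving all generators -/
noncomputable def GG (n k : ℕ) : ℕ := (SFS k n Finset.univ).card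

theorem card_SFS (r n : ℕ) (S : Finset (Fin r)) : (SFS r n S).card = GG n S.card := by
  unfold GG
  obtain ⟨ι, hι, hS⟩ : ∃ ι : Fin S.card → Fin r, Function.Injective ι ∧
      ∀ j, j ∈ S ↔ ∃ a, ι a = j := by
    refine ⟨fun a => (S.equivFin.symm a : Fin r), ?_, ?_⟩
    · intro a b h
      exact S.equivFin.symm.injective (Subtype.ext h)
    · intro j
      constructor
      · intro hj
        exact ⟨S.equivFin ⟨j, hj⟩, by simp⟩
      · rintro ⟨a, rfl⟩
        exact (S.equivFin.symm a).2
  have h1 : SFS r n S = (SFS S.card n Finset.univ).image (exF ι) := by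
    ext F
    rw [Finset.mem_image]
    constructor
    · intro hF
      obtain ⟨v, hv1, hv2, hv3, rfl⟩ := mem_SFS.1 hF
      have ha : ∀ j ∈ axs v, ∃ a, ι a = j := by
        intro j hj
        rw [← hS, ← hv3]
        exact List.mem_toFinset.2 hj
      have e1 := exW_reW hι ha
      refine ⟨flow 0 (reW ι v), mem_SFS.2 ⟨reW ι v, ?_, hv2.reW hι ha, ?_, rfl⟩, ?_⟩
      · rw [← hv1]
        conv_rhs => rw [← e1]
        rw [exW_length]
      · rw [Finset.eq_univ_iff_forall]
        intro a
        rw [List.mem_toFinset]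
        have h2 : ι a ∈ axs v := by
          rw [← List.mem_toFinset, hv3, hS]; exact ⟨a, rfl⟩
        rw [← e1, axs_exW, List.mem_map] at h2
        obtain ⟨b, hb, hb'⟩ := h2
        rw [← hι hb']; exact hb
      · rw [← flow_exW hι, exP_zero, e1]
    · rintro ⟨F', hF', rfl⟩
      obtain ⟨w, hw1, hw2, hw3, rfl⟩ := mem_SFS.1 hF'
      refine mem_SFS.2 ⟨exW ι w, by rw [exW_length, hw1], hw2.exW hι, ?_, ?_⟩
      · ext j
        rw [List.mem_toFinset, axs_exW, List.mem_map, hS]
        constructor
        · rintro ⟨a, -, ha⟩; exact ⟨a, ha⟩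
        · rintro ⟨a, ha⟩
          refine ⟨a, ?_, ha⟩
          rw [← List.mem_toFinset, hw3]; exact Finset.mem_univ a
      · rw [← flow_exW hι, exP_zero]
  rw [h1]
  apply Finset.card_image_of_injective
  apply Finsupp.mapDomain_injective
  rintro ⟨a, x⟩ ⟨b, y⟩ h
  simp only [Prod.mk.injEq] at h
  refine Prod.ext (hι h.1) ?_
  funext i
  have := congrFun h.2 (ι i)
  simpa [exP, hι.extend_apply] using this

theorem GG_zero {n k : ℕ} (h : n < k) : GG n k = 0 := by
  unfold GG
  rw [Finset.card_eq_zero, Finset.eq_empty_iff_forall_notMem]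
  intro F hF
  obtain ⟨w, hw1, -, hw3, -⟩ := mem_SFS.1 hF
  have := (axs w).toFinset_card_le
  rw [hw3, Finset.card_univ, Fintype.card_fin, axs_length] at this
  omega

theorem sph_poly_sum (r n : ℕ) : sph r n = ∑ m ∈ Finset.range (n + 1), r.choose m * GG n m := by
  rw [sph_eq_sum_SFS]
  simp only [card_SFS]
  rw [Finset.sum_powerset_apply_card (fun m => GG n m)]
  rw [Finset.card_univ, Fintype.card_fin]
  simp only [smul_eq_mul]
  rcases Nat.le_total r n with h | h
  · apply Finset.sum_subset
    · intro m hm; rw [Finset.mem_range] at hm ⊢; omega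
    · intro m _ hm
      rw [Finset.mem_range] at hm
      rw [Nat.choose_eq_zero_of_lt (by omega), zero_mul]
  · symm
    apply Finset.sum_subset
    · intro m hm; rw [Finset.mem_range] at hm ⊢; omega
    · intro m _ hm
      rw [Finset.mem_range] at hm
      rw [GG_zero (by omega), mul_zero]

/-- the sphere polynomial -/
noncomputable def SP (n : ℕ) : Polynomial ℚ :=
  ∑ m ∈ Finset.range (n + 1), Polynomial.C ((GG n m : ℚ) / (m.factorial : ℚ)) *
    descPochhammer ℚ m

/-- **Sphere sizes are polynomials in the rank.** -/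
theorem sph_eq_eval (r n : ℕ) : (sph r n : ℚ) = (SP n).eval (r : ℚ) := by
  rw [sph_poly_sum, SP, Polynomial.eval_finsetSum]
  push_cast
  apply Finset.sum_congr rfl
  intro m _
  rw [Polynomial.eval_mul, Polynomial.eval_C, descPochhammer_eval_eq_descFactorial]
  have h1 := Nat.descFactorial_eq_factorial_mul_choose r m
  rw [h1]
  push_cast
  have : (m.factorial : ℚ) ≠ 0 := by exact_mod_cast m.factorial_ne_zero
  field_simp

end Pool.Agent.Helper524_FM
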