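import Pool.Agent.Helper524_FM.Contr

/-!
# The growth rate and ratios of sphere sizes
-/

set_option linter.unusedSectionVars false
set_option linter.unusedSimpArgs false

namespace Pool.Agent.Helper524_FM

open scoped Classical

variable {r : ℕ}

/-- minimal words of length `n` -/
noncomputable def MW (r n : ℕ) : Finset (List (Ltr (Fin r))) := (words r n).filter IsMin

theorem mem_MW {n : ℕ} {w : List (Ltr (Fin r))} : w ∈ MW r n ↔ w.length = n ∧ IsMin w := by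
  simp [MW]

theorem wlen_of_isMin {w : List (Ltr (Fin r))} (h : IsMin w) : wlen r (ev r w) = w.length := by
  apply le_antisymm (wlen_le w)
  obtain ⟨v, hv, hv2⟩ := wlen_spec r (ev r w)
  rw [← hv]
  exact isMin_length h (flow_eq_of_ev hv2)

theorem sph_eq_MW (r n : ℕ) : sph r n = (MW r n).card := by
  rw [sph_eq]
  symm
  apply Finset.card_nbij (ev r)
  · intro w hw
    simp only [Finset.mem_coe, mem_MW] at hw
    simp only [Finset.mem_coe, mem_sphF]
    rw [wlen_of_isMin hw.2, hw.1]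
  · intro w hw v hv h
    simp only [Finset.mem_coe, mem_MW] at hw hv
    exact isMin_unique hw.2 hv.2 (flow_eq_of_ev h)
  · intro g hg
    simp only [Finset.mem_coe, mem_sphF] at hg
    obtain ⟨w, hw⟩ := ev_surj r g
    obtain ⟨v, hv, hm⟩ := exists_isMin w
    refine ⟨v, ?_, ?_⟩
    · simp only [Finset.mem_coe, mem_MW]
      refine ⟨?_, hm⟩
      rw [← wlen_of_isMin hm, ev_of_flow hv, hw, hg]
    · rw [ev_of_flow hv, hw]

theorem IsMin.good {τ : ℕ} {w : List (Ltr (Fin r))} (h : IsMin w) : Good τ w :=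
  fun _ hu _ => isMin_infix hu h

theorem sph_le_ga (τ r n : ℕ) : sph r n ≤ ga τ r n := by
  rw [sph_eq_MW]
  apply Finset.card_le_card
  intro w hw
  rw [mem_MW] at hw
  exact mem_GW.2 ⟨hw.1, hw.2.good⟩

/-- constant -/
def C7 (n : ℕ) : ℕ := 2 * (n + 1) ^ 2 * (2 * n) ^ n

theorem ga_sub_sph {c : ℕ} (hc : 1 ≤ c) (hr : 2 * (2 * c) ^ 2 * C1 (2 * c) + 1 ≤ r) (n : ℕ) :
    r ^ (c + 1) * (ga (2 * c) r n - sph r n) ≤ C7 n * ga (2 * c) r n := by
  have hr0 : 0 < r := by omega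
  have hτ : 2 ≤ 2 * c := by omega
  have hr1 : 2 * c * C1 (2 * c) + 1 ≤ r := by
    have : 2 * c * C1 (2 * c) ≤ 2 * (2 * c) ^ 2 * C1 (2 * c) := by
      apply Nat.mul_le_mul_right
      nlinarith
    omega
  obtain ⟨τ, hτc⟩ : ∃ τ, τ = 2 * c := ⟨_, rfl⟩
  rw [← hτc] at hr hr1 hτ ⊢
  set I : Finset (ℕ × ℕ) := (Finset.range (n + 1) ×ˢ Finset.range (n + 1)).filter
    (fun q => τ < q.2 ∧ q.1 + q.2 ≤ n) with hI
  have hsub : GW τ r n \ MW r n ⊆ I.biUnion (fun q =>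
      ((GW τ r q.1 ×ˢ GW τ r (n - q.1 - q.2)) ×ˢ MF r q.2).image
        (fun p => p.1.1 ++ p.2 ++ p.1.2)) := by
    intro w hw
    rw [Finset.mem_sdiff, mem_GW, mem_MW] at hw
    obtain ⟨⟨hw1, hw2⟩, hw3⟩ := hw
    have hng : ¬ Good n w := fun h => hw3 ⟨hw1, h w List.infix_rfl hw1.le⟩
    obtain ⟨φ, h1, h2, h3⟩ := exists_minForb hng
    have h4 : τ < φ.length := by
      by_contra h
      exact h3.not_min (hw2 φ h1 (by omega))
    obtain ⟨x, y, hxy⟩ := h1
    have hlen : x.length + φ.length + y.length = n := by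
      rw [← hw1, ← hxy, List.length_append, List.length_append]
    rw [Finset.mem_biUnion]
    refine ⟨(x.length, φ.length), ?_, ?_⟩
    · simp only [hI, Finset.mem_filter, Finset.mem_product, Finset.mem_range]
      omega
    · rw [Finset.mem_image]
      refine ⟨((x, y), φ), ?_, hxy⟩
      simp only [Finset.mem_product, mem_GW, MF, Finset.mem_filter, mem_words]
      refine ⟨⟨⟨trivial, hw2.fac ?_⟩, by omega, hw2.fac ?_⟩, trivial, h3⟩
      · exact ⟨[], φ ++ y, by rw [← hxy]; simp⟩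
      · exact ⟨x ++ φ, [], by rw [← hxy]; simp⟩
  have h1 : ga τ r n - sph r n ≤ (GW τ r n \ MW r n).card := by
    rw [sph_eq_MW]
    exact Finset.le_card_sdiff _ _
  have hterm : ∀ q ∈ I, r ^ (c + 1) * (((GW τ r q.1 ×ˢ GW τ r (n - q.1 - q.2)) ×ˢ
      MF r q.2).image (fun p => p.1.1 ++ p.2 ++ p.1.2)).card ≤
      2 * (2 * n) ^ n * ga τ r n := by
    rintro ⟨i, ℓ⟩ hq
    simp only [hI, Finset.mem_filter, Finset.mem_product, Finset.mem_range] at hq
    obtain ⟨⟨q1, q2⟩, q3, q4⟩ := hq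
    have e1 : (((GW τ r i ×ˢ GW τ r (n - i - ℓ)) ×ˢ
      MF r ℓ).image (fun p => p.1.1 ++ p.2 ++ p.1.2)).card ≤
      ga τ r i * ga τ r (n - i - ℓ) * (MF r ℓ).card := by
      refine Finset.card_image_le.trans ?_
      rw [Finset.card_product, Finset.card_product]; rfl
    have e2 : (MF r ℓ).card ≤ r ^ (ℓ / 2) * (2 * n) ^ n := by
      refine (card_MF_le hr0 ℓ).trans (Nat.mul_le_mul_left _ ?_)
      calc (2 * ℓ) ^ ℓ ≤ (2 * n) ^ ℓ := Nat.pow_le_pow_left (by omega) _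
        _ ≤ (2 * n) ^ n := Nat.pow_le_pow_right (by omega) (by omega)
    have e3 := supermult hτ hr i (n - i - ℓ)
    have e4 := growth_pow hτ hr1 (i + (n - i - ℓ)) ℓ
    rw [show i + (n - i - ℓ) + ℓ = n by omega] at e4
    have e5 : r ^ (c + 1) * r ^ (ℓ / 2) ≤ r ^ ℓ := by
      rw [← pow_add]; exact Nat.pow_le_pow_right hr0 (by omega)
    calc r ^ (c + 1) * _ ≤ r ^ (c + 1) * (ga τ r i * ga τ r (n - i - ℓ) * (MF r ℓ).card) :=
          Nat.mul_le_mul_left _ e1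
      _ ≤ r ^ (c + 1) * ((2 * ga τ r (i + (n - i - ℓ))) * (r ^ (ℓ / 2) * (2 * n) ^ n)) := by
          gcongr
      _ = (r ^ (c + 1) * r ^ (ℓ / 2)) * (2 * (2 * n) ^ n * ga τ r (i + (n - i - ℓ))) := by ring
      _ ≤ r ^ ℓ * (2 * (2 * n) ^ n * ga τ r (i + (n - i - ℓ))) := Nat.mul_le_mul_right _ e5
      _ = 2 * (2 * n) ^ n * (r ^ ℓ * ga τ r (i + (n - i - ℓ))) := by ring
      _ ≤ _ := Nat.mul_le_mul_left _ e4
  calc r ^ (c + 1) * (ga τ r n - sph r n) ≤ r ^ (c + 1) * (GW τ r n \ MW r n).card :=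
        Nat.mul_le_mul_left _ h1
    _ ≤ r ^ (c + 1) * ∑ q ∈ I, (((GW τ r q.1 ×ˢ GW τ r (n - q.1 - q.2)) ×ˢ
      MF r q.2).image (fun p => p.1.1 ++ p.2 ++ p.1.2)).card :=
        Nat.mul_le_mul_left _ ((Finset.card_le_card hsub).trans Finset.card_biUnion_le)
    _ = ∑ q ∈ I, r ^ (c + 1) * (((GW τ r q.1 ×ˢ GW τ r (n - q.1 - q.2)) ×ˢ
      MF r q.2).image (fun p => p.1.1 ++ p.2 ++ p.1.2)).card := by rw [Finset.mul_sum]
    _ ≤ ∑ q ∈ I, 2 * (2 * n) ^ n * ga τ r n := Finset.sum_le_sum hterm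
    _ = I.card * (2 * (2 * n) ^ n * ga τ r n) := by rw [Finset.sum_const, smul_eq_mul]
    _ ≤ (n + 1) ^ 2 * (2 * (2 * n) ^ n * ga τ r n) := by
        apply Nat.mul_le_mul_right
        refine (Finset.card_filter_le _ _).trans ?_
        rw [Finset.card_product, Finset.card_range, sq]
    _ = _ := by unfold C7; ring

theorem ga_submult (τ r m n : ℕ) : ga τ r (m + n) ≤ ga τ r m * ga τ r n := by
  unfold ga
  rw [← Finset.card_product]
  apply Finset.card_le_card_of_injOn (fun w => (w.take m, w.drop m))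
  · intro w hw
    simp only [Finset.mem_coe, mem_GW] at hw
    simp only [Finset.mem_coe, Finset.mem_product, mem_GW]
    exact ⟨⟨by simp; omega, hw.2.fac (List.take_prefix _ _).isInfix⟩, by simp; omega,
      hw.2.fac (List.drop_suffix _ _).isInfix⟩
  · intro w _ v _ h
    simp only [Prod.mk.injEq] at h
    rw [← List.take_append_drop m w, h.1, h.2, List.take_append_drop]

theorem ga_pow (τ r n k : ℕ) : ga τ r (k * n) ≤ ga τ r n ^ k := by
  induction k with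
  | zero => simp [ga_zero]
  | succ k ih =>
    rw [show (k + 1) * n = k * n + n by ring, pow_succ]
    exact (ga_submult τ r _ _).trans (Nat.mul_le_mul_right _ ih)

/-- from eventual growth to growth for all lengths -/
theorem pow_le_ga {τ r N : ℕ} {β : ℝ} (hβ : 0 < β) (hpos : 0 < ga τ r N)
    (h : ∀ n, N ≤ n → β * ga τ r n ≤ ga τ r (n + 1)) (n : ℕ) : β ^ n ≤ ga τ r n := by
  rcases Nat.eq_zero_or_pos n with h0 | hn
  · subst h0; simp [ga_zero]
  have h1 : ∀ j, β ^ j * ga τ r N ≤ ga τ r (N + j) := by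
    intro j
    induction j with
    | zero => simp
    | succ j ih =>
      calc β ^ (j + 1) * ga τ r N = β * (β ^ j * ga τ r N) := by ring
        _ ≤ β * ga τ r (N + j) := by gcongr
        _ ≤ _ := h _ (by omega)
  by_contra hlt
  rw [not_le] at hlt
  have hβn : 0 < β ^ n := by positivity
  have hga : (0 : ℝ) ≤ ga τ r n := by positivity
  have hx1 : (ga τ r n : ℝ) / β ^ n < 1 := by rw [div_lt_one hβn]; exact hlt
  have hx0 : 0 ≤ (ga τ r n : ℝ) / β ^ n := by positivity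
  have h2 : ∀ k, N ≤ k → (ga τ r N : ℝ) / β ^ N ≤ ((ga τ r n : ℝ) / β ^ n) ^ k := by
    intro k hk
    have hkn : N ≤ k * n := by nlinarith
    have e1 := h1 (k * n - N)
    rw [show N + (k * n - N) = k * n by omega] at e1
    have e2 : (ga τ r (k * n) : ℝ) ≤ (ga τ r n : ℝ) ^ k := by exact_mod_cast ga_pow τ r n k
    rw [div_pow, div_le_div_iff₀ (by positivity) (by positivity)]
    have e3 : (β ^ n) ^ k = β ^ (k * n - N) * β ^ N := by
      rw [← pow_mul, ← pow_add, mul_comm n k]; congr 1; omega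
    rw [e3]
    calc (ga τ r N : ℝ) * (β ^ (k * n - N) * β ^ N)
        = (β ^ (k * n - N) * ga τ r N) * β ^ N := by ring
      _ ≤ (ga τ r n : ℝ) ^ k * β ^ N := by gcongr; exact e1.trans e2
  have h3 := tendsto_pow_atTop_nhds_zero_of_lt_one hx0 hx1
  have h4 : (0 : ℝ) < (ga τ r N : ℝ) / β ^ N := by
    have : (0 : ℝ) < ga τ r N := by exact_mod_cast hpos
    positivity
  have h5 := h3.eventually (gt_mem_nhds h4)
  rw [Filter.eventually_atTop] at h5
  obtain ⟨k0, hk0⟩ := h5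
  have h6 := hk0 (max k0 N) (le_max_left _ _)
  have h7 := h2 (max k0 N) (le_max_right _ _)
  linarith

theorem om_le_hi {τ r N : ℕ} (hr : 0 < r) {hi : ℝ} (h1 : 1 ≤ hi)
    (h : ∀ n, N ≤ n → (ga τ r (n + 1) : ℝ) ≤ hi * ga τ r n) : om r ≤ hi := by
  have hrR : (1 : ℝ) ≤ r := by exact_mod_cast hr
  have hw : ∀ n, (ga τ r n : ℝ) ≤ (2 * (r : ℝ)) ^ n := by
    intro n
    have : ga τ r n ≤ (2 * r) ^ n := by
      rw [← card_words]; exact Finset.card_filter_le _ _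
    exact_mod_cast this
  have h2r : (1 : ℝ) ≤ 2 * r := by linarith
  have hbig : ∀ k, (ga τ r (N + k) : ℝ) ≤ (2 * (r : ℝ)) ^ N * hi ^ k := by
    intro k
    induction k with
    | zero => simpa using hw N
    | succ k ih =>
      calc (ga τ r (N + k + 1) : ℝ) ≤ hi * ga τ r (N + k) := h _ (by omega)
        _ ≤ hi * ((2 * (r : ℝ)) ^ N * hi ^ k) := by gcongr
        _ = _ := by ring
  apply om_le_of_bound hr (C := (2 * (r : ℝ)) ^ N) (by positivity) (by positivity)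
  intro n
  have h0 : (sph r n : ℝ) ≤ ga τ r n := by exact_mod_cast sph_le_ga τ r n
  refine h0.trans ?_
  rcases Nat.lt_or_ge n N with hn | hn
  · calc (ga τ r n : ℝ) ≤ (2 * (r : ℝ)) ^ n := hw n
      _ ≤ (2 * (r : ℝ)) ^ N * 1 := by
        rw [mul_one]; exact pow_le_pow_right₀ h2r hn.le
      _ ≤ _ := by
        have : (1 : ℝ) ≤ hi ^ n := one_le_pow₀ h1
        gcongr
  · obtain ⟨k, rfl⟩ := Nat.exists_eq_add_of_le hn
    refine (hbig k).trans ?_
    have : hi ^ k ≤ hi ^ (N + k) := pow_le_pow_right₀ h1 (by omega)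
    gcongr

theorem ratio_ga (K : ℕ) : ∃ C r0 : ℕ, ∀ r : ℕ, r0 ≤ r → ∀ n : ℕ, 2 * (K + 1) * (K + 1) ≤ n →
    |om r - (ga (2 * (K + 1)) r (n + 1) : ℝ) / ga (2 * (K + 1)) r n| ≤ C / (r : ℝ) ^ K := by
  obtain ⟨c, hc⟩ : ∃ c, c = K + 1 := ⟨_, rfl⟩
  obtain ⟨τ, hτ⟩ : ∃ τ, τ = 2 * c := ⟨_, rfl⟩
  obtain ⟨C, r1, hlow⟩ := om_lower' (c := c) (τ := τ) hτ.ge (by omega)
  refine ⟨2 * (6 * CF τ) ^ c + 2 * C, r1 + (2 * τ ^ 2 * C1 τ + 1) + 12 * CF τ + 1, fun r hr n hn => ?_⟩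
  rw [← hc, ← hτ] at hn ⊢
  have hτ2 : 2 ≤ τ := by omega
  have hr1 : 2 * τ ^ 2 * C1 τ + 1 ≤ r := by omega
  have hr2 : τ * C1 τ + 1 ≤ r := by nlinarith [Nat.zero_le (C1 τ), Nat.zero_le (τ * C1 τ)]
  have hr0 : 0 < r := by omega
  have hrR : (0 : ℝ) < r := by exact_mod_cast hr0
  have hr12 : 12 * (CF τ : ℝ) < r := by
    have : 12 * CF τ < r := by omega
    exact_mod_cast this
  obtain ⟨lo, hi, hinv, hlen⟩ := contraction hτ2 hr1 (by omega) c
  have hinv' : ∀ m, τ * c ≤ m → lo * ga τ r m ≤ ga τ r (m + 1) ∧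
      (ga τ r (m + 1) : ℝ) ≤ hi * ga τ r m := by
    intro m hm
    have h1 := hinv.mono (m - τ * c) [] good_nil
    rw [show m - τ * c + τ * c = m by omega] at h1
    rw [ee_nil, ee_nil] at h1
    exact h1
  have hpos : ∀ m, (0 : ℝ) < ga τ r m := by
    intro m
    have h1 := growth_pow hτ2 hr2 0 m
    rw [ga_zero, mul_one, zero_add] at h1
    have h2 : 0 < r ^ m := by positivity
    exact_mod_cast h2.trans_le h1
  have hstep : ∀ m, (r : ℝ) * ga τ r m ≤ ga τ r (m + 1) := by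
    intro m; exact_mod_cast growth_step hτ2 hr2 m
  have hhi : (r : ℝ) ≤ hi := by
    have h1 := (hstep (τ * c)).trans (hinv' _ le_rfl).2
    exact le_of_mul_le_mul_right h1 (hpos _)
  -- the length of the interval
  have hδ : hi - lo ≤ 2 * (6 * (CF τ : ℝ)) ^ c / (r : ℝ) ^ K := by
    refine hlen.trans (le_of_eq ?_)
    rw [div_pow, hc, pow_succ (r : ℝ) K]
    field_simp
  have hδ2 : hi - lo ≤ 12 * CF τ := by
    refine hlen.trans ?_
    have h1 : (6 * (CF τ : ℝ) / r) ^ c ≤ 6 * CF τ / r := by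
      apply pow_le_of_le_one (by positivity) _ (by omega)
      rw [div_le_one hrR]; linarith [show (0 : ℝ) ≤ CF τ by positivity]
    calc (6 * (CF τ : ℝ) / r) ^ c * (2 * r) ≤ 6 * CF τ / r * (2 * r) := by gcongr
      _ = _ := by field_simp; ring
  have hlo : 0 < lo := by linarith
  -- growth rate in the interval
  have hup : om r ≤ hi := by
    apply om_le_hi (τ := τ) (N := τ * c) hr0 _ (fun m hm => (hinv' m hm).2)
    have : (1 : ℝ) ≤ r := by exact_mod_cast hr0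
    linarith
  have hdown : lo * (1 - C / (r : ℝ) ^ c) ≤ om r := by
    apply hlow r (by omega) lo hlo
    apply pow_le_ga (N := τ * c) hlo _ (fun m hm => (hinv' m hm).1)
    exact_mod_cast hpos _
  have hx1 : lo ≤ (ga τ r (n + 1) : ℝ) / ga τ r n := by
    rw [le_div_iff₀ (hpos n)]; exact (hinv' n hn).1
  have hx2 : (ga τ r (n + 1) : ℝ) / ga τ r n ≤ hi := by
    rw [div_le_iff₀ (hpos n)]; exact (hinv' n hn).2
  have hx3 : (ga τ r (n + 1) : ℝ) / ga τ r n ≤ 2 * r := by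
    rw [div_le_iff₀ (hpos n)]
    have h1 := ga_submult τ r n 1
    have h2 : ga τ r 1 ≤ 2 * r := by
      have := Finset.card_filter_le (words r 1) (Good τ)
      rw [card_words, pow_one] at this
      exact this
    have h3 : ga τ r (n + 1) ≤ 2 * r * ga τ r n := by
      rw [mul_comm]
      exact h1.trans (Nat.mul_le_mul_left _ h2)
    exact_mod_cast h3
  have e1 : lo * (C / (r : ℝ) ^ c) ≤ 2 * C / (r : ℝ) ^ K := by
    calc lo * (C / (r : ℝ) ^ c) ≤ 2 * r * (C / (r : ℝ) ^ c) := by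
          gcongr; exact hx1.trans hx3
      _ = 2 * C / (r : ℝ) ^ K := by
          rw [hc, pow_succ (r : ℝ) K]; field_simp
  have e2 : ((2 * (6 * CF τ) ^ c + 2 * C : ℕ) : ℝ) / (r : ℝ) ^ K =
      2 * (6 * (CF τ : ℝ)) ^ c / (r : ℝ) ^ K + 2 * C / (r : ℝ) ^ K := by
    push_cast; ring
  rw [e2, abs_le]
  constructor
  · linarith
  · have : (0 : ℝ) ≤ 2 * C / (r : ℝ) ^ K := by positivity
    linarith

theorem sph_ratio_close (K n : ℕ) : ∃ C r0 : ℕ, ∀ r : ℕ, r0 ≤ r →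
    |(ga (2 * (K + 1)) r (n + 1) : ℝ) / ga (2 * (K + 1)) r n - (sph r (n + 1) : ℝ) / sph r n| ≤
      C / (r : ℝ) ^ K := by
  obtain ⟨c, hc⟩ : ∃ c, c = K + 1 := ⟨_, rfl⟩
  obtain ⟨τ, hτ⟩ : ∃ τ, τ = 2 * c := ⟨_, rfl⟩
  refine ⟨4 * C7 n + 2 * C7 (n + 1), (2 * τ ^ 2 * C1 τ + 1) + 2 * C7 n, fun r hr => ?_⟩
  rw [← hc, ← hτ]
  have hτ2 : 2 ≤ τ := by omega
  have hr1 : 2 * τ ^ 2 * C1 τ + 1 ≤ r := by omega
  have hr2 : τ * C1 τ + 1 ≤ r := by nlinarith [Nat.zero_le (C1 τ), Nat.zero_le (τ * C1 τ)]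
  have hr0 : 0 < r := by omega
  have hrR : (0 : ℝ) < r := by exact_mod_cast hr0
  have hr1R : (1 : ℝ) ≤ r := by exact_mod_cast hr0
  have hpos : ∀ m, (0 : ℝ) < ga τ r m := by
    intro m
    have h1 := growth_pow hτ2 hr2 0 m
    rw [ga_zero, mul_one, zero_add] at h1
    have h2 : 0 < r ^ m := by positivity
    exact_mod_cast h2.trans_le h1
  -- the deficit
  have hdef : ∀ m, (ga τ r m : ℝ) - sph r m ≤ C7 m / (r : ℝ) ^ (c + 1) * ga τ r m := by
    intro m
    have h1 := ga_sub_sph (r := r) (c := c) (by omega) (by rw [← hτ]; exact hr1) m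
    rw [← hτ] at h1
    have h2 : ((ga τ r m - sph r m : ℕ) : ℝ) = (ga τ r m : ℝ) - sph r m :=
      Nat.cast_sub (sph_le_ga τ r m)
    have h3 : ((r ^ (c + 1) * (ga τ r m - sph r m) : ℕ) : ℝ) ≤ ((C7 m * ga τ r m : ℕ) : ℝ) := by
      exact_mod_cast h1
    rw [Nat.cast_mul, h2] at h3
    push_cast at h3
    rw [div_mul_eq_mul_div, le_div_iff₀ (by positivity), mul_comm]
    exact h3
  have hle : ∀ m, (sph r m : ℝ) ≤ ga τ r m := by intro m; exact_mod_cast sph_le_ga τ r m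
  have hs : (0 : ℝ) < sph r n := by exact_mod_cast sph_pos hr0 n
  have hhalf : (ga τ r n : ℝ) ≤ 2 * sph r n := by
    have h1 := hdef n
    have h2 : (C7 n : ℝ) / (r : ℝ) ^ (c + 1) ≤ 1 / 2 := by
      rw [div_le_iff₀ (by positivity)]
      have h3 : ((2 * C7 n : ℕ) : ℝ) ≤ r := by
        have : 2 * C7 n ≤ r := by omega
        exact_mod_cast this
      have h4 : (r : ℝ) ≤ (r : ℝ) ^ (c + 1) := by
        calc (r : ℝ) = (r : ℝ) ^ 1 := (pow_one _).symm
          _ ≤ _ := pow_le_pow_right₀ hr1R (by omega)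
      push_cast at h3
      linarith
    have h3 := mul_le_mul_of_nonneg_right h2 (hpos n).le
    linarith
  obtain ⟨x, hx⟩ : ∃ x : ℝ, x = (ga τ r (n + 1) : ℝ) / ga τ r n := ⟨_, rfl⟩
  have hx0 : 0 ≤ x := by rw [hx]; exact div_nonneg (hpos _).le (hpos _).le
  have hx3 : x ≤ 2 * r := by
    rw [hx, div_le_iff₀ (hpos n)]
    have h1 := ga_submult τ r n 1
    have h2 : ga τ r 1 ≤ 2 * r := by
      have := Finset.card_filter_le (words r 1) (Good τ)
      rw [card_words, pow_one] at this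
      exact this
    have h3 : ga τ r (n + 1) ≤ 2 * r * ga τ r n := by
      rw [mul_comm]
      exact h1.trans (Nat.mul_le_mul_left _ h2)
    exact_mod_cast h3
  have hg : (ga τ r (n + 1) : ℝ) = x * ga τ r n := by
    rw [hx]; field_simp [(hpos n).ne']
  rw [← hx]
  have hpw : ∀ D : ℝ, 0 ≤ D → 2 * r * (D / (r : ℝ) ^ (c + 1)) ≤ 2 * D / (r : ℝ) ^ K := by
    intro D hD
    have : 2 * (r : ℝ) * (D / (r : ℝ) ^ (c + 1)) = 2 * D / (r : ℝ) ^ (K + 1) := by
      rw [hc, pow_succ (r : ℝ) (K + 1)]; field_simp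
    rw [this]
    apply div_le_div_of_nonneg_left (by positivity) (by positivity)
    exact pow_le_pow_right₀ hr1R (by omega)
  have hup : (sph r (n + 1) : ℝ) / sph r n - x ≤ 4 * C7 n / (r : ℝ) ^ K := by
    have h1 : (sph r (n + 1) : ℝ) / sph r n ≤ x + x * (2 * (C7 n / (r : ℝ) ^ (c + 1))) := by
      rw [div_le_iff₀ hs]
      have h2 : (sph r (n + 1) : ℝ) ≤ x * ga τ r n := by rw [← hg]; exact hle _
      have h3 : (ga τ r n : ℝ) ≤ sph r n + (2 * (C7 n / (r : ℝ) ^ (c + 1))) * sph r n := by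
        have h4 := hdef n
        have h5 : (C7 n : ℝ) / (r : ℝ) ^ (c + 1) * ga τ r n ≤
            C7 n / (r : ℝ) ^ (c + 1) * (2 * sph r n) := by gcongr
        linarith
      calc (sph r (n + 1) : ℝ) ≤ x * ga τ r n := h2
        _ ≤ x * (sph r n + (2 * (C7 n / (r : ℝ) ^ (c + 1))) * sph r n) := by gcongr
        _ = _ := by ring
    have h2 : x * (2 * (C7 n / (r : ℝ) ^ (c + 1))) ≤ 4 * C7 n / (r : ℝ) ^ K := by
      calc x * (2 * (C7 n / (r : ℝ) ^ (c + 1))) ≤ 2 * r * (2 * (C7 n / (r : ℝ) ^ (c + 1))) := by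
            gcongr
        _ = 2 * (2 * r * (C7 n / (r : ℝ) ^ (c + 1))) := by ring
        _ ≤ 2 * (2 * C7 n / (r : ℝ) ^ K) := by
            have := hpw (C7 n) (by positivity)
            linarith
        _ = _ := by ring
    linarith
  have hdn : x - (sph r (n + 1) : ℝ) / sph r n ≤ 2 * C7 (n + 1) / (r : ℝ) ^ K := by
    have h1 : x - x * (C7 (n + 1) / (r : ℝ) ^ (c + 1)) ≤ (sph r (n + 1) : ℝ) / sph r n := by
      have h2 : (sph r (n + 1) : ℝ) / ga τ r n ≤ (sph r (n + 1) : ℝ) / sph r n := by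
        apply div_le_div_of_nonneg_left (by positivity) hs (hle n)
      refine le_trans ?_ h2
      rw [le_div_iff₀ (hpos n)]
      have h3 := hdef (n + 1)
      rw [hg] at h3
      have h4 : (x - x * (C7 (n + 1) / (r : ℝ) ^ (c + 1))) * ga τ r n =
        x * ga τ r n - C7 (n + 1) / (r : ℝ) ^ (c + 1) * (x * ga τ r n) := by ring
      rw [h4]; linarith
    have h2 : x * (C7 (n + 1) / (r : ℝ) ^ (c + 1)) ≤ 2 * C7 (n + 1) / (r : ℝ) ^ K := by
      calc x * (C7 (n + 1) / (r : ℝ) ^ (c + 1)) ≤ 2 * r * (C7 (n + 1) / (r : ℝ) ^ (c + 1)) := by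
            gcongr
        _ ≤ _ := hpw _ (by positivity)
    linarith
  have e2 : ((4 * C7 n + 2 * C7 (n + 1) : ℕ) : ℝ) / (r : ℝ) ^ K =
      4 * C7 n / (r : ℝ) ^ K + 2 * C7 (n + 1) / (r : ℝ) ^ K := by
    push_cast; ring
  have f1 : (0 : ℝ) ≤ 4 * C7 n / (r : ℝ) ^ K := by positivity
  have f2 : (0 : ℝ) ≤ 2 * C7 (n + 1) / (r : ℝ) ^ K := by positivity
  rw [e2, abs_le]
  constructor <;> linarith

/-- **The growth rate to any order from two spheres.** -/
theorem ratio_sph (K n : ℕ) (hn : 2 * (K + 1) * (K + 1) ≤ n) : ∃ C r0 : ℕ, ∀ r : ℕ, r0 ≤ r →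
    |om r - (sph r (n + 1) : ℝ) / sph r n| ≤ C / (r : ℝ) ^ K := by
  obtain ⟨C, r0, h⟩ := ratio_ga K
  obtain ⟨C', r0', h'⟩ := sph_ratio_close K n
  refine ⟨C + C', max r0 r0', fun r hr => ?_⟩
  have h1 := h r (by omega) n hn
  have h2 := h' r (by omega)
  have h3 := abs_add_le (om r - (ga (2 * (K + 1)) r (n + 1) : ℝ) / ga (2 * (K + 1)) r n)
    ((ga (2 * (K + 1)) r (n + 1) : ℝ) / ga (2 * (K + 1)) r n - (sph r (n + 1) : ℝ) / sph r n)
  rw [sub_add_sub_cancel] at h3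
  push_cast
  rw [add_div]
  linarith

end Pool.Agent.Helper524_FM
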