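import Pool.Agent.Helper524_FM.Upper4
import Pool.Agent.Helper524_FM.Magnus

/-!
# First and last letters of minimal forbidden words
-/

set_option linter.unusedSectionVars false
set_option linter.unusedSimpArgs false

namespace Pool.Agent.Helper524_FM

open scoped Classical

variable {r : ℕ}

/-- delete the letters of an axis -/
def del (i : Fin r) (w : List (Ltr (Fin r))) : List (Ltr (Fin r)) :=
  w.filter (fun l => decide (l.1 ≠ i))

/-- the corresponding map of chains -/
noncomputable def delF (i : Fin r) :
    (Fin r × (Fin r → ℤ) →₀ ℤ) →+ (Fin r × (Fin r → ℤ) →₀ ℤ) :=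
  Finsupp.liftAddHom (fun e => if e.1 = i then 0 else
    Finsupp.singleAddHom (e.1, Function.update e.2 i 0))

theorem delF_single (i : Fin r) (e : Fin r × (Fin r → ℤ)) (n : ℤ) :
    delF i (Finsupp.single e n) =
      if e.1 = i then 0 else Finsupp.single (e.1, Function.update e.2 i 0) n := by
  unfold delF
  rw [Finsupp.liftAddHom_apply_single]
  split <;> simp

theorem update_add_self {i : Fin r} {l : Ltr (Fin r)} (h : l.1 = i) (x : Fin r → ℤ) :
    Function.update (x + stp l) i 0 = Function.update x i 0 := by
  funext j
  by_cases hj : j = i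
  · subst hj; simp
  · simp [Function.update_of_ne hj, stp_level (show j ≠ l.1 by rw [h]; exact hj)]

theorem update_add_ne {i : Fin r} {l : Ltr (Fin r)} (h : l.1 ≠ i) (x : Fin r → ℤ) :
    Function.update (x + stp l) i 0 = Function.update x i 0 + stp l := by
  funext j
  by_cases hj : j = i
  · subst hj
    simp [stp_level (Ne.symm h)]
  · simp [Function.update_of_ne hj]

theorem low_update {i : Fin r} {l : Ltr (Fin r)} (h : l.1 ≠ i) (x : Fin r → ℤ) :
    Function.update (low x l) i 0 = low (Function.update x i 0) l := by
  unfold low
  split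
  · rfl
  · exact update_add_ne h x

theorem flow_del (i : Fin r) (x : Fin r → ℤ) (w : List (Ltr (Fin r))) :
    delF i (flow x w) = flow (Function.update x i 0) (del i w) := by
  induction w generalizing x with
  | nil => simp [del]
  | cons l w ih =>
    rw [flow_cons, map_add, delF_single, ih]
    by_cases h : l.1 = i
    · rw [if_pos h, zero_add, update_add_self h]
      simp [del, h]
    · rw [if_neg h, low_update h, update_add_ne h]
      simp [del, h, flow_cons]

theorem del_flow {w v : List (Ltr (Fin r))} (i : Fin r) (h : flow 0 w = flow 0 v) :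
    flow 0 (del i w) = flow 0 (del i v) := by
  have h0 : Function.update (0 : Fin r → ℤ) i 0 = 0 := by
    funext j; by_cases hj : j = i
    · subst hj; simp
    · simp [Function.update_of_ne hj]
  have h1 := flow_del i 0 w
  have h2 := flow_del i 0 v
  rw [h0] at h1 h2
  rw [← h1, ← h2, h]

theorem del_eq_self {i : Fin r} {w : List (Ltr (Fin r))} (h : i ∉ axs w) : del i w = w := by
  unfold del
  rw [List.filter_eq_self]
  intro l hl
  simp only [ne_eq, decide_not, Bool.not_eq_eq_eq_not, Bool.not_true, decide_eq_false_iff_not]
  rintro rfl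
  exact h (List.mem_map.2 ⟨l, hl, rfl⟩)

theorem del_length (i : Fin r) (w : List (Ltr (Fin r))) :
    (del i w).length + (axs w).count i = w.length := by
  induction w with
  | nil => simp [del]
  | cons l w ih =>
    by_cases h : l.1 = i
    · simp [del, h] at ih ⊢; omega
    · simp [del, h] at ih ⊢; omega

theorem del_append (i : Fin r) (u v : List (Ltr (Fin r))) :
    del i (u ++ v) = del i u ++ del i v := by simp [del]

theorem MinForb.last {φ t : List (Ltr (Fin r))} {l : Ltr (Fin r)} (h : MinForb φ)
    (hφ : φ = t ++ [l]) : l.1 ∈ axs t := by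
  rcases h.red_or with hr | ⟨m, hm⟩
  · by_contra hl
    obtain ⟨v, hv, hvm⟩ := exists_isMin φ
    have h1 := h.cross' hr hvm hv l.1
    have h2 := even_count hv l.1
    have h3 : (axs φ).count l.1 = 1 := by
      rw [hφ, axs_append, List.count_append, List.count_eq_zero.2 hl]; simp
    have h4 := del_flow l.1 hv
    have h5 : del l.1 φ = t := by
      rw [hφ, del_append, del_eq_self hl]; simp [del]
    rw [h5] at h4
    have h6 : flow 0 (del l.1 v ++ [l]) = flow 0 v := by
      rw [hv, hφ, flow_append, flow_append, h4, pos_eq_of_flow h4]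
    have h7 := isMin_length hvm h6
    have h8 := del_length l.1 v
    simp only [List.length_append, List.length_cons, List.length_nil] at h7
    omega
  · rw [hm] at hφ
    cases t with
    | nil => simp at hφ
    | cons a t' =>
      simp at hφ
      obtain ⟨rfl, h2⟩ := hφ
      cases t' with
      | nil => simp at h2; rw [← h2]; simp
      | cons b t'' => simp at h2

theorem MinForb.head {φ t : List (Ltr (Fin r))} {l : Ltr (Fin r)} (h : MinForb φ)
    (hφ : φ = l :: t) : l.1 ∈ axs t := by
  rcases h.red_or with hr | ⟨m, hm⟩
  · by_contra hl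
    obtain ⟨v, hv, hvm⟩ := exists_isMin φ
    have h1 := h.cross' hr hvm hv l.1
    have h2 := even_count hv l.1
    have h3 : (axs φ).count l.1 = 1 := by
      rw [hφ, axs_cons, List.count_cons, List.count_eq_zero.2 hl]; simp
    have h4 := del_flow l.1 hv
    have h5 : del l.1 φ = t := by
      rw [hφ]
      have : del l.1 (l :: t) = del l.1 t := by simp [del]
      rw [this, del_eq_self hl]
    rw [h5] at h4
    have h6 : flow 0 (l :: del l.1 v) = flow 0 v := by
      rw [hv, hφ, flow_cons, flow_cons, (flow_eq_iff _ _ _).2 h4]
    have h7 := isMin_length hvm h6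
    have h8 := del_length l.1 v
    simp only [List.length_cons] at h7
    omega
  · rw [hm] at hφ
    simp at hφ
    obtain ⟨rfl, rfl⟩ := hφ
    simp

theorem MinForb.lastRep {φ : List (Ltr (Fin r))} (h : MinForb φ) : LastRep φ := by
  intro l hl
  obtain ⟨t, ht⟩ := List.getLast?_eq_some_iff.1 hl
  rw [ht, List.dropLast_concat]
  exact h.last ht

theorem MinForb.headRep {φ : List (Ltr (Fin r))} (h : MinForb φ) : HeadRep φ := by
  intro l hl
  cases φ with
  | nil => simp at hl
  | cons a t =>
    simp at hl
    subst hl
    exact h.head rfl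

end Pool.Agent.Helper524_FM
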