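import Pool.Agent.Helper524_FM.Lower

/-!
# Nonempty reduced words with zero flow have length at least 14
-/

set_option linter.unusedSectionVars false
set_option linter.unusedSimpArgs false

namespace Pool.Agent.Helper524_FM

open scoped Classical

variable {r : ℕ}

/-- zero flow -/
def ZW (w : List (Ltr (Fin r))) : Prop := flow 0 w = 0

theorem ZW.pos {w : List (Ltr (Fin r))} (h : ZW w) : pos w = 0 := by
  have := endOf_flow 0 w
  rw [show flow 0 w = 0 from h, map_zero] at this
  exact this.symm

theorem ZW.isRotated {w w' : List (Ltr (Fin r))} (h : ZW w) (hw : w ~r w') : ZW w' := by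
  obtain ⟨n, rfl⟩ := hw
  obtain ⟨k, hk⟩ : ∃ k, w.rotate n = w.drop k ++ w.take k := by
    refine ⟨n % w.length, List.rotate_eq_drop_append_take_mod⟩
  rw [hk]
  apply flow_zero_rotate
  rw [List.take_append_drop]
  exact h

/-- cyclically reduced -/
def CRed (w : List (Ltr (Fin r))) : Prop := ∀ w', w ~r w' → Red w'

theorem CRed.red {w : List (Ltr (Fin r))} (h : CRed w) : Red w := h w (List.IsRotated.refl w)

theorem CRed.isRotated {w w' : List (Ltr (Fin r))} (h : CRed w) (hw : w ~r w') : CRed w' :=
  fun w'' h'' => h w'' (hw.trans h'')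

theorem Red.fac {u w : List (Ltr (Fin r))} (hw : Red w) (h : u <:+: w) : Red u :=
  fun l hl => hw l (hl.trans h)

theorem red_iff_pair {w : List (Ltr (Fin r))} :
    Red w ↔ ∀ s l t, w ≠ s ++ l :: inv l :: t := by
  constructor
  · intro h s l t e
    exact h l ⟨s, t, by simp [e]⟩
  · rintro h l ⟨s, t, e⟩
    exact h s l t (by simpa using e.symm)

/-- a word is cyclically reduced as soon as it is reduced and its ends do not cancel -/
theorem cred_of {w : List (Ltr (Fin r))} (h : Red w)
    (h2 : ∀ l w', w ≠ inv l :: (w' ++ [l])) : CRed w := by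
  rintro w' ⟨n, rfl⟩
  obtain ⟨k, hk⟩ : ∃ k, w.rotate n = w.drop k ++ w.take k :=
    ⟨n % w.length, List.rotate_eq_drop_append_take_mod⟩
  rw [hk]
  intro l hl
  rcases List.infix_append_iff_ne_nil.1 hl with h1 | h1 | ⟨x, y, hx, hy, hxy, h3, h4⟩
  · exact h l (h1.trans (List.drop_suffix _ _).isInfix)
  · exact h l (h1.trans (List.take_prefix _ _).isInfix)
  · have hx1 : x = [l] ∧ y = [inv l] := by
      have hlen := congrArg List.length hxy
      simp only [List.length_cons, List.length_nil, List.length_append] at hlen
      have hx' := List.length_pos_iff.2 hx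
      have hy' := List.length_pos_iff.2 hy
      have : x.length = 1 := by omega
      obtain ⟨a, rfl⟩ := List.length_eq_one_iff.1 this
      have : y.length = 1 := by omega
      obtain ⟨b, rfl⟩ := List.length_eq_one_iff.1 this
      simp at hxy
      exact ⟨by rw [hxy.1], by rw [hxy.2]⟩
    rw [hx1.1] at h3
    rw [hx1.2] at h4
    obtain ⟨s, hs⟩ := h3
    obtain ⟨t, ht⟩ := h4
    apply h2 l (t ++ s)
    rw [← List.take_append_drop k w, ← hs, ← ht]
    simp

/-- letters and total length mod 2 -/
noncomputable def totF : (Fin r × (Fin r → ℤ) →₀ ℤ) →+ ℤ :=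
  Finsupp.liftAddHom (fun _ => AddMonoidHom.id ℤ)

theorem totF_flow (x : Fin r → ℤ) (w : List (Ltr (Fin r))) : totF (flow x w) = tot w := by
  induction w generalizing x with
  | nil => simp
  | cons l w ih =>
    rw [flow_cons, map_add, ih, tot_cons]
    congr 1
    simp [totF]

theorem tot_parity (w : List (Ltr (Fin r))) : (tot w + w.length) % 2 = 0 := by
  induction w with
  | nil => simp
  | cons l w ih =>
    rw [tot_cons, List.length_cons]
    push_cast
    have : sgn l = 1 ∨ sgn l = -1 := by unfold sgn; split <;> simp
    rcases this with h | h <;> rw [h] <;> omega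

theorem ZW.even {w : List (Ltr (Fin r))} (h : ZW w) : w.length % 2 = 0 := by
  have h1 := tot_parity w
  have h2 : tot w = 0 := by unfold tot; rw [h.pos]; simp
  rw [h2] at h1
  omega

/-- families of level words: isolated levels carry zero words -/
theorem fam_zero {n : ℕ} {i : Fin r} (x : Fin n → (Fin r → ℤ)) (u : Fin n → List (Ltr (Fin r)))
    (hu : ∀ k, i ∉ axs (u k)) (H : ∀ j, j ≠ i → ∀ z, ∑ k, flow (x k) (u k) (j, z) = 0)
    (k : Fin n) (hk : ∀ m, m ≠ k → x m i ≠ x k i) : ZW (u k) := by
  unfold ZW
  rw [← flow_eq_zero_iff (x k)]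
  ext ⟨j, z⟩
  by_cases hj : j = i
  · subst hj; rw [flow_axis (hu k)]; rfl
  · by_cases hz : z i = x k i
    · have h1 := H j hj z
      rw [Finset.sum_eq_single k] at h1
      · simpa using h1
      · intro m _ hm
        apply flow_level (hu m)
        rw [hz]
        exact (hk m hm).symm
      · intro h; exact absurd (Finset.mem_univ k) h
    · rw [flow_level (hu k) hz]; rfl

/-- the total number of letters at each level is even -/
theorem fam_even {n : ℕ} {i : Fin r} (x : Fin n → (Fin r → ℤ)) (u : Fin n → List (Ltr (Fin r)))
    (hu : ∀ k, i ∉ axs (u k)) (H : ∀ j, j ≠ i → ∀ z, ∑ k, flow (x k) (u k) (j, z) = 0)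
    (lam : ℤ) : (∑ k ∈ Finset.univ.filter (fun k => x k i = lam), (u k).length) % 2 = 0 := by
  have h1 : ∑ k ∈ Finset.univ.filter (fun k => x k i = lam), flow (x k) (u k) = 0 := by
    ext ⟨j, z⟩
    rw [Finsupp.finsetSum_apply]
    by_cases hj : j = i
    · subst hj
      rw [Finset.sum_eq_zero]
      · rfl
      · intro k _; exact flow_axis (hu k) _ _
    · by_cases hz : z i = lam
      · have h2 := H j hj z
        rw [← Finset.sum_filter_add_sum_filter_not Finset.univ (fun k => x k i = lam)] at h2
        rw [show ∑ k ∈ Finset.univ.filter (fun k => ¬ x k i = lam), flow (x k) (u k) (j, z) = 0 by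
          apply Finset.sum_eq_zero
          intro k hk
          simp only [Finset.mem_filter, Finset.mem_univ, true_and] at hk
          apply flow_level (hu k)
          rw [hz]; exact fun h => hk h.symm, add_zero] at h2
        simpa using h2
      · rw [Finset.sum_eq_zero]
        · rfl
        · intro k hk
          simp only [Finset.mem_filter, Finset.mem_univ, true_and] at hk
          apply flow_level (hu k)
          rw [hk]; exact hz
  have h2 := congrArg totF h1
  rw [map_sum, map_zero] at h2
  simp only [totF_flow] at h2
  have h3 : ((∑ k ∈ Finset.univ.filter (fun k => x k i = lam), (u k).length : ℕ) : ℤ) % 2 = 0 := by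
    have h4 : ∀ s : Finset (Fin n), (∑ k ∈ s, tot (u k) +
        ((∑ k ∈ s, (u k).length : ℕ) : ℤ)) % 2 = 0 := by
      intro s
      induction s using Finset.induction_on with
      | empty => simp
      | insert a s ha ih =>
        rw [Finset.sum_insert ha, Finset.sum_insert ha]
        have h5 := tot_parity (u a)
        push_cast at ih ⊢
        omega
    have h5 := h4 (Finset.univ.filter (fun k => x k i = lam))
    rw [h2, zero_add] at h5
    exact h5
  exact_mod_cast h3

/-- a closed nonempty reduced word has length at least 4, and even length -/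
theorem closed_len {u : List (Ltr (Fin r))} (h0 : u ≠ []) (hr : Red u) (hp : pos u = 0) :
    4 ≤ u.length ∧ u.length % 2 = 0 := by
  have h1 := tot_parity u
  have h2 : tot u = 0 := by unfold tot; rw [hp]; simp
  rw [h2] at h1
  have h3 := List.length_pos_iff.2 h0
  refine ⟨?_, by omega⟩
  by_contra hlt
  have h4 : u.length = 2 := by omega
  obtain ⟨a, b, rfl⟩ := List.length_eq_two.1 h4
  have h5 : stp a + stp b = 0 := by simpa using hp
  have h6 : b = inv a := by
    have h7 : stp b = stp (inv a) := by rw [stp_inv]; exact (neg_eq_of_add_eq_zero_right h5).symm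
    have h8 := congrFun h7 b.1
    by_cases hab : a.1 = b.1
    · apply ltr_ext (by simp [hab])
      simp only [stp, inv_fst, hab, Pi.single_eq_same] at h8
      exact h8
    · simp only [stp, Pi.single_eq_same, inv_fst] at h8
      rw [Pi.single_eq_of_ne (Ne.symm hab)] at h8
      exact absurd h8 (sgn_ne_zero b)
  subst h6
  exact hr a ⟨[], [], by simp⟩

/-- shape of a closed reduced word of length 4 -/
theorem closed_four {u : List (Ltr (Fin r))} (hl : u.length = 4) (hr : Red u) (hp : pos u = 0) :
    ∃ a b : Ltr (Fin r), a.1 ≠ b.1 ∧ u = [a, b, inv a, inv b] := by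
  obtain ⟨a, u, rfl⟩ : ∃ a v, u = a :: v := by
    cases u with
    | nil => simp at hl
    | cons a v => exact ⟨a, v, rfl⟩
  obtain ⟨b, u, rfl⟩ : ∃ b v, u = b :: v := by
    cases u with
    | nil => simp at hl
    | cons a v => exact ⟨a, v, rfl⟩
  obtain ⟨c, u, rfl⟩ : ∃ b v, u = b :: v := by
    cases u with
    | nil => simp at hl
    | cons a v => exact ⟨a, v, rfl⟩
  obtain ⟨d, u, rfl⟩ : ∃ b v, u = b :: v := by
    cases u with
    | nil => simp at hl
    | cons a v => exact ⟨a, v, rfl⟩
  have : u = [] := by
    apply List.length_eq_zero_iff.1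
    simp only [List.length_cons] at hl; omega
  subst this
  have hab : b ≠ inv a := fun h => hr a ⟨[], [c, d], by simp [h]⟩
  have hbc : c ≠ inv b := fun h => hr b ⟨[a], [d], by simp [h]⟩
  have hcd : d ≠ inv c := fun h => hr c ⟨[a, b], [], by simp [h]⟩
  have hs : ∀ k, stp a k + stp b k + stp c k + stp d k = 0 := by
    intro k
    have := congrFun hp k
    simp only [pos_cons, pos_nil, Pi.add_apply, Pi.zero_apply, add_zero] at this
    linarith
  have sg : ∀ l : Ltr (Fin r), sgn l = 1 ∨ sgn l = -1 := by
    intro l; unfold sgn; split <;> simp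
  have sv : ∀ (l : Ltr (Fin r)) k, stp l k = if l.1 = k then sgn l else 0 := by
    intro l k
    by_cases h : l.1 = k
    · subst h; simp [stp]
    · rw [stp_level (Ne.symm h), if_neg h]
  -- consecutive letters on the same axis have the same sign
  have same : ∀ l m : Ltr (Fin r), m ≠ inv l → l.1 = m.1 → sgn l = sgn m := by
    intro l m hne he
    by_contra hs'
    apply hne
    apply eq_inv_of he.symm
    rcases sg l with h1 | h1 <;> rcases sg m with h2 | h2
    · exact absurd (h1.trans h2.symm) hs'
    · omega
    · omega
    · exact absurd (h1.trans h2.symm) hs'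
  simp only [sv] at hs
  have ha := hs a.1
  have hb := hs b.1
  have hc := hs c.1
  have hd := hs d.1
  have s1 := same a b hab
  have s2 := same b c hbc
  have s3 := same c d hcd
  refine ⟨a, b, ?_, ?_⟩
  · intro he
    have e1 := s1 he
    by_cases h1 : c.1 = b.1
    · by_cases h2 : d.1 = b.1
      · have e2 := s2 h1.symm
        have e3 := s3 (h1.trans h2.symm)
        simp only [he, h1, h2, if_true] at hb
        rcases sg a with q | q <;> rw [q] at e1 <;> omega
      · have h3 : ¬ b.1 = d.1 := fun h => h2 h.symm
        have h4 : ¬ a.1 = d.1 := fun h => h3 (he.symm.trans h)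
        have h5 : ¬ c.1 = d.1 := fun h => h3 (h1.symm.trans h)
        simp only [h3, h4, h5, if_true, if_false] at hd
        rcases sg d with q | q <;> omega
    · by_cases h2 : d.1 = b.1
      · have h3 : ¬ b.1 = c.1 := fun h => h1 h.symm
        have h4 : ¬ a.1 = c.1 := fun h => h3 (he.symm.trans h)
        have h5 : ¬ d.1 = c.1 := fun h => h3 (h2.symm.trans h)
        simp only [h3, h4, h5, if_true, if_false] at hc
        rcases sg c with q | q <;> omega
      · simp only [he, h1, h2, if_true, if_false] at hb
        rcases sg a with q | q <;> rw [q] at e1 <;> omega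
  · have hab' : ¬ a.1 = b.1 := by
      intro he
      have e1 := s1 he
      by_cases h1 : c.1 = b.1
      · by_cases h2 : d.1 = b.1
        · have e2 := s2 h1.symm
          have e3 := s3 (h1.trans h2.symm)
          simp only [he, h1, h2, if_true] at hb
          rcases sg a with q | q <;> rw [q] at e1 <;> omega
        · have h3 : ¬ b.1 = d.1 := fun h => h2 h.symm
          have h4 : ¬ a.1 = d.1 := fun h => h3 (he.symm.trans h)
          have h5 : ¬ c.1 = d.1 := fun h => h3 (h1.symm.trans h)
          simp only [h3, h4, h5, if_true, if_false] at hd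
          rcases sg d with q | q <;> omega
      · by_cases h2 : d.1 = b.1
        · have h3 : ¬ b.1 = c.1 := fun h => h1 h.symm
          have h4 : ¬ a.1 = c.1 := fun h => h3 (he.symm.trans h)
          have h5 : ¬ d.1 = c.1 := fun h => h3 (h2.symm.trans h)
          simp only [h3, h4, h5, if_true, if_false] at hc
          rcases sg c with q | q <;> omega
        · simp only [he, h1, h2, if_true, if_false] at hb
          rcases sg a with q | q <;> rw [q] at e1 <;> omega
    have hba' : ¬ b.1 = a.1 := fun h => hab' h.symm
    by_cases h1 : c.1 = a.1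
    · by_cases h2 : d.1 = a.1
      · have h3 : ¬ c.1 = b.1 := fun h => hba' (h.symm.trans h1)
        have h4 : ¬ d.1 = b.1 := fun h => hba' (h.symm.trans h2)
        simp only [hab', h3, h4, if_true, if_false] at hb
        rcases sg b with q | q <;> omega
      · by_cases h3 : d.1 = b.1
        · have h4 : ¬ c.1 = b.1 := fun h => hba' (h.symm.trans h1)
          simp only [h1, h2, hba', if_true, if_false] at ha
          simp only [hab', h3, h4, if_true, if_false] at hb
          have e1 : c = inv a := eq_inv_of h1 (by omega)
          have e2 : d = inv b := eq_inv_of h3 (by omega)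
          rw [e1, e2]
        · have h4 : ¬ a.1 = d.1 := fun h => h2 h.symm
          have h5 : ¬ b.1 = d.1 := fun h => h3 h.symm
          have h6 : ¬ c.1 = d.1 := fun h => h2 (h.symm.trans h1)
          simp only [h4, h5, h6, if_true, if_false] at hd
          rcases sg d with q | q <;> omega
    · exfalso
      by_cases h2 : d.1 = a.1
      · by_cases h3 : c.1 = b.1
        · have e2 := s2 h3.symm
          have h4 : ¬ d.1 = b.1 := fun h => hba' (h.symm.trans h2)
          simp only [hab', h3, h4, if_true, if_false] at hb
          rcases sg b with q | q <;> rw [q] at e2 <;> omega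
        · have h4 : ¬ a.1 = c.1 := fun h => h1 h.symm
          have h5 : ¬ b.1 = c.1 := fun h => h3 h.symm
          have h6 : ¬ d.1 = c.1 := fun h => h1 (h.symm.trans h2)
          simp only [h4, h5, h6, if_true, if_false] at hc
          rcases sg c with q | q <;> omega
      · simp only [hba', h1, h2, if_true, if_false] at ha
        rcases sg a with q | q <;> omega

end Pool.Agent.Helper524_FM
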