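import Pool.Agent.Helper524_FM.Struct

/-!
# Nonempty reduced relators have length at least 14
-/

set_option linter.unusedSectionVars false
set_option linter.unusedSimpArgs false

namespace Pool.Agent.Helper524_FM

open scoped Classical

variable {r : ℕ}

def sv (b : Bool) : ℤ := if b then 1 else -1

theorem sgn_eq_sv (l : Ltr (Fin r)) : sgn l = sv l.2 := rfl

theorem dec6 : ∀ s1 s2 s3 s4 s5 s6 : Bool, sv s1 + sv s2 + sv s3 + sv s4 + sv s5 + sv s6 = 0 →
    (s2 = !s1 ∧ s3 = s1 ∧ s4 = !s1 ∧ s5 = s1 ∧ s6 = !s1) ∨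
    ∃ k : Fin 6, (![s2, s3, s4, s5, s6, s1] k = ! ![s1, s2, s3, s4, s5, s6] k) ∧
      ∀ m : Fin 6, m ≠ k →
        ![sv s1, sv s1 + sv s2, sv s1 + sv s2 + sv s3, sv s1 + sv s2 + sv s3 + sv s4,
          sv s1 + sv s2 + sv s3 + sv s4 + sv s5,
          sv s1 + sv s2 + sv s3 + sv s4 + sv s5 + sv s6] m ≠
        ![sv s1, sv s1 + sv s2, sv s1 + sv s2 + sv s3, sv s1 + sv s2 + sv s3 + sv s4,
          sv s1 + sv s2 + sv s3 + sv s4 + sv s5,
          sv s1 + sv s2 + sv s3 + sv s4 + sv s5 + sv s6] k := by
  decide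

/-- an axis crossed six times forces length at least 14 -/
theorem struct6 {N : ℕ} (hN : ∀ q : List (Ltr (Fin r)), Red q → ZW q → q ≠ [] → N ≤ q.length)
    {i : Fin r} {w : List (Ltr (Fin r))} (hc : (axs w).count i = 6) (hw : CRed w) (hz : ZW w)
    (hl : w.length < N + 6) : 14 ≤ w.length := by
  obtain ⟨l1, u1, l2, u2, l3, u3, l4, u4, l5, u5, l6, u6, hrot, a1, a2, a3, a4, a5, a6,
    b1, b2, b3, b4, b5, b6⟩ := cyc6 hc
  have hlen : w.length = u1.length + u2.length + u3.length + u4.length + u5.length +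
      u6.length + 6 := by
    rw [hrot.perm.length_eq]
    simp only [List.length_cons, List.length_append]; omega
  have hz' := hz.isRotated hrot
  have hw' := hw.isRotated hrot
  have hred := hw'.red
  have n1 : sgn l2 = - sgn l1 → u1 ≠ [] := fun h =>
    hw.ne_nil (s := []) (by simpa using hrot) (a2.trans a1.symm) h
  have n2 : sgn l3 = - sgn l2 → u2 ≠ [] := fun h =>
    hw.ne_nil (s := l1 :: u1) (by simpa using hrot) (a3.trans a2.symm) h
  have n3 : sgn l4 = - sgn l3 → u3 ≠ [] := fun h =>
    hw.ne_nil (s := l1 :: (u1 ++ l2 :: u2)) (by simpa using hrot) (a4.trans a3.symm) h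
  have n4 : sgn l5 = - sgn l4 → u4 ≠ [] := fun h =>
    hw.ne_nil (s := l1 :: (u1 ++ l2 :: (u2 ++ l3 :: u3))) (by simpa using hrot)
      (a5.trans a4.symm) h
  have n5 : sgn l6 = - sgn l5 → u5 ≠ [] := fun h =>
    hw.ne_nil (s := l1 :: (u1 ++ l2 :: (u2 ++ l3 :: (u3 ++ l4 :: u4)))) (by simpa using hrot)
      (a6.trans a5.symm) h
  have rot1 : w ~r (l2 :: (u2 ++ l3 :: (u3 ++ l4 :: (u4 ++ l5 :: (u5 ++ l6 :: (u6 ++
      l1 :: u1)))))) := by
    refine hrot.trans ?_
    have := List.isRotated_append (l := l1 :: u1)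
      (l' := l2 :: (u2 ++ l3 :: (u3 ++ l4 :: (u4 ++ l5 :: (u5 ++ l6 :: u6)))))
    simpa using this
  have n6 : sgn l1 = - sgn l6 → u6 ≠ [] := fun h =>
    hw.ne_nil (s := l2 :: (u2 ++ l3 :: (u3 ++ l4 :: (u4 ++ l5 :: u5)))) (by simpa using rot1)
      (a1.trans a6.symm) h
  have r1 : Red u1 := hred.fac ⟨[l1], l2 :: (u2 ++ l3 :: (u3 ++ l4 :: (u4 ++ l5 ::
    (u5 ++ l6 :: u6)))), by simp⟩
  have r2 : Red u2 := hred.fac ⟨l1 :: (u1 ++ [l2]), l3 :: (u3 ++ l4 :: (u4 ++ l5 ::
    (u5 ++ l6 :: u6))), by simp⟩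
  have r3 : Red u3 := hred.fac ⟨l1 :: (u1 ++ l2 :: (u2 ++ [l3])), l4 :: (u4 ++ l5 ::
    (u5 ++ l6 :: u6)), by simp⟩
  have r4 : Red u4 := hred.fac ⟨l1 :: (u1 ++ l2 :: (u2 ++ l3 :: (u3 ++ [l4]))), l5 ::
    (u5 ++ l6 :: u6), by simp⟩
  have r5 : Red u5 := hred.fac ⟨l1 :: (u1 ++ l2 :: (u2 ++ l3 :: (u3 ++ l4 :: (u4 ++ [l5])))),
    l6 :: u6, by simp⟩
  have r6 : Red u6 := hred.fac ⟨l1 :: (u1 ++ l2 :: (u2 ++ l3 :: (u3 ++ l4 :: (u4 ++
    l5 :: (u5 ++ [l6]))))), [], by simp⟩
  set P1 : Fin r → ℤ := stp l1 with hP1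
  set P2 : Fin r → ℤ := P1 + pos u1 + stp l2 with hP2
  set P3 : Fin r → ℤ := P2 + pos u2 + stp l3 with hP3
  set P4 : Fin r → ℤ := P3 + pos u3 + stp l4 with hP4
  set P5 : Fin r → ℤ := P4 + pos u4 + stp l5 with hP5
  set P6 : Fin r → ℤ := P5 + pos u5 + stp l6 with hP6
  have hflow : Finsupp.single (l1.1, low 0 l1) (sgn l1) + (flow P1 u1 +
      (Finsupp.single (l2.1, low (P1 + pos u1) l2) (sgn l2) + (flow P2 u2 +
      (Finsupp.single (l3.1, low (P2 + pos u2) l3) (sgn l3) + (flow P3 u3 +
      (Finsupp.single (l4.1, low (P3 + pos u3) l4) (sgn l4) + (flow P4 u4 +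
      (Finsupp.single (l5.1, low (P4 + pos u4) l5) (sgn l5) + (flow P5 u5 +
      (Finsupp.single (l6.1, low (P5 + pos u5) l6) (sgn l6) + flow P6 u6)))))))))) = 0 := by
    have h0 : flow 0 (l1 :: (u1 ++ l2 :: (u2 ++ l3 :: (u3 ++ l4 :: (u4 ++ l5 :: (u5 ++
      l6 :: u6)))))) = 0 := hz'
    simpa only [flow_cons, flow_append, zero_add] using h0
  have hoff : ∀ j, j ≠ i → ∀ z, flow P1 u1 (j, z) + flow P2 u2 (j, z) + flow P3 u3 (j, z) +
      flow P4 u4 (j, z) + flow P5 u5 (j, z) + flow P6 u6 (j, z) = 0 := by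
    intro j hj z
    have h0 := DFunLike.congr_fun hflow (j, z)
    simp only [Finsupp.add_apply, single_off a1 _ hj, single_off a2 _ hj, single_off a3 _ hj,
      single_off a4 _ hj, single_off a5 _ hj, single_off a6 _ hj, zero_add, Finsupp.coe_zero,
      Pi.zero_apply] at h0
    linarith
  have q1 : P1 i = sv l1.2 := stp_self a1
  have q2 : P2 i = sv l1.2 + sv l2.2 := by
    simp only [hP2, Pi.add_apply, q1, pos_level b1, stp_self a2, sgn_eq_sv]; ring
  have q3 : P3 i = sv l1.2 + sv l2.2 + sv l3.2 := by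
    simp only [hP3, Pi.add_apply, q2, pos_level b2, stp_self a3, sgn_eq_sv]; ring
  have q4 : P4 i = sv l1.2 + sv l2.2 + sv l3.2 + sv l4.2 := by
    simp only [hP4, Pi.add_apply, q3, pos_level b3, stp_self a4, sgn_eq_sv]; ring
  have q5 : P5 i = sv l1.2 + sv l2.2 + sv l3.2 + sv l4.2 + sv l5.2 := by
    simp only [hP5, Pi.add_apply, q4, pos_level b4, stp_self a5, sgn_eq_sv]; ring
  have q6 : P6 i = sv l1.2 + sv l2.2 + sv l3.2 + sv l4.2 + sv l5.2 + sv l6.2 := by
    simp only [hP6, Pi.add_apply, q5, pos_level b5, stp_self a6, sgn_eq_sv]; ring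
  have hsum : sv l1.2 + sv l2.2 + sv l3.2 + sv l4.2 + sv l5.2 + sv l6.2 = 0 := by
    have := congrFun hz'.pos i
    simp only [pos_cons, pos_append, Pi.add_apply, stp_self a1, stp_self a2, stp_self a3,
      stp_self a4, stp_self a5, stp_self a6, pos_level b1, pos_level b2, pos_level b3,
      pos_level b4, pos_level b5, pos_level b6, Pi.zero_apply, sgn_eq_sv] at this
    linarith
  let xx : Fin 6 → (Fin r → ℤ) := ![P1, P2, P3, P4, P5, P6]
  let uu : Fin 6 → List (Ltr (Fin r)) := ![u1, u2, u3, u4, u5, u6]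
  have huu : ∀ k, i ∉ axs (uu k) := by
    intro k; fin_cases k <;> simpa [uu]
  have hruu : ∀ k, Red (uu k) := by
    intro k; fin_cases k <;> simpa [uu]
  have hxx : ∀ k, xx k i = ![sv l1.2, sv l1.2 + sv l2.2, sv l1.2 + sv l2.2 + sv l3.2,
      sv l1.2 + sv l2.2 + sv l3.2 + sv l4.2,
      sv l1.2 + sv l2.2 + sv l3.2 + sv l4.2 + sv l5.2,
      sv l1.2 + sv l2.2 + sv l3.2 + sv l4.2 + sv l5.2 + sv l6.2] k := by
    intro k; fin_cases k
    · exact q1
    · exact q2
    · exact q3
    · exact q4
    · exact q5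
    · exact q6
  have hluu : ∀ k, (uu k).length ≤ u1.length + u2.length + u3.length + u4.length + u5.length +
      u6.length := by
    intro k; fin_cases k
    · change u1.length ≤ _; omega
    · change u2.length ≤ _; omega
    · change u3.length ≤ _; omega
    · change u4.length ≤ _; omega
    · change u5.length ≤ _; omega
    · change u6.length ≤ _; omega
  have hH : ∀ j, j ≠ i → ∀ z, ∑ k, flow (xx k) (uu k) (j, z) = 0 := by
    intro j hj z
    simp only [Fin.sum_univ_six]
    exact hoff j hj z
  have svn : ∀ b : Bool, sv (!b) = - sv b := by decide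
  have hne : ∀ k : Fin 6, (![l2.2, l3.2, l4.2, l5.2, l6.2, l1.2] k =
      ! ![l1.2, l2.2, l3.2, l4.2, l5.2, l6.2] k) → uu k ≠ [] := by
    intro k; fin_cases k
    · intro h; exact n1 (by rw [sgn_eq_sv, sgn_eq_sv, show l2.2 = !l1.2 from h, svn])
    · intro h; exact n2 (by rw [sgn_eq_sv, sgn_eq_sv, show l3.2 = !l2.2 from h, svn])
    · intro h; exact n3 (by rw [sgn_eq_sv, sgn_eq_sv, show l4.2 = !l3.2 from h, svn])
    · intro h; exact n4 (by rw [sgn_eq_sv, sgn_eq_sv, show l5.2 = !l4.2 from h, svn])
    · intro h; exact n5 (by rw [sgn_eq_sv, sgn_eq_sv, show l6.2 = !l5.2 from h, svn])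
    · intro h; exact n6 (by rw [sgn_eq_sv, sgn_eq_sv, show l1.2 = !l6.2 from h, svn])
  rcases dec6 _ _ _ _ _ _ hsum with ⟨c2, c3, c4, c5, c6⟩ | ⟨k, hk1, hk2⟩
  · have m1 := List.length_pos_iff.2 (hne 0 c2)
    have m2 := List.length_pos_iff.2 (hne 1 (by change l3.2 = !l2.2; rw [c3, c2]; simp))
    have m3 := List.length_pos_iff.2 (hne 2 (by change l4.2 = !l3.2; rw [c4, c3]))
    have m4 := List.length_pos_iff.2 (hne 3 (by change l5.2 = !l4.2; rw [c5, c4]; simp))
    have m5 := List.length_pos_iff.2 (hne 4 (by change l6.2 = !l5.2; rw [c6, c5]))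
    have m6 := List.length_pos_iff.2 (hne 5 (by change l1.2 = !l6.2; rw [c6]; simp))
    change 0 < u1.length at m1
    change 0 < u2.length at m2
    change 0 < u3.length at m3
    change 0 < u4.length at m4
    change 0 < u5.length at m5
    change 0 < u6.length at m6
    have v0 : sv l1.2 = 1 ∨ sv l1.2 = -1 := by cases l1.2 <;> simp [sv]
    have e2 : sv l2.2 = - sv l1.2 := by rw [c2, svn]
    have e3 : sv l3.2 = sv l1.2 := by rw [c3]
    have e4 : sv l4.2 = - sv l1.2 := by rw [c4, svn]
    have e5 : sv l5.2 = sv l1.2 := by rw [c5]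
    have e6 : sv l6.2 = - sv l1.2 := by rw [c6, svn]
    have t2 : P2 i = 0 := by omega
    have t3 : P3 i = sv l1.2 := by omega
    have t4 : P4 i = 0 := by omega
    have t5 : P5 i = sv l1.2 := by omega
    have t6 : P6 i = 0 := by omega
    have nz : ¬ (sv l1.2 = 0) := by omega
    have nz' : ¬ (0 = sv l1.2) := by omega
    have f0 := fam_even xx uu huu hH 0
    have f1 := fam_even xx uu huu hH (sv l1.2)
    rw [Finset.sum_filter, Fin.sum_univ_six] at f0 f1
    have x1 : xx 0 i = sv l1.2 := q1
    have x2 : xx 1 i = 0 := t2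
    have x3 : xx 2 i = sv l1.2 := t3
    have x4 : xx 3 i = 0 := t4
    have x5 : xx 4 i = sv l1.2 := t5
    have x6 : xx 5 i = 0 := t6
    rw [x1, x2, x3, x4, x5, x6] at f0 f1
    simp only [nz, nz', if_true, if_false, zero_add, add_zero] at f0 f1
    change (u2.length + u4.length + u6.length) % 2 = 0 at f0
    change (u1.length + u3.length + u5.length) % 2 = 0 at f1
    omega
  · exfalso
    have h1 := fam_zero xx uu huu hH k (fun m hm => by rw [hxx, hxx]; exact hk2 m hm)
    have h2 := hN _ (hruu k) h1 (hne k hk1)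
    have h3 := hluu k
    omega

/-- conjugating letters can be stripped -/
theorem zw_strip {l : Ltr (Fin r)} {w : List (Ltr (Fin r))} (h : ZW (inv l :: (w ++ [l]))) :
    ZW w := by
  have h1 : ZW (l :: inv l :: w) := by
    apply h.isRotated
    have := List.isRotated_append (l := inv l :: w) (l' := [l])
    simpa using this
  unfold ZW at h1 ⊢
  have e := low_inv 0 l
  rw [zero_add] at e
  rw [flow_cons, flow_cons, zero_add, e, sgn_inv, inv_fst, stp_inv, add_neg_cancel,
    Finsupp.single_neg] at h1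
  simpa using h1

/-- **Short relators.** A nonempty reduced word with zero flow has length at least 14. -/
theorem zw_len {w : List (Ltr (Fin r))} (hr : Red w) (hz : ZW w) (h0 : w ≠ []) :
    14 ≤ w.length := by
  induction hn : w.length using Nat.strong_induction_on generalizing w with
  | _ n ih =>
    subst hn
    by_contra hlt
    have hN : ∀ q : List (Ltr (Fin r)), Red q → ZW q → q ≠ [] → w.length ≤ q.length := by
      intro q h1 h2 h3
      by_contra h4
      have := ih q.length (by omega) h1 h2 h3 rfl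
      omega
    have hcr : CRed w := by
      apply cred_of hr
      intro l w' he
      have h1 : ZW w' := zw_strip (by rw [← he]; exact hz)
      have h2 : Red w' := hr.fac ⟨[inv l], [l], by rw [he]; simp⟩
      have h3 : w' ≠ [] := by
        rintro rfl
        apply hr (inv l)
        rw [he]
        simp
      have := hN w' h2 h1 h3
      rw [he] at this
      simp only [List.length_cons, List.length_append] at this
      omega
    have hev : ∀ i, (axs w).count i % 2 = 0 := by
      intro i
      have := parity_count w i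
      rw [hz.pos] at this
      simp only [Pi.zero_apply, zero_add] at this
      omega
    have hne2 : ∀ i, (axs w).count i ≠ 2 := by
      intro i hi
      obtain ⟨w1, l, q, w2, he, -, hq⟩ := two_cross_two (i := i) (w := w) (v := []) hz hi (by simp)
      have h1 : q ≠ [] := by
        rintro rfl
        apply hr l
        rw [he]
        exact ⟨w1, w2, by simp⟩
      have h2 : Red q := hr.fac ⟨w1 ++ [l], inv l :: w2, by rw [he]; simp⟩
      have h3 := hN q h2 hq h1
      rw [he] at h3
      simp at h3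
      omega
    have hne4 : ∀ i, (axs w).count i ≠ 4 := by
      intro i hi
      obtain ⟨l, u1, u2, u3, u4, hrot, hl, b1, b2, b3, b4, m1, m2, m3, m4, p1, p3, z1, z2⟩ :=
        struct4 hN hi hcr hz (by omega)
      have hred := (hcr.isRotated hrot).red
      have r1 : Red u1 := hred.fac ⟨[l], inv l :: (u2 ++ l :: (u3 ++ inv l :: u4)), by simp⟩
      have r3 : Red u3 := hred.fac ⟨l :: (u1 ++ inv l :: (u2 ++ [l])), inv l :: u4, by simp⟩
      have c1 := closed_len m1 r1 p1
      have c3 := closed_len m3 r3 p3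
      have g2 := List.length_pos_iff.2 m2
      have g4 := List.length_pos_iff.2 m4
      have hlen := hrot.perm.length_eq
      simp only [List.length_cons, List.length_append] at hlen
      omega
    have hne6 : ∀ i, (axs w).count i ≠ 6 := by
      intro i hi
      have := struct6 hN hi hcr hz (by omega)
      omega
    -- every present axis is crossed at least eight times
    obtain ⟨l, t, rfl⟩ : ∃ l t, w = l :: t := by
      cases w with
      | nil => exact absurd rfl h0
      | cons l t => exact ⟨l, t, rfl⟩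
    have g1 : (axs (l :: t)).count l.1 ≠ 0 := by simp
    have g2 := hev l.1
    have g3 := hne2 l.1
    have g4 := hne4 l.1
    have g5 := hne6 l.1
    by_cases hall : ∀ m ∈ (l :: t), m.1 = l.1
    · -- a single axis
      have hsame : ∀ (m : Ltr (Fin r)) (s : List (Ltr (Fin r))), Red (m :: s) →
          (∀ k ∈ (m :: s), k.1 = m.1) → ∀ k ∈ (m :: s), k = m := by
        intro m s
        induction s generalizing m with
        | nil => intro _ _ k hk; simpa using hk
        | cons m' s ihs =>
          intro hrd hax k hk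
          have e1 : m' = m := by
            have a1 : m'.1 = m.1 := hax m' (by simp)
            rcases sgn_cases m with h1 | h1 <;> rcases sgn_cases m' with h2 | h2
            · exact ltr_ext a1 (h2.trans h1.symm)
            · exfalso
              have : m' = inv m := eq_inv_of a1 (by omega)
              exact hrd m ⟨[], s, by simp [this]⟩
            · exfalso
              have : m' = inv m := eq_inv_of a1 (by omega)
              exact hrd m ⟨[], s, by simp [this]⟩
            · exact ltr_ext a1 (h2.trans h1.symm)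
          subst e1
          rcases List.mem_cons.1 hk with h1 | h1
          · exact h1
          · exact ihs m' (hrd.fac ⟨[m'], [], by simp⟩)
              (fun k hk => hax k (List.mem_cons_of_mem _ hk)) k h1
      have h1 := hsame l t hr hall
      have h2 : ∀ s : List (Ltr (Fin r)), (∀ k ∈ s, k = l) → pos s l.1 = s.length * sgn l := by
        intro s
        induction s with
        | nil => intro _; simp
        | cons k s ihs =>
          intro hk
          have e1 : k = l := hk k (by simp)
          subst e1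
          rw [pos_cons, Pi.add_apply, ihs (fun m hm => hk m (List.mem_cons_of_mem _ hm)),
            stp_self rfl]
          push_cast [List.length_cons]
          ring
      have h3 := h2 _ h1
      rw [hz.pos] at h3
      have h4 : ((l :: t).length : ℤ) * sgn l ≠ 0 := by
        apply mul_ne_zero
        · simp only [List.length_cons]; push_cast; omega
        · exact sgn_ne_zero l
      exact h4 h3.symm
    · push Not at hall
      obtain ⟨m, hm, hml⟩ := hall
      have g1' : (axs (l :: t)).count m.1 ≠ 0 := by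
        apply Nat.pos_iff_ne_zero.1
        apply List.count_pos_iff.2
        exact List.mem_map.2 ⟨m, hm, rfl⟩
      have g2' := hev m.1
      have g3' := hne2 m.1
      have g4' := hne4 m.1
      have g5' := hne6 m.1
      have h5 := sum_count_le {l.1, m.1} (axs (l :: t))
      rw [Finset.sum_pair (Ne.symm hml), axs_length] at h5
      omega

end Pool.Agent.Helper524_FM
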