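import Pool.Agent.Helper524_FM.Short

/-!
# Axes crossed four or six times by a short relator
-/

set_option linter.unusedSectionVars false
set_option linter.unusedSimpArgs false

namespace Pool.Agent.Helper524_FM

open scoped Classical

variable {r : ℕ}

theorem sgn_cases (l : Ltr (Fin r)) : sgn l = 1 ∨ sgn l = -1 := by
  unfold sgn; split <;> simp

theorem split_succ {i : Fin r} {n : ℕ} {w : List (Ltr (Fin r))} (h : (axs w).count i = n + 1) :
    ∃ w1 l w2, w = w1 ++ l :: w2 ∧ l.1 = i ∧ i ∉ axs w1 ∧ (axs w2).count i = n := by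
  obtain ⟨w1, l, w2, h1, h2, h3, h4⟩ := exists_split_of_count_pos (i := i) (w := w) (by omega)
  exact ⟨w1, l, w2, h1, h2, h3, by omega⟩

theorem cyc4 {i : Fin r} {w : List (Ltr (Fin r))} (h : (axs w).count i = 4) :
    ∃ l1 u1 l2 u2 l3 u3 l4 u4,
      w ~r (l1 :: (u1 ++ l2 :: (u2 ++ l3 :: (u3 ++ l4 :: u4)))) ∧
      l1.1 = i ∧ l2.1 = i ∧ l3.1 = i ∧ l4.1 = i ∧ i ∉ axs u1 ∧ i ∉ axs u2 ∧ i ∉ axs u3 ∧
      i ∉ axs u4 := by
  obtain ⟨w0, l1, v1, rfl, h1, g0, e1⟩ := split_succ h
  obtain ⟨u1, l2, v2, rfl, h2, g1, e2⟩ := split_succ e1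
  obtain ⟨u2, l3, v3, rfl, h3, g2, e3⟩ := split_succ e2
  obtain ⟨u3, l4, v4, rfl, h4, g3, e4⟩ := split_succ e3
  refine ⟨l1, u1, l2, u2, l3, u3, l4, v4 ++ w0, ?_, h1, h2, h3, h4, g1, g2, g3, ?_⟩
  · have := List.isRotated_append (l := w0) (l' := l1 :: (u1 ++ l2 :: (u2 ++ l3 :: (u3 ++ l4 :: v4))))
    simpa using this
  · simp only [axs_append, List.mem_append, not_or]
    exact ⟨not_mem_of_count e4, g0⟩

theorem cyc6 {i : Fin r} {w : List (Ltr (Fin r))} (h : (axs w).count i = 6) :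
    ∃ l1 u1 l2 u2 l3 u3 l4 u4 l5 u5 l6 u6,
      w ~r (l1 :: (u1 ++ l2 :: (u2 ++ l3 :: (u3 ++ l4 :: (u4 ++ l5 :: (u5 ++ l6 :: u6)))))) ∧
      l1.1 = i ∧ l2.1 = i ∧ l3.1 = i ∧ l4.1 = i ∧ l5.1 = i ∧ l6.1 = i ∧
      i ∉ axs u1 ∧ i ∉ axs u2 ∧ i ∉ axs u3 ∧ i ∉ axs u4 ∧ i ∉ axs u5 ∧ i ∉ axs u6 := by
  obtain ⟨w0, l1, v1, rfl, h1, g0, e1⟩ := split_succ h
  obtain ⟨u1, l2, v2, rfl, h2, g1, e2⟩ := split_succ e1
  obtain ⟨u2, l3, v3, rfl, h3, g2, e3⟩ := split_succ e2
  obtain ⟨u3, l4, v4, rfl, h4, g3, e4⟩ := split_succ e3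
  obtain ⟨u4, l5, v5, rfl, h5, g4, e5⟩ := split_succ e4
  obtain ⟨u5, l6, v6, rfl, h6, g5, e6⟩ := split_succ e5
  refine ⟨l1, u1, l2, u2, l3, u3, l4, u4, l5, u5, l6, v6 ++ w0, ?_, h1, h2, h3, h4, h5, h6,
    g1, g2, g3, g4, g5, ?_⟩
  · have := List.isRotated_append (l := w0)
      (l' := l1 :: (u1 ++ l2 :: (u2 ++ l3 :: (u3 ++ l4 :: (u4 ++ l5 :: (u5 ++ l6 :: v6))))))
    simpa using this
  · simp only [axs_append, List.mem_append, not_or]
    exact ⟨not_mem_of_count e6, g0⟩

theorem stp_self {i : Fin r} {l : Ltr (Fin r)} (h : l.1 = i) : stp l i = sgn l := by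
  subst h; simp [stp]

/-- a factor of a cyclically reduced word between two different letters of an axis -/
theorem CRed.ne_nil {w : List (Ltr (Fin r))} (h : CRed w) {l l' : Ltr (Fin r)}
    {s u t : List (Ltr (Fin r))} (hw : w ~r (s ++ l :: (u ++ l' :: t))) (hl : l'.1 = l.1)
    (hs : sgn l' = - sgn l) : u ≠ [] := by
  rintro rfl
  have h1 := h _ hw
  have h2 : l' = inv l := eq_inv_of hl hs
  subst h2
  exact h1 l ⟨s, t, by simp⟩

theorem single_off {i : Fin r} {l : Ltr (Fin r)} (h : l.1 = i) (x : Fin r → ℤ) {j : Fin r}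
    (hj : j ≠ i) (z : Fin r → ℤ) (c : ℤ) :
    (Finsupp.single (l.1, low x l) c) (j, z) = 0 := by
  rw [Finsupp.single_apply, if_neg]
  intro h'
  exact hj ((congrArg Prod.fst h').symm.trans h)

theorem single_on {i : Fin r} {l : Ltr (Fin r)} (h : l.1 = i) (x z : Fin r → ℤ) (c : ℤ) :
    (Finsupp.single (l.1, low x l) c) (i, z) = if z = low x l then c else 0 := by
  rw [Finsupp.single_apply]
  subst h
  simp [Prod.ext_iff, eq_comm]

theorem ind_eq {A B C D : Prop} [Decidable A] [Decidable B] [Decidable C] [Decidable D] {c : ℤ} (hc : c = 1 ∨ c = -1)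
    (h : (if A then c else 0) + ((if B then -c else 0) + ((if C then c else 0) +
      (if D then -c else 0))) = 0) :
    (if A then (1 : ℤ) else 0) + (if C then 1 else 0) =
      (if B then 1 else 0) + (if D then 1 else 0) := by
  rcases hc with rfl | rfl
  · split_ifs at h ⊢ <;> omega
  · split_ifs at h ⊢ <;> omega

theorem pos_dich {p1 p2 p3 p4 : Fin r → ℤ} (tot : p1 + p2 + p3 + p4 = 0)
    (hon : ∀ x : Fin r → ℤ, (if x = 0 then (1 : ℤ) else 0) + (if x = p1 + p2 then 1 else 0) =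
      (if x = p1 then 1 else 0) + (if x = p1 + p2 + p3 then 1 else 0)) :
    (p1 = 0 ∧ p3 = 0) ∨ (p2 = 0 ∧ p4 = 0) := by
  have g1 := hon 0
  have g2 := hon (p1 + p2)
  by_cases k1 : p1 = 0
  · left
    refine ⟨k1, ?_⟩
    by_contra k3
    have k3' : ¬ (p1 + p2 = p1 + p2 + p3) := by
      intro h; exact k3 (left_eq_add.1 h)
    rw [if_neg k3', if_pos rfl] at g2
    by_cases k2 : p1 + p2 = 0
    · rw [if_pos k2, if_pos (k2.trans k1.symm)] at g2; omega
    · rw [if_neg k2, if_neg (fun h => k2 (h.trans k1))] at g2; omega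
  · right
    by_cases k4 : p1 + p2 + p3 = 0
    · have k4' : p4 = 0 := by rw [k4, zero_add] at tot; exact tot
      refine ⟨?_, k4'⟩
      rw [if_pos rfl, if_neg (Ne.symm k1), if_pos k4.symm] at g1
      have k5 : ¬ ((0 : Fin r → ℤ) = p1 + p2) := by
        intro h; rw [if_pos h] at g1; omega
      rw [if_neg (Ne.symm k5), if_pos rfl] at g2
      by_contra k6
      have k7 : ¬ (p1 + p2 = p1) := fun h => k6 (add_eq_left.1 h)
      rw [if_neg k7, k4, if_neg (Ne.symm k5)] at g2
      omega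
    · exfalso
      rw [if_pos rfl, if_neg (Ne.symm k1), if_neg (Ne.symm k4)] at g1
      split_ifs at g1 <;> omega

theorem flow_sum_shift {x x' y : Fin r → ℤ} {u v : List (Ltr (Fin r))}
    (h : flow (x + y) u + flow (x' + y) v = 0) : flow x u + flow x' v = 0 := by
  ext ⟨j, z⟩
  have h0 := DFunLike.congr_fun h (j, z + y)
  rw [Finsupp.add_apply, flow_apply_shift, flow_apply_shift] at h0
  exact h0

theorem zw_conj {p : Fin r → ℤ} {u v w : List (Ltr (Fin r))} (hu : pos u = 0) (hw : pos w = 0)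
    (hv : pos v = p) (h : flow 0 u + flow p w = 0) : ZW (u ++ v ++ w ++ invW v) := by
  unfold ZW
  simp only [flow_append, pos_append, hu, hw, hv, zero_add, add_zero]
  have := flow_invW 0 v
  rw [zero_add, hv] at this
  rw [this]
  rw [show flow 0 u + flow 0 v + flow p w + -flow 0 v = flow 0 u + flow p w by abel, h]

/-- **Structure at an axis crossed four times.** -/
theorem struct4 {N : ℕ} (hN : ∀ q : List (Ltr (Fin r)), Red q → ZW q → q ≠ [] → N ≤ q.length)
    {i : Fin r} {w : List (Ltr (Fin r))} (hc : (axs w).count i = 4) (hw : CRed w) (hz : ZW w)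
    (hl : w.length < N + 4) :
    ∃ l u1 u2 u3 u4, w ~r (l :: (u1 ++ inv l :: (u2 ++ l :: (u3 ++ inv l :: u4)))) ∧
      l.1 = i ∧ i ∉ axs u1 ∧ i ∉ axs u2 ∧ i ∉ axs u3 ∧ i ∉ axs u4 ∧
      u1 ≠ [] ∧ u2 ≠ [] ∧ u3 ≠ [] ∧ u4 ≠ [] ∧ pos u1 = 0 ∧ pos u3 = 0 ∧
      ZW (u2 ++ u4) ∧ ZW (u1 ++ u2 ++ u3 ++ invW u2) := by
  obtain ⟨l1, u1, l2, u2, l3, u3, l4, u4, hrot, a1, a2, a3, a4, b1, b2, b3, b4⟩ := cyc4 hc
  have hlen : w.length = u1.length + u2.length + u3.length + u4.length + 4 := by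
    rw [hrot.perm.length_eq]
    simp only [List.length_cons, List.length_append]; omega
  have hz' := hz.isRotated hrot
  have hw' := hw.isRotated hrot
  have hred := hw'.red
  -- the four cyclic junctions
  have n1 : sgn l2 = - sgn l1 → u1 ≠ [] := fun h =>
    hw.ne_nil (s := []) (by simpa using hrot) (a2.trans a1.symm) h
  have n2 : sgn l3 = - sgn l2 → u2 ≠ [] := fun h =>
    hw.ne_nil (s := l1 :: u1) (by simpa using hrot) (a3.trans a2.symm) h
  have n3 : sgn l4 = - sgn l3 → u3 ≠ [] := fun h =>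
    hw.ne_nil (s := l1 :: (u1 ++ l2 :: u2)) (by simpa using hrot) (a4.trans a3.symm) h
  have rot1 : w ~r (l2 :: (u2 ++ l3 :: (u3 ++ l4 :: (u4 ++ l1 :: u1)))) := by
    refine hrot.trans ?_
    have := List.isRotated_append (l := l1 :: u1) (l' := l2 :: (u2 ++ l3 :: (u3 ++ l4 :: u4)))
    simpa using this
  have n4 : sgn l1 = - sgn l4 → u4 ≠ [] := fun h =>
    hw.ne_nil (s := l2 :: (u2 ++ l3 :: u3)) (by simpa using rot1) (a1.trans a4.symm) h
  -- reducedness of the parts
  have r1 : Red u1 := hred.fac ⟨[l1], l2 :: (u2 ++ l3 :: (u3 ++ l4 :: u4)), by simp⟩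
  have r2 : Red u2 := hred.fac ⟨l1 :: (u1 ++ [l2]), l3 :: (u3 ++ l4 :: u4), by simp⟩
  have r3 : Red u3 := hred.fac ⟨l1 :: (u1 ++ l2 :: (u2 ++ [l3])), l4 :: u4, by simp⟩
  have r4 : Red u4 := hred.fac ⟨l1 :: (u1 ++ l2 :: (u2 ++ l3 :: (u3 ++ [l4]))), [], by simp⟩
  -- flows
  set P1 : Fin r → ℤ := stp l1 with hP1
  set P2 : Fin r → ℤ := P1 + pos u1 + stp l2 with hP2
  set P3 : Fin r → ℤ := P2 + pos u2 + stp l3 with hP3
  set P4 : Fin r → ℤ := P3 + pos u3 + stp l4 with hP4
  have hflow : Finsupp.single (l1.1, low 0 l1) (sgn l1) + (flow P1 u1 +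
      (Finsupp.single (l2.1, low (P1 + pos u1) l2) (sgn l2) + (flow P2 u2 +
      (Finsupp.single (l3.1, low (P2 + pos u2) l3) (sgn l3) + (flow P3 u3 +
      (Finsupp.single (l4.1, low (P3 + pos u3) l4) (sgn l4) + flow P4 u4)))))) = 0 := by
    have h0 : flow 0 (l1 :: (u1 ++ l2 :: (u2 ++ l3 :: (u3 ++ l4 :: u4)))) = 0 := hz'
    simpa only [flow_cons, flow_append, zero_add] using h0
  have hoff : ∀ j, j ≠ i → ∀ z, flow P1 u1 (j, z) + flow P2 u2 (j, z) + flow P3 u3 (j, z) +
      flow P4 u4 (j, z) = 0 := by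
    intro j hj z
    have h0 := DFunLike.congr_fun hflow (j, z)
    simp only [Finsupp.add_apply, single_off a1 _ hj, single_off a2 _ hj, single_off a3 _ hj,
      single_off a4 _ hj, zero_add, Finsupp.coe_zero, Pi.zero_apply] at h0
    linarith
  have q1 : P1 i = sgn l1 := stp_self a1
  have q2 : P2 i = sgn l1 + sgn l2 := by
    simp only [hP2, Pi.add_apply, q1, pos_level b1, stp_self a2]; ring
  have q3 : P3 i = sgn l1 + sgn l2 + sgn l3 := by
    simp only [hP3, Pi.add_apply, q2, pos_level b2, stp_self a3]; ring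
  have q4 : P4 i = sgn l1 + sgn l2 + sgn l3 + sgn l4 := by
    simp only [hP4, Pi.add_apply, q3, pos_level b3, stp_self a4]; ring
  have hsum : sgn l1 + sgn l2 + sgn l3 + sgn l4 = 0 := by
    have := congrFun hz'.pos i
    simp only [pos_cons, pos_append, Pi.add_apply, stp_self a1, stp_self a2, stp_self a3,
      stp_self a4, pos_level b1, pos_level b2, pos_level b3, pos_level b4, Pi.zero_apply] at this
    linarith
  -- the family
  let xx : Fin 4 → (Fin r → ℤ) := ![P1, P2, P3, P4]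
  let uu : Fin 4 → List (Ltr (Fin r)) := ![u1, u2, u3, u4]
  have huu : ∀ k, i ∉ axs (uu k) := by
    intro k; fin_cases k <;> simpa [uu]
  have hH : ∀ j, j ≠ i → ∀ z, ∑ k, flow (xx k) (uu k) (j, z) = 0 := by
    intro j hj z
    simp only [Fin.sum_univ_four]
    exact hoff j hj z
  have iso : ∀ k : Fin 4, (∀ m, m ≠ k → xx m i ≠ xx k i) → Red (uu k) → uu k ≠ [] →
      (uu k).length ≤ u1.length + u2.length + u3.length + u4.length → False := by
    intro k hk hr hne hle
    have h1 := fam_zero xx uu huu hH k hk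
    have h2 := hN _ hr h1 hne
    omega
  have s1 := sgn_cases l1
  have s2 := sgn_cases l2
  have s3 := sgn_cases l3
  have s4 := sgn_cases l4
  have halt : sgn l2 = - sgn l1 ∧ sgn l3 = sgn l1 ∧ sgn l4 = - sgn l1 := by
    by_contra hna
    by_cases c12 : sgn l2 = - sgn l1
    · by_cases c23 : sgn l3 = - sgn l2
      · apply hna; omega
      · -- `(s, -s, -s, s)`: level of `u1` isolated
        have e3 : sgn l3 = - sgn l1 := by omega
        have e4 : sgn l4 = sgn l1 := by omega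
        apply iso 0 _ r1 (n1 c12) (by simp only [uu]; simp; omega)
        intro m hm
        fin_cases m
        · exact absurd rfl hm
        · change P2 i ≠ P1 i; omega
        · change P3 i ≠ P1 i; omega
        · change P4 i ≠ P1 i; omega
    · -- `(s, s, -s, -s)`: level of `u2` isolated
      have e2 : sgn l2 = sgn l1 := by omega
      have e3 : sgn l3 = - sgn l2 := by omega
      apply iso 1 _ r2 (n2 e3) (by simp only [uu]; simp; omega)
      intro m hm
      fin_cases m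
      · change P1 i ≠ P2 i; omega
      · exact absurd rfl hm
      · change P3 i ≠ P2 i; omega
      · change P4 i ≠ P2 i; omega
  obtain ⟨t2, t3, t4⟩ := halt
  have m1 := n1 t2
  have m2 := n2 (by omega)
  have m3 := n3 (by omega)
  have m4 := n4 (by omega)
  have L2 : l2 = inv l1 := eq_inv_of (a2.trans a1.symm) t2
  have L3 : l3 = l1 := ltr_ext (a3.trans a1.symm) t3
  have L4 : l4 = inv l1 := eq_inv_of (a4.trans a1.symm) t4
  subst L2 L3
  subst L4
  have hP2' : P2 = pos u1 := by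
    rw [hP2, hP1, stp_inv]; abel
  have hP3' : P3 = pos u1 + pos u2 + stp l3 := by
    rw [hP3, hP2']
  have hP4' : P4 = pos u1 + pos u2 + pos u3 := by
    rw [hP4, hP3', stp_inv]; abel
  -- evaluation on the axis
  have hon : ∀ x : Fin r → ℤ, (if x = 0 then (1 : ℤ) else 0) + (if x = pos u1 + pos u2 then 1 else 0) =
      (if x = pos u1 then 1 else 0) + (if x = pos u1 + pos u2 + pos u3 then 1 else 0) := by
    intro x
    have h0 := DFunLike.congr_fun hflow (i, low x l3)
    simp only [Finsupp.add_apply, flow_axis b1, flow_axis b2, flow_axis b3, flow_axis b4,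
      Finsupp.coe_zero, Pi.zero_apply] at h0
    rw [single_on a1, single_on (l := inv l3) a1, single_on a1, single_on (l := inv l3) a1] at h0
    have w1 : low (P1 + pos u1) (inv l3) = low (pos u1) l3 := by
      rw [hP1, add_comm (stp l3), low_inv]
    have w2 : low (P3 + pos u3) (inv l3) = low (pos u1 + pos u2 + pos u3) l3 := by
      rw [hP3', show pos u1 + pos u2 + stp l3 + pos u3 = pos u1 + pos u2 + pos u3 + stp l3 by abel,
        low_inv]
    rw [w1, w2, hP2', sgn_inv] at h0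
    have inj : ∀ y y' : Fin r → ℤ, (low y l3 = low y' l3) = (y = y') := fun y y' =>
      propext ⟨low_eq_of, fun h => by rw [h]⟩
    simp only [inj, zero_add, add_zero] at h0
    exact ind_eq s1 h0
  have tot : pos u1 + pos u2 + pos u3 + pos u4 = 0 := by
    have := hz'.pos
    simp only [pos_cons, pos_append, stp_inv] at this
    rw [← this]; abel
  have hdich : (pos u1 = 0 ∧ pos u3 = 0) ∨ (pos u2 = 0 ∧ pos u4 = 0) := pos_dich tot hon
  -- the two levels
  have hlev : ∀ j z, z i = sgn l3 → j ≠ i → flow P1 u1 (j, z) + flow P3 u3 (j, z) = 0 := by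
    intro j z hzi hj
    have h0 := hoff j hj z
    have e2 : flow P2 u2 (j, z) = 0 := flow_level b2 (by rw [hzi, q2, t2]; omega) j
    have e4 : flow P4 u4 (j, z) = 0 := flow_level b4 (by rw [hzi, q4, hsum]; omega) j
    linarith
  have hlev' : ∀ j z, z i = 0 → j ≠ i → flow P2 u2 (j, z) + flow P4 u4 (j, z) = 0 := by
    intro j z hzi hj
    have h0 := hoff j hj z
    have e2 : flow P1 u1 (j, z) = 0 := flow_level b1 (by rw [hzi, q1]; omega) j
    have e4 : flow P3 u3 (j, z) = 0 := flow_level b3 (by rw [hzi, q3, t2]; omega) j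
    linarith
  have F1 : flow P1 u1 + flow P3 u3 = 0 := by
    ext ⟨j, z⟩
    by_cases hj : j = i
    · subst hj; rw [Finsupp.add_apply, flow_axis b1, flow_axis b3]; rfl
    · by_cases hzi : z i = sgn l3
      · exact hlev j z hzi hj
      · rw [Finsupp.add_apply, flow_level b1 (by rw [q1]; exact hzi),
          flow_level b3 (by rw [q3, t2]; omega)]; rfl
  have F0 : flow P2 u2 + flow P4 u4 = 0 := by
    ext ⟨j, z⟩
    by_cases hj : j = i
    · subst hj; rw [Finsupp.add_apply, flow_axis b2, flow_axis b4]; rfl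
    · by_cases hzi : z i = 0
      · exact hlev' j z hzi hj
      · rw [Finsupp.add_apply, flow_level b2 (by rw [q2, t2]; omega),
          flow_level b4 (by rw [q4, hsum]; omega)]; rfl
  rcases hdich with ⟨k1, k3⟩ | ⟨k2, k4⟩
  · refine ⟨l3, u1, u2, u3, u4, hrot, a1, b1, b2, b3, b4, m1, m2, m3, m4, k1, k3, ?_, ?_⟩
    · unfold ZW
      rw [flow_append, zero_add]
      rw [hP2', hP4', k1, k3] at F0
      simpa using F0
    · apply zw_conj k1 k3 rfl
      apply flow_sum_shift (y := stp l3)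
      rw [hP1, hP3', k1] at F1
      simpa using F1
  · have rot1' : w ~r (inv l3 :: (u2 ++ inv (inv l3) :: (u3 ++ inv l3 :: (u4 ++
        inv (inv l3) :: u1)))) := by
      rw [inv_inv]; exact rot1
    have e13 : pos u1 = - pos u3 := by
      rw [k2, k4, add_zero, add_zero] at tot
      exact eq_neg_of_add_eq_zero_left tot
    refine ⟨inv l3, u2, u3, u4, u1, rot1', a1, b2, b3, b4, b1, m2, m3, m4, m1, k2, k4, ?_, ?_⟩
    · unfold ZW
      rw [flow_append, zero_add]
      apply flow_sum_shift (y := pos u1 + stp l3)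
      rw [hP1, hP3', k2] at F1
      rw [add_comm] at F1
      rw [show (0 : Fin r → ℤ) + (pos u1 + stp l3) = pos u1 + 0 + stp l3 by abel,
        show pos u3 + (pos u1 + stp l3) = stp l3 by rw [e13]; abel]
      exact F1
    · apply zw_conj k2 k4 rfl
      apply flow_sum_shift (y := pos u1)
      rw [hP2', hP4', k2] at F0
      rw [show (0 : Fin r → ℤ) + pos u1 = pos u1 by abel,
        show pos u3 + pos u1 = pos u1 + 0 + pos u3 by abel]
      exact F0

end Pool.Agent.Helper524_FM
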