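import Pool.Agent.Helper524_FM.DP

/-!
# Certificate table S1 (span 1)
-/

namespace Pool.Agent.Helper524_FM.DP

def PS1 : SPar := ⟨1,
  [[3]],
  [],
  [[5]],
  100, 272, 100000000⟩

def TS1 : Tr :=
  let L := Tr.leaf
  let N := Tr.node
  (N (N L 3011 2573964460523446397874675460 L) 4000 4130645071235435140495525061 (N L 5110
  7001183038213738785814673460 L))

end Pool.Agent.Helper524_FM.DP
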