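import Pool.Agent.Helper524_FM.DP

/-!
# Certificate table S2 (span 2)
-/

namespace Pool.Agent.Helper524_FM.DP

def PS2 : SPar := ⟨2,
  [[2, 5],
   [3, 4],
   [4, 3],
   [5, 2]],
  [[2, 6],
   [3, 5],
   [5, 3],
   [6, 2]],
  [[3, 6],
   [4, 5],
   [5, 4],
   [6, 3]],
  100, 272, 100000000⟩

def TS2 : Tr :=
  let L := Tr.leaf
  let N := Tr.node
  (N (N (N (N (N L 2501112 1659477084311095179640290843 L) 2601102 3497818669101313631061997931 (N
  L 2611112 543235934170639666700115405 L)) 3401011 1330075862783128856401072834 (N (N L 3401012
  3904040157285878590889783752 L) 3501101 3210497772772667989063931008 (N L 3501102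
  8400545074651905528839764014 L))) 3511112 1434432193061108173128655361 (N (N (N L 3611102
  4513777378605492286959057626 L) 4300210 547687004388417265525950351 (N L 4300212
  2870511219199396766431855965 L)) 4400000 1472862516350796166492139909 (N (N L 4510201
  3617806050884335547109710189 L) 4510202 10618988923077377669538419109 L))) 5201111
  1129614578425293095126097064 (N (N (N (N L 5201112 1129614578425293095126097064 L) 5301101
  2798092401019017449983501254 (N L 5301102 2798092401019017449983501254 L)) 5311112
  1434432193061108173128655361 (N (N L 5311210 70054683459892700305701935 L) 5311212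
  1434432193061108173128655361 L)) 5411000 1489708359740068834671287359 (N (N (N L 5411002
  7807790202627709951632270753 L) 6201102 1050966165644013547135016156 (N L 6211111
  543235934170639666700115405 L)) 6211112 543235934170639666700115405 (N (N L 6311101
  3072551341935757254525752737 L) 6311102 3072551341935757254525752737 L))))

end Pool.Agent.Helper524_FM.DP
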