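import Pool.Agent.Helper524_FM.Half

/-!
# The language for the upper bound
-/

set_option linter.unusedSectionVars false
set_option linter.unusedSimpArgs false

namespace Pool.Agent.Helper524_FM

open scoped commutatorElement

variable {r : ℕ}

theorem fm_comm (A B C D : FM r) : ⁅⁅A, B⁆, ⁅C, D⁆⁆ = 1 := by
  have h0 : derivedSeries (FM r) 2 = ⊥ := by
    have h1 := map_derivedSeries_eq (f := QuotientGroup.mk' (derivedSeries (FreeGroup (Fin r)) 2))
      (QuotientGroup.mk'_surjective _) 2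
    rw [← h1]
    exact QuotientGroup.map_mk'_self _
  have h1 : ∀ A B : FM r, ⁅A, B⁆ ∈ derivedSeries (FM r) 1 := by
    intro A B
    rw [derivedSeries_one]
    exact Subgroup.commutator_mem_commutator (Subgroup.mem_top _) (Subgroup.mem_top _)
  have h2 : ⁅⁅A, B⁆, ⁅C, D⁆⁆ ∈ derivedSeries (FM r) 2 := by
    have h3 : derivedSeries (FM r) 2 = ⁅derivedSeries (FM r) 1, derivedSeries (FM r) 1⁆ :=
      derivedSeries_succ (G := FM r) 1
    rw [h3]
    exact Subgroup.commutator_mem_commutator (h1 _ _) (h1 _ _)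
  rw [h0, Subgroup.mem_bot] at h2
  exact h2

theorem gen_inv (l : Ltr (Fin r)) : gen r (inv l) = (gen r l)⁻¹ := by
  rcases l with ⟨i, b⟩
  cases b
  · simp only [gen, inv, Bool.not_false, if_true, Bool.false_eq_true, if_false]
    rw [← QuotientGroup.mk_inv, _root_.inv_inv]
  · simp only [gen, inv, Bool.not_true, if_true, Bool.false_eq_true, if_false]
    rw [← QuotientGroup.mk_inv]

theorem ev_cons (l : Ltr (Fin r)) (w : List (Ltr (Fin r))) :
    ev r (l :: w) = gen r l * ev r w := by simp [ev]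

theorem ev_nil : ev r [] = 1 := rfl

theorem ev_invW (w : List (Ltr (Fin r))) : ev r (invW w) = (ev r w)⁻¹ := by
  induction w with
  | nil => simp [ev]
  | cons l w ih => rw [invW_cons, ev_append, ih, ev_cons, ev_cons, gen_inv, ev_nil]; group

theorem ev_R0 (a b c : Ltr (Fin r)) : ev r (R0 a b c) = 1 := by
  refine Eq.trans ?_ (fm_comm (gen r a) (gen r b) (gen r c) (gen r b))
  simp only [R0, ev_cons, gen_inv, ev_nil, commutatorElement_def]
  group

theorem ev_W0 (a b c d : Ltr (Fin r)) : ev r (W0 a b c d) = 1 := by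
  refine Eq.trans ?_ (fm_comm (gen r a) (gen r b) (gen r c) (gen r d))
  simp only [W0, ev_cons, gen_inv, ev_nil, commutatorElement_def]
  group

theorem ev_rotate {w : List (Ltr (Fin r))} (h : ev r w = 1) (k : ℕ) : ev r (w.rotate k) = 1 := by
  induction k generalizing w with
  | zero => simpa using h
  | succ k ih =>
    cases w with
    | nil => simpa using h
    | cons l w =>
      rw [List.rotate_cons_succ]
      apply ih
      rw [ev_append]
      rw [ev_cons] at h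
      have h1 : ev r w = (gen r l)⁻¹ := (inv_eq_of_mul_eq_one_right h).symm
      rw [h1, ev_cons, ev_nil, mul_one, inv_mul_cancel]

theorem ev_split {w : List (Ltr (Fin r))} (h : ev r w = 1) (k : ℕ) :
    ev r (w.take k) = ev r (invW (w.drop k)) := by
  rw [ev_invW]
  have h1 : ev r (w.take k) * ev r (w.drop k) = 1 := by
    rw [← ev_append, List.take_append_drop, h]
  exact eq_inv_of_mul_eq_one_left h1

theorem ev_ph7 (x : X7 r) : ev r (ph7 x) = ev r (pv7 x) := ev_split (ev_rotate (ev_R0 _ _ _) _) 7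
theorem ev_ph8 (x : X8 r) : ev r (ph8 x) = ev r (pv8 x) := ev_split (ev_rotate (ev_W0 _ _ _ _) _) 8

theorem ph7_length (x : X7 r) : (ph7 x).length = 7 := by simp [ph7, R0]
theorem pv7_length (x : X7 r) : (pv7 x).length = 7 := by simp [pv7, R0]
theorem ph8_length (x : X8 r) : (ph8 x).length = 8 := by simp [ph8, W0]
theorem pv8_length (x : X8 r) : (pv8 x).length = 8 := by simp [pv8, W0]

/-- distinct axes -/
def D7 (x : X7 r) : Prop := (axs [x.2.1, x.2.2.1, x.2.2.2]).Nodup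
def D8 (x : X8 r) : Prop := (axs [x.2.1, x.2.2.1, x.2.2.2.1, x.2.2.2.2]).Nodup

theorem nodup3 {a b c : Fin r} (h : [a, b, c].Nodup) : a ≠ b ∧ a ≠ c ∧ b ≠ c := by
  simp only [List.nodup_cons, List.mem_cons, List.not_mem_nil, or_false, not_or,
    List.nodup_nil, not_false_eq_true, and_true] at h
  tauto

theorem D7.ne {x : X7 r} (h : D7 x) : x.2.1.1 ≠ x.2.2.1.1 ∧ x.2.1.1 ≠ x.2.2.2.1 ∧
    x.2.2.1.1 ≠ x.2.2.2.1 := nodup3 h

theorem D8.ne {x : X8 r} (h : D8 x) : x.2.1.1 ≠ x.2.2.1.1 ∧ x.2.1.1 ≠ x.2.2.2.1.1 ∧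
    x.2.1.1 ≠ x.2.2.2.2.1 ∧ x.2.2.1.1 ≠ x.2.2.2.1.1 ∧ x.2.2.1.1 ≠ x.2.2.2.2.1 ∧
    x.2.2.2.1.1 ≠ x.2.2.2.2.1 := by
  unfold D8 at h
  simp only [axs_cons, axs_nil, List.nodup_cons, List.mem_cons, List.not_mem_nil, or_false, not_or,
    List.nodup_nil, not_false_eq_true, and_true] at h
  tauto

/-- reading off the rotation index -/
def kk7 : List (Ltr (Fin r)) → Fin 7
  | [w0, w1, w2, w3, w4, w5, w6] =>
    if w0.1 = w2.1 then
      (if w1.1 = w3.1 then (if w1.1 = w5.1 then 0 else 3)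
       else (if w0.1 = w4.1 then 1 else 4))
    else (if w1.1 = w3.1 then (if w4.1 = w6.1 then 6 else 2) else 5)
  | _ => 0

theorem kk7_ph7 {x : X7 r} (h : D7 x) : kk7 (ph7 x) = x.1 := by
  obtain ⟨h1, h2, h3⟩ := h.ne
  obtain ⟨k, a, b, c⟩ := x
  simp only at h1 h2 h3
  have h1' := Ne.symm h1
  have h2' := Ne.symm h2
  have h3' := Ne.symm h3
  fin_cases k <;> simp [ph7, R0, kk7, h1, h2, h3, h1', h2', h3']

theorem inv_injective : Function.Injective (inv : Ltr (Fin r) → Ltr (Fin r)) := by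
  intro a b h
  rw [← inv_inv a, h, inv_inv]

theorem ph7_inj {x y : X7 r} (hx : D7 x) (hy : D7 y) (h : ph7 x = ph7 y) : x = y := by
  have hk : x.1 = y.1 := by rw [← kk7_ph7 hx, ← kk7_ph7 hy, h]
  obtain ⟨k, a, b, c⟩ := x
  obtain ⟨k', a', b', c'⟩ := y
  simp only at hk
  subst hk
  fin_cases k <;> simp [ph7, R0] at h <;> simp [h]

/-- reading off the rotation index -/
def kk8 : List (Ltr (Fin r)) → Fin 4
  | w0 :: w1 :: w2 :: w3 :: _ =>
    if w0.1 = w2.1 then (if w1.1 = w3.1 then 0 else 1) else (if w1.1 = w3.1 then 3 else 2)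
  | _ => 0

theorem kk8_ph8 {x : X8 r} (h : D8 x) : kk8 (ph8 x) = x.1 := by
  obtain ⟨h1, h2, h3, h4, h5, h6⟩ := h.ne
  obtain ⟨k, a, b, c, d⟩ := x
  simp only at h1 h2 h3 h4 h5 h6
  have h1' := Ne.symm h1
  have h2' := Ne.symm h2
  have h3' := Ne.symm h3
  have h4' := Ne.symm h4
  have h5' := Ne.symm h5
  have h6' := Ne.symm h6
  fin_cases k <;> simp [ph8, W0, kk8, h1, h2, h3, h4, h5, h6, h1', h2', h3', h4', h5', h6']

theorem ph8_inj {x y : X8 r} (hx : D8 x) (hy : D8 y) (h : ph8 x = ph8 y) : x = y := by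
  have hk : x.1 = y.1 := by rw [← kk8_ph8 hx, ← kk8_ph8 hy, h]
  obtain ⟨k, a, b, c, d⟩ := x
  obtain ⟨k', a', b', c', d'⟩ := y
  simp only at hk
  subst hk
  fin_cases k <;> simp [ph8, W0] at h <;> simp [h]
  exact inv_injective h.2.1

theorem D7.sw {x : X7 r} (h : D7 x) : D7 (sw7 x) := by
  obtain ⟨h1, h2, h3⟩ := h.ne
  obtain ⟨k, a, b, c⟩ := x
  simp only at h1 h2 h3
  unfold D7 sw7
  have h1' := Ne.symm h1
  have h2' := Ne.symm h2
  have h3' := Ne.symm h3
  fin_cases k <;> simp [h1, h2, h3, h1', h2', h3']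

theorem D8.sw {x : X8 r} (h : D8 x) : D8 (sw8 x) := by
  obtain ⟨h1, h2, h3, h4, h5, h6⟩ := h.ne
  obtain ⟨k, a, b, c, d⟩ := x
  simp only at h1 h2 h3 h4 h5 h6
  have h1' := Ne.symm h1
  have h2' := Ne.symm h2
  have h3' := Ne.symm h3
  have h4' := Ne.symm h4
  have h5' := Ne.symm h5
  have h6' := Ne.symm h6
  unfold D8 sw8
  fin_cases k <;> simp [h1, h2, h3, h4, h5, h6, h1', h2', h3', h4', h5', h6']

theorem D7.ne_sw {x : X7 r} (h : D7 x) : ph7 x ≠ pv7 x := by
  intro he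
  rw [← ph7_sw7] at he
  have h1 := ph7_inj h h.sw he
  obtain ⟨h2, h3, h4⟩ := h.ne
  apply h3
  have := congrArg (fun y : X7 r => y.2.1.1) h1
  exact this

theorem D8.ne_sw {x : X8 r} (h : D8 x) : ph8 x ≠ pv8 x := by
  intro he
  rw [← ph8_sw8] at he
  have h1 := ph8_inj h h.sw he
  obtain ⟨h1', h2, h3, h4, h5, h6⟩ := h.ne
  unfold sw8 at h1
  split at h1
  · exact h2 (congrArg (fun y : X8 r => y.2.1.1) h1)
  · exact h1' (congrArg (fun y : X8 r => y.2.1.1) h1)

end Pool.Agent.Helper524_FM
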