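import Pool.Agent.Helper524_FM.Upper1

/-!
# The language for the upper bound, continued
-/

set_option linter.unusedSectionVars false
set_option linter.unusedSimpArgs false

namespace Pool.Agent.Helper524_FM

open scoped Classical

variable {r : ℕ}

theorem red_cons_axis {a b : Ltr (Fin r)} {w : List (Ltr (Fin r))} (h : a.1 ≠ b.1)
    (hw : Red (b :: w)) : Red (a :: b :: w) := red_cons.2 ⟨ne_inv_of_axis h, hw⟩

theorem ph7_red {x : X7 r} (h : D7 x) : Red (ph7 x) := by
  obtain ⟨h1, h2, h3⟩ := h.ne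
  obtain ⟨k, a, b, c⟩ := x
  simp only at h1 h2 h3
  have h1' := Ne.symm h1
  have h2' := Ne.symm h2
  have h3' := Ne.symm h3
  fin_cases k <;> simp only [ph7, R0] <;>
  · simp
    repeat' (first | exact red_one _ | (apply red_cons_axis; · first | assumption))

theorem ph8_red {x : X8 r} (h : D8 x) : Red (ph8 x) := by
  obtain ⟨h1, h2, h3, h4, h5, h6⟩ := h.ne
  obtain ⟨k, a, b, c, d⟩ := x
  simp only at h1 h2 h3 h4 h5 h6
  have h1' := Ne.symm h1
  have h2' := Ne.symm h2
  have h3' := Ne.symm h3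
  have h4' := Ne.symm h4
  have h5' := Ne.symm h5
  have h6' := Ne.symm h6
  fin_cases k <;> simp only [ph8, W0] <;>
  · simp
    repeat' (first | exact red_one _ | (apply red_cons_axis; · first | assumption))

theorem ph7_last (x : X7 r) : ∀ l ∈ (ph7 x).getLast?, l.1 ∈ axs (ph7 x).dropLast := by
  obtain ⟨k, a, b, c⟩ := x
  fin_cases k <;> simp [ph7, R0]

theorem ph7_head (x : X7 r) : ∀ l ∈ (ph7 x).head?, l.1 ∈ axs (ph7 x).tail := by
  obtain ⟨k, a, b, c⟩ := x
  fin_cases k <;> simp [ph7, R0]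

theorem ph8_last (x : X8 r) : ∀ l ∈ (ph8 x).getLast?, l.1 ∈ axs (ph8 x).dropLast := by
  obtain ⟨k, a, b, c, d⟩ := x
  fin_cases k <;> simp [ph8, W0]

theorem ph8_head (x : X8 r) : ∀ l ∈ (ph8 x).head?, l.1 ∈ axs (ph8 x).tail := by
  obtain ⟨k, a, b, c, d⟩ := x
  fin_cases k <;> simp [ph8, W0]

theorem ph7_nax (x : X7 r) : nax (ph7 x) ≤ 3 := by
  have h : (axs (ph7 x)).toFinset ⊆ {x.2.1.1, x.2.2.1.1, x.2.2.2.1} := by
    obtain ⟨k, a, b, c⟩ := x
    intro i hi
    rw [List.mem_toFinset] at hi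
    simp only [Finset.mem_insert, Finset.mem_singleton]
    fin_cases k <;> simp [ph7, R0] at hi <;> tauto
  exact (Finset.card_le_card h).trans Finset.card_le_three

theorem four_axes {x : X8 r} (h : D8 x) {w : List (Ltr (Fin r))}
    (hw : x.2.1.1 ∈ axs w ∧ x.2.2.1.1 ∈ axs w ∧ x.2.2.2.1.1 ∈ axs w ∧ x.2.2.2.2.1 ∈ axs w) :
    4 ≤ nax w := by
  have h1 : (axs [x.2.1, x.2.2.1, x.2.2.2.1, x.2.2.2.2]).toFinset ⊆ (axs w).toFinset := by
    intro i hi
    rw [List.mem_toFinset] at hi ⊢
    simp only [axs_cons, axs_nil, List.mem_cons, List.not_mem_nil, or_false] at hi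
    rcases hi with rfl | rfl | rfl | rfl <;> tauto
  have h2 := Finset.card_le_card h1
  rw [List.toFinset_card_of_nodup h] at h2
  exact h2

theorem ph8_tail {x : X8 r} (h : D8 x) : 4 ≤ nax (ph8 x).tail := by
  apply four_axes h
  obtain ⟨k, a, b, c, d⟩ := x
  fin_cases k <;> simp [ph8, W0]

theorem ph8_dropLast {x : X8 r} (h : D8 x) : 4 ≤ nax (ph8 x).dropLast := by
  apply four_axes h
  obtain ⟨k, a, b, c, d⟩ := x
  fin_cases k <;> simp [ph8, W0]

/-- the forbidden words of length 7 -/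
noncomputable def F7 (r : ℕ) : Finset (List (Ltr (Fin r))) :=
  (Finset.univ.filter (fun x : X7 r => D7 x ∧ key (pv7 x) < key (ph7 x))).image ph7

/-- the forbidden words of length 8 -/
noncomputable def F8 (r : ℕ) : Finset (List (Ltr (Fin r))) :=
  (Finset.univ.filter (fun x : X8 r => D8 x ∧ key (pv8 x) < key (ph8 x))).image ph8

theorem mem_F7 {φ : List (Ltr (Fin r))} :
    φ ∈ F7 r ↔ ∃ x : X7 r, D7 x ∧ key (pv7 x) < key (ph7 x) ∧ ph7 x = φ := by
  simp [F7, and_assoc]

theorem mem_F8 {φ : List (Ltr (Fin r))} :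
    φ ∈ F8 r ↔ ∃ x : X8 r, D8 x ∧ key (pv8 x) < key (ph8 x) ∧ ph8 x = φ := by
  simp [F8, and_assoc]

theorem nax_lt_of_not_nodup {w : List (Ltr (Fin r))} (h : ¬ (axs w).Nodup) :
    nax w < w.length := by
  by_contra hlt
  apply h
  have h1 : nax w = (axs w).dedup.length := List.card_toFinset _
  have h2 : (axs w).dedup = axs w := (List.dedup_sublist _).eq_of_length_le (by
    rw [axs_length]; omega)
  rw [← h2]
  exact List.nodup_dedup _

theorem card_X7_dist {r : ℕ} (hr : 0 < r) : 56 * r ^ 3 ≤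
    (Finset.univ.filter (fun x : X7 r => D7 x)).card + 7 * (r ^ 2 * 4 ^ 3) := by
  have h1 : (Finset.univ.filter (fun x : X7 r => D7 x)).card +
      (Finset.univ.filter (fun x : X7 r => ¬ D7 x)).card = (Finset.univ : Finset (X7 r)).card :=
    Finset.card_filter_add_card_filter_not (s := (Finset.univ : Finset (X7 r))) (fun x => D7 x)
  have h2 : (Finset.univ : Finset (X7 r)).card = 56 * r ^ 3 := by
    rw [Finset.card_univ]
    simp [X7, Fintype.card_prod]; ring
  have h3 : (Finset.univ.filter (fun x : X7 r => ¬ D7 x)).card ≤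
      ((Finset.univ : Finset (Fin 7)) ×ˢ ((words r 3).filter (fun w => nax w ≤ 2))).card := by
    apply Finset.card_le_card_of_injOn (fun x => (x.1, [x.2.1, x.2.2.1, x.2.2.2]))
    · intro x hx
      simp only [Finset.coe_filter, Finset.mem_univ, true_and, Set.mem_ofPred_eq] at hx
      simp only [Finset.coe_product, Set.mem_prod, Finset.coe_univ, Set.mem_univ, true_and,
        Finset.mem_coe, Finset.mem_filter, mem_words, List.length_cons, List.length_nil]
      have := nax_lt_of_not_nodup hx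
      simp only [List.length_cons, List.length_nil] at this
      omega
    · rintro ⟨k, a, b, c⟩ _ ⟨k', a', b', c'⟩ _ h
      simpa using h
  rw [Finset.card_product, Finset.card_univ, Fintype.card_fin] at h3
  have h4 := card_nax_le hr 2 3
  omega

theorem card_X8_dist {r : ℕ} (hr : 0 < r) : 64 * r ^ 4 ≤
    (Finset.univ.filter (fun x : X8 r => D8 x)).card + 4 * (r ^ 3 * 6 ^ 4) := by
  have h1 : (Finset.univ.filter (fun x : X8 r => D8 x)).card +
      (Finset.univ.filter (fun x : X8 r => ¬ D8 x)).card = (Finset.univ : Finset (X8 r)).card :=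
    Finset.card_filter_add_card_filter_not (s := (Finset.univ : Finset (X8 r))) (fun x => D8 x)
  have h2 : (Finset.univ : Finset (X8 r)).card = 64 * r ^ 4 := by
    rw [Finset.card_univ]
    simp [X8, Fintype.card_prod]; ring
  have h3 : (Finset.univ.filter (fun x : X8 r => ¬ D8 x)).card ≤
      ((Finset.univ : Finset (Fin 4)) ×ˢ ((words r 4).filter (fun w => nax w ≤ 3))).card := by
    apply Finset.card_le_card_of_injOn (fun x => (x.1, [x.2.1, x.2.2.1, x.2.2.2.1, x.2.2.2.2]))
    · intro x hx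
      simp only [Finset.coe_filter, Finset.mem_univ, true_and, Set.mem_ofPred_eq] at hx
      simp only [Finset.coe_product, Set.mem_prod, Finset.coe_univ, Set.mem_univ, true_and,
        Finset.mem_coe, Finset.mem_filter, mem_words, List.length_cons, List.length_nil]
      have := nax_lt_of_not_nodup hx
      simp only [List.length_cons, List.length_nil] at this
      omega
    · rintro ⟨k, a, b, c, d⟩ _ ⟨k', a', b', c', d'⟩ _ h
      simpa using h
  rw [Finset.card_product, Finset.card_univ, Fintype.card_fin] at h3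
  have h4 := card_nax_le hr 3 4
  omega

theorem card_F7 {r : ℕ} (hr : 0 < r) : 28 * r ^ 3 ≤ (F7 r).card + 224 * r ^ 2 := by
  have h1 : (F7 r).card =
      (Finset.univ.filter (fun x : X7 r => D7 x ∧ key (pv7 x) < key (ph7 x))).card := by
    unfold F7
    apply Finset.card_image_of_injOn
    intro x hx y hy h
    simp only [Finset.coe_filter, Finset.mem_univ, true_and, Set.mem_ofPred_eq] at hx hy
    exact ph7_inj hx.1 hy.1 h
  have h2 := card_X7_dist hr
  have h3 : (Finset.univ.filter (fun x : X7 r => D7 x)) ⊆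
      (Finset.univ.filter (fun x : X7 r => D7 x ∧ key (pv7 x) < key (ph7 x))) ∪
      (Finset.univ.filter (fun x : X7 r => D7 x ∧ key (pv7 x) < key (ph7 x))).image sw7 := by
    intro x hx
    simp only [Finset.mem_filter, Finset.mem_univ, true_and, Finset.mem_union,
      Finset.mem_image] at hx ⊢
    rcases lt_trichotomy (key (pv7 x)) (key (ph7 x)) with h | h | h
    · exact Or.inl ⟨hx, h⟩
    · exact absurd (key_inj h).symm hx.ne_sw
    · right
      refine ⟨sw7 x, ⟨hx.sw, ?_⟩, sw7_sw7 x⟩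
      rw [ph7_sw7, pv7_sw7]; exact h
  have h4 := (Finset.card_le_card h3).trans (Finset.card_union_le _ _)
  have h5 : ((Finset.univ.filter (fun x : X7 r => D7 x ∧ key (pv7 x) < key (ph7 x))).image
      sw7).card ≤ _ := Finset.card_image_le
  rw [h1]
  have h6 : 7 * (r ^ 2 * 4 ^ 3) = 448 * r ^ 2 := by ring
  omega

theorem card_F8 {r : ℕ} (hr : 0 < r) : 32 * r ^ 4 ≤ (F8 r).card + 2592 * r ^ 3 := by
  have h1 : (F8 r).card =
      (Finset.univ.filter (fun x : X8 r => D8 x ∧ key (pv8 x) < key (ph8 x))).card := by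
    unfold F8
    apply Finset.card_image_of_injOn
    intro x hx y hy h
    simp only [Finset.coe_filter, Finset.mem_univ, true_and, Set.mem_ofPred_eq] at hx hy
    exact ph8_inj hx.1 hy.1 h
  have h2 := card_X8_dist hr
  have h3 : (Finset.univ.filter (fun x : X8 r => D8 x)) ⊆
      (Finset.univ.filter (fun x : X8 r => D8 x ∧ key (pv8 x) < key (ph8 x))) ∪
      (Finset.univ.filter (fun x : X8 r => D8 x ∧ key (pv8 x) < key (ph8 x))).image sw8 := by
    intro x hx
    simp only [Finset.mem_filter, Finset.mem_univ, true_and, Finset.mem_union,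
      Finset.mem_image] at hx ⊢
    rcases lt_trichotomy (key (pv8 x)) (key (ph8 x)) with h | h | h
    · exact Or.inl ⟨hx, h⟩
    · exact absurd (key_inj h).symm hx.ne_sw
    · right
      refine ⟨sw8 x, ⟨hx.sw, ?_⟩, sw8_sw8 x⟩
      rw [ph8_sw8, pv8_sw8]; exact h
  have h4 := (Finset.card_le_card h3).trans (Finset.card_union_le _ _)
  have h5 : ((Finset.univ.filter (fun x : X8 r => D8 x ∧ key (pv8 x) < key (ph8 x))).image
      sw8).card ≤ _ := Finset.card_image_le
  rw [h1]
  have h6 : 4 * (r ^ 3 * 6 ^ 4) = 5184 * r ^ 3 := by ring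
  omega

/-- the language -/
def UL (w : List (Ltr (Fin r))) : Prop :=
  Red w ∧ (∀ φ ∈ F7 r, ¬ φ <:+: w) ∧ (∀ φ ∈ F8 r, ¬ φ <:+: w)

theorem UL.fac {u w : List (Ltr (Fin r))} (hw : UL w) (h : u <:+: w) : UL u :=
  ⟨hw.1.fac h, fun φ hφ h' => hw.2.1 φ hφ (h'.trans h), fun φ hφ h' => hw.2.2 φ hφ (h'.trans h)⟩

noncomputable def UA (r n : ℕ) : Finset (List (Ltr (Fin r))) := (words r n).filter UL

theorem mem_UA {n : ℕ} {w : List (Ltr (Fin r))} : w ∈ UA r n ↔ w.length = n ∧ UL w := by
  simp [UA]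

/-- every element has a geodesic representative in the language -/
theorem exists_UL (g : FM r) : ∃ w : List (Ltr (Fin r)), w.length = wlen r g ∧ ev r w = g ∧ UL w := by
  have hne : ∃ n, ∃ v : List (Ltr (Fin r)), ev r v = g ∧ key v = n := by
    obtain ⟨w, hw⟩ := ev_surj r g
    exact ⟨key w, w, hw, rfl⟩
  obtain ⟨w, hw, hk⟩ := Nat.find_spec hne
  have hmin : ∀ w', ev r w' = g → key w ≤ key w' := by
    intro w' hw'
    rw [hk]
    exact Nat.find_min' hne ⟨w', hw', rfl⟩
  refine ⟨w, ?_, hw, ?_, ?_, ?_⟩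
  · apply le_antisymm
    · obtain ⟨v, hv1, hv2⟩ := wlen_spec r g
      rw [← hv1]
      exact length_le_of_key (hmin v hv2)
    · rw [← hw]; exact wlen_le w
  · rintro l ⟨s, t, rfl⟩
    have h1 : ev r (s ++ t) = g := by
      rw [← hw]
      simp only [ev_append, ev_cons, ev_nil, gen_inv]
      group
    have h2 := length_le_of_key (hmin _ h1)
    simp at h2
  · rintro φ hφ ⟨s, t, rfl⟩
    obtain ⟨x, -, hx, rfl⟩ := mem_F7.1 hφ
    have h1 : ev r (s ++ pv7 x ++ t) = g := by
      rw [← hw, ev_append, ev_append, ev_append, ev_append, ev_ph7]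
    have h2 := hmin _ h1
    have h3 := key_ctx (u := s) (v := t) ((pv7_length x).trans (ph7_length x).symm) hx
    omega
  · rintro φ hφ ⟨s, t, rfl⟩
    obtain ⟨x, -, hx, rfl⟩ := mem_F8.1 hφ
    have h1 : ev r (s ++ pv8 x ++ t) = g := by
      rw [← hw, ev_append, ev_append, ev_append, ev_append, ev_ph8]
    have h2 := hmin _ h1
    have h3 := key_ctx (u := s) (v := t) ((pv8_length x).trans (ph8_length x).symm) hx
    omega

theorem sph_le_UA (r n : ℕ) : sph r n ≤ (UA r n).card := by
  rw [sph_eq]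
  have h1 : sphF r n ⊆ (UA r n).image (ev r) := by
    intro g hg
    rw [mem_sphF] at hg
    obtain ⟨w, h1, h2, h3⟩ := exists_UL g
    rw [Finset.mem_image]
    exact ⟨w, mem_UA.2 ⟨by omega, h3⟩, h2⟩
  exact (Finset.card_le_card h1).trans Finset.card_image_le

end Pool.Agent.Helper524_FM
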