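import Pool.Agent.Helper524_FM.Upper2

/-!
# Recursion for the language of the upper bound
-/

set_option linter.unusedSectionVars false
set_option linter.unusedSimpArgs false

namespace Pool.Agent.Helper524_FM

open scoped Classical

variable {r : ℕ}

/-- the last seven letters -/
def last7 (w : List (Ltr (Fin r))) : List (Ltr (Fin r)) := w.drop (w.length - 7)

theorem last7_length (w : List (Ltr (Fin r))) : (last7 w).length ≤ 7 := by
  simp [last7]; omega

theorem suffix_last7 {s w : List (Ltr (Fin r))} (h : s <:+ w) (hl : s.length ≤ 7) :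
    s <:+ last7 w := by
  apply List.suffix_of_suffix_length_le h (List.drop_suffix _ _)
  have := h.length_le
  simp; omega

theorem axs_sub_of_infix {s w : List (Ltr (Fin r))} (h : s <:+: w) {i : Fin r} (hi : i ∈ axs s) :
    i ∈ axs w := by
  obtain ⟨a, b, rfl⟩ := h
  simp [hi]

/-- the axis of the last letter occurs before -/
def LastRep (φ : List (Ltr (Fin r))) : Prop := ∀ l ∈ φ.getLast?, l.1 ∈ axs φ.dropLast

/-- the axis of the first letter occurs again -/
def HeadRep (φ : List (Ltr (Fin r))) : Prop := ∀ l ∈ φ.head?, l.1 ∈ axs φ.tail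

theorem ext_avoid {φ w : List (Ltr (Fin r))} {l : Ltr (Fin r)} (hφ : LastRep φ)
    (h8 : φ.length ≤ 8) (h0 : φ ≠ []) (hw : ¬ φ <:+: w) (hl : l.1 ∉ axs (last7 w)) :
    ¬ φ <:+: w ++ [l] := by
  intro h
  rcases List.infix_concat_iff.1 h with h | h
  · rcases List.suffix_concat_iff.1 h with h | ⟨t, ht, hs⟩
    · exact h0 h
    · subst ht
      apply hl
      have h1 := hφ l (by simp)
      rw [List.dropLast_concat] at h1
      have h2 := suffix_last7 hs (by simp at h8; omega)
      exact axs_sub_of_infix h2.isInfix h1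
  · exact hw h

theorem pair_lastRep (m : Ltr (Fin r)) : LastRep [m, inv m] := by
  intro l hl
  simp at hl
  subst hl
  simp

theorem pair_headRep (m : Ltr (Fin r)) : HeadRep [m, inv m] := by
  intro l hl
  simp at hl
  subst hl
  simp

theorem F7_props {φ : List (Ltr (Fin r))} (h : φ ∈ F7 r) :
    φ.length = 7 ∧ LastRep φ ∧ HeadRep φ ∧ Red φ ∧ nax φ ≤ 3 := by
  obtain ⟨x, hx, -, rfl⟩ := mem_F7.1 h
  exact ⟨ph7_length x, ph7_last x, ph7_head x, ph7_red hx, ph7_nax x⟩

theorem F8_props {φ : List (Ltr (Fin r))} (h : φ ∈ F8 r) :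
    φ.length = 8 ∧ LastRep φ ∧ HeadRep φ ∧ Red φ ∧ 4 ≤ nax φ.tail ∧ 4 ≤ nax φ.dropLast := by
  obtain ⟨x, hx, -, rfl⟩ := mem_F8.1 h
  exact ⟨ph8_length x, ph8_last x, ph8_head x, ph8_red hx, ph8_tail hx, ph8_dropLast hx⟩

theorem ne_nil_of_length {φ : List (Ltr (Fin r))} {n : ℕ} (h : φ.length = n + 1) : φ ≠ [] := by
  rintro rfl; simp at h

theorem UL.ext {w : List (Ltr (Fin r))} {l : Ltr (Fin r)} (hw : UL w)
    (hl : l.1 ∉ axs (last7 w)) : UL (w ++ [l]) := by
  refine ⟨fun m => ext_avoid (pair_lastRep m) (by simp) (by simp) (hw.1 m) hl, ?_, ?_⟩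
  · intro φ hφ
    obtain ⟨h1, h2, -⟩ := F7_props hφ
    exact ext_avoid h2 (by omega) (ne_nil_of_length h1) (hw.2.1 φ hφ) hl
  · intro φ hφ
    obtain ⟨h1, h2, -⟩ := F8_props hφ
    exact ext_avoid h2 (by omega) (ne_nil_of_length h1) (hw.2.2 φ hφ) hl

theorem card_letters (r : ℕ) : (Finset.univ : Finset (Ltr (Fin r))).card = 2 * r := by
  simp [Fintype.card_prod, mul_comm]

theorem UA_lower (r n : ℕ) : (2 * r - 14) * (UA r n).card ≤ (UA r (n + 1)).card := by
  set S : Finset (List (Ltr (Fin r)) × Ltr (Fin r)) :=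
    (UA r n ×ˢ Finset.univ).filter (fun p => p.2.1 ∉ axs (last7 p.1)) with hS
  have hScard : (2 * r - 14) * (UA r n).card ≤ S.card := by
    have h1 : S.card = ∑ w ∈ UA r n,
        (Finset.univ.filter (fun l : Ltr (Fin r) => l.1 ∉ axs (last7 w))).card := by
      rw [hS, Finset.card_filter, Finset.sum_product]
      apply Finset.sum_congr rfl
      intro w _
      rw [Finset.card_filter]
    rw [h1, mul_comm, ← smul_eq_mul, ← Finset.sum_const]
    apply Finset.sum_le_sum
    intro w _
    have h2 : (Finset.univ.filter (fun l : Ltr (Fin r) => l.1 ∈ axs (last7 w))).card ≤ 14 := by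
      have h3 : (Finset.univ.filter (fun l : Ltr (Fin r) => l.1 ∈ axs (last7 w))) ⊆
          (axs (last7 w)).toFinset ×ˢ Finset.univ := by
        rintro ⟨i, b⟩ hi
        simp only [Finset.mem_filter, Finset.mem_univ, true_and] at hi
        simp [hi]
      have h4 := Finset.card_le_card h3
      rw [Finset.card_product, Finset.card_univ, Fintype.card_bool] at h4
      have h5 := (axs (last7 w)).toFinset_card_le
      rw [axs_length] at h5
      have h6 := last7_length w
      omega
    have h3 : (Finset.univ.filter (fun l : Ltr (Fin r) => l.1 ∈ axs (last7 w))).card +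
      (Finset.univ.filter (fun l : Ltr (Fin r) => l.1 ∉ axs (last7 w))).card =
      (Finset.univ : Finset (Ltr (Fin r))).card :=
      Finset.card_filter_add_card_filter_not (fun l : Ltr (Fin r) => l.1 ∈ axs (last7 w))
    rw [card_letters] at h3
    omega
  refine hScard.trans ?_
  apply Finset.card_le_card_of_injOn (fun p => p.1 ++ [p.2])
  · rintro ⟨w, l⟩ hp
    simp only [hS, Finset.coe_filter, Finset.mem_product, Finset.mem_univ, and_true,
      Set.mem_ofPred_eq, mem_UA] at hp
    simp only [Finset.mem_coe, mem_UA, List.length_append, List.length_cons, List.length_nil]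
    exact ⟨by omega, hp.1.2.ext hp.2⟩
  · rintro ⟨w, l⟩ _ ⟨w', l'⟩ _ h
    simp only at h
    have := List.append_inj' h rfl
    simp at this
    simp [this.1, this.2]

/-- the words completed by `φ` -/
noncomputable def BB (r m : ℕ) (φ : List (Ltr (Fin r))) : Finset (List (Ltr (Fin r))) :=
  (words r m).filter (fun u => UL (u ++ φ.dropLast))

theorem UA_upper {r n : ℕ} (hn : 7 ≤ n) : (UA r (n + 1)).card +
    (∑ φ ∈ F7 r, (BB r (n + 1 - 7) φ).card + ∑ φ ∈ F8 r, (BB r (n + 1 - 8) φ).card) ≤
      (2 * r - 1) * (UA r n).card := by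
  set S : Finset (List (Ltr (Fin r)) × Ltr (Fin r)) :=
    (UA r n ×ˢ Finset.univ).filter (fun p => p.1.getLast? ≠ some (inv p.2)) with hS
  have hScard : S.card ≤ (2 * r - 1) * (UA r n).card := by
    have h1 : S.card = ∑ w ∈ UA r n,
        (Finset.univ.filter (fun l : Ltr (Fin r) => w.getLast? ≠ some (inv l))).card := by
      rw [hS, Finset.card_filter, Finset.sum_product]
      apply Finset.sum_congr rfl
      intro w _
      rw [Finset.card_filter]
    rw [h1, mul_comm, ← smul_eq_mul, ← Finset.sum_const]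
    apply Finset.sum_le_sum
    intro w hw
    rw [mem_UA] at hw
    have h2 : 1 ≤ (Finset.univ.filter (fun l : Ltr (Fin r) => w.getLast? = some (inv l))).card := by
      rw [Nat.one_le_iff_ne_zero, ← Nat.pos_iff_ne_zero, Finset.card_pos]
      have hne : w ≠ [] := by rintro rfl; simp at hw; omega
      refine ⟨inv (w.getLast hne), ?_⟩
      simp [List.getLast?_eq_getLast_of_ne_nil hne]
    have h3 : (Finset.univ.filter (fun l : Ltr (Fin r) => w.getLast? = some (inv l))).card +
      (Finset.univ.filter (fun l : Ltr (Fin r) => w.getLast? ≠ some (inv l))).card =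
      (Finset.univ : Finset (Ltr (Fin r))).card :=
      Finset.card_filter_add_card_filter_not (fun l : Ltr (Fin r) => w.getLast? = some (inv l))
    rw [card_letters] at h3
    omega
  set f : List (Ltr (Fin r)) × Ltr (Fin r) → List (Ltr (Fin r)) := fun p => p.1 ++ [p.2] with hf
  set E7 : Finset (List (Ltr (Fin r))) :=
    (F7 r).biUnion (fun φ => (BB r (n + 1 - 7) φ).image (· ++ φ)) with hE7
  set E8 : Finset (List (Ltr (Fin r))) :=
    (F8 r).biUnion (fun φ => (BB r (n + 1 - 8) φ).image (· ++ φ)) with hE8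
  have mem7 : ∀ w, w ∈ E7 ↔ ∃ φ ∈ F7 r, ∃ u, u.length = n + 1 - 7 ∧ UL (u ++ φ.dropLast) ∧
      u ++ φ = w := by
    intro w; simp [hE7, BB, and_assoc]
  have mem8 : ∀ w, w ∈ E8 ↔ ∃ φ ∈ F8 r, ∃ u, u.length = n + 1 - 8 ∧ UL (u ++ φ.dropLast) ∧
      u ++ φ = w := by
    intro w; simp [hE8, BB, and_assoc]
  -- the words come from `S`
  have comp : ∀ (φ u : List (Ltr (Fin r))), Red φ → 2 ≤ φ.length → u.length + φ.length = n + 1 →
      UL (u ++ φ.dropLast) → u ++ φ ∈ S.image f := by
    intro φ u hred h2 hlen hul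
    obtain ⟨t, l, rfl⟩ : ∃ t l, φ = t ++ [l] := by
      rcases List.eq_nil_or_concat φ with h | ⟨t, l, h⟩
      · subst h; simp at h2
      · exact ⟨t, l, by simpa using h⟩
    obtain ⟨t, m, rfl⟩ : ∃ s m, t = s ++ [m] := by
      rcases List.eq_nil_or_concat t with h | ⟨t, l, h⟩
      · subst h; simp at h2
      · exact ⟨t, l, by simpa using h⟩
    rw [List.dropLast_concat] at hul
    rw [Finset.mem_image]
    refine ⟨(u ++ (t ++ [m]), l), ?_, by simp [hf]⟩
    simp only [hS, Finset.mem_filter, Finset.mem_product, Finset.mem_univ, and_true, mem_UA]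
    refine ⟨⟨by simp at hlen ⊢; omega, hul⟩, ?_⟩
    intro h
    have h3 : m = inv l := by
      rw [← List.append_assoc, List.getLast?_concat] at h
      exact Option.some.inj h
    apply hred m
    refine ⟨t, [], ?_⟩
    rw [h3]; simp
  have hsub : (UA r (n + 1) ∪ (E7 ∪ E8)) ⊆ S.image f := by
    intro w hw
    rw [Finset.mem_union, Finset.mem_union, mem7, mem8, mem_UA] at hw
    rcases hw with ⟨h1, h2⟩ | ⟨φ, hφ, u, h1, h2, rfl⟩ | ⟨φ, hφ, u, h1, h2, rfl⟩
    · have := comp w [] h2.1 (by omega) (by simp; omega) (h2.fac (by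
        simpa using (List.dropLast_prefix w).isInfix))
      simpa using this
    · obtain ⟨g1, g2, g3, g4, g5⟩ := F7_props hφ
      exact comp φ u g4 (by omega) (by omega) h2
    · obtain ⟨g1, g2, g3, g4, g5⟩ := F8_props hφ
      exact comp φ u g4 (by omega) (by omega) h2
  have hdis78 : Disjoint E7 E8 := by
    rw [Finset.disjoint_left]
    intro w h7 h8
    obtain ⟨φ, hφ, u, h1, h2, h3⟩ := (mem7 w).1 h7
    obtain ⟨ψ, hψ, v, k1, k2, k3⟩ := (mem8 w).1 h8
    obtain ⟨g1, g2, g3, g4, g5⟩ := F7_props hφ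
    obtain ⟨e1, e2, e3, e4, e5, e6⟩ := F8_props hψ
    cases ψ with
    | nil => simp at e1
    | cons m ψ' =>
      have h4 : u ++ φ = (v ++ [m]) ++ ψ' := by rw [h3, ← k3]; simp
      have h5 := (List.append_inj' h4 (by simp at e1; omega)).2
      simp only [List.tail_cons] at e5
      rw [h5] at g5
      omega
  have hdis : Disjoint (UA r (n + 1)) (E7 ∪ E8) := by
    rw [Finset.disjoint_left]
    intro w hw h
    rw [mem_UA] at hw
    rw [Finset.mem_union, mem7, mem8] at h
    rcases h with ⟨φ, hφ, u, h1, h2, rfl⟩ | ⟨φ, hφ, u, h1, h2, rfl⟩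
    · exact hw.2.2.1 φ hφ (List.suffix_append _ _).isInfix
    · exact hw.2.2.2 φ hφ (List.suffix_append _ _).isInfix
  have c7 : E7.card = ∑ φ ∈ F7 r, (BB r (n + 1 - 7) φ).card := by
    rw [hE7, Finset.card_biUnion]
    · apply Finset.sum_congr rfl
      intro φ _
      exact Finset.card_image_of_injective _ (fun a b h => (List.append_left_inj φ).1 h)
    · intro φ hφ ψ hψ hne
      rw [Function.onFun, Finset.disjoint_left]
      intro w h1 h2
      rw [Finset.mem_image] at h1 h2
      obtain ⟨u, -, hu⟩ := h1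
      obtain ⟨v, -, hv⟩ := h2
      apply hne
      exact (List.append_inj' (hu.trans hv.symm) ((F7_props hφ).1.trans (F7_props hψ).1.symm)).2
  have c8 : E8.card = ∑ φ ∈ F8 r, (BB r (n + 1 - 8) φ).card := by
    rw [hE8, Finset.card_biUnion]
    · apply Finset.sum_congr rfl
      intro φ _
      exact Finset.card_image_of_injective _ (fun a b h => (List.append_left_inj φ).1 h)
    · intro φ hφ ψ hψ hne
      rw [Function.onFun, Finset.disjoint_left]
      intro w h1 h2
      rw [Finset.mem_image] at h1 h2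
      obtain ⟨u, -, hu⟩ := h1
      obtain ⟨v, -, hv⟩ := h2
      apply hne
      exact (List.append_inj' (hu.trans hv.symm) ((F8_props hφ).1.trans (F8_props hψ).1.symm)).2
  have h1 := (Finset.card_le_card hsub).trans (Finset.card_image_le.trans hScard)
  rw [Finset.card_union_of_disjoint hdis, Finset.card_union_of_disjoint hdis78, c7, c8] at h1
  exact h1

end Pool.Agent.Helper524_FM
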