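import Pool.Agent.Helper524_FM.Upper3

/-!
# The upper bound for the growth rate
-/

set_option linter.unusedSectionVars false
set_option linter.unusedSimpArgs false

namespace Pool.Agent.Helper524_FM

open scoped Classical

variable {r : ℕ}

theorem junction_avoid {ψ u t : List (Ltr (Fin r))} (hψ : HeadRep ψ) (h8 : ψ.length ≤ 8)
    (hu : ¬ ψ <:+: u) (ht : ¬ ψ <:+: t) (hnd : (axs (last7 u)).Nodup)
    (hdis : ∀ i ∈ axs (last7 u), i ∉ axs t) : ¬ ψ <:+: u ++ t := by
  intro h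
  rcases List.infix_append_iff_ne_nil.1 h with h | h | ⟨x, y, hx, hy, rfl, hxu, hyt⟩
  · exact hu h
  · exact ht h
  · have hy' := List.length_pos_iff.2 hy
    have hxs := suffix_last7 hxu (by simp at h8; omega)
    cases x with
    | nil => exact hx rfl
    | cons l x' =>
      have h1 := hψ l (by simp)
      simp only [List.cons_append, List.tail_cons, axs_append, List.mem_append] at h1
      have hl : l.1 ∈ axs (last7 u) := axs_sub_of_infix hxs.isInfix (by simp)
      rcases h1 with h1 | h1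
      · have h2 : (axs (l :: x')).Nodup := by
          have : axs (l :: x') <:+ axs (last7 u) := by
            obtain ⟨s, hs⟩ := hxs
            exact ⟨axs s, by rw [← axs_append, hs]⟩
          exact this.sublist.nodup hnd
        rw [axs_cons, List.nodup_cons] at h2
        exact h2.1 h1
      · exact hdis _ hl (axs_sub_of_infix hyt.isInfix h1)

theorem UL_junction {u t : List (Ltr (Fin r))} (hu : UL u) (ht : UL t)
    (hnd : (axs (last7 u)).Nodup) (hdis : ∀ i ∈ axs (last7 u), i ∉ axs t) : UL (u ++ t) := by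
  refine ⟨fun m => junction_avoid (pair_headRep m) (by simp) (hu.1 m) (ht.1 m) hnd hdis, ?_, ?_⟩
  · intro φ hφ
    obtain ⟨h1, -, h2, -⟩ := F7_props hφ
    exact junction_avoid h2 (by omega) (hu.2.1 φ hφ) (ht.2.1 φ hφ) hnd hdis
  · intro φ hφ
    obtain ⟨h1, -, h2, -⟩ := F8_props hφ
    exact junction_avoid h2 (by omega) (hu.2.2 φ hφ) (ht.2.2 φ hφ) hnd hdis

theorem UL_dropLast7 {φ : List (Ltr (Fin r))} (h : φ ∈ F7 r) : UL φ.dropLast := by
  obtain ⟨g1, g2, g3, g4, g5⟩ := F7_props h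
  refine ⟨g4.fac (List.dropLast_prefix φ).isInfix, ?_, ?_⟩
  · intro ψ hψ hi
    have := hi.length_le
    rw [List.length_dropLast, (F7_props hψ).1] at this
    omega
  · intro ψ hψ hi
    have := hi.length_le
    rw [List.length_dropLast, (F8_props hψ).1] at this
    omega

theorem UL_dropLast8 {φ : List (Ltr (Fin r))} (h : φ ∈ F8 r) : UL φ.dropLast := by
  obtain ⟨g1, g2, g3, g4, g5, g6⟩ := F8_props h
  refine ⟨g4.fac (List.dropLast_prefix φ).isInfix, ?_, ?_⟩
  · intro ψ hψ hi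
    have h2 := hi.eq_of_length (by rw [List.length_dropLast, (F7_props hψ).1]; omega)
    have h3 := (F7_props hψ).2.2.2.2
    rw [h2] at h3
    omega
  · intro ψ hψ hi
    have := hi.length_le
    rw [List.length_dropLast, (F8_props hψ).1] at this
    omega

theorem BB_lower {m : ℕ} (hr : 0 < r) (hm : 7 ≤ m) {φ : List (Ltr (Fin r))} (hφ : φ.length ≤ 8)
    (hul : UL φ.dropLast) :
    (UA r m).card ≤ (BB r m φ).card + r ^ 6 * 28 ^ 7 * (UA r (m - 7)).card := by
  set Z : Finset (List (Ltr (Fin r))) := (words r 7).filter (fun w => ∃ Y : Finset (Fin r),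
    Y.card ≤ 6 ∧ ∀ i ∈ axs w, i ∈ (axs φ).toFinset ∨ i ∈ Y) with hZ
  have hZc : Z.card ≤ r ^ 6 * 28 ^ 7 := by
    refine (card_axes_le hr (axs φ).toFinset 6 7).trans ?_
    apply Nat.mul_le_mul_left
    apply Nat.pow_le_pow_left
    have h5 := (axs φ).toFinset_card_le
    rw [axs_length] at h5
    omega
  have hsub : UA r m ⊆ BB r m φ ∪ ((UA r (m - 7)) ×ˢ Z).image (fun p => p.1 ++ p.2) := by
    intro u hu
    rw [mem_UA] at hu
    rw [Finset.mem_union]
    by_cases hz : last7 u ∈ Z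
    · right
      rw [Finset.mem_image]
      refine ⟨(u.take (u.length - 7), last7 u), ?_, ?_⟩
      · rw [Finset.mem_product]
        refine ⟨mem_UA.2 ⟨by simp; omega, hu.2.fac (List.take_prefix _ _).isInfix⟩, hz⟩
      · simp [last7]
    · left
      simp only [BB, Finset.mem_filter, mem_words]
      refine ⟨hu.1, ?_⟩
      have hz' : ∀ Y : Finset (Fin r), Y.card ≤ 6 →
          ∃ i ∈ axs (last7 u), i ∉ (axs φ).toFinset ∧ i ∉ Y := by
        intro Y hY
        by_contra hcon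
        push Not at hcon
        apply hz
        simp only [hZ, Finset.mem_filter, mem_words]
        refine ⟨by simp [last7]; omega, Y, hY, fun i hi => ?_⟩
        by_cases h : i ∈ (axs φ).toFinset
        · exact Or.inl h
        · exact Or.inr (hcon i hi h)
      have hl7 : (last7 u).length = 7 := by simp [last7]; omega
      apply UL_junction hu.2 hul
      · by_contra hnd
        have h1 := nax_lt_of_not_nodup hnd
        obtain ⟨i, hi, -, h2⟩ := hz' (axs (last7 u)).toFinset (by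
          change nax (last7 u) ≤ 6; omega)
        exact h2 (List.mem_toFinset.2 hi)
      · intro i hi hit
        obtain ⟨j, hj, h1, h2⟩ := hz' ((axs (last7 u)).toFinset.erase i) (by
          rw [Finset.card_erase_of_mem (List.mem_toFinset.2 hi)]
          have := nax_le_length (last7 u)
          unfold nax at this
          omega)
        apply h2
        rw [Finset.mem_erase]
        refine ⟨?_, List.mem_toFinset.2 hj⟩
        rintro rfl
        apply h1
        rw [List.mem_toFinset]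
        exact axs_sub_of_infix (List.dropLast_prefix φ).isInfix hit
  refine (Finset.card_le_card hsub).trans ((Finset.card_union_le _ _).trans ?_)
  apply Nat.add_le_add_left
  refine Finset.card_image_le.trans ?_
  rw [Finset.card_product, mul_comm]
  exact Nat.mul_le_mul_right _ hZc

/-- the numbers as reals -/
noncomputable def ua (r n : ℕ) : ℝ := ((UA r n).card : ℝ)

theorem ua_nonneg (r n : ℕ) : 0 ≤ ua r n := by unfold ua; positivity

theorem ua_lower {r : ℕ} (hr : 14 ≤ r) (n : ℕ) : (r : ℝ) * ua r n ≤ ua r (n + 1) := by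
  have h := UA_lower r n
  have h2 : r * (UA r n).card ≤ (UA r (n + 1)).card :=
    (Nat.mul_le_mul_right _ (by omega)).trans h
  unfold ua
  exact_mod_cast h2

theorem ua_lower_pow {r : ℕ} (hr : 14 ≤ r) (n j : ℕ) :
    (r : ℝ) ^ j * ua r n ≤ ua r (n + j) := by
  induction j with
  | zero => simp
  | succ j ih =>
    calc (r : ℝ) ^ (j + 1) * ua r n = r * ((r : ℝ) ^ j * ua r n) := by ring
      _ ≤ r * ua r (n + j) := by gcongr
      _ ≤ ua r (n + j + 1) := ua_lower hr _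

theorem ua_upper {r n : ℕ} (hn : 7 ≤ n) : ua r (n + 1) ≤ 2 * r * ua r n := by
  have h := UA_upper (r := r) hn
  have h2 : (UA r (n + 1)).card ≤ 2 * r * (UA r n).card := by
    calc (UA r (n + 1)).card ≤ (2 * r - 1) * (UA r n).card := by omega
      _ ≤ _ := Nat.mul_le_mul_right _ (by omega)
  unfold ua
  exact_mod_cast h2

theorem ua_upper_pow {r n : ℕ} (hn : 7 ≤ n) (j : ℕ) : ua r (n + j) ≤ (2 * r) ^ j * ua r n := by
  induction j with
  | zero => simp
  | succ j ih =>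
    calc ua r (n + j + 1) ≤ 2 * r * ua r (n + j) := ua_upper (by omega)
      _ ≤ 2 * r * ((2 * r) ^ j * ua r n) := by gcongr
      _ = _ := by ring

theorem ua_step {r : ℕ} (hr : 28 ^ 7 ≤ r) {n : ℕ} (hn : 14 ≤ n) :
    ua r (n + 1) ≤ (2 * (r : ℝ) - 1 - 11 / 16 / (r : ℝ) ^ 3 + 2 * 28 ^ 7 / (r : ℝ) ^ 4) *
      ua r n := by
  have hr0 : 0 < r := by omega
  have hr14 : 14 ≤ r := by omega
  obtain ⟨K, hK⟩ : ∃ K : ℝ, K = 28 ^ 7 := ⟨_, rfl⟩
  have hrK : K ≤ (r : ℝ) := by rw [hK]; exact_mod_cast hr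
  have hK0 : 1000 ≤ K := by rw [hK]; norm_num
  have hrp : (0 : ℝ) < r := by linarith
  rw [← hK]
  have hA := ua_nonneg r n
  -- completed words
  have hBB : ∀ m, 7 ≤ m → ∀ φ : List (Ltr (Fin r)), φ.length ≤ 8 → UL φ.dropLast →
      (1 - K / r) * ua r m ≤ ((BB r m φ).card : ℝ) := by
    intro m hm φ h8 hul
    have h1 := BB_lower hr0 hm h8 hul
    have h2 : ua r m ≤ ((BB r m φ).card : ℝ) + (r : ℝ) ^ 6 * K * ua r (m - 7) := by
      rw [hK]; unfold ua; exact_mod_cast h1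
    have h3 := ua_lower_pow hr14 (m - 7) 7
    rw [show m - 7 + 7 = m by omega] at h3
    have h4 : (r : ℝ) ^ 6 * K * ua r (m - 7) ≤ K / r * ua r m := by
      calc (r : ℝ) ^ 6 * K * ua r (m - 7) = K / r * ((r : ℝ) ^ 7 * ua r (m - 7)) := by
            field_simp
        _ ≤ _ := by gcongr
    linarith
  have hKr : K / r ≤ 1 := by rw [div_le_one hrp]; exact hrK
  have h1 := UA_upper (r := r) (n := n) (by omega)
  have h2 : ua r (n + 1) + (∑ φ ∈ F7 r, ((BB r (n + 1 - 7) φ).card : ℝ) +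
      ∑ φ ∈ F8 r, ((BB r (n + 1 - 8) φ).card : ℝ)) ≤ (2 * (r : ℝ) - 1) * ua r n := by
    have h3 : ((2 * r - 1 : ℕ) : ℝ) = 2 * (r : ℝ) - 1 := by
      rw [Nat.cast_sub (by omega)]; push_cast; ring
    rw [← h3]; unfold ua; exact_mod_cast h1
  have e7 : (r : ℝ) ^ 3 * (28 - 224 / r) * ((1 - K / r) * (ua r n / (2 * r) ^ 6)) ≤
      ∑ φ ∈ F7 r, ((BB r (n + 1 - 7) φ).card : ℝ) := by
    have h3 : ua r n / (2 * (r : ℝ)) ^ 6 ≤ ua r (n + 1 - 7) := by
      rw [div_le_iff₀ (by positivity), mul_comm]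
      have := ua_upper_pow (r := r) (n := n + 1 - 7) (by omega) 6
      rwa [show n + 1 - 7 + 6 = n by omega] at this
    have h4 : ∑ φ ∈ F7 r, ((1 - K / r) * (ua r n / (2 * (r : ℝ)) ^ 6)) ≤
        ∑ φ ∈ F7 r, ((BB r (n + 1 - 7) φ).card : ℝ) := by
      apply Finset.sum_le_sum
      intro φ hφ
      refine le_trans ?_ (hBB (n + 1 - 7) (by omega) φ (by rw [(F7_props hφ).1]; norm_num)
        (UL_dropLast7 hφ))
      exact mul_le_mul_of_nonneg_left h3 (by linarith)
    refine le_trans ?_ h4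
    rw [Finset.sum_const, nsmul_eq_mul]
    apply mul_le_mul_of_nonneg_right _ (mul_nonneg (by linarith) (by positivity))
    have h5 : 28 * (r : ℝ) ^ 3 ≤ (F7 r).card + 224 * (r : ℝ) ^ 2 := by exact_mod_cast card_F7 hr0
    calc (r : ℝ) ^ 3 * (28 - 224 / r) = 28 * (r : ℝ) ^ 3 - 224 * (r : ℝ) ^ 2 := by
          field_simp
      _ ≤ _ := by linarith
  have e8 : (r : ℝ) ^ 4 * (32 - 2592 / r) * ((1 - K / r) * (ua r n / (2 * r) ^ 7)) ≤
      ∑ φ ∈ F8 r, ((BB r (n + 1 - 8) φ).card : ℝ) := by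
    have h3 : ua r n / (2 * (r : ℝ)) ^ 7 ≤ ua r (n + 1 - 8) := by
      rw [div_le_iff₀ (by positivity), mul_comm]
      have := ua_upper_pow (r := r) (n := n + 1 - 8) (by omega) 7
      rwa [show n + 1 - 8 + 7 = n by omega] at this
    have h4 : ∑ φ ∈ F8 r, ((1 - K / r) * (ua r n / (2 * (r : ℝ)) ^ 7)) ≤
        ∑ φ ∈ F8 r, ((BB r (n + 1 - 8) φ).card : ℝ) := by
      apply Finset.sum_le_sum
      intro φ hφ
      refine le_trans ?_ (hBB (n + 1 - 8) (by omega) φ (by rw [(F8_props hφ).1])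
        (UL_dropLast8 hφ))
      exact mul_le_mul_of_nonneg_left h3 (by linarith)
    refine le_trans ?_ h4
    rw [Finset.sum_const, nsmul_eq_mul]
    apply mul_le_mul_of_nonneg_right _ (mul_nonneg (by linarith) (by positivity))
    have h5 : 32 * (r : ℝ) ^ 4 ≤ (F8 r).card + 2592 * (r : ℝ) ^ 3 := by exact_mod_cast card_F8 hr0
    calc (r : ℝ) ^ 4 * (32 - 2592 / r) = 32 * (r : ℝ) ^ 4 - 2592 * (r : ℝ) ^ 3 := by
          field_simp
      _ ≤ _ := by linarith
  have e9 : (r : ℝ) ^ 3 * (28 - 224 / r) * ((1 - K / r) * (ua r n / (2 * r) ^ 6)) +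
      (r : ℝ) ^ 4 * (32 - 2592 / r) * ((1 - K / r) * (ua r n / (2 * r) ^ 7)) =
      ((1 - K / r) * (11 / 16 / (r : ℝ) ^ 3 - 95 / 4 / (r : ℝ) ^ 4)) * ua r n := by
    field_simp
    ring
  have e10 : 11 / 16 / (r : ℝ) ^ 3 - 2 * K / (r : ℝ) ^ 4 ≤
      (1 - K / r) * (11 / 16 / (r : ℝ) ^ 3 - 95 / 4 / (r : ℝ) ^ 4) := by
    have : (1 - K / r) * (11 / 16 / (r : ℝ) ^ 3 - 95 / 4 / (r : ℝ) ^ 4) =
        11 / 16 / (r : ℝ) ^ 3 - (11 / 16 * K + 95 / 4) / (r : ℝ) ^ 4 +
          K * (95 / 4) / (r : ℝ) ^ 5 := by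
      field_simp
      ring
    rw [this]
    have h3 : (11 / 16 * K + 95 / 4) / (r : ℝ) ^ 4 ≤ 2 * K / (r : ℝ) ^ 4 := by
      gcongr
      linarith
    have h4 : 0 ≤ K * (95 / 4) / (r : ℝ) ^ 5 := by positivity
    linarith
  have e11 := mul_le_mul_of_nonneg_right e10 hA
  nlinarith [h2, e7, e8, e9, e11]

theorem om_ub : ∀ r : ℕ, 28 ^ 7 ≤ r →
    om r ≤ 2 * (r : ℝ) - 1 - 11 / 16 / (r : ℝ) ^ 3 + 2 * 28 ^ 7 / (r : ℝ) ^ 4 := by
  intro r hr
  have hr0 : 0 < r := by omega
  have hrR : (28 : ℝ) ^ 7 ≤ r := by exact_mod_cast hr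
  have hrp : (1000 : ℝ) ≤ r := le_trans (by norm_num) hrR
  obtain ⟨lam, hlam⟩ : ∃ lam : ℝ, lam = 2 * (r : ℝ) - 1 - 11 / 16 / (r : ℝ) ^ 3 +
    2 * 28 ^ 7 / (r : ℝ) ^ 4 := ⟨_, rfl⟩
  rw [← hlam]
  have hl1 : 1 ≤ lam := by
    have h1 : 11 / 16 / (r : ℝ) ^ 3 ≤ 1 := by
      rw [div_le_iff₀ (by positivity)]
      have : (1000 : ℝ) ^ 3 ≤ (r : ℝ) ^ 3 := by gcongr
      linarith
    have h2 : 0 ≤ 2 * 28 ^ 7 / (r : ℝ) ^ 4 := by positivity
    rw [hlam]; linarith
  have hw : ∀ n, ua r n ≤ (2 * (r : ℝ)) ^ n := by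
    intro n
    have : (UA r n).card ≤ (2 * r) ^ n := by
      rw [← card_words]; exact Finset.card_filter_le _ _
    unfold ua; exact_mod_cast this
  have h2r : (1 : ℝ) ≤ 2 * r := by linarith
  have hbig : ∀ k, ua r (14 + k) ≤ (2 * (r : ℝ)) ^ 14 * lam ^ k := by
    intro k
    induction k with
    | zero => simpa using hw 14
    | succ k ih =>
      have h1 := ua_step hr (n := 14 + k) (by omega)
      rw [← hlam] at h1
      calc ua r (14 + k + 1) ≤ lam * ua r (14 + k) := h1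
        _ ≤ lam * ((2 * (r : ℝ)) ^ 14 * lam ^ k) := by gcongr
        _ = _ := by ring
  apply om_le_of_bound hr0 (C := (2 * (r : ℝ)) ^ 14) (by positivity) (by positivity)
  intro n
  have h0 : (sph r n : ℝ) ≤ ua r n := by
    unfold ua; exact_mod_cast sph_le_UA r n
  refine h0.trans ?_
  rcases Nat.lt_or_ge n 14 with hn | hn
  · calc ua r n ≤ (2 * (r : ℝ)) ^ n := hw n
      _ ≤ (2 * (r : ℝ)) ^ 14 * 1 := by
        rw [mul_one]; exact pow_le_pow_right₀ h2r hn.le
      _ ≤ _ := by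
        have : (1 : ℝ) ≤ lam ^ n := one_le_pow₀ hl1
        gcongr
  · obtain ⟨k, rfl⟩ := Nat.exists_eq_add_of_le hn
    refine (hbig k).trans ?_
    have : lam ^ k ≤ lam ^ (14 + k) := pow_le_pow_right₀ hl1 (by omega)
    gcongr

end Pool.Agent.Helper524_FM
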